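import Pool.Agent.Helper84.LE.Defs

set_option autoImplicit false
open scoped BigOperators ENNReal

namespace Pool.LE

variable {V : Type} [DecidableEq V]

theorem kc_mono {T T' S S' : V → V → ENNReal} (h : ∀ x y, T x y ≤ T' x y) (h' : ∀ x y, S x y ≤ S' x y)
    (x y : V) : kc T S x y ≤ kc T' S' x y := by
  unfold kc
  exact ENNReal.tsum_le_tsum fun z => mul_le_mul' (h x z) (h' z y)

theorem kc_assoc (T S R : V → V → ENNReal) : kc (kc T S) R = kc T (kc S R) := by
  funext x y
  unfold kc
  have h1 : ∀ z, (∑' w, T x w * S w z) * R z y = ∑' w, T x w * (S w z * R z y) := by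
    intro z
    rw [← ENNReal.tsum_mul_right]
    exact tsum_congr fun w => mul_assoc _ _ _
  have h2 : ∀ w, T x w * ∑' z, S w z * R z y = ∑' z, T x w * (S w z * R z y) := by
    intro w
    rw [ENNReal.tsum_mul_left]
  rw [tsum_congr h1, tsum_congr h2]
  exact ENNReal.tsum_comm

theorem kp_one (T : V → V → ENNReal) : kp T 1 = T := by
  funext x y
  show (∑' z, T x z * (if z = y then 1 else 0)) = T x y
  rw [tsum_eq_single y]
  · simp
  · intro z hz
    simp [hz]

theorem kp_two (T : V → V → ENNReal) : kp T 2 = kc T T := by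
  show kc T (kp T 1) = kc T T
  rw [kp_one]

theorem kc_kp_zero (T : V → V → ENNReal) : kc (kp T 0) T = T := by
  funext x y
  show (∑' z, (if x = z then 1 else 0) * T z y) = T x y
  rw [tsum_eq_single x]
  · simp
  · intro z hz
    simp [Ne.symm hz]

theorem kp_add (T : V → V → ENNReal) (m n : ℕ) : kp T (m + n) = kc (kp T m) (kp T n) := by
  induction m with
  | zero => rw [Nat.zero_add]; exact (bkp_kc_kp_zero T n).symm
  | succ m ih =>
    rw [Nat.succ_add]
    show kc T (kp T (m + n)) = kc (kc T (kp T m)) (kp T n)
    rw [ih, kc_assoc]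
where
  bkp_kc_kp_zero (T : V → V → ENNReal) (n : ℕ) : kc (kp T 0) (kp T n) = kp T n := by
    funext x y
    show (∑' z, (if x = z then 1 else 0) * kp T n z y) = kp T n x y
    rw [tsum_eq_single x]
    · simp
    · intro z hz
      simp [Ne.symm hz]

theorem kp_mul (T : V → V → ENNReal) (m n : ℕ) : kp (kp T m) n = kp T (m * n) := by
  induction n with
  | zero => rfl
  | succ n ih =>
    show kc (kp T m) (kp (kp T m) n) = _
    rw [ih, Nat.mul_succ, Nat.add_comm, kp_add]

theorem kp_mono {T S : V → V → ENNReal} (h : ∀ x y, T x y ≤ S x y) (n : ℕ) (x y : V) :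
    kp T n x y ≤ kp S n x y := by
  induction n generalizing x y with
  | zero => exact le_rfl
  | succ n ih => exact kc_mono h ih x y

/-- if the diagonal is at least one, powers are monotone -/
theorem kp_le_kp {T : V → V → ENNReal} (h : ∀ x, 1 ≤ T x x) {m n : ℕ} (hmn : m ≤ n) (x y : V) :
    kp T m x y ≤ kp T n x y := by
  induction n, hmn using Nat.le_induction with
  | base => exact le_rfl
  | succ n _ ih =>
    refine ih.trans ?_
    show kp T n x y ≤ ∑' z, T x z * kp T n z y
    calc kp T n x y = 1 * kp T n x y := (one_mul _).symm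
      _ ≤ T x x * kp T n x y := mul_le_mul' (h x) le_rfl
      _ ≤ ∑' z, T x z * kp T n z y := ENNReal.le_tsum x

theorem one_le_kp {T : V → V → ENNReal} (h : ∀ x, 1 ≤ T x x) (n : ℕ) (x : V) : 1 ≤ kp T n x x := by
  have h0 : kp T 0 x x = 1 := by simp [kp]
  rw [← h0]
  exact kp_le_kp h (Nat.zero_le n) x x

theorem kp_symm {T : V → V → ENNReal} (h : ∀ x y, T x y = T y x) (n : ℕ) (x y : V) :
    kp T n x y = kp T n y x := by
  induction n generalizing x y with
  | zero =>
    show (if x = y then (1 : ENNReal) else 0) = if y = x then 1 else 0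
    by_cases hxy : x = y
    · simp [hxy]
    · simp [hxy, Ne.symm hxy]
  | succ n ih =>
    have h1 : kp T (n + 1) y x = kc (kp T n) T y x := by
      rw [kp_add, kp_one]
    rw [h1]
    show (∑' z, T x z * kp T n z y) = ∑' z, kp T n y z * T z x
    refine tsum_congr fun z => ?_
    rw [h x z, ih z y, mul_comm]

theorem le_kc_self {T : V → V → ENNReal} (h : ∀ x, 1 ≤ T x x) (x y : V) : T x y ≤ kc T T x y := by
  have h1 := kp_le_kp h (show 1 ≤ 2 by norm_num) x y
  rwa [kp_one, kp_two] at h1

theorem cw_mono {T S : V → V → ENNReal} (h : ∀ x y, T x y ≤ S x y) (x : V) (l : List V) (y : V) :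
    cw T x l y ≤ cw S x l y := by
  induction l generalizing x with
  | nil => exact h x y
  | cons z l ih => exact mul_le_mul' (h x z) (ih z)

theorem cm_mono {T S : V → V → ENNReal} (h : ∀ x y, T x y ≤ S x y) (c : V × List V × V) :
    cm T c ≤ cm S c := by
  unfold cm
  exact List.sum_le_sum fun l _ => cw_mono h _ l _

theorem cmL_mono {T S : V → V → ENNReal} (h : ∀ x y, T x y ≤ S x y) (L : List (V × List V × V)) :
    cmL T L ≤ cmL S L := by
  unfold cmL
  induction L with
  | nil => simp
  | cons c L ih =>
    rw [List.map_cons, List.map_cons, List.prod_cons, List.prod_cons]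
    exact mul_le_mul' (cm_mono h c) ih

theorem cm_nil (T : V → V → ENNReal) (x y : V) : cm T (x, [], y) = T x y := by
  simp [cm, cw]

theorem bkp_cm_eq (T : V → V → ENNReal) (x : V) (M : List V) (y : V) :
    cm T (x, M, y) = (M.permutations'.map (fun l => cw T x l y)).sum := by
  unfold cm
  exact ((List.permutations_perm_permutations' M).map _).sum_eq

theorem cm_one (T : V → V → ENNReal) (x a y : V) : cm T (x, [a], y) = T x a * T a y := by
  rw [bkp_cm_eq]
  simp [List.permutations', List.permutations'Aux, cw]

theorem cm_two (T : V → V → ENNReal) (x a b y : V) :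
    cm T (x, [a, b], y) = T x a * T a b * T b y + T x b * T b a * T a y := by
  rw [bkp_cm_eq]
  simp [List.permutations', List.permutations'Aux, cw, mul_assoc]

theorem cmL_cons (T : V → V → ENNReal) (c : V × List V × V) (L : List (V × List V × V)) :
    cmL T (c :: L) = cm T c * cmL T L := by
  simp [cmL]

theorem bkp_tsum_list_sum {α : Type} (l : List α) (f : V → α → ENNReal) :
    ∑' z : V, (l.map (f z)).sum = (l.map (fun a => ∑' z : V, f z a)).sum := by
  induction l with
  | nil => simp
  | cons a l ih =>
    simp only [List.map_cons, List.sum_cons]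
    rw [ENNReal.tsum_add, ih]

theorem bkp_sum_flatMap_map {α β : Type} (P : List α) (g : α → List β) (f : β → ENNReal) :
    ((P.flatMap g).map f).sum = (P.map (fun l => ((g l).map f).sum)).sum := by
  induction P with
  | nil => simp
  | cons a P ih =>
    rw [List.flatMap_cons, List.map_append, List.sum_append, ih, List.map_cons, List.sum_cons]

theorem bkp_free_word {T : V → V → ENNReal} (h : ∀ x, 1 ≤ T x x) (x : V) (l : List V) (y : V) :
    ∑' z : V, ((List.permutations'Aux z l).map (fun l' => cw T x l' y)).sum ≤
      ((l.length + 1 : ℕ) : ENNReal) * cw (kc T T) x l y := by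
  induction l generalizing x with
  | nil =>
    simp only [List.permutations'Aux, List.map_cons, List.map_nil, List.sum_cons, List.sum_nil,
      List.length_nil, cw, add_zero]
    show (∑' z, T x z * T z y) ≤ ((0 + 1 : ℕ) : ENNReal) * ∑' z, T x z * T z y
    simp
  | cons a l ih =>
    have hmono : ∀ u v, T u v ≤ kc T T u v := le_kc_self h
    have h1 : ∀ z : V, ((List.permutations'Aux z (a :: l)).map (fun l' => cw T x l' y)).sum =
        T x z * T z a * cw T a l y +
          T x a * ((List.permutations'Aux z l).map (fun l' => cw T a l' y)).sum := by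
      intro z
      rw [List.permutations'Aux, List.map_cons, List.sum_cons, List.map_map]
      congr 1
      · show T x z * (T z a * cw T a l y) = _
        rw [mul_assoc]
      · rw [← List.sum_map_mul_left]
        rfl
    rw [tsum_congr h1, ENNReal.tsum_add, ENNReal.tsum_mul_right, ENNReal.tsum_mul_left]
    have h2 : (∑' z, T x z * T z a) * cw T a l y ≤ kc T T x a * cw (kc T T) a l y :=
      mul_le_mul' le_rfl (cw_mono hmono a l y)
    have h3 : T x a * ∑' z, ((List.permutations'Aux z l).map (fun l' => cw T a l' y)).sum ≤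
        kc T T x a * (((l.length + 1 : ℕ) : ENNReal) * cw (kc T T) a l y) :=
      mul_le_mul' (hmono x a) (ih a)
    refine (add_le_add h2 h3).trans (le_of_eq ?_)
    show _ = (((a :: l).length + 1 : ℕ) : ENNReal) * (kc T T x a * cw (kc T T) a l y)
    rw [List.length_cons]
    push_cast
    ring

theorem bkp_free_chain {T : V → V → ENNReal} (h : ∀ x, 1 ≤ T x x) (x : V) (M : List V) (y : V) :
    ∑' z : V, cm T (x, z :: M, y) ≤ ((M.length + 1 : ℕ) : ENNReal) * cm (kc T T) (x, M, y) := by
  have h1 : ∀ z : V, cm T (x, z :: M, y) =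
      (M.permutations'.map (fun l =>
        ((List.permutations'Aux z l).map (fun l' => cw T x l' y)).sum)).sum := by
    intro z
    rw [bkp_cm_eq, List.permutations', bkp_sum_flatMap_map]
  rw [tsum_congr h1, bkp_tsum_list_sum, bkp_cm_eq, ← List.sum_map_mul_left]
  refine List.sum_le_sum fun l hl => ?_
  have hlen : l.length = M.length := by
    have := List.mem_permutations'.1 hl
    exact this.length_eq
  rw [← hlen]
  exact bkp_free_word h x l y

/-- **FREE** (plan 3.8): summing over a freely inserted mark -/
theorem free {T : V → V → ENNReal} (h : ∀ x, 1 ≤ T x x) (L : List (V × List V × V)) :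
    ∑' z : V, ((ins z L).map (cmL T)).sum ≤
      (((L.map (fun c => c.2.1.length + 1)).sum : ℕ) : ENNReal) * cmL (kc T T) L := by
  induction L with
  | nil => simp [ins]
  | cons c L ih =>
    have hmono : ∀ u v, T u v ≤ kc T T u v := le_kc_self h
    have h1 : ∀ z : V, ((ins z (c :: L)).map (cmL T)).sum =
        cm T (c.1, z :: c.2.1, c.2.2) * cmL T L + cm T c * ((ins z L).map (cmL T)).sum := by
      intro z
      rw [ins, List.map_cons, List.sum_cons, cmL_cons, List.map_map, ← List.sum_map_mul_left]
      congr 2
    rw [tsum_congr h1, ENNReal.tsum_add, ENNReal.tsum_mul_right, ENNReal.tsum_mul_left]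
    have h2 := mul_le_mul' (bkp_free_chain h c.1 c.2.1 c.2.2) (cmL_mono hmono L)
    have h3 := mul_le_mul' (cm_mono hmono c) ih
    refine (add_le_add h2 h3).trans (le_of_eq ?_)
    rw [cmL_cons, List.map_cons, List.sum_cons]
    push_cast
    ring

end Pool.LE
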