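import Pool.Agent.Helper84.LE.St7

set_option autoImplicit false
open scoped BigOperators Topology
open MeasureTheory Filter

namespace Pool.LE

/-- final assembly of the frozen statement -/
theorem final (hC : StCritAll) (hL : StCritLim) (hB : StCritBasic) (hT : StTnMeas) (hP : StPc)
    (hF : StFTcomplex) :
    ∃ d0 : ℕ, 6 < d0 ∧ ∀ d : ℕ, d0 ≤ d →
      ∀ G : ℝ → (((Fin d → ℤ) × Fin d) → unitInterval) → SimpleGraph (Fin d → ℤ),
        (∀ (p : ℝ) (ω : ((Fin d → ℤ) × Fin d) → unitInterval),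
          G p ω = SimpleGraph.fromRel (fun x y : Fin d → ℤ =>
            ∃ i : Fin d, y = x + Pi.single i (1 : ℤ) ∧ ((ω (x, i) : ℝ) < p))) →
        ∀ pc : ℝ,
          pc = sSup {p : ℝ |
            Measure.infinitePi (fun _ : (Fin d → ℤ) × Fin d => (volume : Measure unitInterval))
              {ω : ((Fin d → ℤ) × Fin d) → unitInterval |
                {x : Fin d → ℤ | (G p ω).Reachable 0 x}.Infinite} = 0} →
          ∃ A σ : ℝ, 0 < A ∧ 0 < σ ∧ ∀ k : Fin d → ℝ,
            Tendsto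
              (fun n : ℕ => ∑' x : Fin d → ℤ,
                (((Measure.infinitePi
                    (fun _ : (Fin d → ℤ) × Fin d => (volume : Measure unitInterval))
                    {ω : ((Fin d → ℤ) × Fin d) → unitInterval |
                      (G pc ω).Reachable 0 x ∧ (G pc ω).dist 0 x = n}).toReal : ℝ) : ℂ) *
                  Complex.exp (Complex.I *
                    (((∑ j : Fin d, k j * (x j : ℝ)) / Real.sqrt (n : ℝ) : ℝ) : ℂ)))
              atTop
              (𝓝 ((A : ℂ) *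
                Complex.exp ((-(σ ^ 2 * (∑ j : Fin d, k j ^ 2) / (2 * (d : ℝ))) : ℝ) : ℂ))) := by
  obtain ⟨d₀, h6, hd₀⟩ := hC
  refine ⟨d₀, h6, fun d hd G hG pc hpc => ?_⟩
  obtain ⟨hlt, hcr⟩ := hd₀ d hd
  have hGp : ∀ p ω, G p ω = Gp d p ω := fun p ω => hG p ω
  have hpc' : pc = pH d := by
    rw [hpc, ← hP d hcr.hd hlt]
    simp only [hGp, Pi8]
  obtain ⟨hv, hmu, hg, -, -⟩ := hB d (pH d) (1 / 8) hcr
  refine ⟨(∑' m : ℕ, FT (gm d (pH d) m) 0) / muD d (pH d), Real.sqrt (vD d (pH d) / muD d (pH d)),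
    div_pos hg hmu, Real.sqrt_pos.2 (div_pos hv hmu), fun k => ?_⟩
  have hlim := hL d (pH d) (1 / 8) hcr k
  have hsq : Real.sqrt (vD d (pH d) / muD d (pH d)) ^ 2 = vD d (pH d) / muD d (pH d) :=
    Real.sq_sqrt (div_pos hv hmu).le
  have hval : (((∑' m : ℕ, FT (gm d (pH d) m) 0) / muD d (pH d) : ℝ) : ℂ) *
      Complex.exp ((-(Real.sqrt (vD d (pH d) / muD d (pH d)) ^ 2 * (∑ j : Fin d, k j ^ 2) /
        (2 * (d : ℝ))) : ℝ) : ℂ) =
      (((∑' m : ℕ, FT (gm d (pH d) m) 0) / muD d (pH d) *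
        Real.exp (-((∑ i, k i ^ 2) / (2 * d) * vD d (pH d)) / muD d (pH d)) : ℝ) : ℂ) := by
    rw [hsq, Complex.ofReal_mul, ← Complex.ofReal_exp]
    congr 3
    ring
  rw [hval]
  refine ((Complex.continuous_ofReal.tendsto _).comp hlim).congr fun n => ?_
  rw [Function.comp_apply, ← hF d n (pH d) k]
  refine tsum_congr fun x => ?_
  rw [hpc']
  have := hT d (pH d) n x hcr.hp0.le (by linarith [hcr.hp1])
  simp only [hGp]
  rw [← this]
  rfl

end Pool.LE
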