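import Pool.Agent.Helper84.LE.M_WIT

/-! LE module ATT (plan 3.3): attaching a line and an ear. -/

set_option autoImplicit false

namespace Pool.LE

section ATT

variable {V : Type} [DecidableEq V]

/-- the first vertex of a walk in `H` -/
theorem att_first {ω : Finset (Sym2 V)} (H : Finset V) {y h : V} (q : (gr ω).Walk y h)
    (hh : h ∈ H) : ∃ z ∈ H, ∃ (q₁ : (gr ω).Walk y z) (q₂ : (gr ω).Walk z h),
      q = q₁.append q₂ ∧ ∀ v ∈ q₁.support, v ∈ H → v = z := by
  induction q with
  | @nil u => exact ⟨u, hh, SimpleGraph.Walk.nil, SimpleGraph.Walk.nil, rfl, by simp⟩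
  | @cons u v w hadj q ih =>
    by_cases hu : u ∈ H
    · exact ⟨u, hu, SimpleGraph.Walk.nil, SimpleGraph.Walk.cons hadj q, rfl, by simp⟩
    · obtain ⟨z, hz, q₁, q₂, hq, hs⟩ := ih hh
      refine ⟨z, hz, SimpleGraph.Walk.cons hadj q₁, q₂, by rw [hq]; rfl, ?_⟩
      intro x hx hxH
      rw [SimpleGraph.Walk.support_cons, List.mem_cons] at hx
      rcases hx with rfl | hx
      · exact absurd hxH hu
      · exact hs x hx hxH

theorem att_not_mem {ω η : Finset (Sym2 V)} {H : Finset V} (hη : ∀ e ∈ η, ∀ v ∈ e, v ∈ H)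
    {y z : V} (q : (gr ω).Walk y z) (hs : ∀ v ∈ q.support, v ∈ H → v = z) {e : Sym2 V}
    (he : e ∈ q.edges) : e ∉ η := by
  intro heη
  have hd := (wit_mem_edges q he).2
  induction e with
  | _ a b =>
  have ha : a = z := hs a (q.fst_mem_support_of_mem_edges he) (hη _ heη a (Sym2.mem_mk_left a b))
  have hb : b = z := hs b (q.snd_mem_support_of_mem_edges he) (hη _ heη b (Sym2.mem_mk_right a b))
  apply hd
  rw [Sym2.mk_isDiag_iff, ha, hb]

theorem att_insL_one {z : V} {L L' : List (V × List V × V)} (h : L' ∈ insL [z] L) :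
    L' ∈ ins z L := by
  simpa [insL] using h

/-- put a trail in front of a realisation -/
theorem att_glue {ω η : Finset (Sym2 V)} (hηω : η ⊆ ω) {a b : V} (ms : List V)
    (q : (gr ω).Walk a b) (hq : q.IsTrail) (hm : ∀ m ∈ ms, m ∈ q.support)
    (hne : ∀ e ∈ q.edges, e ∉ η) {L : List (V × List V × V)} (hL : DR L η) :
    DR ((a, ms, b) :: L) ω := by
  classical
  refine ⟨q.edges.toFinset, ?_, ?_, ?_⟩
  · intro e he
    rw [List.mem_toFinset] at he
    exact (wit_mem_edges q he).1
  · obtain ⟨q', hq', hs, -⟩ := wit_transfer (η := q.edges.toFinset) q (fun e he => by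
      rw [List.mem_toFinset]; exact he)
    refine ⟨q', ?_, ?_⟩
    · rw [SimpleGraph.Walk.isTrail_def, hq']; exact hq.edges_nodup
    · intro m hmm
      rw [hs]; exact hm m hmm
  · refine wit_DR_mono L ?_ hL
    intro e he
    refine Finset.mem_sdiff.2 ⟨hηω he, fun h => ?_⟩
    rw [List.mem_toFinset] at h
    exact hne e h he

end ATT

theorem hATT (hWIT : StWIT) : StATT := by
  classical
  intro V _ ω L h y hD hh hc
  obtain ⟨H, η, hηω, hη, hP, hZ⟩ := hWIT V ω L hD
  obtain ⟨q⟩ := hc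
  have hcp : ∃ q : (gr ω).Walk y h, q.IsPath := ⟨q.reverse.toPath, q.reverse.toPath.2⟩
  obtain ⟨q, hq⟩ := hcp
  obtain ⟨z, hz, q₁, q₂, hqq, hs⟩ := att_first H q (hP h hh)
  obtain ⟨L', hL', hDL⟩ := hZ [z] (by simpa using hz)
  refine ⟨z, L', att_insL_one hL', ?_⟩
  have hq₁ : q₁.IsPath := by
    rw [hqq] at hq; exact hq.of_append_left
  refine att_glue hηω [] q₁.reverse hq₁.reverse.isTrail (by simp) ?_ hDL
  intro e he
  rw [SimpleGraph.Walk.edges_reverse, List.mem_reverse] at he
  exact att_not_mem hη q₁ hs he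

theorem hEAR (hWIT : StWIT) : StEAR := by
  classical
  intro V _ ω L h₁ h₂ y hD hh₁ hh₂ hY
  obtain ⟨H, η, hηω, hη, hP, hZ⟩ := hWIT V ω L hD
  obtain ⟨q, hq, hy⟩ := hY
  obtain ⟨a, b, hab⟩ : ∃ (a : (gr ω).Walk h₁ y) (b : (gr ω).Walk y h₂), q = a.append b :=
    ⟨q.takeUntil y hy, q.dropUntil y hy, (q.take_spec hy).symm⟩
  subst hab
  obtain ⟨z₁, hz₁, r₁, r₂, hr, hrs⟩ := att_first H a.reverse (hP h₁ hh₁)
  obtain ⟨z₂, hz₂, s₁, s₂, hs, hss⟩ := att_first H b (hP h₂ hh₂)
  obtain ⟨L', hL', hDL⟩ := hZ [z₁, z₂] (by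
    intro z hz
    simp only [List.mem_cons, List.not_mem_nil, or_false] at hz
    rcases hz with rfl | rfl
    · exact hz₁
    · exact hz₂)
  simp only [insL, List.mem_flatMap] at hL'
  obtain ⟨L₁, hL₁, L₂, hL₂, hL'⟩ := hL'
  simp only [List.mem_singleton] at hL'
  subst hL'
  refine ⟨z₁, z₂, L₁, hL₁, L', hL₂, ?_⟩
  have hnd : (a.append b).edges.Nodup := hq.isTrail.edges_nodup
  rw [SimpleGraph.Walk.edges_append, List.nodup_append] at hnd
  have ha : a.reverse.edges = r₁.edges ++ r₂.edges := by rw [hr, SimpleGraph.Walk.edges_append]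
  have hb : b.edges = s₁.edges ++ s₂.edges := by rw [hs, SimpleGraph.Walk.edges_append]
  have hra : ∀ e ∈ r₁.edges, e ∈ a.edges := by
    intro e he
    have : e ∈ a.reverse.edges := by rw [ha]; exact List.mem_append_left _ he
    rwa [SimpleGraph.Walk.edges_reverse, List.mem_reverse] at this
  have hsb : ∀ e ∈ s₁.edges, e ∈ b.edges := by
    intro e he; rw [hb]; exact List.mem_append_left _ he
  have hr₁ : r₁.edges.Nodup := by
    have : a.reverse.edges.Nodup := by
      rw [SimpleGraph.Walk.edges_reverse]; exact List.nodup_reverse.2 hnd.1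
    rw [ha] at this
    exact (List.nodup_append.1 this).1
  have hs₁ : s₁.edges.Nodup := by
    have := hnd.2.1
    rw [hb] at this
    exact (List.nodup_append.1 this).1
  refine att_glue hηω [y] (r₁.reverse.append s₁) ?_ ?_ ?_ hDL
  · rw [SimpleGraph.Walk.isTrail_def, SimpleGraph.Walk.edges_append,
      SimpleGraph.Walk.edges_reverse, List.nodup_append]
    refine ⟨List.nodup_reverse.2 hr₁, hs₁, ?_⟩
    intro e he e' he' hee
    rw [List.mem_reverse] at he
    exact hnd.2.2 e (hra e he) e' (hsb e' he') hee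
  · intro m hm
    simp only [List.mem_singleton] at hm
    subst hm
    rw [SimpleGraph.Walk.mem_support_append_iff]
    exact Or.inr s₁.start_mem_support
  · intro e he
    rw [SimpleGraph.Walk.edges_append, List.mem_append, SimpleGraph.Walk.edges_reverse,
      List.mem_reverse] at he
    rcases he with he | he
    · exact att_not_mem hη r₁ hrs he
    · exact att_not_mem hη s₁ hss he

end Pool.LE
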