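import Pool.Agent.Helper84.LE.St5

/-! MP_e167eb: basic facts below `pH` (module B1). -/

set_option autoImplicit false
open scoped BigOperators Topology
open MeasureTheory Filter

namespace Pool.LE

theorem b1_Qw {d : ℕ} (x : Zd d) : 1 ≤ Qw x := by
  have h : 0 ≤ sq x := Finset.sum_nonneg fun i _ => sq_nonneg _
  unfold Qw
  linarith

theorem b1_summable {d : ℕ} {f : Zd d → ℝ} (hf : SumQ f) : Summable f := by
  refine Summable.of_norm_bounded hf fun x => ?_
  rw [Real.norm_eq_abs]
  exact le_mul_of_one_le_left (abs_nonneg _) (b1_Qw x)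

theorem hB1 (h6a : StS6a) (h6d : StS6d) (hTB : StTauBasic) : StB1 := by
  intro d p hd h0 hp
  have h1 : p ≤ 1 / 2 := hp.le.trans (h6d d hd).2
  have hs := h6a d p hd h0 hp
  obtain ⟨-, t2, -, -, t5⟩ := hTB d p h0 (by linarith)
  have hsum := b1_summable hs
  have h3 : 1 ≤ chi d p := by
    have h4 : tau d p 0 = 1 := by
      unfold tau
      rw [t2, ENNReal.toReal_one]
    rw [← h4]
    exact hsum.le_tsum 0 fun x _ => (t5 x).1
  have h5 : FT (tau d p) 0 = chi d p := by
    unfold FT chi
    refine tsum_congr fun x => ?_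
    simp
  have h6 : 0 < 1 / chi d p := by positivity
  have h7 : 1 / chi d p ≤ 1 := (div_le_one (by linarith)).2 h3
  refine ⟨h1, hs, h3, h5, ?_, ?_, ?_⟩
  · unfold lam
    linarith
  · unfold lam
    linarith
  · unfold lam
    ring

end Pool.LE
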