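import Pool.Agent.Helper84.LE.St5

/-! LE module B7: the bootstrap conclusion below `pH`. -/

set_option autoImplicit false
open scoped BigOperators Topology
open MeasureTheory Filter

namespace Pool.LE

theorem Bd.mono_B7 {a b : ℝ} (hab : a ≤ b) {d : ℕ} {p : ℝ} (h : Bd a d p) : Bd b d p :=
  ⟨h.hp.trans hab, fun k hk => (h.ft k hk).trans hab, fun k hk => (h.mt k hk).trans hab⟩

theorem hB7 (hBoot : StBoot) (hOC0 : StOC0) (hOC1 : StOC1) (hCon : StCon01) (h6d : StS6d) :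
    StB7 := by
  obtain ⟨C, hC, d₁, hd₁⟩ := hBoot
  refine ⟨C, hC, max d₁ 1, fun d hd => ?_⟩
  have hd1 : d₁ ≤ d := (le_max_left _ _).trans hd
  have hd0 : 0 < d := lt_of_lt_of_le Nat.one_pos ((le_max_right _ _).trans hd)
  have hdR : (0 : ℝ) < d := by exact_mod_cast hd0
  obtain ⟨hpos, -⟩ := h6d d hd0
  have key : ∀ p, 0 ≤ p → p < pH d → Bd 2 d p := by
    refine hCon (pH d) (fun p => Bd 2 d p) hpos (hOC0 d hd0) ?_ ?_
    · intro p₀ hp₀ hpH hB
      filter_upwards [(hOC1 d p₀ hd0 hp₀ hpH).1 hB, self_mem_nhdsWithin] with p hp3 hpI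
      exact (hd₁ d hd1 p hpI.1 hpI.2 hp3).1
    · intro p₀ hp₀ hpH hfr
      exact (hOC1 d p₀ hd0 hp₀ hpH).2 hfr
  refine ⟨fun p hp hpH => ⟨key p hp hpH,
    (hd₁ d hd1 p hp hpH ((key p hp hpH).mono_B7 (by norm_num))).2⟩, ?_⟩
  refine le_of_forall_lt_imp_le_of_dense fun p hp => ?_
  rcases le_or_gt 0 p with h0 | h0
  · have h1 := (key p h0 hp).hp
    rw [le_div_iff₀ hdR]
    linarith
  · exact h0.le.trans (by positivity)

end Pool.LE
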