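import Pool.Agent.Helper84.LE.St5

/-! Plan section 8: the critical point in high dimension. -/

set_option autoImplicit false
open scoped BigOperators Topology
open MeasureTheory Filter

namespace Pool.LE

theorem hB8 (hB7 : StB7) (hLim : StLim) (hCrit : StCrit) (h6d : StS6d) : StB8 := by
  obtain ⟨C, hC, d₁, h⟩ := hB7
  refine ⟨max (max d₁ 3) ⌈(200 * C) ^ 2⌉₊, le_trans (le_max_right d₁ 3) (le_max_left _ _), ?_⟩
  intro d hd
  have hd1 : d₁ ≤ d := le_trans (le_trans (le_max_left _ _) (le_max_left _ _)) hd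
  have hd3 : 3 ≤ d := le_trans (le_trans (le_max_right _ _) (le_max_left _ _)) hd
  have hd4 : (200 * C) ^ 2 ≤ d :=
    le_trans (Nat.le_ceil _) (by exact_mod_cast le_trans (le_max_right _ _) hd)
  obtain ⟨h1, h2⟩ := h d hd1
  have hd0 : 0 < d := by omega
  have hpos := (h6d d hd0).1
  have hd3' : (3 : ℝ) ≤ d := by exact_mod_cast hd3
  have hlt : pH d < 1 / 2 := by
    have h3 : (1 : ℝ) / d ≤ 1 / 3 := one_div_le_one_div_of_le (by norm_num) hd3'
    linarith
  have hs : C / Real.sqrt d ≤ 1 / 200 := by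
    have h3 : 200 * C ≤ Real.sqrt d := by
      rw [← Real.sqrt_sq (show (0 : ℝ) ≤ 200 * C by linarith)]
      exact Real.sqrt_le_sqrt hd4
    have h4 : 0 < Real.sqrt d := by linarith
    rw [div_le_iff₀ h4]
    linarith
  have he : ∀ p : ℝ, 0 ≤ p → p < pH d → eta d p ≤ ENNReal.ofReal (1 / 200) := by
    intro p hp hp1
    exact le_trans (h1 p hp hp1).2 (ENNReal.ofReal_le_ofReal hs)
  have he' := hLim d (pH d) _ hpos he
  refine ⟨hpos, h2, hlt, he', hCrit d (1 / 200) hd0 ?_ hlt⟩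
  intro p hp hp1
  rcases lt_or_eq_of_le hp1 with h3 | h3
  · exact he p hp h3
  · rw [h3]
    exact he'

end Pool.LE
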