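import Pool.Agent.Helper84.LE.Defs

set_option autoImplicit false
open scoped BigOperators Polynomial

namespace Pool.LE

variable {V : Type} [DecidableEq V]

theorem wt_nonneg {p : ℝ} (h0 : 0 ≤ p) (h1 : p ≤ 1) (E ω : Finset (Sym2 V)) : 0 ≤ wt E p ω :=
  mul_nonneg (pow_nonneg h0 _) (pow_nonneg (by linarith) _)

theorem wt_insert_notMem {E : Finset (Sym2 V)} {e : Sym2 V} (he : e ∉ E) (p : ℝ)
    {ω : Finset (Sym2 V)} (hω : ω ⊆ E) : wt (insert e E) p ω = (1 - p) * wt E p ω := by
  have heω : e ∉ ω := fun h => he (hω h)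
  unfold wt
  have h : (insert e E) \ ω = insert e (E \ ω) := Finset.insert_sdiff_of_notMem _ heω
  rw [h, Finset.card_insert_of_notMem (by simp [he])]
  ring

theorem wt_insert_mem {E : Finset (Sym2 V)} {e : Sym2 V} (he : e ∉ E) (p : ℝ)
    {ω : Finset (Sym2 V)} (hω : ω ⊆ E) : wt (insert e E) p (insert e ω) = p * wt E p ω := by
  have heω : e ∉ ω := fun h => he (hω h)
  unfold wt
  have h : (insert e E) \ (insert e ω) = E \ ω := by
    ext a
    simp only [Finset.mem_sdiff, Finset.mem_insert, not_or]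
    constructor
    · rintro ⟨h1 | h1, h2, h3⟩
      · exact absurd h1 h2
      · exact ⟨h1, h3⟩
    · rintro ⟨h1, h3⟩
      exact ⟨Or.inr h1, fun h => he (h ▸ h1), h3⟩
  rw [h, Finset.card_insert_of_notMem heω]
  ring

/-- splitting off one edge -/
theorem sum_insert_wt {E : Finset (Sym2 V)} {e : Sym2 V} (he : e ∉ E) (p : ℝ)
    {M : Type} [AddCommMonoid M] [Module ℝ M] (f : Finset (Sym2 V) → M) :
    Ex (insert e E) p f = (1 - p) • Ex E p f + p • Ex E p (fun ω => f (insert e ω)) := by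
  unfold Ex
  rw [Finset.sum_powerset_insert he, Finset.smul_sum, Finset.smul_sum]
  congr 1
  · refine Finset.sum_congr rfl fun ω hω => ?_
    rw [wt_insert_notMem he p (Finset.mem_powerset.1 hω), mul_smul]
  · refine Finset.sum_congr rfl fun ω hω => ?_
    rw [wt_insert_mem he p (Finset.mem_powerset.1 hω), mul_smul]

theorem sum_wt (E : Finset (Sym2 V)) (p : ℝ) : ∑ ω ∈ E.powerset, wt E p ω = 1 := by
  induction E using Finset.induction_on with
  | empty => simp [wt]
  | insert e E he ih =>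
    have h := sum_insert_wt he p (fun _ => (1 : ℝ))
    unfold Ex at h
    simp only [smul_eq_mul, mul_one] at h
    rw [h, ih]
    ring

theorem ExE_insert {E : Finset (Sym2 V)} {e : Sym2 V} (he : e ∉ E) {p : ℝ} (h0 : 0 ≤ p) (h1 : p ≤ 1)
    (f : Finset (Sym2 V) → ENNReal) :
    ExE (insert e E) p f =
      ENNReal.ofReal (1 - p) * ExE E p f + ENNReal.ofReal p * ExE E p (fun ω => f (insert e ω)) := by
  unfold ExE
  rw [Finset.sum_powerset_insert he, Finset.mul_sum, Finset.mul_sum]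
  congr 1
  · refine Finset.sum_congr rfl fun ω hω => ?_
    rw [wt_insert_notMem he p (Finset.mem_powerset.1 hω), ENNReal.ofReal_mul (by linarith), mul_assoc]
  · refine Finset.sum_congr rfl fun ω hω => ?_
    rw [wt_insert_mem he p (Finset.mem_powerset.1 hω), ENNReal.ofReal_mul h0, mul_assoc]

section
variable {M : Type} [AddCommMonoid M] [Module ℝ M]

theorem Ex_congr {E : Finset (Sym2 V)} {p : ℝ} {f g : Finset (Sym2 V) → M}
    (h : ∀ ω ⊆ E, f ω = g ω) : Ex E p f = Ex E p g := by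
  unfold Ex
  exact Finset.sum_congr rfl fun ω hω => by rw [h ω (Finset.mem_powerset.1 hω)]

theorem Ex_add (E : Finset (Sym2 V)) (p : ℝ) (f g : Finset (Sym2 V) → M) :
    Ex E p (fun ω => f ω + g ω) = Ex E p f + Ex E p g := by
  unfold Ex
  simp only [smul_add, Finset.sum_add_distrib]

theorem Ex_smul (E : Finset (Sym2 V)) (p c : ℝ) (f : Finset (Sym2 V) → M) :
    Ex E p (fun ω => c • f ω) = c • Ex E p f := by
  unfold Ex
  rw [Finset.smul_sum]
  exact Finset.sum_congr rfl fun ω _ => smul_comm _ _ _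

theorem Ex_sum {ι : Type} (s : Finset ι) (E : Finset (Sym2 V)) (p : ℝ) (f : ι → Finset (Sym2 V) → M) :
    Ex E p (fun ω => ∑ i ∈ s, f i ω) = ∑ i ∈ s, Ex E p (f i) := by
  unfold Ex
  rw [Finset.sum_comm]
  exact Finset.sum_congr rfl fun ω _ => Finset.smul_sum

theorem Ex_const (E : Finset (Sym2 V)) (p : ℝ) (c : M) : Ex E p (fun _ => c) = c := by
  unfold Ex
  rw [← Finset.sum_smul, sum_wt, one_smul]

theorem Ex_zero (E : Finset (Sym2 V)) (p : ℝ) : Ex E p (fun _ => (0 : M)) = 0 := Ex_const E p 0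
end

theorem Ex_sub (E : Finset (Sym2 V)) (p : ℝ) (f g : Finset (Sym2 V) → ℝ[X]) :
    Ex E p (fun ω => f ω - g ω) = Ex E p f - Ex E p g := by
  unfold Ex
  simp only [smul_sub, Finset.sum_sub_distrib]

theorem Ex_mul_left (E : Finset (Sym2 V)) (p : ℝ) (c : ℝ[X]) (f : Finset (Sym2 V) → ℝ[X]) :
    Ex E p (fun ω => c * f ω) = c * Ex E p f := by
  unfold Ex
  rw [Finset.mul_sum]
  exact Finset.sum_congr rfl fun ω _ => (mul_smul_comm _ _ _).symm

theorem Ex_mul_right (E : Finset (Sym2 V)) (p : ℝ) (c : ℝ[X]) (f : Finset (Sym2 V) → ℝ[X]) :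
    Ex E p (fun ω => f ω * c) = Ex E p f * c := by
  unfold Ex
  rw [Finset.sum_mul]
  exact Finset.sum_congr rfl fun ω _ => (smul_mul_assoc _ _ _).symm

theorem coeff_Ex (E : Finset (Sym2 V)) (p : ℝ) (f : Finset (Sym2 V) → ℝ[X]) (n : ℕ) :
    (Ex E p f).coeff n = Ex E p (fun ω => (f ω).coeff n) := by
  unfold Ex
  rw [Polynomial.finsetSum_coeff]
  exact Finset.sum_congr rfl fun ω _ => Polynomial.coeff_smul _ _ _

theorem insert_inter_of_notMem' {E ω : Finset (Sym2 V)} {e : Sym2 V} (he : e ∉ E) :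
    (insert e ω) ∩ E = ω ∩ E := Finset.insert_inter_of_notMem he

/-- independence of disjoint sets of edges, algebra valued -/
theorem Ex_mul_of_disjoint {E₁ E₂ : Finset (Sym2 V)} (hd : Disjoint E₁ E₂) (p : ℝ)
    (f g : Finset (Sym2 V) → ℝ[X]) :
    Ex (E₁ ∪ E₂) p (fun ω => f (ω ∩ E₁) * g (ω ∩ E₂)) = Ex E₁ p f * Ex E₂ p g := by
  induction E₁ using Finset.induction_on generalizing f with
  | empty =>
    have h1 : Ex (∅ : Finset (Sym2 V)) p f = f ∅ := by simp [Ex, wt]
    rw [Finset.empty_union, h1, ← Ex_mul_left]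
    refine Ex_congr fun ω hω => ?_
    rw [Finset.inter_empty, Finset.inter_eq_left.2 hω]
  | insert e E he ih =>
    have hd' : Disjoint E E₂ := Finset.disjoint_of_subset_left (Finset.subset_insert _ _) hd
    have he2 : e ∉ E₂ := fun h => (Finset.disjoint_left.1 hd) (Finset.mem_insert_self _ _) h
    have heU : e ∉ E ∪ E₂ := by simp [he, he2]
    rw [Finset.insert_union, sum_insert_wt heU, sum_insert_wt he]
    have h1 : Ex (E ∪ E₂) p (fun ω => f (ω ∩ insert e E) * g (ω ∩ E₂)) = Ex E p f * Ex E₂ p g := by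
      rw [← ih hd' f]
      refine Ex_congr fun ω hω => ?_
      rw [Finset.inter_insert_of_notMem (fun h => heU (hω h))]
    have h2 : Ex (E ∪ E₂) p (fun ω => f ((insert e ω) ∩ insert e E) * g ((insert e ω) ∩ E₂)) =
        Ex E p (fun ω => f (insert e ω)) * Ex E₂ p g := by
      rw [← ih hd' (fun ω => f (insert e ω))]
      refine Ex_congr fun ω hω => ?_
      rw [Finset.insert_inter_of_notMem he2, ← Finset.insert_inter_distrib]
    rw [h1, h2, add_mul, smul_mul_assoc, smul_mul_assoc]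

theorem Ex_inter {E F : Finset (Sym2 V)} (h : F ⊆ E) (p : ℝ) {M : Type} [AddCommMonoid M] [Module ℝ M]
    (f : Finset (Sym2 V) → M) : Ex E p (fun ω => f (ω ∩ F)) = Ex F p f := by
  have key : ∀ D : Finset (Sym2 V), Disjoint F D → Ex (F ∪ D) p (fun ω => f (ω ∩ F)) = Ex F p f := by
    intro D
    induction D using Finset.induction_on with
    | empty =>
      intro _
      rw [Finset.union_empty]
      refine Ex_congr fun ω hω => ?_
      rw [Finset.inter_eq_left.2 hω]
    | insert e D he ih =>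
      intro hd
      have hd' : Disjoint F D := Finset.disjoint_of_subset_right (Finset.subset_insert _ _) hd
      have heF : e ∉ F := fun h => (Finset.disjoint_left.1 hd) h (Finset.mem_insert_self _ _)
      have heU : e ∉ F ∪ D := by simp [he, heF]
      rw [Finset.union_insert, sum_insert_wt heU]
      have h2 : Ex (F ∪ D) p (fun ω => f ((insert e ω) ∩ F)) = Ex (F ∪ D) p (fun ω => f (ω ∩ F)) :=
        Ex_congr fun ω _ => by rw [Finset.insert_inter_of_notMem heF]
      rw [h2, ih hd', ← add_smul]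
      simp
  have := key (E \ F) Finset.disjoint_sdiff
  rwa [Finset.union_sdiff_of_subset h] at this

theorem ExE_congr {E : Finset (Sym2 V)} {p : ℝ} {f g : Finset (Sym2 V) → ENNReal}
    (h : ∀ ω ⊆ E, f ω = g ω) : ExE E p f = ExE E p g := by
  unfold ExE
  exact Finset.sum_congr rfl fun ω hω => by rw [h ω (Finset.mem_powerset.1 hω)]

theorem ExE_mono {E : Finset (Sym2 V)} {p : ℝ} {f g : Finset (Sym2 V) → ENNReal}
    (h : ∀ ω ⊆ E, f ω ≤ g ω) : ExE E p f ≤ ExE E p g := by
  unfold ExE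
  exact Finset.sum_le_sum fun ω hω => mul_le_mul_right (h ω (Finset.mem_powerset.1 hω)) _

theorem ExE_add (E : Finset (Sym2 V)) (p : ℝ) (f g : Finset (Sym2 V) → ENNReal) :
    ExE E p (fun ω => f ω + g ω) = ExE E p f + ExE E p g := by
  unfold ExE
  simp only [mul_add, Finset.sum_add_distrib]

theorem ExE_mul_left (E : Finset (Sym2 V)) (p : ℝ) (c : ENNReal) (f : Finset (Sym2 V) → ENNReal) :
    ExE E p (fun ω => c * f ω) = c * ExE E p f := by
  unfold ExE
  rw [Finset.mul_sum]
  exact Finset.sum_congr rfl fun ω _ => mul_left_comm _ _ _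

theorem ExE_mul_right (E : Finset (Sym2 V)) (p : ℝ) (c : ENNReal) (f : Finset (Sym2 V) → ENNReal) :
    ExE E p (fun ω => f ω * c) = ExE E p f * c := by
  unfold ExE
  rw [Finset.sum_mul]
  exact Finset.sum_congr rfl fun ω _ => (mul_assoc _ _ _).symm

theorem ExE_sum {ι : Type} (s : Finset ι) (E : Finset (Sym2 V)) (p : ℝ)
    (f : ι → Finset (Sym2 V) → ENNReal) :
    ExE E p (fun ω => ∑ i ∈ s, f i ω) = ∑ i ∈ s, ExE E p (f i) := by
  unfold ExE
  rw [Finset.sum_comm]
  exact Finset.sum_congr rfl fun ω _ => Finset.mul_sum _ _ _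

theorem ExE_tsum {ι : Type} (E : Finset (Sym2 V)) (p : ℝ) (f : ι → Finset (Sym2 V) → ENNReal) :
    ExE E p (fun ω => ∑' i, f i ω) = ∑' i, ExE E p (f i) := by
  unfold ExE
  rw [Summable.tsum_finsetSum (fun _ _ => ENNReal.summable)]
  exact Finset.sum_congr rfl fun ω _ => ENNReal.tsum_mul_left.symm

theorem ExE_const {p : ℝ} (h0 : 0 ≤ p) (h1 : p ≤ 1) (E : Finset (Sym2 V)) (c : ENNReal) :
    ExE E p (fun _ => c) = c := by
  unfold ExE
  rw [← Finset.sum_mul, ← ENNReal.ofReal_sum_of_nonneg (fun ω _ => wt_nonneg h0 h1 E ω), sum_wt]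
  simp

theorem ExE_inter {E F : Finset (Sym2 V)} (h : F ⊆ E) {p : ℝ} (h0 : 0 ≤ p) (h1 : p ≤ 1)
    (f : Finset (Sym2 V) → ENNReal) : ExE E p (fun ω => f (ω ∩ F)) = ExE F p f := by
  have key : ∀ D : Finset (Sym2 V), Disjoint F D →
      ExE (F ∪ D) p (fun ω => f (ω ∩ F)) = ExE F p f := by
    intro D
    induction D using Finset.induction_on with
    | empty =>
      intro _
      rw [Finset.union_empty]
      refine ExE_congr fun ω hω => ?_
      rw [Finset.inter_eq_left.2 hω]
    | insert e D he ih =>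
      intro hd
      have hd' : Disjoint F D := Finset.disjoint_of_subset_right (Finset.subset_insert _ _) hd
      have heF : e ∉ F := fun h => (Finset.disjoint_left.1 hd) h (Finset.mem_insert_self _ _)
      have heU : e ∉ F ∪ D := by simp [he, heF]
      rw [Finset.union_insert, ExE_insert heU h0 h1]
      have h2 : ExE (F ∪ D) p (fun ω => f ((insert e ω) ∩ F)) =
          ExE (F ∪ D) p (fun ω => f (ω ∩ F)) :=
        ExE_congr fun ω _ => by rw [Finset.insert_inter_of_notMem heF]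
      rw [h2, ih hd', ← add_mul, ← ENNReal.ofReal_add (by linarith) h0]
      simp
  have := key (E \ F) Finset.disjoint_sdiff
  rwa [Finset.union_sdiff_of_subset h] at this

theorem ExE_ofReal {p : ℝ} (h0 : 0 ≤ p) (h1 : p ≤ 1) (E : Finset (Sym2 V))
    (f : Finset (Sym2 V) → ℝ) (hf : ∀ ω, 0 ≤ f ω) :
    ExE E p (fun ω => ENNReal.ofReal (f ω)) = ENNReal.ofReal (Ex E p f) := by
  unfold ExE Ex
  simp only [smul_eq_mul]
  rw [ENNReal.ofReal_sum_of_nonneg (fun ω _ => mul_nonneg (wt_nonneg h0 h1 E ω) (hf ω))]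
  exact Finset.sum_congr rfl fun ω _ => (ENNReal.ofReal_mul (wt_nonneg h0 h1 E ω)).symm

theorem Pr_mono {E : Finset (Sym2 V)} {p : ℝ} {A B : Finset (Sym2 V) → Prop}
    (h : ∀ ω ⊆ E, A ω → B ω) : Pr E p A ≤ Pr E p B := by
  unfold Pr
  refine ExE_mono fun ω hω => ?_
  by_cases hA : A ω
  · rw [if_pos hA, if_pos (h ω hω hA)]
  · rw [if_neg hA]
    exact zero_le

theorem Pr_le_one {p : ℝ} (h0 : 0 ≤ p) (h1 : p ≤ 1) (E : Finset (Sym2 V))
    (A : Finset (Sym2 V) → Prop) : Pr E p A ≤ 1 := by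
  unfold Pr
  refine (ExE_mono (g := fun _ => 1) fun ω _ => ?_).trans (ExE_const h0 h1 E 1).le
  split_ifs <;> simp

theorem Pr_or_le {E : Finset (Sym2 V)} {p : ℝ} (A B : Finset (Sym2 V) → Prop) :
    Pr E p (fun ω => A ω ∨ B ω) ≤ Pr E p A + Pr E p B := by
  unfold Pr
  rw [← ExE_add]
  refine ExE_mono fun ω _ => ?_
  by_cases hA : A ω
  · rw [if_pos (Or.inl hA), if_pos hA]
    exact le_self_add
  · by_cases hB : B ω
    · rw [if_pos (Or.inr hB), if_pos hB]
      exact le_add_self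
    · rw [if_neg (by tauto)]
      exact zero_le

theorem Pr_exists_le {ι : Type} {E : Finset (Sym2 V)} {p : ℝ} (A : ι → Finset (Sym2 V) → Prop) :
    Pr E p (fun ω => ∃ i, A i ω) ≤ ∑' i, Pr E p (A i) := by
  unfold Pr
  rw [← ExE_tsum]
  refine ExE_mono fun ω _ => ?_
  by_cases hA : ∃ i, A i ω
  · rw [if_pos hA]
    obtain ⟨i, hi⟩ := hA
    refine le_trans ?_ (ENNReal.le_tsum i)
    rw [if_pos hi]
  · rw [if_neg hA]
    exact zero_le

/-- monotone in the edge set -/
theorem Pr_mono_edges {E F : Finset (Sym2 V)} (h : F ⊆ E) {p : ℝ} (h0 : 0 ≤ p) (h1 : p ≤ 1)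
    {A : Finset (Sym2 V) → Prop} (hA : ∀ ω η, ω ⊆ η → A ω → A η) : Pr F p A ≤ Pr E p A := by
  classical
  have h2 : Pr F p A = Pr E p (fun ω => A (ω ∩ F)) := by
    unfold Pr
    exact (ExE_inter h h0 h1 (fun ω => if A ω then 1 else 0)).symm
  rw [h2]
  exact Pr_mono fun ω _ hω => hA _ _ Finset.inter_subset_left hω

theorem Pr_insert {E : Finset (Sym2 V)} {e : Sym2 V} (he : e ∉ E) {p : ℝ} (h0 : 0 ≤ p) (h1 : p ≤ 1)
    (A : Finset (Sym2 V) → Prop) :
    Pr (insert e E) p A =
      ENNReal.ofReal (1 - p) * Pr E p A + ENNReal.ofReal p * Pr E p (fun ω => A (insert e ω)) := by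
  unfold Pr
  rw [ExE_insert he h0 h1]

/-- monotone in `p` -/
theorem Pr_mono_p {E : Finset (Sym2 V)} {p q : ℝ} (h0 : 0 ≤ p) (hpq : p ≤ q) (h1 : q ≤ 1)
    {A : Finset (Sym2 V) → Prop} (hA : ∀ ω η, ω ⊆ η → A ω → A η) : Pr E p A ≤ Pr E q A := by
  induction E using Finset.induction_on generalizing A with
  | empty =>
    unfold Pr ExE
    simp [wt]
  | insert e E he ih =>
    rw [Pr_insert he h0 (hpq.trans h1), Pr_insert he (h0.trans hpq) h1]
    have hA1 : ∀ ω η : Finset (Sym2 V), ω ⊆ η → A (insert e ω) → A (insert e η) :=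
      fun ω η h hω => hA _ _ (Finset.insert_subset_insert _ h) hω
    have i0 := ih hA
    have i1 := ih hA1
    have h01 : Pr E p A ≤ Pr E p (fun ω => A (insert e ω)) :=
      Pr_mono fun ω _ hω => hA _ _ (Finset.subset_insert _ _) hω
    have e1 : ENNReal.ofReal (1 - p) = ENNReal.ofReal (1 - q) + ENNReal.ofReal (q - p) := by
      rw [← ENNReal.ofReal_add (by linarith) (by linarith)]
      congr 1
      ring
    have e2 : ENNReal.ofReal q = ENNReal.ofReal (q - p) + ENNReal.ofReal p := by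
      rw [← ENNReal.ofReal_add (by linarith) h0]
      congr 1
      ring
    calc ENNReal.ofReal (1 - p) * Pr E p A + ENNReal.ofReal p * Pr E p (fun ω => A (insert e ω))
        = ENNReal.ofReal (1 - q) * Pr E p A + ENNReal.ofReal (q - p) * Pr E p A +
            ENNReal.ofReal p * Pr E p (fun ω => A (insert e ω)) := by rw [e1, add_mul]
      _ ≤ ENNReal.ofReal (1 - q) * Pr E p A +
            ENNReal.ofReal (q - p) * Pr E p (fun ω => A (insert e ω)) +
            ENNReal.ofReal p * Pr E p (fun ω => A (insert e ω)) := by gcongr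
      _ = ENNReal.ofReal (1 - q) * Pr E p A +
            ENNReal.ofReal q * Pr E p (fun ω => A (insert e ω)) := by rw [e2, add_mul, add_assoc]
      _ ≤ ENNReal.ofReal (1 - q) * Pr E q A +
            ENNReal.ofReal q * Pr E q (fun ω => A (insert e ω)) := by gcongr

/-- transport by an injection of the vertices -/
theorem Ex_map {W : Type} [DecidableEq W] (σ : V ↪ W) (E : Finset (Sym2 V)) (p : ℝ)
    {M : Type} [AddCommMonoid M] [Module ℝ M] (f : Finset (Sym2 W) → M) :
    Ex (E.map σ.sym2Map) p f = Ex E p (fun ω => f (ω.map σ.sym2Map)) := by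
  induction E using Finset.induction_on generalizing f with
  | empty => simp [Ex, wt]
  | insert e E he ih =>
    have he' : σ.sym2Map e ∉ E.map σ.sym2Map := by
      rwa [Finset.mem_map']
    rw [Finset.map_insert, sum_insert_wt he', sum_insert_wt he, ih, ih]
    simp only [Finset.map_insert]

end Pool.LE
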