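import Pool.Agent.Helper84.LE.St1
import Pool.Agent.Helper84.LE.BWT

set_option autoImplicit false
open scoped BigOperators Polynomial
open Polynomial

namespace Pool.LE

theorem bk_real {p a0 a1 b0 b1 : ℝ} (h : a0 ≤ a1) (h' : b0 ≤ b1) :
    (1 - 2 * p) * (a0 * b0) + (p * (a1 * b0) + p * (a0 * b1)) ≤
      ((1 - p) * a0 + p * a1) * ((1 - p) * b0 + p * b1) := by
  have h1 : 0 ≤ p ^ 2 * ((a1 - a0) * (b1 - b0)) :=
    mul_nonneg (sq_nonneg p) (mul_nonneg (by linarith) (by linarith))
  nlinarith [h1]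

theorem bk_ennreal {p : ℝ} (h0 : 0 ≤ p) (hp : p ≤ 1 / 2) {a0 a1 b0 b1 : ENNReal} (ha1 : a1 ≤ 1)
    (hb1 : b1 ≤ 1) (ha : a0 ≤ a1) (hb : b0 ≤ b1) :
    ENNReal.ofReal (1 - 2 * p) * (a0 * b0) +
        (ENNReal.ofReal p * (a1 * b0) + ENNReal.ofReal p * (a0 * b1)) ≤
      (ENNReal.ofReal (1 - p) * a0 + ENNReal.ofReal p * a1) *
        (ENNReal.ofReal (1 - p) * b0 + ENNReal.ofReal p * b1) := by
  have na1 : a1 ≠ ⊤ := ne_top_of_le_ne_top ENNReal.one_ne_top ha1
  have nb1 : b1 ≠ ⊤ := ne_top_of_le_ne_top ENNReal.one_ne_top hb1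
  have na0 : a0 ≠ ⊤ := ne_top_of_le_ne_top na1 ha
  have nb0 : b0 ≠ ⊤ := ne_top_of_le_ne_top nb1 hb
  obtain ⟨x0, hx0⟩ : ∃ x : ℝ, x = a0.toReal := ⟨_, rfl⟩
  obtain ⟨x1, hx1⟩ : ∃ x : ℝ, x = a1.toReal := ⟨_, rfl⟩
  obtain ⟨y0, hy0⟩ : ∃ x : ℝ, x = b0.toReal := ⟨_, rfl⟩
  obtain ⟨y1, hy1⟩ : ∃ x : ℝ, x = b1.toReal := ⟨_, rfl⟩
  have e0 : a0 = ENNReal.ofReal x0 := by rw [hx0, ENNReal.ofReal_toReal na0]
  have e1 : a1 = ENNReal.ofReal x1 := by rw [hx1, ENNReal.ofReal_toReal na1]
  have f0 : b0 = ENNReal.ofReal y0 := by rw [hy0, ENNReal.ofReal_toReal nb0]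
  have f1 : b1 = ENNReal.ofReal y1 := by rw [hy1, ENNReal.ofReal_toReal nb1]
  have px0 : 0 ≤ x0 := hx0 ▸ ENNReal.toReal_nonneg
  have px1 : 0 ≤ x1 := hx1 ▸ ENNReal.toReal_nonneg
  have py0 : 0 ≤ y0 := hy0 ▸ ENNReal.toReal_nonneg
  have py1 : 0 ≤ y1 := hy1 ▸ ENNReal.toReal_nonneg
  have hx : x0 ≤ x1 := by
    rw [hx0, hx1]
    exact ENNReal.toReal_mono na1 ha
  have hy : y0 ≤ y1 := by
    rw [hy0, hy1]
    exact ENNReal.toReal_mono nb1 hb
  have q1 : 0 ≤ 1 - p := by linarith
  have q2 : 0 ≤ 1 - 2 * p := by linarith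
  rw [e0, e1, f0, f1]
  rw [← ENNReal.ofReal_mul px0, ← ENNReal.ofReal_mul px1, ← ENNReal.ofReal_mul px0,
    ← ENNReal.ofReal_mul q2, ← ENNReal.ofReal_mul h0, ← ENNReal.ofReal_mul h0,
    ← ENNReal.ofReal_mul q1, ← ENNReal.ofReal_mul h0, ← ENNReal.ofReal_mul q1,
    ← ENNReal.ofReal_mul h0,
    ← ENNReal.ofReal_add (by positivity) (by positivity),
    ← ENNReal.ofReal_add (by positivity) (by positivity),
    ← ENNReal.ofReal_add (by positivity) (by positivity),
    ← ENNReal.ofReal_add (by positivity) (by positivity),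
    ← ENNReal.ofReal_mul (by positivity)]
  exact ENNReal.ofReal_le_ofReal (bk_real hx hy)

/-- disjoint occurrence -/
def Dis {V : Type} [DecidableEq V] (A B : Finset (Sym2 V) → Prop) (ω : Finset (Sym2 V)) : Prop :=
  ∃ η ⊆ ω, A η ∧ B (ω \ η)

theorem Dis_insert {V : Type} [DecidableEq V] {A B : Finset (Sym2 V) → Prop} {ω : Finset (Sym2 V)}
    {e : Sym2 V} (he : e ∉ ω) (h : Dis A B (insert e ω)) :
    Dis (fun η => A (insert e η)) B ω ∨ Dis A (fun η => B (insert e η)) ω := by
  obtain ⟨η, hη, hA, hB⟩ := h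
  by_cases heη : e ∈ η
  · left
    refine ⟨η.erase e, ?_, ?_, ?_⟩
    · intro a ha
      have h1 := hη (Finset.mem_of_mem_erase ha)
      rcases Finset.mem_insert.1 h1 with h2 | h2
      · exact absurd h2 (Finset.ne_of_mem_erase ha)
      · exact h2
    · show A (insert e (η.erase e))
      rwa [Finset.insert_erase heη]
    · have h2 : ω \ (η.erase e) = insert e ω \ η := by
        ext a
        simp only [Finset.mem_sdiff, Finset.mem_erase, Finset.mem_insert, not_and]
        constructor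
        · rintro ⟨h3, h4⟩
          exact ⟨Or.inr h3, h4 (fun h => he (h ▸ h3))⟩
        · rintro ⟨h3 | h3, h4⟩
          · exact absurd (h3 ▸ heη) h4
          · exact ⟨h3, fun _ => h4⟩
      rwa [h2]
  · right
    refine ⟨η, ?_, hA, ?_⟩
    · intro a ha
      rcases Finset.mem_insert.1 (hη ha) with h2 | h2
      · exact absurd (h2 ▸ ha) heη
      · exact h2
    · show B (insert e (ω \ η))
      rwa [← Finset.insert_sdiff_of_notMem _ heη]

theorem Dis_mono {V : Type} [DecidableEq V] {A B A' B' : Finset (Sym2 V) → Prop}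
    {ω : Finset (Sym2 V)} (hA : ∀ η, A η → A' η) (hB : ∀ η, B η → B' η) (h : Dis A B ω) :
    Dis A' B' ω := by
  obtain ⟨η, h1, h2, h3⟩ := h
  exact ⟨η, h1, hA _ h2, hB _ h3⟩

/-- **BK inequality** for increasing events and `p ≤ 1/2` -/
theorem hBK : StBK := by
  intro V _ E p h0 hp A B hA hB
  change Pr E p (Dis A B) ≤ Pr E p A * Pr E p B
  classical
  induction E using Finset.induction_on generalizing A B with
  | empty =>
    have h1 : ∀ X : Finset (Sym2 V) → Prop, Pr ∅ p X = if X ∅ then 1 else 0 := by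
      intro X
      unfold Pr ExE
      simp [wt]
    rw [h1, h1, h1]
    by_cases hD : Dis A B ∅
    · obtain ⟨η, h2, h3, h4⟩ := hD
      have h5 : η = ∅ := Finset.subset_empty.1 h2
      subst h5
      have h6 : B ∅ := by simpa using h4
      rw [if_pos h3, if_pos h6]
      split_ifs <;> simp
    · rw [if_neg hD]
      exact zero_le
  | insert e E he ih =>
    have h1 : p ≤ 1 := by linarith
    have hA1 : Inc (fun ω => A (insert e ω)) := fun ω η h => hA _ _ (Finset.insert_subset_insert _ h)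
    have hB1 : Inc (fun ω => B (insert e ω)) := fun ω η h => hB _ _ (Finset.insert_subset_insert _ h)
    have hAA : ∀ η, A η → A (insert e η) := fun η => hA _ _ (Finset.subset_insert _ _)
    have hBB : ∀ η, B η → B (insert e η) := fun η => hB _ _ (Finset.subset_insert _ _)
    have i00 := ih A B hA hB
    have i10 := ih (fun ω => A (insert e ω)) B hA1 hB
    have i01 := ih A (fun ω => B (insert e ω)) hA hB1
    -- union and intersection
    have hU : Pr E p (Dis A B) + Pr E p (fun ω => Dis A B (insert e ω)) ≤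
        Pr E p (Dis (fun ω => A (insert e ω)) B) + Pr E p (Dis A (fun ω => B (insert e ω))) := by
      unfold Pr
      rw [← ExE_add, ← ExE_add]
      refine ExE_mono fun ω hω => ?_
      have heω : e ∉ ω := fun h => he (hω h)
      have k1 : Dis A B ω → Dis (fun ω => A (insert e ω)) B ω := Dis_mono hAA fun _ h => h
      have k2 : Dis A B ω → Dis A (fun ω => B (insert e ω)) ω := Dis_mono (fun _ h => h) hBB
      have k3 := Dis_insert (A := A) (B := B) heω
      by_cases c0 : Dis A B ω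
      · rw [if_pos c0, if_pos (k1 c0), if_pos (k2 c0)]
        gcongr
        split_ifs <;> simp
      · rw [if_neg c0, zero_add]
        by_cases c1 : Dis A B (insert e ω)
        · rw [if_pos c1]
          rcases k3 c1 with h | h
          · rw [if_pos h]
            exact le_self_add
          · rw [if_pos h]
            exact le_add_self
        · rw [if_neg c1]
          exact zero_le
    have e1 : ENNReal.ofReal (1 - p) = ENNReal.ofReal (1 - 2 * p) + ENNReal.ofReal p := by
      rw [← ENNReal.ofReal_add (by linarith) h0]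
      congr 1
      ring
    have hA01 : Pr E p A ≤ Pr E p (fun ω => A (insert e ω)) := Pr_mono fun ω _ h => hAA ω h
    have hB01 : Pr E p B ≤ Pr E p (fun ω => B (insert e ω)) := Pr_mono fun ω _ h => hBB ω h
    rw [Pr_insert he h0 h1, Pr_insert he h0 h1 A, Pr_insert he h0 h1 B]
    calc ENNReal.ofReal (1 - p) * Pr E p (Dis A B) +
          ENNReal.ofReal p * Pr E p (fun ω => Dis A B (insert e ω))
        = ENNReal.ofReal (1 - 2 * p) * Pr E p (Dis A B) + ENNReal.ofReal p *
            (Pr E p (Dis A B) + Pr E p (fun ω => Dis A B (insert e ω))) := by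
          rw [e1]
          ring
      _ ≤ ENNReal.ofReal (1 - 2 * p) * Pr E p (Dis A B) + ENNReal.ofReal p *
            (Pr E p (Dis (fun ω => A (insert e ω)) B) +
              Pr E p (Dis A (fun ω => B (insert e ω)))) := by gcongr
      _ ≤ ENNReal.ofReal (1 - 2 * p) * (Pr E p A * Pr E p B) + ENNReal.ofReal p *
            (Pr E p (fun ω => A (insert e ω)) * Pr E p B +
              Pr E p A * Pr E p (fun ω => B (insert e ω))) := by gcongr
      _ = ENNReal.ofReal (1 - 2 * p) * (Pr E p A * Pr E p B) +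
            (ENNReal.ofReal p * (Pr E p (fun ω => A (insert e ω)) * Pr E p B) +
              ENNReal.ofReal p * (Pr E p A * Pr E p (fun ω => B (insert e ω)))) := by
          rw [mul_add]
      _ ≤ _ := bk_ennreal h0 hp (Pr_le_one h0 h1 _ _) (Pr_le_one h0 h1 _ _) hA01 hB01

end Pool.LE
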