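import Pool.Agent.Helper84.LE.Defs

set_option autoImplicit false
set_option linter.unusedSectionVars false

namespace Pool.LE

variable {V : Type} [DecidableEq V]

theorem mem_drt {E : Finset (Sym2 V)} {a b : V} : (a, b) ∈ drt E ↔ s(a, b) ∈ E := by
  unfold drt
  rw [Finset.mem_biUnion]
  constructor
  · rintro ⟨e, he, h⟩
    rw [Finset.mem_insert, Finset.mem_singleton] at h
    have hout : s((Quot.out e).1, (Quot.out e).2) = e := Quot.out_eq e
    rcases h with h | h
    · rw [← h] at hout
      exact hout ▸ he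
    · have h1 : Quot.out e = (b, a) := by
        have := congrArg Prod.swap h
        simpa using this.symm
      rw [h1] at hout
      rw [Sym2.eq_swap]
      exact hout ▸ he
  · intro h
    refine ⟨s(a, b), h, ?_⟩
    have hout : s((Quot.out s(a, b)).1, (Quot.out s(a, b)).2) = s(a, b) := Quot.out_eq _
    rw [Finset.mem_insert, Finset.mem_singleton]
    rw [Sym2.eq_iff] at hout
    rcases hout with ⟨h1, h2⟩ | ⟨h1, h2⟩
    · left; exact Prod.ext h1.symm h2.symm
    · right; exact Prod.ext h2.symm h1.symm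

theorem mem_drt' {E : Finset (Sym2 V)} {q : V × V} : q ∈ drt E ↔ s(q.1, q.2) ∈ E := by
  obtain ⟨a, b⟩ := q
  exact mem_drt

theorem drt_mono {E F : Finset (Sym2 V)} (h : E ⊆ F) : drt E ⊆ drt F := by
  intro q hq
  rw [mem_drt'] at hq ⊢
  exact h hq

theorem gr_adj {ω : Finset (Sym2 V)} {a b : V} : (gr ω).Adj a b ↔ s(a, b) ∈ ω ∧ a ≠ b := by
  unfold gr
  rw [SimpleGraph.fromEdgeSet_adj]
  exact Iff.rfl

theorem gr_mono {ω η : Finset (Sym2 V)} (h : ω ⊆ η) : gr ω ≤ gr η := by
  intro a b hab
  rw [gr_adj] at hab ⊢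
  exact ⟨h hab.1, hab.2⟩

theorem mem_edges_gr {ω : Finset (Sym2 V)} {x y : V} (q : (gr ω).Walk x y) {e : Sym2 V}
    (he : e ∈ q.edges) : e ∈ ω := by
  have h := q.edges_subset_edgeSet he
  induction e using Sym2.ind with
  | _ a b =>
    rw [SimpleGraph.mem_edgeSet, gr_adj] at h
    exact h.1

theorem con_refl (ω : Finset (Sym2 V)) (x : V) : con ω x x := SimpleGraph.Reachable.refl x

theorem con_symm {ω : Finset (Sym2 V)} {x y : V} (h : con ω x y) : con ω y x :=
  SimpleGraph.Reachable.symm h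

theorem con_trans {ω : Finset (Sym2 V)} {x y z : V} (h : con ω x y) (h' : con ω y z) :
    con ω x z := SimpleGraph.Reachable.trans h h'

theorem con_mono {ω η : Finset (Sym2 V)} (h : ω ⊆ η) {x y : V} (hc : con ω x y) : con η x y :=
  SimpleGraph.Reachable.mono (gr_mono h) hc

theorem con_of_mem {ω : Finset (Sym2 V)} {x y : V} (h : s(x, y) ∈ ω) : con ω x y := by
  by_cases hxy : x = y
  · rw [hxy]; exact con_refl ω y
  · exact SimpleGraph.Adj.reachable (gr_adj.2 ⟨h, hxy⟩)

/-- a walk all of whose edges lie in `η` is a walk of `gr η` with the same edges and support -/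
theorem exists_walk_of_edges {ω η : Finset (Sym2 V)} {x y : V} (q : (gr ω).Walk x y)
    (h : ∀ e ∈ q.edges, e ∈ η) :
    ∃ q' : (gr η).Walk x y, q'.edges = q.edges ∧ q'.support = q.support ∧
      q'.length = q.length := by
  have h' : ∀ e ∈ q.edges, e ∈ (gr η).edgeSet := by
    intro e he
    have h1 := h e he
    have h2 := q.edges_subset_edgeSet he
    induction e using Sym2.ind with
    | _ a b =>
      rw [SimpleGraph.mem_edgeSet, gr_adj] at h2 ⊢
      exact ⟨h1, h2.2⟩
  exact ⟨q.transfer _ h', SimpleGraph.Walk.edges_transfer _ _, SimpleGraph.Walk.support_transfer _ _,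
    SimpleGraph.Walk.length_transfer _ _⟩

/-- first step of a connection -/
theorem con_cases {ω : Finset (Sym2 V)} {x y : V} (h : con ω x y) (hxy : x ≠ y) :
    ∃ b, b ≠ x ∧ s(x, b) ∈ ω ∧ con (ω.erase s(x, b)) b y := by
  obtain ⟨q0⟩ := h
  obtain ⟨q, hq⟩ : ∃ q : (gr ω).Walk x y, q.IsPath := ⟨q0.bypass, q0.bypass_isPath⟩
  cases q with
  | nil => exact absurd rfl hxy
  | cons hadj r =>
    rename_i b
    have hxb := gr_adj.1 hadj
    rw [SimpleGraph.Walk.cons_isPath_iff] at hq
    refine ⟨b, hxb.2.symm, hxb.1, ?_⟩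
    have hr : ∀ e ∈ r.edges, e ∈ ω.erase s(x, b) := by
      intro e he
      rw [Finset.mem_erase]
      refine ⟨?_, mem_edges_gr r he⟩
      rintro rfl
      exact hq.2 (r.fst_mem_support_of_mem_edges he)
    obtain ⟨r', -⟩ := exists_walk_of_edges r hr
    exact ⟨r'⟩

/-- if `y` is not in the cluster of `x` then edges touching the cluster of `y` are irrelevant for `x` -/
theorem con_iff_of_cluster {ω η : Finset (Sym2 V)} {x : V}
    (h : ∀ e : Sym2 V, (∃ v ∈ e, con ω x v) → (e ∈ ω ↔ e ∈ η)) (y : V) :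
    con ω x y ↔ con η x y := by
  constructor
  · rintro ⟨q⟩
    have key : ∀ e ∈ q.edges, e ∈ η := by
      intro e he
      induction e using Sym2.ind with
      | _ a b =>
        refine (h _ ⟨a, Sym2.mem_mk_left a b, ?_⟩).1 (mem_edges_gr q he)
        exact ⟨q.takeUntil a (q.fst_mem_support_of_mem_edges he)⟩
    obtain ⟨q', -⟩ := exists_walk_of_edges q key
    exact ⟨q'⟩
  · rintro ⟨q⟩
    have key : ∀ (a b : V) (r : (gr η).Walk a b), con ω x a → con ω x b := by
      intro a b r
      induction r with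
      | nil => exact id
      | cons hadj r ih =>
        rename_i u v w
        intro hu
        apply ih
        have h1 := gr_adj.1 hadj
        have h2 := (h s(u, v) ⟨u, Sym2.mem_mk_left u v, hu⟩).2 h1.1
        exact con_trans hu (con_of_mem h2)
    exact key x y q (con_refl ω x)

theorem mem_rst {ω : Finset (Sym2 V)} {A : Set V} {e : Sym2 V} :
    e ∈ rst ω A ↔ e ∈ ω ∧ ∀ v ∈ e, v ∉ A := by
  classical
  unfold rst
  exact Finset.mem_filter

theorem rst_subset (ω : Finset (Sym2 V)) (A : Set V) : rst ω A ⊆ ω := fun _ he =>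
  (mem_rst.1 he).1

theorem rst_rst (ω : Finset (Sym2 V)) (A : Set V) : rst (rst ω A) A = rst ω A := by
  ext e
  rw [mem_rst, mem_rst]
  exact ⟨fun h => h.1, fun h => ⟨h, h.2⟩⟩

theorem rst_erase (ω : Finset (Sym2 V)) (A : Set V) (e : Sym2 V) :
    rst (ω.erase e) A = (rst ω A).erase e := by
  ext f
  rw [mem_rst, Finset.mem_erase, Finset.mem_erase, mem_rst, and_assoc]

theorem rst_empty (ω : Finset (Sym2 V)) : rst ω (∅ : Set V) = ω := by
  ext f
  rw [mem_rst]
  exact ⟨fun h => h.1, fun h => ⟨h, fun v _ hv => hv⟩⟩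

theorem mon_of_con {ω : Finset (Sym2 V)} {x y : V} (h : con ω x y) :
    mon ω x y = Polynomial.X ^ (gr ω).dist x y := by
  unfold mon
  rw [if_pos h]

theorem mon_self (ω : Finset (Sym2 V)) (x : V) : mon ω x x = 1 := by
  rw [mon_of_con (con_refl ω x), SimpleGraph.dist_self, pow_zero]

theorem mon_eq_zero {ω : Finset (Sym2 V)} {x y : V} (h : ¬ con ω x y) : mon ω x y = 0 := by
  unfold mon
  rw [if_neg h]

theorem mon_comm (ω : Finset (Sym2 V)) (x y : V) : mon ω x y = mon ω y x := by
  by_cases h : con ω x y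
  · rw [mon_of_con h, mon_of_con (con_symm h), SimpleGraph.dist_comm]
  · rw [mon_eq_zero h, mon_eq_zero (fun h' => h (con_symm h'))]

theorem mon_ne_zero {ω : Finset (Sym2 V)} {x y : V} (h : con ω x y) : mon ω x y ≠ 0 := by
  rw [mon_of_con h]
  exact pow_ne_zero _ Polynomial.X_ne_zero

theorem monA_of_mem {ω : Finset (Sym2 V)} {A : Set V} {x y : V} (h : x ∈ A) :
    monA ω A x y = 0 := by
  unfold monA
  rw [if_pos h]

theorem monA_of_not_mem {ω : Finset (Sym2 V)} {A : Set V} {x y : V} (h : x ∉ A) :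
    monA ω A x y = mon (rst ω A) x y := by
  unfold monA
  rw [if_neg h]

theorem monA_of_mem_right {ω : Finset (Sym2 V)} {A : Set V} {x y : V} (h : y ∈ A) :
    monA ω A x y = 0 := by
  by_cases hx : x ∈ A
  · exact monA_of_mem hx
  · rw [monA_of_not_mem hx]
    apply mon_eq_zero
    intro hc
    have hxy : y ≠ x := by rintro rfl; exact hx h
    obtain ⟨b, -, hb, -⟩ := con_cases (con_symm hc) hxy
    exact (mem_rst.1 hb).2 y (Sym2.mem_mk_left y b) h

theorem monA_rst (ω : Finset (Sym2 V)) (A : Set V) (x y : V) :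
    monA (rst ω A) A x y = monA ω A x y := by
  by_cases hx : x ∈ A
  · rw [monA_of_mem hx, monA_of_mem hx]
  · rw [monA_of_not_mem hx, monA_of_not_mem hx, rst_rst]

/-- a nonzero restricted monomial comes from a connection which avoids `A` -/
theorem con_rst_of_monA_ne_zero {ω : Finset (Sym2 V)} {A : Set V} {x y : V}
    (h : monA ω A x y ≠ 0) : x ∉ A ∧ y ∉ A ∧ con (rst ω A) x y := by
  have hx : x ∉ A := fun hx => h (monA_of_mem hx)
  refine ⟨hx, fun hy => h (monA_of_mem_right hy), ?_⟩
  by_contra hc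
  exact h (by rw [monA_of_not_mem hx, mon_eq_zero hc])

/-- characterisation of `mon` through walks: the distance is attained by a path -/
theorem exists_path_dist {ω : Finset (Sym2 V)} {x y : V} (h : con ω x y) :
    ∃ q : (gr ω).Walk x y, q.IsPath ∧ q.length = (gr ω).dist x y :=
  SimpleGraph.Reachable.exists_path_of_dist h

theorem dist_mono {ω η : Finset (Sym2 V)} (h : ω ⊆ η) {x y : V} (hc : con ω x y) :
    (gr η).dist x y ≤ (gr ω).dist x y := by
  obtain ⟨q, -, hq⟩ := exists_path_dist hc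
  obtain ⟨q', -, -, hq'⟩ := exists_walk_of_edges (η := η) q (fun e he => h (mem_edges_gr q he))
  rw [← hq, ← hq']
  exact SimpleGraph.dist_le q'

theorem piv_con {ω : Finset (Sym2 V)} {v x a b : V} (h : piv ω v x a b) : con ω v x := by
  obtain ⟨h1, h2, h3, -⟩ := h
  exact con_trans (con_mono (Finset.erase_subset _ _) h2)
    (con_trans (con_of_mem h1) (con_mono (Finset.erase_subset _ _) h3))

end Pool.LE
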