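import Pool.Agent.Helper84.LE.St1
import Pool.Agent.Helper84.LE.BGR

/-! Factorisation over a pivotal edge (BR). -/

set_option autoImplicit false
open scoped BigOperators Polynomial
open Polynomial

namespace Pool.LE

section BR

variable {V : Type} [DecidableEq V]

/-- a walk from the side of `v` to `x` passes through the edge `ab`, from `a` to `b` -/
theorem br_split {ω η : Finset (Sym2 V)} {v x a b : V} (hp : piv ω v x a b) (hη : η ⊆ ω) {y : V}
    (q : (gr η).Walk y x) (hy : con (ω.erase s(a, b)) v y) :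
    s(a, b) ∈ η ∧ ∃ (q₁ : (gr η).Walk y a) (q₂ : (gr η).Walk b x),
      q₁.length + 1 + q₂.length = q.length := by
  induction q with
  | nil => exact absurd hy hp.2.2.2
  | cons hadj r ih =>
    rename_i c d e
    have h1 := gr_adj.1 hadj
    by_cases he : s(c, d) = s(a, b)
    · rcases Sym2.eq_iff.1 he with ⟨rfl, rfl⟩ | ⟨rfl, rfl⟩
      · refine ⟨h1.1, SimpleGraph.Walk.nil, r, ?_⟩
        rw [SimpleGraph.Walk.length_nil, SimpleGraph.Walk.length_cons]
        omega
      · exact absurd (con_trans hy hp.2.2.1) hp.2.2.2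
    · have h2 : con (ω.erase s(a, b)) c d :=
        con_of_mem (Finset.mem_erase.2 ⟨he, hη h1.1⟩)
      obtain ⟨h3, q₁, q₂, h4⟩ := ih hp (con_trans hy h2)
      refine ⟨h3, SimpleGraph.Walk.cons hadj q₁, q₂, ?_⟩
      rw [SimpleGraph.Walk.length_cons, SimpleGraph.Walk.length_cons]
      omega

theorem br_ne {ω : Finset (Sym2 V)} {v x a b : V} (hp : piv ω v x a b) : a ≠ b := by
  rintro rfl
  exact hp.2.2.2 (con_trans hp.2.1 hp.2.2.1)

theorem br_main {ω η : Finset (Sym2 V)} {v x a b : V} (hp : piv ω v x a b) (hη : η ⊆ ω) :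
    mon η v x = if s(a, b) ∈ η then mon η v a * X * mon η b x else 0 := by
  by_cases hc : con η v x
  · obtain ⟨q0⟩ := hc
    obtain ⟨hab, q₁', q₂', -⟩ := br_split hp hη q0 (con_refl _ v)
    have hva : con η v a := ⟨q₁'⟩
    have hbx : con η b x := ⟨q₂'⟩
    have hvx : con η v x := ⟨q0⟩
    rw [if_pos hab, mon_of_con hvx, mon_of_con hva, mon_of_con hbx, ← pow_succ, ← pow_add]
    congr 1
    apply le_antisymm
    · obtain ⟨p₁, -, h₁⟩ := exists_path_dist hva
      obtain ⟨p₂, -, h₂⟩ := exists_path_dist hbx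
      have hadj : (gr η).Adj a b := gr_adj.2 ⟨hab, br_ne hp⟩
      have := SimpleGraph.dist_le (p₁.append (SimpleGraph.Walk.cons hadj p₂))
      rw [SimpleGraph.Walk.length_append, SimpleGraph.Walk.length_cons, h₁, h₂] at this
      omega
    · obtain ⟨q, -, hq⟩ := exists_path_dist hvx
      obtain ⟨-, q₁, q₂, hl⟩ := br_split hp hη q (con_refl _ v)
      have h₁ := SimpleGraph.dist_le q₁
      have h₂ := SimpleGraph.dist_le q₂
      rw [← hq]
      omega
  · rw [mon_eq_zero hc]
    split_ifs with hab
    · by_cases hva : con η v a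
      · by_cases hbx : con η b x
        · exact absurd (con_trans hva (con_trans (con_of_mem hab) hbx)) hc
        · rw [mon_eq_zero hbx, mul_zero]
      · rw [mon_eq_zero hva, zero_mul, zero_mul]
    · rfl

end BR

theorem hBR : StBR := by
  intro V _ ω v x a b hp
  refine ⟨?_, fun A => ?_⟩
  · have := br_main hp (Finset.Subset.refl ω)
    rwa [if_pos hp.1] at this
  · by_cases hv : v ∈ A
    · rw [monA_of_mem hv, monA_of_mem hv, zero_mul, zero_mul]
    · rw [monA_of_not_mem hv, br_main hp (rst_subset ω A)]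
      split_ifs with hab
      · have hb : b ∉ A := (mem_rst.1 hab).2 b (Sym2.mem_mk_right a b)
        rw [monA_of_not_mem hv, monA_of_not_mem hb]
      · by_cases ha : a ∈ A
        · rw [monA_of_mem_right ha, zero_mul, zero_mul]
        · by_cases hb : b ∈ A
          · rw [monA_of_mem hb, mul_zero]
          · exfalso
            refine hab (mem_rst.2 ⟨hp.1, fun y hy => ?_⟩)
            rcases Sym2.mem_iff.1 hy with rfl | rfl
            · exact ha
            · exact hb

end Pool.LE
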