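import Pool.Agent.Helper84.LE.M_Base0

/-! MP_e167eb: plan 3.4 (module Base). -/

set_option autoImplicit false
set_option linter.unusedSectionVars false

namespace Pool.LE

variable {V : Type} [DecidableEq V]

/-- vertices of a walk are joined to its start -/
theorem con_of_mem_support {ω : Finset (Sym2 V)} {x y z : V} (q : (gr ω).Walk x y)
    (hz : z ∈ q.support) : con ω x z := ⟨q.takeUntil z hz⟩

/-- a path which does not leave through the edge `s(c, t)` at its start avoids it -/
theorem path_avoid {ω : Finset (Sym2 V)} {t u c : V} (q : (gr ω).Walk t u) (hq : q.IsPath)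
    (hc : ¬ con (ω.erase s(c, t)) c u) : s(c, t) ∉ q.edges := by
  cases q with
  | nil => simp
  | cons hadj r =>
    rename_i b
    rw [SimpleGraph.Walk.cons_isPath_iff] at hq
    intro hmem
    rw [SimpleGraph.Walk.edges_cons, List.mem_cons] at hmem
    have hr : s(c, t) ∉ r.edges := fun h => hq.2 (r.snd_mem_support_of_mem_edges h)
    rcases hmem with h | h
    · have hb : c = b := by
        rw [Sym2.eq_iff] at h
        rcases h with ⟨h1, h2⟩ | ⟨h1, h2⟩
        · exact absurd h2 (gr_adj.1 hadj).2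
        · exact h1
      subst hb
      apply hc
      obtain ⟨r', -⟩ := exists_walk_of_edges (η := ω.erase s(c, t)) r (fun e he => by
        rw [Finset.mem_erase]
        refine ⟨?_, mem_edges_gr r he⟩
        rintro rfl
        exact hr he)
      exact ⟨r'⟩
    · exact hr h

theorem hBase (hB0 : StBase0) (hSD : StSD) : StBase := by
  intro V _ ω v u t s hBt
  obtain ⟨htv, hdbl, q, hq, hsq⟩ := hBt
  rcases htv with rfl | ⟨c, hpiv⟩
  · exact hB0 V ω t u s hdbl ⟨q, hq, hsq⟩
  obtain ⟨hfω, hvc, htu, hvu⟩ := hpiv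
  have hct : ¬ con (ω.erase s(c, t)) t c := fun h =>
    hvu (con_trans hvc (con_trans (con_symm h) htu))
  have hcu : ¬ con (ω.erase s(c, t)) c u := fun h => hvu (con_trans hvc h)
  have hdbl' : dbl (ω.erase s(c, t)) t u :=
    (hSD V ω t c t u (fun h => hct h.1) htu).2.2.1 hdbl
  have hqf := path_avoid q hq hcu
  obtain ⟨q', hq'1, hq'2, -⟩ := exists_walk_of_edges (η := ω.erase s(c, t)) q (fun e he => by
    rw [Finset.mem_erase]
    refine ⟨?_, mem_edges_gr q he⟩
    rintro rfl
    exact hqf he)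
  obtain ⟨w', hw'⟩ := hB0 V (ω.erase s(c, t)) t u s hdbl'
    ⟨q', by rw [SimpleGraph.Walk.isPath_def, hq'2]; exact hq.support_nodup, by
      rw [hq'2]; exact hsq⟩
  refine ⟨w', ?_⟩
  obtain ⟨p₁, p₂, hp₁, hp₂, hm₁, hm₂, hd⟩ := of_DR_two hw'
  -- transfer to `ω`
  have hsub : ω.erase s(c, t) ⊆ ω := Finset.erase_subset _ _
  obtain ⟨P₁, hP₁e, hP₁s, -⟩ := exists_walk_of_edges (η := ω) p₁
    (fun e he => hsub (mem_edges_gr p₁ he))
  obtain ⟨P₂, hP₂e, hP₂s, -⟩ := exists_walk_of_edges (η := ω) p₂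
    (fun e he => hsub (mem_edges_gr p₂ he))
  obtain ⟨p₀'⟩ := hvc
  obtain ⟨p₀, hp₀⟩ : ∃ p : (gr (ω.erase s(c, t))).Walk v c, p.IsPath :=
    ⟨p₀'.bypass, p₀'.bypass_isPath⟩
  obtain ⟨P₀, hP₀e, hP₀s, -⟩ := exists_walk_of_edges (η := ω) p₀
    (fun e he => hsub (mem_edges_gr p₀ he))
  have hcne : c ≠ t := by
    rintro rfl
    exact hct (con_refl _ _)
  have hadj : (gr ω).Adj c t := gr_adj.2 ⟨hfω, hcne⟩
  -- disjointness
  have hsep : ∀ e ∈ p₀.edges, ∀ x y : V, ∀ r : (gr (ω.erase s(c, t))).Walk x y,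
      con (ω.erase s(c, t)) t x → e ∉ r.edges := by
    intro e he x y r hx her
    induction e using Sym2.ind with
    | _ a b =>
      have h1 : con (ω.erase s(c, t)) v a :=
        con_of_mem_support p₀ (p₀.fst_mem_support_of_mem_edges he)
      have h2 : con (ω.erase s(c, t)) x a :=
        con_of_mem_support r (r.fst_mem_support_of_mem_edges her)
      exact hvu (con_trans h1 (con_trans (con_symm h2) (con_trans (con_symm hx) htu)))
  have hf : ∀ x y : V, ∀ r : (gr (ω.erase s(c, t))).Walk x y, s(c, t) ∉ r.edges := by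
    intro x y r h
    exact (Finset.mem_erase.1 (mem_edges_gr r h)).1 rfl
  have e₁ : (P₀.append (SimpleGraph.Walk.cons hadj P₁)).edges =
      p₀.edges ++ s(c, t) :: p₁.edges := by
    rw [SimpleGraph.Walk.edges_append, SimpleGraph.Walk.edges_cons, hP₀e, hP₁e]
  refine DR_two (c₁ := (v, [t, w'], s)) (c₂ := (t, [u], w'))
    (P₀.append (SimpleGraph.Walk.cons hadj P₁)) P₂ ?_ ?_ ?_ ?_ ?_
  · rw [SimpleGraph.Walk.isTrail_def, e₁, List.nodup_append]
    refine ⟨hp₀.isTrail.edges_nodup, List.nodup_cons.2 ⟨hf _ _ p₁, hp₁.edges_nodup⟩, ?_⟩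
    intro e he e' he' hee
    subst hee
    rcases List.mem_cons.1 he' with rfl | h
    · exact hf _ _ p₀ he
    · exact hsep e he _ _ p₁ (con_refl _ _) h
  · rw [SimpleGraph.Walk.isTrail_def, hP₂e]
    exact hp₂.edges_nodup
  · intro m hm
    rw [SimpleGraph.Walk.mem_support_append_iff]
    right
    rw [SimpleGraph.Walk.support_cons]
    refine List.mem_cons_of_mem _ ?_
    rw [hP₁s]
    exact hm₁ m hm
  · intro m hm
    rw [hP₂s]
    exact hm₂ m hm
  · intro e he he'
    rw [e₁, List.mem_append, List.mem_cons] at he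
    rw [hP₂e] at he'
    rcases he with h | rfl | h
    · exact hsep e h _ _ p₂ (con_refl _ _) he'
    · exact hf _ _ p₂ he'
    · exact hd e h he'

end Pool.LE
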