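import Pool.Agent.Helper84.LE.St1
import Pool.Agent.Helper84.LE.BGR

/-! MP_e167eb: plan 3.4 for `t = v` (module Base0), and lemmas on walks. -/

set_option autoImplicit false
set_option linter.unusedSectionVars false

namespace Pool.LE

variable {V : Type} [DecidableEq V]

/-- the first vertex of a walk in a set -/
theorem firstHit {G : SimpleGraph V} {x y : V} (q : G.Walk x y) (S : Set V) (hy : y ∈ S) :
    ∃ z ∈ S, ∃ (r : G.Walk x z) (r' : G.Walk z y), q = r.append r' ∧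
      ∀ e ∈ r.edges, ∃ v ∈ e, v ∉ S := by
  classical
  induction q with
  | nil => exact ⟨_, hy, SimpleGraph.Walk.nil, SimpleGraph.Walk.nil, rfl, fun e he => by simp at he⟩
  | cons h p ih =>
    rename_i a b c
    by_cases ha : a ∈ S
    · exact ⟨a, ha, SimpleGraph.Walk.nil, SimpleGraph.Walk.cons h p, rfl,
        fun e he => by simp at he⟩
    · obtain ⟨z, hz, r, r', hr, he⟩ := ih hy
      refine ⟨z, hz, SimpleGraph.Walk.cons h r, r', by rw [hr]; rfl, ?_⟩
      intro e he'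
      rw [SimpleGraph.Walk.edges_cons, List.mem_cons] at he'
      rcases he' with rfl | he'
      · exact ⟨a, Sym2.mem_mk_left a b, ha⟩
      · exact he e he'

/-- endpoints of edges of a walk are on the walk -/
theorem mem_support_of_edge {G : SimpleGraph V} {x y : V} (q : G.Walk x y) {e : Sym2 V}
    (he : e ∈ q.edges) {v : V} (hv : v ∈ e) : v ∈ q.support := by
  induction e using Sym2.ind with
  | _ a b =>
    rcases Sym2.mem_iff.1 hv with rfl | rfl
    · exact q.fst_mem_support_of_mem_edges he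
    · exact q.snd_mem_support_of_mem_edges he

theorem TR_of_walk {ω η : Finset (Sym2 V)} {c : V × List V × V} (p : (gr ω).Walk c.1 c.2.2)
    (hp : p.IsTrail) (hm : ∀ m ∈ c.2.1, m ∈ p.support) (he : ∀ e ∈ p.edges, e ∈ η) : TR η c := by
  obtain ⟨q, h1, h2, -⟩ := exists_walk_of_edges p he
  refine ⟨q, ?_, fun m hmm => by rw [h2]; exact hm m hmm⟩
  rw [SimpleGraph.Walk.isTrail_def, h1]
  exact hp.edges_nodup

theorem walk_of_TR {ω η : Finset (Sym2 V)} (h : η ⊆ ω) {c : V × List V × V} (hT : TR η c) :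
    ∃ p : (gr ω).Walk c.1 c.2.2, p.IsTrail ∧ (∀ m ∈ c.2.1, m ∈ p.support) ∧
      ∀ e ∈ p.edges, e ∈ η := by
  obtain ⟨q, hq, hm⟩ := hT
  obtain ⟨q', h1, h2, -⟩ := exists_walk_of_edges (η := ω) q (fun e he => h (mem_edges_gr q he))
  refine ⟨q', ?_, fun m hmm => by rw [h2]; exact hm m hmm, fun e he => ?_⟩
  · rw [SimpleGraph.Walk.isTrail_def, h1]
    exact hq.edges_nodup
  · rw [h1] at he
    exact mem_edges_gr q he

theorem DR_two {ω : Finset (Sym2 V)} {c₁ c₂ : V × List V × V} (p : (gr ω).Walk c₁.1 c₁.2.2)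
    (q : (gr ω).Walk c₂.1 c₂.2.2) (hp : p.IsTrail) (hq : q.IsTrail)
    (hm₁ : ∀ m ∈ c₁.2.1, m ∈ p.support) (hm₂ : ∀ m ∈ c₂.2.1, m ∈ q.support)
    (hd : ∀ e ∈ p.edges, e ∉ q.edges) : DR [c₁, c₂] ω := by
  refine ⟨p.edges.toFinset, fun e he => mem_edges_gr p (List.mem_toFinset.1 he),
    TR_of_walk p hp hm₁ (fun e he => List.mem_toFinset.2 he), q.edges.toFinset, ?_,
    TR_of_walk q hq hm₂ (fun e he => List.mem_toFinset.2 he), trivial⟩
  intro e he
  rw [List.mem_toFinset] at he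
  rw [Finset.mem_sdiff, List.mem_toFinset]
  exact ⟨mem_edges_gr q he, fun h => hd e h he⟩

theorem of_DR_two {ω : Finset (Sym2 V)} {c₁ c₂ : V × List V × V} (h : DR [c₁, c₂] ω) :
    ∃ (p : (gr ω).Walk c₁.1 c₁.2.2) (q : (gr ω).Walk c₂.1 c₂.2.2), p.IsTrail ∧ q.IsTrail ∧
      (∀ m ∈ c₁.2.1, m ∈ p.support) ∧ (∀ m ∈ c₂.2.1, m ∈ q.support) ∧
      ∀ e ∈ p.edges, e ∉ q.edges := by
  obtain ⟨η, hη, hT, ζ, hζ, hT', -⟩ := h
  obtain ⟨p, hp, hpm, hpe⟩ := walk_of_TR hη hT
  obtain ⟨q, hq, hqm, hqe⟩ := walk_of_TR (hζ.trans Finset.sdiff_subset) hT'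
  refine ⟨p, q, hp, hq, hpm, hqm, fun e he he' => ?_⟩
  exact (Finset.mem_sdiff.1 (hζ (hqe e he'))).2 (hpe e he)

theorem base0_aux {ω : Finset (Sym2 V)} {t u s z : V} (P Q : (gr ω).Walk t u) (hP : P.IsPath)
    (hQ : Q.IsPath) (hd : ∀ e ∈ P.edges, e ∉ Q.edges) (hz : z ∈ P.support)
    (r : (gr ω).Walk s z) (hr : r.IsTrail) (hrP : ∀ e ∈ r.edges, e ∉ P.edges)
    (hrQ : ∀ e ∈ r.edges, e ∉ Q.edges) : DR [(t, [t, z], s), (t, [u], z)] ω := by
  have hPt := hP.isTrail
  have hPd : ∀ e ∈ (P.takeUntil z hz).edges, e ∉ (P.dropUntil z hz).edges := by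
    intro e h1 h2
    exact (hPt.disjoint_edges_takeUntil_dropUntil hz) h1 h2
  have hPt1 : ∀ e ∈ (P.takeUntil z hz).edges, e ∈ P.edges :=
    fun e he => P.edges_takeUntil_subset_edges hz he
  have hPt2 : ∀ e ∈ (P.dropUntil z hz).edges, e ∈ P.edges :=
    fun e he => P.edges_dropUntil_subset_edges hz he
  refine DR_two (c₁ := (t, [t, z], s)) (c₂ := (t, [u], z))
    ((P.takeUntil z hz).append r.reverse) (Q.append (P.dropUntil z hz).reverse) ?_ ?_ ?_ ?_ ?_
  · rw [SimpleGraph.Walk.isTrail_append]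
    refine ⟨hPt.takeUntil hz, SimpleGraph.Walk.IsTrail.reverse _ hr, ?_⟩
    intro e h1 h2
    rw [SimpleGraph.Walk.edges_reverse, List.mem_reverse] at h2
    exact hrP e h2 (hPt1 e h1)
  · rw [SimpleGraph.Walk.isTrail_append]
    refine ⟨hQ.isTrail, SimpleGraph.Walk.IsTrail.reverse _ (hPt.dropUntil hz), ?_⟩
    intro e h1 h2
    rw [SimpleGraph.Walk.edges_reverse, List.mem_reverse] at h2
    exact hd e (hPt2 e h2) h1
  · intro m hm
    rw [SimpleGraph.Walk.mem_support_append_iff]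
    simp only [List.mem_cons, List.not_mem_nil, or_false] at hm
    left
    rcases hm with rfl | rfl
    · exact SimpleGraph.Walk.start_mem_support _
    · exact SimpleGraph.Walk.end_mem_support _
  · intro m hm
    rw [SimpleGraph.Walk.mem_support_append_iff]
    simp only [List.mem_cons, List.not_mem_nil, or_false] at hm
    left
    rw [hm]
    exact SimpleGraph.Walk.end_mem_support _
  · intro e h1 h2
    rw [SimpleGraph.Walk.edges_append, List.mem_append, SimpleGraph.Walk.edges_reverse,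
      List.mem_reverse] at h1 h2
    rcases h1 with h1 | h1 <;> rcases h2 with h2 | h2
    · exact hd e (hPt1 e h1) h2
    · exact hPd e h1 h2
    · exact hrQ e h1 h2
    · exact hrP e h1 (hPt2 e h2)

theorem hBase0 (hM : StMenger) : StBase0 := by
  intro V _ ω t u s hdbl hs
  obtain ⟨q, hq, hsq⟩ := hs
  obtain ⟨P, Q, hP, hQ, hd⟩ := hM V ω t u hdbl
  obtain ⟨z, hz, r, r', hr, hre⟩ := firstHit (q.takeUntil s hsq).reverse
    {v | v ∈ P.support ∨ v ∈ Q.support} (Or.inl P.start_mem_support)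
  have hrt : r.IsTrail := by
    have h1 : (q.takeUntil s hsq).reverse.IsTrail :=
      SimpleGraph.Walk.IsTrail.reverse _ (hq.isTrail.takeUntil hsq)
    rw [hr] at h1
    exact h1.of_append_left
  have hrP : ∀ e ∈ r.edges, e ∉ P.edges := by
    intro e he hP'
    obtain ⟨v, hv, hvS⟩ := hre e he
    exact hvS (Or.inl (mem_support_of_edge P hP' hv))
  have hrQ : ∀ e ∈ r.edges, e ∉ Q.edges := by
    intro e he hP'
    obtain ⟨v, hv, hvS⟩ := hre e he
    exact hvS (Or.inr (mem_support_of_edge Q hP' hv))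
  refine ⟨z, ?_⟩
  rcases hz with hz | hz
  · exact base0_aux P Q hP hQ hd hz r hrt hrP hrQ
  · exact base0_aux Q P hQ hP (fun e h1 h2 => hd e h2 h1) hz r hrt hrQ hrP

end Pool.LE
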