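import Pool.Agent.Helper84.LE.St5

/-! LE module Boot (plan 7). -/

set_option autoImplicit false
open scoped BigOperators Topology
open MeasureTheory Filter

namespace Pool.LE

theorem hBoot (hB1 : StB1) (hEta : StEta) (hCvA : StCvA) (hCvB : StCvB) (hImp : StImp)
    (hTB : StTauBasic) : StBoot := by
  obtain ⟨C, hC, d₁, hE⟩ := hEta
  refine ⟨C, hC, max (max d₁ 20000) (⌈(200 * C) ^ 2⌉₊ + 1), fun d hd p hp0 hp hBd => ?_⟩
  have hd1 : d₁ ≤ d := le_trans (le_trans (le_max_left _ _) (le_max_left _ _)) hd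
  have hd2 : 20000 ≤ d := le_trans (le_trans (le_max_right _ _) (le_max_left _ _)) hd
  have hd3 : ⌈(200 * C) ^ 2⌉₊ + 1 ≤ d := le_trans (le_max_right _ _) hd
  have hd0 : 0 < d := by omega
  have hd' : (0 : ℝ) < d := by exact_mod_cast hd0
  have hsmall : C / Real.sqrt d ≤ 1 / 200 := by
    have h1 : (200 * C) ^ 2 ≤ d := by
      have h2 := Nat.le_ceil ((200 * C) ^ 2)
      have h3 : (⌈(200 * C) ^ 2⌉₊ : ℝ) + 1 ≤ d := by exact_mod_cast hd3
      linarith
    have h2 : 200 * C ≤ Real.sqrt d := Real.le_sqrt_of_sq_le h1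
    rw [div_le_div_iff₀ (Real.sqrt_pos.2 hd') (by norm_num)]
    linarith
  have he := hE d hd1 p hp0 hp hBd
  refine ⟨?_, he⟩
  have hetop : eta d p ≠ ⊤ := ne_top_of_le_ne_top ENNReal.ofReal_ne_top he
  obtain ⟨hp12, hsum, hchi, hFT0, -, -, -⟩ := hB1 d p hd0 hp0 hp
  have hp1 : p ≤ 1 := by linarith
  obtain ⟨-, hSh, hnh, hsymh, hg, -, -⟩ := hCvA d p hetop
  have heq := hCvB d p hp0 hp1 hetop hsum
  rw [hg] at heq
  have hn : nQ (hS d p) ≤ 1 / 200 := by
    refine hnh.trans (le_trans ?_ hsmall)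
    exact ENNReal.toReal_le_of_le_ofReal (by positivity) he
  have hres := hImp d p (tau d p) (hS d p) hd2 hp0 hsum (hTB d p hp0 hp1).2.2.1 hSh hsymh hn
    (by rw [hFT0]; exact hchi) heq
  rw [hFT0] at hres
  exact ⟨hres.1, fun k hk => (hres.2 k hk).1, fun k hk => (hres.2 k hk).2⟩

end Pool.LE
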