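import Pool.Agent.Helper84.LE.St2

/-! MP_e167eb: elementary facts on boxes, neighbours and lattice edges (module Box). -/

set_option autoImplicit false
open scoped BigOperators Polynomial
open Polynomial

namespace Pool.LE

theorem mem_bx {d R : ℕ} {x : Zd d} : x ∈ bx d R ↔ ∀ i, |x i| ≤ R := by
  unfold bx
  rw [Fintype.mem_piFinset]
  refine forall_congr' fun i => ?_
  rw [Finset.mem_Icc, abs_le]

theorem mem_nb {d : ℕ} {x b : Zd d} :
    b ∈ nb x ↔ ∃ i, b = x + Pi.single i 1 ∨ b = x - Pi.single i 1 := by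
  unfold nb
  rw [Finset.mem_union, Finset.mem_image, Finset.mem_image]
  constructor
  · rintro (⟨i, -, h⟩ | ⟨i, -, h⟩)
    · exact ⟨i, Or.inl h.symm⟩
    · exact ⟨i, Or.inr h.symm⟩
  · rintro ⟨i, h | h⟩
    · exact Or.inl ⟨i, Finset.mem_univ _, h.symm⟩
    · exact Or.inr ⟨i, Finset.mem_univ _, h.symm⟩

theorem nb_symm {d : ℕ} {x b : Zd d} : b ∈ nb x ↔ x ∈ nb b := by
  have key : ∀ x b : Zd d, b ∈ nb x → x ∈ nb b := by
    intro x b h
    rw [mem_nb] at h ⊢
    obtain ⟨i, h | h⟩ := h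
    · exact ⟨i, Or.inr (by rw [h, add_sub_cancel_right])⟩
    · exact ⟨i, Or.inl (by rw [h, sub_add_cancel])⟩
  exact ⟨key x b, key b x⟩

theorem nb_add {d : ℕ} {x b v : Zd d} : b ∈ nb x ↔ v + b ∈ nb (v + x) := by
  rw [mem_nb, mem_nb]
  refine exists_congr fun i => ?_
  rw [add_assoc, add_sub_assoc, add_right_inj, add_right_inj]

theorem mem_latE {d : ℕ} {x b : Zd d} : s(x, b) ∈ latE d ↔ b ∈ nb x := by
  unfold latE
  constructor
  · rintro ⟨y, i, h⟩
    rw [Sym2.eq_iff] at h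
    rcases h with ⟨h1, h2⟩ | ⟨h1, h2⟩
    · exact mem_nb.2 ⟨i, Or.inl (by rw [h2, h1])⟩
    · exact mem_nb.2 ⟨i, Or.inr (by rw [h2, h1, add_sub_cancel_right])⟩
  · intro h
    obtain ⟨i, h | h⟩ := mem_nb.1 h
    · exact ⟨x, i, by rw [h]⟩
    · exact ⟨b, i, by rw [h, sub_add_cancel, Sym2.eq_swap]⟩

theorem bx_step {d : ℕ} {x b : Zd d} {R : ℕ} (hx : x ∈ bx d R) (hb : b ∈ nb x) :
    b ∈ bx d (R + 1) := by
  rw [mem_bx] at hx ⊢
  intro j
  have hj := hx j
  push_cast
  have hs : ∀ i, |(Pi.single i (1 : ℤ) : Zd d) j| ≤ 1 := by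
    intro i
    by_cases h : j = i
    · subst h; rw [Pi.single_eq_same]; norm_num
    · rw [Pi.single_eq_of_ne h]; norm_num
  obtain ⟨i, h | h⟩ := mem_nb.1 hb
  · rw [h, Pi.add_apply]
    exact (abs_add_le _ _).trans (add_le_add hj (hs i))
  · rw [h, Pi.sub_apply]
    exact (abs_sub _ _).trans (add_le_add hj (hs i))

theorem mem_ES {d : ℕ} {S : Finset (Zd d)} {x b : Zd d} :
    s(x, b) ∈ ES S ↔ x ∈ S ∧ b ∈ S ∧ b ∈ nb x := by
  unfold ES
  rw [Finset.mem_image]
  constructor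
  · rintro ⟨⟨y, i⟩, hq, h⟩
    rw [Finset.mem_filter, Finset.mem_product] at hq
    obtain ⟨⟨hy, -⟩, hyi⟩ := hq
    rw [Sym2.eq_iff] at h
    rcases h with ⟨h1, h2⟩ | ⟨h1, h2⟩
    · change y = x at h1
      change y + Pi.single i 1 = b at h2
      subst h1
      exact ⟨hy, h2 ▸ hyi, mem_nb.2 ⟨i, Or.inl h2.symm⟩⟩
    · change y = b at h1
      change y + Pi.single i 1 = x at h2
      subst h1
      refine ⟨h2 ▸ hyi, hy, nb_symm.2 (mem_nb.2 ⟨i, Or.inl h2.symm⟩)⟩
  · rintro ⟨hx, hb, hxb⟩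
    obtain ⟨i, h | h⟩ := mem_nb.1 hxb
    · refine ⟨(x, i), ?_, by rw [h]⟩
      rw [Finset.mem_filter, Finset.mem_product]
      refine ⟨⟨hx, Finset.mem_univ _⟩, ?_⟩
      change x + Pi.single i 1 ∈ S
      rw [← h]; exact hb
    · have h' : b + Pi.single i 1 = x := by rw [h, sub_add_cancel]
      refine ⟨(b, i), ?_, ?_⟩
      · rw [Finset.mem_filter, Finset.mem_product]
        refine ⟨⟨hb, Finset.mem_univ _⟩, ?_⟩
        change b + Pi.single i 1 ∈ S
        rw [h']; exact hx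
      · change s(b, b + Pi.single i 1) = s(x, b)
        rw [h', Sym2.eq_swap]

theorem ES_subset_latE {d : ℕ} (S : Finset (Zd d)) :
    ((ES S : Finset (Sym2 (Zd d))) : Set (Sym2 (Zd d))) ⊆ latE d := by
  intro e he
  rw [Finset.mem_coe] at he
  induction e using Sym2.ind with
  | _ x b => exact mem_latE.2 (mem_ES.1 he).2.2

theorem bx_mono {d R R' : ℕ} (h : R ≤ R') : bx d R ⊆ bx d R' := by
  intro x hx
  rw [mem_bx] at hx ⊢
  intro i
  exact (hx i).trans (by exact_mod_cast h)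

theorem ES_mono {d : ℕ} {S S' : Finset (Zd d)} (h : S ⊆ S') : ES S ⊆ ES S' := by
  intro e he
  induction e using Sym2.ind with
  | _ x b =>
    rw [mem_ES] at he ⊢
    exact ⟨h he.1, h he.2.1, he.2.2⟩

theorem Eb_mono {d R R' : ℕ} (h : R ≤ R') : Eb d R ⊆ Eb d R' := ES_mono (bx_mono h)

theorem exists_mem_bx {d : ℕ} (x : Zd d) : ∃ R, x ∈ bx d R := by
  refine ⟨∑ i, (x i).natAbs, ?_⟩
  rw [mem_bx]
  intro i
  rw [Int.abs_eq_natAbs]
  exact_mod_cast Finset.single_le_sum (f := fun i => (x i).natAbs) (fun _ _ => Nat.zero_le _)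
    (Finset.mem_univ i)

theorem exists_Eb {d : ℕ} (E : Finset (Sym2 (Zd d))) (hE : (E : Set (Sym2 (Zd d))) ⊆ latE d) :
    ∃ R, E ⊆ Eb d R := by
  have key : ∀ e : Sym2 (Zd d), ∃ R, e ∈ latE d → e ∈ Eb d R := by
    intro e
    induction e using Sym2.ind with
    | _ x b =>
      obtain ⟨R, hR⟩ := exists_mem_bx x
      refine ⟨R + 1, fun h => ?_⟩
      have hb := mem_latE.1 h
      exact mem_ES.2 ⟨bx_mono (Nat.le_succ R) hR, bx_step hR hb, hb⟩
  choose f hf using key
  refine ⟨E.sup f, fun e he => ?_⟩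
  exact Eb_mono (Finset.le_sup he) (hf e (hE he))

theorem single_inj {d : ℕ} {i j : Fin d}
    (h : (Pi.single i (1 : ℤ) : Zd d) = Pi.single j 1) : i = j := by
  by_contra hne
  have h1 := congrFun h i
  rw [Pi.single_eq_same, Pi.single_eq_of_ne hne] at h1
  exact one_ne_zero h1

theorem card_nb {d : ℕ} (x : Zd d) : (nb x).card = 2 * d := by
  unfold nb
  rw [Finset.card_union_of_disjoint]
  · rw [Finset.card_image_of_injective, Finset.card_image_of_injective, Finset.card_univ,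
      Fintype.card_fin]
    · ring
    · intro i j h
      exact single_inj (sub_right_injective h)
    · intro i j h
      exact single_inj (add_right_injective x h)
  · rw [Finset.disjoint_left]
    intro y h1 h2
    rw [Finset.mem_image] at h1 h2
    obtain ⟨i, -, h1⟩ := h1
    obtain ⟨j, -, h2⟩ := h2
    have h3 : (Pi.single i (1 : ℤ) : Zd d) = -Pi.single j 1 := by
      rw [← h2, sub_eq_add_neg] at h1
      exact add_right_injective x h1
    have h4 := congrFun h3 i
    rw [Pi.neg_apply, Pi.single_eq_same] at h4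
    by_cases hij : i = j
    · rw [hij, Pi.single_eq_same] at h4
      omega
    · rw [Pi.single_eq_of_ne hij] at h4
      omega

theorem sq_single {d : ℕ} (i : Fin d) : sq (Pi.single i (1 : ℤ) : Zd d) = 1 := by
  unfold sq
  rw [Finset.sum_eq_single i]
  · rw [Pi.single_eq_same]; norm_num
  · intro j _ hj
    rw [Pi.single_eq_of_ne hj]; norm_num
  · intro h; exact absurd (Finset.mem_univ i) h

theorem sq_neg {d : ℕ} (x : Zd d) : sq (-x) = sq x := by
  unfold sq
  refine Finset.sum_congr rfl fun i _ => ?_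
  rw [Pi.neg_apply]
  push_cast
  ring

theorem sq_nb {d : ℕ} {x b : Zd d} (h : b ∈ nb x) : sq (b - x) = 1 := by
  obtain ⟨i, h | h⟩ := mem_nb.1 h
  · rw [h, add_sub_cancel_left]
    exact sq_single i
  · have : b - x = -Pi.single i 1 := by rw [h]; abel
    rw [this, sq_neg]
    exact sq_single i

theorem hBox : StBox := by
  intro d
  refine ⟨?_, fun R x => mem_bx, fun x b => mem_nb, fun x b => nb_symm, fun x b v => nb_add,
    fun x b => mem_latE, fun x b R => bx_step, fun S x b => mem_ES, ES_subset_latE,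
    fun R R' => Eb_mono, exists_Eb, card_nb, fun x b => sq_nb⟩
  intro x
  rw [mem_bx]
  constructor
  · intro h
    funext i
    have := h i
    rw [Nat.cast_zero] at this
    exact abs_nonpos_iff.1 this
  · rintro rfl i
    simp

end Pool.LE
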