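import Pool.Agent.Helper84.LE.St1

/-! Module Coef: coefficient form of the expansion. -/

set_option autoImplicit false
open scoped BigOperators Polynomial
open Polynomial

namespace Pool.LE

namespace MCoef

theorem coeff_prod (P Q : ℝ[X]) (p : ℝ) (n : ℕ) :
    (P * (C p * X) * Q).coeff n = ∑ j ∈ Finset.range n, P.coeff j * p * Q.coeff (n - 1 - j) := by
  have h1 : P * (C p * X) * Q = X * (P * (C p * Q)) := by ring
  rw [h1]
  cases n with
  | zero => simp
  | succ n =>
    rw [coeff_X_mul, coeff_mul, Finset.Nat.sum_antidiagonal_eq_sum_range_succ_mk]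
    refine Finset.sum_congr rfl fun j _ => ?_
    rw [coeff_C_mul, Nat.add_sub_cancel, mul_assoc]

end MCoef

open MCoef

theorem hCoef (hExp : StExp) (hDvd : StDvd) : StCoef := by
  intro V _ E p M n v x hn
  have h1 := congrArg (fun P : ℝ[X] => P.coeff n) (hExp V E p M v x)
  obtain ⟨c, hc⟩ := hDvd V E p (M + 1) (DD E p) {v} v x
  have h2 : ((-1 : ℝ[X]) ^ (M + 1) * ((LL E p)^[M + 1] (DD E p)) {v} v x).coeff n = 0 := by
    rw [hc, show (-1 : ℝ[X]) ^ (M + 1) * (X ^ (M + 1) * c) =
      X ^ (M + 1) * ((-1 : ℝ[X]) ^ (M + 1) * c) by ring, coeff_X_pow_mul']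
    rw [if_neg (by omega)]
  simp only [coeff_add, h2, add_zero, finsetSum_coeff, coeff_prod] at h1
  exact h1

end Pool.LE
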