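import Pool.Agent.Helper84.LE.St2
import Pool.Agent.Helper84.LE.BGR
import Pool.Agent.Helper84.LE.BWT

/-! MP_e167eb: coefficients of the lattice two-point function: locality, bounds, the case `n = 0`. -/

set_option autoImplicit false
open scoped BigOperators Polynomial
open Polynomial

namespace Pool.LE

theorem hCoefLoc (h0 : StCoefLoc0) (hT : StTransl) : StCoefLoc := by
  intro d p n E v x hE hF
  rw [h0 d p n E (trE v (Eb d n)) v x hE hF (Finset.Subset.refl _)]
  have h1 := (hT d p (Eb d n) v 0 (x - v)).1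
  rw [add_zero, add_sub_cancel] at h1
  unfold tn
  rw [h1]

theorem coeff_mon_bd {V : Type} [DecidableEq V] (ω : Finset (Sym2 V)) (x y : V) (n : ℕ) :
    0 ≤ (mon ω x y).coeff n ∧ (mon ω x y).coeff n ≤ 1 := by
  by_cases h : con ω x y
  · rw [mon_of_con h, Polynomial.coeff_X_pow]
    split_ifs
    · exact ⟨zero_le_one, le_refl _⟩
    · exact ⟨le_refl _, zero_le_one⟩
  · rw [mon_eq_zero h, Polynomial.coeff_zero]
    exact ⟨le_refl _, zero_le_one⟩

theorem hTnNonneg : StTnNonneg := by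
  intro d p n x hp0 hp1
  unfold tn GG
  rw [coeff_Ex]
  unfold Ex
  constructor
  · exact Finset.sum_nonneg fun ω _ =>
      mul_nonneg (wt_nonneg hp0 hp1 _ _) (coeff_mon_bd ω 0 x n).1
  · rw [← sum_wt (Eb d n) p]
    refine Finset.sum_le_sum fun ω _ => ?_
    rw [smul_eq_mul]
    exact mul_le_of_le_one_right (wt_nonneg hp0 hp1 _ _) (coeff_mon_bd ω 0 x n).2

theorem Eb_zero (d : ℕ) : Eb d 0 = ∅ := by
  rw [Finset.eq_empty_iff_forall_notMem]
  intro e he
  unfold Eb ES at he
  rw [Finset.mem_image] at he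
  obtain ⟨⟨x, i⟩, hq, -⟩ := he
  rw [Finset.mem_filter, Finset.mem_product] at hq
  obtain ⟨⟨h1, -⟩, h2⟩ := hq
  simp only at h1 h2
  unfold bx at h1 h2
  rw [Fintype.mem_piFinset] at h1 h2
  have h3 := h1 i
  have h4 := h2 i
  rw [Finset.mem_Icc] at h3 h4
  rw [Pi.add_apply, Pi.single_eq_same] at h4
  simp only [Nat.cast_zero, neg_zero] at h3 h4
  omega

theorem hTn0 : StTn0 := by
  intro d p x
  have h1 : tn d p 0 x = if x = 0 then 1 else 0 := by
    unfold tn GG
    have h2 : Ex (Eb d 0) p (fun ω => mon ω 0 x) = mon ∅ 0 x := by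
      rw [Eb_zero]
      simp [Ex, wt]
    rw [h2]
    by_cases hx : x = 0
    · rw [if_pos hx, hx, mon_self, Polynomial.coeff_one_zero]
    · rw [if_neg hx, mon_eq_zero, Polynomial.coeff_zero]
      intro hc
      obtain ⟨b, -, hb, -⟩ := con_cases hc (fun h => hx h.symm)
      exact absurd hb (Finset.notMem_empty _)
  refine ⟨h1, ?_⟩
  rw [gm]
  simp only [Finset.univ_eq_empty, Finset.sum_empty, sub_zero]
  exact h1

end Pool.LE
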