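import Pool.Agent.Helper84.LE.St5

/-! LE module Con01: connectedness of `[0,b)`. -/

set_option autoImplicit false
open scoped BigOperators Topology
open MeasureTheory Filter

namespace Pool.LE

theorem hCon01 : StCon01 := by
  intro b P hb h0 hopen hclosed p hp hpb
  have hcl : IsClosed ({x | P x} ∩ Set.Icc 0 p) := by
    rw [isClosed_iff_frequently]
    intro x hx
    have hx1 : x ∈ Set.Icc 0 p :=
      isClosed_iff_frequently.1 isClosed_Icc x (hx.mono fun y hy => hy.2)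
    refine ⟨hclosed x hx1.1 (lt_of_le_of_lt hx1.2 hpb) ?_, hx1⟩
    rw [frequently_nhdsWithin_iff]
    exact hx.mono fun y hy => ⟨hy.1, hy.2.1, lt_of_le_of_lt hy.2.2 hpb⟩
  have hsub := hcl.Icc_subset_of_forall_exists_gt h0 (by
    intro x hx y hy
    have hxb : x < b := lt_trans hx.2.2 hpb
    have h1 := hopen x hx.2.1 hxb hx.1
    have h2 : ∀ᶠ z in 𝓝[>] x, P z := by
      have h3 : 𝓝[>] x ≤ 𝓝[Set.Ico 0 b] x := by
        rw [← nhdsWithin_Ioo_eq_nhdsGT hxb]
        exact nhdsWithin_mono x fun z hz => ⟨hx.2.1.trans hz.1.le, hz.2⟩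
      exact h3 h1
    have h4 : ∀ᶠ z in 𝓝[>] x, z ∈ Set.Ioc x y := Ioc_mem_nhdsGT hy
    obtain ⟨z, hz1, hz2⟩ := (h2.and h4).exists
    exact ⟨z, hz1, hz2⟩)
  exact hsub ⟨hp, le_rfl⟩

end Pool.LE
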