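import Pool.Agent.Helper84.LE.St5

/-! Plan section 8: the equation for the critical point. -/

set_option autoImplicit false
open scoped BigOperators Topology
open MeasureTheory Filter

namespace Pool.LE

theorem summable_Crit {d : ℕ} {f : Zd d → ℝ} (h : SumQ f) : Summable f := by
  refine Summable.of_norm_bounded h ?_
  intro x
  rw [Real.norm_eq_abs]
  have h1 : 1 ≤ Qw x := by
    unfold Qw sq
    have h : 0 ≤ ∑ i, (x i : ℝ) ^ 2 := Finset.sum_nonneg fun i _ => sq_nonneg _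
    linarith
  have h2 := abs_nonneg (f x)
  nlinarith

theorem ft_zero_Crit {d : ℕ} (f : Zd d → ℝ) : FT f 0 = ∑' x : Zd d, f x := by
  unfold FT
  refine tsum_congr fun x => ?_
  simp only [Pi.zero_apply, zero_mul, Finset.sum_const_zero, Real.cos_zero, mul_one]

theorem ft_dl_Crit {d : ℕ} {f : Zd d → ℝ} (h : SumQ f) : FT (dl f) 0 = 1 + FT f 0 := by
  rw [ft_zero_Crit, ft_zero_Crit]
  unfold dl
  have h1 : Summable (fun x : Zd d => if x = 0 then (1 : ℝ) else 0) := by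
    refine summable_of_ne_finset_zero (s := {0}) ?_
    intro x hx
    rw [if_neg]
    intro hx0
    exact hx (Finset.mem_singleton.2 hx0)
  rw [(summable_Crit h).tsum_add h1, tsum_ite_eq, add_comm]

theorem dh_zero_Crit {d : ℕ} (hd : 0 < d) : Dh (0 : Fin d → ℝ) = 1 := by
  unfold Dh
  simp only [Pi.zero_apply, Real.cos_zero, Finset.sum_const, Finset.card_univ, Fintype.card_fin,
    nsmul_eq_mul, mul_one]
  have h : (d : ℝ) ≠ 0 := by exact_mod_cast hd.ne'
  exact div_self h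

theorem hCrit (h6a : StS6a) (h6c : StS6c) (hTB : StTauBasic) (hCvA : StCvA) (hCvB : StCvB)
    (hImpF : StImpF) (hGcont : StGcont) (h6d : StS6d) (hB1 : StB1) : StCrit := by
  intro d c hd he hlt
  obtain ⟨hpos, hhalf⟩ := h6d d hd
  have htop : ∀ p : ℝ, 0 ≤ p → p ≤ pH d → eta d p ≠ ⊤ := fun p hp hp1 =>
    ne_top_of_le_ne_top ENNReal.ofReal_ne_top (he p hp hp1)
  have hG : Tendsto (fun p => 1 + FT (hS d p) 0) (𝓝[<] (pH d)) (𝓝 (1 + FT (hS d (pH d)) 0)) :=
    (hGcont d (pH d) c hpos he).const_add 1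
  have hchi : Tendsto (fun p => (chi d p)⁻¹) (𝓝[<] (pH d)) (𝓝 0) :=
    tendsto_inv_atTop_zero.comp (h6c d hd hlt)
  have hid : Tendsto (fun p : ℝ => p) (𝓝[<] (pH d)) (𝓝 (pH d)) :=
    tendsto_id.mono_left nhdsWithin_le_nhds
  have key : ∀ p : ℝ, 0 ≤ p → p < pH d →
      (1 + FT (hS d p) 0) * (chi d p)⁻¹ = 1 - 2 * d * p * (1 + FT (hS d p) 0) := by
    intro p hp hp1
    obtain ⟨_, b2, _, b4, b5, _, _⟩ := hCvA d p (htop p hp hp1.le)
    obtain ⟨_, _, c3, _, _⟩ := hTB d p hp (by linarith)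
    have hsum := h6a d p hd hp hp1
    have heq := hCvB d p hp (by linarith) (htop p hp hp1.le) hsum
    rw [b5] at heq
    have h1 := (hImpF d p (tau d p) (hS d p) hd hsum c3 b2 b4 heq 0).1
    obtain ⟨_, _, d3, d4, _⟩ := hB1 d p hd hp hp1
    rw [d4, dh_zero_Crit hd, mul_one] at h1
    have h2 : chi d p ≠ 0 := by linarith
    calc (1 + FT (hS d p) 0) * (chi d p)⁻¹
        = chi d p * (1 - 2 * d * p * (1 + FT (hS d p) 0)) * (chi d p)⁻¹ := by rw [h1]
      _ = 1 - 2 * d * p * (1 + FT (hS d p) 0) := by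
        rw [mul_comm (chi d p), mul_inv_cancel_right₀ h2]
  have h1 : Tendsto (fun p => (1 + FT (hS d p) 0) * (chi d p)⁻¹) (𝓝[<] (pH d)) (𝓝 0) := by
    have h2 := hG.mul hchi
    rw [mul_zero] at h2
    exact h2
  have h2 : Tendsto (fun p => 1 - 2 * d * p * (1 + FT (hS d p) 0)) (𝓝[<] (pH d))
      (𝓝 (1 - 2 * d * pH d * (1 + FT (hS d (pH d)) 0))) :=
    ((hid.const_mul (2 * (d : ℝ))).mul hG).const_sub 1
  have h3 : Tendsto (fun p => 1 - 2 * d * p * (1 + FT (hS d p) 0)) (𝓝[<] (pH d)) (𝓝 0) := by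
    refine h1.congr' ?_
    filter_upwards [Ioo_mem_nhdsLT hpos] with p hp
    exact key p hp.1.le hp.2
  have h4 := tendsto_nhds_unique h2 h3
  obtain ⟨_, b2, _, _, b5, _⟩ := hCvA d (pH d) (htop _ hpos.le le_rfl)
  rw [b5, ft_dl_Crit b2]
  linarith

end Pool.LE
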