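import Pool.Agent.Helper84.LE.St6

/-! Statements, part 7: the infinite product measure and the end (plan sections 10, 11). -/

set_option autoImplicit false
open scoped BigOperators Topology
open MeasureTheory Filter

namespace Pool.LE

/-- the infinite product measure -/
noncomputable def Pi8 (d : ℕ) : Measure (((Fin d → ℤ) × Fin d) → unitInterval) :=
  Measure.infinitePi (fun _ : (Fin d → ℤ) × Fin d => (volume : Measure unitInterval))

/-- the percolation graph at level `p` -/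
def Gp (d : ℕ) (p : ℝ) (ω : ((Fin d → ℤ) × Fin d) → unitInterval) : SimpleGraph (Fin d → ℤ) :=
  SimpleGraph.fromRel (fun x y : Fin d → ℤ => ∃ i : Fin d, y = x + Pi.single i (1 : ℤ) ∧ ((ω (x, i) : ℝ) < p))

open Classical in
/-- open edges of the box -/
noncomputable def opn (d : ℕ) (p : ℝ) (R : ℕ) (ω : ((Fin d → ℤ) × Fin d) → unitInterval) :
    Finset (Sym2 (Zd d)) :=
  (Eb d R).filter (fun e => ∃ x : Zd d, ∃ i : Fin d, e = s(x, x + Pi.single i 1) ∧ ((ω (x, i) : ℝ) < p))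

/-- law of the finite configurations -/
def StLaw : Prop := ∀ (d R : ℕ) (p : ℝ) (A : Finset (Sym2 (Zd d)) → Prop), 0 ≤ p → p ≤ 1 →
  Pi8 d {ω | A (opn d p R ω)} = Pr (Eb d R) p A ∧ MeasurableSet {ω | A (opn d p R ω)}

/-- distances are local -/
def StGdist : Prop := ∀ (d : ℕ) (p : ℝ) (ω : ((Fin d → ℤ) × Fin d) → unitInterval) (n : ℕ) (x : Zd d),
  ((Gp d p ω).Reachable 0 x ∧ (Gp d p ω).dist 0 x = n) ↔
    (con (opn d p n ω) 0 x ∧ (gr (opn d p n ω)).dist 0 x = n)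

/-- infinite cluster and leaving boxes -/
def StGinf : Prop := ∀ (d : ℕ) (p : ℝ) (ω : ((Fin d → ℤ) × Fin d) → unitInterval),
  {x : Zd d | (Gp d p ω).Reachable 0 x}.Infinite ↔ ∀ n : ℕ, Out n (opn d p (n + 1) ω)

/-- coefficient of the two-point function -/
def StTnMeas : Prop := ∀ (d : ℕ) (p : ℝ) (n : ℕ) (x : Zd d), 0 ≤ p → p ≤ 1 →
  (Pi8 d {ω | (Gp d p ω).Reachable 0 x ∧ (Gp d p ω).dist 0 x = n}).toReal = tn d p n x

/-- `pH` is the critical point -/
def StPc : Prop := ∀ (d : ℕ), 1 ≤ d → pH d < 1 / 2 →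
  sSup {p : ℝ | Pi8 d {ω | {x : Zd d | (Gp d p ω).Reachable 0 x}.Infinite} = 0} = pH d

/-- the sine part vanishes -/
def StFTcomplex : Prop := ∀ (d n : ℕ) (p : ℝ) (k : Fin d → ℝ),
  ∑' x : Zd d, ((tn d p n x : ℝ) : ℂ) * Complex.exp (Complex.I *
    (((∑ j : Fin d, k j * (x j : ℝ)) / Real.sqrt (n : ℝ) : ℝ) : ℂ)) =
    ((FT (tn d p n) (fun i => k i / Real.sqrt n) : ℝ) : ℂ)

/-- the critical hypothesis holds in high dimension (plan section 8) -/
def StCritAll : Prop := ∃ d₀ : ℕ, 6 < d₀ ∧ ∀ d : ℕ, d₀ ≤ d → pH d < 1 / 2 ∧ CritH d (pH d) (1 / 8)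

end Pool.LE
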