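import Pool.Agent.Helper84.LE.St5
import Pool.Agent.Helper84.LE.St7

/-! The critical hypothesis in high dimension (plan section 8). -/

set_option autoImplicit false
open scoped BigOperators Topology
open MeasureTheory Filter

namespace Pool.LE

theorem qw_ge_CritAll {d : ℕ} (x : Zd d) : 2 ≤ Qw x := by
  unfold Qw sq
  have h : 0 ≤ ∑ i, (x i : ℝ) ^ 2 := Finset.sum_nonneg fun i _ => sq_nonneg _
  linarith

/-- The real summand of `eta`. -/
noncomputable def aCritAll (d : ℕ) (p : ℝ) (q : ℕ × Zd d) : ℝ :=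
  (1 + (q.1 : ℝ)) * (Qw q.2 * |hm d p q.1 q.2|)

theorem a_nonneg_CritAll (d : ℕ) (p : ℝ) (q : ℕ × Zd d) : 0 ≤ aCritAll d p q := by
  unfold aCritAll
  have h1 := qw_ge_CritAll q.2
  have h2 : (0 : ℝ) ≤ q.1 := Nat.cast_nonneg _
  exact mul_nonneg (by linarith) (mul_nonneg (by linarith) (abs_nonneg _))

theorem eta_eq_CritAll (d : ℕ) (p : ℝ) :
    eta d p = ∑' q : ℕ × Zd d, ENNReal.ofReal (aCritAll d p q) := by
  unfold eta
  rw [ENNReal.tsum_prod']
  refine tsum_congr fun m => tsum_congr fun x => ?_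
  unfold aCritAll
  have h1 := qw_ge_CritAll x
  have h2 : (0 : ℝ) ≤ m := Nat.cast_nonneg _
  rw [ENNReal.ofReal_mul (by linarith), ENNReal.ofReal_mul (by linarith),
    ENNReal.ofReal_add zero_le_one h2, ENNReal.ofReal_one, ENNReal.ofReal_natCast, mul_assoc]

theorem sum_a_CritAll {d : ℕ} {p : ℝ} (h : eta d p ≠ ⊤) : Summable (aCritAll d p) := by
  rw [eta_eq_CritAll] at h
  have h1 := ENNReal.summable_toReal h
  refine h1.congr ?_
  intro q
  exact ENNReal.toReal_ofReal (a_nonneg_CritAll d p q)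

theorem sum_gm_CritAll {d : ℕ} {p : ℝ} (h : eta d p ≠ ⊤) :
    Summable (fun q : ℕ × Zd d => gm d p q.1 q.2) := by
  have h1 : Summable (fun q : ℕ × Zd d => hm d p q.1 q.2) := by
    refine Summable.of_norm_bounded (sum_a_CritAll h) ?_
    intro q
    rw [Real.norm_eq_abs]
    unfold aCritAll
    have h1 := qw_ge_CritAll q.2
    have h2 : (0 : ℝ) ≤ q.1 := Nat.cast_nonneg _
    have h3 := abs_nonneg (hm d p q.1 q.2)
    have h4 : |hm d p q.1 q.2| ≤ Qw q.2 * |hm d p q.1 q.2| := by nlinarith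
    have h5 : Qw q.2 * |hm d p q.1 q.2| ≤ (1 + (q.1 : ℝ)) * (Qw q.2 * |hm d p q.1 q.2|) := by
      nlinarith
    linarith
  have h2 : Summable (fun q : ℕ × Zd d => if q.1 = 0 ∧ q.2 = 0 then (1 : ℝ) else 0) := by
    refine summable_of_ne_finset_zero (s := {(0, 0)}) ?_
    intro q hq
    rw [if_neg]
    rintro ⟨h3, h4⟩
    apply hq
    rw [Finset.mem_singleton]
    exact Prod.ext h3 h4
  refine (h1.add h2).congr ?_
  intro q
  change hm d p q.1 q.2 + (if q.1 = 0 ∧ q.2 = 0 then (1 : ℝ) else 0) = gm d p q.1 q.2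
  unfold hm
  ring

theorem ft_zero_CritAll {d : ℕ} (f : Zd d → ℝ) : FT f 0 = ∑' x : Zd d, f x := by
  unfold FT
  refine tsum_congr fun x => ?_
  simp only [Pi.zero_apply, zero_mul, Finset.sum_const_zero, Real.cos_zero, mul_one]

/-- The critical hypothesis holds in high dimension. -/
theorem hCritAll (hB8 : StB8) (hCvA : StCvA) (hTb : StFTb) : StCritAll := by
  have _ := hCvA
  have _ := hTb
  obtain ⟨d₁, _, h⟩ := hB8
  refine ⟨max d₁ 7, lt_of_lt_of_le (by norm_num) (le_max_right _ _), ?_⟩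
  intro d hd
  obtain ⟨h1, _, h3, h4, h5⟩ := h d (le_trans (le_max_left _ _) hd)
  have hd7 : 7 ≤ d := le_trans (le_max_right _ _) hd
  have htop : eta d (pH d) ≠ ⊤ := ne_top_of_le_ne_top ENNReal.ofReal_ne_top h4
  have hS := sum_a_CritAll htop
  have hin : ∀ m : ℕ, ∑' x : Zd d, aCritAll d (pH d) (m, x) =
      (1 + (m : ℝ)) * nQ (hm d (pH d) m) := by
    intro m
    unfold nQ
    rw [← tsum_mul_left]
    rfl
  refine ⟨h3, ⟨by omega, h1, h3.le, ?_, ?_, ?_, le_refl _, ?_⟩⟩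
  · intro m
    have h6 : Summable (fun x : Zd d => (1 + (m : ℝ)) * (Qw x * |hm d (pH d) m x|)) :=
      hS.prod_factor m
    have h7 : (1 + (m : ℝ)) ≠ 0 := by positivity
    exact (summable_mul_left_iff h7).1 h6
  · exact hS.prod.congr hin
  · have h6 : ∑' q : ℕ × Zd d, aCritAll d (pH d) q ≤ 1 / 200 := by
      rw [eta_eq_CritAll, ← ENNReal.ofReal_tsum_of_nonneg (a_nonneg_CritAll d (pH d)) hS,
        ENNReal.ofReal_le_ofReal_iff (by norm_num)] at h4
      exact h4
    rw [hS.tsum_prod] at h6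
    rw [← tsum_congr hin]
    linarith
  · have h6 : FT (gS d (pH d)) 0 = ∑' m : ℕ, FT (gm d (pH d) m) 0 := by
      rw [ft_zero_CritAll]
      unfold gS
      have h7 := sum_gm_CritAll htop
      have h8 := Summable.tsum_comm (f := fun (m : ℕ) (x : Zd d) => gm d (pH d) m x) h7
      rw [h8]
      refine tsum_congr fun m => ?_
      rw [ft_zero_CritAll]
    rw [← h6]
    exact h5

end Pool.LE
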