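import Pool.Agent.Helper84.LE.St6

set_option autoImplicit false
open scoped BigOperators Topology
open Filter

namespace Pool.LE

theorem critB_nQ_nonneg {d : ℕ} (f : Zd d → ℝ) : 0 ≤ nQ f :=
  tsum_nonneg fun x => mul_nonneg (by
    unfold Qw sq
    have : 0 ≤ ∑ i, (x i : ℝ) ^ 2 := Finset.sum_nonneg fun i _ => sq_nonneg _
    linarith) (abs_nonneg _)

theorem critB_hm0 (h0 : StTn0) (d : ℕ) (p : ℝ) : hm d p 0 = fun _ => 0 := by
  funext x
  unfold hm
  rw [(h0 d p x).2]
  by_cases hx : x = 0 <;> simp [hx]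

theorem critB_gm (d : ℕ) (p : ℝ) (m : ℕ) :
    gm d p m = fun x => hm d p m x + (if m = 0 ∧ x = 0 then 1 else 0) := by
  funext x
  simp [hm]

theorem critB_FT (h0 : StTn0) (d : ℕ) (p : ℝ) (m : ℕ) (k : Fin d → ℝ) :
    FT (gm d p m) k = FT (hm d p m) k + if m = 0 then 1 else 0 := by
  by_cases hm0 : m = 0
  · subst hm0
    have h1 : gm d p 0 = fun x => if x = 0 then 1 else 0 := by
      funext x; exact (h0 d p x).2
    rw [critB_hm0 h0, h1]
    unfold FT
    rw [tsum_eq_single 0]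
    · simp
    · intro x hx
      simp [hx]
  · have h1 : gm d p m = hm d p m := by
      funext x
      simp [hm, hm0]
    rw [h1]
    simp [hm0]

theorem critB_MT (h0 : StTn0) (d : ℕ) (p : ℝ) (m : ℕ) (k : Fin d → ℝ) :
    MT (gm d p m) k = MT (hm d p m) k := by
  by_cases hm0 : m = 0
  · subst hm0
    have h1 : gm d p 0 = fun x => if x = 0 then 1 else 0 := by
      funext x; exact (h0 d p x).2
    rw [critB_hm0 h0, h1]
    unfold MT
    congr 1
    funext x
    by_cases hx : x = 0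
    · simp [hx, sq]
    · simp [hx]
  · have h1 : gm d p m = hm d p m := by
      funext x
      simp [hm, hm0]
    rw [h1]

theorem hCritBasic (h0 : StTn0) (hb : StFTb) (hDh : StDh) : StCritBasic := by
  intro d p η h
  have hs := h.summ'
  have hd : (1 : ℝ) ≤ d := by exact_mod_cast h.hd
  have hp0 := h.hp0
  have hn : ∀ m, 0 ≤ nQ (hm d p m) := fun m => critB_nQ_nonneg _
  -- summability of the norms
  have hs0 : Summable fun m : ℕ => nQ (hm d p m) :=
    Summable.of_nonneg_of_le hn (fun m => by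
      have := hn m
      nlinarith [mul_nonneg (Nat.cast_nonneg (α := ℝ) m) this]) hs
  have hFTle : ∀ m k, |FT (hm d p m) k| ≤ nQ (hm d p m) := fun m k => (hb d _ (h.summ m) k).2.2.2.1
  have hMTle : ∀ m k, |MT (hm d p m) k| ≤ nQ (hm d p m) := fun m k => (hb d _ (h.summ m) k).2.2.2.2.1
  have hsF : Summable fun m : ℕ => FT (hm d p m) 0 :=
    Summable.of_norm_bounded hs0 fun m => by rw [Real.norm_eq_abs]; exact hFTle m 0
  have hsM : Summable fun m : ℕ => MT (hm d p m) 0 :=
    Summable.of_norm_bounded hs0 fun m => by rw [Real.norm_eq_abs]; exact hMTle m 0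
  have hsone : Summable fun m : ℕ => (if m = 0 then 1 else 0 : ℝ) :=
    summable_of_ne_finset_zero (s := {0}) (fun m hm => by simp at hm; simp [hm])
  have hone : ∑' m : ℕ, (if m = 0 then 1 else 0 : ℝ) = 1 := by
    rw [tsum_eq_single 0] <;> simp +contextual
  have hnQs : ∑' m : ℕ, nQ (hm d p m) ≤ η := by
    refine le_trans (hs0.tsum_le_tsum (fun m => ?_) hs) h.bound
    have := hn m
    nlinarith [mul_nonneg (Nat.cast_nonneg (α := ℝ) m) this]
  have hη := h.small
  have hFsum : |∑' m : ℕ, FT (hm d p m) 0| ≤ η :=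
    le_trans (tsum_of_norm_bounded hs0.hasSum (fun m => by rw [Real.norm_eq_abs]; exact hFTle m 0)) hnQs
  have hMsum : |∑' m : ℕ, MT (hm d p m) 0| ≤ η :=
    le_trans (tsum_of_norm_bounded hs0.hasSum (fun m => by rw [Real.norm_eq_abs]; exact hMTle m 0)) hnQs
  have hG : ∑' m : ℕ, FT (gm d p m) 0 = 1 + ∑' m : ℕ, FT (hm d p m) 0 := by
    have : (fun m : ℕ => FT (gm d p m) 0) = fun m : ℕ => FT (hm d p m) 0 + if m = 0 then 1 else 0 := by
      funext m; exact critB_FT h0 d p m 0
    rw [this, hsF.tsum_add hsone, hone, add_comm]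
  have hGpos : 7 / 8 ≤ ∑' m : ℕ, FT (gm d p m) 0 := by
    rw [hG]; have := abs_le.1 hFsum; linarith [this.1]
  have hM : ∑' m : ℕ, MT (gm d p m) 0 = ∑' m : ℕ, MT (hm d p m) 0 :=
    tsum_congr fun m => critB_MT h0 d p m 0
  have h2dp : 2 * d * p ≤ 8 / 7 := by
    have h1 := h.crit
    have h2 : 0 ≤ 2 * d * p := by positivity
    nlinarith
  have h2dp0 : 0 < 2 * d * p := by positivity
  refine ⟨?_, ?_, by linarith, ?_, ?_⟩
  · unfold vD
    refine mul_pos h2dp0 ?_
    rw [hM]
    have := abs_le.1 hMsum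
    linarith [this.1]
  · unfold muD
    have hs1 : Summable fun m : ℕ => (m + 1 : ℝ) * (2 * d * p * FT (hm d p m) 0) := by
      refine Summable.of_norm_bounded (hs.mul_left (2 * d * p)) fun m => ?_
      rw [Real.norm_eq_abs, abs_mul, abs_mul, abs_of_pos h2dp0, abs_of_nonneg (by positivity : (0:ℝ) ≤ m + 1)]
      have := hFTle m 0
      have h3 : (0:ℝ) ≤ (m + 1) * (2 * d * p) := by positivity
      nlinarith [mul_le_mul_of_nonneg_left this h3]
    have hs2 : Summable fun m : ℕ => (m + 1 : ℝ) * (2 * d * p * (if m = 0 then 1 else 0)) :=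
      summable_of_ne_finset_zero (s := {0}) (fun m hm => by simp at hm; simp [hm])
    have hone2 : ∑' m : ℕ, (m + 1 : ℝ) * (2 * d * p * (if m = 0 then 1 else 0)) = 2 * d * p := by
      rw [tsum_eq_single 0] <;> simp +contextual
    have e : (fun m : ℕ => (m + 1 : ℝ) * (2 * d * p * FT (gm d p m) 0)) = fun m : ℕ =>
        (m + 1 : ℝ) * (2 * d * p * FT (hm d p m) 0) + (m + 1 : ℝ) * (2 * d * p * (if m = 0 then 1 else 0)) := by
      funext m; rw [critB_FT h0]; ring
    rw [e, hs1.tsum_add hs2, hone2]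
    have hb1 : |∑' m : ℕ, (m + 1 : ℝ) * (2 * d * p * FT (hm d p m) 0)| ≤ 2 * d * p * η := by
      have h9 : ‖∑' m : ℕ, (m + 1 : ℝ) * (2 * d * p * FT (hm d p m) 0)‖ ≤
          ∑' m : ℕ, 2 * d * p * ((1 + (m : ℝ)) * nQ (hm d p m)) := by
        refine tsum_of_norm_bounded (hs.mul_left (2 * d * p)).hasSum fun m => ?_
        rw [Real.norm_eq_abs, abs_mul, abs_mul, abs_of_pos h2dp0, abs_of_nonneg (by positivity : (0:ℝ) ≤ m + 1)]
        have := hFTle m 0
        have h3 : (0:ℝ) ≤ (m + 1) * (2 * d * p) := by positivity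
        nlinarith [mul_le_mul_of_nonneg_left this h3]
      rw [Real.norm_eq_abs, tsum_mul_left] at h9
      exact h9.trans (mul_le_mul_of_nonneg_left h.bound h2dp0.le)
    have := abs_le.1 hb1
    nlinarith [this.1]
  · have hle : ∀ m : ℕ, (m : ℝ) * |2 * d * p * FT (gm d p m) 0| ≤ 8 / 7 * ((1 + (m : ℝ)) * nQ (hm d p m)) := by
      intro m
      by_cases hm0 : m = 0
      · subst hm0; simp; have := hn 0; positivity
      · rw [critB_FT h0, if_neg hm0, add_zero, abs_mul, abs_of_pos h2dp0]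
        have h3 := hFTle m 0
        have h4 := hn m
        have h5 : (0:ℝ) ≤ m := Nat.cast_nonneg m
        have h6 : 2 * d * p * |FT (hm d p m) 0| ≤ 8 / 7 * nQ (hm d p m) :=
          mul_le_mul h2dp h3 (abs_nonneg _) (by norm_num)
        nlinarith [mul_le_mul_of_nonneg_left h6 h5]
    have hs3 : Summable fun m : ℕ => (m : ℝ) * |2 * d * p * FT (gm d p m) 0| :=
      Summable.of_nonneg_of_le (fun m => by positivity) hle (hs.mul_left _)
    calc ∑' m : ℕ, (m : ℝ) * |2 * d * p * FT (gm d p m) 0|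
        ≤ ∑' m : ℕ, 8 / 7 * ((1 + (m : ℝ)) * nQ (hm d p m)) := hs3.tsum_le_tsum hle (hs.mul_left _)
      _ = 8 / 7 * ∑' m : ℕ, ((1 + (m : ℝ)) * nQ (hm d p m)) := tsum_mul_left
      _ ≤ 8 / 7 * η := by gcongr; exact h.bound
      _ < 1 := by linarith
  · intro k m
    have hD := (hDh d k h.hd).1
    have e : p * (2 * d * Dh k) * FT (gm d p m) k = (2 * d * p) * (Dh k * FT (gm d p m) k) := by ring
    rw [e, abs_mul, abs_of_pos h2dp0, abs_mul]
    have h1 : |FT (gm d p m) k| ≤ nQ (hm d p m) + if m = 0 then 1 else 0 := by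
      rw [critB_FT h0]
      refine (abs_add_le _ _).trans (add_le_add (hFTle m k) ?_)
      split_ifs <;> simp
    have h2 : |Dh k| * |FT (gm d p m) k| ≤ nQ (hm d p m) + if m = 0 then 1 else 0 := by
      refine le_trans (mul_le_of_le_one_left (abs_nonneg _) hD) h1
    have h3 : 0 ≤ |Dh k| * |FT (gm d p m) k| := by positivity
    nlinarith

end Pool.LE
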