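import Pool.Agent.Helper84.LE.M_CritB
import Pool.Agent.Helper69.LE.REN

set_option autoImplicit false
open scoped BigOperators Topology
open Filter

namespace Pool.LE

theorem critL_Dh0 {d : ℕ} (hd : 1 ≤ d) : Dh (0 : Fin d → ℝ) = 1 := by
  have : (d : ℝ) ≠ 0 := by positivity
  simp [Dh, this]

theorem critL_Dh_cont {d : ℕ} : Continuous (fun k : Fin d → ℝ => Dh k) := by
  unfold Dh
  fun_prop

theorem critL_kappa {d : ℕ} (k : Fin d → ℝ) :
    Tendsto (fun n : ℕ => fun i => k i / Real.sqrt n) atTop (𝓝 (0 : Fin d → ℝ)) := by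
  rw [tendsto_pi_nhds]
  intro i
  have h1 : Tendsto (fun n : ℕ => Real.sqrt (n : ℝ)) atTop atTop :=
    Real.tendsto_sqrt_atTop.comp tendsto_natCast_atTop_atTop
  exact h1.const_div_atTop (k i)

theorem hCritLim (hFR : StFourRen) (hB : StCritBasic) (hS : StCritSec) (h0 : StTn0) (hb : StFTb) :
    StCritLim := by
  intro d p η h k
  obtain ⟨hv, hmu, hg, hrho, hbd⟩ := hB d p η h
  have hd1 := h.hd
  have hn : ∀ m, 0 ≤ nQ (hm d p m) := fun m => critB_nQ_nonneg _
  have hD0 := critL_Dh0 hd1
  have hκ := critL_kappa k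
  have hcont : ∀ m, Continuous (FT (gm d p m)) := by
    intro m
    have : FT (gm d p m) = fun k => FT (hm d p m) k + if m = 0 then 1 else 0 := by
      funext k; exact critB_FT h0 d p m k
    rw [this]
    exact ((hb d _ (h.summ m) 0).2.2.2.2.2.2.1).add continuous_const
  have hFTle : ∀ m k, |FT (gm d p m) k| ≤ nQ (hm d p m) + if m = 0 then 1 else 0 := fun m k => by
    rw [critB_FT h0]
    refine (abs_add_le _ _).trans (add_le_add (hb d _ (h.summ m) k).2.2.2.1 ?_)
    split_ifs <;> simp
  have hsone : ∀ c : ℕ → ℝ, Summable fun m : ℕ => c m * (if m = 0 then 1 else 0 : ℝ) := fun c =>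
    summable_of_ne_finset_zero (s := {0}) (fun m hm => by simp at hm; simp [hm])
  have hs0 : Summable fun m : ℕ => nQ (hm d p m) :=
    Summable.of_nonneg_of_le hn (fun m => by
      have := hn m
      nlinarith [mul_nonneg (Nat.cast_nonneg (α := ℝ) m) this]) h.summ'
  set a : ℕ → ℕ → ℝ := fun n m => if m = 0 then 0 else
    p * (2 * d * Dh (fun i => k i / Real.sqrt n)) * FT (gm d p (m - 1)) (fun i => k i / Real.sqrt n) with ha
  set al : ℕ → ℝ := fun m => if m = 0 then 0 else p * (2 * d * Dh (0 : Fin d → ℝ)) * FT (gm d p (m - 1)) 0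
    with hal
  set F : ℕ → ℝ := fun m => if m = 0 then 0 else
    2 * (nQ (hm d p (m - 1)) + if m - 1 = 0 then 1 else 0) with hF
  have hal1 : ∀ m, al (m + 1) = 2 * d * p * FT (gm d p m) 0 := by
    intro m
    simp only [hal, Nat.succ_ne_zero, if_false, Nat.add_sub_cancel, hD0]
    ring
  have ha1 : ∀ n m, a n (m + 1) = p * (2 * d * Dh (fun i => k i / Real.sqrt n)) *
      FT (gm d p m) (fun i => k i / Real.sqrt n) := by
    intro n m
    simp only [ha, Nat.succ_ne_zero, if_false, Nat.add_sub_cancel]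
  have hFsum : Summable fun m : ℕ => (m : ℝ) * F m := by
    rw [← summable_nat_add_iff 1]
    have e : (fun m : ℕ => ((m + 1 : ℕ) : ℝ) * F (m + 1)) = fun m : ℕ =>
        2 * ((1 + (m : ℝ)) * nQ (hm d p m)) + (2 * ((m : ℝ) + 1)) * (if m = 0 then 1 else 0) := by
      funext m
      simp only [hF, Nat.succ_ne_zero, if_false, Nat.add_sub_cancel]
      push_cast
      ring
    rw [e]
    exact (h.summ'.mul_left 2).add (hsone _)
  have hmual : ∑' m : ℕ, (m : ℝ) * al m = muD d p := by
    have hs : Summable fun m : ℕ => (m : ℝ) * al m := by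
      refine Summable.of_norm_bounded hFsum fun m => ?_
      rcases Nat.eq_zero_or_pos m with rfl | hm
      · simp
      · obtain ⟨m, rfl⟩ : ∃ j, m = j + 1 := ⟨m - 1, by omega⟩
        rw [Real.norm_eq_abs, abs_mul, abs_of_nonneg (Nat.cast_nonneg (α := ℝ) (m + 1))]
        refine mul_le_mul_of_nonneg_left ?_ (Nat.cast_nonneg _)
        have := hbd 0 m
        simp only [hal, hF, Nat.succ_ne_zero, if_false, Nat.add_sub_cancel]
        exact this
    rw [hs.tsum_eq_zero_add]
    unfold muD
    simp only [Nat.cast_zero, zero_mul, zero_add]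
    refine tsum_congr fun m => ?_
    rw [hal1]
    push_cast
    ring
  have key := Pool.Agent.Helper69.LE.renewal_main a al F (fun n j => FT (gm d p j) (fun i => k i / Real.sqrt n))
    (fun j => FT (gm d p j) 0) (fun m => nQ (hm d p m) + if m = 0 then 1 else 0)
    (fun n j => FT (tn d p j) (fun i => k i / Real.sqrt n)) ((∑ i, k i ^ 2) / (2 * d) * vD d p)
    (by have : 0 ≤ ∑ i, k i ^ 2 := Finset.sum_nonneg fun i _ => sq_nonneg _
        positivity)
    (fun n m => by
      rcases Nat.eq_zero_or_pos m with rfl | hm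
      · simp [ha, hF]
      · obtain ⟨m, rfl⟩ : ∃ j, m = j + 1 := ⟨m - 1, by omega⟩
        rw [ha1]
        have := hbd (fun i => k i / Real.sqrt n) m
        simpa only [hF, Nat.succ_ne_zero, if_false, Nat.add_sub_cancel] using this)
    (fun m => by
      rcases Nat.eq_zero_or_pos m with rfl | hm
      · simp [hal, hF]
      · obtain ⟨m, rfl⟩ : ∃ j, m = j + 1 := ⟨m - 1, by omega⟩
        have := hbd 0 m
        simpa only [hal, hF, Nat.succ_ne_zero, if_false, Nat.add_sub_cancel] using this)
    hFsum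
    (fun m => by
      rcases Nat.eq_zero_or_pos m with rfl | hm
      · simp [ha, hal]
      · obtain ⟨m, rfl⟩ : ∃ j, m = j + 1 := ⟨m - 1, by omega⟩
        simp only [ha, hal, Nat.succ_ne_zero, if_false, Nat.add_sub_cancel]
        have h1 := (critL_Dh_cont (d := d)).tendsto 0 |>.comp hκ
        have h2 := (hcont m).tendsto 0 |>.comp hκ
        exact ((h1.const_mul (2 * (d : ℝ))).const_mul p).mul h2)
    (by
      simp only [hal1]
      rw [tsum_mul_left]
      exact h.crit)
    (by simp only [hal1]; exact hrho)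
    (by simp only [ha1]; exact hS d p η h k)
    (fun n m => hFTle m _)
    (hs0.add (by simpa using hsone (fun _ => 1)))
    (fun m => (hcont m).tendsto 0 |>.comp hκ)
    (fun n j => by
      simp only [ha1]
      exact hFR d p j _)
  have h2 := key.2
  rw [hmual] at h2
  refine h2.congr' (Eventually.of_forall fun n => rfl) |>.trans ?_
  rw [neg_div]

end Pool.LE
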