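import Pool.Agent.Helper84.LE.M_CritL

set_option autoImplicit false
open scoped BigOperators Topology
open Filter

namespace Pool.LE

theorem critS_bd (n : ℕ) (t : ℝ) : (n : ℝ) * (1 - Real.cos (t / Real.sqrt n)) ≤ t ^ 2 / 2 := by
  rcases Nat.eq_zero_or_pos n with rfl | hn
  · simp; positivity
  · have hn0 : (0 : ℝ) < n := by exact_mod_cast hn
    have hs : Real.sqrt n ^ 2 = n := Real.sq_sqrt hn0.le
    have h2 : 1 - (t / Real.sqrt n) ^ 2 / 2 ≤ Real.cos (t / Real.sqrt n) := Real.one_sub_sq_div_two_le_cos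
    have hy2 : (t / Real.sqrt n) ^ 2 = t ^ 2 / n := by rw [div_pow, hs]
    rw [hy2] at h2
    calc (n : ℝ) * (1 - Real.cos (t / Real.sqrt n)) ≤ n * (t ^ 2 / n / 2) := by
          gcongr; linarith
      _ = t ^ 2 / 2 := by field_simp

theorem critS_nonneg (n : ℕ) (t : ℝ) : 0 ≤ (n : ℝ) * (1 - Real.cos (t / Real.sqrt n)) :=
  mul_nonneg (Nat.cast_nonneg _) (by linarith [Real.cos_le_one (t / Real.sqrt n)])

theorem critS_cos (t : ℝ) : Tendsto (fun n : ℕ => (n : ℝ) * (1 - Real.cos (t / Real.sqrt n))) atTop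
    (𝓝 (t ^ 2 / 2)) := by
  have h1 : Tendsto (fun n : ℕ => t ^ 4 / (n : ℝ)) atTop (𝓝 0) := tendsto_const_div_atTop_nhds_zero_nat _
  have hy : Tendsto (fun n : ℕ => t / Real.sqrt (n : ℝ)) atTop (𝓝 0) :=
    (Real.tendsto_sqrt_atTop.comp tendsto_natCast_atTop_atTop).const_div_atTop t
  have hy1 : ∀ᶠ n : ℕ in atTop, |t / Real.sqrt (n : ℝ)| ≤ 1 := by
    have := hy.eventually (Metric.closedBall_mem_nhds (0 : ℝ) one_pos)
    filter_upwards [this] with n hn
    rwa [dist_zero_right, Real.norm_eq_abs] at hn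
  rw [tendsto_iff_norm_sub_tendsto_zero]
  refine squeeze_zero' (Eventually.of_forall fun n => norm_nonneg _) ?_ h1
  filter_upwards [hy1, eventually_ge_atTop 1] with n hn1 hn
  have hn0 : (0 : ℝ) < n := by exact_mod_cast hn
  have hs : Real.sqrt n ^ 2 = n := Real.sq_sqrt hn0.le
  set y := t / Real.sqrt n with hyd
  have hy2 : y ^ 2 = t ^ 2 / n := by rw [hyd, div_pow, hs]
  have hb := Real.cos_bound hn1
  have e : (n : ℝ) * (1 - Real.cos y) - t ^ 2 / 2 = -(n : ℝ) * (Real.cos y - (1 - y ^ 2 / 2)) := by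
    rw [hy2]; field_simp; ring
  rw [Real.norm_eq_abs, e, abs_mul, abs_neg, abs_of_pos hn0]
  have h4 : |y| ^ 4 = t ^ 4 / n ^ 2 := by
    have : |y| ^ 4 = (y ^ 2) ^ 2 := by rw [← sq_abs y]; ring
    rw [this, hy2, div_pow]; ring
  calc (n : ℝ) * |Real.cos y - (1 - y ^ 2 / 2)| ≤ n * (|y| ^ 4 * (5 / 96)) := by gcongr
    _ = t ^ 4 / n * (5 / 96) := by rw [h4]; field_simp
    _ ≤ t ^ 4 / n := by
      have : 0 ≤ t ^ 4 / n := by positivity
      linarith

theorem critS_dot {d : ℕ} (k : Fin d → ℝ) (n : ℕ) (x : Zd d) :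
    ∑ i, (k i / Real.sqrt n) * x i = (∑ i, k i * x i) / Real.sqrt n := by
  rw [Finset.sum_div]
  exact Finset.sum_congr rfl fun i _ => by ring

/-- second order expansion of the transform of a symmetric function -/
theorem critS_FT (hI : StIso) (hb : StFTb) {d : ℕ} (hd : 0 < d) {f : Zd d → ℝ} (hf : SumQ f)
    (hsy : SymF f) (k : Fin d → ℝ) :
    Tendsto (fun n : ℕ => (n : ℝ) * (FT f 0 - FT f (fun i => k i / Real.sqrt n))) atTop
      (𝓝 ((∑ i, k i ^ 2) / (2 * d) * MT f 0)) := by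
  obtain ⟨hsum, hiso⟩ := hI d f hd hf hsy k
  have hs0 := (hb d f hf 0).1
  have hd0 : (d : ℝ) ≠ 0 := by exact_mod_cast hd.ne'
  have e : ∀ n : ℕ, (n : ℝ) * (FT f 0 - FT f (fun i => k i / Real.sqrt n)) =
      ∑' x : Zd d, f x * ((n : ℝ) * (1 - Real.cos ((∑ i, k i * x i) / Real.sqrt n))) := by
    intro n
    have hsn : Summable fun x : Zd d => f x * Real.cos (∑ i, (k i / Real.sqrt n) * x i) := by
      refine Summable.of_norm_bounded hs0.abs fun x => ?_
      rw [Real.norm_eq_abs, abs_mul]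
      exact mul_le_of_le_one_right (abs_nonneg _) (Real.abs_cos_le_one _)
    have hsz : Summable fun x : Zd d => f x * Real.cos (∑ i, (0 : Fin d → ℝ) i * x i) := by
      simpa using hs0
    unfold FT
    rw [← hsz.tsum_sub hsn, ← tsum_mul_left]
    refine tsum_congr fun x => ?_
    rw [critS_dot]
    simp
    ring
  simp only [e]
  have hM : MT f 0 = ∑' x, sq x * f x := by simp [MT]
  have hlim : (∑ i, k i ^ 2) / (2 * d) * MT f 0 = ∑' x : Zd d, f x * ((∑ i, k i * x i) ^ 2 / 2) := by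
    have : (fun x : Zd d => f x * ((∑ i, k i * x i) ^ 2 / 2)) =
        fun x : Zd d => (f x * (∑ i, k i * x i) ^ 2) / 2 := by funext x; ring
    rw [this, tsum_div_const, hiso, hM]
    field_simp
  rw [hlim]
  refine tendsto_tsum_of_dominated_convergence (bound := fun x => |f x * (∑ i, k i * x i) ^ 2|) hsum.abs
    (fun x => (critS_cos _).const_mul _) (Eventually.of_forall fun n x => ?_)
  rw [Real.norm_eq_abs, abs_mul, abs_mul (f x), abs_of_nonneg (critS_nonneg n _)]
  refine mul_le_mul_of_nonneg_left ((critS_bd n _).trans ?_) (abs_nonneg _)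
  rw [abs_of_nonneg (sq_nonneg _)]
  nlinarith [sq_nonneg (∑ i, k i * (x i : ℝ))]

/-- a sign flip of everything is a signed permutation -/
theorem critS_sym_delta {d : ℕ} (σ : Equiv.Perm (Fin d)) (s : Fin d → ℤˣ) (x : Zd d) :
    sgp σ s x = 0 ↔ x = 0 := by
  constructor
  · intro h
    funext i
    have := congrFun h (σ.symm i)
    simp only [sgp, Equiv.apply_symm_apply, Pi.zero_apply] at this
    rcases mul_eq_zero.1 this with h1 | h1
    · exact absurd h1 (Units.ne_zero _)
    · exact h1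
  · rintro rfl
    funext i
    simp [sgp]

theorem critS_symh (hSG : StSymG) (d : ℕ) (p : ℝ) (m : ℕ) : SymF (hm d p m) := by
  intro σ s x
  unfold hm
  rw [hSG d p m σ s x]
  simp only [critS_sym_delta]

theorem critS_Dh {d : ℕ} (hd : 0 < d) (k : Fin d → ℝ) (n : ℕ) :
    (n : ℝ) * (1 - Dh (fun i => k i / Real.sqrt n)) =
      (∑ i, (n : ℝ) * (1 - Real.cos (k i / Real.sqrt n))) / d := by
  have hd0 : (d : ℝ) ≠ 0 := by exact_mod_cast hd.ne'
  unfold Dh
  rw [← Finset.mul_sum, Finset.sum_sub_distrib]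
  simp
  field_simp

theorem hCritSec (hSG : StSymG) (hI : StIso) (hSec : StSec) (h0 : StTn0) (hb : StFTb) (hDh : StDh) :
    StCritSec := by
  intro d p η h k
  have hd1 := h.hd
  have hd0 : (0 : ℝ) < d := by exact_mod_cast hd1
  have hn : ∀ m, 0 ≤ nQ (hm d p m) := fun m => critB_nQ_nonneg _
  have hD0 := critL_Dh0 hd1
  have hκ := critL_kappa k
  have hs0 : Summable fun m : ℕ => nQ (hm d p m) :=
    Summable.of_nonneg_of_le hn (fun m => by
      have := hn m
      nlinarith [mul_nonneg (Nat.cast_nonneg (α := ℝ) m) this]) h.summ'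
  have hsone : Summable fun m : ℕ => (if m = 0 then 1 else 0 : ℝ) :=
    summable_of_ne_finset_zero (s := {0}) (fun m hm => by simp at hm; simp [hm])
  have hFTle : ∀ m k, |FT (gm d p m) k| ≤ nQ (hm d p m) + if m = 0 then 1 else 0 := fun m k => by
    rw [critB_FT h0]
    refine (abs_add_le _ _).trans (add_le_add (hb d _ (h.summ m) k).2.2.2.1 ?_)
    split_ifs <;> simp
  have hsF : ∀ k, Summable fun m : ℕ => FT (gm d p m) k := fun k =>
    Summable.of_norm_bounded (hs0.add hsone) fun m => by rw [Real.norm_eq_abs]; exact hFTle m k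
  have hMTle : ∀ m k, |MT (gm d p m) k| ≤ nQ (hm d p m) := fun m k => by
    rw [critB_MT h0]; exact (hb d _ (h.summ m) k).2.2.2.2.1
  have hsM : Summable fun m : ℕ => MT (gm d p m) 0 :=
    Summable.of_norm_bounded hs0 fun m => by rw [Real.norm_eq_abs]; exact hMTle m 0
  -- the limit as a series
  have hlimeq : (∑ i, k i ^ 2) / (2 * d) * vD d p = ∑' m : ℕ,
      (2 * d * p) * ((∑ i, k i ^ 2) / (2 * d) * FT (gm d p m) 0 +
        (∑ i, k i ^ 2) / (2 * d) * MT (gm d p m) 0) := by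
    rw [tsum_mul_left, ((hsF 0).mul_left _).tsum_add (hsM.mul_left _), tsum_mul_left, tsum_mul_left]
    unfold vD
    ring
  -- the terms
  have hterm : ∀ n : ℕ, (n : ℝ) * (1 - ∑' m : ℕ,
      p * (2 * d * Dh (fun i => k i / Real.sqrt n)) * FT (gm d p m) (fun i => k i / Real.sqrt n)) =
      ∑' m : ℕ, (2 * d * p) * ((n : ℝ) * (1 - Dh (fun i => k i / Real.sqrt n)) * FT (gm d p m) 0 +
        Dh (fun i => k i / Real.sqrt n) *
          ((n : ℝ) * (FT (gm d p m) 0 - FT (gm d p m) (fun i => k i / Real.sqrt n)))) := by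
    intro n
    have h1 : (1 : ℝ) = ∑' m : ℕ, (2 * d * p) * FT (gm d p m) 0 := by
      rw [tsum_mul_left]; exact h.crit.symm
    have hs1 : Summable fun m : ℕ => p * (2 * d * Dh (fun i => k i / Real.sqrt n)) *
        FT (gm d p m) (fun i => k i / Real.sqrt n) := (hsF _).mul_left _
    have hs2 : Summable fun m : ℕ => (2 * d * p) * FT (gm d p m) 0 := (hsF 0).mul_left _
    calc (n : ℝ) * (1 - ∑' m : ℕ,
      p * (2 * d * Dh (fun i => k i / Real.sqrt n)) * FT (gm d p m) (fun i => k i / Real.sqrt n))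
        = (n : ℝ) * (∑' m : ℕ, (2 * d * p) * FT (gm d p m) 0 - ∑' m : ℕ,
      p * (2 * d * Dh (fun i => k i / Real.sqrt n)) * FT (gm d p m) (fun i => k i / Real.sqrt n)) := by
          rw [← h1]
      _ = _ := by
          rw [← hs2.tsum_sub hs1, ← tsum_mul_left]
          refine tsum_congr fun m => ?_
          ring
  simp only [hterm]
  rw [hlimeq]
  have hsy := fun m => critS_symh hSG d p m
  have hgsub : ∀ m κ, FT (gm d p m) 0 - FT (gm d p m) κ = FT (hm d p m) 0 - FT (hm d p m) κ := by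
    intro m κ; rw [critB_FT h0, critB_FT h0]; ring
  have hDlim : Tendsto (fun n : ℕ => (n : ℝ) * (1 - Dh (fun i => k i / Real.sqrt n))) atTop
      (𝓝 ((∑ i, k i ^ 2) / (2 * d))) := by
    simp only [critS_Dh hd1]
    have h2 : (∑ i, k i ^ 2) / (2 * d) = (∑ i, k i ^ 2 / 2) / d := by
      rw [← Finset.sum_div]; field_simp
    rw [h2]
    exact (tendsto_finsetSum _ fun i _ => critS_cos (k i)).div_const _
  have hDbd : ∀ n : ℕ, |(n : ℝ) * (1 - Dh (fun i => k i / Real.sqrt n))| ≤ (∑ i, k i ^ 2) / d := by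
    intro n
    rw [critS_Dh hd1, abs_of_nonneg (div_nonneg (Finset.sum_nonneg fun i _ => critS_nonneg n _) hd0.le)]
    gcongr with i
    exact (critS_bd n _).trans (by nlinarith [sq_nonneg (k i)])
  have hDlim0 : Tendsto (fun n : ℕ => Dh (fun i => k i / Real.sqrt n)) atTop (𝓝 1) := by
    rw [← hD0]
    exact (critL_Dh_cont (d := d)).tendsto 0 |>.comp hκ
  have hpi : ∀ᶠ n : ℕ in atTop, ∀ i, |k i / Real.sqrt (n : ℝ)| ≤ Real.pi := by
    rw [eventually_all]
    intro i
    have := (tendsto_pi_nhds.1 hκ i).eventually (Metric.closedBall_mem_nhds (0 : ℝ) Real.pi_pos)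
    filter_upwards [this] with n hn
    rwa [dist_zero_right, Real.norm_eq_abs] at hn
  have h2dp0 : 0 < 2 * d * p := by have := h.hp0; positivity
  set S : ℝ := (∑ i, k i ^ 2) / d with hS
  have hS0 : 0 ≤ S := div_nonneg (Finset.sum_nonneg fun i _ => sq_nonneg _) hd0.le
  refine tendsto_tsum_of_dominated_convergence (bound := fun m : ℕ =>
    (2 * d * p) * (S * (nQ (hm d p m) + if m = 0 then 1 else 0) + S * (3 * nQ (hm d p m)))) ?_ ?_ ?_
  · exact (((hs0.add hsone).mul_left S).add ((hs0.mul_left 3).mul_left S)).mul_left _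
  · intro m
    have h1 : Tendsto (fun n : ℕ => (n : ℝ) * (FT (gm d p m) 0 -
        FT (gm d p m) (fun i => k i / Real.sqrt n))) atTop (𝓝 ((∑ i, k i ^ 2) / (2 * d) * MT (gm d p m) 0)) := by
      simp only [hgsub]
      rw [critB_MT h0]
      exact critS_FT hI hb hd1 (h.summ m) (hsy m) k
    have h2 := (((hDlim.mul_const (FT (gm d p m) 0)).add (hDlim0.mul h1)).const_mul (2 * d * p))
    rw [one_mul] at h2
    exact h2
  · filter_upwards [hpi] with n hnpi m
    rw [Real.norm_eq_abs, abs_mul, abs_of_pos h2dp0]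
    refine mul_le_mul_of_nonneg_left ?_ h2dp0.le
    refine (abs_add_le _ _).trans (add_le_add ?_ ?_)
    · rw [abs_mul]
      exact mul_le_mul (hDbd n) (hFTle m 0) (abs_nonneg _) hS0
    · rw [abs_mul, hgsub]
      have h1 := (hDh d (fun i => k i / Real.sqrt n) hd1).1
      have h2 := (hSec d (hm d p m) hd1 (h.summ m) (hsy m) (fun i => k i / Real.sqrt n) hnpi).1
      have h3 : |(n : ℝ) * (FT (hm d p m) 0 - FT (hm d p m) (fun i => k i / Real.sqrt n))| ≤
          S * (3 * nQ (hm d p m)) := by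
        rw [abs_mul, abs_of_nonneg (Nat.cast_nonneg (α := ℝ) n)]
        calc (n : ℝ) * |FT (hm d p m) 0 - FT (hm d p m) (fun i => k i / Real.sqrt n)|
            ≤ n * (3 * nQ (hm d p m) * (1 - Dh (fun i => k i / Real.sqrt n))) := by gcongr
          _ = ((n : ℝ) * (1 - Dh (fun i => k i / Real.sqrt n))) * (3 * nQ (hm d p m)) := by ring
          _ ≤ S * (3 * nQ (hm d p m)) := by
            have := hn m
            gcongr
            exact (le_abs_self _).trans (hDbd n)
      calc |Dh (fun i => k i / Real.sqrt n)| *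
          |(n : ℝ) * (FT (hm d p m) 0 - FT (hm d p m) (fun i => k i / Real.sqrt n))| ≤
            1 * (S * (3 * nQ (hm d p m))) := mul_le_mul h1 h3 (abs_nonneg _) zero_le_one
        _ = _ := one_mul _

end Pool.LE
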