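import Pool.Agent.Helper84.LE.M_CvFT

/-! Module Cv: convolution with the weight `Qw` (plan section 7). -/

set_option autoImplicit false
open scoped BigOperators

namespace Pool.LE

namespace CvAux

open CvFTaux

variable {d : ℕ}

theorem summable_K {f g : Zd d → ℝ} (hf : SumQ f) (hg : SumQ g) :
    Summable (fun q : Zd d × Zd d => (Qw q.2 * |f q.2|) * (Qw (q.1 - q.2) * |g (q.1 - q.2)|)) ∧
    ∑' q : Zd d × Zd d, (Qw q.2 * |f q.2|) * (Qw (q.1 - q.2) * |g (q.1 - q.2)|) = nQ f * nQ g := by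
  have hQ1 : Summable fun x : Zd d => ‖Qw x * |f x|‖ := by
    refine hf.congr ?_
    intro x
    rw [Real.norm_eq_abs, abs_of_nonneg (mul_nonneg (Qw_pos x).le (abs_nonneg _))]
  have hQ2 : Summable fun x : Zd d => ‖Qw x * |g x|‖ := by
    refine hg.congr ?_
    intro x
    rw [Real.norm_eq_abs, abs_of_nonneg (mul_nonneg (Qw_pos x).le (abs_nonneg _))]
  have hQ : Summable (fun p : Zd d × Zd d => (Qw p.1 * |f p.1|) * (Qw p.2 * |g p.2|)) :=
    summable_mul_of_summable_norm hQ1 hQ2
  let e : Zd d × Zd d ≃ Zd d × Zd d :=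
    { toFun := fun p => (p.2, p.1 - p.2)
      invFun := fun p => (p.1 + p.2, p.1)
      left_inv := by
        rintro ⟨x, y⟩
        simp
      right_inv := by
        rintro ⟨x, y⟩
        simp }
  have h1 := (e.summable_iff (f := fun p : Zd d × Zd d => (Qw p.1 * |f p.1|) * (Qw p.2 * |g p.2|))).2 hQ
  refine ⟨h1, ?_⟩
  rw [show (∑' q : Zd d × Zd d, (Qw q.2 * |f q.2|) * (Qw (q.1 - q.2) * |g (q.1 - q.2)|)) =
    ∑' p : Zd d × Zd d, (Qw p.1 * |f p.1|) * (Qw p.2 * |g p.2|) from
      e.tsum_eq (fun p : Zd d × Zd d => (Qw p.1 * |f p.1|) * (Qw p.2 * |g p.2|))]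
  exact (tsum_mul_tsum_of_summable_norm hQ1 hQ2).symm

theorem summable_inner {f g : Zd d → ℝ} (hf : SumQ f) (hg : SumQ g) (x : Zd d) :
    Summable (fun y => f y * g (x - y)) := by
  refine Summable.of_norm_bounded ((summable_K hf hg).1.prod_factor x) fun y => ?_
  rw [Real.norm_eq_abs, abs_mul]
  have h1 : 1 ≤ Qw y := by unfold Qw; linarith [sq_nonneg' y]
  have h2 : 1 ≤ Qw (x - y) := by unfold Qw; linarith [sq_nonneg' (x - y)]
  exact mul_le_mul (le_mul_of_one_le_left (abs_nonneg _) h1) (le_mul_of_one_le_left (abs_nonneg _) h2)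
    (abs_nonneg _) (by positivity)

theorem cv_bound {f g : Zd d → ℝ} (hf : SumQ f) (hg : SumQ g) (x : Zd d) :
    Qw x * |cv f g x| ≤ ∑' y, (Qw y * |f y|) * (Qw (x - y) * |g (x - y)|) := by
  have hK := (summable_K hf hg).1.prod_factor x
  have hs := summable_inner hf hg x
  unfold cv
  have h1 : |∑' y, f y * g (x - y)| ≤ ∑' y, |f y * g (x - y)| := by
    have := norm_tsum_le_tsum_norm hs.norm
    simpa [Real.norm_eq_abs] using this
  calc Qw x * |∑' y, f y * g (x - y)| ≤ Qw x * ∑' y, |f y * g (x - y)| :=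
        mul_le_mul_of_nonneg_left h1 (Qw_pos x).le
    _ = ∑' y, Qw x * |f y * g (x - y)| := tsum_mul_left.symm
    _ ≤ ∑' y, (Qw y * |f y|) * (Qw (x - y) * |g (x - y)|) := by
        refine (hs.abs.mul_left _).tsum_le_tsum (fun y => ?_) hK
        rw [abs_mul]
        have h2 : Qw x ≤ Qw y * Qw (x - y) := by
          have := Qw_add_le y (x - y)
          rwa [add_sub_cancel] at this
        calc Qw x * (|f y| * |g (x - y)|) ≤ (Qw y * Qw (x - y)) * (|f y| * |g (x - y)|) := by gcongr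
          _ = _ := by ring

/-- negation is an additive bijection -/
theorem cv_reindex {f g : Zd d → ℝ} (e : Zd d ≃ Zd d) (he : ∀ x y, e (x - y) = e x - e y)
    (hf : ∀ x, f (e x) = f x) (hg : ∀ x, g (e x) = g x) (x : Zd d) : cv f g (e x) = cv f g x := by
  unfold cv
  rw [← e.tsum_eq (fun y => f y * g (e x - y))]
  refine tsum_congr fun y => ?_
  rw [← he, hf, hg]

/-- signed permutations are bijections -/
def sgpE {d : ℕ} (σ : Equiv.Perm (Fin d)) (s : Fin d → ℤˣ) : Zd d ≃ Zd d where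
  toFun := sgp σ s
  invFun := fun x i => ((s (σ.symm i))⁻¹ : ℤˣ) * x (σ.symm i)
  left_inv := by
    intro x
    funext i
    simp only [sgp, Equiv.apply_symm_apply]
    rw [← mul_assoc, ← Units.val_mul]
    simp
  right_inv := by
    intro x
    funext i
    simp only [sgp, Equiv.symm_apply_apply]
    rw [← mul_assoc, ← Units.val_mul]
    simp

end CvAux

open CvAux in
theorem hCv (_hQ : StQw) : StCv := by
  intro d f g hf hg
  obtain ⟨hK, hKs⟩ := summable_K hf hg
  have hSum : SumQ (cv f g) :=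
    Summable.of_nonneg_of_le (fun x => mul_nonneg (CvFTaux.Qw_pos x).le (abs_nonneg _))
      (cv_bound hf hg) hK.prod
  refine ⟨hSum, ?_, ?_, ?_, ?_⟩
  · rw [← hKs, hK.tsum_prod]
    exact hSum.tsum_le_tsum (cv_bound hf hg) hK.prod
  · intro h1 h2 x
    exact cv_reindex (Equiv.neg (Zd d)) (fun x y => by simp [Equiv.neg_apply]; abel) (fun x => h1 x)
      (fun x => h2 x) x
  · intro h1 h2 σ s x
    exact cv_reindex (sgpE σ s) (fun x y => by
      funext i
      simp only [sgpE, Equiv.coe_fn_mk, sgp, Pi.sub_apply]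
      ring) (fun x => h1 σ s x) (fun x => h2 σ s x) x
  · funext x
    unfold cv
    rw [← (Equiv.subLeft x).tsum_eq (fun y => g y * f (x - y))]
    refine tsum_congr fun y => ?_
    simp only [Equiv.subLeft_apply, sub_sub_cancel]
    ring

end Pool.LE
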