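import Pool.Agent.Helper84.LE.St5

/-! LE module CvA: the sums over `m`. -/

set_option autoImplicit false
open scoped BigOperators

namespace Pool.LE

theorem cva_Qw {d : ℕ} (x : Zd d) : 2 ≤ Qw x := by
  unfold Qw
  have : 0 ≤ sq x := Finset.sum_nonneg fun i _ => sq_nonneg _
  linarith

theorem cva_sgp_zero_iff {d : ℕ} (σ : Equiv.Perm (Fin d)) (s : Fin d → ℤˣ) (x : Zd d) :
    sgp σ s x = 0 ↔ x = 0 := by
  constructor
  · intro h
    funext i
    have h1 := congrFun h (σ.symm i)
    simp only [sgp, Equiv.apply_symm_apply, Pi.zero_apply] at h1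
    rcases Int.units_eq_one_or (s (σ.symm i)) with h2 | h2
    · rw [h2] at h1; simpa using h1
    · rw [h2] at h1; simpa using h1
  · rintro rfl
    funext i; simp [sgp]

theorem hCvA (hSymG : StSymG) (hTb : StFTb) : StCvA := by
  classical
  intro d p he
  -- rearranged majorant
  have hone : ∀ m : ℕ, (1 : ENNReal) ≤ 1 + (m : ENNReal) := fun m => le_self_add
  have hdouble : ∑' x : Zd d, ENNReal.ofReal (Qw x) * ∑' m : ℕ, ENNReal.ofReal |hm d p m x| ≤
      eta d p := by
    unfold eta
    rw [ENNReal.tsum_comm]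
    refine ENNReal.tsum_le_tsum fun x => ?_
    rw [← ENNReal.tsum_mul_left]
    refine ENNReal.tsum_le_tsum fun m => ?_
    calc ENNReal.ofReal (Qw x) * ENNReal.ofReal |hm d p m x|
        = 1 * (ENNReal.ofReal (Qw x) * ENNReal.ofReal |hm d p m x|) := (one_mul _).symm
      _ ≤ (1 + (m : ENNReal)) * (ENNReal.ofReal (Qw x) * ENNReal.ofReal |hm d p m x|) :=
          mul_le_mul_left (hone m) _
      _ = _ := (mul_assoc _ _ _).symm
  have hdt : ∑' x : Zd d, ENNReal.ofReal (Qw x) * ∑' m : ℕ, ENNReal.ofReal |hm d p m x| ≠ ⊤ :=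
    ne_top_of_le_ne_top he hdouble
  have hxt : ∀ x : Zd d, ∑' m : ℕ, ENNReal.ofReal |hm d p m x| ≠ ⊤ := by
    intro x
    refine ne_top_of_le_ne_top hdt ?_
    refine le_trans ?_ (ENNReal.le_tsum x)
    calc ∑' m : ℕ, ENNReal.ofReal |hm d p m x|
        = 1 * ∑' m : ℕ, ENNReal.ofReal |hm d p m x| := (one_mul _).symm
      _ ≤ _ := by
        refine mul_le_mul_left ?_ _
        rw [ENNReal.one_le_ofReal]
        linarith [cva_Qw x]
  have hsabs : ∀ x : Zd d, Summable fun m : ℕ => |hm d p m x| := by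
    intro x
    have := ENNReal.summable_toReal (hxt x)
    refine this.congr fun m => ?_
    rw [ENNReal.toReal_ofReal (abs_nonneg _)]
  have hs : ∀ x : Zd d, Summable fun m : ℕ => hm d p m x := fun x => (hsabs x).of_abs
  have hsi : ∀ x : Zd d, HasSum (fun m : ℕ => if m = 0 ∧ x = 0 then (1 : ℝ) else 0)
      (if x = 0 then 1 else 0) := by
    intro x
    by_cases hx : x = 0
    · simp only [hx, and_true, if_true]
      exact hasSum_ite_eq 0 1
    · simp only [hx, and_false, if_false]
      exact hasSum_zero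
  have hgm : ∀ (m : ℕ) (x : Zd d), gm d p m x = hm d p m x + if m = 0 ∧ x = 0 then 1 else 0 := by
    intro m x
    unfold hm
    ring
  have hsg : ∀ x : Zd d, Summable fun m : ℕ => gm d p m x := by
    intro x
    refine ((hs x).add (hsi x).summable).congr fun m => ?_
    rw [hgm]
  have habs : ∀ x : Zd d, ENNReal.ofReal |hS d p x| ≤ ∑' m : ℕ, ENNReal.ofReal |hm d p m x| := by
    intro x
    rw [← ENNReal.ofReal_tsum_of_nonneg (fun m => abs_nonneg _) (hsabs x)]
    refine ENNReal.ofReal_le_ofReal ?_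
    unfold hS
    have := norm_tsum_le_tsum_norm (f := fun m : ℕ => hm d p m x) (by
      simpa only [Real.norm_eq_abs] using hsabs x)
    simpa only [Real.norm_eq_abs] using this
  have htot : ∑' x : Zd d, ENNReal.ofReal (Qw x * |hS d p x|) ≤ eta d p := by
    refine le_trans (ENNReal.tsum_le_tsum fun x => ?_) hdouble
    rw [ENNReal.ofReal_mul (by linarith [cva_Qw x])]
    exact mul_le_mul_right (habs x) _
  have htott : ∑' x : Zd d, ENNReal.ofReal (Qw x * |hS d p x|) ≠ ⊤ := ne_top_of_le_ne_top he htot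
  have hnn : ∀ x : Zd d, 0 ≤ Qw x * |hS d p x| := fun x =>
    mul_nonneg (by linarith [cva_Qw x]) (abs_nonneg _)
  have hSQ : SumQ (hS d p) := by
    have := ENNReal.summable_toReal htott
    refine this.congr fun x => ?_
    rw [ENNReal.toReal_ofReal (hnn x)]
  have hnQ : nQ (hS d p) ≤ (eta d p).toReal := by
    unfold nQ
    have h1 : ENNReal.ofReal (∑' x : Zd d, Qw x * |hS d p x|) ≤ eta d p := by
      rw [ENNReal.ofReal_tsum_of_nonneg hnn hSQ]
      exact htot
    rwa [ENNReal.ofReal_le_iff_le_toReal he] at h1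
  have hsym : SymF (hS d p) := by
    intro σ s x
    unfold hS
    refine tsum_congr fun m => ?_
    unfold hm
    rw [hSymG d p m σ s x]
    simp only [cva_sgp_zero_iff]
  have hgS : gS d p = dl (hS d p) := by
    funext x
    unfold gS dl hS
    rw [← (hsi x).tsum_eq, ← (hs x).tsum_add (hsi x).summable]
    exact tsum_congr fun m => hgm m x
  have hgQ : SumQ (gS d p) := by
    rw [hgS]
    unfold SumQ
    have h1 : Summable fun x : Zd d => Qw x * |(if x = 0 then (1 : ℝ) else 0)| := by
      refine summable_of_ne_finset_zero (s := {0}) fun x hx => ?_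
      rw [Finset.mem_singleton] at hx
      rw [if_neg hx, abs_zero, mul_zero]
    refine Summable.of_nonneg_of_le (fun x => mul_nonneg (by linarith [cva_Qw x]) (abs_nonneg _))
      (fun x => ?_) (hSQ.add h1)
    unfold dl
    rw [← mul_add]
    exact mul_le_mul_of_nonneg_left (abs_add_le _ _) (by linarith [cva_Qw x])
  refine ⟨hsg, hSQ, hnQ, hsym, hgS, hgQ, ?_⟩
  rw [hgS]
  intro σ s x
  unfold dl
  rw [hsym σ s x]
  simp only [cva_sgp_zero_iff]

end Pool.LE
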