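import Pool.Agent.Helper84.LE.St5

set_option autoImplicit false
open scoped BigOperators Topology
open MeasureTheory Filter

namespace Pool.LE

/-- absolute summability of `gm` over `ℕ × Zd` -/
theorem CvB_gm_summable (d : ℕ) (p : ℝ) (he : eta d p ≠ ⊤) :
    Summable (fun q : ℕ × Zd d => |gm d p q.1 q.2|) := by
  have h1 : Summable (fun q : ℕ × Zd d => |hm d p q.1 q.2|) := by
    have h2 : ∑' q : ℕ × Zd d, ENNReal.ofReal |hm d p q.1 q.2| ≠ ⊤ := by
      have h3 : ∑' q : ℕ × Zd d, ENNReal.ofReal |hm d p q.1 q.2| ≤ eta d p := by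
        unfold eta
        rw [ENNReal.tsum_prod']
        refine ENNReal.tsum_le_tsum fun m => ENNReal.tsum_le_tsum fun x => ?_
        have hQ : (1 : ENNReal) ≤ ENNReal.ofReal (Qw x) := by
          rw [← ENNReal.ofReal_one]
          apply ENNReal.ofReal_le_ofReal
          unfold Qw sq
          have : 0 ≤ ∑ i, ((x i : ℤ) : ℝ) ^ 2 := Finset.sum_nonneg fun i _ => sq_nonneg _
          linarith
        have hm1 : (1 : ENNReal) ≤ 1 + (m : ENNReal) := le_self_add
        calc ENNReal.ofReal |hm d p m x| = 1 * 1 * ENNReal.ofReal |hm d p m x| := by simp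
          _ ≤ _ := by gcongr
      exact ne_top_of_le_ne_top he h3
    have h4 := ENNReal.summable_toReal h2
    refine h4.congr fun q => ?_
    rw [ENNReal.toReal_ofReal (abs_nonneg _)]
  have h5 : Summable (fun q : ℕ × Zd d => if q.1 = 0 ∧ q.2 = 0 then (1 : ℝ) else 0) := by
    apply summable_of_hasFiniteSupport
    refine Set.Finite.subset (Set.finite_singleton ((0 : ℕ), (0 : Zd d))) ?_
    intro q hq
    simp only [Function.mem_support, ne_eq, ite_eq_right_iff, one_ne_zero, imp_false, not_not] at hq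
    exact Prod.ext hq.1 hq.2
  refine Summable.of_nonneg_of_le (fun q => abs_nonneg _) (fun q => ?_) (h1.add h5)
  have h6 : gm d p q.1 q.2 = hm d p q.1 q.2 + if q.1 = 0 ∧ q.2 = 0 then (1 : ℝ) else 0 := by
    unfold hm; ring
  rw [h6]
  refine (abs_add_le _ _).trans ?_
  gcongr
  split_ifs <;> simp

/-- sums over antidiagonals -/
theorem CvB_antidiag (c : ℕ × ℕ → ℝ) (hc : Summable c) :
    HasSum (fun n => ∑ q ∈ Finset.HasAntidiagonal.antidiagonal n, c q) (∑' q, c q) := by
  have h1 := (Finset.HasAntidiagonal.sigmaAntidiagonalEquivProd (A := ℕ)).hasSum_iff.mpr hc.hasSum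
  refine h1.sigma fun n => ?_
  have h2 := hasSum_fintype (fun q : Finset.HasAntidiagonal.antidiagonal n => c q)
  rw [Finset.sum_coe_sort (Finset.HasAntidiagonal.antidiagonal n) c] at h2
  exact h2

theorem hCvB (hTS : StTauSum) (hTB : StTauBasic) (hRenX : StRenX) (hSupp : StSupp) (hBox : StBox)
    (hTN : StTnNonneg) (hCvA : StCvA) : StCvB := by
  intro d p hp0 hp1 he hSQ x
  obtain ⟨hT1, -, -, hTR, hT01⟩ := hTB d p hp0 hp1
  obtain ⟨hgs, -, -, -, -, hSg, -⟩ := hCvA d p he
  obtain ⟨-, -, -, -, hnbT, -, -, -, -, -, -, hcard, -⟩ := hBox d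
  have htn : ∀ n y, 0 ≤ tn d p n y := fun n y => (hTN d p n y hp0 hp1).1
  -- `τ = ∑ t_n`
  have htau : ∀ y, HasSum (fun n => tn d p n y) (tau d p y) := by
    intro y
    have h1 := hTS d p y hp0 hp1
    have h2 : ∑' n : ℕ, ENNReal.ofReal (tn d p n y) ≠ ⊤ := by
      rw [← h1]; exact ne_top_of_le_ne_top ENNReal.one_ne_top (hT1 y)
    have h3 : Summable (fun n => tn d p n y) := by
      refine (ENNReal.summable_toReal h2).congr fun n => ?_
      rw [ENNReal.toReal_ofReal (htn n y)]
    have h4 : tau d p y = ∑' n, tn d p n y := by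
      unfold tau
      rw [h1, ENNReal.tsum_toReal_eq (fun n => ENNReal.ofReal_ne_top)]
      exact tsum_congr fun n => ENNReal.toReal_ofReal (htn n y)
    rw [h4]; exact h3.hasSum
  -- kernels
  set Kn : ℕ → Zd d → ℝ := fun i u => ∑ b ∈ nb u, p * tn d p i (x - b) with hKn
  set K : Zd d → ℝ := fun u => ∑ b ∈ nb u, p * tau d p (x - b) with hK
  have hKn0 : ∀ i u, 0 ≤ Kn i u := fun i u =>
    Finset.sum_nonneg fun b _ => mul_nonneg hp0 (htn _ _)
  have hKs : ∀ u, HasSum (fun i => Kn i u) (K u) := by
    intro u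
    exact hasSum_sum fun b _ => (htau (x - b)).mul_left p
  have hKb : ∀ u, |K u| ≤ 2 * d := by
    intro u
    have h1 : 0 ≤ K u := Finset.sum_nonneg fun b _ => mul_nonneg hp0 (hT01 _).1
    rw [abs_of_nonneg h1]
    calc K u ≤ ∑ b ∈ nb u, (1 : ℝ) := by
          refine Finset.sum_le_sum fun b _ => ?_
          have := hT01 (x - b)
          nlinarith [this.1, this.2]
      _ = 2 * d := by rw [Finset.sum_const, hcard u]; simp
  -- triple family
  set F : (ℕ × ℕ) × Zd d → ℝ := fun q => gm d p q.1.1 q.2 * Kn q.1.2 q.2 with hF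
  have hG := CvB_gm_summable d p he
  have hF' : Summable (fun r : (ℕ × Zd d) × ℕ => |gm d p r.1.1 r.1.2| * Kn r.2 r.1.2) := by
    rw [summable_prod_of_nonneg (fun r => mul_nonneg (abs_nonneg _) (hKn0 _ _))]
    have hq : ∀ q : ℕ × Zd d, HasSum (fun i => |gm d p q.1 q.2| * Kn i q.2)
        (|gm d p q.1 q.2| * K q.2) := fun q => (hKs q.2).mul_left _
    refine ⟨fun q => (hq q).summable, ?_⟩
    refine Summable.of_nonneg_of_le (fun q => ?_) (fun q => ?_) (hG.mul_right (2 * (d : ℝ)))
    · exact tsum_nonneg fun i => mul_nonneg (abs_nonneg _) (hKn0 _ _)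
    · dsimp only
      rw [(hq q).tsum_eq]
      exact mul_le_mul_of_nonneg_left ((le_abs_self _).trans (hKb q.2)) (abs_nonneg _)
  have hFs : Summable F := by
    let e : (ℕ × ℕ) × Zd d ≃ (ℕ × Zd d) × ℕ :=
      { toFun := fun q => ((q.1.1, q.2), q.1.2)
        invFun := fun r => ((r.1.1, r.2), r.1.2)
        left_inv := fun q => rfl
        right_inv := fun r => rfl }
    have h1 := e.summable_iff.mpr hF'
    refine Summable.of_norm ?_
    refine h1.congr fun q => ?_
    simp only [Function.comp_apply, hF, Real.norm_eq_abs, abs_mul, abs_of_nonneg (hKn0 _ _)]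
    rfl
  -- coefficients
  set c : ℕ × ℕ → ℝ := fun q => ∑' u, F (q, u) with hc
  have hcs : Summable c := hFs.prod
  have hrec : ∀ n, tn d p (n + 1) x = gm d p (n + 1) x + ∑ q ∈ Finset.HasAntidiagonal.antidiagonal n, c q := by
    intro n
    rw [hRenX d p (n + 1) x, Finset.Nat.sum_antidiagonal_eq_sum_range_succ_mk]
    congr 1
    refine Finset.sum_congr rfl fun j hj => ?_
    have hjn : n + 1 - 1 - j = n - j := by omega
    rw [hjn]
    have h1 : c (j, n - j) = ∑ u ∈ bx d j, F ((j, n - j), u) := by
      refine tsum_eq_sum fun u hu => ?_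
      simp only [hF]
      rw [(hSupp d p j u hu).2, zero_mul]
    rw [h1]
    refine Finset.sum_congr rfl fun u _ => ?_
    simp only [hF, hKn, Finset.mul_sum]
    exact Finset.sum_congr rfl fun b _ => by ring
  have hzero : tn d p 0 x = gm d p 0 x := by
    rw [hRenX d p 0 x]; simp
  -- sum over `m`
  have hsumG : HasSum (fun m => gm d p m x) (gS d p x) := (hgs x).hasSum
  have hsumC := CvB_antidiag c hcs
  have hmain : tau d p x = gS d p x + ∑' q, c q := by
    have h1 := (htau x)
    have h2 : HasSum (fun n => tn d p (n + 1) x) (tau d p x - tn d p 0 x) := by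
      have := (hasSum_nat_add_iff' (f := fun n => tn d p n x) 1).mpr h1
      simpa using this
    have h3 : HasSum (fun n => gm d p (n + 1) x) (gS d p x - gm d p 0 x) := by
      have := (hasSum_nat_add_iff' (f := fun n => gm d p n x) 1).mpr hsumG
      simpa using this
    have h4 : HasSum (fun n => tn d p (n + 1) x) (gS d p x - gm d p 0 x + ∑' q, c q) := by
      refine (h3.add hsumC).congr_fun ?_ |> fun h => h
      intro n; exact hrec n
    have h5 := h2.unique h4
    rw [hzero] at h5
    linarith
  have hswap : ∑' q, c q = ∑' u, gS d p u * K u := by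
    have h1 : ∑' q, c q = ∑' u, ∑' q, F (q, u) := by
      have h2 : Summable (Function.uncurry fun (q : ℕ × ℕ) (u : Zd d) => F (q, u)) := hFs
      exact h2.tsum_comm.symm
    rw [h1]
    refine tsum_congr fun u => ?_
    have h2 : Summable (fun m => ‖gm d p m u‖) := by
      simpa using (hgs u).abs
    have h3 : Summable (fun i => ‖Kn i u‖) := (hKs u).summable.norm
    have h4 := tsum_mul_tsum_of_summable_norm h2 h3
    rw [(hKs u).tsum_eq] at h4
    have h5 : gS d p u = ∑' m, gm d p m u := rfl
    rw [h5, h4]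
  -- the right side
  have hJ : ∀ u y, Jf d (y - u) = if y ∈ nb u then 1 else 0 := by
    intro u y
    unfold Jf
    have := hnbT 0 (y - u) u
    rw [add_zero, add_sub_cancel] at this
    simp only [this]
  have hR : cv (cv (gS d p) (fun y => p * Jf d y)) (tau d p) x = ∑' u, gS d p u * K u := by
    have hKu : ∀ u, HasSum (fun y => p * Jf d (y - u) * tau d p (x - y)) (K u) := by
      intro u
      have h1 : K u = ∑ y ∈ nb u, p * Jf d (y - u) * tau d p (x - y) := by
        simp only [hK]
        refine Finset.sum_congr rfl fun b hb => ?_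
        rw [hJ, if_pos hb, mul_one]
      rw [h1]
      refine hasSum_sum_of_ne_finset_zero fun y hy => ?_
      rw [hJ, if_neg hy]; ring
    have hgS : Summable (fun u => |gS d p u|) := by
      refine Summable.of_nonneg_of_le (fun u => abs_nonneg _) (fun u => ?_) hSg
      have : 1 ≤ Qw u := by
        unfold Qw sq
        have : 0 ≤ ∑ i, ((u i : ℤ) : ℝ) ^ 2 := Finset.sum_nonneg fun i _ => sq_nonneg _
        linarith
      nlinarith [abs_nonneg (gS d p u)]
    have hJ0 : ∀ u y, 0 ≤ p * Jf d (y - u) * tau d p (x - y) := by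
      intro u y
      refine mul_nonneg (mul_nonneg hp0 ?_) (hT01 _).1
      unfold Jf; split_ifs <;> norm_num
    have hF2 : Summable (fun r : Zd d × Zd d =>
        gS d p r.1 * (p * Jf d (r.2 - r.1) * tau d p (x - r.2))) := by
      refine Summable.of_norm ?_
      rw [summable_prod_of_nonneg (fun r => norm_nonneg _)]
      have h0 : ∀ u y, ‖gS d p u * (p * Jf d (y - u) * tau d p (x - y))‖ =
          |gS d p u| * (p * Jf d (y - u) * tau d p (x - y)) := by
        intro u y
        rw [norm_mul, Real.norm_eq_abs, Real.norm_eq_abs, abs_of_nonneg (hJ0 u y)]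
      refine ⟨fun u => ?_, ?_⟩
      · simp only [h0]
        exact ((hKu u).mul_left _).summable
      · simp only [h0]
        refine Summable.of_nonneg_of_le (fun u => ?_) (fun u => ?_) (hgS.mul_right (2 * (d : ℝ)))
        · exact tsum_nonneg fun y => mul_nonneg (abs_nonneg _) (hJ0 _ _)
        · rw [((hKu u).mul_left _).tsum_eq]
          exact mul_le_mul_of_nonneg_left ((le_abs_self _).trans (hKb u)) (abs_nonneg _)
    have h1 : cv (cv (gS d p) (fun y => p * Jf d y)) (tau d p) x =
        ∑' y, ∑' u, gS d p u * (p * Jf d (y - u) * tau d p (x - y)) := by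
      unfold cv
      refine tsum_congr fun y => ?_
      rw [← tsum_mul_right]
      exact tsum_congr fun u => by ring
    rw [h1]
    have h2 : Summable (Function.uncurry fun (u y : Zd d) =>
        gS d p u * (p * Jf d (y - u) * tau d p (x - y))) := hF2
    rw [h2.tsum_comm]
    refine tsum_congr fun u => ?_
    exact ((hKu u).mul_left _).tsum_eq
  rw [hmain, hswap, hR]

end Pool.LE
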