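import Pool.Agent.Helper84.LE.St3

/-! Module CvFT: transform of a convolution of even functions (plan section 7). -/

set_option autoImplicit false
open scoped BigOperators
open MeasureTheory

namespace Pool.LE

namespace CvFTaux

variable {d : ℕ}

theorem sq_nonneg' (x : Zd d) : 0 ≤ sq x := Finset.sum_nonneg fun _ _ => sq_nonneg _

theorem Qw_pos (x : Zd d) : 0 < Qw x := by
  unfold Qw
  have := sq_nonneg' x
  linarith

theorem sq_add (y z : Zd d) : sq (y + z) = sq y + 2 * ∑ j, (y j : ℝ) * (z j : ℝ) + sq z := by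
  unfold sq
  rw [Finset.mul_sum, ← Finset.sum_add_distrib, ← Finset.sum_add_distrib]
  apply Finset.sum_congr rfl
  intro i _
  rw [Pi.add_apply]
  push_cast
  ring

theorem sq_add_le (y z : Zd d) : sq (y + z) ≤ 2 * sq y + 2 * sq z := by
  unfold sq
  rw [Finset.mul_sum, Finset.mul_sum, ← Finset.sum_add_distrib]
  apply Finset.sum_le_sum
  intro i _
  rw [Pi.add_apply]
  push_cast
  nlinarith [sq_nonneg ((y i : ℝ) - (z i : ℝ))]

theorem Qw_add_le (y z : Zd d) : Qw (y + z) ≤ Qw y * Qw z := by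
  unfold Qw
  have h1 := sq_add_le y z
  have h2 := sq_nonneg' y
  have h3 := sq_nonneg' z
  nlinarith [mul_nonneg h2 h3]

/-- bounded by the weight -/
def Adm (φ : Zd d → ℝ) : Prop := ∀ x, |φ x| ≤ Qw x

theorem abs_coord_le (x : Zd d) (j : Fin d) : |(x j : ℝ)| ≤ 1 + sq x := by
  have h1 : (x j : ℝ) ^ 2 ≤ sq x :=
    Finset.single_le_sum (f := fun i => (x i : ℝ) ^ 2) (fun i _ => sq_nonneg _) (Finset.mem_univ j)
  rw [abs_le]
  constructor <;> nlinarith [sq_nonneg ((x j : ℝ) - 1), sq_nonneg ((x j : ℝ) + 1)]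

/-- a bounded factor -/
theorem adm_mul {a c : ℝ} {x : Zd d} (ha : |a| ≤ 1 + sq x) (hc : |c| ≤ 1) : |a * c| ≤ Qw x := by
  rw [abs_mul]
  have h0 := sq_nonneg' x
  have h1 : |a| * |c| ≤ |a| * 1 := mul_le_mul_of_nonneg_left hc (abs_nonneg a)
  unfold Qw
  linarith

theorem adm_one {c : ℝ} {x : Zd d} (hc : |c| ≤ 1) : |c| ≤ Qw x := by
  have h0 := sq_nonneg' x
  unfold Qw
  linarith

theorem summable_adm {f φ : Zd d → ℝ} (hf : SumQ f) (hφ : Adm φ) :
    Summable fun x => ‖f x * φ x‖ := by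
  refine Summable.of_nonneg_of_le (fun x => norm_nonneg _) ?_ hf
  intro x
  rw [Real.norm_eq_abs, abs_mul, mul_comm]
  exact mul_le_mul_of_nonneg_right (hφ x) (abs_nonneg _)

theorem hasSum_prod {f g α β : Zd d → ℝ} (hf : SumQ f) (hg : SumQ g) (hα : Adm α) (hβ : Adm β) :
    HasSum (fun p : Zd d × Zd d => (f p.1 * α p.1) * (g p.2 * β p.2))
      ((∑' x, f x * α x) * ∑' x, g x * β x) := by
  have h1 := summable_adm hf hα
  have h2 := summable_adm hg hβ
  have h3 : Summable (fun p : Zd d × Zd d => (f p.1 * α p.1) * (g p.2 * β p.2)) :=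
    summable_mul_of_summable_norm h1 h2
  have h4 := tsum_mul_tsum_of_summable_norm h1 h2
  rw [h4]
  exact h3.hasSum

theorem tsum_cv {f g φ : Zd d → ℝ} (hf : SumQ f) (hg : SumQ g) (hφ : Adm φ) :
    ∑' x, cv f g x * φ x = ∑' p : Zd d × Zd d, f p.1 * g p.2 * φ (p.1 + p.2) := by
  have hQ1 : Summable fun x : Zd d => ‖Qw x * |f x|‖ := by
    refine hf.congr ?_
    intro x
    rw [Real.norm_eq_abs, abs_of_nonneg (mul_nonneg (Qw_pos x).le (abs_nonneg _))]
  have hQ2 : Summable fun x : Zd d => ‖Qw x * |g x|‖ := by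
    refine hg.congr ?_
    intro x
    rw [Real.norm_eq_abs, abs_of_nonneg (mul_nonneg (Qw_pos x).le (abs_nonneg _))]
  have hQ : Summable (fun p : Zd d × Zd d => (Qw p.1 * |f p.1|) * (Qw p.2 * |g p.2|)) :=
    summable_mul_of_summable_norm hQ1 hQ2
  have hH : Summable (fun p : Zd d × Zd d => f p.1 * g p.2 * φ (p.1 + p.2)) := by
    refine Summable.of_norm_bounded hQ ?_
    rintro ⟨y, z⟩
    show ‖f y * g z * φ (y + z)‖ ≤ (Qw y * |f y|) * (Qw z * |g z|)
    rw [Real.norm_eq_abs, abs_mul, abs_mul]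
    have h1 : |φ (y + z)| ≤ Qw y * Qw z := (hφ _).trans (Qw_add_le y z)
    calc |f y| * |g z| * |φ (y + z)| ≤ |f y| * |g z| * (Qw y * Qw z) :=
          mul_le_mul_of_nonneg_left h1 (mul_nonneg (abs_nonneg _) (abs_nonneg _))
      _ = (Qw y * |f y|) * (Qw z * |g z|) := by ring
  let e : Zd d × Zd d ≃ Zd d × Zd d :=
    { toFun := fun p => (p.2, p.1 - p.2)
      invFun := fun p => (p.1 + p.2, p.1)
      left_inv := by
        rintro ⟨x, y⟩
        simp
      right_inv := by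
        rintro ⟨x, y⟩
        simp }
  have hK : Summable (fun p : Zd d × Zd d => f p.2 * g (p.1 - p.2) * φ p.1) := by
    have h1 := (e.summable_iff (f := fun p : Zd d × Zd d => f p.1 * g p.2 * φ (p.1 + p.2))).2 hH
    refine h1.congr ?_
    rintro ⟨x, y⟩
    show f y * g (x - y) * φ (y + (x - y)) = f y * g (x - y) * φ x
    rw [add_sub_cancel]
  have h2 : ∑' p : Zd d × Zd d, f p.1 * g p.2 * φ (p.1 + p.2) =
      ∑' p : Zd d × Zd d, f p.2 * g (p.1 - p.2) * φ p.1 := by
    rw [← e.tsum_eq (fun p : Zd d × Zd d => f p.1 * g p.2 * φ (p.1 + p.2))]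
    apply tsum_congr
    rintro ⟨x, y⟩
    show f y * g (x - y) * φ (y + (x - y)) = f y * g (x - y) * φ x
    rw [add_sub_cancel]
  rw [h2, hK.tsum_prod]
  apply tsum_congr
  intro x
  unfold cv
  exact tsum_mul_right.symm

theorem tsum_odd {f φ : Zd d → ℝ} (hf : EvenF f) (hφ : ∀ x, φ (-x) = - φ x) :
    ∑' x, f x * φ x = 0 := by
  have h1 : ∑' x, f x * φ x = ∑' x, f (-x) * φ (-x) :=
    ((Equiv.neg (Zd d)).tsum_eq (fun x => f x * φ x)).symm
  have h2 : ∑' x, f (-x) * φ (-x) = - ∑' x, f x * φ x := by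
    rw [← tsum_neg]
    apply tsum_congr
    intro x
    rw [hf x, hφ x]
    ring
  rw [h2] at h1
  linarith

theorem dot_add (k : Fin d → ℝ) (y z : Zd d) :
    ∑ i, k i * ((y + z) i : ℝ) = ∑ i, k i * (y i : ℝ) + ∑ i, k i * (z i : ℝ) := by
  rw [← Finset.sum_add_distrib]
  apply Finset.sum_congr rfl
  intro i _
  rw [Pi.add_apply]
  push_cast
  ring

theorem dot_neg (k : Fin d → ℝ) (y : Zd d) :
    ∑ i, k i * ((-y) i : ℝ) = - ∑ i, k i * (y i : ℝ) := by
  rw [← Finset.sum_neg_distrib]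
  apply Finset.sum_congr rfl
  intro i _
  rw [Pi.neg_apply]
  push_cast
  ring

end CvFTaux

open CvFTaux

theorem hCvFT (hCv : StCv) (hb : StFTb) : StCvFT := by
  have _ := hCv
  have _ := hb
  intro d f g hf hg ef eg k
  -- admissible functions
  have aC : Adm (fun x : Zd d => Real.cos (∑ i, k i * x i)) := fun x =>
    adm_one (Real.abs_cos_le_one _)
  have aS : Adm (fun x : Zd d => Real.sin (∑ i, k i * x i)) := fun x =>
    adm_one (Real.abs_sin_le_one _)
  have aXC : ∀ j : Fin d, Adm (fun x : Zd d => (x j : ℝ) * Real.cos (∑ i, k i * x i)) :=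
    fun j x => adm_mul (abs_coord_le x j) (Real.abs_cos_le_one _)
  have aXS : ∀ j : Fin d, Adm (fun x : Zd d => (x j : ℝ) * Real.sin (∑ i, k i * x i)) :=
    fun j x => adm_mul (abs_coord_le x j) (Real.abs_sin_le_one _)
  have hsq : ∀ x : Zd d, |sq x| ≤ 1 + sq x := by
    intro x
    rw [abs_of_nonneg (sq_nonneg' x)]
    linarith
  have aQC : Adm (fun x : Zd d => sq x * Real.cos (∑ i, k i * x i)) :=
    fun x => adm_mul (hsq x) (Real.abs_cos_le_one _)
  have aQS : Adm (fun x : Zd d => sq x * Real.sin (∑ i, k i * x i)) :=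
    fun x => adm_mul (hsq x) (Real.abs_sin_le_one _)
  -- vanishing sums
  have oS : ∀ {f : Zd d → ℝ}, EvenF f → ∑' x, f x * Real.sin (∑ i, k i * x i) = 0 := by
    intro f ef
    refine tsum_odd (φ := fun x => Real.sin (∑ i, k i * x i)) ef ?_
    intro x
    show Real.sin (∑ i, k i * ((-x) i : ℝ)) = _
    rw [dot_neg, Real.sin_neg]
  have hsqneg : ∀ x : Zd d, sq (-x) = sq x := by
    intro x
    unfold sq
    apply Finset.sum_congr rfl
    intro i _
    rw [Pi.neg_apply]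
    push_cast
    ring
  have oXC : ∀ {f : Zd d → ℝ}, EvenF f → ∀ j : Fin d,
      ∑' x, f x * ((x j : ℝ) * Real.cos (∑ i, k i * x i)) = 0 := by
    intro f ef j
    refine tsum_odd (φ := fun x => (x j : ℝ) * Real.cos (∑ i, k i * x i)) ef ?_
    intro x
    show (((-x) j : ℤ) : ℝ) * Real.cos (∑ i, k i * ((-x) i : ℝ)) = _
    rw [dot_neg, Real.cos_neg, Pi.neg_apply]
    push_cast
    ring
  have oQS : ∀ {f : Zd d → ℝ}, EvenF f →
      ∑' x, f x * (sq x * Real.sin (∑ i, k i * x i)) = 0 := by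
    intro f ef
    refine tsum_odd (φ := fun x => sq x * Real.sin (∑ i, k i * x i)) ef ?_
    intro x
    show sq (-x) * Real.sin (∑ i, k i * ((-x) i : ℝ)) = _
    rw [dot_neg, Real.sin_neg, hsqneg]
    ring
  -- transforms in the form used here
  have eFT : ∀ f : Zd d → ℝ, FT f k = ∑' x, f x * Real.cos (∑ i, k i * x i) := fun f => rfl
  have eSJ : ∀ (f : Zd d → ℝ) (j : Fin d),
      SJ j f k = ∑' x, f x * ((x j : ℝ) * Real.sin (∑ i, k i * x i)) := by
    intro f j
    unfold SJ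
    apply tsum_congr
    intro x
    ring
  have eMT : ∀ f : Zd d → ℝ, MT f k = ∑' x, f x * (sq x * Real.cos (∑ i, k i * x i)) := by
    intro f
    unfold MT
    apply tsum_congr
    intro x
    ring
  refine ⟨?_, ?_, ?_⟩
  · rw [eFT, tsum_cv hf hg aC]
    have h1 := (hasSum_prod hf hg aC aC).sub (hasSum_prod hf hg aS aS)
    rw [oS ef, zero_mul, sub_zero] at h1
    rw [eFT, eFT, ← h1.tsum_eq]
    apply tsum_congr
    rintro ⟨y, z⟩
    show f y * g z * Real.cos (∑ i, k i * ((y + z) i : ℝ)) =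
      (f y * Real.cos (∑ i, k i * (y i : ℝ))) * (g z * Real.cos (∑ i, k i * (z i : ℝ))) -
      (f y * Real.sin (∑ i, k i * (y i : ℝ))) * (g z * Real.sin (∑ i, k i * (z i : ℝ)))
    rw [dot_add, Real.cos_add]
    ring
  · intro j
    rw [eSJ, tsum_cv hf hg (aXS j)]
    have h1 := (((hasSum_prod hf hg (aXS j) aC).add (hasSum_prod hf hg (aXC j) aS)).add
      (hasSum_prod hf hg aS (aXC j))).add (hasSum_prod hf hg aC (aXS j))
    rw [oXC ef j, oS ef, zero_mul, zero_mul, add_zero, add_zero] at h1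
    rw [eSJ, eSJ, eFT, eFT, ← h1.tsum_eq]
    apply tsum_congr
    rintro ⟨y, z⟩
    show f y * g z * ((((y + z) j : ℤ) : ℝ) * Real.sin (∑ i, k i * ((y + z) i : ℝ))) =
      (f y * ((y j : ℝ) * Real.sin (∑ i, k i * (y i : ℝ)))) *
          (g z * Real.cos (∑ i, k i * (z i : ℝ))) +
        (f y * ((y j : ℝ) * Real.cos (∑ i, k i * (y i : ℝ)))) *
          (g z * Real.sin (∑ i, k i * (z i : ℝ))) +
        (f y * Real.sin (∑ i, k i * (y i : ℝ))) *
          (g z * ((z j : ℝ) * Real.cos (∑ i, k i * (z i : ℝ)))) +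
        (f y * Real.cos (∑ i, k i * (y i : ℝ))) *
          (g z * ((z j : ℝ) * Real.sin (∑ i, k i * (z i : ℝ))))
    rw [dot_add, Real.sin_add, Pi.add_apply]
    push_cast
    ring
  · rw [eMT, tsum_cv hf hg aQC]
    have hj : ∀ j : Fin d, HasSum (fun p : Zd d × Zd d =>
        (f p.1 * ((p.1 j : ℝ) * Real.cos (∑ i, k i * p.1 i))) *
          (g p.2 * ((p.2 j : ℝ) * Real.cos (∑ i, k i * p.2 i))) -
        (f p.1 * ((p.1 j : ℝ) * Real.sin (∑ i, k i * p.1 i))) *
          (g p.2 * ((p.2 j : ℝ) * Real.sin (∑ i, k i * p.2 i))))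
        (- (SJ j f k * SJ j g k)) := by
      intro j
      have h1 := (hasSum_prod hf hg (aXC j) (aXC j)).sub (hasSum_prod hf hg (aXS j) (aXS j))
      rw [oXC ef j, zero_mul, zero_sub, ← eSJ f j, ← eSJ g j] at h1
      exact h1
    have hjs := (hasSum_sum (s := Finset.univ) (fun j _ => hj j)).mul_left 2
    have h1 := ((((hasSum_prod hf hg aQC aC).sub (hasSum_prod hf hg aQS aS)).add hjs).add
      (hasSum_prod hf hg aC aQC)).sub (hasSum_prod hf hg aS aQS)
    rw [oQS ef, oS ef, zero_mul, zero_mul, sub_zero, sub_zero, Finset.sum_neg_distrib] at h1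
    have h2 : MT f k * FT g k - 2 * ∑ j, SJ j f k * SJ j g k + FT f k * MT g k =
        (∑' x, f x * (sq x * Real.cos (∑ i, k i * x i))) *
            (∑' x, g x * Real.cos (∑ i, k i * x i)) +
          2 * - ∑ j, SJ j f k * SJ j g k +
          (∑' x, f x * Real.cos (∑ i, k i * x i)) *
            (∑' x, g x * (sq x * Real.cos (∑ i, k i * x i))) := by
      rw [eMT, eMT, eFT, eFT]
      ring
    rw [h2, ← h1.tsum_eq]
    apply tsum_congr
    rintro ⟨y, z⟩
    show f y * g z * (sq (y + z) * Real.cos (∑ i, k i * ((y + z) i : ℝ))) =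
      (f y * (sq y * Real.cos (∑ i, k i * (y i : ℝ)))) *
          (g z * Real.cos (∑ i, k i * (z i : ℝ))) -
        (f y * (sq y * Real.sin (∑ i, k i * (y i : ℝ)))) *
          (g z * Real.sin (∑ i, k i * (z i : ℝ))) +
        2 * ∑ j, ((f y * ((y j : ℝ) * Real.cos (∑ i, k i * (y i : ℝ)))) *
          (g z * ((z j : ℝ) * Real.cos (∑ i, k i * (z i : ℝ)))) -
          (f y * ((y j : ℝ) * Real.sin (∑ i, k i * (y i : ℝ)))) *
          (g z * ((z j : ℝ) * Real.sin (∑ i, k i * (z i : ℝ))))) +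
        (f y * Real.cos (∑ i, k i * (y i : ℝ))) *
          (g z * (sq z * Real.cos (∑ i, k i * (z i : ℝ)))) -
        (f y * Real.sin (∑ i, k i * (y i : ℝ))) *
          (g z * (sq z * Real.sin (∑ i, k i * (z i : ℝ))))
    have h3 : ∑ j, ((f y * ((y j : ℝ) * Real.cos (∑ i, k i * (y i : ℝ)))) *
          (g z * ((z j : ℝ) * Real.cos (∑ i, k i * (z i : ℝ)))) -
          (f y * ((y j : ℝ) * Real.sin (∑ i, k i * (y i : ℝ)))) *
          (g z * ((z j : ℝ) * Real.sin (∑ i, k i * (z i : ℝ))))) =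
        (∑ j, (y j : ℝ) * (z j : ℝ)) * (f y * g z *
          (Real.cos (∑ i, k i * (y i : ℝ)) * Real.cos (∑ i, k i * (z i : ℝ)) -
          Real.sin (∑ i, k i * (y i : ℝ)) * Real.sin (∑ i, k i * (z i : ℝ)))) := by
      rw [Finset.sum_mul]
      apply Finset.sum_congr rfl
      intro j _
      ring
    rw [h3, dot_add, Real.cos_add, sq_add]
    ring

end Pool.LE
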