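import Pool.Agent.Helper84.LE.St1

/-! LE module WIT (plan 3.2): witnesses of an edge-disjoint realisation. -/

set_option autoImplicit false

namespace Pool.LE

section WIT

variable {V : Type} [DecidableEq V]

theorem wit_mem_edges {ω : Finset (Sym2 V)} {x y : V} (q : (gr ω).Walk x y) {e : Sym2 V}
    (he : e ∈ q.edges) : e ∈ ω ∧ ¬ e.IsDiag := by
  have h := q.edges_subset_edgeSet he
  rw [gr, SimpleGraph.edgeSet_fromEdgeSet] at h
  exact ⟨h.1, h.2⟩

theorem wit_transfer {ω η : Finset (Sym2 V)} {x y : V} (q : (gr ω).Walk x y)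
    (h : ∀ e ∈ q.edges, e ∈ η) :
    ∃ q' : (gr η).Walk x y, q'.edges = q.edges ∧ q'.support = q.support ∧
      q'.length = q.length := by
  have h' : ∀ e ∈ q.edges, e ∈ (gr η).edgeSet := by
    intro e he
    rw [gr, SimpleGraph.edgeSet_fromEdgeSet]
    exact ⟨h e he, (wit_mem_edges q he).2⟩
  exact ⟨q.transfer (gr η) h', q.edges_transfer h', q.support_transfer h', q.length_transfer h'⟩

theorem wit_TR_mono {η η' : Finset (Sym2 V)} (h : η ⊆ η') {c : V × List V × V} (hc : TR η c) :
    TR η' c := by
  obtain ⟨p, hp, hm⟩ := hc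
  obtain ⟨q, hq, hs, -⟩ := wit_transfer (η := η') p (fun e he => h (wit_mem_edges p he).1)
  refine ⟨q, ?_, ?_⟩
  · rw [SimpleGraph.Walk.isTrail_def, hq]; exact hp.edges_nodup
  · intro m hmm; rw [hs]; exact hm m hmm

theorem wit_DR_mono (L : List (V × List V × V)) : ∀ {ω ω' : Finset (Sym2 V)}, ω ⊆ ω' → DR L ω →
    DR L ω' := by
  induction L with
  | nil => intro ω ω' _ _; trivial
  | cons c L ih =>
    intro ω ω' h hD
    obtain ⟨η, hη, hT, hR⟩ := hD
    exact ⟨η, hη.trans h, hT, ih (Finset.sdiff_subset_sdiff h (le_refl _)) hR⟩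

theorem wit_insL_interleave (P : V → Prop) [DecidablePred P] (a b : V) (Z : List V) :
    ∀ (ms : List V) (L₀ : List (V × List V × V)),
      ∀ L₀' ∈ insL (Z.filter (fun z => ¬ P z)) L₀,
        ((a, (Z.filter (fun z => P z)).reverse ++ ms, b) :: L₀') ∈ insL Z ((a, ms, b) :: L₀) := by
  induction Z with
  | nil =>
    intro ms L₀ L₀' h
    simp only [List.filter_nil, insL, List.mem_singleton] at h
    subst h
    simp [insL]
  | cons z Z ih =>
    intro ms L₀ L₀' h
    by_cases hz : P z
    · rw [List.filter_cons_of_neg (by simpa using hz)] at h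
      rw [List.filter_cons_of_pos (by simpa using hz)]
      simp only [insL, List.mem_flatMap]
      refine ⟨(a, z :: ms, b) :: L₀, ?_, ?_⟩
      · simp [ins]
      · have := ih (z :: ms) L₀ L₀' h
        simpa using this
    · rw [List.filter_cons_of_pos (by simpa using hz)] at h
      rw [List.filter_cons_of_neg (by simpa using hz)]
      simp only [insL, List.mem_flatMap] at h ⊢
      obtain ⟨L₀₀, h1, h2⟩ := h
      refine ⟨(a, ms, b) :: L₀₀, ?_, ih ms L₀₀ L₀' h2⟩
      simp [ins, h1]

end WIT

theorem hWIT : StWIT := by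
  classical
  intro V _ ω L
  induction L generalizing ω with
  | nil =>
    intro _
    refine ⟨∅, ∅, Finset.empty_subset _, by simp, by simp [pts], ?_⟩
    intro Z hZ
    have : Z = [] := by
      rcases Z with _ | ⟨z, Z⟩
      · rfl
      · exact absurd (hZ z (by simp)) (by simp)
    subst this
    exact ⟨[], by simp [insL], trivial⟩
  | cons c L₀ ih =>
    rintro ⟨η₁, hη₁, ⟨p, hp, hpm⟩, hR⟩
    obtain ⟨H₀, η₀, hη₀, hE₀, hP₀, hZ₀⟩ := ih _ hR
    obtain ⟨a, ms, b⟩ := c
    simp only at p hp hpm
    set H₁ : Finset V := p.support.toFinset with hH₁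
    set η₁' : Finset (Sym2 V) := p.edges.toFinset with hη₁'
    have hsub : η₁' ⊆ η₁ := by
      intro e he
      rw [hη₁', List.mem_toFinset] at he
      exact (wit_mem_edges p he).1
    refine ⟨H₁ ∪ H₀, η₁' ∪ η₀, ?_, ?_, ?_, ?_⟩
    · refine Finset.union_subset (hsub.trans hη₁) (hη₀.trans Finset.sdiff_subset)
    · intro e he v hv
      rcases Finset.mem_union.1 he with h | h
      · rw [hη₁', List.mem_toFinset] at h
        refine Finset.mem_union_left _ ?_
        rw [hH₁, List.mem_toFinset]
        induction e with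
        | _ x y =>
        rcases Sym2.mem_iff.1 hv with rfl | rfl
        · exact p.fst_mem_support_of_mem_edges h
        · exact p.snd_mem_support_of_mem_edges h
      · exact Finset.mem_union_right _ (hE₀ e h v hv)
    · intro z hz
      simp only [pts, List.flatMap_cons, List.mem_append, List.mem_cons] at hz
      rcases hz with (rfl | rfl | hz) | hz
      · exact Finset.mem_union_left _ (by rw [hH₁, List.mem_toFinset]; exact p.start_mem_support)
      · exact Finset.mem_union_left _ (by rw [hH₁, List.mem_toFinset]; exact p.end_mem_support)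
      · exact Finset.mem_union_left _ (by rw [hH₁, List.mem_toFinset]; exact hpm z hz)
      · exact Finset.mem_union_right _ (hP₀ z hz)
    · intro Z hZ
      obtain ⟨L₀', hL₀', hD⟩ := hZ₀ (Z.filter (fun z => ¬ z ∈ H₁)) (by
        intro z hz
        simp only [List.mem_filter, decide_eq_true_eq] at hz
        rcases Finset.mem_union.1 (hZ z hz.1) with h | h
        · exact absurd h hz.2
        · exact h)
      refine ⟨_, wit_insL_interleave (fun z => z ∈ H₁) a b Z ms L₀ L₀' hL₀', ?_⟩
      refine ⟨η₁', Finset.subset_union_left, ?_, ?_⟩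
      · obtain ⟨q, hq, hs, -⟩ := wit_transfer (η := η₁') p (fun e he => by
          rw [hη₁', List.mem_toFinset]; exact he)
        refine ⟨q, ?_, ?_⟩
        · rw [SimpleGraph.Walk.isTrail_def, hq]; exact hp.edges_nodup
        · intro m hm
          rw [hs]
          simp only [List.mem_append, List.mem_reverse, List.mem_filter, decide_eq_true_eq] at hm
          rcases hm with hm | hm
          · have := hm.2
            rwa [hH₁, List.mem_toFinset] at this
          · exact hpm m hm
      · refine wit_DR_mono L₀' ?_ hD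
        intro e he
        refine Finset.mem_sdiff.2 ⟨Finset.mem_union_right _ he, fun h => ?_⟩
        exact (Finset.mem_sdiff.1 (hη₀ he)).2 (hsub h)

end Pool.LE
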