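import Pool.Agent.Helper84.LE.St1
import Pool.Agent.Helper84.LE.BWT
import Pool.Agent.Helper84.LE.M_WIT

/-! LE module DRBK (plan 3.1): lists of chains. -/

set_option autoImplicit false

namespace Pool.LE

theorem hDRBK (hBK : StBK) (hTR : StTRcm) : StDRBK := by
  intro V _ E p T h0 h1 hD L
  induction L with
  | nil =>
    have : cmL T ([] : List (V × List V × V)) = 1 := by simp [cmL]
    rw [this]
    exact Pr_le_one h0 (by linarith) E _
  | cons c L ih =>
    have : cmL T (c :: L) = cm T c * cmL T L := by simp [cmL]
    rw [this]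
    refine (hBK V E p h0 h1 (fun η => TR η c) (DR L) (fun ω η h hc => wit_TR_mono h hc)
      (fun ω η h hc => wit_DR_mono L h hc)).trans ?_
    exact mul_le_mul' (hTR V E p T h0 h1 hD c) ih

end Pool.LE
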