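import Pool.Agent.Helper84.LE.St3

/-! LE module Dh2 (plan 5). -/

set_option autoImplicit false
open scoped BigOperators ENNReal
open MeasureTheory

namespace Pool.LE

namespace Dh2M

theorem int_nu (f : ℝ → ℝ) : ∫ t, f t ∂nu = (1 / (2 * Real.pi)) * ∫ t in (-Real.pi)..Real.pi, f t := by
  unfold nu
  rw [integral_smul_measure, intervalIntegral.integral_of_le (by linarith [Real.pi_pos]),
    ENNReal.toReal_ofReal (by positivity), smul_eq_mul]

theorem int_cos : ∫ t, Real.cos t ∂nu = 0 := by
  rw [int_nu, integral_cos]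
  simp

theorem int_cos_sq : ∫ t, Real.cos t ^ 2 ∂nu = 1 / 2 := by
  rw [int_nu, integral_cos_sq]
  have := Real.pi_ne_zero
  simp only [Real.cos_pi, Real.sin_pi, Real.cos_neg, Real.sin_neg]
  field_simp
  ring

/-- mixed moments -/
theorem int_cc (hN : StNuProb) {d : ℕ} (i j : Fin d) :
    ∫ k, Real.cos (k i) * Real.cos (k j) ∂(muT d) = if i = j then 1 / 2 else 0 := by
  haveI := hN.1
  have h1 : ∀ k : Fin d → ℝ, Real.cos (k i) * Real.cos (k j) =
      ∏ l : Fin d, ((if l = i then Real.cos (k l) else 1) * (if l = j then Real.cos (k l) else 1)) := by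
    intro k
    rw [Finset.prod_mul_distrib, Finset.prod_ite_eq', Finset.prod_ite_eq']
    simp
  have h2 : ∫ k, Real.cos (k i) * Real.cos (k j) ∂(muT d) =
      ∏ l : Fin d, ∫ t, ((if l = i then Real.cos t else 1) * (if l = j then Real.cos t else 1)) ∂nu := by
    rw [integral_congr_ae (Filter.Eventually.of_forall h1)]
    exact integral_fintype_prod_eq_prod (μ := fun _ : Fin d => nu)
      (fun l t => ((if l = i then Real.cos t else 1) * (if l = j then Real.cos t else 1) : ℝ))
  rw [h2]
  by_cases hij : i = j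
  · subst hij
    rw [if_pos rfl, Finset.prod_eq_single i]
    · simp only [if_true]
      rw [← int_cos_sq]
      refine integral_congr_ae (Filter.Eventually.of_forall fun t => ?_)
      simp only
      ring
    · intro l _ hl
      simp [hl]
    · intro h
      exact absurd (Finset.mem_univ i) h
  · rw [if_neg hij]
    refine Finset.prod_eq_zero (Finset.mem_univ i) ?_
    simp only [if_true, if_neg hij, mul_one]
    exact int_cos

theorem integrable_cc (hN : StNuProb) {d : ℕ} (i j : Fin d) :
    Integrable (fun k : Fin d → ℝ => Real.cos (k i) * Real.cos (k j)) (muT d) := by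
  haveI := hN.2 d
  refine Integrable.of_bound (C := 1) ?_ ?_
  · exact ((Real.continuous_cos.comp (continuous_apply i)).mul
      (Real.continuous_cos.comp (continuous_apply j))).aestronglyMeasurable
  · refine Filter.Eventually.of_forall fun k => ?_
    rw [norm_mul, Real.norm_eq_abs, Real.norm_eq_abs]
    exact mul_le_one₀ (Real.abs_cos_le_one _) (abs_nonneg _) (Real.abs_cos_le_one _)

end Dh2M

open Dh2M in
theorem hDh2 (hN : StNuProb) : StDh2 := by
  intro d hd
  have hd' : (0 : ℝ) < d := by exact_mod_cast hd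
  have e1 : ∀ k : Fin d → ℝ, (Dh k) ^ 2 =
      ∑ i : Fin d, ∑ j : Fin d, (1 / (d : ℝ) ^ 2) * (Real.cos (k i) * Real.cos (k j)) := by
    intro k
    unfold Dh
    rw [div_pow, pow_two (∑ i, Real.cos (k i)), Finset.sum_mul_sum]
    rw [div_eq_mul_one_div, mul_comm, Finset.mul_sum]
    refine Finset.sum_congr rfl fun i _ => ?_
    rw [Finset.mul_sum]
  have hint : ∀ i j : Fin d, Integrable
      (fun k : Fin d → ℝ => (1 / (d : ℝ) ^ 2) * (Real.cos (k i) * Real.cos (k j))) (muT d) :=
    fun i j => (integrable_cc hN i j).const_mul _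
  have hint2 : Integrable (fun k : Fin d → ℝ => (Dh k) ^ 2) (muT d) := by
    have : (fun k : Fin d → ℝ => (Dh k) ^ 2) = fun k =>
      ∑ i : Fin d, ∑ j : Fin d, (1 / (d : ℝ) ^ 2) * (Real.cos (k i) * Real.cos (k j)) := funext e1
    rw [this]
    exact integrable_finset_sum _ fun i _ => integrable_finset_sum _ fun j _ => hint i j
  rw [← ofReal_integral_eq_lintegral_ofReal hint2 (Filter.Eventually.of_forall fun k => sq_nonneg _)]
  congr 1
  rw [integral_congr_ae (Filter.Eventually.of_forall e1), integral_finset_sum _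
    (fun i _ => integrable_finset_sum _ fun j _ => hint i j)]
  have e2 : ∀ i : Fin d, ∫ k, ∑ j : Fin d, (1 / (d : ℝ) ^ 2) * (Real.cos (k i) * Real.cos (k j)) ∂(muT d) =
      (1 / (d : ℝ) ^ 2) * (1 / 2) := by
    intro i
    rw [integral_finset_sum _ (fun j _ => hint i j)]
    have e3 : ∀ j : Fin d, ∫ k, (1 / (d : ℝ) ^ 2) * (Real.cos (k i) * Real.cos (k j)) ∂(muT d) =
        if i = j then (1 / (d : ℝ) ^ 2) * (1 / 2) else 0 := by
      intro j
      rw [integral_const_mul, int_cc hN i j]
      split_ifs
      · rfl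
      · simp
    rw [Finset.sum_congr rfl fun j _ => e3 j]
    simp
  rw [Finset.sum_congr rfl fun i _ => e2 i, Finset.sum_const, Finset.card_univ, Fintype.card_fin,
    nsmul_eq_mul]
  field_simp

end Pool.LE
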