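import Pool.Agent.Helper84.LE.St3

/-! MP_e167eb: elementary facts on `Dh` (module DhE). -/

set_option autoImplicit false

namespace Pool.LE

theorem sq_le_five_cos {t : ℝ} (ht : |t| ≤ Real.pi) : t ^ 2 ≤ 5 * (1 - Real.cos t) := by
  have h1 := Real.cos_le_one_sub_mul_cos_sq ht
  have hpi := Real.pi_pos
  have h2 : Real.pi ^ 2 ≤ 10 := by
    have := Real.pi_lt_d2
    nlinarith
  have h3 : t ^ 2 / 5 ≤ 2 / Real.pi ^ 2 * t ^ 2 := by
    have h4 : (1 : ℝ) / 5 ≤ 2 / Real.pi ^ 2 := by
      rw [div_le_div_iff₀ (by norm_num) (by positivity)]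
      linarith
    have h5 := mul_le_mul_of_nonneg_right h4 (sq_nonneg t)
    linarith
  linarith

theorem hDh : StDh := by
  intro d k hd
  have hdR : (0 : ℝ) < d := by exact_mod_cast hd
  have hD : Dh k = (∑ i, Real.cos (k i)) / d := rfl
  have hsum : ∑ _i : Fin d, (1 : ℝ) = d := by simp
  have habs : |Dh k| ≤ 1 := by
    rw [hD, abs_div, abs_of_pos hdR, div_le_one hdR]
    refine (Finset.abs_sum_le_sum_abs _ _).trans ?_
    rw [← hsum]
    exact Finset.sum_le_sum fun i _ => Real.abs_cos_le_one _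
  have hone : (d : ℝ) * (1 - Dh k) = ∑ i, (1 - Real.cos (k i)) := by
    rw [Finset.sum_sub_distrib, hsum, hD]
    field_simp
  have hle := (abs_le.1 habs).2
  have hge := (abs_le.1 habs).1
  refine ⟨habs, ?_, ?_, ?_⟩
  · intro hk
    rw [div_le_iff₀ hdR]
    calc ∑ i, k i ^ 2 ≤ ∑ i, 5 * (1 - Real.cos (k i)) :=
          Finset.sum_le_sum fun i _ => sq_le_five_cos (hk i)
      _ = 5 * (1 - Dh k) * d := by
          rw [← Finset.mul_sum, ← hone]; ring
  · calc ∑ i, Real.sin (k i) ^ 2 ≤ ∑ i, 2 * (1 - Real.cos (k i)) := by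
          refine Finset.sum_le_sum fun i _ => ?_
          have h1 := Real.sin_sq_add_cos_sq (k i)
          nlinarith [Real.cos_le_one (k i), Real.neg_one_le_cos (k i),
            sq_nonneg (1 - Real.cos (k i))]
      _ = 2 * d * (1 - Dh k) := by
          rw [← Finset.mul_sum, ← hone]; ring
  · intro lam h0 h1
    have hlamD : lam * Dh k ≤ lam := by
      calc lam * Dh k ≤ lam * 1 := mul_le_mul_of_nonneg_left hle h0
        _ = lam := mul_one _
    have hlamD' : -lam ≤ lam * Dh k := by
      calc -lam = lam * (-1) := by ring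
        _ ≤ lam * Dh k := mul_le_mul_of_nonneg_left hge h0
    refine ⟨by linarith, by linarith, ?_, by linarith⟩
    rcases le_total 0 (Dh k) with h | h
    · have : lam * Dh k ≤ Dh k := by
        calc lam * Dh k ≤ 1 * Dh k := mul_le_mul_of_nonneg_right h1.le h
          _ = Dh k := one_mul _
      linarith
    · have : lam * Dh k ≤ 0 := mul_nonpos_of_nonneg_of_nonpos h0 h
      linarith

end Pool.LE
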