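import Pool.Agent.Helper84.LE.Defs

set_option autoImplicit false
open scoped BigOperators Polynomial

namespace Pool.LE

theorem NN_zero : NN 0 = 0 := by
  unfold NN
  simp

theorem NN_mono_of_abs {P Q : ℝ[X]} (h : ∀ n, |P.coeff n| ≤ |Q.coeff n|) : NN P ≤ NN Q := by
  unfold NN
  exact ENNReal.tsum_le_tsum fun n => mul_le_mul_right (ENNReal.ofReal_le_ofReal (h n)) _

theorem NN_congr_of_abs {P Q : ℝ[X]} (h : ∀ n, |P.coeff n| = |Q.coeff n|) : NN P = NN Q :=
  le_antisymm (NN_mono_of_abs fun n => (h n).le) (NN_mono_of_abs fun n => (h n).ge)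

theorem NN_add_le (P Q : ℝ[X]) : NN (P + Q) ≤ NN P + NN Q := by
  unfold NN
  rw [← ENNReal.tsum_add]
  refine ENNReal.tsum_le_tsum fun n => ?_
  rw [← mul_add]
  refine mul_le_mul_right ?_ _
  rw [← ENNReal.ofReal_add (abs_nonneg _) (abs_nonneg _), Polynomial.coeff_add]
  exact ENNReal.ofReal_le_ofReal (abs_add_le _ _)

theorem NN_neg (P : ℝ[X]) : NN (-P) = NN P :=
  NN_congr_of_abs fun n => by rw [Polynomial.coeff_neg, abs_neg]

theorem NN_sub_le (P Q : ℝ[X]) : NN (P - Q) ≤ NN P + NN Q := by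
  rw [sub_eq_add_neg, ← NN_neg Q]
  exact NN_add_le _ _

theorem NN_sum_le {ι : Type} (s : Finset ι) (f : ι → ℝ[X]) :
    NN (∑ i ∈ s, f i) ≤ ∑ i ∈ s, NN (f i) := by
  classical
  induction s using Finset.induction_on with
  | empty => simp [NN_zero]
  | insert i s hi ih =>
    rw [Finset.sum_insert hi, Finset.sum_insert hi]
    exact (NN_add_le _ _).trans (add_le_add le_rfl ih)

theorem NN_smul {c : ℝ} (hc : 0 ≤ c) (P : ℝ[X]) : NN (c • P) = ENNReal.ofReal c * NN P := by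
  unfold NN
  rw [← ENNReal.tsum_mul_left]
  refine tsum_congr fun n => ?_
  rw [Polynomial.coeff_smul, smul_eq_mul, abs_mul, abs_of_nonneg hc, ENNReal.ofReal_mul hc]
  ring

theorem NN_C_mul {c : ℝ} (hc : 0 ≤ c) (P : ℝ[X]) :
    NN (Polynomial.C c * P) = ENNReal.ofReal c * NN P := by
  rw [← Polynomial.smul_eq_C_mul, NN_smul hc]

theorem NN_X_pow (n : ℕ) : NN (Polynomial.X ^ n) = 1 + (n : ENNReal) := by
  unfold NN
  rw [tsum_eq_single n]
  · rw [Polynomial.coeff_X_pow_self]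
    simp
  · intro m hm
    rw [Polynomial.coeff_X_pow, if_neg hm]
    simp

theorem NN_one : NN 1 = 1 := by
  have := NN_X_pow 0
  simpa using this

theorem NN_X : NN Polynomial.X = 2 := by
  have := NN_X_pow 1
  rw [pow_one] at this
  rw [this]
  norm_num

theorem tsum_sum_antidiagonal (F : ℕ × ℕ → ENNReal) :
    ∑' n : ℕ, ∑ q ∈ Finset.HasAntidiagonal.antidiagonal n, F q = ∑' q : ℕ × ℕ, F q := by
  rw [← (Finset.HasAntidiagonal.sigmaAntidiagonalEquivProd (A := ℕ)).tsum_eq, ENNReal.tsum_sigma']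
  refine tsum_congr fun n => ?_
  rw [← Finset.tsum_subtype]
  rfl

theorem NN_mul_le (P Q : ℝ[X]) : NN (P * Q) ≤ NN P * NN Q := by
  have h1 : NN P * NN Q = ∑' n : ℕ, ∑ q ∈ Finset.HasAntidiagonal.antidiagonal n,
      ((1 + (q.1 : ENNReal)) * ENNReal.ofReal |P.coeff q.1|) *
        ((1 + (q.2 : ENNReal)) * ENNReal.ofReal |Q.coeff q.2|) := by
    rw [tsum_sum_antidiagonal (fun q => ((1 + (q.1 : ENNReal)) * ENNReal.ofReal |P.coeff q.1|) *
        ((1 + (q.2 : ENNReal)) * ENNReal.ofReal |Q.coeff q.2|)), ENNReal.tsum_prod']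
    unfold NN
    rw [← ENNReal.tsum_mul_right]
    exact tsum_congr fun i => ENNReal.tsum_mul_left.symm
  rw [h1]
  unfold NN
  refine ENNReal.tsum_le_tsum fun n => ?_
  rw [Polynomial.coeff_mul]
  calc (1 + (n : ENNReal)) * ENNReal.ofReal |∑ x ∈ Finset.HasAntidiagonal.antidiagonal n, P.coeff x.1 * Q.coeff x.2|
      ≤ (1 + (n : ENNReal)) * ∑ x ∈ Finset.HasAntidiagonal.antidiagonal n,
          ENNReal.ofReal |P.coeff x.1| * ENNReal.ofReal |Q.coeff x.2| := by
        refine mul_le_mul_right ?_ _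
        refine (ENNReal.ofReal_le_ofReal (Finset.abs_sum_le_sum_abs _ _)).trans ?_
        rw [ENNReal.ofReal_sum_of_nonneg (fun _ _ => abs_nonneg _)]
        refine Finset.sum_le_sum fun x _ => ?_
        rw [abs_mul, ENNReal.ofReal_mul (abs_nonneg _)]
    _ ≤ _ := by
        rw [Finset.mul_sum]
        refine Finset.sum_le_sum fun x hx => ?_
        have hn : n = x.1 + x.2 := (Finset.HasAntidiagonal.mem_antidiagonal.1 hx).symm
        have h2 : (1 + (n : ENNReal)) ≤ (1 + (x.1 : ENNReal)) * (1 + (x.2 : ENNReal)) := by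
          rw [hn, Nat.cast_add]
          calc (1 : ENNReal) + ((x.1 : ENNReal) + (x.2 : ENNReal))
              ≤ 1 + ((x.1 : ENNReal) + (x.2 : ENNReal)) + (x.1 : ENNReal) * (x.2 : ENNReal) :=
                le_self_add
            _ = _ := by ring
        calc (1 + (n : ENNReal)) * (ENNReal.ofReal |P.coeff x.1| * ENNReal.ofReal |Q.coeff x.2|)
            ≤ ((1 + (x.1 : ENNReal)) * (1 + (x.2 : ENNReal))) *
              (ENNReal.ofReal |P.coeff x.1| * ENNReal.ofReal |Q.coeff x.2|) :=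
              mul_le_mul_left h2 _
          _ = _ := by ring

theorem NN_neg_one_pow_mul (N : ℕ) (P : ℝ[X]) : NN ((-1) ^ N * P) = NN P := by
  rcases neg_one_pow_eq_or ℝ[X] N with h | h
  · rw [h, one_mul]
  · rw [h, neg_one_mul, NN_neg]

/-- lower bound by single coefficients -/
theorem sum_coeff_le_NN (P : ℝ[X]) (s : Finset ℕ) :
    ∑ n ∈ s, (1 + (n : ENNReal)) * ENNReal.ofReal |P.coeff n| ≤ NN P := by
  unfold NN
  exact ENNReal.sum_le_tsum s

theorem NN_Ex_le {V : Type} [DecidableEq V] {p : ℝ} (h0 : 0 ≤ p) (h1 : p ≤ 1)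
    (E : Finset (Sym2 V)) (f : Finset (Sym2 V) → ℝ[X]) :
    NN (Ex E p f) ≤ ExE E p (fun ω => NN (f ω)) := by
  unfold Ex ExE
  refine (NN_sum_le _ _).trans (le_of_eq ?_)
  refine Finset.sum_congr rfl fun ω _ => ?_
  exact NN_smul (mul_nonneg (pow_nonneg h0 _) (pow_nonneg (by linarith) _)) _

end Pool.LE
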