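import Pool.Agent.Helper84.LE.Defs

/-! Statements, part 2: the lattice (plan section 4). -/

set_option autoImplicit false
open scoped BigOperators Polynomial
open Polynomial

namespace Pool.LE

/-- translate of an edge set -/
noncomputable def trE {d : ℕ} (v : Zd d) (E : Finset (Sym2 (Zd d))) : Finset (Sym2 (Zd d)) :=
  E.map (Equiv.addLeft v).toEmbedding.sym2Map

/-- signed permutation of the coordinates -/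
def sgp {d : ℕ} (σ : Equiv.Perm (Fin d)) (s : Fin d → ℤˣ) (x : Zd d) : Zd d :=
  fun i => (s i : ℤ) * x (σ i)

/-- invariance under signed permutations -/
def SymF {d : ℕ} (f : Zd d → ℝ) : Prop :=
  ∀ (σ : Equiv.Perm (Fin d)) (s : Fin d → ℤˣ) (x : Zd d), f (sgp σ s x) = f x

/-! ### basic facts on boxes and neighbours -/

def StBox : Prop := ∀ (d : ℕ),
  (∀ (x : Zd d), x ∈ bx d 0 ↔ x = 0) ∧
  (∀ (R : ℕ) (x : Zd d), x ∈ bx d R ↔ ∀ i, |x i| ≤ R) ∧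
  (∀ (x b : Zd d), b ∈ nb x ↔ ∃ i, b = x + Pi.single i 1 ∨ b = x - Pi.single i 1) ∧
  (∀ (x b : Zd d), b ∈ nb x ↔ x ∈ nb b) ∧
  (∀ (x b v : Zd d), b ∈ nb x ↔ v + b ∈ nb (v + x)) ∧
  (∀ (x b : Zd d), s(x, b) ∈ latE d ↔ b ∈ nb x) ∧
  (∀ (x b : Zd d) (R : ℕ), x ∈ bx d R → b ∈ nb x → b ∈ bx d (R + 1)) ∧
  (∀ (S : Finset (Zd d)) (x b : Zd d), s(x, b) ∈ ES S ↔ x ∈ S ∧ b ∈ S ∧ b ∈ nb x) ∧
  (∀ (S : Finset (Zd d)), ((ES S : Finset (Sym2 (Zd d))) : Set (Sym2 (Zd d))) ⊆ latE d) ∧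
  (∀ (R R' : ℕ), R ≤ R' → Eb d R ⊆ Eb d R') ∧
  (∀ (E : Finset (Sym2 (Zd d))), (E : Set (Sym2 (Zd d))) ⊆ latE d → ∃ R, E ⊆ Eb d R) ∧
  (∀ (x : Zd d), (nb x).card = 2 * d) ∧
  (∀ (x b : Zd d), b ∈ nb x → sq (b - x) = 1)

/-- a walk stays in a box -/
def StWalkBox : Prop := ∀ (d : ℕ) (ω : Finset (Sym2 (Zd d))) (v y : Zd d),
  (ω : Set (Sym2 (Zd d))) ⊆ latE d → ∀ q : (gr ω).Walk v y,
    (∀ z ∈ q.support, z - v ∈ bx d q.length) ∧ ∀ e ∈ q.edges, e ∈ trE v (Eb d q.length)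

/-- coefficients of `GG` do not change if the edge set is enlarged outside a box -/
def StCoefLoc0 : Prop := ∀ (d : ℕ) (p : ℝ) (n : ℕ) (E F : Finset (Sym2 (Zd d))) (v x : Zd d),
  (E : Set (Sym2 (Zd d))) ⊆ latE d → F ⊆ E → trE v (Eb d n) ⊆ F →
    (GG E p v x).coeff n = (GG F p v x).coeff n

/-- translation invariance -/
def StTransl : Prop := ∀ (d : ℕ) (p : ℝ) (E : Finset (Sym2 (Zd d))) (v a x : Zd d),
  GG (trE v E) p (v + a) (v + x) = GG E p a x ∧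
    Pr (trE v E) p (fun ω => con ω (v + a) (v + x)) = Pr E p (fun ω => con ω a x)

/-- plan 4.1 -/
def StCoefLoc : Prop := ∀ (d : ℕ) (p : ℝ) (n : ℕ) (E : Finset (Sym2 (Zd d))) (v x : Zd d),
  (E : Set (Sym2 (Zd d))) ⊆ latE d → trE v (Eb d n) ⊆ E → (GG E p v x).coeff n = tn d p n (x - v)

/-- supports -/
def StSupp : Prop := ∀ (d : ℕ) (p : ℝ) (n : ℕ) (x : Zd d), x ∉ bx d n → tn d p n x = 0 ∧ gm d p n x = 0

/-- recursion formula of `gm`, for all `m` -/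
def StGmEq : Prop := ∀ (d : ℕ) (p : ℝ) (m : ℕ) (x : Zd d),
  gm d p m x = tn d p m x - ∑ j ∈ Finset.range m, ∑ u ∈ bx d j, ∑ b ∈ nb u,
      gm d p j u * p * tn d p (m - 1 - j) (x - b)

/-- plan 4.2 -/
def StGcoef : Prop := ∀ (d : ℕ) (p : ℝ) (M m : ℕ) (E : Finset (Sym2 (Zd d))) (v x : Zd d),
  m ≤ M → (E : Set (Sym2 (Zd d))) ⊆ latE d → trE v (Eb d m) ⊆ E →
    (gE E p M v x).coeff m = gm d p m (x - v)

/-- plan 4.3 -/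
def StSymT : Prop := ∀ (d : ℕ) (p : ℝ) (n : ℕ), SymF (tn d p n)

/-- plan 4.3 -/
def StSymG : Prop := ∀ (d : ℕ) (p : ℝ) (n : ℕ), SymF (gm d p n)

/-- polynomial dependence on `p` -/
def StPoly : Prop := ∀ (d n : ℕ) (x : Zd d),
  (∃ P : ℝ[X], ∀ p : ℝ, tn d p n x = P.eval p) ∧ (∃ P : ℝ[X], ∀ p : ℝ, gm d p n x = P.eval p)

def StTnNonneg : Prop := ∀ (d : ℕ) (p : ℝ) (n : ℕ) (x : Zd d), 0 ≤ p → p ≤ 1 → 0 ≤ tn d p n x ∧ tn d p n x ≤ 1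

/-- values at `n = 0` -/
def StTn0 : Prop := ∀ (d : ℕ) (p : ℝ) (x : Zd d),
  (tn d p 0 x = if x = 0 then 1 else 0) ∧ (gm d p 0 x = if x = 0 then 1 else 0)

/-- plan 4.4 (i) -/
def StTauSum : Prop := ∀ (d : ℕ) (p : ℝ) (x : Zd d), 0 ≤ p → p ≤ 1 →
  tauE d p x = ∑' n : ℕ, ENNReal.ofReal (tn d p n x)

/-- plan 4.4 (ii) -/
def StTauDom : Prop := ∀ (d : ℕ) (p : ℝ) (E : Finset (Sym2 (Zd d))) (v x : Zd d), 0 ≤ p → p ≤ 1 →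
  (E : Set (Sym2 (Zd d))) ⊆ latE d → Pr E p (fun ω => con ω v x) ≤ tauE d p (x - v)

/-- plan 4.4 (iii) -/
def StTauMono : Prop := ∀ (d : ℕ) (p p' : ℝ) (x : Zd d), 0 ≤ p → p ≤ p' → p' ≤ 1 →
  tauE d p x ≤ tauE d p' x

def StTauBasic : Prop := ∀ (d : ℕ) (p : ℝ), 0 ≤ p → p ≤ 1 →
  (∀ x, tauE d p x ≤ 1) ∧ tauE d p 0 = 1 ∧ SymF (tau d p) ∧ (∀ x, ENNReal.ofReal (tau d p x) = tauE d p x) ∧
    (∀ x, 0 ≤ tau d p x ∧ tau d p x ≤ 1)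

/-- the weight -/
def StQw : Prop := ∀ (d : ℕ), (∀ x : Zd d, 2 ≤ Qw x) ∧ (∀ x y : Zd d, Qw (x + y) ≤ Qw x * Qw y) ∧
  (∀ x : Zd d, Qw (-x) = Qw x) ∧ (∀ x b : Zd d, b ∈ nb x → Qw (b - x) = 4)

/-- the weighted kernel of the lattice -/
noncomputable def Kd (d : ℕ) (p : ℝ) (x y : Zd d) : ENNReal :=
  ENNReal.ofReal (Qw (y - x)) * tauE d p (y - x)

/-- plan 4.5 -/
def StDiagZ : Prop := ∀ (d : ℕ) (p : ℝ) (B eps : ENNReal), 0 ≤ p → p ≤ 1 / 2 →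
  (∀ x y : Zd d, kp (Kd d p) 32 x y ≤ B) →
  (∀ x y : Zd d, ∑ b ∈ nb x, ENNReal.ofReal p * kp (Kd d p) 32 b y ≤ eps) →
  10 ^ 4 * B ^ 2 * eps ≤ 1 / 2 →
    ∑' m : ℕ, ∑' x : Zd d, (1 + (m : ENNReal)) * ENNReal.ofReal (Qw x) * ENNReal.ofReal |hm d p m x| ≤
      3 * 10 ^ 7 * B ^ 6 * eps

/-- the renewal identity for the coefficients -/
def StRenX : Prop := ∀ (d : ℕ) (p : ℝ) (m : ℕ) (x : Zd d),
  tn d p m x = gm d p m x + ∑ j ∈ Finset.range m, ∑ u ∈ bx d j, ∑ b ∈ nb u,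
      gm d p j u * p * tn d p (m - 1 - j) (x - b)

end Pool.LE
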