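import Pool.Agent.Helper84.LE.St1
import Pool.Agent.Helper84.LE.St2
import Pool.Agent.Helper84.LE.BNN

/-! LE module DiagZ (plan 4.5). -/

set_option autoImplicit false
open scoped BigOperators ENNReal Polynomial

namespace Pool.LE

namespace DiagZM

theorem trE_zero {d : ℕ} (E : Finset (Sym2 (Zd d))) : trE 0 E = E := by
  ext e
  unfold trE
  rw [Finset.mem_map]
  have h : ∀ a : Sym2 (Zd d), (Equiv.addLeft (0 : Zd d)).toEmbedding.sym2Map a = a := by
    intro a
    induction a using Sym2.ind with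
    | _ x y => simp [Function.Embedding.sym2Map]
  constructor
  · rintro ⟨a, ha, rfl⟩
    rwa [h a]
  · intro he
    exact ⟨e, he, h e⟩

theorem coeff_hm (hG : StGcoef) (hBox : StBox) (d : ℕ) (p : ℝ) (R m : ℕ) (hm' : m ≤ R) (x : Zd d) :
    (gE (Eb d R) p R 0 x - if x = 0 then 1 else 0).coeff m = hm d p m x := by
  have hb := hBox d
  obtain ⟨-, -, -, -, -, -, -, -, hlat, hmono, -⟩ := hb
  have h1 := hG d p R m (Eb d R) 0 x hm' (hlat _) (by rw [trE_zero]; exact hmono m R hm')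
  rw [sub_zero] at h1
  rw [Polynomial.coeff_sub, h1]
  unfold hm
  congr 1
  by_cases hx : x = 0
  · simp only [hx, if_true, and_true]
    rw [Polynomial.coeff_one]
  · simp [hx]

theorem tauE_neg {d : ℕ} {p : ℝ} (hp0 : 0 ≤ p) (hp1 : p ≤ 1) (hTB : StTauBasic) (x : Zd d) :
    tauE d p (-x) = tauE d p x := by
  obtain ⟨-, -, hsym, hof, -⟩ := hTB d p hp0 hp1
  rw [← hof, ← hof]
  congr 1
  have h1 := hsym (Equiv.refl _) (fun _ => -1) x
  have h2 : sgp (Equiv.refl _) (fun _ => -1) x = -x := by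
    funext i
    simp [sgp]
  rw [h2] at h1
  exact h1

theorem wk (hTB : StTauBasic) (hQ : StQw) (d : ℕ) (p : ℝ) (B : ENNReal) (hp0 : 0 ≤ p) (hp1 : p ≤ 1)
    (hB : ∀ x y : Zd d, kp (Kd d p) 32 x y ≤ B) :
    WK (fun x y : Zd d => tauE d p (y - x)) (Kd d p) (fun x y => ENNReal.ofReal (Qw (y - x))) B where
  one_le_q x y := by
    rw [← ENNReal.ofReal_one]
    exact ENNReal.ofReal_le_ofReal (by linarith [(hQ d).1 (y - x)])
  q_mul x y z := by
    rw [← ENNReal.ofReal_mul (by linarith [(hQ d).1 (y - x)])]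
    refine ENNReal.ofReal_le_ofReal ?_
    have h1 := (hQ d).2.1 (y - x) (z - y)
    have h2 : (y - x) + (z - y) = z - x := by abel
    rwa [h2] at h1
  le_K x y := le_rfl
  one_le_T x := by
    show 1 ≤ tauE d p (x - x)
    rw [sub_self, (hTB d p hp0 hp1).2.1]
  K_symm x y := by
    unfold Kd
    have h1 : x - y = -(y - x) := by abel
    rw [h1, (hQ d).2.2.1, tauE_neg hp0 hp1 hTB]
  le_B := hB

end DiagZM

open DiagZM in
theorem hDiagZ (hD : StDiag) (hG : StGcoef) (hTD : StTauDom) (hTB : StTauBasic) (hQ : StQw)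
    (hBox : StBox) : StDiagZ := by
  intro d p B eps hp0 hp1 hB heps hsmall
  have hp1' : p ≤ 1 := by linarith
  have hWK := wk hTB hQ d p B hp0 hp1' hB
  have hb := hBox d
  obtain ⟨-, -, -, -, -, -, -, hES, hlat, hmono, -⟩ := hb
  have key : ∀ R : ℕ, ∑' x : Zd d, ENNReal.ofReal (Qw (x - 0)) *
      NN (gE (Eb d R) p R 0 x - if x = 0 then 1 else 0) ≤ 3 * 10 ^ 7 * B ^ 6 * eps := by
    intro R
    refine hD (Zd d) (Eb d R) p (fun x y : Zd d => tauE d p (y - x)) (Kd d p)
      (fun x y => ENNReal.ofReal (Qw (y - x))) B eps nb hp0 hp1 ?_ ?_ hWK ?_ heps hsmall R 0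
    · intro x y
      exact hTD d p (Eb d R) x y hp0 hp1' (hlat _)
    · intro u b hub
      exact ((hES (bx d R) u b).1 hub).2.2
    · intro u b hub
      show ENNReal.ofReal (Qw (b - u)) ≤ 4
      rw [(hQ d).2.2.2 u b hub]
      norm_num
  rw [ENNReal.tsum_eq_iSup_nat]
  refine iSup_le fun R => ?_
  rw [← Summable.tsum_finsetSum (fun _ _ => ENNReal.summable)]
  refine le_trans (ENNReal.tsum_le_tsum fun x => ?_) (key R)
  rw [sub_zero]
  calc ∑ m ∈ Finset.range R, (1 + (m : ENNReal)) * ENNReal.ofReal (Qw x) * ENNReal.ofReal |hm d p m x|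
      = ENNReal.ofReal (Qw x) * ∑ m ∈ Finset.range R, (1 + (m : ENNReal)) *
          ENNReal.ofReal |(gE (Eb d R) p R 0 x - if x = 0 then 1 else 0).coeff m| := by
        rw [Finset.mul_sum]
        refine Finset.sum_congr rfl fun m hm' => ?_
        rw [coeff_hm hG hBox d p R m (Finset.mem_range.1 hm').le x]
        ring
    _ ≤ _ := mul_le_mul' le_rfl (sum_coeff_le_NN _ _)

end Pool.LE
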