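import Pool.Agent.Helper84.LE.St5

/-! Module Eta: the bound on the weighted norm of the expansion (plan section 7). -/

set_option autoImplicit false
open scoped BigOperators Topology
open MeasureTheory Filter

namespace Pool.LE

namespace EtaAux

theorem sgp_neg {d : ℕ} (x : Zd d) : sgp (1 : Equiv.Perm (Fin d)) (fun _ => -1) x = -x := by
  funext i
  unfold sgp
  simp

theorem Qw_neg {d : ℕ} (x : Zd d) : Qw (-x) = Qw x := by
  unfold Qw sq
  congr 2
  apply Finset.sum_congr rfl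
  intro i _
  rw [Pi.neg_apply]
  push_cast
  ring

theorem Qw_nonneg {d : ℕ} (x : Zd d) : 0 ≤ Qw x := by
  have h0 : 0 ≤ sq x := Finset.sum_nonneg fun _ _ => sq_nonneg _
  unfold Qw
  linarith

theorem ten4 : (10 ^ 4 : ENNReal) = ENNReal.ofReal (10 ^ 4) := by
  rw [ENNReal.ofReal_pow (by norm_num)]
  norm_num

theorem three7 : (3 * 10 ^ 7 : ENNReal) = ENNReal.ofReal (3 * 10 ^ 7) := by
  rw [ENNReal.ofReal_mul (by norm_num), ENNReal.ofReal_pow (by norm_num)]
  norm_num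

theorem half : (1 / 2 : ENNReal) = ENNReal.ofReal (1 / 2) := by
  rw [ENNReal.ofReal_div_of_pos (by norm_num)]
  norm_num

end EtaAux

open EtaAux

theorem hEta (hB1 : StB1) (hAE : StAE) (hKft : StKft) (hRW : StRW) (hKp : StKpInt)
    (hDZ : StDiagZ) (hTB : StTauBasic) (hDh : StDh) : StEta := by
  obtain ⟨C0, hC0, d1, hRW'⟩ := hRW 64
  set A : ℝ := 18 ^ 32 * C0 with hA
  have hA0 : 0 < A := by positivity
  refine ⟨9 * 10 ^ 7 * A ^ 7, by positivity,
    max (max d1 1) (⌈(6 * 10 ^ 4 * A ^ 3) ^ 2⌉₊), ?_⟩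
  intro d hd p hp0 hpH hBd
  have hd1 : d1 ≤ d := (le_max_left _ _).trans ((le_max_left _ _).trans hd)
  have hdpos : 0 < d := lt_of_lt_of_le Nat.zero_lt_one
    ((le_max_right _ _).trans ((le_max_left _ _).trans hd))
  have hdc : (6 * 10 ^ 4 * A ^ 3) ^ 2 ≤ (d : ℝ) :=
    (Nat.le_ceil _).trans (by exact_mod_cast (le_max_right _ _).trans hd)
  have hsq : 6 * 10 ^ 4 * A ^ 3 ≤ Real.sqrt d := by
    apply Real.le_sqrt_of_sq_le hdc
  have hsd : 0 < Real.sqrt d := Real.sqrt_pos.2 (by exact_mod_cast hdpos)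
  obtain ⟨hp2, hSQ, hchi, hFT0, hl0, hl1, -⟩ := hB1 d p hdpos hp0 hpH
  have hpone : p ≤ 1 := by linarith
  obtain ⟨-, -, hSym, htE, ht0⟩ := hTB d p hp0 hpone
  obtain ⟨hI1, hI2⟩ := hRW' d hd1 (lam d p) hl0 hl1
  -- the kernel
  set f : Zd d → ℝ := fun x => Qw x * tau d p x with hf
  have hf0 : ∀ x, 0 ≤ f x := fun x => mul_nonneg (Qw_nonneg x) (ht0 x).1
  have hfs : Summable f := by
    refine Summable.congr hSQ ?_
    intro x
    show Qw x * |tau d p x| = Qw x * tau d p x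
    rw [abs_of_nonneg (ht0 x).1]
  have hfe : EvenF f := by
    intro x
    show Qw (-x) * tau d p (-x) = Qw x * tau d p x
    have h1 := hSym 1 (fun _ => -1) x
    rw [sgp_neg] at h1
    rw [h1, Qw_neg]
  have hK : Kd d p = fun x y => ENNReal.ofReal (f (y - x)) := by
    funext x y
    unfold Kd
    rw [← htE (y - x), ← ENNReal.ofReal_mul (Qw_nonneg _)]
  have hDpos : ∀ k : Fin d → ℝ, 0 < 1 - lam d p * Dh k := fun k =>
    ((hDh d k hdpos).2.2.2 (lam d p) hl0 hl1).1
  have hpt : ∀ k : Fin d → ℝ, (∀ i, |k i| ≤ Real.pi) →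
      |FT f k| ^ 32 ≤ 18 ^ 32 * ((1 - lam d p * Dh k) ^ 64)⁻¹ := by
    intro k hk
    have h1 := hKft d p hdpos hp0 hpH hBd k hk
    have h2 : |FT f k| ^ 32 ≤ (18 * ((1 - lam d p * Dh k) ^ 2)⁻¹) ^ 32 :=
      pow_le_pow_left₀ (abs_nonneg _) h1 32
    refine h2.trans (le_of_eq ?_)
    rw [mul_pow, inv_pow, ← pow_mul]
  have hae := hAE d
  -- first bound
  have hJ1 : ∫⁻ k, ENNReal.ofReal (|FT f k| ^ 32) ∂(muT d) ≤ ENNReal.ofReal A := by
    calc ∫⁻ k, ENNReal.ofReal (|FT f k| ^ 32) ∂(muT d)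
        ≤ ∫⁻ k, ENNReal.ofReal (18 ^ 32) *
            ENNReal.ofReal (((1 - lam d p * Dh k) ^ 64)⁻¹) ∂(muT d) := by
          apply lintegral_mono_ae
          filter_upwards [hae] with k hk
          rw [← ENNReal.ofReal_mul (by positivity)]
          exact ENNReal.ofReal_le_ofReal (hpt k hk)
      _ = ENNReal.ofReal (18 ^ 32) *
            ∫⁻ k, ENNReal.ofReal (((1 - lam d p * Dh k) ^ 64)⁻¹) ∂(muT d) :=
          lintegral_const_mul' _ _ ENNReal.ofReal_ne_top
      _ ≤ ENNReal.ofReal (18 ^ 32) * ENNReal.ofReal C0 := mul_le_mul_right hI1 _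
      _ = ENNReal.ofReal A := by rw [← ENNReal.ofReal_mul (by positivity)]
  -- second bound
  have hJ2 : ∫⁻ k, ENNReal.ofReal (2 * d * |Dh k| * |FT f k| ^ 32) ∂(muT d) ≤
      ENNReal.ofReal (2 * d * (A / Real.sqrt d)) := by
    calc ∫⁻ k, ENNReal.ofReal (2 * d * |Dh k| * |FT f k| ^ 32) ∂(muT d)
        ≤ ∫⁻ k, ENNReal.ofReal (2 * d * 18 ^ 32) *
            ENNReal.ofReal (|Dh k| * ((1 - lam d p * Dh k) ^ 64)⁻¹) ∂(muT d) := by
          apply lintegral_mono_ae
          filter_upwards [hae] with k hk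
          rw [← ENNReal.ofReal_mul (by positivity)]
          apply ENNReal.ofReal_le_ofReal
          have h1 : 0 ≤ 2 * (d : ℝ) * |Dh k| := by positivity
          have h2 := mul_le_mul_of_nonneg_left (hpt k hk) h1
          refine h2.trans (le_of_eq ?_)
          ring
      _ = ENNReal.ofReal (2 * d * 18 ^ 32) *
            ∫⁻ k, ENNReal.ofReal (|Dh k| * ((1 - lam d p * Dh k) ^ 64)⁻¹) ∂(muT d) :=
          lintegral_const_mul' _ _ ENNReal.ofReal_ne_top
      _ ≤ ENNReal.ofReal (2 * d * 18 ^ 32) * ENNReal.ofReal (C0 / Real.sqrt d) :=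
          mul_le_mul_right hI2 _
      _ = ENNReal.ofReal (2 * d * (A / Real.sqrt d)) := by
          rw [← ENNReal.ofReal_mul (by positivity)]
          congr 1
          rw [hA]
          ring
  -- the hypotheses of the diagram bound
  have hB : ∀ x y : Zd d, kp (Kd d p) 32 x y ≤ ENNReal.ofReal A := by
    intro x y
    rw [hK]
    exact ((hKp d f hf0 hfs hfe 32 x y (by norm_num)).1).trans hJ1
  have hE : ∀ x y : Zd d, ∑ b ∈ nb x, ENNReal.ofReal p * kp (Kd d p) 32 b y ≤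
      ENNReal.ofReal (3 * A / Real.sqrt d) := by
    intro x y
    rw [hK, ← Finset.mul_sum]
    calc ENNReal.ofReal p * ∑ b ∈ nb x, kp (fun x y => ENNReal.ofReal (f (y - x))) 32 b y
        ≤ ENNReal.ofReal p * ENNReal.ofReal (2 * d * (A / Real.sqrt d)) :=
          mul_le_mul_right (((hKp d f hf0 hfs hfe 32 x y (by norm_num)).2).trans hJ2) _
      _ = ENNReal.ofReal (2 * d * p * (A / Real.sqrt d)) := by
          rw [← ENNReal.ofReal_mul hp0]
          congr 1
          ring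
      _ ≤ ENNReal.ofReal (3 * A / Real.sqrt d) := by
          apply ENNReal.ofReal_le_ofReal
          have h1 : 0 ≤ A / Real.sqrt d := by positivity
          have h2 := mul_le_mul_of_nonneg_right hBd.hp h1
          refine h2.trans (le_of_eq ?_)
          ring
  have hsmall : 10 ^ 4 * (ENNReal.ofReal A) ^ 2 * ENNReal.ofReal (3 * A / Real.sqrt d) ≤ 1 / 2 := by
    rw [ten4, half, ← ENNReal.ofReal_pow hA0.le, ← ENNReal.ofReal_mul (by positivity),
      ← ENNReal.ofReal_mul (by positivity)]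
    apply ENNReal.ofReal_le_ofReal
    have h1 : 10 ^ 4 * A ^ 2 * (3 * A / Real.sqrt d) = (6 * 10 ^ 4 * A ^ 3) / Real.sqrt d / 2 := by
      ring
    rw [h1]
    have h2 : (6 * 10 ^ 4 * A ^ 3) / Real.sqrt d ≤ 1 := by
      rw [div_le_one hsd]
      exact hsq
    linarith
  have hfin := hDZ d p (ENNReal.ofReal A) (ENNReal.ofReal (3 * A / Real.sqrt d)) hp0 hp2 hB hE hsmall
  unfold eta
  refine hfin.trans (le_of_eq ?_)
  rw [three7, ← ENNReal.ofReal_pow hA0.le, ← ENNReal.ofReal_mul (by positivity),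
    ← ENNReal.ofReal_mul (by positivity)]
  congr 1
  ring

end Pool.LE
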