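import Pool.Agent.Helper84.LE.St3

/-! Statements, part 4: sharpness (plan sections 6 and 10). -/

set_option autoImplicit false
open scoped BigOperators ENNReal
open MeasureTheory

namespace Pool.LE

/-! ### Section 6.1: φ < 1 implies exponential moments -/

/-- the `ℓ¹` norm of a lattice point -/
def n1 {d : ℕ} (x : Zd d) : ℕ := ∑ i, (x i).natAbs

/-- first exit: BK at the exit of a translate of `S` -/
def StExit : Prop := ∀ (d : ℕ) (p : ℝ) (S : Finset (Zd d)) (E : Finset (Sym2 (Zd d))) (v x : Zd d),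
  0 ≤ p → p ≤ 1 / 2 → 0 ∈ S → (E : Set (Sym2 (Zd d))) ⊆ latE d →
    Pr E p (fun ω => con ω v x) ≤ (if x - v ∈ S then 1 else 0) +
      ∑ y ∈ S, ∑ z ∈ nb y \ S, Pr (ES S) p (fun ω => con ω 0 y) * ENNReal.ofReal p *
        Pr E p (fun ω => con ω (v + z) x)

/-- exponential moment -/
def StExpMom : Prop := ∀ (d : ℕ) (p : ℝ) (S : Finset (Zd d)), 0 ≤ p → p ≤ 1 / 2 → 0 ∈ S →
  phiS d p S < 1 → ∃ r : ℝ, 1 < r ∧ ∑' x : Zd d, ENNReal.ofReal (r ^ n1 x) * tauE d p x < ⊤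

/-- polynomial weight against exponential weight -/
def StPolyExp : Prop := ∀ (d : ℕ) (r : ℝ), 1 < r → ∃ C : ℝ, ∀ x : Zd d, Qw x ≤ C * r ^ n1 x

/-- `phiS` is a continuous and monotone function of `p` -/
def StPhi : Prop := ∀ (d : ℕ) (S : Finset (Zd d)), ContinuousOn (fun p => phiS d p S) (Set.Icc 0 1) ∧
  ∀ p p' : ℝ, 0 ≤ p → p ≤ p' → p' ≤ 1 → phiS d p S ≤ phiS d p' S

/-- basic facts on `pH` -/
def StPH : Prop := ∀ (d : ℕ), 1 ≤ d → 0 < pH d ∧ pH d ≤ 1 / 2 ∧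
  (∀ p : ℝ, 0 ≤ p → p < pH d → ∃ S : Finset (Zd d), 0 ∈ S ∧ phiS d p S < 1) ∧
  (pH d < 1 / 2 → ∀ p : ℝ, pH d ≤ p → p ≤ 1 / 2 → ∀ S : Finset (Zd d), 0 ∈ S → 1 ≤ phiS d p S)

/-- subcritical summability -/
def StSub : Prop := ∀ (d : ℕ) (p : ℝ), 1 ≤ d → 0 ≤ p → p < pH d → SumQ (tau d p)

/-- the difference to a finite box -/
def StTauBox : Prop := ∀ (d R : ℕ) (p : ℝ) (x : Zd d), 0 ≤ p → p ≤ 1 → x ∈ bx d R →
  tauE d p x ≤ Pr (Eb d R) p (fun ω => con ω 0 x) + ∑ y ∈ (bx d (R + 1)) \ (bx d R), tauE d p y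

/-- continuity of `tau` for a fixed point -/
def StTauCont0 : Prop := ∀ (d : ℕ) (x : Zd d), 1 ≤ d → ContinuousOn (fun p => tau d p x) (Set.Ico 0 (pH d))

/-- plan 6.1: continuity in the weighted norm -/
def StTauCont : Prop := ∀ (d : ℕ), 1 ≤ d → ∀ p₀ : ℝ, 0 ≤ p₀ → p₀ < pH d → ∀ ε : ℝ, 0 < ε →
  ∃ δ : ℝ, 0 < δ ∧ ∀ p : ℝ, 0 ≤ p → p < pH d → |p - p₀| < δ →
    nQ (fun x => tau d p x - tau d p₀ x) ≤ ε

/-! ### Section 6.2: divergence of the susceptibility -/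

/-- summing over spheres -/
def StSphere : Prop := ∀ (d : ℕ) (p : ℝ) (n : ℕ), 1 ≤ d → 0 ≤ p → p ≤ 1 →
  ENNReal.ofReal (phiS d p (bx d (n + 1))) ≤
    ENNReal.ofReal (2 * d * p) * ∑ x ∈ bx d (n + 1) \ bx d n, tauE d p x

/-- `χ(pH) = ∞` -/
def StChiInf : Prop := ∀ (d : ℕ), 1 ≤ d → pH d < 1 / 2 → ∑' x : Zd d, tauE d (pH d) x = ⊤

/-- `χ(p) → ∞` as `p ↑ pH` -/
def StChiLim : Prop := ∀ (d : ℕ), 1 ≤ d → pH d < 1 / 2 → ∀ M : ℝ, ∃ p₁ : ℝ, 0 ≤ p₁ ∧ p₁ < pH d ∧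
  ∀ p : ℝ, p₁ ≤ p → p < pH d → M ≤ chi d p

/-- basic facts on `χ` -/
def StChi : Prop := ∀ (d : ℕ) (p : ℝ), 1 ≤ d → 0 ≤ p → p < pH d →
  Summable (tau d p) ∧ 1 ≤ chi d p ∧ chi d p = FT (tau d p) 0 ∧
    Summable (fun q : ℕ × Zd d => tn d p q.1 q.2) ∧ ∀ x, tau d p x = ∑' n, tn d p n x

/-! ### Section 10: above `pH` -/

/-- `0` is connected to the complement of the box -/
def Out {d : ℕ} (n : ℕ) (ω : Finset (Sym2 (Zd d))) : Prop := ∃ y : Zd d, y ∉ bx d n ∧ con ω 0 y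

/-- probability to leave the box -/
noncomputable def th (d n : ℕ) (p : ℝ) : ℝ := (Pr (Eb d (n + 1)) p (Out n)).toReal

open Classical in
/-- Russo's formula -/
def StRusso : Prop := ∀ (V : Type) [DecidableEq V] (E : Finset (Sym2 V)) (A : Finset (Sym2 V) → Prop),
  (∀ ω η : Finset (Sym2 V), ω ⊆ η → A ω → A η) → ∀ p : ℝ, 0 < p → p < 1 →
    ∃ D : ℝ, HasDerivAt (fun q : ℝ => Ex E q (fun ω => if A ω then (1 : ℝ) else 0)) D p ∧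
      Ex E p (fun ω => ∑ e ∈ E, if ¬ A ω ∧ A (insert e ω) then (1 : ℝ) else 0) ≤ D

/-- the set of points of the box not connected to the outside -/
def StPivCount : Prop := ∀ (d n : ℕ) (p c : ℝ), 1 ≤ d → 0 < p → p ≤ 1 →
  (∀ S : Finset (Zd d), 0 ∈ S → S ⊆ bx d n → c ≤ phiS d p S) → 0 ≤ c →
    ENNReal.ofReal c * (1 - Pr (Eb d (n + 1)) p (Out n)) ≤
      ENNReal.ofReal p * ExE (Eb d (n + 1)) p (fun ω =>
        (({e ∈ Eb d (n + 1) | ¬ Out n ω ∧ Out n (insert e ω)} : Set (Sym2 (Zd d))).ncard : ENNReal))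

/-- plan section 10 -/
def StTheta : Prop := ∀ (d : ℕ), 1 ≤ d → pH d < 1 / 2 → ∀ (n : ℕ) (p : ℝ), pH d ≤ p → p ≤ 1 / 2 →
  1 - Real.exp (-2 * (p - pH d)) ≤ th d n p

/-- subcritical: `th → 0` -/
def StThetaSub : Prop := ∀ (d : ℕ) (p : ℝ), 1 ≤ d → 0 ≤ p → p < pH d →
  Filter.Tendsto (fun n => th d n p) Filter.atTop (nhds 0)

end Pool.LE
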