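import Pool.Agent.Helper84.LE.St1
import Pool.Agent.Helper84.LE.St4
import Pool.Agent.Helper84.LE.BGR
import Pool.Agent.Helper84.LE.BWT

/-! LE module Exit (plan 6.1): BK at the first exit from a translate of `S`. -/

set_option autoImplicit false

namespace Pool.LE

namespace MExit

section

variable {V : Type} [DecidableEq V]

/-- first exit of a walk from a set of vertices -/
theorem exit_walk {ω : Finset (Sym2 V)} (P : V → Prop) : ∀ {a x : V} (q : (gr ω).Walk a x),
    P a → ¬ P x → ∃ y z, P y ∧ ¬ P z ∧ s(y, z) ∈ ω ∧ ∃ (q1 : (gr ω).Walk a y)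
      (q2 : (gr ω).Walk z x), q.edges = q1.edges ++ s(y, z) :: q2.edges ∧
        ∀ w ∈ q1.support, P w := by
  intro a x q
  induction q with
  | nil => intro h1 h2; exact absurd h1 h2
  | @cons u v w hadj r ih =>
    intro h1 h2
    by_cases hv : P v
    · obtain ⟨y, z, hy, hz, hm, q1, q2, he, hs⟩ := ih hv h2
      refine ⟨y, z, hy, hz, hm, SimpleGraph.Walk.cons hadj q1, q2, ?_, ?_⟩
      · rw [SimpleGraph.Walk.edges_cons, SimpleGraph.Walk.edges_cons, he, List.cons_append]
      · intro w' hw'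
        rw [SimpleGraph.Walk.support_cons, List.mem_cons] at hw'
        rcases hw' with rfl | hw'
        · exact h1
        · exact hs w' hw'
    · refine ⟨u, v, h1, hv, (gr_adj.1 hadj).1, SimpleGraph.Walk.nil, r, ?_, ?_⟩
      · rw [SimpleGraph.Walk.edges_cons, SimpleGraph.Walk.edges_nil, List.nil_append]
      · intro w' hw'
        rw [SimpleGraph.Walk.support_nil, List.mem_singleton] at hw'
        rw [hw']; exact h1

theorem Pr_edge {E : Finset (Sym2 V)} {p : ℝ} (h0 : 0 ≤ p) (h1 : p ≤ 1) (e : Sym2 V) :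
    Pr E p (fun ω => e ∈ ω) ≤ ENNReal.ofReal p := by
  by_cases he : e ∈ E
  · have hE : E = insert e (E.erase e) := (Finset.insert_erase he).symm
    rw [hE, Pr_insert (Finset.notMem_erase e E) h0 h1]
    have h2 : Pr (E.erase e) p (fun ω => e ∈ ω) = 0 := by
      unfold Pr
      rw [ExE_congr (g := fun _ => 0) (fun ω hω => by
        rw [if_neg (fun h => Finset.notMem_erase e E (hω h))])]
      exact ExE_const h0 h1 _ 0
    rw [h2, mul_zero, zero_add]
    calc ENNReal.ofReal p * Pr (E.erase e) p (fun ω => e ∈ insert e ω)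
        ≤ ENNReal.ofReal p * 1 := mul_le_mul_right (Pr_le_one h0 h1 _ _) _
      _ = ENNReal.ofReal p := mul_one _
  · have h2 : Pr E p (fun ω => e ∈ ω) = 0 := by
      unfold Pr
      rw [ExE_congr (g := fun _ => 0) (fun ω hω => by rw [if_neg (fun h => he (hω h))])]
      exact ExE_const h0 h1 _ 0
    rw [h2]
    exact zero_le

theorem Pr_finset_le {ι : Type} {E : Finset (Sym2 V)} {p : ℝ} (A : ι → Finset (Sym2 V) → Prop)
    (s : Finset ι) : Pr E p (fun ω => ∃ i ∈ s, A i ω) ≤ ∑ i ∈ s, Pr E p (A i) := by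
  classical
  unfold Pr
  rw [← ExE_sum]
  refine ExE_mono fun ω _ => ?_
  by_cases hA : ∃ i ∈ s, A i ω
  · rw [if_pos hA]
    obtain ⟨i, hi, hAi⟩ := hA
    refine le_trans ?_ (Finset.single_le_sum (f := fun i => if A i ω then (1 : ENNReal) else 0)
      (fun _ _ => zero_le) hi)
    simp only [if_pos hAi, le_refl]
  · rw [if_neg hA]
    exact zero_le

theorem Pr_inter_le {E F : Finset (Sym2 V)} {p : ℝ} (h0 : 0 ≤ p) (h1 : p ≤ 1)
    {A : Finset (Sym2 V) → Prop} (hA : Inc A) : Pr E p (fun ω => A (ω ∩ F)) ≤ Pr F p A := by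
  classical
  have h2 : Pr E p (fun ω => A (ω ∩ F)) = Pr (E ∩ F) p A := by
    have h3 : Pr E p (fun ω => A (ω ∩ F)) = Pr E p (fun ω => A (ω ∩ (E ∩ F))) := by
      unfold Pr
      refine ExE_congr fun ω hω => ?_
      have : ω ∩ F = ω ∩ (E ∩ F) := by
        rw [← Finset.inter_assoc, Finset.inter_eq_left.2 hω]
      simp only [this]
    rw [h3]
    unfold Pr
    exact ExE_inter Finset.inter_subset_left h0 h1 (fun ω => if A ω then 1 else 0)
  rw [h2]
  exact Pr_mono_edges Finset.inter_subset_right h0 h1 hA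

end

end MExit

open MExit in
theorem hExit (hBK : StBK) (hT : StTransl) (hBox : StBox) : StExit := by
  intro d p S E v x h0 h1 h0S hE
  classical
  have hp1 : p ≤ 1 := by linarith
  by_cases hx : x - v ∈ S
  · rw [if_pos hx]
    exact le_add_right (Pr_le_one h0 hp1 _ _)
  rw [if_neg hx, zero_add]
  obtain ⟨-, -, -, -, -, bE, -, bS, -⟩ := hBox d
  obtain ⟨-, -, bnb, -, bT, -⟩ := hBox d
  -- the deterministic statement
  have key : Pr E p (fun ω => con ω v x) ≤ Pr E p (fun ω => ∃ y ∈ S, ∃ z ∈ nb y \ S,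
      ∃ η ⊆ ω, con (η ∩ trE v (ES S)) v (v + y) ∧
        ∃ η' ⊆ ω \ η, s(v + y, v + z) ∈ η' ∧ con ((ω \ η) \ η') (v + z) x) := by
    refine Pr_mono fun ω hω hc => ?_
    obtain ⟨q0⟩ := hc
    obtain ⟨q, hq⟩ : ∃ q : (gr ω).Walk v x, q.IsPath := ⟨q0.bypass, q0.bypass_isPath⟩
    obtain ⟨y', z', hy, hz, hm, q1, q2, he, hs⟩ := exit_walk (fun w => w - v ∈ S) q
      (by simpa using h0S) hx
    have hnb : ∀ a b : Zd d, s(a, b) ∈ ω → b ∈ nb a := fun a b h => by
      have h3 := hE (Finset.mem_coe.2 (hω h))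
      exact (bE a b).1 h3
    have hnd := hq.isTrail.edges_nodup
    rw [he, List.nodup_append] at hnd
    obtain ⟨hnd1, hnd2, hnd3⟩ := hnd
    rw [List.nodup_cons] at hnd2
    refine ⟨y' - v, hy, z' - v, Finset.mem_sdiff.2 ⟨?_, hz⟩, q1.edges.toFinset, ?_, ?_,
      {s(y', z')}, ?_, ?_, ?_⟩
    · have h3 := (bT y' z' (-v)).1 (hnb y' z' hm)
      have e1 : -v + z' = z' - v := by abel
      have e2 : -v + y' = y' - v := by abel
      rwa [e1, e2] at h3
    · intro e h3
      rw [List.mem_toFinset] at h3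
      exact mem_edges_gr q1 h3
    · have e1 : v + (y' - v) = y' := by abel
      rw [e1]
      obtain ⟨q1', -⟩ := exists_walk_of_edges (η := q1.edges.toFinset ∩ trE v (ES S)) q1 (by
        intro e h3
        refine Finset.mem_inter.2 ⟨List.mem_toFinset.2 h3, ?_⟩
        have h4 := mem_edges_gr q1 h3
        induction e using Sym2.ind with
        | _ a b =>
          have ha := hs a (q1.fst_mem_support_of_mem_edges h3)
          have hb := hs b (q1.snd_mem_support_of_mem_edges h3)
          have hab := (bT a b (-v)).1 (hnb a b h4)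
          have e1 : -v + b = b - v := by abel
          have e2 : -v + a = a - v := by abel
          rw [e1, e2] at hab
          have h5 : s(a - v, b - v) ∈ ES S := (bS S (a - v) (b - v)).2 ⟨ha, hb, hab⟩
          unfold trE
          rw [Finset.mem_map]
          refine ⟨s(a - v, b - v), h5, ?_⟩
          simp)
      exact ⟨q1'⟩
    · rw [Finset.singleton_subset_iff, Finset.mem_sdiff]
      refine ⟨hm, fun h3 => ?_⟩
      rw [List.mem_toFinset] at h3
      exact hnd3 _ h3 _ List.mem_cons_self rfl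
    · rw [Finset.mem_singleton]
      have e1 : v + (y' - v) = y' := by abel
      have e2 : v + (z' - v) = z' := by abel
      rw [e1, e2]
    · have e2 : v + (z' - v) = z' := by abel
      rw [e2]
      obtain ⟨q2', -⟩ := exists_walk_of_edges (η := (ω \ q1.edges.toFinset) \ {s(y', z')}) q2 (by
        intro e h3
        rw [Finset.mem_sdiff, Finset.mem_sdiff, List.mem_toFinset, Finset.mem_singleton]
        refine ⟨⟨mem_edges_gr q2 h3, fun h4 => ?_⟩, fun h4 => ?_⟩
        · exact hnd3 _ h4 _ (List.mem_cons_of_mem _ h3) rfl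
        · rw [h4] at h3
          exact hnd2.1 h3)
      exact ⟨q2'⟩
  refine key.trans ((Pr_finset_le (fun y ω => ∃ z ∈ nb y \ S,
      ∃ η ⊆ ω, con (η ∩ trE v (ES S)) v (v + y) ∧
        ∃ η' ⊆ ω \ η, s(v + y, v + z) ∈ η' ∧ con ((ω \ η) \ η') (v + z) x) S).trans ?_)
  refine Finset.sum_le_sum fun y hy => ?_
  refine (Pr_finset_le (fun z ω => ∃ η ⊆ ω, con (η ∩ trE v (ES S)) v (v + y) ∧
        ∃ η' ⊆ ω \ η, s(v + y, v + z) ∈ η' ∧ con ((ω \ η) \ η') (v + z) x) _).trans ?_
  refine Finset.sum_le_sum fun z hz => ?_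
  -- BK twice
  have hB := hBK (Zd d) E p h0 h1 (fun η => con (η ∩ trE v (ES S)) v (v + y))
    (fun ω => ∃ η' ⊆ ω, s(v + y, v + z) ∈ η' ∧ con (ω \ η') (v + z) x)
    (fun ω η h hc => con_mono (Finset.inter_subset_inter_right h) hc)
    (fun ω η h hc => by
      obtain ⟨η', h3, h4, h5⟩ := hc
      exact ⟨η', h3.trans h, h4, con_mono (Finset.sdiff_subset_sdiff h (le_refl _)) h5⟩)
  have hB2 := hBK (Zd d) E p h0 h1 (fun η => s(v + y, v + z) ∈ η) (fun ω => con ω (v + z) x)
    (fun ω η h hc => h hc) (fun ω η h hc => con_mono h hc)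
  have hA : Pr E p (fun ω => con (ω ∩ trE v (ES S)) v (v + y)) ≤
      Pr (ES S) p (fun ω => con ω 0 y) := by
    have h3 := Pr_inter_le (E := E) (F := trE v (ES S)) h0 hp1
      (A := fun ω => con ω v (v + y)) (fun ω η h hc => con_mono h hc)
    have h4 := (hT d p (ES S) v 0 y).2
    rw [add_zero] at h4
    rw [← h4]
    exact h3
  refine hB.trans ?_
  rw [mul_assoc]
  refine mul_le_mul' hA (hB2.trans (mul_le_mul' (Pr_edge h0 hp1 _) (le_refl _)))

end Pool.LE
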