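import Pool.Agent.Helper84.LE.St1

/-! Module Exp: the expansion in `N` steps (plan 2.4) and the divisibility of the remainder. -/

set_option autoImplicit false
open scoped BigOperators Polynomial
open Polynomial

namespace Pool.LE

namespace MExp

variable {V : Type} [DecidableEq V]

theorem Ex_add (E : Finset (Sym2 V)) (p : ℝ) (f g : Finset (Sym2 V) → ℝ[X]) :
    Ex E p (fun ω => f ω + g ω) = Ex E p f + Ex E p g := by
  simp only [Ex, smul_add, Finset.sum_add_distrib]

theorem Ex_zero (E : Finset (Sym2 V)) (p : ℝ) :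
    Ex E p (fun _ => (0 : ℝ[X])) = 0 := by
  simp [Ex]

theorem Ex_mul (E : Finset (Sym2 V)) (p : ℝ) (f : Finset (Sym2 V) → ℝ[X]) (P : ℝ[X]) :
    Ex E p (fun ω => f ω * P) = Ex E p f * P := by
  simp only [Ex, Finset.sum_mul, smul_mul_assoc]

theorem Ex_sum {ι : Type} (E : Finset (Sym2 V)) (p : ℝ) (s : Finset ι)
    (f : ι → Finset (Sym2 V) → ℝ[X]) :
    Ex E p (fun ω => ∑ i ∈ s, f i ω) = ∑ i ∈ s, Ex E p (f i) := by
  simp only [Ex, Finset.smul_sum]
  exact Finset.sum_comm

theorem LL_add (E : Finset (Sym2 V)) (p : ℝ) (Φ Ψ : Set V → V → V → ℝ[X]) :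
    LL E p (Φ + Ψ) = LL E p Φ + LL E p Ψ := by
  funext A v x
  simp only [LL, Pi.add_apply, mul_add, Ex_add, Finset.sum_add_distrib]

/-- `LL` as an additive homomorphism -/
noncomputable def LLh (E : Finset (Sym2 V)) (p : ℝ) :
    (Set V → V → V → ℝ[X]) →+ (Set V → V → V → ℝ[X]) :=
  AddMonoidHom.mk' (LL E p) (LL_add E p)

theorem LLh_apply (E : Finset (Sym2 V)) (p : ℝ) (Φ : Set V → V → V → ℝ[X]) :
    LLh E p Φ = LL E p Φ := rfl

theorem LLh_iter (E : Finset (Sym2 V)) (p : ℝ) (n : ℕ) :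
    (LLh E p : (Set V → V → V → ℝ[X]) → _)^[n] = (LL E p)^[n] := rfl

theorem iter_add (E : Finset (Sym2 V)) (p : ℝ) (n : ℕ) (Φ Ψ : Set V → V → V → ℝ[X]) :
    (LL E p)^[n] (Φ + Ψ) = (LL E p)^[n] Φ + (LL E p)^[n] Ψ := by
  rw [← LLh_iter]
  exact iterate_map_add (LLh E p) n Φ Ψ

theorem iter_sub (E : Finset (Sym2 V)) (p : ℝ) (n : ℕ) (Φ Ψ : Set V → V → V → ℝ[X]) :
    (LL E p)^[n] (Φ - Ψ) = (LL E p)^[n] Φ - (LL E p)^[n] Ψ := by
  rw [← LLh_iter]
  exact iterate_map_sub (LLh E p) n Φ Ψ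

/-- the full two-point function, as a kernel -/
noncomputable def G0 (E : Finset (Sym2 V)) (p : ℝ) : Set V → V → V → ℝ[X] := fun _ b x => GG E p b x

theorem DD_eq (hStep : StStep) (E : Finset (Sym2 V)) (p : ℝ) :
    DD E p = WW E p + LL E p (G0 E p) - LL E p (DD E p) := by
  have h1 : GA E p = G0 E p - DD E p := by
    funext A v x
    simp only [G0, DD, Pi.sub_apply]
    ring
  have h2 : LL E p (GA E p) = LL E p (G0 E p) - LL E p (DD E p) := by
    rw [h1]
    exact iter_sub E p 1 _ _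
  have h3 : DD E p = WW E p + LL E p (GA E p) := by
    funext A v x
    exact hStep V E p A v x
  rw [h2] at h3
  conv_lhs => rw [h3]
  abel

theorem expand (hStep : StStep) (E : Finset (Sym2 V)) (p : ℝ) (M : ℕ) (A : Set V) (v x : V) :
    DD E p A v x = ∑ N ∈ Finset.range (M + 1), (-1) ^ N *
      (((LL E p)^[N] (WW E p)) A v x + ((LL E p)^[N] (LL E p (G0 E p))) A v x) +
      (-1) ^ (M + 1) * ((LL E p)^[M + 1] (DD E p)) A v x := by
  induction M with
  | zero =>
    have h := congrFun (congrFun (congrFun (DD_eq hStep E p) A) v) x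
    rw [h]
    simp only [Pi.sub_apply, Pi.add_apply, Finset.range_one, Finset.sum_singleton, pow_zero,
      Function.iterate_zero, id, Function.iterate_one, zero_add, pow_one, one_mul]
    ring
  | succ M ih =>
    rw [ih, Finset.sum_range_succ _ (M + 1)]
    have h : (LL E p)^[M + 1] (DD E p) = (LL E p)^[M + 1] (WW E p) +
        (LL E p)^[M + 1] (LL E p (G0 E p)) - (LL E p)^[M + 1 + 1] (DD E p) := by
      conv_lhs => rw [DD_eq hStep E p]
      rw [iter_sub, iter_add, ← Function.iterate_succ_apply (LL E p) (M + 1) (DD E p)]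
    have h' := congrFun (congrFun (congrFun h A) v) x
    simp only [Pi.sub_apply, Pi.add_apply] at h'
    rw [h']
    ring

theorem iter_G0 (E : Finset (Sym2 V)) (p : ℝ) (N : ℕ) (A : Set V) (v x : V) :
    ((LL E p)^[N] (LL E p (G0 E p))) A v x =
      ∑ ub ∈ drt E, ((LL E p)^[N] (WW E p)) A v ub.1 * (C p * X) * GG E p ub.2 x := by
  induction N generalizing A v x with
  | zero =>
    simp only [Function.iterate_zero, id, LL, G0, WW]
    refine Finset.sum_congr rfl fun ub _ => ?_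
    rw [mul_assoc, ← Ex_mul]
    congr 1
    funext ω
    ring
  | succ N ih =>
    rw [Function.iterate_succ_apply', Function.iterate_succ_apply']
    have h1 : ∀ cd : V × V, Ex E p (fun ω => C p * X * wA ω A v cd.1 *
        ((LL E p)^[N] (LL E p (G0 E p))) (cl ω cd.1 cd.2 v) cd.2 x) =
        ∑ ub ∈ drt E, Ex E p (fun ω => C p * X * wA ω A v cd.1 *
          ((LL E p)^[N] (WW E p)) (cl ω cd.1 cd.2 v) cd.2 ub.1) * (C p * X) * GG E p ub.2 x := by
      intro cd
      have h2 : (fun ω => C p * X * wA ω A v cd.1 *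
          ((LL E p)^[N] (LL E p (G0 E p))) (cl ω cd.1 cd.2 v) cd.2 x) =
          fun ω => ∑ ub ∈ drt E, (C p * X * wA ω A v cd.1 *
            ((LL E p)^[N] (WW E p)) (cl ω cd.1 cd.2 v) cd.2 ub.1) *
              ((C p * X) * GG E p ub.2 x) := by
        funext ω
        rw [ih, Finset.mul_sum]
        exact Finset.sum_congr rfl fun ub _ => by ring
      rw [h2, Ex_sum]
      exact Finset.sum_congr rfl fun ub _ => by rw [Ex_mul]; ring
    change ∑ cd ∈ drt E, Ex E p (fun ω => C p * X * wA ω A v cd.1 *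
        ((LL E p)^[N] (LL E p (G0 E p))) (cl ω cd.1 cd.2 v) cd.2 x) =
      ∑ ub ∈ drt E, (∑ cd ∈ drt E, Ex E p (fun ω => C p * X * wA ω A v cd.1 *
        ((LL E p)^[N] (WW E p)) (cl ω cd.1 cd.2 v) cd.2 ub.1)) * (C p * X) * GG E p ub.2 x
    rw [Finset.sum_congr rfl fun cd _ => h1 cd, Finset.sum_comm]
    exact Finset.sum_congr rfl fun ub _ => by rw [Finset.sum_mul, Finset.sum_mul]

end MExp

open MExp

theorem hExp (hStep : StStep) : StExp := by
  intro V _ E p M v x
  have h1 := expand hStep E p M {v} v x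
  have h2 : DD E p {v} v x = GG E p v x := by
    have : GA E p {v} v x = 0 := by
      have h3 : (fun ω : Finset (Sym2 V) => monA ω {v} v x) = fun _ => 0 := by
        funext ω
        simp [monA]
      rw [GA, h3]
      exact Ex_zero E p
    rw [DD, this, sub_zero]
  rw [h2] at h1
  rw [h1]
  congr 1
  simp only [gE, mul_add, Finset.sum_add_distrib, iter_G0]
  congr 1
  simp only [Finset.mul_sum, Finset.sum_mul]
  rw [Finset.sum_comm]
  exact Finset.sum_congr rfl fun ub _ => Finset.sum_congr rfl fun N _ => by ring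

theorem hDvd : StDvd := by
  intro V _ E p M Φ A v x
  induction M generalizing A v x with
  | zero => simp
  | succ M ih =>
    rw [Function.iterate_succ_apply']
    change _ ∣ ∑ ub ∈ drt E, Ex E p (fun ω => C p * X * wA ω A v ub.1 *
      ((LL E p)^[M] Φ) (cl ω ub.1 ub.2 v) ub.2 x)
    refine Finset.dvd_sum fun ub _ => ?_
    rw [Ex]
    refine Finset.dvd_sum fun ω _ => ?_
    rw [smul_eq_C_mul]
    refine Dvd.dvd.mul_left ?_ _
    obtain ⟨c, hc⟩ := ih (cl ω ub.1 ub.2 v) ub.2 x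
    rw [hc]
    exact ⟨C p * wA ω A v ub.1 * c, by ring⟩

end Pool.LE
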