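import Pool.Agent.Helper84.LE.St4
import Pool.Agent.Helper84.LE.BGR
import Pool.Agent.Helper84.LE.BWT

/-! MP_e167eb: exponential moments of the subcritical connection probability (plan 6.1). -/

set_option autoImplicit false
open scoped BigOperators ENNReal
open MeasureTheory

namespace Pool.LE

namespace EM

theorem n1_add {d : ℕ} (x y : Zd d) : n1 (x + y) ≤ n1 x + n1 y := by
  unfold n1
  rw [← Finset.sum_add_distrib]
  exact Finset.sum_le_sum fun i _ => Int.natAbs_add_le _ _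

/-- the weighted sum of the connection probabilities of a finite graph -/
noncomputable def mE {d : ℕ} (ρ : ENNReal) (E : Finset (Sym2 (Zd d))) (p : ℝ) (v : Zd d) : ENNReal :=
  ∑' x : Zd d, ρ ^ n1 (x - v) * Pr E p (fun ω => con ω v x)

/-- the weighted version of `phiS` -/
noncomputable def Ph {d : ℕ} (ρ : ENNReal) (p : ℝ) (S : Finset (Zd d)) : ENNReal :=
  ∑ y ∈ S, ∑ z ∈ nb y \ S, Pr (ES S) p (fun ω => con ω 0 y) * ENNReal.ofReal p * ρ ^ n1 z

theorem mE_le {d : ℕ} (hE : StExit) {ρ : ENNReal} (hρ : 1 ≤ ρ) {p : ℝ} (h0 : 0 ≤ p) (h1 : p ≤ 1 / 2)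
    {S : Finset (Zd d)} (hS : 0 ∈ S) {E : Finset (Sym2 (Zd d))}
    (hL : (E : Set (Sym2 (Zd d))) ⊆ latE d) (v : Zd d) :
    mE ρ E p v ≤ ∑ y ∈ S, ρ ^ n1 y + Ph ρ p S * ⨆ u, mE ρ E p u := by
  have h2 : ∀ x : Zd d, ρ ^ n1 (x - v) * Pr E p (fun ω => con ω v x) ≤
      ρ ^ n1 (x - v) * (if x - v ∈ S then 1 else 0) +
      ∑ y ∈ S, ∑ z ∈ nb y \ S, Pr (ES S) p (fun ω => con ω 0 y) * ENNReal.ofReal p *
        (ρ ^ n1 z * (ρ ^ n1 (x - (v + z)) * Pr E p (fun ω => con ω (v + z) x))) := by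
    intro x
    refine (mul_le_mul_right (hE d p S E v x h0 h1 hS hL) _).trans ?_
    rw [mul_add, Finset.mul_sum]
    refine add_le_add (le_refl _) (Finset.sum_le_sum fun y hy => ?_)
    rw [Finset.mul_sum]
    refine Finset.sum_le_sum fun z hz => ?_
    have h5 : ρ ^ n1 (x - v) ≤ ρ ^ n1 z * ρ ^ n1 (x - (v + z)) := by
      rw [← pow_add]
      refine pow_le_pow_right₀ hρ ?_
      have h3 : x - v = z + (x - (v + z)) := by abel
      calc n1 (x - v) = n1 (z + (x - (v + z))) := by rw [← h3]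
        _ ≤ _ := n1_add _ _
    calc ρ ^ n1 (x - v) * (Pr (ES S) p (fun ω => con ω 0 y) * ENNReal.ofReal p *
          Pr E p (fun ω => con ω (v + z) x))
        = Pr (ES S) p (fun ω => con ω 0 y) * ENNReal.ofReal p *
          (ρ ^ n1 (x - v) * Pr E p (fun ω => con ω (v + z) x)) := by ring
      _ ≤ Pr (ES S) p (fun ω => con ω 0 y) * ENNReal.ofReal p *
          (ρ ^ n1 z * ρ ^ n1 (x - (v + z)) * Pr E p (fun ω => con ω (v + z) x)) := by
        gcongr
      _ = _ := by ring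
  unfold mE
  refine (ENNReal.tsum_le_tsum h2).trans ?_
  rw [ENNReal.tsum_add]
  gcongr
  · rw [← (Equiv.addRight v).tsum_eq]
    simp only [Equiv.coe_addRight, add_sub_cancel_right]
    rw [tsum_eq_sum (s := S)]
    · exact Finset.sum_le_sum fun y hy => by rw [if_pos hy, mul_one]
    · intro y hy
      rw [if_neg hy, mul_zero]
  · rw [Summable.tsum_finsetSum (fun _ _ => ENNReal.summable)]
    unfold Ph
    rw [Finset.sum_mul]
    gcongr with y hy
    rw [Summable.tsum_finsetSum (fun _ _ => ENNReal.summable), Finset.sum_mul]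
    gcongr with z hz
    rw [ENNReal.tsum_mul_left, ENNReal.tsum_mul_left, mul_assoc, mul_assoc, mul_assoc]
    gcongr
    exact le_iSup (fun u => ∑' x : Zd d, ρ ^ n1 (x - u) * Pr E p (fun ω => con ω u x)) (v + z)

theorem mE_fin {d : ℕ} {ρ : ENNReal} (hρ : ρ ≠ ⊤) {p : ℝ} (h0 : 0 ≤ p) (h1 : p ≤ 1)
    (E : Finset (Sym2 (Zd d))) : (⨆ u, mE ρ E p u) ≠ ⊤ := by
  classical
  set W : Finset (Zd d) := E.biUnion fun e => e.toFinset with hW
  have hmem : ∀ (ω : Finset (Sym2 (Zd d))), ω ⊆ E → ∀ v x, con ω v x → v ≠ x → v ∈ W := by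
    intro ω hω v x hc hne
    obtain ⟨b, -, hb, -⟩ := con_cases hc hne
    rw [hW, Finset.mem_biUnion]
    exact ⟨s(v, b), hω hb, Sym2.mem_toFinset.2 (Sym2.mem_mk_left v b)⟩
  have h2 : ∀ v : Zd d, mE ρ E p v ≤ 1 + ∑ u ∈ W, ∑ x ∈ W, ρ ^ n1 (x - u) := by
    intro v
    have h3 : ∀ x : Zd d, ρ ^ n1 (x - v) * Pr E p (fun ω => con ω v x) ≤
        (if x = v then 1 else 0) + if v ∈ W ∧ x ∈ W then ρ ^ n1 (x - v) else 0 := by
      intro x
      by_cases hx : x = v
      · rw [if_pos hx, hx, sub_self]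
        have h4 : n1 (0 : Zd d) = 0 := by
          unfold n1
          simp
        rw [h4, pow_zero, one_mul]
        exact (Pr_le_one h0 h1 _ _).trans le_self_add
      · rw [if_neg hx, zero_add]
        by_cases hw : v ∈ W ∧ x ∈ W
        · rw [if_pos hw]
          exact mul_le_of_le_one_right zero_le (Pr_le_one h0 h1 _ _)
        · rw [if_neg hw]
          have h4 : Pr E p (fun ω => con ω v x) = 0 := by
            unfold Pr ExE
            refine Finset.sum_eq_zero fun ω hω => ?_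
            refine (congrArg _ (if_neg ?_)).trans (mul_zero _)
            intro hc
            apply hw
            have hω' := Finset.mem_powerset.1 hω
            exact ⟨hmem ω hω' v x hc (fun h => hx h.symm), hmem ω hω' x v (con_symm hc) hx⟩
          rw [h4, mul_zero]
    unfold mE
    refine (ENNReal.tsum_le_tsum h3).trans ?_
    rw [ENNReal.tsum_add]
    gcongr
    · rw [tsum_ite_eq]
    · rw [tsum_eq_sum (s := W)]
      · by_cases hv : v ∈ W
        · refine le_trans ?_ (Finset.single_le_sum (f := fun u => ∑ x ∈ W, ρ ^ n1 (x - u))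
            (fun _ _ => zero_le) hv)
          refine Finset.sum_le_sum fun x hx => ?_
          rw [if_pos ⟨hv, hx⟩]
        · refine le_trans (le_of_eq ?_) zero_le
          exact Finset.sum_eq_zero fun x _ => if_neg fun h => hv h.1
      · intro x hx
        exact if_neg fun h => hx h.2
  refine ne_top_of_le_ne_top ?_ (iSup_le h2)
  refine ENNReal.add_ne_top.2 ⟨ENNReal.one_ne_top, ?_⟩
  exact ENNReal.sum_ne_top.2 fun u _ => ENNReal.sum_ne_top.2 fun x _ => ENNReal.pow_ne_top hρ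

theorem mE_bd {d : ℕ} (hE : StExit) {ρ : ENNReal} (hρ : 1 ≤ ρ) (hρt : ρ ≠ ⊤) {p : ℝ} (h0 : 0 ≤ p)
    (h1 : p ≤ 1 / 2) {S : Finset (Zd d)} (hS : 0 ∈ S) (hPh : Ph ρ p S < 1)
    {E : Finset (Sym2 (Zd d))} (hL : (E : Set (Sym2 (Zd d))) ⊆ latE d) (v : Zd d) :
    mE ρ E p v ≤ (∑ y ∈ S, ρ ^ n1 y) / (1 - Ph ρ p S) := by
  refine (le_iSup (fun u => mE ρ E p u) v).trans ?_
  have hf := mE_fin hρt h0 (by linarith) E
  have h2 : (⨆ u, mE ρ E p u) ≤ ∑ y ∈ S, ρ ^ n1 y + Ph ρ p S * ⨆ u, mE ρ E p u :=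
    iSup_le fun u => mE_le hE hρ h0 h1 hS hL u
  have h3 : 1 - Ph ρ p S ≠ 0 := by
    rw [ne_eq, tsub_eq_zero_iff_le, not_le]
    exact hPh
  have h4 : 1 - Ph ρ p S ≠ ⊤ := ne_top_of_le_ne_top ENNReal.one_ne_top tsub_le_self
  rw [ENNReal.le_div_iff_mul_le (Or.inl h3) (Or.inl h4), mul_comm,
    ENNReal.sub_mul (fun _ _ => hf), one_mul, tsub_le_iff_right]
  exact h2

/-- choice of the base -/
theorem exists_base {d : ℕ} {p : ℝ} (h0 : 0 ≤ p) (h1 : p ≤ 1) {S : Finset (Zd d)}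
    (hphi : phiS d p S < 1) : ∃ r : ℝ, 1 < r ∧ Ph (ENNReal.ofReal r) p S < 1 := by
  set g : ℝ → ℝ := fun r => ∑ y ∈ S, ∑ z ∈ nb y \ S,
    (Pr (ES S) p (fun ω => con ω 0 y)).toReal * p * r ^ n1 z with hg
  have hc : Continuous g := by
    rw [hg]
    refine continuous_finsetSum _ fun y _ => continuous_finsetSum _ fun z _ => ?_
    exact continuous_const.mul (continuous_pow _)
  have hg1 : g 1 < 1 := by
    refine lt_of_eq_of_lt ?_ hphi
    rw [hg]
    unfold phiS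
    simp only [one_pow, mul_one, Finset.sum_const, nsmul_eq_mul]
    rw [Finset.mul_sum]
    exact Finset.sum_congr rfl fun y _ => by ring
  have h2 : ∀ᶠ r in nhdsWithin (1 : ℝ) (Set.Ioi 1), g r < 1 :=
    (hc.continuousAt.eventually (gt_mem_nhds hg1)).filter_mono nhdsWithin_le_nhds
  obtain ⟨r, hr1, hr2⟩ := (h2.and self_mem_nhdsWithin).exists
  have hr3 : (1 : ℝ) < r := hr2
  refine ⟨r, hr3, ?_⟩
  have h3 : Ph (ENNReal.ofReal r) p S = ENNReal.ofReal (g r) := by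
    unfold Ph
    rw [hg]
    have hr0 : (0 : ℝ) ≤ r := by linarith
    have hterm : ∀ y z : Zd d, 0 ≤ (Pr (ES S) p (fun ω => con ω 0 y)).toReal * p * r ^ n1 z :=
      fun y z => mul_nonneg (mul_nonneg ENNReal.toReal_nonneg h0) (pow_nonneg hr0 _)
    rw [ENNReal.ofReal_sum_of_nonneg fun y _ => Finset.sum_nonneg fun z _ => hterm y z]
    refine Finset.sum_congr rfl fun y _ => ?_
    rw [ENNReal.ofReal_sum_of_nonneg fun z _ => hterm y z]
    refine Finset.sum_congr rfl fun z _ => ?_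
    rw [ENNReal.ofReal_mul (mul_nonneg ENNReal.toReal_nonneg h0),
      ENNReal.ofReal_mul ENNReal.toReal_nonneg, ENNReal.ofReal_pow hr0,
      ENNReal.ofReal_toReal (ne_top_of_le_ne_top ENNReal.one_ne_top (Pr_le_one h0 h1 _ _))]
  rw [h3, ENNReal.ofReal_lt_one]
  exact hr1

end EM

theorem hExpMom (hE : StExit) (_hTB : StTauBasic) (hBox : StBox) : StExpMom := by
  intro d p S h0 h1 hS hphi
  obtain ⟨r, hr1, hr2⟩ := EM.exists_base h0 (by linarith) hphi
  refine ⟨r, hr1, ?_⟩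
  have hr0 : (0 : ℝ) ≤ r := by linarith
  have hρ : 1 ≤ ENNReal.ofReal r := by
    rw [← ENNReal.ofReal_one]
    exact ENNReal.ofReal_le_ofReal hr1.le
  obtain ⟨-, -, -, -, -, -, -, -, hlat, hmono, -, -, -⟩ := hBox d
  set ρ := ENNReal.ofReal r with hρd
  have hbd : ∀ R : ℕ, EM.mE ρ (Eb d R) p 0 ≤ (∑ y ∈ S, ρ ^ n1 y) / (1 - EM.Ph ρ p S) := fun R =>
    EM.mE_bd hE hρ ENNReal.ofReal_ne_top h0 h1 hS hr2 (hlat _) 0
  have hK : (∑ y ∈ S, ρ ^ n1 y) / (1 - EM.Ph ρ p S) < ⊤ := by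
    refine ENNReal.div_lt_top ?_ ?_
    · exact ENNReal.sum_ne_top.2 fun u _ => ENNReal.pow_ne_top ENNReal.ofReal_ne_top
    · rw [ne_eq, tsub_eq_zero_iff_le, not_le]
      exact hr2
  refine lt_of_le_of_lt ?_ hK
  rw [ENNReal.tsum_eq_iSup_sum]
  refine iSup_le fun s => ?_
  have h2 : ∑ x ∈ s, ENNReal.ofReal (r ^ n1 x) * tauE d p x =
      ⨆ R : ℕ, ∑ x ∈ s, ρ ^ n1 x * Pr (Eb d R) p (fun ω => con ω 0 x) := by
    rw [← ENNReal.finsetSum_iSup_of_monotone]
    · refine Finset.sum_congr rfl fun x _ => ?_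
      unfold tauE
      rw [ENNReal.mul_iSup, ENNReal.ofReal_pow hr0]
    · intro x R R' hR
      refine mul_le_mul_right (Pr_mono_edges (hmono R R' hR) h0 (by linarith) ?_) _
      exact fun ω η h hc => con_mono h hc
  rw [h2]
  refine iSup_le fun R => ?_
  refine le_trans ?_ (hbd R)
  unfold EM.mE
  simp only [sub_zero]
  exact ENNReal.sum_le_tsum s

end Pool.LE
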