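import Pool.Agent.Helper84.LE.St3

/-! Module FTadd: linearity of the transforms. -/

set_option autoImplicit false
open scoped BigOperators
open MeasureTheory

namespace Pool.LE

namespace FTaddaux

variable {d : ℕ}

theorem sq_nn (x : Zd d) : 0 ≤ sq x := Finset.sum_nonneg fun _ _ => sq_nonneg _

theorem coord_sq_le (x : Zd d) (i : Fin d) : (x i : ℝ) ^ 2 ≤ sq x :=
  Finset.single_le_sum (f := fun i => (x i : ℝ) ^ 2) (fun _ _ => sq_nonneg _) (Finset.mem_univ i)

theorem summ {f φ : Zd d → ℝ} (hf : SumQ f) (hφ : ∀ x, |φ x| ≤ Qw x) :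
    Summable fun x => f x * φ x := by
  refine Summable.of_norm_bounded hf ?_
  intro x
  rw [Real.norm_eq_abs, abs_mul, mul_comm]
  exact mul_le_mul_of_nonneg_right (hφ x) (abs_nonneg _)

theorem cos_le (x : Zd d) (k : Fin d → ℝ) : |Real.cos (∑ i, k i * x i)| ≤ Qw x := by
  have h0 := sq_nn x
  have h1 := Real.abs_cos_le_one (∑ i, k i * x i)
  unfold Qw
  linarith

theorem sqcos_le (x : Zd d) (k : Fin d → ℝ) : |sq x * Real.cos (∑ i, k i * x i)| ≤ Qw x := by
  have h0 := sq_nn x
  have h1 := Real.abs_cos_le_one (∑ i, k i * x i)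
  rw [abs_mul, abs_of_nonneg h0]
  have h2 := mul_le_mul_of_nonneg_left h1 h0
  unfold Qw
  linarith

theorem coordsin_le (x : Zd d) (k : Fin d → ℝ) (j : Fin d) :
    |(x j : ℝ) * Real.sin (∑ i, k i * x i)| ≤ Qw x := by
  have h1 := coord_sq_le x j
  have h0 := sq_nn x
  have h3 : |(x j : ℝ)| ≤ Qw x := by
    unfold Qw
    rw [abs_le]
    constructor <;> nlinarith [sq_nonneg ((x j : ℝ) - 1), sq_nonneg ((x j : ℝ) + 1)]
  have h4 := Real.abs_sin_le_one (∑ i, k i * x i)
  rw [abs_mul]
  have h2 := mul_le_mul_of_nonneg_left h4 (abs_nonneg (x j : ℝ))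
  linarith

theorem MT_eq (f : Zd d → ℝ) (k : Fin d → ℝ) :
    MT f k = ∑' x, f x * (sq x * Real.cos (∑ i, k i * x i)) := by
  unfold MT
  apply tsum_congr
  intro x
  ring

theorem SJ_eq (j : Fin d) (f : Zd d → ℝ) (k : Fin d → ℝ) :
    SJ j f k = ∑' x, f x * ((x j : ℝ) * Real.sin (∑ i, k i * x i)) := by
  unfold SJ
  apply tsum_congr
  intro x
  ring

theorem lin_add {f g φ : Zd d → ℝ} (hf : SumQ f) (hg : SumQ g) (hφ : ∀ x, |φ x| ≤ Qw x) :
    ∑' x, (f x + g x) * φ x = ∑' x, f x * φ x + ∑' x, g x * φ x := by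
  rw [← (summ hf hφ).tsum_add (summ hg hφ)]
  apply tsum_congr
  intro x
  ring

theorem lin_mul (f φ : Zd d → ℝ) (c : ℝ) :
    ∑' x, (c * f x) * φ x = c * ∑' x, f x * φ x := by
  rw [← tsum_mul_left]
  apply tsum_congr
  intro x
  ring

end FTaddaux

open FTaddaux in
theorem hFTadd : StFTadd := by
  intro d f g hf hg k
  refine ⟨?_, ?_, ?_, ?_, ?_⟩
  · unfold SumQ at *
    refine Summable.of_nonneg_of_le ?_ ?_ (hf.add hg)
    · intro x
      have h0 := sq_nn x
      have : 0 ≤ Qw x := by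
        unfold Qw
        linarith
      positivity
    · intro x
      have h0 := sq_nn x
      have h1 : 0 ≤ Qw x := by
        unfold Qw
        linarith
      have h2 := abs_add_le (f x) (g x)
      have h3 := mul_le_mul_of_nonneg_left h2 h1
      linarith
  · exact lin_add hf hg (fun x => cos_le x k)
  · rw [MT_eq, MT_eq, MT_eq]
    exact lin_add hf hg (fun x => sqcos_le x k)
  · intro j
    rw [SJ_eq, SJ_eq, SJ_eq]
    exact lin_add hf hg (fun x => coordsin_le x k j)
  · intro c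
    refine ⟨?_, ?_, ?_, ?_⟩
    · unfold SumQ at *
      have h : (fun x : Zd d => Qw x * |c * f x|) = fun x => |c| * (Qw x * |f x|) := by
        funext x
        rw [abs_mul]
        ring
      rw [h]
      exact hf.mul_left _
    · exact lin_mul f (fun x => Real.cos (∑ i, k i * x i)) c
    · rw [MT_eq, MT_eq]
      exact lin_mul f _ c
    · intro j
      rw [SJ_eq, SJ_eq]
      exact lin_mul f _ c

end Pool.LE
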