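import Pool.Agent.Helper84.LE.St3

/-! Module FTb: bounds and continuity of the transforms. -/

set_option autoImplicit false
open scoped BigOperators
open MeasureTheory

namespace Pool.LE

namespace FTbaux

variable {d : ℕ}

theorem sq_nn (x : Zd d) : 0 ≤ sq x := Finset.sum_nonneg fun _ _ => sq_nonneg _

theorem coord_sq_le (x : Zd d) (i : Fin d) : (x i : ℝ) ^ 2 ≤ sq x :=
  Finset.single_le_sum (f := fun i => (x i : ℝ) ^ 2) (fun _ _ => sq_nonneg _) (Finset.mem_univ i)

theorem term_le (f : Zd d → ℝ) {φ : Zd d → ℝ} (hφ : ∀ x, |φ x| ≤ Qw x) (x : Zd d) :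
    ‖f x * φ x‖ ≤ Qw x * |f x| := by
  rw [Real.norm_eq_abs, abs_mul, mul_comm]
  exact mul_le_mul_of_nonneg_right (hφ x) (abs_nonneg _)

theorem summ {f φ : Zd d → ℝ} (hf : SumQ f) (hφ : ∀ x, |φ x| ≤ Qw x) :
    Summable fun x => f x * φ x :=
  Summable.of_norm_bounded hf (term_le f hφ)

theorem bnd {f φ : Zd d → ℝ} (hf : SumQ f) (hφ : ∀ x, |φ x| ≤ Qw x) :
    |∑' x, f x * φ x| ≤ nQ f := by
  have h := tsum_of_norm_bounded (f := fun x => f x * φ x) hf.hasSum (term_le f hφ)
  exact h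

theorem one_le (x : Zd d) : |(1 : ℝ)| ≤ Qw x := by
  have h0 := sq_nn x
  unfold Qw
  rw [abs_one]
  linarith

theorem cos_le (x : Zd d) (k : Fin d → ℝ) : |Real.cos (∑ i, k i * x i)| ≤ Qw x := by
  have h0 := sq_nn x
  have h1 := Real.abs_cos_le_one (∑ i, k i * x i)
  unfold Qw
  linarith

theorem sq_le (x : Zd d) : |sq x| ≤ Qw x := by
  have h0 := sq_nn x
  unfold Qw
  rw [abs_of_nonneg h0]
  linarith

theorem sqcos_le (x : Zd d) (k : Fin d → ℝ) : |sq x * Real.cos (∑ i, k i * x i)| ≤ Qw x := by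
  have h0 := sq_nn x
  have h1 := Real.abs_cos_le_one (∑ i, k i * x i)
  rw [abs_mul, abs_of_nonneg h0]
  have h2 := mul_le_mul_of_nonneg_left h1 h0
  unfold Qw
  linarith

theorem coord_le (x : Zd d) (j : Fin d) : |(x j : ℝ)| ≤ Qw x := by
  have h1 := coord_sq_le x j
  have h0 := sq_nn x
  unfold Qw
  rw [abs_le]
  constructor <;> nlinarith [sq_nonneg ((x j : ℝ) - 1), sq_nonneg ((x j : ℝ) + 1)]

theorem coordsin_le (x : Zd d) (k : Fin d → ℝ) (j : Fin d) :
    |(x j : ℝ) * Real.sin (∑ i, k i * x i)| ≤ Qw x := by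
  have h1 := Real.abs_sin_le_one (∑ i, k i * x i)
  rw [abs_mul]
  have h2 := mul_le_mul_of_nonneg_left h1 (abs_nonneg (x j : ℝ))
  have h3 := coord_le x j
  linarith

theorem MT_eq (f : Zd d → ℝ) (k : Fin d → ℝ) :
    MT f k = ∑' x, f x * (sq x * Real.cos (∑ i, k i * x i)) := by
  unfold MT
  apply tsum_congr
  intro x
  ring

theorem SJ_eq (j : Fin d) (f : Zd d → ℝ) (k : Fin d → ℝ) :
    SJ j f k = ∑' x, f x * ((x j : ℝ) * Real.sin (∑ i, k i * x i)) := by
  unfold SJ
  apply tsum_congr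
  intro x
  ring

end FTbaux

open FTbaux in
theorem hFTb : StFTb := by
  intro d f hf k
  refine ⟨?_, ?_, ?_, ?_, ?_, ?_, ?_, ?_⟩
  · simpa using summ hf (φ := fun _ => 1) (fun x => one_le x)
  · have := summ hf (φ := fun x => sq x) (fun x => sq_le x)
    simpa [mul_comm] using this
  · intro j
    have := summ hf (φ := fun x => (x j : ℝ)) (fun x => coord_le x j)
    simpa [mul_comm] using this
  · exact bnd hf (fun x => cos_le x k)
  · rw [MT_eq]
    exact bnd hf (fun x => sqcos_le x k)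
  · intro j
    rw [SJ_eq]
    exact bnd hf (fun x => coordsin_le x k j)
  · unfold FT
    refine continuous_tsum (u := fun x => Qw x * |f x|) ?_ hf ?_
    · intro x
      fun_prop
    · intro x k'
      exact term_le f (fun x => cos_le x k') x
  · have h : MT f = fun k => ∑' x, f x * (sq x * Real.cos (∑ i, k i * x i)) := by
      funext k'
      exact MT_eq f k'
    rw [h]
    refine continuous_tsum (u := fun x => Qw x * |f x|) ?_ hf ?_
    · intro x
      fun_prop
    · intro x k'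
      exact term_le f (fun x => sqcos_le x k') x

end Pool.LE
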