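import Pool.Agent.Helper84.LE.St4

/-! Statements, part 6: renewal theory (plan section 9). -/

set_option autoImplicit false
open scoped BigOperators Topology
open Filter

namespace Pool.LE

/-! ### Abstract part -/

/-- `s` is the convolution inverse of `r` -/
def InvSeq (r s : ℕ → ℝ) : Prop :=
  ∀ n, ∑ q ∈ Finset.HasAntidiagonal.antidiagonal n, r q.1 * s q.2 = if n = 0 then 1 else 0

/-- inverse in the Wiener algebra, elementary case -/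
def StInvSeq : Prop := ∀ (r : ℕ → ℝ) (θ : ℝ), Summable (fun j => |r j|) →
  ∑' j, |r (j + 1)| ≤ θ → θ < r 0 →
    ∃ s : ℕ → ℝ, InvSeq r s ∧ Summable (fun j => |s j|) ∧ ∑' j, |s j| ≤ 1 / (r 0 - θ) ∧
      (∑' j, r j) * (∑' j, s j) = 1

def StInvDiff : Prop := ∀ (r s r' s' : ℕ → ℝ), Summable (fun j => |r j|) → Summable (fun j => |s j|) →
  Summable (fun j => |r' j|) → Summable (fun j => |s' j|) → InvSeq r s → InvSeq r' s' →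
    Summable (fun j => |s j - s' j|) ∧
    ∑' j, |s j - s' j| ≤ (∑' j, |s j|) * (∑' j, |s' j|) * ∑' j, |r j - r' j|

/-- the renewal sequence of `f` -/
def IsRen (f u : ℕ → ℝ) : Prop := u 0 = 1 ∧ ∀ j, 1 ≤ j → u j = ∑ m ∈ Finset.Icc 1 j, f m * u (j - m)

/-- decomposition of the renewal sequence -/
def StRenId : Prop := ∀ (f u r s : ℕ → ℝ) (δ : ℝ), Summable (fun m => |f m|) → f 0 = 0 → IsRen f u →
  (∀ j, r j = ∑' m, f (m + j + 1)) → δ = 1 - ∑' m, f m → InvSeq r s →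
    ∀ j, u j = ∑ i ∈ Finset.range (j + 1), s i -
      δ * ∑ i ∈ Finset.range (j + 1), ∑ q ∈ Finset.HasAntidiagonal.antidiagonal i, s q.1 * u q.2

/-- uniform bound and comparison -/
def StRenBd : Prop := ∀ (f u r s : ℕ → ℝ) (δ K : ℝ) (N : ℕ), Summable (fun m => |f m|) → f 0 = 0 →
  IsRen f u → (∀ j, r j = ∑' m, f (m + j + 1)) → δ = 1 - ∑' m, f m → InvSeq r s →
  Summable (fun j => |s j|) → ∑' j, |s j| ≤ K → |δ| * (N + 1) * K ≤ 1 / 2 →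
    ∀ j, j ≤ N → |u j| ≤ 2 * K ∧ |u j - ∑ i ∈ Finset.range (j + 1), s i| ≤ 2 * K ^ 2 * |δ| * (N + 1)

/-- the renewal theorem for triangular arrays without tilting: `N(n) (1 - Σ f) → 0` -/
def StRenLim : Prop := ∀ (f u : ℕ → ℕ → ℝ) (b f₀ : ℕ → ℝ),
  (∀ n m, |f n m| ≤ b m) → (∀ n, f n 0 = 0) → Summable (fun m : ℕ => (m : ℝ) * b m) →
  (∀ m, Tendsto (fun n => f n m) atTop (𝓝 (f₀ m))) → ∑' m, f₀ m = 1 →
  ∑' m, ((m - 1 : ℕ) : ℝ) * |f₀ m| < 1 →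
  Tendsto (fun n : ℕ => (n : ℝ) * (1 - ∑' m, f n m)) atTop (𝓝 0) → (∀ n, IsRen (f n) (u n)) →
    0 < ∑' m : ℕ, (m : ℝ) * f₀ m ∧
    (∃ C : ℝ, ∀ᶠ n in atTop, ∀ j, j ≤ n → |u n j| ≤ C) ∧
    ∀ i : ℕ, Tendsto (fun n => u n (n - i)) atTop (𝓝 (1 / ∑' m : ℕ, (m : ℝ) * f₀ m))

/-- with tilting -/
def StRenTilt : Prop := ∀ (f u : ℕ → ℕ → ℝ) (b f₀ : ℕ → ℝ) (c : ℝ),
  (∀ n m, |f n m| ≤ b m) → (∀ n, f n 0 = 0) → Summable (fun m : ℕ => (m : ℝ) * b m) →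
  (∀ m, Tendsto (fun n => f n m) atTop (𝓝 (f₀ m))) → ∑' m, f₀ m = 1 →
  ∑' m, ((m - 1 : ℕ) : ℝ) * |f₀ m| < 1 →
  Tendsto (fun n : ℕ => (n : ℝ) * (1 - ∑' m, f n m)) atTop (𝓝 c) → (∀ n, IsRen (f n) (u n)) →
    (∃ C : ℝ, ∀ᶠ n in atTop, ∀ j, j ≤ n → |u n j| ≤ C) ∧
    ∀ i : ℕ, Tendsto (fun n => u n (n - i)) atTop
      (𝓝 (1 / (∑' m : ℕ, (m : ℝ) * f₀ m) * Real.exp (-c / ∑' m : ℕ, (m : ℝ) * f₀ m)))

/-- the full array theorem -/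
def StRenewal : Prop := ∀ (f g G : ℕ → ℕ → ℝ) (b b' f₀ g₀ : ℕ → ℝ) (c : ℝ),
  (∀ n m, |f n m| ≤ b m) → (∀ n, f n 0 = 0) → Summable (fun m : ℕ => (m : ℝ) * b m) →
  (∀ m, Tendsto (fun n => f n m) atTop (𝓝 (f₀ m))) → ∑' m, f₀ m = 1 →
  ∑' m, ((m - 1 : ℕ) : ℝ) * |f₀ m| < 1 →
  Tendsto (fun n : ℕ => (n : ℝ) * (1 - ∑' m, f n m)) atTop (𝓝 c) →
  (∀ n m, |g n m| ≤ b' m) → Summable b' → (∀ m, Tendsto (fun n => g n m) atTop (𝓝 (g₀ m))) →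
  (∀ n j, G n j = g n j + ∑ m ∈ Finset.Icc 1 j, f n m * G n (j - m)) →
    Tendsto (fun n => G n n) atTop
      (𝓝 ((∑' m, g₀ m) / (∑' m : ℕ, (m : ℝ) * f₀ m) * Real.exp (-c / ∑' m : ℕ, (m : ℝ) * f₀ m)))

/-! ### Application to the lattice -/

/-- Fourier form of the renewal equation -/
def StFourRen : Prop := ∀ (d : ℕ) (p : ℝ) (n : ℕ) (k : Fin d → ℝ),
  FT (tn d p n) k = FT (gm d p n) k + ∑ j ∈ Finset.range n,
    (p * (2 * d * Dh k) * FT (gm d p j) k) * FT (tn d p (n - 1 - j)) k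

/-- the hypothesis at the critical point -/
structure CritH (d : ℕ) (p η : ℝ) : Prop where
  hd : 1 ≤ d
  hp0 : 0 < p
  hp1 : p ≤ 1 / 2
  summ : ∀ m, SumQ (hm d p m)
  summ' : Summable (fun m : ℕ => (1 + (m : ℝ)) * nQ (hm d p m))
  bound : ∑' m : ℕ, (1 + (m : ℝ)) * nQ (hm d p m) ≤ η
  small : η ≤ 1 / 8
  crit : 2 * d * p * ∑' m : ℕ, FT (gm d p m) 0 = 1

/-- total mass and second moment of `f = p J * g` in terms of `g` -/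
noncomputable def vD (d : ℕ) (p : ℝ) : ℝ :=
  2 * d * p * (∑' m : ℕ, FT (gm d p m) 0 + ∑' m : ℕ, MT (gm d p m) 0)

/-- mean -/
noncomputable def muD (d : ℕ) (p : ℝ) : ℝ := ∑' m : ℕ, (m + 1 : ℝ) * (2 * d * p * FT (gm d p m) 0)

def StCritBasic : Prop := ∀ (d : ℕ) (p η : ℝ), CritH d p η →
  0 < vD d p ∧ 0 < muD d p ∧ 0 < ∑' m : ℕ, FT (gm d p m) 0 ∧
  ∑' m : ℕ, (m : ℝ) * |2 * d * p * FT (gm d p m) 0| < 1 ∧
  (∀ k : Fin d → ℝ, ∀ m, |p * (2 * d * Dh k) * FT (gm d p m) k| ≤ 2 * (nQ (hm d p m) + if m = 0 then 1 else 0))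

/-- second order expansion of the total mass -/
def StCritSec : Prop := ∀ (d : ℕ) (p η : ℝ), CritH d p η → ∀ k : Fin d → ℝ,
  Tendsto (fun n : ℕ => (n : ℝ) * (1 - ∑' m : ℕ,
    p * (2 * d * Dh (fun i => k i / Real.sqrt n)) * FT (gm d p m) (fun i => k i / Real.sqrt n))) atTop
    (𝓝 ((∑ i, k i ^ 2) / (2 * d) * vD d p))

/-- plan section 9 -/
def StCritLim : Prop := ∀ (d : ℕ) (p η : ℝ), CritH d p η → ∀ k : Fin d → ℝ,
  Tendsto (fun n : ℕ => FT (tn d p n) (fun i => k i / Real.sqrt n)) atTop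
    (𝓝 ((∑' m : ℕ, FT (gm d p m) 0) / muD d p *
      Real.exp (-((∑ i, k i ^ 2) / (2 * d) * vD d p) / muD d p)))

end Pool.LE
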