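import Pool.Agent.Helper84.LE.M_Cv
import Pool.Agent.Helper84.LE.M_Box
import Pool.Agent.Helper84.LE.St6

set_option autoImplicit false
open scoped BigOperators

namespace Pool.LE

namespace FourRenAux

variable {d : ℕ}

theorem sumQ_of_support {f : Zd d → ℝ} (s : Finset (Zd d)) (h : ∀ x, x ∉ s → f x = 0) : SumQ f :=
  summable_of_ne_finset_zero (s := s) fun x hx => by rw [h x hx]; simp

theorem summ_cos {f : Zd d → ℝ} (hf : SumQ f) (k : Fin d → ℝ) :
    Summable (fun x => f x * Real.cos (∑ i, k i * x i)) := by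
  refine Summable.of_norm_bounded hf fun x => ?_
  rw [Real.norm_eq_abs, abs_mul]
  have h1 : 1 ≤ Qw x := by unfold Qw; linarith [CvFTaux.sq_nonneg' x]
  calc |f x| * |Real.cos (∑ i, k i * x i)| ≤ |f x| * 1 :=
        mul_le_mul_of_nonneg_left (Real.abs_cos_le_one _) (abs_nonneg _)
    _ ≤ Qw x * |f x| := by nlinarith [abs_nonneg (f x)]

theorem evenF_of_symF {f : Zd d → ℝ} (h : SymF f) : EvenF f := by
  intro x
  have := h (Equiv.refl _) (fun _ => -1) x
  rw [← this]
  congr 1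
  funext i
  simp [sgp]

theorem Jf_sub (hBox : StBox) (y u : Zd d) : Jf d (y - u) = if y ∈ nb u then 1 else 0 := by
  have h := (hBox d).2.2.2.2.1 0 (y - u) u
  unfold Jf
  have e : (y - u ∈ nb (0 : Zd d)) ↔ y ∈ nb u := by
    rw [h]; simp
  simp only [e]

theorem cvJ (hBox : StBox) {g t : Zd d → ℝ} (s : Finset (Zd d)) (hg : ∀ x, x ∉ s → g x = 0)
    (x : Zd d) : cv (cv g (Jf d)) t x = ∑ u ∈ s, ∑ b ∈ nb u, g u * t (x - b) := by
  have h1 : ∀ y, cv g (Jf d) y = ∑ u ∈ s, if y ∈ nb u then g u else 0 := by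
    intro y
    unfold cv
    rw [tsum_eq_sum (s := s) (fun u hu => by rw [hg u hu, zero_mul])]
    refine Finset.sum_congr rfl fun u _ => ?_
    rw [Jf_sub hBox]
    split_ifs <;> simp
  unfold cv at h1 ⊢
  have h2 : (fun y => (∑' u, g u * Jf d (y - u)) * t (x - y)) =
      fun y => ∑ u ∈ s, if y ∈ nb u then g u * t (x - y) else 0 := by
    funext y
    rw [h1, Finset.sum_mul]
    refine Finset.sum_congr rfl fun u _ => ?_
    split_ifs <;> simp
  rw [h2, Summable.tsum_finsetSum (fun u _ => summable_of_ne_finset_zero (s := nb u)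
    (fun y hy => by rw [if_neg hy]))]
  refine Finset.sum_congr rfl fun u _ => ?_
  rw [tsum_eq_sum (s := nb u) (fun y hy => by rw [if_neg hy])]
  refine Finset.sum_congr rfl fun y hy => ?_
  rw [if_pos hy]

end FourRenAux

open FourRenAux in
theorem hFourRen (hRX : StRenX) (hCvFT : StCvFT) (hCv : StCv) (hJ : StJf) (hS : StSupp)
    (hSyT : StSymT) (hSyG : StSymG) (hBox : StBox) : StFourRen := by
  intro d p n k
  obtain ⟨hJQ, hJS, hJF⟩ := hJ d
  have hgQ : ∀ m, SumQ (gm d p m) := fun m => sumQ_of_support (bx d m) fun x hx => (hS d p m x hx).2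
  have htQ : ∀ m, SumQ (tn d p m) := fun m => sumQ_of_support (bx d m) fun x hx => (hS d p m x hx).1
  have hgE : ∀ m, EvenF (gm d p m) := fun m => evenF_of_symF (hSyG d p m)
  have htE : ∀ m, EvenF (tn d p m) := fun m => evenF_of_symF (hSyT d p m)
  have hJE : EvenF (Jf d) := evenF_of_symF hJS
  have e1 : tn d p n = fun x => gm d p n x + ∑ j ∈ Finset.range n,
      p * cv (cv (gm d p j) (Jf d)) (tn d p (n - 1 - j)) x := by
    funext x
    rw [hRX d p n x]
    congr 1
    refine Finset.sum_congr rfl fun j _ => ?_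
    rw [cvJ hBox (bx d j) (fun x hx => (hS d p j x hx).2), Finset.mul_sum]
    refine Finset.sum_congr rfl fun u _ => ?_
    rw [Finset.mul_sum]
    refine Finset.sum_congr rfl fun b _ => ?_
    ring
  have hc1 : ∀ j, SumQ (cv (gm d p j) (Jf d)) := fun j => (hCv d _ _ (hgQ j) hJQ).1
  have hc1E : ∀ j, EvenF (cv (gm d p j) (Jf d)) := fun j => (hCv d _ _ (hgQ j) hJQ).2.2.1 (hgE j) hJE
  have hc2 : ∀ j, SumQ (cv (cv (gm d p j) (Jf d)) (tn d p (n - 1 - j))) := fun j =>
    (hCv d _ _ (hc1 j) (htQ _)).1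
  conv_lhs => rw [e1]
  unfold FT
  have e2 : (fun x : Zd d => (gm d p n x + ∑ j ∈ Finset.range n,
      p * cv (cv (gm d p j) (Jf d)) (tn d p (n - 1 - j)) x) * Real.cos (∑ i, k i * x i)) =
      fun x => gm d p n x * Real.cos (∑ i, k i * x i) + ∑ j ∈ Finset.range n,
        p * (cv (cv (gm d p j) (Jf d)) (tn d p (n - 1 - j)) x * Real.cos (∑ i, k i * x i)) := by
    funext x
    rw [add_mul, Finset.sum_mul]
    congr 1
    refine Finset.sum_congr rfl fun j _ => ?_
    ring
  have hsj : ∀ j ∈ Finset.range n, Summable (fun x : Zd d =>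
      p * (cv (cv (gm d p j) (Jf d)) (tn d p (n - 1 - j)) x * Real.cos (∑ i, k i * x i))) :=
    fun j _ => (summ_cos (hc2 j) k).mul_left p
  rw [e2, (summ_cos (hgQ n) k).tsum_add (summable_sum hsj), Summable.tsum_finsetSum hsj]
  congr 1
  refine Finset.sum_congr rfl fun j _ => ?_
  rw [tsum_mul_left]
  have h1 := (hCvFT d _ _ (hc1 j) (htQ (n - 1 - j)) (hc1E j) (htE _) k).1
  have h2 := (hCvFT d _ _ (hgQ j) hJQ (hgE j) hJE k).1
  rw [(hJF k).1] at h2
  rw [h2] at h1
  have h3 : ∑' x : Zd d, cv (cv (gm d p j) (Jf d)) (tn d p (n - 1 - j)) x * Real.cos (∑ i, k i * x i) =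
      FT (cv (cv (gm d p j) (Jf d)) (tn d p (n - 1 - j))) k := rfl
  rw [h3, h1]
  unfold FT
  ring

end Pool.LE
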