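import Pool.Agent.Helper84.LE.St1
import Pool.Agent.Helper84.LE.St2
import Pool.Agent.Helper84.LE.BGR
import Pool.Agent.Helper84.LE.BWT

/-! MP_e167eb: the coefficients of the lace expansion on the lattice (module Gcoef). -/

set_option autoImplicit false
open scoped BigOperators Polynomial
open Polynomial

namespace Pool.LE

theorem gc_mem_trE {d : ℕ} {v a b : Zd d} {E : Finset (Sym2 (Zd d))} (h : s(a, b) ∈ E) :
    s(v + a, v + b) ∈ trE v E :=
  Finset.mem_map.2 ⟨s(a, b), h, rfl⟩

theorem gc_trE_mono {d : ℕ} (v : Zd d) {E F : Finset (Sym2 (Zd d))} (h : E ⊆ F) :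
    trE v E ⊆ trE v F := Finset.map_subset_map.2 h

/-- the box around `b = v + b'` is inside the box around `v` -/
theorem gc_sub (hBox : StBox) {d : ℕ} {v b' : Zd d} {m j : ℕ} (hj : j < m)
    (hb : b' ∈ bx d (j + 1)) : trE (v + b') (Eb d (m - 1 - j)) ⊆ trE v (Eb d m) := by
  obtain ⟨-, h2, -, -, h5, -, -, h8, -, -, -, -, -⟩ := hBox d
  intro e he
  unfold trE at he
  rw [Finset.mem_map] at he
  obtain ⟨e0, he0, rfl⟩ := he
  induction e0 using Sym2.ind with
  | _ y z =>
    unfold Eb at he0
    rw [h8, h2, h2] at he0
    obtain ⟨hy, hz, hyz⟩ := he0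
    rw [h2] at hb
    have e1 : (Equiv.addLeft (v + b')).toEmbedding.sym2Map s(y, z) =
        s(v + (b' + y), v + (b' + z)) := by
      show s((v + b') + y, (v + b') + z) = _
      rw [add_assoc, add_assoc]
    rw [e1]
    apply gc_mem_trE
    unfold Eb
    rw [h8, h2, h2]
    refine ⟨fun i => ?_, fun i => ?_, (h5 y z b').1 hyz⟩
    · have a1 := hb i
      have a2 := hy i
      rw [Pi.add_apply]
      refine (abs_add_le _ _).trans ?_
      push_cast at a1
      omega
    · have a1 := hb i
      have a2 := hz i
      rw [Pi.add_apply]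
      refine (abs_add_le _ _).trans ?_
      push_cast at a1
      omega

theorem hGcoef (hCoef : StCoef) (hCL : StCoefLoc) (hGE : StGmEq) (hS : StSupp) (hBox : StBox) :
    StGcoef := by
  intro d p M m
  induction m using Nat.strong_induction_on with
  | _ m ih =>
    intro E v x hm hE hvE
    obtain ⟨-, h2, -, -, h5, h6, h7, h8, -, h10, -, -, -⟩ := hBox d
    have h := hCoef (Zd d) E p M m v x hm
    rw [hCL d p m E v x hE hvE] at h
    have key : ∑ ub ∈ drt E, ∑ j ∈ Finset.range m,
        (gE E p M v ub.1).coeff j * p * (GG E p ub.2 x).coeff (m - 1 - j) =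
        ∑ j ∈ Finset.range m, ∑ u ∈ bx d j, ∑ b ∈ nb u,
          gm d p j u * p * tn d p (m - 1 - j) (x - v - b) := by
      rw [Finset.sum_comm]
      refine Finset.sum_congr rfl fun j hj => ?_
      rw [Finset.mem_range] at hj
      rw [Finset.sum_sigma']
      symm
      refine Finset.sum_of_injOn (fun q : Σ _ : Zd d, Zd d => (v + q.1, v + q.2)) ?_ ?_ ?_ ?_
      · rintro ⟨a, b⟩ _ ⟨a', b'⟩ _ hab
        simp only [Prod.mk.injEq, add_right_inj] at hab
        rw [hab.1, hab.2]
      · rintro ⟨a, b⟩ hab
        rw [Finset.mem_coe, Finset.mem_sigma] at hab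
        rw [Finset.mem_coe, mem_drt]
        apply hvE
        apply gc_mem_trE
        unfold Eb
        rw [h8]
        have hb := h7 a b j hab.1 hab.2
        rw [h2] at hb
        have ha := hab.1
        simp only at ha
        rw [h2] at ha
        refine ⟨?_, ?_, hab.2⟩
        · rw [h2]
          intro i
          have a1 := ha i
          show |a i| ≤ (m : ℤ)
          omega
        · rw [h2]
          intro i
          have a1 := hb i
          push_cast at a1
          show |b i| ≤ (m : ℤ)
          omega
      · rintro ⟨u, b⟩ hub hnot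
        rw [mem_drt] at hub
        have hub' : b ∈ nb u := (h6 u b).1 (hE hub)
        have hu : u - v ∉ bx d j := by
          intro hu
          apply hnot
          refine ⟨⟨u - v, b - v⟩, ?_, ?_⟩
          · rw [Finset.mem_coe, Finset.mem_sigma]
            refine ⟨hu, ?_⟩
            show b - v ∈ nb (u - v)
            rw [h5 _ _ v, add_sub_cancel, add_sub_cancel]
            exact hub'
          · show (v + (u - v), v + (b - v)) = (u, b)
            rw [add_sub_cancel, add_sub_cancel]
        show (gE E p M v u).coeff j * p * _ = 0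
        rw [ih j hj E v u (by omega) hE ((gc_trE_mono v (h10 j m hj.le)).trans hvE),
          (hS d p j (u - v) hu).2, zero_mul, zero_mul]
      · rintro ⟨a, b⟩ hab
        rw [Finset.mem_sigma] at hab
        show gm d p j a * p * tn d p (m - 1 - j) (x - v - b) =
          (gE E p M v (v + a)).coeff j * p * (GG E p (v + b) x).coeff (m - 1 - j)
        have hb := h7 a b j hab.1 hab.2
        rw [ih j hj E v (v + a) (by omega) hE ((gc_trE_mono v (h10 j m hj.le)).trans hvE),
          add_sub_cancel_left, hCL d p (m - 1 - j) E (v + b) x hE ((gc_sub hBox hj hb).trans hvE),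
          sub_sub]
    rw [key] at h
    rw [hGE d p m (x - v)]
    linarith

end Pool.LE
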