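import Pool.Agent.Helper84.LE.St5

/-! MP_e167eb: continuity of the transform of `hS` at the critical point, from the left. -/

set_option autoImplicit false
open scoped BigOperators Topology
open MeasureTheory Filter

namespace Pool.LE

theorem gc_zero_mem (d m : ℕ) : (0 : Zd d) ∈ bx d m := by
  unfold bx
  rw [Fintype.mem_piFinset]
  intro i
  rw [Finset.mem_Icc]
  constructor <;> simp

theorem gc_hm_zero (hSupp : StSupp) (d : ℕ) (p : ℝ) (m : ℕ) (x : Zd d) (hx : x ∉ bx d m) :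
    hm d p m x = 0 := by
  have h1 := (hSupp d p m x hx).2
  unfold hm
  rw [h1, if_neg, sub_zero]
  rintro ⟨-, rfl⟩
  exact hx (gc_zero_mem d m)

theorem gc_Qw {d : ℕ} (x : Zd d) : (1 : ENNReal) ≤ ENNReal.ofReal (Qw x) := by
  rw [ENNReal.one_le_ofReal]
  unfold Qw sq
  have : 0 ≤ ∑ i, (x i : ℝ) ^ 2 := Finset.sum_nonneg fun i _ => sq_nonneg _
  linarith

/-- the mass of `hm m` -/
noncomputable def gcH (d : ℕ) (p : ℝ) (m : ℕ) : ℝ := ∑ x ∈ bx d m, hm d p m x

theorem gc_eta {d : ℕ} {p : ℝ} :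
    ∑' m : ℕ, ∑' x : Zd d, (1 + (m : ENNReal)) * ENNReal.ofReal |hm d p m x| ≤ eta d p := by
  unfold eta
  refine ENNReal.tsum_le_tsum fun m => ENNReal.tsum_le_tsum fun x => ?_
  rw [mul_assoc]
  refine mul_le_mul_right ?_ _
  exact le_mul_of_one_le_left zero_le (gc_Qw x)

theorem gc_H_le {d : ℕ} {p : ℝ} (m : ℕ) :
    ENNReal.ofReal |gcH d p m| ≤ ∑' x : Zd d, ENNReal.ofReal |hm d p m x| := by
  unfold gcH
  refine le_trans (ENNReal.ofReal_le_ofReal (Finset.abs_sum_le_sum_abs _ _)) ?_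
  rw [ENNReal.ofReal_sum_of_nonneg fun _ _ => abs_nonneg _]
  exact ENNReal.sum_le_tsum _

theorem gc_tail {d : ℕ} {p : ℝ} (M : ℕ) :
    (1 + (M : ENNReal)) * ∑' m : ℕ, ENNReal.ofReal |gcH d p (m + M)| ≤ eta d p := by
  refine le_trans ?_ gc_eta
  rw [← ENNReal.tsum_mul_left]
  refine le_trans (b := ∑' m : ℕ, (1 + ((m + M : ℕ) : ENNReal)) *
    ∑' x : Zd d, ENNReal.ofReal |hm d p (m + M) x|) ?_ ?_
  · refine ENNReal.tsum_le_tsum fun m => ?_
    refine mul_le_mul' ?_ (gc_H_le _)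
    push_cast
    gcongr
    exact le_add_self
  · have h := ENNReal.tsum_comp_le_tsum_of_injective (add_left_injective M)
      (fun m : ℕ => ∑' x : Zd d, (1 + (m : ENNReal)) * ENNReal.ofReal |hm d p m x|)
    refine le_trans (le_of_eq ?_) h
    refine tsum_congr fun m => ?_
    exact ENNReal.tsum_mul_left.symm

theorem gc_sum {d : ℕ} {p : ℝ} (h : eta d p ≠ ⊤) :
    Summable (Function.uncurry fun (m : ℕ) (x : Zd d) => hm d p m x) := by
  rw [← summable_abs_iff]
  have h1 : ∑' q : ℕ × Zd d, ENNReal.ofReal |hm d p q.1 q.2| ≠ ⊤ := by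
    rw [ENNReal.tsum_prod (f := fun (m : ℕ) (x : Zd d) => ENNReal.ofReal |hm d p m x|)]
    refine ne_top_of_le_ne_top h (le_trans ?_ gc_eta)
    refine ENNReal.tsum_le_tsum fun m => ENNReal.tsum_le_tsum fun x => ?_
    exact le_mul_of_one_le_left zero_le le_self_add
  have h2 := ENNReal.summable_toReal h1
  refine h2.congr fun q => ?_
  rw [ENNReal.toReal_ofReal (abs_nonneg _)]
  rfl

theorem gc_FT (hSupp : StSupp) {d : ℕ} {p : ℝ} (h : eta d p ≠ ⊤) :
    Summable (gcH d p) ∧ FT (hS d p) 0 = ∑' m, gcH d p m := by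
  have h1 := gc_sum h
  have h2 : ∀ m, ∑' x : Zd d, hm d p m x = gcH d p m := fun m =>
    tsum_eq_sum fun x hx => gc_hm_zero hSupp d p m x hx
  constructor
  · have h3 := h1.prod
    refine h3.congr fun m => ?_
    exact h2 m
  · have h3 : FT (hS d p) 0 = ∑' x : Zd d, ∑' m : ℕ, hm d p m x := by
      unfold FT hS
      refine tsum_congr fun x => ?_
      simp
    rw [h3, h1.tsum_comm]
    exact tsum_congr h2

theorem gc_diff (hSupp : StSupp) {d : ℕ} {p c : ℝ} (h : eta d p ≤ ENNReal.ofReal c) (M : ℕ) :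
    |FT (hS d p) 0 - ∑ m ∈ Finset.range M, gcH d p m| ≤ |c| / (1 + M) := by
  have hne : eta d p ≠ ⊤ := ne_top_of_le_ne_top ENNReal.ofReal_ne_top h
  obtain ⟨h1, h2⟩ := gc_FT hSupp hne
  have h3 := h1.sum_add_tsum_nat_add M
  rw [h2, ← h3, add_sub_cancel_left]
  have h4 : ENNReal.ofReal |∑' m, gcH d p (m + M)| ≤ ∑' m, ENNReal.ofReal |gcH d p (m + M)| := by
    have h5 : Summable fun m => |gcH d p (m + M)| :=
      ((summable_nat_add_iff M).2 h1).abs
    rw [← ENNReal.ofReal_tsum_of_nonneg (fun _ => abs_nonneg _) h5]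
    refine ENNReal.ofReal_le_ofReal ?_
    have := norm_tsum_le_tsum_norm (f := fun m => gcH d p (m + M)) h5
    exact this
  have h5 : (1 + (M : ENNReal)) * ENNReal.ofReal |∑' m, gcH d p (m + M)| ≤ ENNReal.ofReal |c| :=
    le_trans (mul_le_mul_right h4 _) (le_trans (gc_tail M) (le_trans h
      (ENNReal.ofReal_le_ofReal (le_abs_self c))))
  have h6 : ENNReal.ofReal ((1 + M) * |∑' m, gcH d p (m + M)|) ≤ ENNReal.ofReal |c| := by
    rw [ENNReal.ofReal_mul (by positivity), ENNReal.ofReal_add zero_le_one (Nat.cast_nonneg M),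
      ENNReal.ofReal_one, ENNReal.ofReal_natCast]
    exact h5
  rw [ENNReal.ofReal_le_ofReal_iff (abs_nonneg c)] at h6
  rw [le_div_iff₀ (by positivity), mul_comm]
  exact h6

theorem gc_cont (hPoly : StPoly) (d m : ℕ) : Continuous fun p => gcH d p m := by
  unfold gcH
  refine continuous_finsetSum _ fun x _ => ?_
  obtain ⟨Q, hQ⟩ := (hPoly d m x).2
  unfold hm
  simp only [hQ]
  exact (Polynomial.continuous Q).sub continuous_const

theorem hGcont (hPoly : StPoly) (hSupp : StSupp) : StGcont := by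
  intro d b c hb h
  have hu : TendstoUniformlyOn (fun (M : ℕ) (p : ℝ) => ∑ m ∈ Finset.range M, gcH d p m)
      (fun p => FT (hS d p) 0) atTop (Set.Icc 0 b) := by
    rw [Metric.tendstoUniformlyOn_iff]
    intro ε hε
    have h1 : Tendsto (fun M : ℕ => |c| / (1 + M)) atTop (𝓝 0) :=
      tendsto_const_nhds.div_atTop (tendsto_atTop_add_const_left _ _ tendsto_natCast_atTop_atTop)
    filter_upwards [h1.eventually (gt_mem_nhds hε)] with M hM p hp
    rw [Real.dist_eq]
    exact lt_of_le_of_lt (gc_diff hSupp (h p hp.1 hp.2) M) hM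
  have hc : ContinuousOn (fun p => FT (hS d p) 0) (Set.Icc 0 b) := by
    refine hu.continuousOn (Filter.Frequently.of_forall fun M => ?_)
    exact (continuous_finsetSum _ fun m _ => gc_cont hPoly d m).continuousOn
  have h2 := hc b ⟨hb.le, le_refl b⟩
  refine h2.tendsto.mono_left ?_
  refine le_inf inf_le_left ?_
  rw [le_principal_iff]
  exact mem_of_superset (Ioo_mem_nhdsLT hb) fun y hy => ⟨hy.1.le, hy.2.le⟩

end Pool.LE
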