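import Pool.Agent.Helper84.LE.BGR
import Pool.Agent.Helper84.LE.St7

/-! Module Gdist: distances and infinite clusters are local (plan section 11). -/

set_option autoImplicit false
open scoped BigOperators Topology
open MeasureTheory Filter

namespace Pool.LE

namespace GdistAux

variable {d : ℕ}

theorem single_ne (x : Zd d) (i : Fin d) : x + Pi.single i (1 : ℤ) ≠ x := by
  intro h
  have h1 := congrFun h i
  rw [Pi.add_apply, Pi.single_eq_same] at h1
  omega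

theorem Gp_adj {p : ℝ} {ω : ((Fin d → ℤ) × Fin d) → unitInterval} {x y : Zd d} :
    (Gp d p ω).Adj x y ↔ ∃ x' : Zd d, ∃ i : Fin d,
      s(x, y) = s(x', x' + Pi.single i 1) ∧ ((ω (x', i) : ℝ) < p) := by
  unfold Gp
  rw [SimpleGraph.fromRel_adj]
  constructor
  · rintro ⟨-, ⟨i, hy, hw⟩ | ⟨i, hy, hw⟩⟩
    · exact ⟨x, i, by rw [hy], hw⟩
    · exact ⟨y, i, by rw [hy, Sym2.eq_swap], hw⟩
  · rintro ⟨x', i, he, hw⟩
    rw [Sym2.eq_iff] at he
    rcases he with ⟨rfl, rfl⟩ | ⟨rfl, rfl⟩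
    · exact ⟨(single_ne _ _).symm, Or.inl ⟨i, rfl, hw⟩⟩
    · exact ⟨single_ne _ _, Or.inr ⟨i, rfl, hw⟩⟩

theorem nb_of_Gp (hBox : StBox) {p : ℝ} {ω : ((Fin d → ℤ) × Fin d) → unitInterval} {x y : Zd d}
    (h : (Gp d p ω).Adj x y) : y ∈ nb x := by
  obtain ⟨-, -, b3, -⟩ := hBox d
  obtain ⟨x', i, he, -⟩ := Gp_adj.1 h
  rw [Sym2.eq_iff] at he
  rw [b3]
  rcases he with ⟨rfl, rfl⟩ | ⟨rfl, rfl⟩
  · exact ⟨i, Or.inl rfl⟩
  · exact ⟨i, Or.inr (by rw [add_sub_cancel_right])⟩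

theorem opn_adj (hBox : StBox) {p : ℝ} {R : ℕ} {ω : ((Fin d → ℤ) × Fin d) → unitInterval}
    {x y : Zd d} :
    (gr (opn d p R ω)).Adj x y ↔ (Gp d p ω).Adj x y ∧ x ∈ bx d R ∧ y ∈ bx d R := by
  classical
  obtain ⟨-, -, -, -, -, -, -, b8, -⟩ := hBox d
  rw [gr_adj]
  unfold opn
  rw [Finset.mem_filter]
  constructor
  · rintro ⟨⟨h1, h2⟩, -⟩
    have h3 := (b8 (bx d R) x y).1 h1
    exact ⟨Gp_adj.2 h2, h3.1, h3.2.1⟩
  · rintro ⟨h1, h2, h3⟩
    refine ⟨⟨?_, Gp_adj.1 h1⟩, h1.ne⟩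
    exact (b8 (bx d R) x y).2 ⟨h2, h3, nb_of_Gp hBox h1⟩

theorem opn_le (hBox : StBox) (p : ℝ) (R : ℕ) (ω : ((Fin d → ℤ) × Fin d) → unitInterval) :
    gr (opn d p R ω) ≤ Gp d p ω := by
  intro x y h
  exact ((opn_adj hBox).1 h).1

theorem bx_mono (hBox : StBox) {m R : ℕ} (h : m ≤ R) {x : Zd d} (hx : x ∈ bx d m) :
    x ∈ bx d R := by
  obtain ⟨-, b2, -⟩ := hBox d
  rw [b2] at hx ⊢
  intro i
  exact (hx i).trans (by exact_mod_cast h)

theorem walk_tr (hBox : StBox) {p : ℝ} {R : ℕ} {ω : ((Fin d → ℤ) × Fin d) → unitInterval}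
    {u v : Zd d} (q : (Gp d p ω).Walk u v) : ∀ m : ℕ, u ∈ bx d m → m + q.length ≤ R →
      ∃ q' : (gr (opn d p R ω)).Walk u v, q'.length = q.length := by
  induction q with
  | nil =>
    intro m _ _
    exact ⟨SimpleGraph.Walk.nil, rfl⟩
  | cons hadj r ih =>
    rename_i u w v
    intro m hu hm
    rw [SimpleGraph.Walk.length_cons] at hm
    obtain ⟨-, -, -, -, -, -, b7, -⟩ := hBox d
    have hw : w ∈ bx d (m + 1) := b7 u w m hu (nb_of_Gp hBox hadj)
    obtain ⟨q', hq'⟩ := ih (m + 1) hw (by omega)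
    have hadj' : (gr (opn d p R ω)).Adj u w :=
      (opn_adj hBox).2 ⟨hadj, bx_mono hBox (by omega) hu, bx_mono hBox (by omega) hw⟩
    refine ⟨SimpleGraph.Walk.cons hadj' q', ?_⟩
    rw [SimpleGraph.Walk.length_cons, SimpleGraph.Walk.length_cons, hq']

theorem zero_mem (n : ℕ) (hBox : StBox) : (0 : Zd d) ∈ bx d n := by
  obtain ⟨-, b2, -⟩ := hBox d
  rw [b2]
  intro i
  rw [Pi.zero_apply, abs_zero]
  exact Int.natCast_nonneg n

/-- a walk of the infinite graph of length at most `n` -/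
theorem walk_tr0 (hBox : StBox) {p : ℝ} {R : ℕ} {ω : ((Fin d → ℤ) × Fin d) → unitInterval}
    {v : Zd d} (q : (Gp d p ω).Walk 0 v) (h : q.length ≤ R) :
      ∃ q' : (gr (opn d p R ω)).Walk 0 v, q'.length = q.length :=
  walk_tr hBox q 0 (zero_mem 0 hBox) (by omega)

theorem exit (hBox : StBox) {p : ℝ} {n : ℕ} {ω : ((Fin d → ℤ) × Fin d) → unitInterval}
    {u v : Zd d} (q : (Gp d p ω).Walk u v) : u ∈ bx d n → v ∉ bx d n →
      ∃ z : Zd d, z ∉ bx d n ∧ con (opn d p (n + 1) ω) u z := by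
  induction q with
  | nil =>
    intro h1 h2
    exact absurd h1 h2
  | cons hadj r ih =>
    rename_i u w v
    intro h1 h2
    obtain ⟨-, -, -, -, -, -, b7, -⟩ := hBox d
    have hw : w ∈ bx d (n + 1) := b7 u w n h1 (nb_of_Gp hBox hadj)
    have hadj' : (gr (opn d p (n + 1) ω)).Adj u w :=
      (opn_adj hBox).2 ⟨hadj, bx_mono hBox (by omega) h1, hw⟩
    by_cases hwn : w ∈ bx d n
    · obtain ⟨z, hz1, hz2⟩ := ih hwn h2
      exact ⟨z, hz1, con_trans hadj'.reachable hz2⟩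
    · exact ⟨w, hwn, hadj'.reachable⟩

end GdistAux

open GdistAux

theorem hGdist (hBox : StBox) : StGdist := by
  intro d p ω n x
  constructor
  · rintro ⟨hr, hd⟩
    obtain ⟨q, hq⟩ := hr.exists_walk_length_eq_dist
    obtain ⟨q', hq'⟩ := walk_tr0 (R := n) hBox q (by omega)
    have hc : con (opn d p n ω) 0 x := ⟨q'⟩
    refine ⟨hc, le_antisymm ?_ ?_⟩
    · have h1 := SimpleGraph.dist_le q'
      omega
    · obtain ⟨r, hr'⟩ := SimpleGraph.Reachable.exists_walk_length_eq_dist hc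
      have h2 := SimpleGraph.dist_le (r.mapLe (opn_le hBox p n ω))
      rw [SimpleGraph.Walk.length_mapLe] at h2
      omega
  · rintro ⟨hc, hd⟩
    obtain ⟨r, hr'⟩ := SimpleGraph.Reachable.exists_walk_length_eq_dist hc
    have hr : (Gp d p ω).Reachable 0 x := ⟨r.mapLe (opn_le hBox p n ω)⟩
    refine ⟨hr, ?_⟩
    have h2 := SimpleGraph.dist_le (r.mapLe (opn_le hBox p n ω))
    rw [SimpleGraph.Walk.length_mapLe] at h2
    obtain ⟨q, hq⟩ := hr.exists_walk_length_eq_dist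
    obtain ⟨q', hq'⟩ := walk_tr0 (R := n) hBox q (by omega)
    have h1 := SimpleGraph.dist_le q'
    omega

theorem hGinf (hBox : StBox) : StGinf := by
  classical
  intro d p ω
  constructor
  · intro hinf n
    have h1 : ∃ y ∈ {x : Zd d | (Gp d p ω).Reachable 0 x}, y ∉ (bx d n : Finset (Zd d)) := by
      by_contra hcon
      push Not at hcon
      exact hinf ((bx d n).finite_toSet.subset fun y hy => Finset.mem_coe.2 (hcon y hy))
    obtain ⟨y, ⟨q⟩, hy⟩ := h1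
    exact exit hBox q (zero_mem n hBox) hy
  · intro hout hfin
    obtain ⟨-, b2, -⟩ := hBox d
    let F := hfin.toFinset
    let n : ℕ := ∑ x ∈ F, ∑ i, (x i).natAbs
    obtain ⟨y, hy, hc⟩ := hout n
    have hyr : (Gp d p ω).Reachable 0 y := hc.mono (opn_le hBox p (n + 1) ω)
    have hyF : y ∈ F := by
      rw [Set.Finite.mem_toFinset]
      exact hyr
    apply hy
    rw [b2]
    intro i
    have h1 : (y i).natAbs ≤ ∑ i, (y i).natAbs :=
      Finset.single_le_sum (f := fun i => (y i).natAbs) (fun _ _ => Nat.zero_le _)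
        (Finset.mem_univ i)
    have h2 : ∑ i, (y i).natAbs ≤ n :=
      Finset.single_le_sum (f := fun x : Zd d => ∑ i, (x i).natAbs) (fun _ _ => Nat.zero_le _) hyF
    have h3 : (y i).natAbs ≤ n := h1.trans h2
    have h4 : |y i| = ((y i).natAbs : ℤ) := Int.abs_eq_natAbs (y i)
    rw [h4]
    exact_mod_cast h3

end Pool.LE

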