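import Pool.Agent.Helper84.LE.St2
import Pool.Agent.Helper84.LE.BGR
import Pool.Agent.Helper84.LE.BWT

/-!
# LE module GmEq: the recursion of `gm` and supports
-/

set_option autoImplicit false
open scoped BigOperators Polynomial
open Polynomial

namespace Pool.LE

theorem hGmEq : StGmEq := by
  intro d p m x
  rw [gm]
  show tn d p m x - _ = tn d p m x - _
  congr 1
  exact Fin.sum_univ_eq_sum_range (fun j => ∑ u ∈ bx d j, ∑ b ∈ nb u,
    gm d p j u * p * tn d p (m - 1 - j) (x - b)) m

theorem hRenX : StRenX := by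
  intro d p m x
  rw [hGmEq d p m x]
  ring

theorem hSupp (hW : StWalkBox) (hBox : StBox) : StSupp := by
  intro d p
  obtain ⟨-, hmem, -, -, -, -, hstep, -, hES, -⟩ := hBox d
  have htn : ∀ (n : ℕ) (x : Zd d), x ∉ bx d n → tn d p n x = 0 := by
    intro n x hx
    unfold tn GG
    rw [coeff_Ex, ← Ex_zero (M := ℝ) (Eb d n) p]
    refine Ex_congr fun ω hω => ?_
    unfold mon
    split_ifs with hc
    · rw [coeff_X_pow, if_neg]
      intro hn
      obtain ⟨q, hq⟩ := SimpleGraph.Reachable.exists_walk_length_eq_dist hc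
      have hsub : (ω : Set (Sym2 (Zd d))) ⊆ latE d := fun e he => hES _ (hω he)
      have h1 := (hW d ω 0 x hsub q).1 x q.end_mem_support
      rw [hq, ← hn, sub_zero] at h1
      exact hx h1
    · exact coeff_zero n
  intro n x hx
  refine ⟨htn n x hx, ?_⟩
  rw [hGmEq, htn n x hx, zero_sub, neg_eq_zero]
  refine Finset.sum_eq_zero fun j hj => Finset.sum_eq_zero fun u hu =>
    Finset.sum_eq_zero fun b hb => ?_
  rw [Finset.mem_range] at hj
  rw [htn (n - 1 - j) (x - b), mul_zero]
  intro h
  apply hx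
  rw [hmem] at h ⊢
  have hb' := (hmem _ _).1 (hstep u b j hu hb)
  intro i
  have h1 := h i
  have h2 := hb' i
  have h3 : x i = (x - b) i + b i := by simp
  have h4 : |x i| ≤ |(x - b) i| + |b i| := by
    rw [h3]
    exact abs_add_le _ _
  have h5 : ((n - 1 - j : ℕ) : ℤ) + ((j + 1 : ℕ) : ℤ) = (n : ℤ) := by omega
  linarith

end Pool.LE
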