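import Pool.Agent.Helper84.LE.St5

/-! LE module ImpF (plan 7). -/

set_option autoImplicit false
open scoped BigOperators Topology
open MeasureTheory Filter

namespace Pool.LE

namespace ImpFM

/-- the unit of the convolution -/
noncomputable def un {d : ℕ} (x : Zd d) : ℝ := if x = 0 then 1 else 0

theorem even_of_sym {d : ℕ} {f : Zd d → ℝ} (h : SymF f) : EvenF f := by
  intro x
  have h1 := h (Equiv.refl _) (fun _ => -1) x
  have h2 : sgp (Equiv.refl _) (fun _ => -1) x = -x := by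
    funext i
    simp [sgp]
  rwa [h2] at h1

theorem sumQ_un (d : ℕ) : SumQ (un : Zd d → ℝ) := by
  unfold SumQ
  refine summable_of_ne_finset_zero (s := {0}) fun x hx => ?_
  have : x ≠ 0 := by simpa using hx
  simp [un, this]

theorem even_un (d : ℕ) : EvenF (un : Zd d → ℝ) := by
  intro x
  unfold un
  simp [neg_eq_zero]

theorem FT_un {d : ℕ} (k : Fin d → ℝ) : FT (un : Zd d → ℝ) k = 1 := by
  unfold FT
  rw [tsum_eq_single (0 : Zd d)]
  · simp [un]
  · intro x hx
    simp [un, hx]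

theorem MT_un {d : ℕ} (k : Fin d → ℝ) : MT (un : Zd d → ℝ) k = 0 := by
  unfold MT
  rw [tsum_eq_single (0 : Zd d)]
  · simp [un, sq]
  · intro x hx
    simp [un, hx]

theorem SJ_un {d : ℕ} (j : Fin d) (k : Fin d → ℝ) : SJ j (un : Zd d → ℝ) k = 0 := by
  unfold SJ
  rw [tsum_eq_single (0 : Zd d)]
  · simp [un]
  · intro x hx
    simp [un, hx]

end ImpFM

open ImpFM in
theorem hImpF (hCv : StCv) (hCvFT : StCvFT) (hAdd : StFTadd) (hJf : StJf) (_hTb : StFTb) : StImpF := by
  intro d p t h _hd hSt hsymt hSh hsymh heq k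
  obtain ⟨hSJ, hsymJ, hJ⟩ := hJf d
  obtain ⟨hJ1, hJ2, hJ3⟩ := hJ k
  have hdl : (dl h : Zd d → ℝ) = fun x => h x + un x := rfl
  have hSu := sumQ_un d
  obtain ⟨a1, a2, a3, a4, -⟩ := hAdd d h un hSh hSu k
  rw [← hdl] at a1 a2 a3 a4
  have a2' : FT (dl h) k = 1 + FT h k := by rw [a2, FT_un]; ring
  have a3' : MT (dl h) k = MT h k := by rw [a3, MT_un]; ring
  have a4' : ∀ j, SJ j (dl h) k = SJ j h k := by intro j; rw [a4, SJ_un]; ring
  have evh : EvenF h := even_of_sym hsymh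
  have evt : EvenF t := even_of_sym hsymt
  have evJ : EvenF (Jf d) := even_of_sym hsymJ
  have evdl : EvenF (dl h) := by
    intro x
    rw [hdl]
    simp only
    rw [evh x, even_un d x]
  obtain ⟨-, -, -, -, b⟩ := hAdd d (Jf d) (Jf d) hSJ hSJ k
  obtain ⟨b1, b2, b3, b4⟩ := b p
  have evpJ : EvenF (fun y => p * Jf d y) := by
    intro x
    simp only
    rw [evJ x]
  have hphiS := (hCv d (dl h) (fun y => p * Jf d y) a1 b1).1
  have hphiE := (hCv d (dl h) (fun y => p * Jf d y) a1 b1).2.2.1 evdl evpJ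
  obtain ⟨c1, c2, c3⟩ := hCvFT d (dl h) (fun y => p * Jf d y) a1 b1 evdl evpJ k
  set φ := cv (dl h) (fun y => p * Jf d y) with hφ
  obtain ⟨e1, e2, e3⟩ := hCvFT d φ t hphiS hSt hphiE evt k
  have hcS := (hCv d φ t hphiS hSt).1
  obtain ⟨-, f2, f3, f4, -⟩ := hAdd d (dl h) (cv φ t) a1 hcS k
  have ht : t = fun x => dl h x + cv φ t x := funext heq
  rw [← ht] at f2 f3 f4
  rw [a2', b2, hJ1] at c1
  have c2' : ∀ j, SJ j φ k = SJ j h k * (2 * d * p * Dh k) + (1 + FT h k) * (2 * p * Real.sin (k j)) := by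
    intro j
    rw [c2 j, a4' j, a2', b2, b4 j, hJ1, hJ3 j]
    ring
  have c3' : MT φ k = MT h k * (2 * d * p * Dh k) - 2 * ∑ j, SJ j h k * (2 * p * Real.sin (k j)) +
        (1 + FT h k) * (2 * d * p * Dh k) := by
    rw [c3, a3', a2', b2, b3, hJ1, hJ2]
    have hs : (∑ j, SJ j (dl h) k * SJ j (fun x => p * Jf d x) k) =
        ∑ j, SJ j h k * (2 * p * Real.sin (k j)) := by
      refine Finset.sum_congr rfl fun j _ => ?_
      rw [a4' j, b4 j, hJ3 j]
      ring
    rw [hs]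
    ring
  refine ⟨?_, fun j => SJ j φ k, MT φ k, c2', c3', ?_, ?_⟩
  · have g1 : FT t k = (1 + FT h k) + (1 + FT h k) * (p * (2 * d * Dh k)) * FT t k := by
      conv_lhs => rw [f2, e1, a2', c1]
    linear_combination g1
  · intro j
    have g1 : SJ j t k = SJ j h k + (SJ j φ k * FT t k + FT φ k * SJ j t k) := by
      conv_lhs => rw [f4 j, e2 j, a4' j]
    rw [c1] at g1
    linear_combination g1
  · have g1 : MT t k = MT h k + (MT φ k * FT t k - 2 * ∑ j, SJ j φ k * SJ j t k + FT φ k * MT t k) := by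
      conv_lhs => rw [f3, e3, a3']
    rw [c1] at g1
    linear_combination g1

end Pool.LE
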