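import Pool.Agent.Helper84.LE.St5

/-! Module ImpR: the real inequalities of the bootstrap (plan section 7). -/

set_option autoImplicit false
open scoped BigOperators

namespace Pool.LE

theorem hImpR : StImpR := by
  intro d p χ η D F Fh F0 M Mh m S sh st sn hd hp hχ hη0 hη hD hFh hF0 hdiff hcrit hF hsh hsn
    hMh hS hm hst hM
  have hd' : (20000 : ℝ) ≤ d := by exact_mod_cast hd
  have hdpos : (0 : ℝ) < d := by linarith
  obtain ⟨hD1, hD2⟩ := abs_le.1 hD
  obtain ⟨hFh1, hFh2⟩ := abs_le.1 hFh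
  obtain ⟨hF01, hF02⟩ := abs_le.1 hF0
  set P : ℝ := 2 * d * p with hP
  have hP0 : 0 ≤ P := by positivity
  set x : ℝ := 1 / χ with hx
  have hx0 : 0 < x := by rw [hx]; positivity
  have hx1 : x ≤ 1 := by
    rw [hx, div_le_one (by linarith)]; exact hχ
  have hxχ : χ * x = 1 := by rw [hx]; field_simp
  set L : ℝ := 1 - (1 - x) * D with hL
  set a : ℝ := 1 - P * D * (1 + Fh) with ha
  -- the equation for `P`
  have hPG : P * (1 + F0) = 1 - (1 + F0) * x := by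
    have h1 : x * (χ * (1 - P * (1 + F0))) = x * (1 + F0) := by rw [hcrit]
    have h2 : x * (χ * (1 - P * (1 + F0))) = 1 - P * (1 + F0) := by
      rw [← mul_assoc, mul_comm x χ, hxχ, one_mul]
    linarith
  have hP1 : P ≤ 200 / 199 := by
    have h1 : 0 ≤ (1 + F0) * x := mul_nonneg (by linarith) hx0.le
    have h2 : P * (199 / 200) ≤ P * (1 + F0) := mul_le_mul_of_nonneg_left (by linarith) hP0
    linarith
  -- facts on `L`
  have hLx : x ≤ L := by
    have h1 : 0 ≤ (1 - D) * (1 - x) := mul_nonneg (by linarith) (by linarith)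
    have h2 : L - x = (1 - D) * (1 - x) := by rw [hL]; ring
    linarith
  have hLpos : 0 < L := lt_of_lt_of_le hx0 hLx
  have hDL : 1 - D ≤ 2 * L := by
    have h1 : 0 ≤ (1 - x) * (1 - D) := mul_nonneg (by linarith) (by linarith)
    have h2 : 0 ≤ x * (1 + D) := mul_nonneg hx0.le (by linarith)
    have h3 : 2 * L - (1 - D) = (1 - x) * (1 - D) + x * (1 + D) := by rw [hL]; ring
    linarith
  have hL2 : L ≤ 2 := by
    have h1 : 0 ≤ (1 - x) * (1 + D) := mul_nonneg (by linarith) (by linarith)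
    have h3 : 2 - L = (1 - x) * (1 + D) + x := by rw [hL]; ring
    linarith
  have hD0 : 0 ≤ 1 - D := by linarith
  -- `a` versus `L`
  have haL : a = L + D * x * F0 - P * D * (Fh - F0) := by
    rw [ha, hL]
    linear_combination (-D) * hPG
  have e1 : |D * x * F0| ≤ η * L := by
    rw [abs_mul, abs_mul, abs_of_pos hx0]
    calc |D| * x * |F0| ≤ 1 * L * η := by
          refine mul_le_mul (mul_le_mul hD hLx hx0.le zero_le_one) hF0 (abs_nonneg _) ?_
          linarith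
      _ = η * L := by ring
  have e2 : |P * D * (Fh - F0)| ≤ 6 * η * P * L := by
    rw [abs_mul, abs_mul, abs_of_nonneg hP0, abs_sub_comm]
    calc P * |D| * |F0 - Fh| ≤ P * 1 * (3 * η * (1 - D)) := by
          refine mul_le_mul (mul_le_mul_of_nonneg_left hD hP0) hdiff (abs_nonneg _) ?_
          linarith
      _ ≤ P * 1 * (3 * η * (2 * L)) := by
          refine mul_le_mul_of_nonneg_left ?_ (by linarith)
          exact mul_le_mul_of_nonneg_left hDL (by linarith)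
      _ = 6 * η * P * L := by ring
  have e3 : 6 * η * P * L ≤ 6 * (1 / 200) * (200 / 199) * L := by
    refine mul_le_mul_of_nonneg_right ?_ hLpos.le
    have : η * P ≤ 1 / 200 * (200 / 199) := mul_le_mul hη hP1 hP0 (by norm_num)
    linarith
  have e4 : η * L ≤ 1 / 200 * L := mul_le_mul_of_nonneg_right hη hLpos.le
  obtain ⟨e11, e12⟩ := abs_le.1 e1
  obtain ⟨e21, e22⟩ := abs_le.1 e2
  have ha1 : 24 / 25 * L ≤ a := by
    rw [haL]; linarith
  have ha2 : a ≤ 21 / 20 * L := by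
    rw [haL]; linarith
  have hapos : 0 < a := lt_of_lt_of_le (by linarith) ha1
  -- `F`
  have hFa : |F| * a ≤ 201 / 200 := by
    rw [← abs_of_pos hapos, ← abs_mul, hF, abs_le]
    constructor <;> linarith
  have hFL : |F| * L ≤ 21 / 20 := by
    have h1 : |F| * (24 / 25 * L) ≤ |F| * a := mul_le_mul_of_nonneg_left ha1 (abs_nonneg _)
    linarith
  refine ⟨by linarith, by linarith, ?_⟩
  -- `p ^ 2`
  have hpp : 8 * d * p ^ 2 ≤ P ^ 2 / 10000 := by
    have h1 : 0 ≤ d * p ^ 2 * (d - 20000) := by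
      have : 0 ≤ (d : ℝ) - 20000 := by linarith
      positivity
    have h2 : P ^ 2 / 10000 - 8 * d * p ^ 2 = 4 / 10000 * (d * p ^ 2 * (d - 20000)) := by
      rw [hP]; ring
    linarith
  have hPsq : P ^ 2 ≤ (200 / 199) ^ 2 := pow_le_pow_left₀ hP0 hP1 2
  have hGsq : (1 + Fh) ^ 2 ≤ (201 / 200) ^ 2 := pow_le_pow_left₀ (by linarith) (by linarith) 2
  have hηsq : η ^ 2 ≤ (1 / 200) ^ 2 := pow_le_pow_left₀ hη0 hη 2
  have hDsq : D ^ 2 ≤ 1 := (sq_le_one_iff_abs_le_one D).2 hD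
  -- `∑ S²`
  have hsum_sn : ∑ j, (2 * p * sn j) ^ 2 ≤ P ^ 2 / 10000 * (1 - D) := by
    have h1 : ∑ j, (2 * p * sn j) ^ 2 = 4 * p ^ 2 * ∑ j, (sn j) ^ 2 := by
      rw [Finset.mul_sum]
      exact Finset.sum_congr rfl fun j _ => by ring
    rw [h1]
    calc 4 * p ^ 2 * ∑ j, (sn j) ^ 2 ≤ 4 * p ^ 2 * (2 * d * (1 - D)) :=
          mul_le_mul_of_nonneg_left hsn (by positivity)
      _ = 8 * d * p ^ 2 * (1 - D) := by ring
      _ ≤ P ^ 2 / 10000 * (1 - D) := mul_le_mul_of_nonneg_right hpp hD0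
  have hsum_S : ∑ j, (S j) ^ 2 ≤ (1 - D) / 1500 := by
    have h1 : ∑ j, (S j) ^ 2 ≤ 2 * P ^ 2 * ∑ j, (sh j) ^ 2 +
        2 * (1 + Fh) ^ 2 * ∑ j, (2 * p * sn j) ^ 2 := by
      rw [Finset.mul_sum, Finset.mul_sum, ← Finset.sum_add_distrib]
      refine Finset.sum_le_sum fun j _ => ?_
      rw [hS j]
      have h2 : (sh j * (2 * d * p * D)) ^ 2 ≤ P ^ 2 * (sh j) ^ 2 := by
        have h3 : (sh j * (2 * d * p * D)) ^ 2 = P ^ 2 * (sh j) ^ 2 * D ^ 2 := by
          rw [hP]; ring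
        rw [h3]
        exact mul_le_of_le_one_right (by positivity) hDsq
      have h4 : (sh j * (2 * d * p * D) + (1 + Fh) * (2 * p * sn j)) ^ 2 =
          2 * (sh j * (2 * d * p * D)) ^ 2 + 2 * (1 + Fh) ^ 2 * (2 * p * sn j) ^ 2 -
          (sh j * (2 * d * p * D) - (1 + Fh) * (2 * p * sn j)) ^ 2 := by ring
      have h5 := sq_nonneg (sh j * (2 * d * p * D) - (1 + Fh) * (2 * p * sn j))
      linarith
    have h2 : 2 * P ^ 2 * ∑ j, (sh j) ^ 2 ≤ 2 * (200 / 199) ^ 2 * (9 * (1 / 200) ^ 2 * (1 - D)) := by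
      refine mul_le_mul (by linarith) (hsh.trans ?_) (Finset.sum_nonneg fun j _ => sq_nonneg _)
        (by norm_num)
      exact mul_le_mul_of_nonneg_right (by linarith) hD0
    have h3 : 2 * (1 + Fh) ^ 2 * ∑ j, (2 * p * sn j) ^ 2 ≤
        2 * (201 / 200) ^ 2 * ((200 / 199) ^ 2 / 10000 * (1 - D)) := by
      refine mul_le_mul (by linarith) (hsum_sn.trans ?_)
        (Finset.sum_nonneg fun j _ => sq_nonneg _) (by norm_num)
      exact mul_le_mul_of_nonneg_right (by linarith) hD0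
    linarith
  -- `m`
  have hcross : |∑ j, sh j * (2 * p * sn j)| ≤ 3 / 10000 * P := by
    have h1 := Finset.sum_mul_sq_le_sq_mul_sq Finset.univ sh (fun j => 2 * p * sn j)
    have h2 : (∑ j, (sh j) ^ 2) * ∑ j, (2 * p * sn j) ^ 2 ≤
        (9 * η ^ 2 * (1 - D)) * (P ^ 2 / 10000 * (1 - D)) :=
      mul_le_mul hsh hsum_sn (Finset.sum_nonneg fun j _ => sq_nonneg _)
        (by positivity)
    have h3 : (9 * η ^ 2 * (1 - D)) * (P ^ 2 / 10000 * (1 - D)) ≤ (3 / 10000 * P) ^ 2 := by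
      have h4 : (1 - D) ^ 2 ≤ 4 := by
        have h8 := pow_le_pow_left₀ hD0 (by linarith : 1 - D ≤ 2) 2
        norm_num at h8
        exact h8
      have h5 : η ^ 2 * (1 - D) ^ 2 ≤ (1 / 200) ^ 2 * 4 :=
        mul_le_mul hηsq h4 (sq_nonneg _) (by norm_num)
      have h6 : (9 * η ^ 2 * (1 - D)) * (P ^ 2 / 10000 * (1 - D)) =
          9 / 10000 * P ^ 2 * (η ^ 2 * (1 - D) ^ 2) := by ring
      rw [h6]
      have h7 : 9 / 10000 * P ^ 2 * (η ^ 2 * (1 - D) ^ 2) ≤ 9 / 10000 * P ^ 2 * ((1 / 200) ^ 2 * 4) :=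
        mul_le_mul_of_nonneg_left h5 (by positivity)
      refine h7.trans (le_of_eq ?_)
      ring
    exact abs_le_of_sq_le_sq (h1.trans (h2.trans h3)) (by positivity)
  have hmb : |m| ≤ 51 / 50 := by
    obtain ⟨c1, c2⟩ := abs_le.1 hcross
    obtain ⟨c3, c4⟩ := abs_le.1 hMh
    have hPD : |P * D| ≤ P := by
      rw [abs_mul, abs_of_nonneg hP0]
      exact mul_le_of_le_one_right hP0 hD
    have h1 : |Mh * (P * D)| ≤ 1 / 200 * P := by
      rw [abs_mul]
      exact mul_le_mul (hMh.trans hη) hPD (abs_nonneg _) (by norm_num)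
    have h2 : |(1 + Fh) * (P * D)| ≤ 201 / 200 * P := by
      rw [abs_mul]
      refine mul_le_mul ?_ hPD (abs_nonneg _) (by norm_num)
      rw [abs_le]; constructor <;> linarith
    obtain ⟨c5, c6⟩ := abs_le.1 h1
    obtain ⟨c7, c8⟩ := abs_le.1 h2
    rw [hm, abs_le]
    constructor <;> linarith
  -- `∑ S st`
  have hsum_st : a ^ 2 * L ^ 2 * ∑ j, (st j) ^ 2 ≤ (1 - D) / 300 := by
    have h1 : a ^ 2 * ∑ j, (st j) ^ 2 ≤ 2 * ∑ j, (sh j) ^ 2 + 2 * F ^ 2 * ∑ j, (S j) ^ 2 := by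
      rw [Finset.mul_sum, Finset.mul_sum, Finset.mul_sum, ← Finset.sum_add_distrib]
      refine Finset.sum_le_sum fun j _ => ?_
      have h2 : a ^ 2 * (st j) ^ 2 = (sh j + S j * F) ^ 2 := by
        rw [← hst j]; ring
      rw [h2]
      have h3 : (sh j + S j * F) ^ 2 = 2 * (sh j) ^ 2 + 2 * F ^ 2 * (S j) ^ 2 -
          (sh j - S j * F) ^ 2 := by ring
      have h4 := sq_nonneg (sh j - S j * F)
      linarith
    have hF2 : F ^ 2 * L ^ 2 ≤ (21 / 20) ^ 2 := by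
      have h3 : F ^ 2 * L ^ 2 = (|F| * L) ^ 2 := by rw [mul_pow, sq_abs]
      rw [h3]
      exact pow_le_pow_left₀ (by positivity) hFL 2
    have hLsq : L ^ 2 ≤ 4 := by
      have h8 := pow_le_pow_left₀ hLpos.le hL2 2
      norm_num at h8
      exact h8
    have h4 : L ^ 2 * (a ^ 2 * ∑ j, (st j) ^ 2) ≤
        L ^ 2 * (2 * ∑ j, (sh j) ^ 2 + 2 * F ^ 2 * ∑ j, (S j) ^ 2) :=
      mul_le_mul_of_nonneg_left h1 (sq_nonneg _)
    have h5 : L ^ 2 * (∑ j, (sh j) ^ 2) ≤ 4 * (9 * (1 / 200) ^ 2 * (1 - D)) := by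
      refine mul_le_mul hLsq (hsh.trans ?_) (Finset.sum_nonneg fun j _ => sq_nonneg _) (by norm_num)
      exact mul_le_mul_of_nonneg_right (by linarith) hD0
    have h6 : (F ^ 2 * L ^ 2) * (∑ j, (S j) ^ 2) ≤ (21 / 20) ^ 2 * ((1 - D) / 1500) :=
      mul_le_mul hF2 hsum_S (Finset.sum_nonneg fun j _ => sq_nonneg _) (by norm_num)
    have h7 : a ^ 2 * L ^ 2 * ∑ j, (st j) ^ 2 = L ^ 2 * (a ^ 2 * ∑ j, (st j) ^ 2) := by ring
    rw [h7]
    have h8 : L ^ 2 * (2 * ∑ j, (sh j) ^ 2 + 2 * F ^ 2 * ∑ j, (S j) ^ 2) =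
        2 * (L ^ 2 * (∑ j, (sh j) ^ 2)) + 2 * ((F ^ 2 * L ^ 2) * (∑ j, (S j) ^ 2)) := by ring
    linarith
  have hSst : |∑ j, S j * st j| * a ≤ 1 / 300 := by
    have h1 := Finset.sum_mul_sq_le_sq_mul_sq Finset.univ S st
    have h2 : (∑ j, S j * st j) ^ 2 * (a ^ 2 * L ^ 2) ≤
        (∑ j, (S j) ^ 2) * (a ^ 2 * L ^ 2 * ∑ j, (st j) ^ 2) := by
      have := mul_le_mul_of_nonneg_right h1 (by positivity : 0 ≤ a ^ 2 * L ^ 2)
      linarith
    have h3 : (∑ j, (S j) ^ 2) * (a ^ 2 * L ^ 2 * ∑ j, (st j) ^ 2) ≤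
        (1 - D) / 1500 * ((1 - D) / 300) := by
      refine mul_le_mul hsum_S hsum_st ?_ (by linarith)
      exact mul_nonneg (by positivity) (Finset.sum_nonneg fun j _ => sq_nonneg _)
    have h4 : (1 - D) / 1500 * ((1 - D) / 300) ≤ (1 / 300 * L) ^ 2 := by
      have h5 : (1 - D) * (1 - D) ≤ (2 * L) * (2 * L) := mul_le_mul hDL hDL hD0 (by linarith)
      have h6 : (1 - D) / 1500 * ((1 - D) / 300) = ((1 - D) * (1 - D)) / 450000 := by ring
      have h7 : (1 / 300 * L) ^ 2 = L * L / 90000 := by ring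
      have h8 : (2 * L) * (2 * L) = 4 * (L * L) := by ring
      have h9 := mul_self_nonneg L
      rw [h6, h7]
      rw [h8] at h5
      linarith
    have h5 : (|∑ j, S j * st j| * a * L) ^ 2 ≤ (1 / 300 * L) ^ 2 := by
      have h6 : (|∑ j, S j * st j| * a * L) ^ 2 = (∑ j, S j * st j) ^ 2 * (a ^ 2 * L ^ 2) := by
        rw [mul_pow, mul_pow, sq_abs]; ring
      rw [h6]
      exact h2.trans (h3.trans h4)
    have h7 : |∑ j, S j * st j| * a * L ≤ 1 / 300 * L := by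
      exact le_of_sq_le_sq h5 (by positivity)
    exact le_of_mul_le_mul_right h7 hLpos
  -- conclusion
  have hMa : |M| * a ^ 2 ≤ 11 / 10 := by
    have h1 : |M| * a ^ 2 = |Mh + m * F - 2 * ∑ j, S j * st j| * a := by
      rw [← hM, abs_mul, abs_of_pos hapos]; ring
    rw [h1]
    have h2 : |Mh + m * F - 2 * ∑ j, S j * st j| ≤ |Mh| + |m| * |F| + 2 * |∑ j, S j * st j| := by
      refine (abs_sub _ _).trans ?_
      refine add_le_add ((abs_add_le _ _).trans ?_) ?_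
      · rw [abs_mul]
      · rw [abs_mul, abs_of_pos (by norm_num : (0 : ℝ) < 2)]
    have h3 := mul_le_mul_of_nonneg_right h2 hapos.le
    have h4 : |Mh| * a ≤ 1 / 200 * (21 / 10) := by
      refine mul_le_mul (hMh.trans hη) (by linarith) hapos.le (by norm_num)
    have h5 : |m| * (|F| * a) ≤ 51 / 50 * (201 / 200) :=
      mul_le_mul hmb hFa (by positivity) (by norm_num)
    have h6 : (|Mh| + |m| * |F| + 2 * |∑ j, S j * st j|) * a =
        |Mh| * a + |m| * (|F| * a) + 2 * (|∑ j, S j * st j| * a) := by ring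
    rw [h6] at h3
    linarith
  have hLa : L ^ 2 ≤ (25 / 24) ^ 2 * a ^ 2 := by
    have : L ≤ 25 / 24 * a := by linarith
    calc L ^ 2 ≤ (25 / 24 * a) ^ 2 := pow_le_pow_left₀ hLpos.le this 2
      _ = (25 / 24) ^ 2 * a ^ 2 := by ring
  have h9 := mul_le_mul_of_nonneg_left hLa (abs_nonneg M)
  have h10 : |M| * ((25 / 24) ^ 2 * a ^ 2) = (25 / 24) ^ 2 * (|M| * a ^ 2) := by ring
  rw [h10] at h9
  linarith

end Pool.LE
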