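import Pool.Agent.Helper84.LE.St3

/-! LE module Inv: Fourier inversion (plan 7). -/

set_option autoImplicit false
open scoped BigOperators
open MeasureTheory

namespace Pool.LE

namespace InvM

/-- one-dimensional orthogonality -/
theorem int_one (m : ℤ) :
    ∫ t, Complex.exp (((m : ℝ) * t : ℝ) * Complex.I) ∂nu = if m = 0 then 1 else 0 := by
  unfold nu
  rw [integral_smul_measure, ← intervalIntegral.integral_of_le (by linarith [Real.pi_pos])]
  have hpi := Real.pi_pos
  split_ifs with hm
  · subst hm
    simp only [Int.cast_zero, zero_mul, Complex.ofReal_zero, Complex.exp_zero]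
    rw [intervalIntegral.integral_const, ENNReal.toReal_ofReal (by positivity)]
    rw [smul_smul]
    have h : (1 / (2 * Real.pi)) * (Real.pi - -Real.pi) = 1 := by field_simp; ring
    rw [h, one_smul]
  · have hc : ((m : ℂ) * Complex.I) ≠ 0 := by
      apply mul_ne_zero _ Complex.I_ne_zero
      exact_mod_cast hm
    have h1 : ∀ t : ℝ, Complex.exp (((m : ℝ) * t : ℝ) * Complex.I) =
        Complex.exp ((m : ℂ) * Complex.I * t) := by
      intro t
      congr 1
      push_cast
      ring
    simp only [h1]
    rw [integral_exp_mul_complex hc]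
    have h2 : Complex.exp ((m : ℂ) * Complex.I * (Real.pi : ℝ)) =
        Complex.exp ((m : ℂ) * Complex.I * ((-Real.pi : ℝ) : ℂ)) := by
      rw [Complex.exp_eq_exp_iff_exists_int]
      refine ⟨m, ?_⟩
      push_cast
      ring
    rw [h2, sub_self, zero_div, smul_zero]

theorem int_exp (hN : StNuProb) {d : ℕ} (m : Zd d) :
    ∫ k : Fin d → ℝ, Complex.exp (((∑ i, k i * m i : ℝ) : ℂ) * Complex.I) ∂(muT d) =
      if m = 0 then 1 else 0 := by
  have := hN.1
  have h1 : ∀ k : Fin d → ℝ, Complex.exp (((∑ i, k i * m i : ℝ) : ℂ) * Complex.I) =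
      ∏ i, Complex.exp ((((m i : ℤ) : ℝ) * k i : ℝ) * Complex.I) := by
    intro k
    rw [← Complex.exp_sum, ← Finset.sum_mul]
    congr 2
    push_cast
    exact Finset.sum_congr rfl fun i _ => by ring
  simp only [h1]
  unfold muT
  rw [integral_fintype_prod_eq_prod (𝕜 := ℂ)
    (fun i (t : ℝ) => Complex.exp ((((m i : ℤ) : ℝ) * t : ℝ) * Complex.I))]
  simp only [int_one]
  split_ifs with hm
  · subst hm
    simp
  · obtain ⟨i, hi⟩ := Function.ne_iff.1 hm
    apply Finset.prod_eq_zero (Finset.mem_univ i)
    exact if_neg hi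

theorem cont_lin {d : ℕ} (m : Zd d) : Continuous fun k : Fin d → ℝ => ∑ i, k i * (m i : ℝ) := by
  fun_prop

theorem int_cos (hN : StNuProb) {d : ℕ} (m : Zd d) :
    ∫ k : Fin d → ℝ, Real.cos (∑ i, k i * m i) ∂(muT d) = if m = 0 then 1 else 0 := by
  have := hN.2 d
  have hint : Integrable (fun k : Fin d → ℝ =>
      Complex.exp (((∑ i, k i * m i : ℝ) : ℂ) * Complex.I)) (muT d) := by
    apply Integrable.of_bound (C := 1)
    · have hc := cont_lin m
      exact (by fun_prop : Continuous fun k : Fin d → ℝ =>
        Complex.exp (((∑ i, k i * m i : ℝ) : ℂ) * Complex.I)).aestronglyMeasurable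
    · exact Filter.Eventually.of_forall fun k => by rw [Complex.norm_exp_ofReal_mul_I]
  have h1 := int_exp hN m
  have h2 : ∫ k : Fin d → ℝ, Real.cos (∑ i, k i * m i) ∂(muT d) =
      (∫ k : Fin d → ℝ, Complex.exp (((∑ i, k i * m i : ℝ) : ℂ) * Complex.I) ∂(muT d)).re := by
    have h3 := integral_re hint
    simp only [RCLike.re_eq_complex_re] at h3
    rw [← h3]
    congr 1
    ext k
    rw [Complex.exp_ofReal_mul_I_re]
  rw [h2, h1]
  split_ifs <;> simp

theorem int_coscos (hN : StNuProb) {d : ℕ} (x y : Zd d) :
    Integrable (fun k : Fin d → ℝ => Real.cos (∑ i, k i * y i) * Real.cos (∑ i, k i * x i)) (muT d) ∧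
    ∫ k : Fin d → ℝ, Real.cos (∑ i, k i * y i) * Real.cos (∑ i, k i * x i) ∂(muT d) =
      ((if y = x then 1 else 0) + (if y = -x then 1 else 0)) / 2 := by
  have := hN.2 d
  have hb : ∀ m : Zd d, Integrable (fun k : Fin d → ℝ => Real.cos (∑ i, k i * m i)) (muT d) := by
    intro m
    apply Integrable.of_bound (C := 1)
    · have hc := cont_lin m
      exact (by fun_prop : Continuous fun k : Fin d → ℝ =>
        Real.cos (∑ i, k i * m i)).aestronglyMeasurable
    · exact Filter.Eventually.of_forall fun k => by
        rw [Real.norm_eq_abs]; exact Real.abs_cos_le_one _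
  have h1 : ∀ k : Fin d → ℝ, Real.cos (∑ i, k i * y i) * Real.cos (∑ i, k i * x i) =
      (Real.cos (∑ i, k i * (y - x) i) + Real.cos (∑ i, k i * (y + x) i)) / 2 := by
    intro k
    have e1 : ∑ i, k i * ((y - x) i : ℤ) = ∑ i, k i * y i - ∑ i, k i * x i := by
      rw [← Finset.sum_sub_distrib]
      exact Finset.sum_congr rfl fun i _ => by rw [Pi.sub_apply]; push_cast; ring
    have e2 : ∑ i, k i * ((y + x) i : ℤ) = ∑ i, k i * y i + ∑ i, k i * x i := by
      rw [← Finset.sum_add_distrib]
      exact Finset.sum_congr rfl fun i _ => by rw [Pi.add_apply]; push_cast; ring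
    rw [e1, e2, Real.cos_sub, Real.cos_add]
    ring
  constructor
  · simp only [h1]
    exact ((hb _).add (hb _)).div_const 2
  · simp only [h1]
    rw [integral_div, integral_add (hb _) (hb _), int_cos hN, int_cos hN]
    congr 2
    · simp only [sub_eq_zero]
    · simp only [eq_neg_iff_add_eq_zero]

end InvM

open InvM in
theorem hInv (hN : StNuProb) : StInv := by
  intro d f hf he x
  have := hN.2 d
  set F : Zd d → (Fin d → ℝ) → ℝ := fun y k =>
    f y * (Real.cos (∑ i, k i * y i) * Real.cos (∑ i, k i * x i)) with hF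
  have hsum : ∀ k : Fin d → ℝ, Summable fun y : Zd d => f y * Real.cos (∑ i, k i * y i) := by
    intro k
    apply Summable.of_norm_bounded hf.abs
    intro y
    rw [Real.norm_eq_abs, abs_mul]
    exact mul_le_of_le_one_right (abs_nonneg _) (Real.abs_cos_le_one _)
  have hFT : ∀ k : Fin d → ℝ, FT f k * Real.cos (∑ i, k i * x i) = ∑' y, F y k := by
    intro k
    unfold FT
    rw [← tsum_mul_right]
    exact tsum_congr fun y => by rw [hF]; ring
  have hint : ∀ y, Integrable (F y) (muT d) := fun y => (int_coscos hN x y).1.const_mul _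
  have hnb : ∀ y, ∀ k, ‖F y k‖ ≤ |f y| := by
    intro y k
    rw [hF, Real.norm_eq_abs, abs_mul, abs_mul]
    have h1 := Real.abs_cos_le_one (∑ i, k i * (y i : ℝ))
    have h2 := Real.abs_cos_le_one (∑ i, k i * (x i : ℝ))
    have h3 : |Real.cos (∑ i, k i * (y i : ℝ))| * |Real.cos (∑ i, k i * (x i : ℝ))| ≤ 1 :=
      mul_le_one₀ h1 (abs_nonneg _) h2
    exact mul_le_of_le_one_right (abs_nonneg _) h3
  have hns : Summable fun y => ∫ k, ‖F y k‖ ∂(muT d) := by
    apply Summable.of_nonneg_of_le (fun y => integral_nonneg fun k => norm_nonneg _) _ hf.abs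
    intro y
    calc ∫ k, ‖F y k‖ ∂(muT d) ≤ ∫ k, |f y| ∂(muT d) :=
          integral_mono (hint y).norm (integrable_const _) (fun k => hnb y k)
      _ = |f y| := by simp
  have hs := hasSum_integral_of_summable_integral_norm hint hns
  constructor
  · have hcont : Continuous fun k : Fin d → ℝ => ∑' y, F y k := by
      apply continuous_tsum (u := fun y => |f y|)
      · intro y
        rw [hF]
        have h1 := cont_lin y
        have h2 := cont_lin x
        fun_prop
      · exact hf.abs
      · intro y k
        exact hnb y k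
    have h3 : Integrable (fun k : Fin d → ℝ => ∑' y, F y k) (muT d) := by
      apply Integrable.of_bound (C := ∑' y, |f y|) hcont.aestronglyMeasurable
      apply Filter.Eventually.of_forall
      intro k
      have h4 : Summable fun y => ‖F y k‖ :=
        Summable.of_nonneg_of_le (fun y => norm_nonneg _) (fun y => hnb y k) hf.abs
      exact (norm_tsum_le_tsum_norm h4).trans (h4.tsum_le_tsum (fun y => hnb y k) hf.abs)
    simpa only [hFT] using h3
  · simp only [hFT]
    rw [← hs.tsum_eq]
    have h5 : ∀ y, ∫ k, F y k ∂(muT d) =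
        (if y = x then f x / 2 else 0) + (if y = -x then f x / 2 else 0) := by
      intro y
      rw [hF]
      simp only
      rw [integral_const_mul, (int_coscos hN x y).2]
      by_cases h1 : y = x
      · subst h1
        by_cases h2 : y = -y
        · rw [if_pos rfl, if_pos h2, if_pos rfl, if_pos h2]
          ring
        · rw [if_pos rfl, if_neg h2, if_pos rfl, if_neg h2]
          ring
      · by_cases h2 : y = -x
        · rw [if_neg h1, if_pos h2, if_neg h1, if_pos h2, h2, he x]
          ring
        · rw [if_neg h1, if_neg h2, if_neg h1, if_neg h2]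
          ring
    simp only [h5]
    rw [Summable.tsum_add]
    · rw [tsum_ite_eq, tsum_ite_eq]
      ring
    · exact (hasSum_ite_eq x (f x / 2)).summable
    · exact (hasSum_ite_eq (-x) (f x / 2)).summable

end Pool.LE
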