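import Pool.Agent.Helper84.LE.St3

/-!
# LE module Jf: transforms of the neighbour function
-/

set_option autoImplicit false
open scoped BigOperators
open MeasureTheory

namespace Pool.LE

namespace JfAux

variable {d : ℕ}

theorem nb_zero : nb (0 : Zd d) = Finset.univ.image (fun i : Fin d => (Pi.single i 1 : Zd d)) ∪
    Finset.univ.image (fun i : Fin d => (-Pi.single i 1 : Zd d)) := by
  unfold nb
  simp only [zero_add, zero_sub]

theorem single_inj : Function.Injective (fun i : Fin d => (Pi.single i 1 : Zd d)) := by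
  intro i j h
  by_contra hne
  have h1 := congrFun h i
  simp only [Pi.single_eq_same, Pi.single_eq_of_ne hne] at h1
  exact one_ne_zero h1

theorem sum_nb (G : Zd d → ℝ) :
    ∑ x ∈ nb (0 : Zd d), G x = ∑ i : Fin d, (G (Pi.single i 1) + G (-Pi.single i 1)) := by
  rw [nb_zero, Finset.sum_union, Finset.sum_image, Finset.sum_image, ← Finset.sum_add_distrib]
  · exact fun i _ j _ h => single_inj (neg_injective h)
  · exact fun i _ j _ h => single_inj h
  · rw [Finset.disjoint_left]
    intro x h1 h2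
    rw [Finset.mem_image] at h1 h2
    obtain ⟨i, -, rfl⟩ := h1
    obtain ⟨j, -, h⟩ := h2
    have h3 := congrFun h i
    rw [Pi.neg_apply, Pi.single_eq_same, Pi.single_apply] at h3
    split_ifs at h3
    all_goals omega

theorem tsum_nb (G : Zd d → ℝ) : ∑' x, (if x ∈ nb (0 : Zd d) then G x else 0) =
    ∑ i : Fin d, (G (Pi.single i 1) + G (-Pi.single i 1)) := by
  rw [tsum_eq_sum (s := nb (0 : Zd d)), ← sum_nb]
  · exact Finset.sum_congr rfl fun x hx => if_pos hx
  · exact fun x hx => if_neg hx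

theorem dot_single (k : Fin d → ℝ) (i : Fin d) :
    ∑ j, k j * ((Pi.single i 1 : Zd d) j : ℝ) = k i := by
  rw [Finset.sum_eq_single i]
  · simp
  · intro j _ hj
    simp [Pi.single_eq_of_ne hj]
  · exact fun h => absurd (Finset.mem_univ i) h

theorem dot_neg_single (k : Fin d → ℝ) (i : Fin d) :
    ∑ j, k j * ((-Pi.single i 1 : Zd d) j : ℝ) = -k i := by
  rw [← dot_single k i, ← Finset.sum_neg_distrib]
  refine Finset.sum_congr rfl fun j _ => ?_
  rw [Pi.neg_apply]
  push_cast
  ring

theorem sq_single (i : Fin d) : sq (Pi.single i (1 : ℤ) : Zd d) = 1 := by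
  unfold sq
  rw [Finset.sum_eq_single i]
  · simp
  · intro j _ hj
    simp [Pi.single_eq_of_ne hj]
  · exact fun h => absurd (Finset.mem_univ i) h

theorem sq_neg (x : Zd d) : sq (-x) = sq x := by
  unfold sq
  refine Finset.sum_congr rfl fun i _ => ?_
  rw [Pi.neg_apply]
  push_cast
  ring

theorem two_d_Dh (k : Fin d → ℝ) : 2 * d * Dh k = ∑ i, (Real.cos (k i) + Real.cos (-k i)) := by
  unfold Dh
  rcases Nat.eq_zero_or_pos d with rfl | hd
  · simp
  · have h0 : (d : ℝ) ≠ 0 := by positivity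
    simp only [Real.cos_neg]
    rw [← Finset.sum_congr rfl (fun i _ => two_mul (Real.cos (k i))), ← Finset.mul_sum]
    field_simp

theorem sgp_single (σ : Equiv.Perm (Fin d)) (s : Fin d → ℤˣ) (j : Fin d) :
    sgp σ s (Pi.single j 1) = Pi.single (σ.symm j) (s (σ.symm j) : ℤ) := by
  funext i
  unfold sgp
  by_cases h : i = σ.symm j
  · subst h
    rw [Equiv.apply_symm_apply, Pi.single_eq_same, Pi.single_eq_same, mul_one]
  · rw [Pi.single_eq_of_ne h, Pi.single_eq_of_ne, mul_zero]
    intro h1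
    exact h ((Equiv.eq_symm_apply σ).2 h1)

theorem sgp_neg (σ : Equiv.Perm (Fin d)) (s : Fin d → ℤˣ) (x : Zd d) :
    sgp σ s (-x) = -sgp σ s x := by
  funext i
  unfold sgp
  rw [Pi.neg_apply, Pi.neg_apply, mul_neg]

theorem mem_nb_zero (x : Zd d) :
    x ∈ nb (0 : Zd d) ↔ ∃ i, x = Pi.single i 1 ∨ x = -Pi.single i 1 := by
  rw [nb_zero, Finset.mem_union, Finset.mem_image, Finset.mem_image]
  constructor
  · rintro (⟨i, -, rfl⟩ | ⟨i, -, rfl⟩)
    · exact ⟨i, Or.inl rfl⟩
    · exact ⟨i, Or.inr rfl⟩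
  · rintro ⟨i, rfl | rfl⟩
    · exact Or.inl ⟨i, Finset.mem_univ i, rfl⟩
    · exact Or.inr ⟨i, Finset.mem_univ i, rfl⟩

theorem sgp_nb (σ : Equiv.Perm (Fin d)) (s : Fin d → ℤˣ) (x : Zd d) (h : x ∈ nb (0 : Zd d)) :
    sgp σ s x ∈ nb (0 : Zd d) := by
  rw [mem_nb_zero] at h ⊢
  obtain ⟨j, rfl | rfl⟩ := h
  · refine ⟨σ.symm j, ?_⟩
    rw [sgp_single]
    rcases Int.units_eq_one_or (s (σ.symm j)) with h | h <;> rw [h]
    · left; simp
    · right
      rw [← Pi.single_neg]
      simp
  · refine ⟨σ.symm j, ?_⟩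
    rw [sgp_neg, sgp_single]
    rcases Int.units_eq_one_or (s (σ.symm j)) with h | h <;> rw [h]
    · right; simp
    · left
      rw [← Pi.single_neg]
      simp

theorem sgp_inv (σ : Equiv.Perm (Fin d)) (s : Fin d → ℤˣ) (x : Zd d) :
    sgp σ.symm (fun i => s (σ.symm i)) (sgp σ s x) = x := by
  funext i
  show (s (σ.symm i) : ℤ) * ((s (σ.symm i) : ℤ) * x (σ (σ.symm i))) = x i
  rw [Equiv.apply_symm_apply, ← mul_assoc]
  rcases Int.units_eq_one_or (s (σ.symm i)) with h | h <;> rw [h] <;> simp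

end JfAux

open JfAux in
theorem hJf (hBox : StBox) : StJf := by
  intro d
  have _ := hBox
  refine ⟨?_, ?_, ?_⟩
  · apply summable_of_ne_finset_zero (s := nb (0 : Zd d))
    intro x hx
    unfold Jf
    rw [if_neg hx, abs_zero, mul_zero]
  · intro σ s x
    unfold Jf
    have : sgp σ s x ∈ nb (0 : Zd d) ↔ x ∈ nb (0 : Zd d) := by
      refine ⟨fun h => ?_, sgp_nb σ s x⟩
      have h1 := sgp_nb σ.symm (fun i => s (σ.symm i)) _ h
      rwa [sgp_inv] at h1
    simp only [this]
  · intro k
    refine ⟨?_, ?_, fun j => ?_⟩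
    · unfold FT Jf
      have h : ∀ x : Zd d, (if x ∈ nb (0 : Zd d) then (1 : ℝ) else 0) *
          Real.cos (∑ i, k i * x i) =
          if x ∈ nb (0 : Zd d) then Real.cos (∑ i, k i * x i) else 0 := by
        intro x
        split_ifs <;> simp
      rw [tsum_congr h, tsum_nb, two_d_Dh]
      refine Finset.sum_congr rfl fun i _ => ?_
      rw [dot_single, dot_neg_single]
    · unfold MT Jf
      have h : ∀ x : Zd d, sq x * (if x ∈ nb (0 : Zd d) then (1 : ℝ) else 0) *
          Real.cos (∑ i, k i * x i) =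
          if x ∈ nb (0 : Zd d) then sq x * Real.cos (∑ i, k i * x i) else 0 := by
        intro x
        split_ifs <;> simp
      rw [tsum_congr h, tsum_nb, two_d_Dh]
      refine Finset.sum_congr rfl fun i _ => ?_
      rw [dot_single, dot_neg_single, sq_neg, sq_single, one_mul, one_mul]
    · unfold SJ Jf
      have h : ∀ x : Zd d, (x j : ℝ) * (if x ∈ nb (0 : Zd d) then (1 : ℝ) else 0) *
          Real.sin (∑ i, k i * x i) =
          if x ∈ nb (0 : Zd d) then (x j : ℝ) * Real.sin (∑ i, k i * x i) else 0 := by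
        intro x
        split_ifs <;> simp
      rw [tsum_congr h, tsum_nb]
      have h2 : ∀ i : Fin d, (((Pi.single i 1 : Zd d) j : ℤ) : ℝ) *
          Real.sin (∑ l, k l * ((Pi.single i 1 : Zd d) l : ℝ)) +
          (((-Pi.single i 1 : Zd d) j : ℤ) : ℝ) *
          Real.sin (∑ l, k l * ((-Pi.single i 1 : Zd d) l : ℝ)) =
          if i = j then 2 * Real.sin (k j) else 0 := by
        intro i
        rw [dot_single, dot_neg_single, Real.sin_neg, Pi.neg_apply]
        by_cases hij : i = j
        · subst hij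
          rw [if_pos rfl, Pi.single_eq_same]
          push_cast
          ring
        · rw [if_neg hij, Pi.single_eq_of_ne (fun h => hij h.symm)]
          simp
      rw [Finset.sum_congr rfl fun i _ => h2 i, Finset.sum_ite_eq' Finset.univ j,
        if_pos (Finset.mem_univ j)]

end Pool.LE
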