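import Pool.Agent.Helper84.LE.St5

set_option autoImplicit false
open scoped BigOperators Topology
open MeasureTheory Filter

namespace Pool.LE

theorem kft_summable_cos {d : ℕ} (f : Zd d → ℝ) (hf : Summable f) (k : Fin d → ℝ) :
    Summable (fun x : Zd d => f x * Real.cos (∑ i, k i * x i)) := by
  apply Summable.of_norm_bounded (g := fun x => |f x|) hf.abs
  intro x
  rw [Real.norm_eq_abs, abs_mul]
  have := Real.abs_cos_le_one (∑ i, k i * x i)
  nlinarith [abs_nonneg (f x)]

theorem hKft (hB1 : StB1) (hTb : StFTb) (hDh : StDh) : StKft := by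
  intro d p hd hp0 hp hBd k hk
  obtain ⟨_, hS, _, _, hl0, hl1, _⟩ := hB1 d p hd hp0 hp
  obtain ⟨s1, s2, _⟩ := hTb d (tau d p) hS k
  obtain ⟨_, _, _, hL⟩ := hDh d k hd
  obtain ⟨L0, L2, _, _⟩ := hL (lam d p) hl0 hl1
  have hF := hBd.ft k hk
  have hM := hBd.mt k hk
  set L := 1 - lam d p * Dh k with hLdef
  have c1 := kft_summable_cos (tau d p) s1 k
  have c2 := kft_summable_cos (fun x => sq x * tau d p x) s2 k
  have e : FT (fun x => Qw x * tau d p x) k = 2 * FT (tau d p) k + 2 * MT (tau d p) k := by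
    unfold FT MT
    rw [← tsum_mul_left, ← tsum_mul_left, ← (c1.mul_left 2).tsum_add (c2.mul_left 2)]
    apply tsum_congr
    intro x
    unfold Qw
    ring
  rw [e]
  have hL2 : 0 < L ^ 2 := by positivity
  have h1 : |2 * FT (tau d p) k + 2 * MT (tau d p) k| ≤
      2 * |FT (tau d p) k| + 2 * |MT (tau d p) k| := by
    refine (abs_add_le _ _).trans ?_
    rw [abs_mul, abs_mul, abs_of_pos (by norm_num : (0:ℝ) < 2)]
  refine h1.trans ?_
  rw [← div_eq_mul_inv, le_div_iff₀ hL2]
  have h2 : |FT (tau d p) k| * L ^ 2 ≤ 6 := by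
    have : |FT (tau d p) k| * L ^ 2 = (|FT (tau d p) k| * L) * L := by ring
    rw [this]
    have := abs_nonneg (FT (tau d p) k)
    nlinarith [mul_nonneg this L0.le]
  nlinarith

end Pool.LE
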