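import Pool.Agent.Helper84.LE.St3
import Pool.Agent.Helper84.LE.M_CvFT

/-! Module KpInt: powers of translation invariant kernels. -/

set_option autoImplicit false
open scoped BigOperators
open MeasureTheory

namespace Pool.LE

namespace KpIntaux

open CvFTaux

variable {d : ℕ}

/-- the change of variables `(x, y) ↦ (y, x - y)` -/
def sh (d : ℕ) : Zd d × Zd d ≃ Zd d × Zd d where
  toFun := fun p => (p.2, p.1 - p.2)
  invFun := fun p => (p.1 + p.2, p.1)
  left_inv := by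
    rintro ⟨x, y⟩
    simp
  right_inv := by
    rintro ⟨x, y⟩
    simp

theorem summable_prod_mul {f g : Zd d → ℝ} (hf0 : ∀ x, 0 ≤ f x) (hg0 : ∀ x, 0 ≤ g x)
    (hf : Summable f) (hg : Summable g) :
    Summable (fun p : Zd d × Zd d => f p.1 * g p.2) :=
  hf.mul_of_nonneg hg hf0 hg0

theorem summable_sh {f g : Zd d → ℝ} (hf0 : ∀ x, 0 ≤ f x) (hg0 : ∀ x, 0 ≤ g x)
    (hf : Summable f) (hg : Summable g) :
    Summable (fun p : Zd d × Zd d => f p.2 * g (p.1 - p.2)) :=
  ((sh d).summable_iff (f := fun p : Zd d × Zd d => f p.1 * g p.2)).2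
    (summable_prod_mul hf0 hg0 hf hg)

theorem cv_nonneg {f g : Zd d → ℝ} (hf0 : ∀ x, 0 ≤ f x) (hg0 : ∀ x, 0 ≤ g x) (x : Zd d) :
    0 ≤ cv f g x := by
  unfold cv
  exact tsum_nonneg fun y => mul_nonneg (hf0 y) (hg0 _)

theorem cv_summable {f g : Zd d → ℝ} (hf0 : ∀ x, 0 ≤ f x) (hg0 : ∀ x, 0 ≤ g x)
    (hf : Summable f) (hg : Summable g) : Summable (cv f g) :=
  (summable_sh hf0 hg0 hf hg).prod

theorem cv_fiber {f g : Zd d → ℝ} (hf0 : ∀ x, 0 ≤ f x) (hg0 : ∀ x, 0 ≤ g x)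
    (hf : Summable f) (hg : Summable g) (x : Zd d) : Summable (fun y => f y * g (x - y)) :=
  (summable_sh hf0 hg0 hf hg).prod_factor x

theorem cv_even {f g : Zd d → ℝ} (ef : EvenF f) (eg : EvenF g) : EvenF (cv f g) := by
  intro x
  unfold cv
  rw [← (Equiv.neg (Zd d)).tsum_eq (fun y => f y * g (-x - y))]
  apply tsum_congr
  intro y
  show f (-y) * g (-x - -y) = f y * g (x - y)
  rw [ef y, ← eg (x - y)]
  congr 2
  abel

theorem cv_FT {f g : Zd d → ℝ} (hf0 : ∀ x, 0 ≤ f x) (hg0 : ∀ x, 0 ≤ g x)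
    (hf : Summable f) (hg : Summable g) (ef : EvenF f) (k : Fin d → ℝ) :
    FT (cv f g) k = FT f k * FT g k := by
  have hS := summable_prod_mul hf0 hg0 hf hg
  -- the four products
  have hb : ∀ (h : Zd d → ℝ), (∀ x, 0 ≤ h x) → Summable h → ∀ φ : Zd d → ℝ, (∀ x, |φ x| ≤ 1) →
      Summable (fun x => ‖h x * φ x‖) := by
    intro h h0 hs φ hφ
    refine Summable.of_nonneg_of_le (fun x => norm_nonneg _) ?_ hs
    intro x
    rw [Real.norm_eq_abs, abs_mul, abs_of_nonneg (h0 x)]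
    exact mul_le_of_le_one_right (h0 x) (hφ x)
  obtain ⟨c, hc⟩ : ∃ c : Zd d → ℝ, c = fun x => Real.cos (∑ i, k i * x i) := ⟨_, rfl⟩
  obtain ⟨s, hs⟩ : ∃ s : Zd d → ℝ, s = fun x => Real.sin (∑ i, k i * x i) := ⟨_, rfl⟩
  have hc1 : ∀ x, |c x| ≤ 1 := by
    intro x
    rw [hc]
    exact Real.abs_cos_le_one _
  have hs1 : ∀ x, |s x| ≤ 1 := by
    intro x
    rw [hs]
    exact Real.abs_sin_le_one _
  have hadd : ∀ y z, c (y + z) = c y * c z - s y * s z := by
    intro y z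
    rw [hc, hs]
    show Real.cos (∑ i, k i * ((y + z) i : ℝ)) = _
    rw [dot_add, Real.cos_add]
  have hodd : ∀ x, s (-x) = - s x := by
    intro x
    rw [hs]
    show Real.sin (∑ i, k i * ((-x) i : ℝ)) = _
    rw [dot_neg, Real.sin_neg]
  have hCC := summable_mul_of_summable_norm (hb f hf0 hf c hc1) (hb g hg0 hg c hc1)
  have hSS := summable_mul_of_summable_norm (hb f hf0 hf s hs1) (hb g hg0 hg s hs1)
  have eCC := tsum_mul_tsum_of_summable_norm (hb f hf0 hf c hc1) (hb g hg0 hg c hc1)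
  have eSS := tsum_mul_tsum_of_summable_norm (hb f hf0 hf s hs1) (hb g hg0 hg s hs1)
  have e0 : ∑' x, f x * s x = 0 := tsum_odd ef hodd
  rw [e0, zero_mul] at eSS
  have hFT : ∀ h : Zd d → ℝ, FT h k = ∑' x, h x * c x := by
    intro h
    rw [hc]
    rfl
  rw [hFT, hFT, hFT, eCC]
  have h1 : ∑' p : Zd d × Zd d, f p.1 * c p.1 * (g p.2 * c p.2) =
      ∑' p : Zd d × Zd d, f p.1 * g p.2 * c (p.1 + p.2) := by
    have h2 : (fun p : Zd d × Zd d => f p.1 * g p.2 * c (p.1 + p.2)) =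
        fun p : Zd d × Zd d => f p.1 * c p.1 * (g p.2 * c p.2) -
          f p.1 * s p.1 * (g p.2 * s p.2) := by
      funext p
      rw [hadd]
      ring
    rw [h2, hCC.tsum_sub hSS, ← eSS, sub_zero]
  rw [h1]
  have h3 : Summable (fun p : Zd d × Zd d => f p.1 * g p.2 * c (p.1 + p.2)) := by
    refine Summable.of_norm_bounded hS ?_
    intro p
    rw [Real.norm_eq_abs, abs_mul, abs_of_nonneg (mul_nonneg (hf0 _) (hg0 _))]
    exact mul_le_of_le_one_right (mul_nonneg (hf0 _) (hg0 _)) (hc1 _)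
  have h4 := ((sh d).summable_iff
    (f := fun p : Zd d × Zd d => f p.1 * g p.2 * c (p.1 + p.2))).2 h3
  rw [← (sh d).tsum_eq (fun p : Zd d × Zd d => f p.1 * g p.2 * c (p.1 + p.2))]
  have h5 : ∀ p : Zd d × Zd d, (fun p : Zd d × Zd d => f p.1 * g p.2 * c (p.1 + p.2)) (sh d p) =
      f p.2 * g (p.1 - p.2) * c p.1 := by
    rintro ⟨x, y⟩
    show f y * g (x - y) * c (y + (x - y)) = f y * g (x - y) * c x
    rw [add_sub_cancel]
  have h6 : Summable (fun p : Zd d × Zd d => f p.2 * g (p.1 - p.2) * c p.1) :=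
    h4.congr (fun p => h5 p)
  have h7 : ∑' p : Zd d × Zd d, f p.2 * g (p.1 - p.2) * c p.1 =
      ∑' x, ∑' y, f y * g (x - y) * c x := h6.tsum_prod
  calc ∑' x, cv f g x * c x = ∑' x, ∑' y, f y * g (x - y) * c x := by
        apply tsum_congr
        intro x
        unfold cv
        exact tsum_mul_right.symm
    _ = ∑' p : Zd d × Zd d, f p.2 * g (p.1 - p.2) * c p.1 := h7.symm
    _ = _ := tsum_congr (fun p => (h5 p).symm)

/-- convolution powers -/
noncomputable def Fp (f : Zd d → ℝ) : ℕ → Zd d → ℝ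
  | 0 => fun x => if x = 0 then 1 else 0
  | n + 1 => cv f (Fp f n)

theorem Fp_prop {f : Zd d → ℝ} (hf0 : ∀ x, 0 ≤ f x) (hf : Summable f) (ef : EvenF f) (n : ℕ) :
    (∀ x, 0 ≤ Fp f n x) ∧ Summable (Fp f n) ∧ EvenF (Fp f n) ∧
      ∀ k : Fin d → ℝ, FT (Fp f n) k = (FT f k) ^ n := by
  induction n with
  | zero =>
    refine ⟨?_, ?_, ?_, ?_⟩
    · intro x
      unfold Fp
      split_ifs <;> norm_num
    · refine summable_of_ne_finset_zero (s := {0}) ?_
      intro x hx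
      rw [Finset.mem_singleton] at hx
      unfold Fp
      rw [if_neg hx]
    · intro x
      unfold Fp
      simp only [neg_eq_zero]
    · intro k
      unfold FT
      rw [tsum_eq_single (0 : Zd d)]
      · simp [Fp]
      · intro x hx
        simp [Fp, hx]
  | succ n ih =>
    obtain ⟨h1, h2, h3, h4⟩ := ih
    refine ⟨fun x => cv_nonneg hf0 h1 x, cv_summable hf0 h1 hf h2, cv_even ef h3, ?_⟩
    intro k
    show FT (cv f (Fp f n)) k = _
    rw [cv_FT hf0 h1 hf h2 ef k, h4 k, pow_succ, mul_comm]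

theorem kp_eq {f : Zd d → ℝ} (hf0 : ∀ x, 0 ≤ f x) (hf : Summable f) (ef : EvenF f) (n : ℕ)
    (x y : Zd d) :
    kp (fun x y => ENNReal.ofReal (f (y - x))) n x y = ENNReal.ofReal (Fp f n (y - x)) := by
  induction n generalizing x with
  | zero =>
    unfold kp Fp
    by_cases h : x = y
    · simp [h]
    · have h' : y - x ≠ 0 := fun h2 => h (sub_eq_zero.1 h2).symm
      simp [h, h']
  | succ n ih =>
    obtain ⟨h1, h2, h3, h4⟩ := Fp_prop hf0 hf ef n
    show ∑' z, ENNReal.ofReal (f (z - x)) * kp (fun x y => ENNReal.ofReal (f (y - x))) n z y = _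
    have e1 : ∀ z, ENNReal.ofReal (f (z - x)) *
        kp (fun x y => ENNReal.ofReal (f (y - x))) n z y =
        ENNReal.ofReal (f (z - x) * Fp f n (y - x - (z - x))) := by
      intro z
      rw [ih z, ← ENNReal.ofReal_mul (hf0 _), sub_sub_sub_cancel_right]
    rw [tsum_congr e1]
    have e2 : ∑' z, ENNReal.ofReal (f (z - x) * Fp f n (y - x - (z - x))) =
        ∑' w, ENNReal.ofReal (f w * Fp f n (y - x - w)) :=
      (Equiv.subRight x).tsum_eq (fun w => ENNReal.ofReal (f w * Fp f n (y - x - w)))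
    rw [e2]
    rw [← ENNReal.ofReal_tsum_of_nonneg (fun w => mul_nonneg (hf0 _) (h1 _))
      (cv_fiber hf0 h1 hf h2 (y - x))]
    rfl

theorem ofReal_integral_le {α : Type} [MeasurableSpace α] (μ : Measure α) (h g : α → ℝ)
    (hi : Integrable h μ) (hg : ∀ x, h x ≤ g x) :
    ENNReal.ofReal (∫ x, h x ∂μ) ≤ ∫⁻ x, ENNReal.ofReal (g x) ∂μ := by
  have h1 := integral_eq_lintegral_pos_part_sub_lintegral_neg_part hi
  have h2 : ∫ x, h x ∂μ ≤ (∫⁻ x, ENNReal.ofReal (h x) ∂μ).toReal := by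
    rw [h1]
    have : 0 ≤ (∫⁻ x, ENNReal.ofReal (-h x) ∂μ).toReal := ENNReal.toReal_nonneg
    linarith
  calc ENNReal.ofReal (∫ x, h x ∂μ) ≤ ENNReal.ofReal (∫⁻ x, ENNReal.ofReal (h x) ∂μ).toReal :=
        ENNReal.ofReal_le_ofReal h2
    _ ≤ ∫⁻ x, ENNReal.ofReal (h x) ∂μ := ENNReal.ofReal_toReal_le
    _ ≤ _ := lintegral_mono (fun x => ENNReal.ofReal_le_ofReal (hg x))

theorem sum_nb (x : Zd d) (F : Zd d → ℝ) :
    ∑ b ∈ nb x, F b = ∑ i : Fin d, (F (x + Pi.single i 1) + F (x - Pi.single i 1)) := by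
  have hinj1 : Function.Injective (fun i : Fin d => x + Pi.single i (1 : ℤ)) := by
    intro i j hij
    have h1 : (Pi.single i (1 : ℤ) : Zd d) = Pi.single j 1 := add_left_cancel hij
    have h2 := congrFun h1 i
    by_contra hne
    rw [Pi.single_eq_same, Pi.single_eq_of_ne hne] at h2
    norm_num at h2
  have hinj2 : Function.Injective (fun i : Fin d => x - Pi.single i (1 : ℤ)) := by
    intro i j hij
    have h1 : (Pi.single i (1 : ℤ) : Zd d) = Pi.single j 1 := sub_right_injective hij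
    have h2 := congrFun h1 i
    by_contra hne
    rw [Pi.single_eq_same, Pi.single_eq_of_ne hne] at h2
    norm_num at h2
  have hdisj : Disjoint (Finset.univ.image (fun i : Fin d => x + Pi.single i (1 : ℤ)))
      (Finset.univ.image (fun i : Fin d => x - Pi.single i (1 : ℤ))) := by
    rw [Finset.disjoint_left]
    intro b hb1 hb2
    rw [Finset.mem_image] at hb1 hb2
    obtain ⟨i, _, hi⟩ := hb1
    obtain ⟨j, _, hj⟩ := hb2
    have h1 : x + Pi.single i (1 : ℤ) = x - Pi.single j 1 := hi.trans hj.symm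
    have h2 := congrFun h1 i
    rw [Pi.add_apply, Pi.sub_apply, Pi.single_eq_same] at h2
    by_cases hij : i = j
    · subst hij
      rw [Pi.single_eq_same] at h2
      omega
    · rw [Pi.single_eq_of_ne hij] at h2
      omega
  unfold nb
  rw [Finset.sum_union hdisj, Finset.sum_image (fun a _ b _ h => hinj1 h),
    Finset.sum_image (fun a _ b _ h => hinj2 h), ← Finset.sum_add_distrib]

theorem dot_single (k : Fin d → ℝ) (i : Fin d) :
    ∑ j, k j * ((Pi.single i (1 : ℤ) : Zd d) j : ℝ) = k i := by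
  rw [Finset.sum_eq_single i]
  · rw [Pi.single_eq_same]
    simp
  · intro j _ hj
    rw [Pi.single_eq_of_ne hj]
    simp
  · intro h
    exact absurd (Finset.mem_univ i) h

theorem dot_sub (k : Fin d → ℝ) (y z : Zd d) :
    ∑ i, k i * ((y - z) i : ℝ) = ∑ i, k i * (y i : ℝ) - ∑ i, k i * (z i : ℝ) := by
  rw [← Finset.sum_sub_distrib]
  apply Finset.sum_congr rfl
  intro i _
  rw [Pi.sub_apply]
  push_cast
  ring

theorem sum_nb_cos (k : Fin d → ℝ) (x y : Zd d) :
    ∑ b ∈ nb x, Real.cos (∑ i, k i * ((y - b) i : ℝ)) =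
      2 * d * Dh k * Real.cos (∑ i, k i * ((y - x) i : ℝ)) := by
  rw [sum_nb x (fun b => Real.cos (∑ i, k i * ((y - b) i : ℝ)))]
  have h1 : ∀ i : Fin d, Real.cos (∑ j, k j * ((y - (x + (Pi.single i 1 : Zd d))) j : ℝ)) +
      Real.cos (∑ j, k j * ((y - (x - (Pi.single i 1 : Zd d))) j : ℝ)) =
      2 * Real.cos (∑ j, k j * ((y - x) j : ℝ)) * Real.cos (k i) := by
    intro i
    have e1 : ∑ j, k j * ((y - (x + (Pi.single i 1 : Zd d))) j : ℝ) =
        ∑ j, k j * ((y - x) j : ℝ) - k i := by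
      rw [dot_sub, dot_add, dot_single, dot_sub]
      ring
    have e2 : ∑ j, k j * ((y - (x - (Pi.single i 1 : Zd d))) j : ℝ) =
        ∑ j, k j * ((y - x) j : ℝ) + k i := by
      rw [dot_sub, dot_sub, dot_single, dot_sub]
      ring
    rw [e1, e2, Real.cos_sub, Real.cos_add]
    ring
  rw [Finset.sum_congr rfl (fun i _ => h1 i), ← Finset.mul_sum]
  unfold Dh
  rcases Nat.eq_zero_or_pos d with h0 | h0
  · subst h0
    simp
  · have : (d : ℝ) ≠ 0 := by positivity
    field_simp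

end KpIntaux

open KpIntaux in
theorem hKpInt (hInv : StInv) : StKpInt := by
  intro d f hf0 hf ef n x y _
  obtain ⟨h1, h2, h3, h4⟩ := Fp_prop hf0 hf ef n
  have hI := hInv d (Fp f n) h2 h3
  refine ⟨?_, ?_⟩
  · rw [kp_eq hf0 hf ef n x y, (hI (y - x)).2]
    refine ofReal_integral_le _ _ _ (hI (y - x)).1 ?_
    intro k
    rw [h4 k, ← abs_pow]
    refine (le_abs_self _).trans ?_
    rw [abs_mul]
    exact mul_le_of_le_one_right (abs_nonneg _) (Real.abs_cos_le_one _)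
  · have e1 : ∑ b ∈ nb x, kp (fun x y => ENNReal.ofReal (f (y - x))) n b y =
        ENNReal.ofReal (∑ b ∈ nb x, Fp f n (y - b)) := by
      rw [ENNReal.ofReal_sum_of_nonneg (fun b _ => h1 _)]
      exact Finset.sum_congr rfl (fun b _ => kp_eq hf0 hf ef n b y)
    have e2 : ∑ b ∈ nb x, Fp f n (y - b) =
        ∫ k, ∑ b ∈ nb x, FT (Fp f n) k * Real.cos (∑ i, k i * ((y - b) i : ℝ)) ∂(muT d) := by
      rw [integral_finsetSum _ (fun b _ => (hI (y - b)).1)]
      exact Finset.sum_congr rfl (fun b _ => (hI (y - b)).2)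
    rw [e1, e2]
    refine ofReal_integral_le _ _ _ (integrable_finsetSum _ (fun b _ => (hI (y - b)).1)) ?_
    intro k
    rw [← Finset.mul_sum, sum_nb_cos, h4 k]
    refine (le_abs_self _).trans ?_
    rw [abs_mul, abs_mul, abs_mul, abs_mul, ← abs_pow]
    have e3 := Real.abs_cos_le_one (∑ i, k i * ((y - x) i : ℝ))
    have e4 : |(2 : ℝ)| = 2 := abs_of_nonneg (by norm_num)
    have e5 : |(d : ℝ)| = d := abs_of_nonneg (Nat.cast_nonneg _)
    rw [e4, e5]
    have e6 : 0 ≤ |FT f k ^ n| * (2 * (d : ℝ) * |Dh k|) := by positivity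
    calc |FT f k ^ n| * (2 * (d : ℝ) * |Dh k| * |Real.cos (∑ i, k i * ((y - x) i : ℝ))|) =
          |FT f k ^ n| * (2 * (d : ℝ) * |Dh k|) * |Real.cos (∑ i, k i * ((y - x) i : ℝ))| := by
            ring
      _ ≤ |FT f k ^ n| * (2 * (d : ℝ) * |Dh k|) := mul_le_of_le_one_right e6 e3
      _ = _ := by ring

end Pool.LE
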