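import Pool.Agent.Helper84.LE.M_BR

/-! The last pivotal edge: existence (LastE, by helper20). -/

set_option autoImplicit false
open scoped BigOperators Polynomial
open Polynomial

namespace Pool.LE

section LastE

variable {V : Type} [DecidableEq V]

/-- a trail which uses an edge splits at this edge -/
theorem laste_split {ω : Finset (Sym2 V)} {e : Sym2 V} {y x : V} (q : (gr ω).Walk y x)
    (hq : q.IsTrail) (he : e ∈ q.edges) :
    ∃ a b : V, e = s(a, b) ∧ con (ω.erase e) y a ∧ con (ω.erase e) b x := by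
  induction q with
  | nil => simp at he
  | cons hadj r ih =>
    rename_i c d z
    rw [SimpleGraph.Walk.isTrail_cons] at hq
    by_cases h1 : s(c, d) = e
    · refine ⟨c, d, h1.symm, con_refl _ _, ?_⟩
      have h2 : ∀ f ∈ r.edges, f ∈ ω.erase e := by
        intro f hf
        rw [Finset.mem_erase]
        refine ⟨?_, mem_edges_gr r hf⟩
        rintro rfl
        exact hq.2 (h1 ▸ hf)
      obtain ⟨r', -⟩ := exists_walk_of_edges r h2
      exact ⟨r'⟩
    · rw [SimpleGraph.Walk.edges_cons, List.mem_cons] at he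
      have h3 : e ∈ r.edges := he.resolve_left (fun h => h1 h.symm)
      obtain ⟨a, b, h4, h5, h6⟩ := ih hq.1 h3
      refine ⟨a, b, h4, con_trans (con_of_mem ?_) h5, h6⟩
      rw [Finset.mem_erase]
      exact ⟨h1, (gr_adj.1 hadj).1⟩

/-- a walk in `ω` which avoids an edge -/
theorem laste_avoid {ω : Finset (Sym2 V)} {e : Sym2 V} {y x : V} (q : (gr ω).Walk y x)
    (he : e ∉ q.edges) : con (ω.erase e) y x := by
  have h2 : ∀ f ∈ q.edges, f ∈ ω.erase e := by
    intro f hf
    rw [Finset.mem_erase]
    refine ⟨?_, mem_edges_gr q hf⟩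
    rintro rfl
    exact he hf
  obtain ⟨r', -⟩ := exists_walk_of_edges q h2
  exact ⟨r'⟩

/-- existence of a directed pivotal edge -/
theorem laste_piv {ω : Finset (Sym2 V)} {v x : V} (hc : con ω v x) (hd : ¬ dbl ω v x) :
    ∃ a b : V, piv ω v x a b := by
  have h1 : ∃ e ∈ ω, ¬ con (ω.erase e) v x := by
    by_contra hcon
    push Not at hcon
    exact hd ⟨hc, hcon⟩
  obtain ⟨e, he, h2⟩ := h1
  obtain ⟨q, hq, -⟩ := exists_path_dist hc
  have h3 : e ∈ q.edges := by
    by_contra h
    exact h2 (laste_avoid q h)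
  obtain ⟨a, b, rfl, h5, h6⟩ := laste_split q hq.isTrail h3
  exact ⟨a, b, he, h5, h6, h2⟩

theorem laste_main {ω : Finset (Sym2 V)} {v x : V} : ∀ (n : ℕ) (c b : V),
    piv ω v x c b → (gr ω).dist b x ≤ n → ∃ c b : V, piv ω v x c b ∧ dbl ω b x := by
  intro n
  induction n with
  | zero =>
    intro c b hp hn
    have hbx : con ω b x := con_mono (Finset.erase_subset _ _) hp.2.2.1
    have h1 : b = x := by
      have h2 : (gr ω).dist b x = 0 := by omega
      exact (SimpleGraph.Reachable.dist_eq_zero_iff hbx).1 h2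
    refine ⟨c, b, hp, hbx, fun e _ => ?_⟩
    rw [h1]
    exact con_refl _ _
  | succ n ih =>
    intro c b hp hn
    by_cases hd : dbl ω b x
    · exact ⟨c, b, hp, hd⟩
    have hbx : con ω b x := con_mono (Finset.erase_subset _ _) hp.2.2.1
    obtain ⟨c', b', hp'⟩ := laste_piv hbx hd
    have hee : s(c', b') ≠ s(c, b) := by
      intro h
      have h1 := hp'.2.2.2
      rw [h] at h1
      exact h1 hp.2.2.1
    -- the new edge is pivotal for `v → x`
    have hno : ¬ con (ω.erase s(c', b')) v x := by
      rintro ⟨q⟩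
      obtain ⟨-, -, q₂, -⟩ := br_split hp (Finset.erase_subset _ _) q (con_refl _ v)
      exact hp'.2.2.2 ⟨q₂⟩
    have hvc : con (ω.erase s(c', b')) v c := by
      obtain ⟨q⟩ := hp.2.1
      have hq : s(c', b') ∉ q.edges := by
        intro hq
        have h1 : con (ω.erase s(c, b)) v c' :=
          ⟨q.takeUntil c' (q.fst_mem_support_of_mem_edges hq)⟩
        obtain ⟨r⟩ := hp.2.2.1
        have hr : s(c', b') ∉ r.edges := by
          intro hr
          have h2 : con (ω.erase s(c, b)) c' x :=
            ⟨r.dropUntil c' (r.fst_mem_support_of_mem_edges hr)⟩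
          exact hp.2.2.2 (con_trans h1 h2)
        apply hp'.2.2.2
        have h3 := laste_avoid r hr
        refine con_mono ?_ h3
        intro f hf
        rw [Finset.mem_erase, Finset.mem_erase] at hf
        rw [Finset.mem_erase]
        exact ⟨hf.1, hf.2.2⟩
      have h3 := laste_avoid q hq
      refine con_mono ?_ h3
      intro f hf
      rw [Finset.mem_erase, Finset.mem_erase] at hf
      rw [Finset.mem_erase]
      exact ⟨hf.1, hf.2.2⟩
    have hcb : con (ω.erase s(c', b')) c b := by
      apply con_of_mem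
      rw [Finset.mem_erase]
      exact ⟨hee.symm, hp.1⟩
    have hnew : piv ω v x c' b' :=
      ⟨hp'.1, con_trans hvc (con_trans hcb hp'.2.1), hp'.2.2.1, hno⟩
    apply ih c' b' hnew
    obtain ⟨q, -, hq⟩ := exists_path_dist hbx
    obtain ⟨-, q₁, q₂, h4⟩ := br_split hp' (Finset.Subset.refl _) q (con_refl _ b)
    have h5 := SimpleGraph.dist_le q₂
    omega

end LastE

theorem hLastE : StLastE := by
  intro V _ ω v x hc hd
  obtain ⟨c, b, hp⟩ := laste_piv hc hd
  exact laste_main _ c b hp le_rfl

end Pool.LE
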