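import Pool.Agent.Helper84.LE.St1

/-! Uniqueness of the last pivotal edge (StLastU). -/

set_option autoImplicit false

namespace Pool.LE

private theorem con_symm_lu {V : Type} [DecidableEq V] {ω : Finset (Sym2 V)} {x y : V}
    (h : con ω x y) : con ω y x := SimpleGraph.Reachable.symm h

private theorem con_trans_lu {V : Type} [DecidableEq V] {ω : Finset (Sym2 V)} {x y z : V}
    (h : con ω x y) (h' : con ω y z) : con ω x z := SimpleGraph.Reachable.trans h h'

private theorem con_of_mem_lu {V : Type} [DecidableEq V] {ω : Finset (Sym2 V)} {x y : V}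
    (h : s(x, y) ∈ ω) : con ω x y := by
  by_cases hxy : x = y
  · subst hxy; exact SimpleGraph.Reachable.refl _
  · apply SimpleGraph.Adj.reachable
    rw [gr, SimpleGraph.fromEdgeSet_adj]
    exact ⟨by exact_mod_cast h, hxy⟩

/-- induction over the cluster -/
private theorem con_induct_lu {V : Type} [DecidableEq V] {ω : Finset (Sym2 V)} {v : V}
    (P : V → Prop) (h0 : P v)
    (hs : ∀ y y', con ω v y → P y → s(y, y') ∈ ω → P y') {y : V} (h : con ω v y) : P y := by
  obtain ⟨p⟩ := h
  have key : ∀ (a b : V) (p : (gr ω).Walk a b), con ω v a → P a → P b := by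
    intro a b p
    induction p with
    | nil => exact fun _ h => h
    | @cons a c b hadj q ih =>
      intro hc hP
      have hm : s(a, c) ∈ ω := by
        rw [gr, SimpleGraph.fromEdgeSet_adj] at hadj
        exact_mod_cast hadj.1
      exact ih (con_trans_lu hc (con_of_mem_lu hm)) (hs a c hc hP hm)
  exact key v y p (SimpleGraph.Reachable.refl _) h0

theorem hLastU : StLastU := by
  intro V _ ω v x
  refine ⟨fun c b hd hp => hp.2.2.2 (hd.2 _ hp.1), ?_⟩
  intro c b c' b' hp hd hp' hd'
  by_cases he : s(c, b) = s(c', b')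
  · rcases Sym2.eq_iff.1 he with h | h
    · exact h
    · exfalso
      obtain ⟨rfl, rfl⟩ := h
      apply hp.2.2.2
      have h1 := hp'.2.1
      rw [← he] at h1
      exact con_trans_lu h1 hp.2.2.1
  · exfalso
    have hb : ¬ con (ω.erase s(c', b')) v b := fun h =>
      hp'.2.2.2 (con_trans_lu h (hd.2 _ hp'.1))
    have hc : ¬ con (ω.erase s(c', b')) v c := fun h =>
      hb (con_trans_lu h (con_of_mem_lu (Finset.mem_erase.2 ⟨he, hp.1⟩)))
    have hb' : ¬ con (ω.erase s(c, b)) v b' := fun h =>
      hp.2.2.2 (con_trans_lu h (hd'.2 _ hp.1))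
    have hc' : ¬ con (ω.erase s(c, b)) v c' := fun h =>
      hb' (con_trans_lu h (con_of_mem_lu (Finset.mem_erase.2 ⟨fun h => he h.symm, hp'.1⟩)))
    apply hc
    refine con_induct_lu (fun y => con (ω.erase s(c', b')) v y) (SimpleGraph.Reachable.refl _) ?_
      hp.2.1
    intro y y' hy hP hm
    by_cases hyy : s(y, y') = s(c', b')
    · exfalso
      rcases Sym2.eq_iff.1 hyy with h | h
      · rw [h.1] at hy; exact hc' hy
      · rw [h.1] at hy; exact hb' hy
    · exact con_trans_lu hP (con_of_mem_lu (Finset.mem_erase.2 ⟨hyy, (Finset.mem_erase.1 hm).2⟩))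

end Pool.LE
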