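import Pool.Agent.Helper84.LE.St7

/-! Module Law: the law of the finite configurations (plan section 11). -/

set_option autoImplicit false
open scoped BigOperators
open MeasureTheory Filter

namespace Pool.LE

namespace Law

/-- the edge of a pair -/
def ed {d : ℕ} (q : (Fin d → ℤ) × Fin d) : Sym2 (Zd d) := s(q.1, q.1 + Pi.single q.2 1)

theorem ed_inj {d : ℕ} : Function.Injective (ed (d := d)) := by
  rintro ⟨x, i⟩ ⟨y, j⟩ h
  unfold ed at h
  simp only at h
  rw [Sym2.eq_iff] at h
  rcases h with ⟨h1, h2⟩ | ⟨h1, h2⟩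
  · subst h1
    have h3 : (Pi.single i (1 : ℤ) : Fin d → ℤ) = Pi.single j 1 := add_left_cancel h2
    have h4 : i = j := by
      by_contra hij
      have := congrFun h3 i
      rw [Pi.single_eq_same, Pi.single_eq_of_ne hij] at this
      exact one_ne_zero this
    rw [h4]
  · exfalso
    rw [h1, add_assoc] at h2
    have h3 : (Pi.single j (1 : ℤ) : Fin d → ℤ) + Pi.single i 1 = 0 := by
      have := h2
      rwa [add_eq_left] at this
    have h4 := congrFun h3 i
    rw [Pi.add_apply, Pi.single_eq_same, Pi.zero_apply] at h4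
    have h5 : (0 : ℤ) ≤ (Pi.single j (1 : ℤ) : Fin d → ℤ) i := by
      by_cases hij : i = j
      · subst hij
        rw [Pi.single_eq_same]
        norm_num
      · rw [Pi.single_eq_of_ne hij]
    linarith

/-- the pairs of the box -/
noncomputable def FF (d R : ℕ) : Finset ((Fin d → ℤ) × Fin d) :=
  ((bx d R) ×ˢ (Finset.univ : Finset (Fin d))).filter
    (fun q => q.1 + Pi.single q.2 (1 : ℤ) ∈ bx d R)

theorem Eb_eq (d R : ℕ) : Eb d R = (FF d R).image ed := rfl

theorem opn_eq_iff {d R : ℕ} {p : ℝ} {ω : ((Fin d → ℤ) × Fin d) → unitInterval}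
    {η : Finset (Sym2 (Zd d))} (hη : η ⊆ Eb d R) :
    opn d p R ω = η ↔ ∀ q ∈ FF d R, (((ω q : ℝ) < p) ↔ ed q ∈ η) := by
  classical
  have hmem : ∀ q ∈ FF d R, (ed q ∈ opn d p R ω ↔ (ω q : ℝ) < p) := by
    intro q hq
    unfold opn
    rw [Finset.mem_filter]
    constructor
    · rintro ⟨_, x, i, he, hlt⟩
      have : q = (x, i) := ed_inj he
      rw [this]
      exact hlt
    · intro h
      refine ⟨?_, q.1, q.2, rfl, h⟩
      rw [Eb_eq]
      exact Finset.mem_image_of_mem _ hq
  constructor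
  · intro h q hq
    rw [← h]
    exact (hmem q hq).symm
  · intro h
    ext e
    constructor
    · intro he
      have he' : e ∈ Eb d R := (Finset.mem_filter.1 he).1
      rw [Eb_eq, Finset.mem_image] at he'
      obtain ⟨q, hq, rfl⟩ := he'
      exact (h q hq).1 ((hmem q hq).1 he)
    · intro he
      have he' : e ∈ Eb d R := hη he
      rw [Eb_eq, Finset.mem_image] at he'
      obtain ⟨q, hq, rfl⟩ := he'
      exact (hmem q hq).2 ((h q hq).2 he)

open Classical in
/-- the sets of the cylinder -/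
noncomputable def cs {d : ℕ} (p : ℝ) (η : Finset (Sym2 (Zd d))) (q : (Fin d → ℤ) × Fin d) :
    Set unitInterval :=
  if ed q ∈ η then {t | (t : ℝ) < p} else {t | ¬ (t : ℝ) < p}

theorem set_eq {d R : ℕ} {p : ℝ} {η : Finset (Sym2 (Zd d))} (hη : η ⊆ Eb d R) :
    {ω : ((Fin d → ℤ) × Fin d) → unitInterval | opn d p R ω = η} =
      Set.pi (FF d R) (fun q => cs p η q) := by
  ext ω
  rw [Set.mem_ofPred_eq, opn_eq_iff hη, Set.mem_pi]
  refine forall_congr' fun q => forall_congr' fun hq => ?_
  unfold cs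
  by_cases h : ed q ∈ η
  · rw [if_pos h]
    simp [h]
  · rw [if_neg h]
    simp [h]

theorem meas_lt (p : ℝ) : MeasurableSet {t : unitInterval | (t : ℝ) < p} :=
  measurableSet_lt measurable_subtype_coe measurable_const

theorem meas_cs {d : ℕ} (p : ℝ) (η : Finset (Sym2 (Zd d))) (q : (Fin d → ℤ) × Fin d) :
    MeasurableSet (cs p η q) := by
  unfold cs
  split_ifs
  · exact meas_lt p
  · exact (meas_lt p).compl

theorem vol_lt {p : ℝ} (h0 : 0 ≤ p) (h1 : p ≤ 1) :
    (volume : Measure unitInterval) {t : unitInterval | (t : ℝ) < p} = ENNReal.ofReal p := by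
  have : {t : unitInterval | (t : ℝ) < p} = Set.Iio (⟨p, h0, h1⟩ : unitInterval) := by
    ext t
    rw [Set.mem_ofPred_eq, Set.mem_Iio, ← Subtype.coe_lt_coe]
  rw [this, unitInterval.volume_Iio]

theorem vol_cs {d : ℕ} {p : ℝ} (h0 : 0 ≤ p) (h1 : p ≤ 1) (η : Finset (Sym2 (Zd d)))
    (q : (Fin d → ℤ) × Fin d) [Decidable (ed q ∈ η)] :
    (volume : Measure unitInterval) (cs p η q) =
      ENNReal.ofReal (if ed q ∈ η then p else 1 - p) := by
  unfold cs
  by_cases h : ed q ∈ η
  · rw [if_pos h, if_pos h, vol_lt h0 h1]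
  · rw [if_neg h, if_neg h]
    have : {t : unitInterval | ¬ (t : ℝ) < p} = {t : unitInterval | (t : ℝ) < p}ᶜ := rfl
    rw [this, prob_compl_eq_one_sub (meas_lt p), vol_lt h0 h1, ← ENNReal.ofReal_one,
      ← ENNReal.ofReal_sub _ h0]

theorem law_one {d R : ℕ} {p : ℝ} (h0 : 0 ≤ p) (h1 : p ≤ 1) {η : Finset (Sym2 (Zd d))}
    (hη : η ⊆ Eb d R) :
    Pi8 d {ω : ((Fin d → ℤ) × Fin d) → unitInterval | opn d p R ω = η} =
      ENNReal.ofReal (wt (Eb d R) p η) := by
  classical
  rw [set_eq hη]
  unfold Pi8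
  rw [Measure.infinitePi_pi _ (fun q _ => meas_cs p η q)]
  rw [Finset.prod_congr rfl (fun q _ => vol_cs h0 h1 η q)]
  rw [← ENNReal.ofReal_prod_of_nonneg]
  · congr 1
    rw [← Finset.prod_image (s := FF d R) (g := ed)
      (f := fun e => if e ∈ η then p else 1 - p) (fun a _ b _ h => ed_inj h), ← Eb_eq]
    unfold wt
    rw [Finset.prod_ite, Finset.prod_const, Finset.prod_const]
    congr 2
    · congr 1
      rw [Finset.filter_mem_eq_inter, Finset.inter_eq_right.2 hη]
    · congr 1
      ext e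
      simp
  · intro q _
    split_ifs
    · exact h0
    · linarith

theorem meas_one {d R : ℕ} {p : ℝ} {η : Finset (Sym2 (Zd d))} (hη : η ⊆ Eb d R) :
    MeasurableSet {ω : ((Fin d → ℤ) × Fin d) → unitInterval | opn d p R ω = η} := by
  rw [set_eq hη]
  exact MeasurableSet.pi (FF d R).countable_toSet (fun q _ => meas_cs p η q)

end Law

open Law in
theorem hLaw (_hBox : StBox) : StLaw := by
  intro d R p A h0 h1
  classical
  have hset : {ω : ((Fin d → ℤ) × Fin d) → unitInterval | A (opn d p R ω)} =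
      ⋃ η ∈ (Eb d R).powerset.filter A,
        {ω : ((Fin d → ℤ) × Fin d) → unitInterval | opn d p R ω = η} := by
    ext ω
    simp only [Set.mem_ofPred_eq, Set.mem_iUnion, Finset.mem_filter, Finset.mem_powerset,
      exists_prop]
    constructor
    · intro h
      refine ⟨opn d p R ω, ⟨?_, h⟩, rfl⟩
      exact Finset.filter_subset _ _
    · rintro ⟨η, ⟨_, hA⟩, rfl⟩
      exact hA
  have hm : ∀ η ∈ (Eb d R).powerset.filter A,
      MeasurableSet {ω : ((Fin d → ℤ) × Fin d) → unitInterval | opn d p R ω = η} := by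
    intro η hη
    exact meas_one (Finset.mem_powerset.1 (Finset.mem_filter.1 hη).1)
  rw [hset]
  refine ⟨?_, Finset.measurableSet_biUnion _ hm⟩
  rw [measure_biUnion_finset ?_ hm]
  · rw [Finset.sum_congr rfl (fun η hη =>
      law_one h0 h1 (Finset.mem_powerset.1 (Finset.mem_filter.1 hη).1))]
    unfold Pr ExE
    rw [Finset.sum_filter]
    refine Finset.sum_congr rfl fun η _ => ?_
    by_cases hA : A η
    · simp [hA]
    · simp [hA]
  · intro η _ ζ _ hne
    rw [Function.onFun, Set.disjoint_left]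
    intro ω h1 h2
    exact hne (h1.symm.trans h2)

end Pool.LE
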