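import Pool.Agent.Helper84.LE.St1
import Pool.Agent.Helper84.LE.BWT

/-! LE module Lev (plan 3.6): one level. -/

set_option autoImplicit false

namespace Pool.LE

section Lev

variable {V : Type} [DecidableEq V]

theorem lev_ExE_list_sum {ι : Type} (E : Finset (Sym2 V)) (p : ℝ)
    (f : ι → Finset (Sym2 V) → ENNReal) (S : List ι) :
    ExE E p (fun ω => (S.map (fun i => f i ω)).sum) = (S.map (fun i => ExE E p (f i))).sum := by
  induction S with
  | nil => simp [ExE]
  | cons i S ih =>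
    simp only [List.map_cons, List.sum_cons]
    rw [ExE_add, ih]

theorem lev_le_sum {ι : Type} {S : List ι} {i : ι} (hi : i ∈ S) (f : ι → ENNReal) :
    f i ≤ (S.map f).sum := by
  induction S with
  | nil => simp at hi
  | cons j S ih =>
    rw [List.map_cons, List.sum_cons]
    rcases List.mem_cons.1 hi with rfl | h
    · exact le_self_add
    · exact (ih h).trans le_add_self

theorem lev_cmL_cons (T : V → V → ENNReal) (c : V × List V × V) (L : List (V × List V × V)) :
    cmL T (c :: L) = cm T c * cmL T L := by simp [cmL]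

theorem lev_cm_nil (T : V → V → ENNReal) (x y : V) : cm T (x, [], y) = T x y := by
  simp [cm, cw]

theorem lev_list_sum_mul_right {ι : Type} (S : List ι) (f : ι → ENNReal) (c : ENNReal) :
    (S.map f).sum * c = (S.map (fun i => f i * c)).sum := by
  induction S with
  | nil => simp
  | cons i S ih => simp only [List.map_cons, List.sum_cons, add_mul, ih]

open Classical in
/-- the indicator of the realised diagrams -/
noncomputable def levI (ω : Finset (Sym2 V)) (v s u s' t w' z₁ z₂ y w : V) : ENNReal :=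
  ((ins z₁ [(v, [t, w'], s), (t, [u], w')]).map (fun L₁ =>
    ((ins z₂ L₁).map (fun L₂ =>
      ((ins w ((z₁, [y], z₂) :: L₂)).map (fun L₃ =>
        if DR ((w, [], s') :: L₃) ω then (1 : ENNReal) else 0)).sum)).sum)).sum

theorem levI_ge {ω : Finset (Sym2 V)} {v s u s' t w' z₁ z₂ y w : V}
    {L₁ L₂ L₃ : List (V × List V × V)} (h1 : L₁ ∈ ins z₁ [(v, [t, w'], s), (t, [u], w')])
    (h2 : L₂ ∈ ins z₂ L₁) (h3 : L₃ ∈ ins w ((z₁, [y], z₂) :: L₂))
    (hD : DR ((w, [], s') :: L₃) ω) : 1 ≤ levI ω v s u s' t w' z₁ z₂ y w := by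
  classical
  unfold levI
  refine le_trans ?_ (lev_le_sum h1 _)
  refine le_trans ?_ (lev_le_sum h2 _)
  refine le_trans ?_ (lev_le_sum h3 _)
  rw [if_pos hD]

theorem ExE_levI (hDR : StDRBK) {E : Finset (Sym2 V)} {p : ℝ} {T : V → V → ENNReal} (h0 : 0 ≤ p)
    (h1 : p ≤ 1 / 2) (hD : Dom E p T) (v s u s' t w' z₁ z₂ y w : V) :
    ExE E p (fun ω => levI ω v s u s' t w' z₁ z₂ y w) ≤
      ((ins z₁ [(v, [t, w'], s), (t, [u], w')]).map (fun L₁ =>
        ((ins z₂ L₁).map (fun L₂ =>
          ((ins w ((z₁, [y], z₂) :: L₂)).map (cmL T)).sum)).sum)).sum * T w s' := by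
  classical
  unfold levI
  rw [lev_ExE_list_sum, lev_list_sum_mul_right]
  refine List.sum_le_sum fun L₁ _ => ?_
  rw [lev_ExE_list_sum, lev_list_sum_mul_right]
  refine List.sum_le_sum fun L₂ _ => ?_
  rw [lev_ExE_list_sum, lev_list_sum_mul_right]
  refine List.sum_le_sum fun L₃ _ => ?_
  have := hDR V E p T h0 h1 hD ((w, [], s') :: L₃)
  rw [lev_cmL_cons, lev_cm_nil, mul_comm] at this
  exact this

theorem lev_tsum_rot {f : V → V → V → V → V → V → ENNReal} :
    ∑' t, ∑' y, ∑' w, ∑' w', ∑' z₁, ∑' z₂, f t y w w' z₁ z₂ =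
      ∑' w, ∑' t, ∑' w', ∑' z₁, ∑' z₂, ∑' y, f t y w w' z₁ z₂ := by
  have h1 : ∀ t, ∑' y, ∑' w, ∑' w', ∑' z₁, ∑' z₂, f t y w w' z₁ z₂ =
      ∑' w, ∑' w', ∑' z₁, ∑' z₂, ∑' y, f t y w w' z₁ z₂ := by
    intro t
    rw [ENNReal.tsum_comm]
    refine tsum_congr fun w => ?_
    rw [ENNReal.tsum_comm]
    refine tsum_congr fun w' => ?_
    rw [ENNReal.tsum_comm]
    refine tsum_congr fun z₁ => ?_
    rw [ENNReal.tsum_comm]
  rw [tsum_congr h1, ENNReal.tsum_comm]

end Lev

theorem hLev (hNw : StNw) (hBase : StBase) (hATT : StATT) (hEAR : StEAR) (hDR : StDRBK) :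
    StLev := by
  classical
  intro V _ E p T h0 h1 hD A v u s'
  -- pointwise bound
  have hpt : ∀ ω, NN (wA ω A v u) * (if con ω v s' then (1 : ENNReal) else 0) ≤
      2 * ∑' s : V, ∑' w : V, ∑' t : V, ∑' w' : V, ∑' z₁ : V, ∑' z₂ : V, ∑' y : V,
        if s ∈ A then levI ω v s u s' t w' z₁ z₂ y w else 0 := by
    intro ω
    have hN := hNw V ω A v u
    by_cases hc : con ω v s'
    swap
    · rw [if_neg hc, mul_zero]; exact zero_le
    rw [if_pos hc, mul_one]
    refine hN.trans (mul_le_mul_right ?_ _)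
    rw [ENNReal.tsum_comm]
    refine ENNReal.tsum_le_tsum fun s => ?_
    rw [← lev_tsum_rot (f := fun t y w w' z₁ z₂ =>
      if s ∈ A then levI ω v s u s' t w' z₁ z₂ y w else 0)]
    refine ENNReal.tsum_le_tsum fun t => ENNReal.tsum_le_tsum fun y => ?_
    by_cases hh : s ∈ A ∧ Bt ω v u t s ∧ Yp ω v u y
    swap
    · rw [if_neg hh]; exact zero_le
    rw [if_pos hh]
    obtain ⟨hs, hB, hY⟩ := hh
    obtain ⟨w', hw'⟩ := hBase V ω v u t s hB
    obtain ⟨z₁, z₂, L₁, hL₁, L₂, hL₂, hD2⟩ := hEAR V ω _ v u y hw' (by simp [pts])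
      (by simp [pts]) hY
    have hvpts : v ∈ pts ((z₁, [y], z₂) :: L₂) := by
      have key : ∀ (z : V) (L : List (V × List V × V)) (L' : List (V × List V × V)),
          L' ∈ ins z L → ∀ x ∈ pts L, x ∈ pts L' := by
        intro z L
        induction L with
        | nil => intro L' h; simp [ins] at h
        | cons c L ih =>
          intro L' h x hx
          simp only [ins, List.mem_cons, List.mem_map] at h
          rcases h with rfl | ⟨L'', hL'', rfl⟩
          · simp only [pts, List.flatMap_cons, List.mem_append, List.mem_cons] at hx ⊢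
            rcases hx with (hx | hx | hx) | hx
            · exact Or.inl (Or.inl hx)
            · exact Or.inl (Or.inr (Or.inl hx))
            · exact Or.inl (Or.inr (Or.inr (Or.inr hx)))
            · exact Or.inr hx
          · simp only [pts, List.flatMap_cons, List.mem_append] at hx ⊢
            rcases hx with hx | hx
            · exact Or.inl hx
            · exact Or.inr (ih L'' hL'' x hx)
      have h2 : v ∈ pts L₂ := key z₂ L₁ L₂ hL₂ v (key z₁ _ L₁ hL₁ v (by simp [pts]))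
      simp only [pts, List.flatMap_cons, List.mem_append] at h2 ⊢
      exact Or.inr h2
    obtain ⟨w, L₃, hL₃, hD3⟩ := hATT V ω _ v s' hD2 hvpts hc
    have h1' := levI_ge hL₁ hL₂ hL₃ hD3
    have e1 : levI ω v s u s' t w' z₁ z₂ y w ≤
        ∑' w, ∑' w', ∑' z₁, ∑' z₂, if s ∈ A then levI ω v s u s' t w' z₁ z₂ y w else 0 := by
      refine le_trans ?_ (ENNReal.le_tsum w)
      refine le_trans ?_ (ENNReal.le_tsum w')
      refine le_trans ?_ (ENNReal.le_tsum z₁)
      refine le_trans ?_ (ENNReal.le_tsum z₂)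
      rw [if_pos hs]
    exact h1'.trans e1
  refine (ExE_mono fun ω _ => hpt ω).trans ?_
  rw [ExE_mul_left]
  refine mul_le_mul_right ?_ _
  rw [ExE_tsum]
  refine ENNReal.tsum_le_tsum fun s => ?_
  by_cases hs : s ∈ A
  swap
  · simp only [if_neg hs, tsum_zero]
    simp [ExE]
  simp only [if_pos hs]
  rw [ExE_tsum]
  refine ENNReal.tsum_le_tsum fun w => ?_
  unfold core
  rw [ExE_tsum, ← ENNReal.tsum_mul_right]
  refine ENNReal.tsum_le_tsum fun t => ?_
  rw [ExE_tsum, ← ENNReal.tsum_mul_right]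
  refine ENNReal.tsum_le_tsum fun w' => ?_
  rw [ExE_tsum, ← ENNReal.tsum_mul_right]
  refine ENNReal.tsum_le_tsum fun z₁ => ?_
  rw [ExE_tsum, ← ENNReal.tsum_mul_right]
  refine ENNReal.tsum_le_tsum fun z₂ => ?_
  rw [ExE_tsum, ← ENNReal.tsum_mul_right]
  refine ENNReal.tsum_le_tsum fun y => ?_
  exact ExE_levI hDR h0 h1 hD v s u s' t w' z₁ z₂ y w

end Pool.LE
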