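import Pool.Agent.Helper84.LE.St5

/-! Plan section 8: Fatou for the norm of the expansion. -/

set_option autoImplicit false
open scoped BigOperators Topology
open MeasureTheory Filter

namespace Pool.LE

/-- The real summand of `eta`. -/
noncomputable def aLim (d : ℕ) (p : ℝ) (q : ℕ × Zd d) : ℝ :=
  (1 + (q.1 : ℝ)) * (Qw q.2 * |hm d p q.1 q.2|)

theorem eta_eq_Lim (d : ℕ) (p : ℝ) :
    eta d p = ∑' q : ℕ × Zd d, ENNReal.ofReal (aLim d p q) := by
  unfold eta
  rw [ENNReal.tsum_prod']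
  refine tsum_congr fun m => tsum_congr fun x => ?_
  unfold aLim
  have h1 : 0 ≤ Qw x := by
    unfold Qw sq
    have h : 0 ≤ ∑ i, (x i : ℝ) ^ 2 := Finset.sum_nonneg fun i _ => sq_nonneg _
    linarith
  have h2 : (0 : ℝ) ≤ m := Nat.cast_nonneg _
  rw [ENNReal.ofReal_mul (by linarith), ENNReal.ofReal_mul (by linarith),
    ENNReal.ofReal_add zero_le_one h2, ENNReal.ofReal_one, ENNReal.ofReal_natCast, mul_assoc]

theorem cont_Lim (hPoly : StPoly) (d : ℕ) (q : ℕ × Zd d) :
    Continuous fun p : ℝ => aLim d p q := by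
  unfold aLim hm
  obtain ⟨P, hP⟩ := (hPoly d q.1 q.2).2
  have h1 : Continuous fun p : ℝ => gm d p q.1 q.2 := by
    have h2 : (fun p : ℝ => gm d p q.1 q.2) = fun p => P.eval p := funext hP
    rw [h2]
    exact P.continuous
  exact continuous_const.mul (continuous_const.mul (h1.sub continuous_const).abs)

theorem hLim (hPoly : StPoly) : StLim := by
  intro d b c hb h
  rw [eta_eq_Lim, ENNReal.tsum_eq_iSup_sum]
  refine iSup_le fun s => ?_
  have h1 : Continuous fun p : ℝ => ∑ q ∈ s, ENNReal.ofReal (aLim d p q) :=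
    continuous_finsetSum s fun q _ => ENNReal.continuous_ofReal.comp (cont_Lim hPoly d q)
  have h2 : Tendsto (fun p : ℝ => ∑ q ∈ s, ENNReal.ofReal (aLim d p q)) (𝓝[<] b)
      (𝓝 (∑ q ∈ s, ENNReal.ofReal (aLim d b q))) :=
    (h1.tendsto b).mono_left nhdsWithin_le_nhds
  refine le_of_tendsto h2 ?_
  filter_upwards [Ioo_mem_nhdsLT hb] with p hp
  refine le_trans ?_ (h p hp.1.le hp.2)
  rw [eta_eq_Lim]
  exact ENNReal.sum_le_tsum s

end Pool.LE
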