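import Pool.Agent.Helper84.LE.St1
import Pool.Agent.Helper84.LE.BGR

/-! Plan 2.2: everything which starts at `v` depends only on the edges touching the cluster of `v`. -/

set_option autoImplicit false
open scoped BigOperators Polynomial
open Polynomial

namespace Pool.LE

variable {V : Type} [DecidableEq V]

/-- `ω` and `η` have the same edges touching the cluster of `v` -/
def LocH (ω η : Finset (Sym2 V)) (v : V) : Prop :=
  ∀ e : Sym2 V, (∃ y ∈ e, con ω v y) → (e ∈ ω ↔ e ∈ η)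

theorem LocH.con {ω η : Finset (Sym2 V)} {v : V} (h : LocH ω η v) (y : V) :
    con ω v y ↔ con η v y := con_iff_of_cluster h y

theorem LocH.symm {ω η : Finset (Sym2 V)} {v : V} (h : LocH ω η v) : LocH η ω v := by
  rintro e ⟨y, hy, hc⟩
  exact (h e ⟨y, hy, (h.con y).2 hc⟩).symm

theorem LocH.move {ω η : Finset (Sym2 V)} {v w : V} (h : LocH ω η v) (hw : Pool.LE.con ω v w) :
    LocH ω η w := by
  rintro e ⟨y, hy, hc⟩
  exact h e ⟨y, hy, con_trans hw hc⟩

theorem LocH.erase {ω η : Finset (Sym2 V)} {v : V} (h : LocH ω η v) (e : Sym2 V) :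
    LocH (ω.erase e) (η.erase e) v := by
  rintro f ⟨y, hy, hc⟩
  rw [Finset.mem_erase, Finset.mem_erase, h f ⟨y, hy, con_mono (Finset.erase_subset _ _) hc⟩]

theorem LocH.rst {ω η : Finset (Sym2 V)} {v : V} (h : LocH ω η v) (A : Set V) :
    LocH (rst ω A) (rst η A) v := by
  rintro f ⟨y, hy, hc⟩
  rw [mem_rst, mem_rst, h f ⟨y, hy, con_mono (rst_subset _ _) hc⟩]

theorem LocH.dist_le {ω η : Finset (Sym2 V)} {v : V} (h : LocH ω η v) {u : V}
    (hu : Pool.LE.con ω v u) : (gr η).dist v u ≤ (gr ω).dist v u := by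
  obtain ⟨q, -, hq⟩ := exists_path_dist hu
  obtain ⟨q', -, -, hq'⟩ := exists_walk_of_edges (η := η) q (fun e he => by
    have he' := mem_edges_gr q he
    induction e using Sym2.ind with
    | _ a b =>
      exact (h _ ⟨a, Sym2.mem_mk_left a b, ⟨q.takeUntil a (q.fst_mem_support_of_mem_edges he)⟩⟩).1
        he')
  rw [← hq, ← hq']
  exact SimpleGraph.dist_le q'

theorem LocH.mon {ω η : Finset (Sym2 V)} {v : V} (h : LocH ω η v) (u : V) :
    mon ω v u = mon η v u := by
  by_cases hu : Pool.LE.con ω v u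
  · rw [mon_of_con hu, mon_of_con ((h.con u).1 hu)]
    rw [le_antisymm (h.symm.dist_le ((h.con u).1 hu)) (h.dist_le hu)]
  · rw [mon_eq_zero hu, mon_eq_zero (fun h' => hu ((h.con u).2 h'))]

theorem LocH.monA {ω η : Finset (Sym2 V)} {v : V} (h : LocH ω η v) (A : Set V) (u : V) :
    monA ω A v u = monA η A v u := by
  by_cases hv : v ∈ A
  · rw [monA_of_mem hv, monA_of_mem hv]
  · rw [monA_of_not_mem hv, monA_of_not_mem hv]
    exact (h.rst A).mon u

theorem dbl_iff {ω : Finset (Sym2 V)} {v u : V} :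
    dbl ω v u ↔ con ω v u ∧ ∀ e, con (ω.erase e) v u := by
  constructor
  · rintro ⟨h1, h2⟩
    refine ⟨h1, fun e => ?_⟩
    by_cases he : e ∈ ω
    · exact h2 e he
    · rwa [Finset.erase_eq_of_notMem he]
  · rintro ⟨h1, h2⟩
    exact ⟨h1, fun e _ => h2 e⟩

theorem LocH.dbl {ω η : Finset (Sym2 V)} {v : V} (h : LocH ω η v) (u : V) :
    dbl ω v u ↔ dbl η v u := by
  rw [dbl_iff, dbl_iff, h.con u]
  have h2 : ∀ e, Pool.LE.con (ω.erase e) v u ↔ Pool.LE.con (η.erase e) v u :=
    fun e => (h.erase e).con u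
  simp only [h2]

theorem LocH.piv_imp {ω η : Finset (Sym2 V)} {v : V} (h : LocH ω η v) {u a b : V}
    (hp : piv ω v u a b) : piv η v u a b := by
  obtain ⟨h1, h2, h3, h4⟩ := hp
  have hva : Pool.LE.con ω v a := con_mono (Finset.erase_subset _ _) h2
  have hvb : Pool.LE.con ω v b := con_trans hva (con_of_mem h1)
  refine ⟨(h _ ⟨a, Sym2.mem_mk_left a b, hva⟩).1 h1, ((h.erase _).con a).1 h2,
    (((h.move hvb).erase _).con u).1 h3, fun h5 => h4 (((h.erase _).con u).2 h5)⟩

theorem LocH.piv {ω η : Finset (Sym2 V)} {v : V} (h : LocH ω η v) (u a b : V) :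
    piv ω v u a b ↔ piv η v u a b := ⟨h.piv_imp, h.symm.piv_imp⟩

open Classical in
/-- the second part of `wA` as a sum over a larger set -/
theorem wA_eq_of_subset {ω : Finset (Sym2 V)} {D : Finset (V × V)} (hD : drt ω ⊆ D) (A : Set V)
    (v x : V) : wA ω A v x =
      (if dbl ω v x then mon ω v x - monA ω A v x else 0) +
      ∑ cb ∈ D, if piv ω v x cb.1 cb.2 ∧ dbl ω cb.2 x then
        X * monA ω A v cb.1 * (mon ω cb.2 x - monA ω A cb.2 x) else 0 := by
  unfold wA
  congr 1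
  refine Finset.sum_subset hD fun cb _ hcb => ?_
  rw [if_neg]
  rintro ⟨hp, -⟩
  exact hcb (mem_drt'.2 hp.1)

theorem LocH.wA {ω η : Finset (Sym2 V)} {v : V} (h : LocH ω η v) (A : Set V) (x : V) :
    wA ω A v x = wA η A v x := by
  classical
  rw [wA_eq_of_subset (D := drt ω ∪ drt η) Finset.subset_union_left A v x,
    wA_eq_of_subset (D := drt ω ∪ drt η) Finset.subset_union_right A v x]
  congr 1
  · by_cases hd : Pool.LE.dbl ω v x
    · rw [if_pos hd, if_pos ((h.dbl x).1 hd), h.mon, h.monA]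
    · rw [if_neg hd, if_neg (fun h' => hd ((h.dbl x).2 h'))]
  · refine Finset.sum_congr rfl fun cb _ => ?_
    by_cases hp : Pool.LE.piv ω v x cb.1 cb.2
    · have hva : Pool.LE.con ω v cb.1 := con_mono (Finset.erase_subset _ _) hp.2.1
      have hvb : Pool.LE.con ω v cb.2 := con_trans hva (con_of_mem hp.1)
      have hb := h.move hvb
      by_cases hd : Pool.LE.dbl ω cb.2 x
      · rw [if_pos ⟨hp, hd⟩, if_pos ⟨h.piv_imp hp, (hb.dbl x).1 hd⟩, h.monA, hb.mon, hb.monA]
      · rw [if_neg (fun h' => hd h'.2), if_neg (fun h' => hd ((hb.dbl x).2 h'.2))]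
    · rw [if_neg (fun h' => hp h'.1), if_neg (fun h' => hp ((h.piv _ _ _).2 h'.1))]

theorem hLoc : StLoc := by
  intro V _ ω η v h A u
  have h' : LocH ω η v := h
  exact ⟨h'.mon u, h'.monA A u, h'.dbl u, fun a b => h'.piv u a b, h'.wA A u⟩

end Pool.LE
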