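import Pool.Agent.Helper84.LE.St1
import Pool.Agent.Helper84.LE.BKP

/-! Plan 3.9 (StMass). -/

set_option autoImplicit false
open scoped BigOperators ENNReal

namespace Pool.LE

/-- number of chains and marks -/
private def nL {V : Type} (L : List (V × List V × V)) : ℕ := (L.map (fun c => c.2.1.length + 1)).sum

private theorem nL_cons {V : Type} (c : V × List V × V) (L : List (V × List V × V)) :
    nL (c :: L) = (c.2.1.length + 1) + nL L := by simp [nL]

private theorem nL_ins {V : Type} (z : V) : ∀ (L L' : List (V × List V × V)), L' ∈ ins z L →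
    nL L' = nL L + 1 := by
  intro L
  induction L with
  | nil => intro L' h; simp [ins] at h
  | cons c L ih =>
    intro L' h
    rw [ins, List.mem_cons] at h
    rcases h with h | h
    · rw [h, nL_cons, nL_cons]; simp only [List.length_cons]; omega
    · obtain ⟨M, hM, rfl⟩ := List.mem_map.1 h
      rw [nL_cons, nL_cons, ih M hM]; omega

private theorem lsum_le {α : Type} (l : List α) (f g : α → ENNReal) (h : ∀ a ∈ l, f a ≤ g a) :
    (l.map f).sum ≤ (l.map g).sum := List.sum_le_sum h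

private theorem free_c {V : Type} [DecidableEq V] {T : V → V → ENNReal} (h : ∀ x, 1 ≤ T x x)
    (c : ENNReal) (L : List (V × List V × V)) (N : ℕ) (hN : nL L = N) :
    ∑' z : V, ((ins z L).map (fun L' => c * cmL T L')).sum ≤ c * N * cmL (kc T T) L := by
  have h1 : ∀ z : V, ((ins z L).map (fun L' => c * cmL T L')).sum = c * ((ins z L).map (cmL T)).sum :=
    fun z => List.sum_map_mul_left _ _ _
  rw [tsum_congr h1, ENNReal.tsum_mul_left, mul_assoc]
  refine mul_le_mul' le_rfl ?_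
  have := free h L
  rw [← hN]
  exact this

private theorem kc_self_one {V : Type} {T : V → V → ENNReal} (h : ∀ x, 1 ≤ T x x) (x : V) :
    1 ≤ kc T T x x := by
  calc (1 : ENNReal) = 1 * 1 := (one_mul _).symm
    _ ≤ T x x * T x x := mul_le_mul' (h x) (h x)
    _ ≤ ∑' z, T x z * T z x := ENNReal.le_tsum x

/-- the sums over `w`, `y`, `z₂`, `z₁` -/
private theorem mass1 {V : Type} [DecidableEq V] {T : V → V → ENNReal} {B : ENNReal}
    (h : ∀ x, 1 ≤ T x x) (hB : ∀ x y, kp T 4 x y ≤ B) (v s u : V) :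
    ∑' w : V, core T v s u w ≤
      270 * B * ∑' t : V, ∑' w' : V, cmL (kp T 8) [(v, [t, w'], s), (t, [u], w')] := by
  have h2 : ∀ x, 1 ≤ kc T T x x := kc_self_one h
  have h4 : ∀ x, 1 ≤ kc (kc T T) (kc T T) x x := kc_self_one h2
  have e4 : kc (kc T T) (kc T T) = kp T 4 := by
    rw [← kp_two T, ← kp_two (kp T 2), kp_mul]
  have e8 : kc (kc (kc T T) (kc T T)) (kc (kc T T) (kc T T)) = kp T 8 := by
    rw [e4, ← kp_two (kp T 4), kp_mul]
  unfold core
  rw [ENNReal.tsum_comm, ← ENNReal.tsum_mul_left]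
  refine ENNReal.tsum_le_tsum fun t => ?_
  rw [ENNReal.tsum_comm, ← ENNReal.tsum_mul_left]
  refine ENNReal.tsum_le_tsum fun w' => ?_
  rw [ENNReal.tsum_comm]
  set L0 : List (V × List V × V) := [(v, [t, w'], s), (t, [u], w')] with hL0
  have n0 : nL L0 = 5 := by simp [hL0, nL]
  -- fixed z₁
  have step1 : ∀ z₁ : V, (∑' w : V, ∑' z₂ : V, ∑' y : V,
      ((ins z₁ L0).map (fun L₁ => ((ins z₂ L₁).map (fun L₂ =>
        ((ins w ((z₁, [y], z₂) :: L₂)).map (cmL T)).sum)).sum)).sum) ≤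
      ((ins z₁ L0).map (fun L₁ => 9 * B * 6 * cmL (kc (kc T T) (kc T T)) L₁)).sum := by
    intro z₁
    rw [ENNReal.tsum_comm]
    have step2 : ∀ z₂ : V, (∑' w : V, ∑' y : V,
        ((ins z₁ L0).map (fun L₁ => ((ins z₂ L₁).map (fun L₂ =>
          ((ins w ((z₁, [y], z₂) :: L₂)).map (cmL T)).sum)).sum)).sum) ≤
        ((ins z₁ L0).map (fun L₁ => ((ins z₂ L₁).map (fun L₂ => 9 * B * cmL (kc T T) L₂)).sum)).sum := by
      intro z₂
      rw [ENNReal.tsum_comm]
      have step3 : ∀ y : V, (∑' w : V,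
          ((ins z₁ L0).map (fun L₁ => ((ins z₂ L₁).map (fun L₂ =>
            ((ins w ((z₁, [y], z₂) :: L₂)).map (cmL T)).sum)).sum)).sum) ≤
          ((ins z₁ L0).map (fun L₁ => ((ins z₂ L₁).map (fun L₂ =>
            9 * (cm (kc T T) (z₁, [y], z₂) * cmL (kc T T) L₂))).sum)).sum := by
        intro y
        rw [bkp_tsum_list_sum]
        refine lsum_le _ _ _ fun L₁ hL₁ => ?_
        rw [bkp_tsum_list_sum]
        refine lsum_le _ _ _ fun L₂ hL₂ => ?_
        have hn : nL ((z₁, [y], z₂) :: L₂) = 9 := by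
          rw [nL_cons, nL_ins z₂ L₁ L₂ hL₂, nL_ins z₁ L0 L₁ hL₁, n0]
          simp
        have := free h ((z₁, [y], z₂) :: L₂)
        rw [← cmL_cons]
        refine this.trans (le_of_eq ?_)
        have hn' : ((((z₁, [y], z₂) :: L₂).map (fun c => c.2.1.length + 1)).sum : ℕ) = 9 := hn
        rw [hn']
        norm_num
      refine (ENNReal.tsum_le_tsum step3).trans ?_
      rw [bkp_tsum_list_sum]
      refine lsum_le _ _ _ fun L₁ _ => ?_
      rw [bkp_tsum_list_sum]
      refine lsum_le _ _ _ fun L₂ _ => ?_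
      rw [ENNReal.tsum_mul_left, ENNReal.tsum_mul_right, mul_assoc]
      refine mul_le_mul' le_rfl (mul_le_mul' ?_ le_rfl)
      have : (∑' y : V, cm (kc T T) (z₁, [y], z₂)) = kp T 4 z₁ z₂ := by
        rw [← e4]
        exact tsum_congr fun y => cm_one _ _ _ _
      rw [this]
      exact hB _ _
    refine (ENNReal.tsum_le_tsum step2).trans ?_
    rw [bkp_tsum_list_sum]
    refine lsum_le _ _ _ fun L₁ hL₁ => ?_
    have := free_c h2 (9 * B) L₁ 6 (by rw [nL_ins z₁ L0 L₁ hL₁, n0])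
    refine this.trans (le_of_eq ?_)
    norm_num
  refine (ENNReal.tsum_le_tsum step1).trans ?_
  have := free_c h4 (9 * B * 6) L0 5 n0
  refine this.trans (le_of_eq ?_)
  rw [e8]
  have : (9 * B * 6 * ((5 : ℕ) : ENNReal)) = 270 * B := by push_cast; ring
  rw [this]

private theorem q_kp {V : Type} [DecidableEq V] {T K q : V → V → ENNReal}
    (hq : ∀ x y z, q x z ≤ q x y * q y z) (hK : ∀ x y, q x y * T x y ≤ K x y) (n : ℕ) :
    ∀ x y, q x y * kp T (n + 1) x y ≤ kp K (n + 1) x y := by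
  induction n with
  | zero => intro x y; rw [zero_add, kp_one, kp_one]; exact hK x y
  | succ n ih =>
    intro x y
    show q x y * (∑' z, T x z * kp T (n + 1) z y) ≤ ∑' z, K x z * kp K (n + 1) z y
    rw [← ENNReal.tsum_mul_left]
    refine ENNReal.tsum_le_tsum fun z => ?_
    calc q x y * (T x z * kp T (n + 1) z y) ≤ (q x z * q z y) * (T x z * kp T (n + 1) z y) :=
          mul_le_mul' (hq x z y) le_rfl
      _ = (q x z * T x z) * (q z y * kp T (n + 1) z y) := by ring
      _ ≤ K x z * kp K (n + 1) z y := mul_le_mul' (hK x z) (ih z y)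

theorem hMass : StMass := by
  intro V _ T K q B hW v s
  have hKK : ∀ x, 1 ≤ K x x := fun x => by
    calc (1 : ENNReal) = 1 * 1 := (one_mul _).symm
      _ ≤ q x x * T x x := mul_le_mul' (hW.one_le_q x x) (hW.one_le_T x)
      _ ≤ K x x := hW.le_K x x
  have hTK : ∀ x y, T x y ≤ K x y := fun x y => by
    calc T x y = 1 * T x y := (one_mul _).symm
      _ ≤ q x y * T x y := mul_le_mul' (hW.one_le_q x y) le_rfl
      _ ≤ K x y := hW.le_K x y
  have hB4 : ∀ x y, kp T 4 x y ≤ B := fun x y =>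
    ((kp_mono hTK 4 x y).trans (kp_le_kp hKK (by norm_num) x y)).trans (hW.le_B x y)
  have hB16 : ∀ x y, kp K 16 x y ≤ B := fun x y => (kp_le_kp hKK (by norm_num) x y).trans (hW.le_B x y)
  have hq8 : ∀ x y, q x y * kp T 8 x y ≤ kp K 8 x y := q_kp hW.q_mul hW.le_K 7
  have hT8 : ∀ x y, kp T 8 x y ≤ kp K 8 x y := kp_mono hTK 8
  set T8 := kp T 8 with hT8def
  set K8 := kp K 8 with hK8def
  have e16 : kc K8 K8 = kp K 16 := by rw [← kp_two, hK8def, kp_mul]
  have e24 : kc K8 (kc K8 K8) = kp K 24 := by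
    rw [e16, hK8def, ← kp_add]
  -- reduce to the two-chain sum
  have main : ∀ u, ∑' w : V, q v u * core T v s u w ≤
      ∑' t : V, ∑' w' : V, 270 * B *
        ((q v t * cm T8 (v, [t, w'], s)) * (K8 t u * K8 u w')) := by
    intro u
    rw [ENNReal.tsum_mul_left]
    refine (mul_le_mul' le_rfl (mass1 hW.one_le_T hB4 v s u)).trans ?_
    rw [← mul_assoc, ← ENNReal.tsum_mul_left]
    refine ENNReal.tsum_le_tsum fun t => ?_
    rw [← ENNReal.tsum_mul_left]
    refine ENNReal.tsum_le_tsum fun w' => ?_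
    have e1 : cmL (kp T 8) [(v, [t, w'], s), (t, [u], w')] =
        cm T8 (v, [t, w'], s) * (T8 t u * T8 u w') := by
      rw [cmL_cons, cmL_cons, cm_one]
      simp [cmL, hT8def]
    rw [e1]
    calc q v u * (270 * B) * (cm T8 (v, [t, w'], s) * (T8 t u * T8 u w'))
        ≤ (q v t * q t u) * (270 * B) * (cm T8 (v, [t, w'], s) * (T8 t u * T8 u w')) :=
          mul_le_mul' (mul_le_mul' (hW.q_mul v t u) le_rfl) le_rfl
      _ = 270 * B * ((q v t * cm T8 (v, [t, w'], s)) * ((q t u * T8 t u) * T8 u w')) := by ring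
      _ ≤ 270 * B * ((q v t * cm T8 (v, [t, w'], s)) * (K8 t u * K8 u w')) :=
          mul_le_mul' le_rfl (mul_le_mul' le_rfl (mul_le_mul' (hq8 t u) (hT8 u w')))
  refine (ENNReal.tsum_le_tsum main).trans ?_
  rw [ENNReal.tsum_comm]
  have inner : ∀ t : V, ∑' u : V, ∑' w' : V, 270 * B *
        ((q v t * cm T8 (v, [t, w'], s)) * (K8 t u * K8 u w')) ≤
      ∑' w' : V, 270 * B * (B * (K8 v t * (K8 t w' * K8 w' s) + K8 v w' * (K8 w' t * K8 t s))) := by
    intro t
    rw [ENNReal.tsum_comm]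
    refine ENNReal.tsum_le_tsum fun w' => ?_
    rw [ENNReal.tsum_mul_left, ENNReal.tsum_mul_left]
    refine mul_le_mul' le_rfl ?_
    rw [mul_comm B]
    refine mul_le_mul' ?_ ?_
    · rw [cm_two, mul_add]
      refine add_le_add ?_ ?_
      · calc q v t * (T8 v t * T8 t w' * T8 w' s) = (q v t * T8 v t) * (T8 t w' * T8 w' s) := by ring
          _ ≤ K8 v t * (K8 t w' * K8 w' s) :=
            mul_le_mul' (hq8 v t) (mul_le_mul' (hT8 _ _) (hT8 _ _))
      · calc q v t * (T8 v w' * T8 w' t * T8 t s)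
            ≤ (q v w' * q w' t) * (T8 v w' * T8 w' t * T8 t s) :=
              mul_le_mul' (hW.q_mul v w' t) le_rfl
          _ = (q v w' * T8 v w') * ((q w' t * T8 w' t) * T8 t s) := by ring
          _ ≤ K8 v w' * (K8 w' t * K8 t s) :=
            mul_le_mul' (hq8 _ _) (mul_le_mul' (hq8 _ _) (hT8 _ _))
    · have : (∑' u : V, K8 t u * K8 u w') = kp K 16 t w' := by rw [← e16]; rfl
      rw [this]
      exact hB16 _ _
  refine (ENNReal.tsum_le_tsum inner).trans ?_
  have e1 : ∀ t : V, (∑' w' : V, 270 * B * (B * (K8 v t * (K8 t w' * K8 w' s) +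
      K8 v w' * (K8 w' t * K8 t s)))) =
      270 * B * (B * ((K8 v t * kc K8 K8 t s) + (kc K8 K8 v t * K8 t s))) := by
    intro t
    rw [ENNReal.tsum_mul_left, ENNReal.tsum_mul_left, ENNReal.tsum_add, ENNReal.tsum_mul_left]
    congr 3
    have : ∀ w' : V, K8 v w' * (K8 w' t * K8 t s) = (K8 v w' * K8 w' t) * K8 t s :=
      fun w' => by ring
    rw [tsum_congr this, ENNReal.tsum_mul_right]
    rfl
  rw [tsum_congr e1, ENNReal.tsum_mul_left, ENNReal.tsum_mul_left, ENNReal.tsum_add]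
  have e2 : (∑' t : V, K8 v t * kc K8 K8 t s) = kp K 24 v s := by rw [← e24]; rfl
  have e3 : (∑' t : V, kc K8 K8 v t * K8 t s) = kp K 24 v s := by
    rw [← e24, ← kc_assoc]; rfl
  rw [e2, e3]
  refine le_of_eq ?_
  ring

end Pool.LE
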