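import Pool.Agent.Helper84.LE.St1
import Pool.Agent.Helper84.LE.BGR
import Pool.Agent.Helper84.LE.BWT
import Pool.Agent.Helper84.LE.BNN
import Pool.Agent.Helper84.LE.BKP

/-! MP_e167eb: plan 3.11 (module N0). -/

set_option autoImplicit false
set_option linter.unusedSectionVars false
open scoped BigOperators Polynomial
open Polynomial

namespace Pool.LE

variable {V : Type} [DecidableEq V]

theorem n0_wA (ω : Finset (Sym2 V)) (v x : V) [Decidable (dbl ω v x)] :
    wA ω {v} v x = if dbl ω v x then mon ω v x else 0 := by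
  have h0 : ∀ y : V, monA ω {v} v y = 0 := fun y => monA_of_mem rfl
  unfold wA
  rw [Finset.sum_eq_zero (fun cb _ => by
    rw [h0]
    split_ifs <;> simp), h0, add_zero, sub_zero]
  by_cases hd : dbl ω v x
  · rw [if_pos hd, if_pos hd]
  · rw [if_neg hd, if_neg hd]

theorem hN0a : StN0a := by
  intro V _ E p v
  unfold WW
  have h : ∀ ω ⊆ E, wA ω {v} v v = (fun _ => (1 : ℝ[X])) ω := by
    intro ω _
    classical
    rw [n0_wA, if_pos ⟨con_refl _ _, fun e _ => con_refl _ _⟩, mon_self]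
  rw [Ex_congr h, Ex_const]

theorem n0_TR_of_walk {ω η : Finset (Sym2 V)} {c : V × List V × V} (p : (gr ω).Walk c.1 c.2.2)
    (hp : p.IsTrail) (hm : ∀ m ∈ c.2.1, m ∈ p.support) (he : ∀ e ∈ p.edges, e ∈ η) : TR η c := by
  obtain ⟨q, h1, h2, -⟩ := exists_walk_of_edges p he
  refine ⟨q, ?_, fun m hmm => by rw [h2]; exact hm m hmm⟩
  rw [SimpleGraph.Walk.isTrail_def, h1]
  exact hp.edges_nodup

theorem n0_TR_inc (c : V × List V × V) : Inc (fun η => TR η c) := by
  rintro ω η h ⟨p, hp, hm⟩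
  exact n0_TR_of_walk p hp hm fun e he => h (mem_edges_gr p he)

theorem n0_Pr_edge {E : Finset (Sym2 V)} {p : ℝ} (h0 : 0 ≤ p) (h1 : p ≤ 1) (e : Sym2 V) :
    Pr E p (fun ω => e ∈ ω) ≤ ENNReal.ofReal p := by
  by_cases he : e ∈ E
  · have hz : Pr (E.erase e) p (fun ω => e ∈ ω) = 0 := by
      unfold Pr
      rw [ExE_congr (g := fun _ => 0) (fun ω hω => by
        rw [if_neg (fun h => (Finset.notMem_erase e E) (hω h))]), ExE_const h0 h1]
    rw [← Finset.insert_erase he, Pr_insert (Finset.notMem_erase e E) h0 h1, hz, mul_zero, zero_add]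
    calc ENNReal.ofReal p * Pr (E.erase e) p (fun ω => e ∈ insert e ω)
        ≤ ENNReal.ofReal p * 1 := by
          gcongr
          exact Pr_le_one h0 h1 _ _
      _ = ENNReal.ofReal p := mul_one _
  · have hz : Pr E p (fun ω => e ∈ ω) = 0 := by
      unfold Pr
      rw [ExE_congr (g := fun _ => 0) (fun ω hω => by
        rw [if_neg (fun h => he (hω h))]), ExE_const h0 h1]
    rw [hz]
    exact zero_le

/-- the second event -/
def n0F (N : Finset V) (v x : V) (ζ : Finset (Sym2 V)) : Prop :=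
  ∃ b ∈ N, ∃ θ ⊆ ζ, s(v, b) ∈ θ ∧ con (ζ \ θ) b x

theorem n0_dis_inc {A B : Finset (Sym2 V) → Prop} (hB : Inc B) :
    Inc (fun ω => ∃ η ⊆ ω, A η ∧ B (ω \ η)) := by
  rintro ω ζ h ⟨η, h1, h2, h3⟩
  exact ⟨η, h1.trans h, h2, hB _ _ (Finset.sdiff_subset_sdiff h subset_rfl) h3⟩

theorem n0F_inc (N : Finset V) (v x : V) : Inc (n0F N v x) := by
  rintro ω ζ h ⟨b, hb, θ, h1, h2, h3⟩
  exact ⟨b, hb, θ, h1.trans h, h2, con_mono (Finset.sdiff_subset_sdiff h subset_rfl) h3⟩

theorem n0F_Pr (hBK : StBK) {E : Finset (Sym2 V)} {p : ℝ} {T : V → V → ENNReal} (h0 : 0 ≤ p)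
    (hp : p ≤ 1 / 2) (hT : Dom E p T) (N : Finset V) (v x : V) :
    Pr E p (n0F N v x) ≤ ∑ b ∈ N, ENNReal.ofReal p * T b x := by
  have h1 : Pr E p (n0F N v x) ≤
      ∑ b ∈ N, Pr E p (fun ω => ∃ θ ⊆ ω, s(v, b) ∈ θ ∧ con (ω \ θ) b x) := by
    have h2 : Pr E p (n0F N v x) ≤ Pr E p (fun ω => ∃ b : {b // b ∈ N}, (fun (b : V)
        (ω : Finset (Sym2 V)) => ∃ θ ⊆ ω, s(v, b) ∈ θ ∧ con (ω \ θ) b x) b.1 ω) := by
      refine Pr_mono fun ω _ h => ?_
      obtain ⟨b, hb, hθ⟩ := h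
      exact ⟨⟨b, hb⟩, hθ⟩
    refine h2.trans ((Pr_exists_le _).trans (le_of_eq ?_))
    exact Finset.tsum_subtype N (fun b => Pr E p (fun ω => ∃ θ ⊆ ω, s(v, b) ∈ θ ∧ con (ω \ θ) b x))
  refine h1.trans (Finset.sum_le_sum fun b _ => ?_)
  refine (hBK V E p h0 hp (fun ω => s(v, b) ∈ ω) (fun ω => con ω b x)
    (fun ω η h h' => h h') (fun ω η h h' => con_mono h h')).trans ?_
  exact mul_le_mul' (n0_Pr_edge h0 (by linarith) _) (hT b x)

/-- the event of one point `y` -/
def n0Ev (N : Finset V) (v x y : V) (ω : Finset (Sym2 V)) : Prop :=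
  ∃ η ⊆ ω, TR η (v, [y], x) ∧ n0F N v x (ω \ η)

theorem n0_event (hM : StMenger) {E ω : Finset (Sym2 V)} (hω : ω ⊆ E) {nbf : V → Finset V}
    (hn : ∀ u b, s(u, b) ∈ E → b ∈ nbf u) {v x : V} (hx : x ≠ v) (hd : dbl ω v x) :
    ∃ P : (gr ω).Walk v x, P.IsPath ∧ ∀ y ∈ P.support, n0Ev (nbf v) v x y ω := by
  obtain ⟨P, Q, hP, hQ, hPQ⟩ := hM V ω v x hd
  refine ⟨P, hP, fun y hy => ⟨P.edges.toFinset, fun e he => mem_edges_gr P (List.mem_toFinset.1 he),
    n0_TR_of_walk (c := (v, [y], x)) P hP.isTrail (by simpa using hy)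
      (fun e he => List.mem_toFinset.2 he), ?_⟩⟩
  cases Q with
  | nil => exact absurd rfl hx
  | cons hadj Q' =>
    rename_i b
    rw [SimpleGraph.Walk.cons_isPath_iff] at hQ
    have hvb : s(v, b) ∈ ω := (gr_adj.1 hadj).1
    refine ⟨b, hn v b (hω hvb), {s(v, b)}, ?_, Finset.mem_singleton_self _, ?_⟩
    · intro e he
      rw [Finset.mem_singleton] at he
      subst he
      rw [Finset.mem_sdiff, List.mem_toFinset]
      refine ⟨hvb, fun h => hPQ _ h ?_⟩
      rw [SimpleGraph.Walk.edges_cons]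
      exact List.mem_cons_self
    · obtain ⟨q, -, -, -⟩ := exists_walk_of_edges
        (η := (ω \ P.edges.toFinset) \ {s(v, b)}) Q' (fun e he => by
          rw [Finset.mem_sdiff, Finset.mem_sdiff, List.mem_toFinset, Finset.mem_singleton]
          refine ⟨⟨mem_edges_gr Q' he, fun h => hPQ _ h ?_⟩, ?_⟩
          · rw [SimpleGraph.Walk.edges_cons]
            exact List.mem_cons_of_mem _ he
          · rintro rfl
            exact hQ.2 (Q'.fst_mem_support_of_mem_edges he))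
      exact ⟨q⟩

theorem hN0b (hM : StMenger) (hBK : StBK) (hTR : StTRcm) : StN0b := by
  intro V _ E p T nbf h0 hp hT hn v x hx
  classical
  have h1 : p ≤ 1 := by linarith
  have key : NN (WW E p {v} v x) ≤
      ∑' y : V, Pr E p (n0Ev (nbf v) v x y) := by
    unfold WW
    refine (NN_Ex_le h0 h1 E _).trans ?_
    unfold Pr
    rw [← ExE_tsum]
    refine ExE_mono fun ω hω => ?_
    rw [n0_wA]
    by_cases hd : dbl ω v x
    · rw [if_pos hd, mon_of_con hd.1, NN_X_pow]
      obtain ⟨P, hP, hev⟩ := n0_event hM hω hn hx hd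
      have h2 : (gr ω).dist v x ≤ P.length := SimpleGraph.dist_le P
      have h3 : P.support.toFinset.card = P.length + 1 := by
        rw [List.toFinset_card_of_nodup hP.support_nodup, SimpleGraph.Walk.length_support]
      calc (1 : ENNReal) + ((gr ω).dist v x : ENNReal) ≤ 1 + (P.length : ENNReal) := by
            gcongr
        _ = ∑ y ∈ P.support.toFinset, (1 : ENNReal) := by
            rw [Finset.sum_const, h3, nsmul_eq_mul, mul_one, Nat.cast_add, Nat.cast_one, add_comm]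
        _ ≤ ∑ y ∈ P.support.toFinset, (if n0Ev (nbf v) v x y ω then (1 : ENNReal) else 0) := by
            refine Finset.sum_le_sum fun y hy => ?_
            rw [if_pos (hev y (List.mem_toFinset.1 hy))]
        _ ≤ _ := ENNReal.sum_le_tsum _
    · rw [if_neg hd, NN_zero]
      exact zero_le
  refine key.trans (ENNReal.tsum_le_tsum fun y => ?_)
  refine (hBK V E p h0 hp _ _ (n0_TR_inc (v, [y], x)) (n0F_inc (nbf v) v x)).trans ?_
  have h4 := hTR V E p T h0 hp hT (v, [y], x)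
  rw [cm_one] at h4
  exact mul_le_mul' h4 (n0F_Pr hBK h0 hp hT (nbf v) v x)

end Pool.LE
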