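import Pool.Agent.Helper84.LE.St3

/-! The normalised Lebesgue measure on `(-π, π]` and a one-dimensional integral. -/

set_option autoImplicit false
open scoped BigOperators
open MeasureTheory

namespace Pool.LE

theorem isProbabilityMeasure_nu : IsProbabilityMeasure nu := by
  constructor
  have h2 : (0 : ℝ) < 2 * Real.pi := by positivity
  rw [nu, Measure.smul_apply, Measure.restrict_apply MeasurableSet.univ, Set.univ_inter,
    Real.volume_Ioc, smul_eq_mul, ← ENNReal.ofReal_mul (by positivity),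
    show 1 / (2 * Real.pi) * (Real.pi - -Real.pi) = 1 by field_simp; ring, ENNReal.ofReal_one]

theorem hNuProb : StNuProb := by
  refine ⟨isProbabilityMeasure_nu, fun d => ?_⟩
  haveI := isProbabilityMeasure_nu
  unfold muT
  infer_instance

theorem integrableOn_abs_rpow {r : ℝ} (hr : -1 < r) :
    IntegrableOn (fun x : ℝ => |x| ^ r) (Set.Ioc (-Real.pi) Real.pi) := by
  have h0 : -Real.pi ≤ Real.pi := by linarith [Real.pi_pos]
  have h1 : IntervalIntegrable (fun x : ℝ => |x| ^ r) volume 0 Real.pi := by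
    refine (intervalIntegral.intervalIntegrable_rpow' (a := 0) (b := Real.pi) hr).congr ?_
    intro x hx
    rw [Set.uIoc_of_le Real.pi_pos.le] at hx
    simp only
    rw [abs_of_pos hx.1]
  have h2 : IntervalIntegrable (fun x : ℝ => |x| ^ r) volume (-Real.pi) 0 := by
    have h3 := (IntervalIntegrable.iff_comp_neg (f := fun x : ℝ => |x| ^ r)
      (a := 0) (b := Real.pi)).1 h1
    simp only [abs_neg, neg_zero] at h3
    exact h3.symm
  rw [← intervalIntegrable_iff_integrableOn_Ioc_of_le h0]
  exact h2.trans h1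

theorem cos_bound {s : ℝ} (hs : 0 ≤ s) {t : ℝ} (ht : |t| ≤ Real.pi) :
    (1 - Real.cos t) ^ (-s) ≤ (2 / Real.pi ^ 2) ^ (-s) * |t| ^ (-(2 * s)) := by
  rcases eq_or_ne t 0 with rfl | h0
  · rw [Real.cos_zero, sub_self, abs_zero]
    rcases hs.eq_or_lt with rfl | h1
    · simp
    · rw [Real.zero_rpow (by linarith)]
      positivity
  · have h1 := Real.cos_le_one_sub_mul_cos_sq ht
    have ha : 0 < |t| := abs_pos.2 h0
    have h2 : 0 < 2 / Real.pi ^ 2 * |t| ^ 2 := by positivity
    have h3 : 2 / Real.pi ^ 2 * |t| ^ 2 ≤ 1 - Real.cos t := by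
      rw [sq_abs]; linarith
    calc (1 - Real.cos t) ^ (-s) ≤ (2 / Real.pi ^ 2 * |t| ^ 2) ^ (-s) :=
          Real.rpow_le_rpow_of_nonpos h2 h3 (by linarith)
      _ = (2 / Real.pi ^ 2) ^ (-s) * |t| ^ (-(2 * s)) := by
          rw [Real.mul_rpow (by positivity) (by positivity), ← Real.rpow_natCast |t| 2,
            ← Real.rpow_mul ha.le]
          congr 2
          push_cast; ring

theorem hCos1 : StCos1 := by
  intro s hs0 hs
  have hI : IntegrableOn (fun t : ℝ => (2 / Real.pi ^ 2) ^ (-s) * |t| ^ (-(2 * s)))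
      (Set.Ioc (-Real.pi) Real.pi) :=
    (integrableOn_abs_rpow (by linarith)).const_mul _
  rw [nu, lintegral_smul_measure]
  refine ENNReal.mul_lt_top ENNReal.ofReal_lt_top ?_
  refine lt_of_le_of_lt ?_ hI.lintegral_lt_top
  refine lintegral_mono_ae ?_
  filter_upwards [ae_restrict_mem measurableSet_Ioc] with t ht
  exact ENNReal.ofReal_le_ofReal (cos_bound hs0 (abs_le.2 ⟨ht.1.le, ht.2⟩))

end Pool.LE
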