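import Pool.Agent.Helper84.LE.M_Base
import Pool.Agent.Helper84.LE.BNN

/-! MP_e167eb: plan 3.5 (module Nw). -/

set_option autoImplicit false
set_option linter.unusedSectionVars false
open scoped BigOperators Polynomial
open Polynomial

namespace Pool.LE

variable {V : Type} [DecidableEq V]

open Classical in
/-- the number of points on paths from `v` to `u` -/
noncomputable def cntY (ω : Finset (Sym2 V)) (v u : V) : ENNReal :=
  ∑' y : V, if Yp ω v u y then 1 else 0

theorem le_cntY {ω : Finset (Sym2 V)} {v u : V} (q : (gr ω).Walk v u) (hq : q.IsPath) :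
    1 + (q.length : ENNReal) ≤ cntY ω v u := by
  classical
  have h1 : ∑ y ∈ q.support.toFinset, (if Yp ω v u y then (1 : ENNReal) else 0) ≤ cntY ω v u :=
    ENNReal.sum_le_tsum _
  refine le_trans ?_ h1
  have h2 : ∀ y ∈ q.support.toFinset, (if Yp ω v u y then (1 : ENNReal) else 0) = 1 := by
    intro y hy
    rw [if_pos]
    exact ⟨q, hq, List.mem_toFinset.1 hy⟩
  rw [Finset.sum_congr rfl h2, Finset.sum_const, List.toFinset_card_of_nodup hq.support_nodup,
    SimpleGraph.Walk.length_support, nsmul_eq_mul, mul_one]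
  push_cast
  rw [add_comm]

/-- a path in the restricted graph is a path -/
theorem path_of_rst {ω : Finset (Sym2 V)} {A : Set V} {x y : V} (h : con (rst ω A) x y) :
    ∃ q : (gr ω).Walk x y, q.IsPath ∧ q.length = (gr (rst ω A)).dist x y := by
  obtain ⟨q, hq, hl⟩ := exists_path_dist h
  obtain ⟨q', -, h2, h3⟩ := exists_walk_of_edges (η := ω) q
    (fun e he => rst_subset ω A (mem_edges_gr q he))
  refine ⟨q', ?_, h3.trans hl⟩
  rw [SimpleGraph.Walk.isPath_def, h2]
  exact hq.support_nodup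

/-- if the restricted distance differs then a path meets the forbidden set -/
theorem exists_mem_of_ne {ω : Finset (Sym2 V)} {A : Set V} {t u : V} (hc : con ω t u)
    (h : mon ω t u ≠ monA ω A t u) :
    ∃ s ∈ A, ∃ q : (gr ω).Walk t u, q.IsPath ∧ s ∈ q.support := by
  obtain ⟨q, hq, hl⟩ := exists_path_dist hc
  by_contra hcon
  push Not at hcon
  have hA : ∀ s ∈ q.support, s ∉ A := fun s hs hsA => hcon s hsA q hq hs
  apply h
  have htA : t ∉ A := hA t q.start_mem_support
  obtain ⟨q', -, -, h3⟩ := exists_walk_of_edges (η := rst ω A) q (fun e he => by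
    rw [mem_rst]
    exact ⟨mem_edges_gr q he, fun v hv => hA v (mem_support_of_edge q he hv)⟩)
  have hc' : con (rst ω A) t u := ⟨q'⟩
  rw [monA_of_not_mem htA, mon_of_con hc, mon_of_con hc']
  congr 1
  apply le_antisymm
  · exact dist_mono (rst_subset ω A) hc'
  · rw [← hl, ← h3]
    exact SimpleGraph.dist_le q'

theorem NN_mon_le {ω : Finset (Sym2 V)} {v u : V} (hc : con ω v u) :
    NN (mon ω v u) ≤ cntY ω v u := by
  obtain ⟨q, hq, hl⟩ := exists_path_dist hc
  rw [mon_of_con hc, NN_X_pow, ← hl]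
  exact le_cntY q hq

theorem monA_cases (ω : Finset (Sym2 V)) (A : Set V) (v u : V) : monA ω A v u = 0 ∨
    ∃ q : (gr ω).Walk v u, q.IsPath ∧ monA ω A v u = X ^ q.length := by
  by_cases h : monA ω A v u = 0
  · exact Or.inl h
  · right
    obtain ⟨hv, -, hc⟩ := con_rst_of_monA_ne_zero h
    obtain ⟨q, hq, hl⟩ := path_of_rst hc
    exact ⟨q, hq, by rw [monA_of_not_mem hv, mon_of_con hc, hl]⟩

theorem mon_cases {ω : Finset (Sym2 V)} {v u : V} (hc : con ω v u) :
    ∃ q : (gr ω).Walk v u, q.IsPath ∧ mon ω v u = X ^ q.length := by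
  obtain ⟨q, hq, hl⟩ := exists_path_dist hc
  exact ⟨q, hq, by rw [mon_of_con hc, hl]⟩

/-- concatenation of paths over a pivotal edge -/
theorem path_concat {ω : Finset (Sym2 V)} {v u c b : V} (hp : piv ω v u c b)
    (q₁ : (gr ω).Walk v c) (hq₁ : q₁.IsPath) (q₂ : (gr ω).Walk b u) (hq₂ : q₂.IsPath) :
    ∃ q : (gr ω).Walk v u, q.IsPath ∧ q.length = q₁.length + 1 + q₂.length := by
  obtain ⟨hmem, hvc, hbu, hvu⟩ := hp
  have hcu : ¬ con (ω.erase s(c, b)) c u := fun h => hvu (con_trans hvc h)
  have hbv : ¬ con (ω.erase s(b, c)) b v := by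
    rw [Sym2.eq_swap]
    exact fun h => hvu (con_trans (con_symm h) hbu)
  have h2 : s(c, b) ∉ q₂.edges := path_avoid q₂ hq₂ hcu
  have h1 : s(c, b) ∉ q₁.edges := by
    have := path_avoid q₁.reverse hq₁.reverse hbv
    rw [SimpleGraph.Walk.edges_reverse, List.mem_reverse, Sym2.eq_swap] at this
    exact this
  have hne : c ≠ b := by
    rintro rfl
    exact hvu (con_trans hvc hbu)
  have hadj : (gr ω).Adj c b := gr_adj.2 ⟨hmem, hne⟩
  have tr : ∀ (x y : V) (q : (gr ω).Walk x y), s(c, b) ∉ q.edges →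
      ∀ z ∈ q.support, con (ω.erase s(c, b)) x z := by
    intro x y q hq z hz
    obtain ⟨q', -, h2, -⟩ := exists_walk_of_edges (η := ω.erase s(c, b)) q (fun e he => by
      rw [Finset.mem_erase]
      refine ⟨?_, mem_edges_gr q he⟩
      rintro rfl
      exact hq he)
    exact con_of_mem_support q' (by rw [h2]; exact hz)
  refine ⟨q₁.append (SimpleGraph.Walk.cons hadj q₂), ?_, ?_⟩
  · rw [SimpleGraph.Walk.isPath_def, SimpleGraph.Walk.support_append,
      SimpleGraph.Walk.support_cons, List.tail_cons, List.nodup_append]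
    refine ⟨hq₁.support_nodup, hq₂.support_nodup, ?_⟩
    intro a ha a' ha' haa
    subst haa
    have k1 := tr _ _ q₁ h1 a ha
    have k2 := tr _ _ q₂ h2 a ha'
    exact hvu (con_trans k1 (con_trans (con_symm k2) hbu))
  · rw [SimpleGraph.Walk.length_append, SimpleGraph.Walk.length_cons]
    ring

open Classical in
theorem hNw (hLU : StLastU) (_hBR : StBR) : StNw := by
  intro V _ ω A v u
  -- it is enough to find one `t` and one `s`
  have key : ∀ t s : V, s ∈ A → Bt ω v u t s → NN (wA ω A v u) ≤ 2 * cntY ω v u →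
      NN (wA ω A v u) ≤ 2 * ∑' t : V, ∑' s : V, ∑' y : V,
        if s ∈ A ∧ Bt ω v u t s ∧ Yp ω v u y then 1 else 0 := by
    intro t s hs hB hle
    refine hle.trans (mul_le_mul_right ?_ 2)
    refine le_trans ?_ (ENNReal.le_tsum t)
    refine le_trans ?_ (ENNReal.le_tsum s)
    unfold cntY
    refine ENNReal.tsum_le_tsum fun y => ?_
    by_cases hy : Yp ω v u y
    · rw [if_pos hy, if_pos ⟨hs, hB, hy⟩]
    · rw [if_neg hy]; exact zero_le
  have hzero : wA ω A v u = 0 → NN (wA ω A v u) ≤ 2 * ∑' t : V, ∑' s : V, ∑' y : V,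
        if s ∈ A ∧ Bt ω v u t s ∧ Yp ω v u y then 1 else 0 := by
    intro h
    rw [h, NN_zero]
    exact zero_le
  obtain ⟨hU1, hU2⟩ := hLU V ω v u
  by_cases hd : dbl ω v u
  · -- no pivotal edge
    have hw : wA ω A v u = mon ω v u - monA ω A v u := by
      unfold wA
      rw [if_pos hd, Finset.sum_eq_zero, add_zero]
      intro cb _
      rw [if_neg (fun h => hU1 _ _ hd h.1)]
    by_cases he : mon ω v u = monA ω A v u
    · exact hzero (by rw [hw, he, sub_self])
    · obtain ⟨s, hs, q, hq, hsq⟩ := exists_mem_of_ne hd.1 he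
      refine key v s hs ⟨Or.inl rfl, hd, q, hq, hsq⟩ ?_
      rw [hw]
      refine (NN_sub_le _ _).trans ?_
      rw [two_mul]
      refine add_le_add (NN_mon_le hd.1) ?_
      rcases monA_cases ω A v u with h | ⟨q', hq', h⟩
      · rw [h, NN_zero]; exact zero_le
      · rw [h, NN_X_pow]
        exact le_cntY q' hq'
  · by_cases hex : ∃ c b, piv ω v u c b ∧ dbl ω b u
    · obtain ⟨c, b, hp, hdb⟩ := hex
      have hmem : (c, b) ∈ drt ω := mem_drt.2 hp.1
      have hw : wA ω A v u = X * monA ω A v c * (mon ω b u - monA ω A b u) := by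
        unfold wA
        rw [if_neg hd, zero_add, Finset.sum_eq_single_of_mem (c, b) hmem]
        · rw [if_pos ⟨hp, hdb⟩]
        · intro cb _ hne
          rw [if_neg]
          rintro ⟨h1, h2⟩
          obtain ⟨e1, e2⟩ := hU2 _ _ _ _ hp hdb h1 h2
          exact hne (Prod.ext e1.symm e2.symm)
      by_cases he : mon ω b u = monA ω A b u
      · exact hzero (by rw [hw, he, sub_self, mul_zero])
      rcases monA_cases ω A v c with h0 | ⟨q₁, hq₁, h0⟩
      · exact hzero (by rw [hw, h0, mul_zero, zero_mul])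
      obtain ⟨s, hs, q, hq, hsq⟩ := exists_mem_of_ne hdb.1 he
      refine key b s hs ⟨Or.inr ⟨c, hp⟩, hdb, q, hq, hsq⟩ ?_
      rw [hw, h0, mul_sub]
      refine (NN_sub_le _ _).trans ?_
      rw [two_mul]
      have hone : ∀ q₂ : (gr ω).Walk b u, q₂.IsPath →
          NN (X * X ^ q₁.length * X ^ q₂.length) ≤ cntY ω v u := by
        intro q₂ hq₂
        obtain ⟨q', hq', hl⟩ := path_concat hp q₁ hq₁ q₂ hq₂
        have e : (X * X ^ q₁.length * X ^ q₂.length : ℝ[X]) = X ^ q'.length := by
          rw [hl]; ring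
        rw [e, NN_X_pow]
        exact le_cntY q' hq'
      refine add_le_add ?_ ?_
      · obtain ⟨q₂, hq₂, h⟩ := mon_cases hdb.1
        rw [h]
        exact hone q₂ hq₂
      · rcases monA_cases ω A b u with h | ⟨q₂, hq₂, h⟩
        · rw [h, mul_zero, NN_zero]; exact zero_le
        · rw [h]
          exact hone q₂ hq₂
    · apply hzero
      unfold wA
      rw [if_neg hd, zero_add, Finset.sum_eq_zero]
      intro cb _
      rw [if_neg (fun h => hex ⟨_, _, h⟩)]

end Pool.LE
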