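import Pool.Agent.Helper84.LE.St5

/-! LE module OC0: the bootstrap hypothesis at `p = 0`. -/

set_option autoImplicit false
open scoped BigOperators Topology
open MeasureTheory Filter

namespace Pool.LE

open Classical in
theorem Pr_zero_OC0 {V : Type} [DecidableEq V] (E : Finset (Sym2 V))
    (A : Finset (Sym2 V) → Prop) : Pr E 0 A = if A ∅ then 1 else 0 := by
  unfold Pr ExE
  rw [Finset.sum_eq_single ∅]
  · simp [wt]
  · intro ω _ hω
    have h1 : ω.card ≠ 0 := by
      rw [Ne, Finset.card_eq_zero]; exact hω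
    simp [wt, zero_pow h1]
  · intro h
    exact absurd (Finset.empty_mem_powerset E) h

theorem con_empty_OC0 {V : Type} [DecidableEq V] (x y : V) :
    con (∅ : Finset (Sym2 V)) x y ↔ x = y := by
  unfold con gr
  rw [Finset.coe_empty, SimpleGraph.fromEdgeSet_empty, SimpleGraph.reachable_bot]

open Classical in
theorem tau_zero_OC0 (d : ℕ) (x : Zd d) : tau d 0 x = if x = 0 then 1 else 0 := by
  unfold tau tauE
  have h : ∀ R : ℕ, Pr (Eb d R) 0 (fun ω => con ω 0 x) = if x = 0 then 1 else 0 := by
    intro R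
    rw [Pr_zero_OC0]
    by_cases hx : x = 0
    · rw [if_pos hx, if_pos ((con_empty_OC0 0 x).2 hx.symm)]
    · rw [if_neg hx, if_neg (fun h => hx ((con_empty_OC0 0 x).1 h).symm)]
  simp only [h, ciSup_const]
  split_ifs <;> simp

theorem hOC0 : StOC0 := by
  intro d hd
  have hchi : chi d 0 = 1 := by
    unfold chi
    rw [tsum_eq_single (0 : Zd d)]
    · rw [tau_zero_OC0, if_pos rfl]
    · intro x hx
      rw [tau_zero_OC0, if_neg hx]
  have hlam : lam d 0 = 0 := by
    unfold lam
    rw [hchi]; norm_num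
  have hFT : ∀ k, FT (tau d 0) k = 1 := by
    intro k
    unfold FT
    rw [tsum_eq_single (0 : Zd d)]
    · rw [tau_zero_OC0, if_pos rfl]
      simp
    · intro x hx
      rw [tau_zero_OC0, if_neg hx, zero_mul]
  have hMT : ∀ k, MT (tau d 0) k = 0 := by
    intro k
    unfold MT
    rw [tsum_eq_single (0 : Zd d)]
    · simp [sq]
    · intro x hx
      rw [tau_zero_OC0, if_neg hx, mul_zero, zero_mul]
  refine ⟨by norm_num, ?_, ?_⟩
  · intro k _
    rw [hFT, hlam]
    norm_num
  · intro k _
    rw [hMT]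
    norm_num

end Pool.LE
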