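import Pool.Agent.Helper84.LE.St5

/-! LE module OC1: the bootstrap set is open and closed. -/

set_option autoImplicit false
open scoped BigOperators Topology
open MeasureTheory Filter

namespace Pool.LE

theorem hOC1 (hOCc : StOCc) : StOC1 := by
  intro d p₀ hd hp₀ hpH
  have hcont : ∀ ε : ℝ, 0 < ε → ∀ᶠ p in 𝓝[Set.Ico 0 (pH d)] p₀,
      |2 * (d : ℝ) * p - 2 * (d : ℝ) * p₀| ≤ ε := by
    intro ε hε
    have h1 : Tendsto (fun p : ℝ => 2 * (d : ℝ) * p) (𝓝[Set.Ico 0 (pH d)] p₀)
        (𝓝 (2 * (d : ℝ) * p₀)) :=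
      ((continuous_const.mul continuous_id).tendsto p₀).mono_left nhdsWithin_le_nhds
    have h2 := Metric.tendsto_nhds.1 h1 ε hε
    filter_upwards [h2] with p hp
    rw [Real.dist_eq] at hp
    exact hp.le
  refine ⟨?_, ?_⟩
  · intro hB
    filter_upwards [hOCc d p₀ hd hp₀ hpH 1 one_pos, hcont 1 one_pos] with p h1 h2
    refine ⟨?_, ?_, ?_⟩
    · have := (abs_le.1 h2).2
      have := hB.hp
      linarith
    · intro k hk
      have := (abs_le.1 (h1 k hk).1).2
      have := hB.ft k hk
      linarith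
    · intro k hk
      have := (abs_le.1 (h1 k hk).2).2
      have := hB.mt k hk
      linarith
  · intro hfr
    refine ⟨?_, ?_, ?_⟩
    · refine le_of_forall_pos_le_add fun ε hε => ?_
      obtain ⟨p, h1, h2⟩ := (hfr.and_eventually (hcont ε hε)).exists
      have := (abs_le.1 h2).1
      have := h1.hp
      linarith
    · intro k hk
      refine le_of_forall_pos_le_add fun ε hε => ?_
      obtain ⟨p, h1, h2⟩ := (hfr.and_eventually (hOCc d p₀ hd hp₀ hpH ε hε)).exists
      have := (abs_le.1 (h2 k hk).1).1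
      have := h1.ft k hk
      linarith
    · intro k hk
      refine le_of_forall_pos_le_add fun ε hε => ?_
      obtain ⟨p, h1, h2⟩ := (hfr.and_eventually (hOCc d p₀ hd hp₀ hpH ε hε)).exists
      have := (abs_le.1 (h2 k hk).2).1
      have := h1.mt k hk
      linarith

end Pool.LE
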