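import Pool.Agent.Helper84.LE.St5

/-! Module OCc: the transforms are continuous in `p`, uniformly in `k`. -/

set_option autoImplicit false
open scoped BigOperators Topology
open MeasureTheory Filter

namespace Pool.LE

theorem hOCc (h6b : StS6b) (hB1 : StB1) (hAdd : StFTadd) (hTb : StFTb) (hDh : StDh) :
    StOCc := by
  intro d p₀ hd h0 h1 ε hε
  have hN0 : 0 ≤ nQ (tau d p₀) := tsum_nonneg fun x => by
    have : 0 ≤ sq x := Finset.sum_nonneg fun _ _ => sq_nonneg _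
    unfold Qw
    positivity
  set N0 := nQ (tau d p₀) with hN
  have hev : ∀ᶠ p in 𝓝[Set.Ico 0 (pH d)] p₀,
      nQ (fun x => tau d p x - tau d p₀ x) < ε / (4 + 4 * N0) :=
    (h6b d p₀ hd h0 h1).eventually (Iio_mem_nhds (by positivity))
  filter_upwards [hev, self_mem_nhdsWithin] with p hp hpI k _
  obtain ⟨_, hS, hc, hFT, hl0, hl1, _⟩ := hB1 d p hd hpI.1 hpI.2
  obtain ⟨_, hS0, hc0, hFT0, hl00, hl10, _⟩ := hB1 d p₀ hd h0 h1
  set e := nQ (fun x => tau d p x - tau d p₀ x) with he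
  -- the difference
  have hneg : ∀ k' : Fin d → ℝ, SumQ (fun x => tau d p x - tau d p₀ x) ∧
      FT (fun x => tau d p x - tau d p₀ x) k' = FT (tau d p) k' - FT (tau d p₀) k' ∧
      MT (fun x => tau d p x - tau d p₀ x) k' = MT (tau d p) k' - MT (tau d p₀) k' := by
    intro k'
    obtain ⟨a1, a2, a3, _⟩ := (hAdd d (tau d p₀) (tau d p₀) hS0 hS0 k').2.2.2.2 (-1)
    obtain ⟨b1, b2, b3, _⟩ := hAdd d (tau d p) (fun x => -1 * tau d p₀ x) hS a1 k'
    have e1 : (fun x => tau d p x + -1 * tau d p₀ x) = fun x => tau d p x - tau d p₀ x := by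
      funext x; ring
    rw [e1] at b1 b2 b3
    exact ⟨b1, by rw [b2, a2]; ring, by rw [b3, a3]; ring⟩
  have hFe : ∀ k' : Fin d → ℝ, |FT (tau d p) k' - FT (tau d p₀) k'| ≤ e := by
    intro k'
    rw [← (hneg k').2.1]
    exact (hTb d _ (hneg k').1 k').2.2.2.1
  have hMe : |MT (tau d p) k - MT (tau d p₀) k| ≤ e := by
    rw [← (hneg k).2.2]
    exact (hTb d _ (hneg k).1 k).2.2.2.2.1
  have he0 : 0 ≤ e := (abs_nonneg _).trans (hFe k)
  have hF0 : |FT (tau d p₀) k| ≤ N0 := (hTb d _ hS0 k).2.2.2.1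
  have hM0 : |MT (tau d p₀) k| ≤ N0 := (hTb d _ hS0 k).2.2.2.2.1
  -- lam
  have hchi : |chi d p - chi d p₀| ≤ e := by
    rw [← hFT, ← hFT0]
    exact hFe 0
  have hlam : |lam d p - lam d p₀| ≤ e := by
    have e1 : lam d p - lam d p₀ = (chi d p - chi d p₀) / (chi d p * chi d p₀) := by
      unfold lam
      have : chi d p ≠ 0 := by linarith
      have : chi d p₀ ≠ 0 := by linarith
      field_simp
      ring
    have h2 : (1 : ℝ) ≤ chi d p * chi d p₀ := by nlinarith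
    rw [e1, abs_div, abs_of_pos (show 0 < chi d p * chi d p₀ by linarith)]
    exact (div_le_self (abs_nonneg _) h2).trans hchi
  obtain ⟨hD1, _, _, hD⟩ := hDh d k hd
  obtain ⟨hL1, hL2, _, _⟩ := hD (lam d p) hl0 hl1
  obtain ⟨hL1', hL2', _, _⟩ := hD (lam d p₀) hl00 hl10
  set L := 1 - lam d p * Dh k with hLdef
  set L0 := 1 - lam d p₀ * Dh k with hL0def
  have hLL : |L - L0| ≤ e := by
    have e1 : L - L0 = -((lam d p - lam d p₀) * Dh k) := by rw [hLdef, hL0def]; ring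
    rw [e1, abs_neg, abs_mul]
    calc |lam d p - lam d p₀| * |Dh k| ≤ e * 1 := mul_le_mul hlam hD1 (abs_nonneg _) he0
      _ = e := mul_one e
  have hbound : e * (4 + 4 * N0) ≤ ε := by
    have : e * (4 + 4 * N0) ≤ ε / (4 + 4 * N0) * (4 + 4 * N0) :=
      mul_le_mul_of_nonneg_right hp.le (by positivity)
    rwa [div_mul_cancel₀ _ (by positivity)] at this
  have key1 : ∀ A A0 : ℝ, |A - A0| ≤ e → |A0| ≤ N0 → |(|A| * L) - |A0| * L0| ≤ ε := by
    intro A A0 hA hA0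
    have e1 : |A| * L - |A0| * L0 = (|A| - |A0|) * L + |A0| * (L - L0) := by ring
    have h3 : |(|A| - |A0|)| ≤ e := (abs_abs_sub_abs_le_abs_sub A A0).trans hA
    calc |(|A| * L) - |A0| * L0| = |(|A| - |A0|) * L + |A0| * (L - L0)| := by rw [e1]
      _ ≤ |(|A| - |A0|) * L| + |(|A0|) * (L - L0)| := abs_add_le _ _
      _ = |(|A| - |A0|)| * L + |A0| * |L - L0| := by
          rw [abs_mul, abs_mul, abs_of_pos hL1, abs_abs]
      _ ≤ e * 2 + N0 * e := add_le_add (mul_le_mul h3 hL2 hL1.le he0)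
          (mul_le_mul hA0 hLL (abs_nonneg _) hN0)
      _ ≤ e * (4 + 4 * N0) := by nlinarith [mul_nonneg he0 hN0]
      _ ≤ ε := hbound
  have key2 : ∀ A A0 : ℝ, |A - A0| ≤ e → |A0| ≤ N0 → |(|A| * L ^ 2) - |A0| * L0 ^ 2| ≤ ε := by
    intro A A0 hA hA0
    have e1 : |A| * L ^ 2 - |A0| * L0 ^ 2 =
        (|A| - |A0|) * L ^ 2 + |A0| * ((L - L0) * (L + L0)) := by ring
    have h3 : |(|A| - |A0|)| ≤ e := (abs_abs_sub_abs_le_abs_sub A A0).trans hA
    have h4 : L ^ 2 ≤ 4 := by nlinarith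
    have h5 : |L + L0| ≤ 4 := by rw [abs_of_pos (by linarith)]; linarith
    calc |(|A| * L ^ 2) - |A0| * L0 ^ 2|
        = |(|A| - |A0|) * L ^ 2 + |A0| * ((L - L0) * (L + L0))| := by rw [e1]
      _ ≤ |(|A| - |A0|) * L ^ 2| + |(|A0|) * ((L - L0) * (L + L0))| := abs_add_le _ _
      _ = |(|A| - |A0|)| * L ^ 2 + |A0| * (|L - L0| * |L + L0|) := by
          rw [abs_mul, abs_mul, abs_mul, abs_of_nonneg (sq_nonneg L), abs_abs]
      _ ≤ e * 4 + N0 * (e * 4) := add_le_add (mul_le_mul h3 h4 (sq_nonneg _) he0)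
          (mul_le_mul hA0 (mul_le_mul hLL h5 (abs_nonneg _) he0) (by positivity) hN0)
      _ = e * (4 + 4 * N0) := by ring
      _ ≤ ε := hbound
  exact ⟨key1 _ _ (hFe k) hF0, key2 _ _ hMe hM0⟩

end Pool.LE
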