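import Pool.Agent.Helper84.LE.St1
import Pool.Agent.Helper84.LE.BGR
import Pool.Agent.Helper84.LE.BWT
import Pool.Agent.Helper84.LE.M_Loc

/-! Plan 2.3: one directed edge in expectation. -/

set_option autoImplicit false
open scoped BigOperators Polynomial
open Polynomial

namespace Pool.LE

variable {V : Type} [DecidableEq V]

/-- the cluster of `v` -/
def clu (ω : Finset (Sym2 V)) (v : V) : Set V := {y | con ω v y}

theorem wA_eq_zero {ω : Finset (Sym2 V)} {A : Set V} {v x : V} (h : ¬ con ω v x) :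
    wA ω A v x = 0 := by
  classical
  unfold wA
  rw [if_neg (fun hd : dbl ω v x => h hd.1), zero_add]
  refine Finset.sum_eq_zero fun cb _ => ?_
  rw [if_neg]
  rintro ⟨hp, -⟩
  exact h (piv_con hp)

theorem con_erase_of {ω : Finset (Sym2 V)} {v u b : V} (hb : ¬ con (ω.erase s(u, b)) v b)
    (hu : con ω v u) : con (ω.erase s(u, b)) v u := by
  by_contra hn
  apply hn
  have h : LocH (ω.erase s(u, b)) ω v := by
    rintro f ⟨y, hy, hc⟩
    rw [Finset.mem_erase, and_iff_right]
    rintro rfl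
    rcases Sym2.mem_iff.1 hy with rfl | rfl
    · exact hn hc
    · exact hb hc
  exact (h.con u).2 hu

theorem rst_insert_of_touch {ω : Finset (Sym2 V)} {A : Set V} {e : Sym2 V}
    (h : ∃ y ∈ e, y ∈ A) : rst (insert e ω) A = rst ω A := by
  obtain ⟨y, hy, hA⟩ := h
  ext f
  rw [mem_rst, mem_rst, Finset.mem_insert]
  constructor
  · rintro ⟨rfl | h1, h2⟩
    · exact absurd hA (h2 y hy)
    · exact ⟨h1, h2⟩
  · rintro ⟨h1, h2⟩
    exact ⟨Or.inr h1, h2⟩

theorem monA_insert_of_touch {ω : Finset (Sym2 V)} {A : Set V} {e : Sym2 V}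
    (h : ∃ y ∈ e, y ∈ A) (a x : V) : monA (insert e ω) A a x = monA ω A a x := by
  rw [← monA_rst (insert e ω), rst_insert_of_touch h, monA_rst]

theorem GA_insert_of_touch {F : Finset (Sym2 V)} {p : ℝ} {A : Set V} {e : Sym2 V} (he : e ∉ F)
    (h : ∃ y ∈ e, y ∈ A) (a x : V) : GA (insert e F) p A a x = GA F p A a x := by
  unfold GA
  rw [sum_insert_wt he]
  have h1 : Ex F p (fun ω => monA (insert e ω) A a x) = Ex F p (fun ω => monA ω A a x) :=
    Ex_congr fun ω _ => monA_insert_of_touch h a x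
  rw [h1, ← add_smul, sub_add_cancel, one_smul]

theorem GA_eq_zero_of_mem {F : Finset (Sym2 V)} {p : ℝ} {A : Set V} {a : V} (h : a ∈ A) (x : V) :
    GA F p A a x = 0 := by
  unfold GA
  have h1 : Ex F p (fun ω => monA ω A a x) = Ex F p (fun _ => (0 : ℝ[X])) :=
    Ex_congr fun ω _ => monA_of_mem h
  rw [h1, Ex_zero]

/-- the conditional independence for one value of the cluster -/
theorem one_fixed (F : Finset (Sym2 V)) (p : ℝ) (A T : Set V) (v u b x : V) [∀ η : Finset (Sym2 V),
    Decidable (clu η v = T)] :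
    Ex F p (fun η => (if clu η v = T then wA η A v u else 0) * monA η T b x) =
      Ex F p (fun η => (if clu η v = T then wA η A v u else 0) * GA F p T b x) := by
  classical
  obtain ⟨F₁, hF₁⟩ : ∃ F₁, F₁ = F.filter (fun e => ∃ y ∈ e, y ∈ T) := ⟨_, rfl⟩
  obtain ⟨F₂, hF₂⟩ : ∃ F₂, F₂ = rst F T := ⟨_, rfl⟩
  have hm₁ : ∀ e, e ∈ F₁ ↔ e ∈ F ∧ ∃ y ∈ e, y ∈ T := by
    intro e; rw [hF₁]; exact Finset.mem_filter
  have hm₂ : ∀ e, e ∈ F₂ ↔ e ∈ F ∧ ∀ y ∈ e, y ∉ T := by
    intro e; rw [hF₂]; exact mem_rst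
  have hdisj : Disjoint F₁ F₂ := by
    rw [Finset.disjoint_left]
    intro e h1 h2
    obtain ⟨-, y, hy, hT⟩ := (hm₁ e).1 h1
    exact ((hm₂ e).1 h2).2 y hy hT
  have hunion : F₁ ∪ F₂ = F := by
    ext e
    rw [Finset.mem_union, hm₁, hm₂]
    constructor
    · rintro (h | h)
      · exact h.1
      · exact h.1
    · intro h
      by_cases h' : ∃ y ∈ e, y ∈ T
      · exact Or.inl ⟨h, h'⟩
      · exact Or.inr ⟨h, fun y hy hT => h' ⟨y, hy, hT⟩⟩
  obtain ⟨φ, hφ⟩ : ∃ φ : Finset (Sym2 V) → ℝ[X],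
      φ = fun η => if clu η v = T then wA η A v u else 0 := ⟨_, rfl⟩
  obtain ⟨ψ, hψ⟩ : ∃ ψ : Finset (Sym2 V) → ℝ[X], ψ = fun η => monA η T b x := ⟨_, rfl⟩
  have h1 : ∀ η ⊆ F, φ η = φ (η ∩ F₁) := by
    intro η hη
    have key : LocH η (η ∩ F₁) v ∨ (clu η v ≠ T ∧ clu (η ∩ F₁) v ≠ T) := by
      by_cases hT : clu η v = T
      · left
        rintro f ⟨y, hy, hc⟩
        rw [Finset.mem_inter, hm₁]
        have hyT : y ∈ T := by rw [← hT]; exact hc
        exact ⟨fun h => ⟨h, hη h, y, hy, hyT⟩, fun h => h.1⟩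
      · by_cases hT' : clu (η ∩ F₁) v = T
        · left
          apply LocH.symm
          rintro f ⟨y, hy, hc⟩
          rw [Finset.mem_inter, hm₁]
          have hyT : y ∈ T := by rw [← hT']; exact hc
          exact ⟨fun h => h.1, fun h => ⟨h, hη h, y, hy, hyT⟩⟩
        · exact Or.inr ⟨hT, hT'⟩
    rw [hφ]
    dsimp only
    rcases key with key | ⟨k1, k2⟩
    · have hcl : clu η v = clu (η ∩ F₁) v := by
        ext y
        exact key.con y
      by_cases hT : clu η v = T
      · rw [if_pos hT, if_pos (hcl.symm.trans hT), key.wA]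
      · rw [if_neg hT, if_neg (fun h => hT (hcl.trans h))]
    · rw [if_neg k1, if_neg k2]
  have h2 : ∀ η ⊆ F, ψ η = ψ (η ∩ F₂) := by
    intro η hη
    rw [hψ]
    dsimp only
    rw [← monA_rst η, ← monA_rst (η ∩ F₂)]
    have : rst η T = rst (η ∩ F₂) T := by
      ext e
      rw [mem_rst, mem_rst, Finset.mem_inter, hm₂]
      exact ⟨fun h => ⟨⟨h.1, hη h.1, h.2⟩, h.2⟩, fun h => ⟨h.1.1, h.2⟩⟩
    rw [this]
  have hGA : GA F p T b x = Ex F₂ p ψ := by
    unfold GA
    rw [← Ex_inter (E := F) (F := F₂) (by rw [hF₂]; exact rst_subset _ _) p ψ]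
    refine Ex_congr fun η hη => ?_
    rw [← h2 η hη, hψ]
  have hφE : Ex F p φ = Ex F₁ p φ := by
    rw [← Ex_inter (E := F) (F := F₁) (by rw [hF₁]; exact Finset.filter_subset _ _) p φ]
    exact Ex_congr fun η hη => h1 η hη
  have e1 : Ex F p (fun η => (if clu η v = T then wA η A v u else 0) * monA η T b x) =
      Ex F₁ p φ * Ex F₂ p ψ := by
    rw [← Ex_mul_of_disjoint hdisj, hunion]
    refine Ex_congr fun η hη => ?_
    rw [← h1 η hη, ← h2 η hη, hφ, hψ]
  have e2 : Ex F p (fun η => (if clu η v = T then wA η A v u else 0) * GA F p T b x) =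
      Ex F₁ p φ * Ex F₂ p ψ := by
    rw [Ex_mul_right, ← hφE, hGA, hφ]
  rw [e1, e2]

theorem one_all (F : Finset (Sym2 V)) (p : ℝ) (A : Set V) (v u b x : V) :
    Ex F p (fun η => wA η A v u * monA η (clu η v) b x) =
      Ex F p (fun η => wA η A v u * GA F p (clu η v) b x) := by
  classical
  have h1 : ∀ g : Finset (Sym2 V) → Set V → ℝ[X],
      Ex F p (fun η => wA η A v u * g η (clu η v)) =
        ∑ T ∈ F.powerset.image (fun η => clu η v),
          Ex F p (fun η => (if clu η v = T then wA η A v u else 0) * g η T) := by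
    intro g
    rw [← Ex_sum]
    refine Ex_congr fun η hη => ?_
    rw [Finset.sum_eq_single (clu η v)]
    · rw [if_pos rfl]
    · intro T _ hT
      rw [if_neg (fun h => hT h.symm), zero_mul]
    · intro h
      exact absurd (Finset.mem_image_of_mem _ (Finset.mem_powerset.2 hη)) h
  rw [h1 (fun η T => monA η T b x), h1 (fun _ T => GA F p T b x)]
  exact Finset.sum_congr rfl fun T _ => one_fixed F p A T v u b x

theorem hOne (hWE : StWE) (_hLoc : StLoc) : StOne := by
  classical
  intro V _ E p A v x u b hE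
  obtain ⟨F, hF⟩ : ∃ F, F = E.erase s(u, b) := ⟨_, rfl⟩
  have heF : s(u, b) ∉ F := by rw [hF]; exact Finset.notMem_erase _ _
  have hEF : E = insert s(u, b) F := by rw [hF, Finset.insert_erase hE]
  have hcl : ∀ η ⊆ F, cl η u b v = clu η v := by
    intro η hη
    unfold cl clu
    rw [Finset.erase_eq_of_notMem (fun h => heF (hη h))]
  have her : ∀ η ⊆ F, (insert s(u, b) η).erase s(u, b) = η := by
    intro η hη
    rw [Finset.erase_insert (fun h => heF (hη h))]
  have hcl' : ∀ η ⊆ F, cl (insert s(u, b) η) u b v = clu η v := by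
    intro η hη
    unfold cl clu
    rw [her η hη]
  have hw : ∀ η ⊆ F, b ∉ clu η v → wA (insert s(u, b) η) A v u = wA η A v u := by
    intro η hη hb
    by_cases hu : con η v u
    · have h1 := hWE V (insert s(u, b) η) A v u b u
      rw [her η hη] at h1
      exact h1 (fun h => hb h.2) hu
    · rw [wA_eq_zero hu, wA_eq_zero]
      intro h
      apply hu
      have h2 := con_erase_of (ω := insert s(u, b) η) (v := v) (u := u) (b := b)
      rw [her η hη] at h2
      exact h2 hb h
  have htch : ∀ η : Finset (Sym2 V), con η v u → ∃ y ∈ s(u, b), y ∈ clu η v :=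
    fun η hu => ⟨u, Sym2.mem_mk_left u b, hu⟩
  -- left side
  have hL : Ex E p (fun ω => if s(u, b) ∈ ω then wA ω A v u * monA ω (cl ω u b v) b x else 0) =
      p • Ex F p (fun η => wA η A v u * monA η (clu η v) b x) := by
    rw [hEF, sum_insert_wt heF]
    have h1 : Ex F p (fun ω => if s(u, b) ∈ ω then wA ω A v u * monA ω (cl ω u b v) b x else 0) =
        0 := by
      refine (Ex_congr (g := fun _ => 0) fun η hη => if_neg (fun h => heF (hη h))).trans ?_
      exact Ex_zero F p
    rw [h1, smul_zero, zero_add]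
    congr 1
    refine Ex_congr fun η hη => ?_
    rw [if_pos (Finset.mem_insert_self _ _), hcl' η hη]
    by_cases hb : b ∈ clu η v
    · rw [monA_of_mem hb, monA_of_mem hb, mul_zero, mul_zero]
    · rw [hw η hη hb]
      by_cases hu : con η v u
      · rw [monA_insert_of_touch (htch η hu)]
      · rw [wA_eq_zero hu, zero_mul, zero_mul]
  -- right side
  have hR0 : ∀ η ⊆ F, wA η A v u * GA E p (clu η v) b x = wA η A v u * GA F p (clu η v) b x := by
    intro η hη
    by_cases hu : con η v u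
    · rw [hEF, GA_insert_of_touch heF (htch η hu)]
    · rw [wA_eq_zero hu, zero_mul, zero_mul]
  have hR1 : ∀ η ⊆ F, wA (insert s(u, b) η) A v u * GA E p (clu η v) b x =
      wA η A v u * GA F p (clu η v) b x := by
    intro η hη
    by_cases hb : b ∈ clu η v
    · rw [GA_eq_zero_of_mem hb, GA_eq_zero_of_mem hb, mul_zero, mul_zero]
    · rw [hw η hη hb, hR0 η hη]
  have hR : Ex E p (fun ω => wA ω A v u * GA E p (cl ω u b v) b x) =
      Ex F p (fun η => wA η A v u * GA F p (clu η v) b x) := by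
    conv_lhs => rw [hEF]
    rw [sum_insert_wt heF, ← hEF]
    have h1 : Ex F p (fun ω => wA ω A v u * GA E p (cl ω u b v) b x) =
        Ex F p (fun η => wA η A v u * GA F p (clu η v) b x) :=
      Ex_congr fun η hη => by rw [hcl η hη, hR0 η hη]
    have h2 : Ex F p (fun ω => wA (insert s(u, b) ω) A v u *
        GA E p (cl (insert s(u, b) ω) u b v) b x) =
        Ex F p (fun η => wA η A v u * GA F p (clu η v) b x) :=
      Ex_congr fun η hη => by rw [hcl' η hη, hR1 η hη]
    rw [h1, h2, ← add_smul, sub_add_cancel, one_smul]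
  rw [hL, hR, one_all]

end Pool.LE
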