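import Pool.Agent.Helper84.LE.Defs

/-! Statements, part 1: finite graphs (plan sections 1-3). -/

set_option autoImplicit false
open scoped BigOperators Polynomial
open Polynomial

namespace Pool.LE

/-- increasing event -/
def Inc {V : Type} (A : Finset (Sym2 V) → Prop) : Prop := ∀ ω η : Finset (Sym2 V), ω ⊆ η → A ω → A η

/-- plan 1.2 -/
def StBK : Prop := ∀ (V : Type) [DecidableEq V] (E : Finset (Sym2 V)) (p : ℝ), 0 ≤ p → p ≤ 1 / 2 →
  ∀ A B : Finset (Sym2 V) → Prop, Inc A → Inc B →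
    Pr E p (fun ω => ∃ η ⊆ ω, A η ∧ B (ω \ η)) ≤ Pr E p A * Pr E p B

/-- plan 1.3 -/
def StMenger : Prop := ∀ (V : Type) [DecidableEq V] (ω : Finset (Sym2 V)) (t u : V), dbl ω t u →
  ∃ P Q : (gr ω).Walk t u, P.IsPath ∧ Q.IsPath ∧ ∀ e ∈ P.edges, e ∉ Q.edges

/-! ### The expansion -/

/-- (SD) an edge which is not inside the cluster of `v` is irrelevant for `v` -/
def StSD : Prop := ∀ (V : Type) [DecidableEq V] (ω : Finset (Sym2 V)) (v a b y : V),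
  ¬ (con (ω.erase s(a, b)) v a ∧ con (ω.erase s(a, b)) v b) → con (ω.erase s(a, b)) v y →
    mon ω v y = mon (ω.erase s(a, b)) v y ∧
    (∀ A : Set V, monA ω A v y = monA (ω.erase s(a, b)) A v y) ∧
    (dbl ω v y ↔ dbl (ω.erase s(a, b)) v y)

/-- (BR) factorisation over a pivotal edge -/
def StBR : Prop := ∀ (V : Type) [DecidableEq V] (ω : Finset (Sym2 V)) (v x a b : V),
  piv ω v x a b → mon ω v x = mon ω v a * X * mon ω b x ∧
    ∀ A : Set V, monA ω A v x = monA ω A v a * X * monA ω A b x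

/-- the last pivotal edge: existence -/
def StLastE : Prop := ∀ (V : Type) [DecidableEq V] (ω : Finset (Sym2 V)) (v x : V),
  con ω v x → ¬ dbl ω v x → ∃ c b : V, piv ω v x c b ∧ dbl ω b x

/-- the last pivotal edge: uniqueness -/
def StLastU : Prop := ∀ (V : Type) [DecidableEq V] (ω : Finset (Sym2 V)) (v x : V),
  (∀ c b, dbl ω v x → ¬ piv ω v x c b) ∧
  ∀ c b c' b' : V, piv ω v x c b → dbl ω b x → piv ω v x c' b' → dbl ω b' x → c = c' ∧ b = b'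

/-- pivotal edges before the last one -/
def StPivT : Prop := ∀ (V : Type) [DecidableEq V] (ω : Finset (Sym2 V)) (v x c b u a : V),
  piv ω v x c b → dbl ω b x → (u, a) ≠ (c, b) →
    (piv ω v x u a ↔ piv (ω.erase s(c, b)) v c u a) ∧
    (piv ω v x u a → ¬ con (ω.erase s(u, a)) v c ∧ con (ω.erase s(u, a)) a c ∧
      s(c, b) ∈ ω.erase s(u, a) ∧ cl (ω.erase s(c, b)) u a v = cl ω u a v)

/-- `wA` and dangling edges -/
def StWE : Prop := ∀ (V : Type) [DecidableEq V] (ω : Finset (Sym2 V)) (A : Set V) (v a b y : V),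
  ¬ (con (ω.erase s(a, b)) v a ∧ con (ω.erase s(a, b)) v b) → con (ω.erase s(a, b)) v y →
    wA ω A v y = wA (ω.erase s(a, b)) A v y

/-- plan 2.1, the pathwise identity -/
def StPI : Prop := ∀ (V : Type) [DecidableEq V] (ω : Finset (Sym2 V)) (A : Set V) (v x : V),
  mon ω v x - monA ω A v x = wA ω A v x +
    ∑ ub ∈ drt ω, X * wA ω A v ub.1 * monA ω (cl ω ub.1 ub.2 v) ub.2 x

/-- plan 2.2, locality -/
def StLoc : Prop := ∀ (V : Type) [DecidableEq V] (ω η : Finset (Sym2 V)) (v : V),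
  (∀ e : Sym2 V, (∃ y ∈ e, con ω v y) → (e ∈ ω ↔ e ∈ η)) →
    ∀ (A : Set V) (u : V), mon ω v u = mon η v u ∧ monA ω A v u = monA η A v u ∧
      (dbl ω v u ↔ dbl η v u) ∧ (∀ a b, piv ω v u a b ↔ piv η v u a b) ∧ wA ω A v u = wA η A v u

/-- one directed edge in expectation -/
def StOne : Prop := ∀ (V : Type) [DecidableEq V] (E : Finset (Sym2 V)) (p : ℝ) (A : Set V) (v x u b : V),
  s(u, b) ∈ E →
    Ex E p (fun ω => if s(u, b) ∈ ω then wA ω A v u * monA ω (cl ω u b v) b x else 0) =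
      p • Ex E p (fun ω => wA ω A v u * GA E p (cl ω u b v) b x)

/-- plan 2.3 -/
def StStep : Prop := ∀ (V : Type) [DecidableEq V] (E : Finset (Sym2 V)) (p : ℝ) (A : Set V) (v x : V),
  DD E p A v x = WW E p A v x + LL E p (GA E p) A v x

/-- plan 2.4 -/
def StExp : Prop := ∀ (V : Type) [DecidableEq V] (E : Finset (Sym2 V)) (p : ℝ) (M : ℕ) (v x : V),
  GG E p v x = gE E p M v x + ∑ ub ∈ drt E, gE E p M v ub.1 * (C p * X) * GG E p ub.2 x +
    (-1) ^ (M + 1) * ((LL E p)^[M + 1] (DD E p)) {v} v x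

/-- divisibility of the remainder -/
def StDvd : Prop := ∀ (V : Type) [DecidableEq V] (E : Finset (Sym2 V)) (p : ℝ) (M : ℕ)
  (Φ : Set V → V → V → ℝ[X]) (A : Set V) (v x : V), X ^ M ∣ ((LL E p)^[M] Φ) A v x

/-- coefficient form of the expansion -/
def StCoef : Prop := ∀ (V : Type) [DecidableEq V] (E : Finset (Sym2 V)) (p : ℝ) (M n : ℕ) (v x : V),
  n ≤ M → (GG E p v x).coeff n = (gE E p M v x).coeff n +
    ∑ ub ∈ drt E, ∑ j ∈ Finset.range n,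
      (gE E p M v ub.1).coeff j * p * (GG E p ub.2 x).coeff (n - 1 - j)

/-! ### Diagrams -/

/-- `T` dominates the connection probabilities -/
def Dom {V : Type} [DecidableEq V] (E : Finset (Sym2 V)) (p : ℝ) (T : V → V → ENNReal) : Prop :=
  ∀ x y, Pr E p (fun ω => con ω x y) ≤ T x y

/-- plan 3.1, one chain -/
def StTRcm : Prop := ∀ (V : Type) [DecidableEq V] (E : Finset (Sym2 V)) (p : ℝ) (T : V → V → ENNReal),
  0 ≤ p → p ≤ 1 / 2 → Dom E p T → ∀ c : V × List V × V, Pr E p (fun ω => TR ω c) ≤ cm T c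

/-- plan 3.1 -/
def StDRBK : Prop := ∀ (V : Type) [DecidableEq V] (E : Finset (Sym2 V)) (p : ℝ) (T : V → V → ENNReal),
  0 ≤ p → p ≤ 1 / 2 → Dom E p T → ∀ L : List (V × List V × V), Pr E p (DR L) ≤ cmL T L

/-- plan 3.2 -/
def StWIT : Prop := ∀ (V : Type) [DecidableEq V] (ω : Finset (Sym2 V)) (L : List (V × List V × V)),
  DR L ω → ∃ H : Finset V, ∃ η ⊆ ω, (∀ e ∈ η, ∀ v ∈ e, v ∈ H) ∧ (∀ z ∈ pts L, z ∈ H) ∧
    ∀ Z : List V, (∀ z ∈ Z, z ∈ H) → ∃ L' ∈ insL Z L, DR L' η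

/-- plan 3.3 -/
def StATT : Prop := ∀ (V : Type) [DecidableEq V] (ω : Finset (Sym2 V)) (L : List (V × List V × V))
  (h y : V), DR L ω → h ∈ pts L → con ω h y → ∃ z : V, ∃ L' ∈ ins z L, DR ((z, [], y) :: L') ω

/-- plan 3.3 -/
def StEAR : Prop := ∀ (V : Type) [DecidableEq V] (ω : Finset (Sym2 V)) (L : List (V × List V × V))
  (h₁ h₂ y : V), DR L ω → h₁ ∈ pts L → h₂ ∈ pts L → Yp ω h₁ h₂ y →
    ∃ z₁ z₂ : V, ∃ L₁ ∈ ins z₁ L, ∃ L₂ ∈ ins z₂ L₁, DR ((z₁, [y], z₂) :: L₂) ω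

/-- plan 3.4 for `t = v`, from two edge-disjoint paths -/
def StBase0 : Prop := ∀ (V : Type) [DecidableEq V] (ω : Finset (Sym2 V)) (t u s : V),
  dbl ω t u → (∃ q : (gr ω).Walk t u, q.IsPath ∧ s ∈ q.support) →
    ∃ w' : V, DR [(t, [t, w'], s), (t, [u], w')] ω

/-- plan 3.4 -/
def StBase : Prop := ∀ (V : Type) [DecidableEq V] (ω : Finset (Sym2 V)) (v u t s : V),
  Bt ω v u t s → ∃ w' : V, DR [(v, [t, w'], s), (t, [u], w')] ω

open Classical in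
/-- plan 3.5 -/
def StNw : Prop := ∀ (V : Type) [DecidableEq V] (ω : Finset (Sym2 V)) (A : Set V) (v u : V),
  NN (wA ω A v u) ≤ 2 * ∑' t : V, ∑' s : V, ∑' y : V,
    if s ∈ A ∧ Bt ω v u t s ∧ Yp ω v u y then 1 else 0

open Classical in
/-- plan 3.6 -/
def StLev : Prop := ∀ (V : Type) [DecidableEq V] (E : Finset (Sym2 V)) (p : ℝ) (T : V → V → ENNReal),
  0 ≤ p → p ≤ 1 / 2 → Dom E p T → ∀ (A : Set V) (v u s' : V),
    ExE E p (fun ω => NN (wA ω A v u) * if con ω v s' then 1 else 0) ≤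
      2 * ∑' s : V, if s ∈ A then ∑' w : V, core T v s u w * T w s' else 0

open Classical in
/-- plan 3.7 -/
def StPsi : Prop := ∀ (V : Type) [DecidableEq V] (E : Finset (Sym2 V)) (p : ℝ) (T : V → V → ENNReal)
  (nbf : V → Finset V), 0 ≤ p → p ≤ 1 / 2 → Dom E p T → (∀ u b, s(u, b) ∈ E → b ∈ nbf u) →
    ∀ (N : ℕ) (A : Set V) (v x : V), NN (((LL E p)^[N] (WW E p)) A v x) ≤
      ∑' s : V, if s ∈ A then Psi nbf (ENNReal.ofReal p) T N s v x else 0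

/-- the setting of the weighted kernels: `q` submultiplicative weight, `K ≥ q T` -/
structure WK {V : Type} [DecidableEq V] (T K q : V → V → ENNReal) (B : ENNReal) : Prop where
  one_le_q : ∀ x y, 1 ≤ q x y
  q_mul : ∀ x y z, q x z ≤ q x y * q y z
  le_K : ∀ x y, q x y * T x y ≤ K x y
  one_le_T : ∀ x, 1 ≤ T x x
  K_symm : ∀ x y, K x y = K y x
  le_B : ∀ x y, kp K 32 x y ≤ B

/-- plan 3.9 -/
def StMass : Prop := ∀ (V : Type) [DecidableEq V] (T K q : V → V → ENNReal) (B : ENNReal),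
  WK T K q B → ∀ v s : V, ∑' u : V, ∑' w : V, q v u * core T v s u w ≤ 540 * B ^ 2 * kp K 24 v s

/-- plan 3.10 -/
def StRec : Prop := ∀ (V : Type) [DecidableEq V] (T K q : V → V → ENNReal) (B eps q₀ : ENNReal)
  (nbf : V → Finset V), WK T K q B → (∀ u, ∀ b ∈ nbf u, q u b ≤ 4) →
  (∀ x y, ∑ b ∈ nbf x, q₀ * kp K 32 b y ≤ eps) →
    ∀ (N : ℕ) (v : V), ∑' x : V, q v x * Psi nbf q₀ T (N + 1) v v x ≤
      10 ^ 7 * B ^ 6 * eps * (10 ^ 4 * B ^ 2 * eps) ^ N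

/-- plan 3.11 -/
def StN0a : Prop := ∀ (V : Type) [DecidableEq V] (E : Finset (Sym2 V)) (p : ℝ) (v : V),
  WW E p {v} v v = 1

/-- plan 3.11 -/
def StN0b : Prop := ∀ (V : Type) [DecidableEq V] (E : Finset (Sym2 V)) (p : ℝ) (T : V → V → ENNReal)
  (nbf : V → Finset V), 0 ≤ p → p ≤ 1 / 2 → Dom E p T → (∀ u b, s(u, b) ∈ E → b ∈ nbf u) →
    ∀ v x : V, x ≠ v → NN (WW E p {v} v x) ≤
      ∑' y : V, T v y * T y x * ∑ b ∈ nbf v, ENNReal.ofReal p * T b x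

/-- plan 3.12 -/
def StDiag : Prop := ∀ (V : Type) [DecidableEq V] (E : Finset (Sym2 V)) (p : ℝ)
  (T K q : V → V → ENNReal) (B eps : ENNReal) (nbf : V → Finset V), 0 ≤ p → p ≤ 1 / 2 → Dom E p T →
  (∀ u b, s(u, b) ∈ E → b ∈ nbf u) → WK T K q B → (∀ u, ∀ b ∈ nbf u, q u b ≤ 4) →
  (∀ x y, ∑ b ∈ nbf x, ENNReal.ofReal p * kp K 32 b y ≤ eps) → 10 ^ 4 * B ^ 2 * eps ≤ 1 / 2 →
    ∀ (M : ℕ) (v : V), ∑' x : V, q v x * NN (gE E p M v x - if x = v then 1 else 0) ≤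
      3 * 10 ^ 7 * B ^ 6 * eps

end Pool.LE
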