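import Pool.Agent.Helper84.LE.BGR
import Pool.Agent.Helper84.LE.St1

/-! Module PI: the pathwise identity of the expansion (plan 2.1). -/

set_option autoImplicit false
open scoped BigOperators Polynomial
open Polynomial

namespace Pool.LE

namespace PIaux

variable {V : Type} [DecidableEq V]

/-- a nonzero weight needs a connection -/
theorem con_of_wA {ω : Finset (Sym2 V)} {A : Set V} {v u : V} (h : wA ω A v u ≠ 0) :
    con ω v u := by
  classical
  by_contra hc
  apply h
  unfold wA
  rw [if_neg (fun hd : dbl ω v u => hc hd.1), zero_add]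
  apply Finset.sum_eq_zero
  intro cb _
  rw [if_neg]
  rintro ⟨hp, -⟩
  exact hc (piv_con hp)

/-- removing one edge -/
theorem con_erase_or {ω : Finset (Sym2 V)} {v u b y : V} (h : con ω v y) :
    con (ω.erase s(u, b)) v y ∨ con (ω.erase s(u, b)) v u ∨ con (ω.erase s(u, b)) v b := by
  obtain ⟨q⟩ := h
  have key : ∀ (s t : V) (r : (gr ω).Walk s t),
      (con (ω.erase s(u, b)) v s ∨ con (ω.erase s(u, b)) v u ∨ con (ω.erase s(u, b)) v b) →
      (con (ω.erase s(u, b)) v t ∨ con (ω.erase s(u, b)) v u ∨ con (ω.erase s(u, b)) v b) := by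
    intro s t r
    induction r with
    | nil => exact id
    | cons hadj r ih =>
      rename_i s1 s2 s3
      intro hs
      apply ih
      rcases hs with hs | hs
      · by_cases he : s(s1, s2) = s(u, b)
        · right
          rw [Sym2.eq_iff] at he
          rcases he with ⟨rfl, -⟩ | ⟨rfl, -⟩
          · left; exact hs
          · right; exact hs
        · left
          exact con_trans hs (con_of_mem (Finset.mem_erase.2 ⟨he, (gr_adj.1 hadj).1⟩))
      · right; exact hs
  exact key v y q (Or.inl (con_refl _ v))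

/-- a nonzero summand needs a pivotal edge -/
theorem piv_of_ne {ω : Finset (Sym2 V)} {A : Set V} {v x u b : V} (hm : s(u, b) ∈ ω)
    (h1 : wA ω A v u ≠ 0) (h2 : monA ω (cl ω u b v) b x ≠ 0) : piv ω v x u b := by
  obtain ⟨hb, hx, hc⟩ := con_rst_of_monA_ne_zero h2
  have hb' : ¬ con (ω.erase s(u, b)) v b := hb
  have hu : con (ω.erase s(u, b)) v u := by
    rcases con_erase_or (u := u) (b := b) (con_of_wA h1) with h | h | h
    · exact h
    · exact h
    · exact absurd h hb'
  refine ⟨hm, hu, ?_, hx⟩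
  refine con_mono ?_ hc
  intro e he
  rw [mem_rst] at he
  rw [Finset.mem_erase]
  refine ⟨?_, he.1⟩
  rintro rfl
  exact he.2 u (Sym2.mem_mk_left u b) hu

/-- a connection all of whose vertices avoid `S` -/
theorem con_rst_of_avoid {ω : Finset (Sym2 V)} {S : Set V} {b x : V}
    (h : ∀ y, con ω b y → y ∉ S) (hc : con ω b x) : con (rst ω S) b x := by
  refine (con_iff_of_cluster ?_ x).1 hc
  rintro e ⟨y, hy, hby⟩
  rw [mem_rst]
  refine ⟨fun he => ⟨he, ?_⟩, fun he => he.1⟩
  intro z hz
  apply h
  refine con_trans hby ?_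
  induction e using Sym2.ind with
  | _ p q =>
    rw [Sym2.mem_iff] at hy hz
    rcases hy with rfl | rfl <;> rcases hz with rfl | rfl
    · exact con_refl _ _
    · exact con_of_mem he
    · exact con_symm (con_of_mem he)
    · exact con_refl _ _

/-- the distance does not change when nothing of the cluster is removed -/
theorem mon_rst_of_avoid {ω : Finset (Sym2 V)} {S : Set V} {b x : V}
    (h : ∀ y, con ω b y → y ∉ S) : mon (rst ω S) b x = mon ω b x := by
  by_cases hc : con ω b x
  · have hc' : con (rst ω S) b x := con_rst_of_avoid h hc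
    rw [mon_of_con hc, mon_of_con hc']
    congr 1
    apply le_antisymm
    · obtain ⟨q, -, hq⟩ := exists_path_dist hc
      have hq' : ∀ e ∈ q.edges, e ∈ rst ω S := by
        intro e he
        rw [mem_rst]
        refine ⟨mem_edges_gr q he, ?_⟩
        intro z hz
        apply h
        have hzs : z ∈ q.support := by
          induction e using Sym2.ind with
          | _ p r =>
            rw [Sym2.mem_iff] at hz
            rcases hz with rfl | rfl
            · exact q.fst_mem_support_of_mem_edges he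
            · exact q.snd_mem_support_of_mem_edges he
        exact ⟨q.takeUntil z hzs⟩
      obtain ⟨q', -, -, hl⟩ := exists_walk_of_edges q hq'
      rw [← hq, ← hl]
      exact SimpleGraph.dist_le q'
    · exact dist_mono (rst_subset ω S) hc'
  · rw [mon_eq_zero hc, mon_eq_zero]
    intro hc'
    exact hc (con_mono (rst_subset ω S) hc')

end PIaux

open PIaux

theorem hPI (hSD : StSD) (hBR : StBR) (hLE : StLastE) (hLU : StLastU) (hPT : StPivT)
    (hWE : StWE) : StPI := by
  classical
  intro V _ ω A v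
  -- strong induction on the number of edges
  induction hn : ω.card using Nat.strong_induction_on generalizing ω with
  | _ n ih =>
  intro x
  by_cases hcon : con ω v x
  swap
  · -- not connected: everything vanishes
    have h1 : mon ω v x = 0 := mon_eq_zero hcon
    have h2 : monA ω A v x = 0 := by
      by_contra h
      exact hcon (con_mono (rst_subset _ _) (con_rst_of_monA_ne_zero h).2.2)
    have h3 : wA ω A v x = 0 := by
      by_contra h
      exact hcon (con_of_wA h)
    rw [h1, h2, h3, sub_zero, zero_add]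
    symm
    apply Finset.sum_eq_zero
    rintro ⟨u, b⟩ hub
    by_contra h
    have h4 : wA ω A v u ≠ 0 := fun h0 => h (by simp only [h0, mul_zero, zero_mul])
    have h5 : monA ω (cl ω u b v) b x ≠ 0 := fun h0 => h (by simp only [h0, mul_zero])
    exact hcon (piv_con (piv_of_ne (mem_drt.1 hub) h4 h5))
  by_cases hdbl : dbl ω v x
  · -- no pivotal edge
    have hnp : ∀ c b, ¬ piv ω v x c b := fun c b => (hLU V ω v x).1 c b hdbl
    have h3 : wA ω A v x = mon ω v x - monA ω A v x := by
      unfold wA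
      rw [if_pos hdbl]
      rw [Finset.sum_eq_zero, add_zero]
      intro cb _
      rw [if_neg]
      rintro ⟨hp, -⟩
      exact hnp _ _ hp
    rw [h3]
    symm
    rw [add_eq_left]
    apply Finset.sum_eq_zero
    rintro ⟨u, b⟩ hub
    by_contra h
    have h4 : wA ω A v u ≠ 0 := fun h0 => h (by simp only [h0, mul_zero, zero_mul])
    have h5 : monA ω (cl ω u b v) b x ≠ 0 := fun h0 => h (by simp only [h0, mul_zero])
    exact hnp u b (piv_of_ne (mem_drt.1 hub) h4 h5)
  -- the last pivotal edge
  obtain ⟨c0, b0, hp0, hd0⟩ := hLE V ω v x hcon hdbl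
  obtain ⟨hm0, hvc0, hb0x, hnvx⟩ := hp0
  have hp0 : piv ω v x c0 b0 := ⟨hm0, hvc0, hb0x, hnvx⟩
  have hnvb0 : ¬ con (ω.erase s(c0, b0)) v b0 := fun h => hnvx (con_trans h hb0x)
  have hnb0c0 : ¬ con (ω.erase s(c0, b0)) b0 c0 := fun h =>
    hnvb0 (con_trans hvc0 (con_symm h))
  have hwx : wA ω A v x = X * monA ω A v c0 * (mon ω b0 x - monA ω A b0 x) := by
    unfold wA
    rw [if_neg hdbl, zero_add]
    rw [Finset.sum_eq_single (c0, b0)]
    · rw [if_pos ⟨hp0, hd0⟩]
    · rintro ⟨c, b⟩ _ hne
      rw [if_neg]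
      rintro ⟨h1, h2⟩
      obtain ⟨h3, h4⟩ := (hLU V ω v x).2 c b c0 b0 h1 h2 hp0 hd0
      exact hne (by rw [h3, h4])
    · intro h
      exact absurd (mem_drt.2 hm0) h
  have hbr := hBR V ω v x c0 b0 hp0
  have hsd := hSD V ω v c0 b0 c0 (fun h => hnvb0 h.2) hvc0
  have hIH := ih (ω.erase s(c0, b0)).card
    (by rw [← hn]; exact Finset.card_erase_lt_of_mem hm0) (ω.erase s(c0, b0)) rfl c0
  -- the first summand
  have hb0side : mon ω b0 x = mon (ω.erase s(c0, b0)) b0 x :=
    (hSD V ω b0 c0 b0 x (fun h => hnb0c0 h.1) hb0x).1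
  have hfirst : monA ω (cl ω c0 b0 v) b0 x = mon ω b0 x := by
    have hb0S : b0 ∉ cl ω c0 b0 v := hnvb0
    rw [monA_of_not_mem hb0S, hb0side]
    have e1 : rst ω (cl ω c0 b0 v) = rst (ω.erase s(c0, b0)) (cl ω c0 b0 v) := by
      rw [rst_erase, Finset.erase_eq_of_notMem]
      intro h
      exact (mem_rst.1 h).2 c0 (Sym2.mem_mk_left c0 b0) hvc0
    rw [e1]
    apply mon_rst_of_avoid
    intro y hy hyS
    exact hnvb0 (con_trans (hyS : con (ω.erase s(c0, b0)) v y) (con_symm hy))
  have hwc0 : wA ω A v c0 = wA (ω.erase s(c0, b0)) A v c0 :=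
    hWE V ω A v c0 b0 c0 (fun h => hnvb0 h.2) hvc0
  -- the other summands
  have hterm : ∀ ub ∈ drt (ω.erase s(c0, b0)),
      X * wA ω A v ub.1 * monA ω (cl ω ub.1 ub.2 v) ub.2 x =
        X * (X * wA (ω.erase s(c0, b0)) A v ub.1 *
          monA (ω.erase s(c0, b0)) (cl (ω.erase s(c0, b0)) ub.1 ub.2 v) ub.2 c0) * mon ω b0 x := by
    rintro ⟨u, b⟩ hub
    have hub' := mem_drt.1 hub
    have hubω : s(u, b) ∈ ω := Finset.mem_of_mem_erase hub'
    have hne : (u, b) ≠ (c0, b0) := by
      intro h
      rw [Prod.mk.injEq] at h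
      rw [h.1, h.2] at hub'
      exact Finset.notMem_erase _ _ hub'
    obtain ⟨hiff, himp⟩ := hPT V ω v x c0 b0 u b hp0 hd0 hne
    show X * wA ω A v u * monA ω (cl ω u b v) b x =
        X * (X * wA (ω.erase s(c0, b0)) A v u *
          monA (ω.erase s(c0, b0)) (cl (ω.erase s(c0, b0)) u b v) b c0) * mon ω b0 x
    by_cases hpu : piv ω v x u b
    · have hpu' := hiff.1 hpu
      obtain ⟨hnvc0, hbc0, hmem0, hcl⟩ := himp hpu
      obtain ⟨-, hvu, hbx, hnvx'⟩ := hpu
      obtain ⟨-, hvu', hbc0', -⟩ := hpu'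
      have hvu2 : con (ω.erase s(c0, b0)) v u := con_mono (Finset.erase_subset _ _) hvu'
      have hbc2 : con (ω.erase s(c0, b0)) b c0 := con_mono (Finset.erase_subset _ _) hbc0'
      have hwu : wA ω A v u = wA (ω.erase s(c0, b0)) A v u :=
        hWE V ω A v c0 b0 u (fun h => hnvb0 h.2) hvu2
      have hbS : b ∉ cl ω u b v := fun h : con (ω.erase s(u, b)) v b =>
        hnvx' (con_trans h hbx)
      have hc0S : c0 ∉ cl ω u b v := hnvc0
      have hb0S : b0 ∉ cl ω u b v := fun h : con (ω.erase s(u, b)) v b0 =>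
        hnvc0 (con_trans h (con_symm (con_of_mem hmem0)))
      rw [hcl, ← hwu]
      -- restrict to the complement of the cluster
      have hmr : s(c0, b0) ∈ rst ω (cl ω u b v) := by
        rw [mem_rst]
        refine ⟨hm0, ?_⟩
        intro y hy
        rw [Sym2.mem_iff] at hy
        rcases hy with rfl | rfl
        · exact hc0S
        · exact hb0S
      have e2 : (rst ω (cl ω u b v)).erase s(c0, b0) = rst (ω.erase s(c0, b0)) (cl ω u b v) :=
        (rst_erase _ _ _).symm
      have hav1 : ∀ y, con ((ω.erase s(c0, b0)).erase s(u, b)) b y → y ∉ cl ω u b v := by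
        intro y hy (hyS : con (ω.erase s(u, b)) v y)
        have : con (ω.erase s(u, b)) b y :=
          con_mono (Finset.erase_subset_erase _ (Finset.erase_subset _ _)) hy
        exact hbS (con_trans hyS (con_symm this))
      have hr1 : con ((rst ω (cl ω u b v)).erase s(c0, b0)) b c0 := by
        rw [e2]
        have h1 := con_rst_of_avoid hav1 hbc0'
        refine con_mono ?_ h1
        rw [rst_erase]
        exact Finset.erase_subset _ _
      have hav2 : ∀ y, con (ω.erase s(c0, b0)) b0 y → y ∉ cl ω u b v := by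
        intro y hy hyS
        rw [← hcl] at hyS
        have h1 : con ((ω.erase s(c0, b0)).erase s(u, b)) v y := hyS
        have h2 : con (ω.erase s(c0, b0)) v y := con_mono (Finset.erase_subset _ _) h1
        exact hnvb0 (con_trans h2 (con_symm hy))
      have hr2 : con ((rst ω (cl ω u b v)).erase s(c0, b0)) b0 x := by
        rw [e2]
        exact con_rst_of_avoid hav2 hb0x
      have hnb : ¬ con (ω.erase s(c0, b0)) b b0 := by
        intro h
        exact hnb0c0 (con_trans (con_symm h) hbc2)
      have hr3 : ¬ con ((rst ω (cl ω u b v)).erase s(c0, b0)) b b0 := by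
        intro h
        rw [e2] at h
        exact hnb (con_mono (rst_subset _ _) h)
      have hpr : piv (rst ω (cl ω u b v)) b x c0 b0 :=
        ⟨hmr, hr1, hr2, fun h => hr3 (con_trans h (con_symm hr2))⟩
      have hbr2 := (hBR V (rst ω (cl ω u b v)) b x c0 b0 hpr).1
      have hs1 := (hSD V (rst ω (cl ω u b v)) b c0 b0 c0 (fun h => hr3 h.2) hr1).1
      have hs2 := (hSD V (rst ω (cl ω u b v)) b0 c0 b0 x
        (fun h => hr3 (con_trans hr1 (con_symm h.1))) hr2).1
      have hs3 : mon (rst (ω.erase s(c0, b0)) (cl ω u b v)) b0 x = mon (ω.erase s(c0, b0)) b0 x :=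
        mon_rst_of_avoid hav2
      rw [e2] at hs1 hs2
      rw [monA_of_not_mem hbS, monA_of_not_mem hbS, hbr2, hs1, hs2, hs3, ← hb0side]
      ring
    · have hl : X * wA ω A v u * monA ω (cl ω u b v) b x = 0 := by
        by_contra h
        have h4 : wA ω A v u ≠ 0 := fun h0 => h (by simp only [h0, mul_zero, zero_mul])
        have h5 : monA ω (cl ω u b v) b x ≠ 0 := fun h0 => h (by simp only [h0, mul_zero])
        exact hpu (piv_of_ne hubω h4 h5)
      have hr : X * wA (ω.erase s(c0, b0)) A v u *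
          monA (ω.erase s(c0, b0)) (cl (ω.erase s(c0, b0)) u b v) b c0 = 0 := by
        by_contra h
        have h4 : wA (ω.erase s(c0, b0)) A v u ≠ 0 :=
          fun h0 => h (by simp only [h0, mul_zero, zero_mul])
        have h5 : monA (ω.erase s(c0, b0)) (cl (ω.erase s(c0, b0)) u b v) b c0 ≠ 0 :=
          fun h0 => h (by simp only [h0, mul_zero])
        exact hpu (hiff.2 (piv_of_ne hub' h4 h5))
      rw [hl, hr, mul_zero, zero_mul]
  -- split the sum
  have hsum : ∑ ub ∈ drt ω, X * wA ω A v ub.1 * monA ω (cl ω ub.1 ub.2 v) ub.2 x =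
      X * wA ω A v c0 * mon ω b0 x +
        ∑ ub ∈ drt (ω.erase s(c0, b0)),
          X * wA ω A v ub.1 * monA ω (cl ω ub.1 ub.2 v) ub.2 x := by
    rw [← Finset.add_sum_erase (drt ω) _ (mem_drt.2 hm0)]
    show X * wA ω A v c0 * monA ω (cl ω c0 b0 v) b0 x + _ = _
    rw [hfirst]
    congr 1
    symm
    apply Finset.sum_subset
    · rintro ⟨u, b⟩ hub
      have hub' := mem_drt.1 hub
      rw [Finset.mem_erase]
      refine ⟨?_, mem_drt.2 (Finset.mem_of_mem_erase hub')⟩
      intro h
      rw [Prod.mk.injEq] at h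
      rw [h.1, h.2] at hub'
      exact Finset.notMem_erase _ _ hub'
    · rintro ⟨u, b⟩ hub hnot
      rw [Finset.mem_erase] at hub
      have hubω : s(u, b) ∈ ω := mem_drt.1 hub.2
      have heq : s(u, b) = s(c0, b0) := by
        by_contra h
        exact hnot (mem_drt.2 (Finset.mem_erase.2 ⟨h, hubω⟩))
      rw [Sym2.eq_iff] at heq
      rcases heq with ⟨h1, h2⟩ | ⟨h1, h2⟩
      · exact absurd (by rw [h1, h2]) hub.1
      · by_contra h
        have h4 : wA ω A v u ≠ 0 := fun h0 => h (by simp only [h0, mul_zero, zero_mul])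
        have h5 : monA ω (cl ω u b v) b x ≠ 0 := fun h0 => h (by simp only [h0, mul_zero])
        obtain ⟨-, h6, -, -⟩ := piv_of_ne hubω h4 h5
        rw [h1, h2, Sym2.eq_swap] at h6
        exact hnvb0 h6
  rw [hsum, Finset.sum_congr rfl hterm, ← Finset.sum_mul, ← Finset.mul_sum, hwx, hwc0,
    hbr.1, hbr.2 A, hsd.1, hsd.2.1 A]
  rw [sub_eq_iff_eq_add] at hIH
  rw [hIH]
  ring

end Pool.LE
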