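import Pool.Agent.Helper84.LE.St7

/-! LE module Pc: `pH` is the critical point. -/

set_option autoImplicit false
open scoped BigOperators Topology
open MeasureTheory Filter

namespace Pool.LE

theorem pc_mem_bx_succ {d n : ℕ} {u v : Zd d} (hu : u ∈ bx d n) (i : Fin d)
    (h : v = u + Pi.single i 1 ∨ u = v + Pi.single i 1) : v ∈ bx d (n + 1) := by
  unfold bx at hu ⊢
  rw [Fintype.mem_piFinset] at hu ⊢
  intro j
  have hj := hu j
  rw [Finset.mem_Icc] at hj ⊢
  push_cast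
  rcases h with h | h
  · have h1 : v j = u j + (Pi.single i (1 : ℤ) : Fin d → ℤ) j := by rw [h]; rfl
    by_cases hij : j = i
    · subst hij
      rw [Pi.single_eq_same] at h1
      omega
    · rw [Pi.single_eq_of_ne hij] at h1
      omega
  · have h1 : u j = v j + (Pi.single i (1 : ℤ) : Fin d → ℤ) j := by
      conv_lhs => rw [h]
      rfl
    by_cases hij : j = i
    · subst hij
      rw [Pi.single_eq_same] at h1
      omega
    · rw [Pi.single_eq_of_ne hij] at h1
      omega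

theorem pc_bx_mono {d n m : ℕ} (h : n ≤ m) : bx d n ⊆ bx d m := by
  intro x hx
  unfold bx at hx ⊢
  rw [Fintype.mem_piFinset] at hx ⊢
  intro j
  have hj := hx j
  rw [Finset.mem_Icc] at hj ⊢
  omega

theorem pc_opn_step {d n : ℕ} {p : ℝ} {ω : ((Fin d → ℤ) × Fin d) → unitInterval} {m : ℕ}
    {u v : Zd d} (h : s(u, v) ∈ opn d p m ω) (hu : u ∈ bx d n) :
    s(u, v) ∈ opn d p (n + 1) ω ∧ v ∈ bx d (n + 1) := by
  classical
  unfold opn at h ⊢
  rw [Finset.mem_filter] at h ⊢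
  obtain ⟨-, x, i, he, hω⟩ := h
  have hv : v ∈ bx d (n + 1) := by
    rw [Sym2.eq_iff] at he
    rcases he with ⟨h1, h2⟩ | ⟨h1, h2⟩
    · exact pc_mem_bx_succ hu i (Or.inl (by rw [h2, h1]))
    · exact pc_mem_bx_succ hu i (Or.inr (by rw [h1, h2]))
  have hu' : u ∈ bx d (n + 1) := pc_bx_mono (Nat.le_succ n) hu
  refine ⟨⟨?_, x, i, he, hω⟩, hv⟩
  unfold Eb ES
  rw [Finset.mem_image]
  refine ⟨(x, i), ?_, he.symm⟩
  rw [Finset.mem_filter, Finset.mem_product]
  rw [Sym2.eq_iff] at he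
  rcases he with ⟨h1, h2⟩ | ⟨h1, h2⟩
  · exact ⟨⟨h1 ▸ hu', Finset.mem_univ _⟩, h2 ▸ hv⟩
  · exact ⟨⟨h2 ▸ hv, Finset.mem_univ _⟩, h1 ▸ hu'⟩

theorem pc_zero_mem {d n : ℕ} : (0 : Zd d) ∈ bx d n := by
  unfold bx
  rw [Fintype.mem_piFinset]
  intro j
  rw [Finset.mem_Icc, Pi.zero_apply]
  omega

/-- leaving a box is decided inside the next box -/
theorem pc_out_anti {d n m : ℕ} {p : ℝ} {ω : ((Fin d → ℤ) × Fin d) → unitInterval}
    (hnm : n ≤ m) (h : Out m (opn d p (m + 1) ω)) : Out n (opn d p (n + 1) ω) := by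
  obtain ⟨y, hy, hc⟩ := h
  obtain ⟨w⟩ := hc
  have hy' : y ∉ bx d n := fun h => hy (pc_bx_mono hnm h)
  have key : ∀ (u z : Zd d) (w : (gr (opn d p (m + 1) ω)).Walk u z), u ∈ bx d n → z ∉ bx d n →
      ∃ y' : Zd d, y' ∉ bx d n ∧ con (opn d p (n + 1) ω) u y' := by
    intro u z w
    induction w with
    | nil => intro h1 h2; exact absurd h1 h2
    | @cons u v z hadj w ih =>
      intro h1 h2
      have hadj' : s(u, v) ∈ opn d p (m + 1) ω ∧ u ≠ v := by
        unfold gr at hadj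
        rw [SimpleGraph.fromEdgeSet_adj] at hadj
        exact ⟨hadj.1, hadj.2⟩
      obtain ⟨h3, h4⟩ := pc_opn_step hadj'.1 h1
      have hadj2 : (gr (opn d p (n + 1) ω)).Adj u v := by
        unfold gr
        rw [SimpleGraph.fromEdgeSet_adj]
        exact ⟨h3, hadj'.2⟩
      by_cases hv : v ∈ bx d n
      · obtain ⟨y', hy1, hy2⟩ := ih hv h2
        exact ⟨y', hy1, hadj2.reachable.trans hy2⟩
      · exact ⟨v, hv, hadj2.reachable⟩
  obtain ⟨y', hy1, hy2⟩ := key 0 y w pc_zero_mem hy'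
  exact ⟨y', hy1, hy2⟩

/-- the graph is monotone in the level -/
theorem pc_Gp_mono {d : ℕ} {p p' : ℝ} (h : p ≤ p')
    (ω : ((Fin d → ℤ) × Fin d) → unitInterval) : Gp d p ω ≤ Gp d p' ω := by
  intro x y hxy
  unfold Gp at hxy ⊢
  rw [SimpleGraph.fromRel_adj] at hxy ⊢
  refine ⟨hxy.1, ?_⟩
  rcases hxy.2 with ⟨i, h1, h2⟩ | ⟨i, h1, h2⟩
  · exact Or.inl ⟨i, h1, lt_of_lt_of_le h2 h⟩
  · exact Or.inr ⟨i, h1, lt_of_lt_of_le h2 h⟩

instance pc_prob (d : ℕ) : IsProbabilityMeasure (Pi8 d) := by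
  unfold Pi8
  infer_instance

theorem hPc (hLaw : StLaw) (hGi : StGinf) (hTh : StTheta) (hThS : StThetaSub) (hPH : StPH) :
    StPc := by
  intro d hd hp2
  have hpos : 0 < pH d := (hPH d hd).1
  -- the event of an infinite cluster
  have hset : ∀ p : ℝ, {ω | {x : Zd d | (Gp d p ω).Reachable 0 x}.Infinite} =
      ⋂ n : ℕ, {ω | Out n (opn d p (n + 1) ω)} := by
    intro p
    ext ω
    rw [Set.mem_ofPred_eq, hGi d p ω, Set.mem_iInter]
    exact Iff.rfl
  have hA : ∀ (p : ℝ) (n : ℕ), 0 ≤ p → p ≤ 1 →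
      (Pi8 d {ω | Out n (opn d p (n + 1) ω)}).toReal = th d n p := by
    intro p n h0 h1
    rw [(hLaw d (n + 1) p (Out n) h0 h1).1]
    rfl
  -- above `pH`, below `1 / 2`
  have hup : ∀ p : ℝ, pH d < p → p ≤ 1 / 2 →
      Pi8 d {ω | {x : Zd d | (Gp d p ω).Reachable 0 x}.Infinite} ≠ 0 := by
    intro p h1 h2 h3
    have h0 : 0 ≤ p := hpos.le.trans h1.le
    have h01 : p ≤ 1 := by linarith
    rw [hset p] at h3
    have hanti : Antitone (fun n : ℕ => {ω | Out n (opn d p (n + 1) ω)}) :=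
      fun n m hnm ω hω => pc_out_anti hnm hω
    have hlim := tendsto_measure_iInter_atTop (μ := Pi8 d)
      (s := fun n : ℕ => {ω | Out n (opn d p (n + 1) ω)})
      (fun n => (hLaw d (n + 1) p (Out n) h0 h01).2.nullMeasurableSet) hanti
      ⟨0, measure_ne_top _ _⟩
    rw [h3] at hlim
    have hlim2 := (ENNReal.tendsto_toReal ENNReal.zero_ne_top).comp hlim
    have hlim3 : Tendsto (fun n => th d n p) atTop (𝓝 0) := by
      refine hlim2.congr ?_
      intro n
      exact hA p n h0 h01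
    have hc : 0 < 1 - Real.exp (-2 * (p - pH d)) := by
      have : Real.exp (-2 * (p - pH d)) < 1 := by
        rw [← Real.exp_zero]
        exact Real.exp_lt_exp.2 (by linarith)
      linarith
    have hge := ge_of_tendsto hlim3 (Eventually.of_forall (fun n => hTh d hd hp2 n p h1.le h2))
    linarith
  -- every member of the set is at most `pH`
  have hub : ∀ p ∈ {p : ℝ | Pi8 d {ω | {x : Zd d | (Gp d p ω).Reachable 0 x}.Infinite} = 0},
      p ≤ pH d := by
    intro p hp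
    by_contra hlt
    rw [not_le] at hlt
    rcases le_or_gt p (1 / 2) with h | h
    · exact hup p hlt h hp
    · refine hup (1 / 2) hp2 le_rfl ?_
      refine le_antisymm ?_ bot_le
      rw [← (show Pi8 d {ω | {x : Zd d | (Gp d p ω).Reachable 0 x}.Infinite} = 0 from hp)]
      refine measure_mono ?_
      intro ω hω
      refine Set.Infinite.mono ?_ hω
      intro x hx
      exact SimpleGraph.Reachable.mono (pc_Gp_mono h.le ω) hx
  -- everything in `[0, pH)` is in the set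
  have hlow : ∀ p : ℝ, 0 ≤ p → p < pH d →
      p ∈ {p : ℝ | Pi8 d {ω | {x : Zd d | (Gp d p ω).Reachable 0 x}.Infinite} = 0} := by
    intro p h0 h1
    have h01 : p ≤ 1 := by linarith
    rw [Set.mem_ofPred_eq, hset p]
    have hle : ∀ n : ℕ, (Pi8 d (⋂ n : ℕ, {ω | Out n (opn d p (n + 1) ω)})).toReal ≤
        th d n p := by
      intro n
      rw [← hA p n h0 h01]
      exact ENNReal.toReal_mono (measure_ne_top _ _) (measure_mono (Set.iInter_subset _ n))
    have h2 : (Pi8 d (⋂ n : ℕ, {ω | Out n (opn d p (n + 1) ω)})).toReal ≤ 0 :=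
      ge_of_tendsto (hThS d p hd h0 h1) (Eventually.of_forall hle)
    have h3 : (Pi8 d (⋂ n : ℕ, {ω | Out n (opn d p (n + 1) ω)})).toReal = 0 :=
      le_antisymm h2 ENNReal.toReal_nonneg
    rcases (ENNReal.toReal_eq_zero_iff _).1 h3 with h | h
    · exact h
    · exact absurd h (measure_ne_top _ _)
  refine csSup_eq_of_forall_le_of_forall_lt_exists_gt ⟨0, hlow 0 le_rfl hpos⟩ hub ?_
  intro w hw
  refine ⟨(max w 0 + pH d) / 2, hlow _ ?_ ?_, ?_⟩
  · have := le_max_right w 0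
    linarith
  · have h1 : max w 0 < pH d := max_lt hw hpos
    linarith
  · have h1 : max w 0 < pH d := max_lt hw hpos
    have h2 := le_max_left w 0
    linarith

end Pool.LE
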