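import Pool.Agent.Helper84.LE.St4
import Pool.Agent.Helper84.LE.BGR
import Pool.Agent.Helper84.LE.BWT

/-! MP_e167eb: the number of pivotal edges (module PivCount, plan section 10). -/

set_option autoImplicit false
open scoped BigOperators ENNReal

namespace Pool.LE

/-- independence of disjoint sets of edges, for nonnegative functions -/
theorem ExE_mul_of_disjoint {V : Type} [DecidableEq V] {E₁ E₂ : Finset (Sym2 V)}
    (hd : Disjoint E₁ E₂) {p : ℝ} (h0 : 0 ≤ p) (h1 : p ≤ 1) (f g : Finset (Sym2 V) → ENNReal) :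
    ExE (E₁ ∪ E₂) p (fun ω => f (ω ∩ E₁) * g (ω ∩ E₂)) = ExE E₁ p f * ExE E₂ p g := by
  induction E₁ using Finset.induction_on generalizing f with
  | empty =>
    have h2 : ExE (∅ : Finset (Sym2 V)) p f = f ∅ := by simp [ExE, wt]
    rw [Finset.empty_union, h2, ← ExE_mul_left]
    refine ExE_congr fun ω hω => ?_
    rw [Finset.inter_empty, Finset.inter_eq_left.2 hω]
  | insert e E he ih =>
    have hd' : Disjoint E E₂ := Finset.disjoint_of_subset_left (Finset.subset_insert _ _) hd
    have he2 : e ∉ E₂ := fun h => (Finset.disjoint_left.1 hd) (Finset.mem_insert_self _ _) h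
    have heU : e ∉ E ∪ E₂ := by simp [he, he2]
    rw [Finset.insert_union, ExE_insert heU h0 h1, ExE_insert he h0 h1]
    have h2 : ExE (E ∪ E₂) p (fun ω => f (ω ∩ insert e E) * g (ω ∩ E₂)) =
        ExE E p f * ExE E₂ p g := by
      rw [← ih hd' f]
      refine ExE_congr fun ω hω => ?_
      rw [Finset.inter_insert_of_notMem (fun h => heU (hω h))]
    have h3 : ExE (E ∪ E₂) p (fun ω => f ((insert e ω) ∩ insert e E) * g ((insert e ω) ∩ E₂)) =
        ExE E p (fun ω => f (insert e ω)) * ExE E₂ p g := by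
      rw [← ih hd' (fun ω => f (insert e ω))]
      refine ExE_congr fun ω hω => ?_
      rw [Finset.insert_inter_of_notMem he2, ← Finset.insert_inter_distrib]
    rw [h2, h3, add_mul, mul_assoc, mul_assoc]

open Classical in
/-- the points of the box which are not connected to the outside -/
noncomputable def pcS {d : ℕ} (n : ℕ) (ω : Finset (Sym2 (Zd d))) : Finset (Zd d) :=
  (bx d n).filter (fun x => ∀ y, con ω x y → y ∈ bx d n)

theorem mem_pcS {d n : ℕ} {ω : Finset (Sym2 (Zd d))} {x : Zd d} :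
    x ∈ pcS n ω ↔ ∀ y, con ω x y → y ∈ bx d n := by
  unfold pcS
  simp only [Finset.mem_filter]
  exact ⟨fun h => h.2, fun h => ⟨h x (con_refl _ _), h⟩⟩

theorem pcS_subset {d n : ℕ} {ω : Finset (Sym2 (Zd d))} : pcS n ω ⊆ bx d n :=
  fun x hx => (mem_pcS.1 hx) x (con_refl _ _)

theorem pcS_closed {d n : ℕ} {ω : Finset (Sym2 (Zd d))} {x y : Zd d} (hx : x ∈ pcS n ω)
    (h : con ω x y) : y ∈ pcS n ω := by
  rw [mem_pcS] at hx ⊢
  exact fun z hz => hx z (con_trans h hz)

theorem con_induct {V : Type} [DecidableEq V] {ω : Finset (Sym2 V)} {S : Set V} {x y : V}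
    (hS : ∀ a b, s(a, b) ∈ ω → a ∈ S → b ∈ S) (h : con ω x y) (hx : x ∈ S) : y ∈ S := by
  obtain ⟨q⟩ := h
  induction q with
  | nil => exact hx
  | cons hadj q ih => exact ih (hS _ _ (gr_adj.1 hadj).1 hx)

theorem mem_of_mem_ES {d : ℕ} (hBox : StBox) {S : Finset (Zd d)} {e : Sym2 (Zd d)}
    (he : e ∈ ES S) {v : Zd d} (hv : v ∈ e) : v ∈ S := by
  obtain ⟨-, -, -, -, -, -, -, h8, -⟩ := hBox d
  induction e using Sym2.ind with
  | _ a b =>
    rw [h8] at he
    rcases Sym2.mem_iff.1 hv with rfl | rfl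
    · exact he.1
    · exact he.2.1

/-- the set of points not connected to the outside does not depend on the edges inside it -/
theorem pcS_local {d n : ℕ} (hBox : StBox) {ω : Finset (Sym2 (Zd d))} {S : Finset (Zd d)} :
    pcS n ω = S ↔ pcS n (ω \ ES S) = S := by
  have hsub : ω \ ES S ⊆ ω := Finset.sdiff_subset
  constructor
  · intro h
    rw [← h]
    ext x
    constructor
    · intro hx
      rw [mem_pcS]
      intro y hy
      by_contra hyn
      have hxS : x ∉ S := by
        rw [← h]
        intro hx'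
        exact hyn ((mem_pcS.1 hx') y hy)
      have h2 : con ω x y ↔ con (ω \ ES S) x y := by
        refine con_iff_of_cluster (fun e he => ?_) y
        obtain ⟨v, hv, hxv⟩ := he
        rw [Finset.mem_sdiff]
        refine ⟨fun h' => ⟨h', fun hE => ?_⟩, fun h' => h'.1⟩
        have hvS : v ∈ S := mem_of_mem_ES hBox hE hv
        rw [← h] at hvS
        have := pcS_closed hvS (con_symm hxv)
        rw [h] at this
        exact hxS this
      rw [h] at hx
      exact hyn ((mem_pcS.1 hx) y (h2.1 hy))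
    · intro hx
      rw [h, mem_pcS]
      exact fun y hy => (mem_pcS.1 hx) y (con_mono hsub hy)
  · intro h
    ext x
    constructor
    · intro hx
      rw [← h, mem_pcS]
      exact fun y hy => (mem_pcS.1 hx) y (con_mono hsub hy)
    · intro hx
      rw [mem_pcS]
      intro y hy
      have hyS : y ∈ (S : Set (Zd d)) := by
        refine con_induct (fun a b hab ha => ?_) hy hx
        by_cases hE : s(a, b) ∈ ES S
        · exact mem_of_mem_ES hBox hE (Sym2.mem_mk_right a b)
        · have h2 : con (ω \ ES S) a b := con_of_mem (Finset.mem_sdiff.2 ⟨hab, hE⟩)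
          have ha' : a ∈ pcS n (ω \ ES S) := by
            rw [h]
            exact ha
          have := pcS_closed ha' h2
          rw [h] at this
          exact this
      have hyS' : y ∈ pcS n (ω \ ES S) := by
        rw [h]
        exact hyS
      exact pcS_subset hyS'

open Classical in
/-- pointwise lower bound for the number of pivotal edges -/
theorem pc_point {d n : ℕ} (hBox : StBox) {ω : Finset (Sym2 (Zd d))}
    {S : Finset (Zd d)} (hS : pcS n ω = S) (h0 : 0 ∈ S) :
    ∑ x ∈ S, ((nb x \ S).card : ENNReal) * (if con (ω ∩ ES S) 0 x then 1 else 0) ≤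
      (({e ∈ Eb d (n + 1) | ¬ Out n ω ∧ Out n (insert e ω)} : Set (Sym2 (Zd d))).ncard : ENNReal) := by
  obtain ⟨-, -, -, -, -, -, h7, h8, -⟩ := hBox d
  have hSb : S ⊆ bx d n := by
    rw [← hS]
    exact pcS_subset
  have hnot : ¬ Out n ω := by
    rintro ⟨y, hy, hc⟩
    rw [← hS] at h0
    exact hy ((mem_pcS.1 h0) y hc)
  set T : Finset ((_ : Zd d) × Zd d) :=
    (S.filter (fun x => con (ω ∩ ES S) 0 x)).sigma (fun x => nb x \ S) with hT
  have hcard : ∑ x ∈ S, ((nb x \ S).card : ENNReal) * (if con (ω ∩ ES S) 0 x then 1 else 0) =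
      (T.card : ENNReal) := by
    rw [hT, Finset.card_sigma, Nat.cast_sum, Finset.sum_filter]
    refine Finset.sum_congr rfl fun x _ => ?_
    split_ifs <;> simp
  have hset : ({e ∈ Eb d (n + 1) | ¬ Out n ω ∧ Out n (insert e ω)} : Set (Sym2 (Zd d))) =
      (((Eb d (n + 1)).filter (fun e => ¬ Out n ω ∧ Out n (insert e ω)) :
        Finset (Sym2 (Zd d))) : Set (Sym2 (Zd d))) := by
    ext e
    simp
  rw [hcard, hset, Set.ncard_coe_finset]
  refine Nat.cast_le.2 ?_
  refine Finset.card_le_card_of_injOn (fun q => s(q.1, q.2)) ?_ ?_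
  · rintro ⟨x, y⟩ hq
    rw [Finset.mem_coe, hT, Finset.mem_sigma, Finset.mem_filter, Finset.mem_sdiff] at hq
    obtain ⟨⟨hx, hcx⟩, hy, hyS⟩ := hq
    dsimp only at hx hcx hy hyS
    rw [Finset.mem_coe, Finset.mem_filter]
    dsimp only
    refine ⟨?_, hnot, ?_⟩
    · change s(x, y) ∈ ES (bx d (n + 1))
      rw [h8]
      have hxn := hSb hx
      refine ⟨?_, h7 x y n hxn hy, hy⟩
      have hyb := h7 x y n hxn hy
      obtain ⟨-, h2, -⟩ := hBox d
      rw [h2] at hxn ⊢
      intro i
      have := hxn i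
      push_cast
      linarith
    · have hc0x : con (insert s(x, y) ω) 0 x :=
        con_mono (Finset.inter_subset_left.trans (Finset.subset_insert _ _)) hcx
      have hxy : con (insert s(x, y) ω) x y := con_of_mem (Finset.mem_insert_self _ _)
      rw [← hS, mem_pcS] at hyS
      push Not at hyS
      obtain ⟨z, hz, hzn⟩ := hyS
      exact ⟨z, hzn, con_trans (con_trans hc0x hxy) (con_mono (Finset.subset_insert _ _) hz)⟩
  · rintro ⟨x, y⟩ hq ⟨x', y'⟩ hq' heq
    rw [Finset.mem_coe, hT, Finset.mem_sigma, Finset.mem_filter, Finset.mem_sdiff] at hq hq'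
    obtain ⟨⟨hx, -⟩, -, hyS⟩ := hq
    obtain ⟨⟨hx', -⟩, -, hyS'⟩ := hq'
    dsimp only at hx hyS hx' hyS' heq
    rcases Sym2.eq_iff.1 heq with ⟨h1, h2⟩ | ⟨h1, h2⟩
    · subst h1
      subst h2
      rfl
    · exact absurd (h1 ▸ hx) hyS'

theorem hPivCount (hBox : StBox) : StPivCount := by
  classical
  intro d n p c hd hp0 hp1 hc hc0
  obtain ⟨-, -, -, -, -, -, -, -, -, h10, -⟩ := hBox d
  set E := Eb d (n + 1) with hE
  set 𝒮 := (bx d n).powerset.filter (fun S => (0 : Zd d) ∈ S) with h𝒮
  -- step 1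
  have step1 : ∑ S ∈ 𝒮, Pr E p (fun ω => pcS n ω = S) *
        (∑ x ∈ S, ((nb x \ S).card : ENNReal) * Pr (ES S) p (fun ω => con ω 0 x)) ≤
      ExE E p (fun ω => (({e ∈ Eb d (n + 1) | ¬ Out n ω ∧ Out n (insert e ω)} :
        Set (Sym2 (Zd d))).ncard : ENNReal)) := by
    have e1 : ∀ S ∈ 𝒮, Pr E p (fun ω => pcS n ω = S) *
        (∑ x ∈ S, ((nb x \ S).card : ENNReal) * Pr (ES S) p (fun ω => con ω 0 x)) =
        ExE E p (fun ω => (if pcS n ω = S then 1 else 0) *
          ∑ x ∈ S, ((nb x \ S).card : ENNReal) * (if con (ω ∩ ES S) 0 x then 1 else 0)) := by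
      intro S hS
      rw [h𝒮, Finset.mem_filter, Finset.mem_powerset] at hS
      have hsub : ES S ⊆ E := by
        have h8 := (hBox d).2.2.2.2.2.2.2.1
        intro e he
        induction e using Sym2.ind with
        | _ a b =>
          rw [h8] at he
          have h3 : s(a, b) ∈ Eb d n := by
            change s(a, b) ∈ ES (bx d n)
            rw [h8]
            exact ⟨hS.1 he.1, hS.1 he.2.1, he.2.2⟩
          exact h10 n (n + 1) (Nat.le_succ n) h3
      have hU : (E \ ES S) ∪ ES S = E := Finset.sdiff_union_of_subset hsub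
      have hdis : Disjoint (E \ ES S) (ES S) := Finset.sdiff_disjoint
      have hloc : ∀ ω ⊆ E, (if pcS n ω = S then (1 : ENNReal) else 0) =
          (fun η => if pcS n η = S then (1 : ENNReal) else 0) (ω ∩ (E \ ES S)) := by
        intro ω hω
        have h4 : ω ∩ (E \ ES S) = ω \ ES S := by
          ext a
          simp only [Finset.mem_inter, Finset.mem_sdiff]
          exact ⟨fun h => ⟨h.1, h.2.2⟩, fun h => ⟨h.1, hω h.1, h.2⟩⟩
        dsimp only
        rw [h4]
        by_cases h5 : pcS n ω = S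
        · rw [if_pos h5, if_pos ((pcS_local hBox).1 h5)]
        · rw [if_neg h5, if_neg (fun h => h5 ((pcS_local hBox).2 h))]
      have e2 : ExE E p (fun ω => (if pcS n ω = S then 1 else 0) *
          ∑ x ∈ S, ((nb x \ S).card : ENNReal) * (if con (ω ∩ ES S) 0 x then 1 else 0)) =
          ExE ((E \ ES S) ∪ ES S) p (fun ω =>
            (fun η => if pcS n η = S then (1 : ENNReal) else 0) (ω ∩ (E \ ES S)) *
            (fun η => ∑ x ∈ S, ((nb x \ S).card : ENNReal) *
              (if con η 0 x then (1 : ENNReal) else 0)) (ω ∩ ES S)) := by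
        rw [hU]
        refine ExE_congr fun ω hω => ?_
        rw [hloc ω hω]
      have e3 : Pr E p (fun ω => pcS n ω = S) =
          ExE (E \ ES S) p (fun η => if pcS n η = S then (1 : ENNReal) else 0) := by
        rw [← ExE_inter (Finset.sdiff_subset (s := E) (t := ES S)) hp0.le hp1]
        unfold Pr
        refine ExE_congr fun ω hω => ?_
        refine Eq.trans ?_ (hloc ω hω)
        by_cases h5 : pcS n ω = S
        · rw [if_pos h5, if_pos h5]
        · rw [if_neg h5, if_neg h5]
      have e4 : ∑ x ∈ S, ((nb x \ S).card : ENNReal) * Pr (ES S) p (fun ω => con ω 0 x) =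
          ExE (ES S) p (fun η => ∑ x ∈ S, ((nb x \ S).card : ENNReal) *
              (if con η 0 x then (1 : ENNReal) else 0)) := by
        rw [ExE_sum]
        refine Finset.sum_congr rfl fun x _ => ?_
        rw [ExE_mul_left]
        rfl
      rw [e2, e3, e4]
      exact (ExE_mul_of_disjoint hdis hp0.le hp1 _ _).symm
    rw [Finset.sum_congr rfl e1, ← ExE_sum]
    refine ExE_mono fun ω hω => ?_
    by_cases h0 : (0 : Zd d) ∈ pcS n ω
    · have hm : pcS n ω ∈ 𝒮 := by
        rw [h𝒮, Finset.mem_filter, Finset.mem_powerset]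
        exact ⟨pcS_subset, h0⟩
      rw [Finset.sum_eq_single_of_mem (pcS n ω) hm]
      · rw [if_pos rfl, one_mul]
        exact pc_point hBox rfl h0
      · intro S _ hne
        rw [if_neg (fun h => hne h.symm), zero_mul]
    · rw [Finset.sum_eq_zero]
      · exact zero_le
      · intro S hS
        rw [h𝒮, Finset.mem_filter] at hS
        rw [if_neg (fun h => h0 (by rw [h]; exact hS.2)), zero_mul]
  -- step 2
  have step2 : ∀ S ∈ 𝒮, ENNReal.ofReal c ≤ ENNReal.ofReal p *
      ∑ x ∈ S, ((nb x \ S).card : ENNReal) * Pr (ES S) p (fun ω => con ω 0 x) := by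
    intro S hS
    rw [h𝒮, Finset.mem_filter, Finset.mem_powerset] at hS
    refine (ENNReal.ofReal_le_ofReal (hc S hS.2 hS.1)).trans (le_of_eq ?_)
    unfold phiS
    rw [ENNReal.ofReal_mul hp0.le, ENNReal.ofReal_sum_of_nonneg
      (fun x _ => mul_nonneg (Nat.cast_nonneg _) ENNReal.toReal_nonneg)]
    congr 1
    refine Finset.sum_congr rfl fun x _ => ?_
    rw [ENNReal.ofReal_mul (Nat.cast_nonneg _), ENNReal.ofReal_natCast, ENNReal.ofReal_toReal]
    exact ne_top_of_le_ne_top ENNReal.one_ne_top (Pr_le_one hp0.le hp1 _ _)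
  -- step 3
  have step3 : 1 - Pr E p (Out n) ≤ ∑ S ∈ 𝒮, Pr E p (fun ω => pcS n ω = S) := by
    rw [tsub_le_iff_left]
    unfold Pr
    rw [← ExE_sum, ← ExE_add]
    calc (1 : ENNReal) = ExE E p (fun _ => 1) := (ExE_const hp0.le hp1 E 1).symm
      _ ≤ _ := by
        refine ExE_mono fun ω _ => ?_
        by_cases ho : Out n ω
        · rw [if_pos ho]
          exact le_self_add
        · have h0 : (0 : Zd d) ∈ pcS n ω := by
            rw [mem_pcS]
            intro y hy
            by_contra hyn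
            exact ho ⟨y, hyn, hy⟩
          have hm : pcS n ω ∈ 𝒮 := by
            rw [h𝒮, Finset.mem_filter, Finset.mem_powerset]
            exact ⟨pcS_subset, h0⟩
          refine le_trans ?_ le_add_self
          rw [Finset.sum_eq_single_of_mem (pcS n ω) hm]
          · rw [if_pos rfl]
          · intro S _ hne
            rw [if_neg (fun h => hne h.symm)]
  calc ENNReal.ofReal c * (1 - Pr E p (Out n))
      ≤ ENNReal.ofReal c * ∑ S ∈ 𝒮, Pr E p (fun ω => pcS n ω = S) := by gcongr
    _ = ∑ S ∈ 𝒮, ENNReal.ofReal c * Pr E p (fun ω => pcS n ω = S) := Finset.mul_sum _ _ _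
    _ ≤ ∑ S ∈ 𝒮, (ENNReal.ofReal p *
          ∑ x ∈ S, ((nb x \ S).card : ENNReal) * Pr (ES S) p (fun ω => con ω 0 x)) *
            Pr E p (fun ω => pcS n ω = S) := by
        refine Finset.sum_le_sum fun S hS => ?_
        exact mul_le_mul_left (step2 S hS) _
    _ = ENNReal.ofReal p * ∑ S ∈ 𝒮, Pr E p (fun ω => pcS n ω = S) *
          (∑ x ∈ S, ((nb x \ S).card : ENNReal) * Pr (ES S) p (fun ω => con ω 0 x)) := by
        rw [Finset.mul_sum]
        refine Finset.sum_congr rfl fun S _ => ?_
        ring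
    _ ≤ _ := by
        exact mul_le_mul_right step1 _

end Pool.LE
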