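import Pool.Agent.Helper84.LE.St1
import Pool.Agent.Helper84.LE.BGR

/-! MP_e167eb: pivotal edges before the last one (module PivT). -/

set_option autoImplicit false
set_option linter.unusedSectionVars false

namespace Pool.LE

variable {V : Type} [DecidableEq V]

/-- a connection which is lost when one edge is removed splits at this edge -/
theorem erase_split {ω : Finset (Sym2 V)} {x y u a : V} (h : con ω x y) :
    con (ω.erase s(u, a)) x y ∨
      (con (ω.erase s(u, a)) x u ∧ con (ω.erase s(u, a)) a y) ∨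
      (con (ω.erase s(u, a)) x a ∧ con (ω.erase s(u, a)) u y) := by
  obtain ⟨q⟩ := h
  induction q with
  | nil => exact Or.inl (con_refl _ _)
  | cons hadj q ih =>
    rename_i x z y
    have hz := gr_adj.1 hadj
    by_cases he : s(x, z) = s(u, a)
    · rw [Sym2.eq_iff] at he
      rcases he with ⟨rfl, rfl⟩ | ⟨rfl, rfl⟩
      · rcases ih with h | ⟨-, h⟩ | ⟨-, h⟩
        · exact Or.inr (Or.inl ⟨con_refl _ _, h⟩)
        · exact Or.inr (Or.inl ⟨con_refl _ _, h⟩)
        · exact Or.inl h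
      · rcases ih with h | ⟨-, h⟩ | ⟨-, h⟩
        · exact Or.inr (Or.inr ⟨con_refl _ _, h⟩)
        · exact Or.inl h
        · exact Or.inr (Or.inr ⟨con_refl _ _, h⟩)
    · have hxz : con (ω.erase s(u, a)) x z := con_of_mem (Finset.mem_erase.2 ⟨he, hz.1⟩)
      rcases ih with h | ⟨h1, h2⟩ | ⟨h1, h2⟩
      · exact Or.inl (con_trans hxz h)
      · exact Or.inr (Or.inl ⟨con_trans hxz h1, h2⟩)
      · exact Or.inr (Or.inr ⟨con_trans hxz h1, h2⟩)

/-- an edge which does not touch the cluster of `v` is irrelevant for `v` -/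
theorem con_erase_iff {ω : Finset (Sym2 V)} {v c b : V} (hc : ¬ con ω v c) (hb : ¬ con ω v b)
    (y : V) : con ω v y ↔ con (ω.erase s(c, b)) v y := by
  refine con_iff_of_cluster (fun e he => ?_) y
  rw [Finset.mem_erase]
  constructor
  · intro h
    refine ⟨?_, h⟩
    rintro rfl
    obtain ⟨z, hz, hvz⟩ := he
    rcases Sym2.mem_iff.1 hz with rfl | rfl
    · exact hc hvz
    · exact hb hvz
  · exact fun h => h.2

theorem hPivT : StPivT := by
  intro V _ ω v x c b u a hp hd hne
  obtain ⟨hcb, hvc, hbx, hvx⟩ := hp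
  have hcomm : (ω.erase s(c, b)).erase s(u, a) = (ω.erase s(u, a)).erase s(c, b) :=
    Finset.erase_right_comm
  have hsub' : (ω.erase s(c, b)).erase s(u, a) ⊆ ω.erase s(c, b) := Finset.erase_subset _ _
  have hsub1 : (ω.erase s(c, b)).erase s(u, a) ⊆ ω.erase s(u, a) := by
    rw [hcomm]; exact Finset.erase_subset _ _
  -- from `piv ω v x u a`
  have key : piv ω v x u a → piv (ω.erase s(c, b)) v c u a ∧ ¬ con (ω.erase s(u, a)) v c ∧
      con (ω.erase s(u, a)) a c ∧ s(c, b) ∈ ω.erase s(u, a) ∧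
      cl (ω.erase s(c, b)) u a v = cl ω u a v := by
    rintro ⟨hua, h1, h2, h3⟩
    have hbx1 : con (ω.erase s(u, a)) b x := hd.2 _ hua
    have hnee : s(u, a) ≠ s(c, b) := by
      intro h
      rw [Sym2.eq_iff] at h
      rcases h with ⟨rfl, rfl⟩ | ⟨rfl, rfl⟩
      · exact hne rfl
      · rw [Sym2.eq_swap] at h1
        exact hvx (con_trans h1 hbx)
    have hmem1 : s(c, b) ∈ ω.erase s(u, a) := Finset.mem_erase.2 ⟨hnee.symm, hcb⟩
    have hvb1 : ¬ con (ω.erase s(u, a)) v b := fun h => h3 (con_trans h hbx1)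
    have hvc1 : ¬ con (ω.erase s(u, a)) v c := fun h =>
      hvb1 (con_trans h (con_of_mem hmem1))
    have hiff : ∀ y, con (ω.erase s(u, a)) v y ↔
        con ((ω.erase s(c, b)).erase s(u, a)) v y := by
      intro y
      rw [hcomm]
      exact con_erase_iff hvc1 hvb1 y
    have hac : con ((ω.erase s(c, b)).erase s(u, a)) a c := by
      rcases erase_split (u := u) (a := a) hvc with h | ⟨-, h⟩ | ⟨h, -⟩
      · exact absurd ((hiff c).2 h) hvc1
      · exact h
      · exact absurd (con_trans ((hiff a).2 h) h2) h3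
    refine ⟨⟨Finset.mem_erase.2 ⟨hnee, hua⟩, (hiff u).1 h1, hac,
      fun h => hvc1 ((hiff c).2 h)⟩, hvc1, con_mono hsub1 hac, hmem1, ?_⟩
    ext y
    exact (hiff y).symm
  refine ⟨⟨fun h => (key h).1, ?_⟩, fun h => (key h).2⟩
  rintro ⟨hua, h1, h2, h3⟩
  obtain ⟨hnee, hua'⟩ := Finset.mem_erase.1 hua
  have hmem1 : s(c, b) ∈ ω.erase s(u, a) := Finset.mem_erase.2 ⟨hnee.symm, hcb⟩
  refine ⟨hua', con_mono hsub1 h1, con_trans (con_mono hsub1 h2)
    (con_trans (con_of_mem hmem1) (hd.2 _ hua')), ?_⟩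
  intro h
  have h4 := erase_split (u := c) (a := b) h
  rw [← hcomm] at h4
  rcases h4 with h4 | ⟨h4, -⟩ | ⟨h4, -⟩
  · exact hvx (con_mono hsub' h4)
  · exact h3 h4
  · exact hvx (con_trans (con_mono hsub' h4) hbx)

end Pool.LE
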