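import Pool.Agent.Helper84.LE.St2
import Pool.Agent.Helper84.LE.BWT

/-! MP_e167eb: polynomial dependence of the coefficients on `p` (module Poly). -/

set_option autoImplicit false
open scoped BigOperators Polynomial
open Polynomial

namespace Pool.LE

theorem poly_tn (d n : ℕ) (x : Zd d) : ∃ P : ℝ[X], ∀ p : ℝ, tn d p n x = P.eval p := by
  refine ⟨∑ ω ∈ (Eb d n).powerset,
    X ^ ω.card * (1 - X) ^ (Eb d n \ ω).card * C ((mon ω (0 : Zd d) x).coeff n), fun p => ?_⟩
  unfold tn GG
  rw [coeff_Ex]
  unfold Ex wt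
  rw [Polynomial.eval_finsetSum]
  refine Finset.sum_congr rfl fun ω _ => ?_
  rw [eval_mul, eval_mul, eval_pow, eval_pow, eval_sub, eval_X, eval_one, eval_C, smul_eq_mul]

theorem hPoly (hGE : StGmEq) : StPoly := by
  intro d n x
  refine ⟨poly_tn d n x, ?_⟩
  induction n using Nat.strong_induction_on generalizing x with
  | _ n ih =>
    choose T hT using poly_tn d
    have ih' : ∀ j : ℕ, ∃ Pj : Zd d → ℝ[X], j < n → ∀ (u : Zd d) (p : ℝ),
        gm d p j u = (Pj u).eval p := by
      intro j
      by_cases hj : j < n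
      · choose Pj hPj using fun u => ih j hj u
        exact ⟨Pj, fun _ u p => hPj u p⟩
      · exact ⟨fun _ => 0, fun h => absurd h hj⟩
    choose G hG using ih'
    refine ⟨T n x - ∑ j ∈ Finset.range n, ∑ u ∈ bx d j, ∑ b ∈ nb u,
      G j u * X * T (n - 1 - j) (x - b), fun p => ?_⟩
    rw [hGE d p n x, eval_sub, Polynomial.eval_finsetSum, hT]
    congr 1
    refine Finset.sum_congr rfl fun j hj => ?_
    rw [Polynomial.eval_finsetSum]
    refine Finset.sum_congr rfl fun u _ => ?_
    rw [Polynomial.eval_finsetSum]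
    refine Finset.sum_congr rfl fun b _ => ?_
    rw [eval_mul, eval_mul, eval_X, hG j (Finset.mem_range.1 hj) u p, hT]

end Pool.LE
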