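import Pool.Agent.Helper84.LE.St4
import Pool.Agent.Helper84.LE.BGR
import Pool.Agent.Helper84.LE.BWT

/-! StPolyExp, StPhi, StPH (plan section 6). -/

set_option autoImplicit false
open scoped BigOperators ENNReal Topology
open MeasureTheory Filter

namespace Pool.LE

theorem hPolyExp : StPolyExp := by
  intro d r hr
  have h1 := tendsto_pow_const_div_const_pow_of_one_lt 2 hr
  obtain ⟨M, hM⟩ := h1.bddAbove_range
  have hM' : ∀ n : ℕ, (n : ℝ) ^ 2 ≤ M * r ^ n := by
    intro n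
    have h2 : (n : ℝ) ^ 2 / r ^ n ≤ M := hM ⟨n, rfl⟩
    have h3 : 0 < r ^ n := by positivity
    rwa [div_le_iff₀ h3] at h2
  have hsq : ∀ x : Zd d, sq x ≤ ((n1 x : ℕ) : ℝ) ^ 2 := by
    intro x
    have e1 : ∀ i, (x i : ℝ) ^ 2 = ((x i).natAbs : ℝ) * ((x i).natAbs : ℝ) := by
      intro i
      have : ((x i).natAbs : ℝ) = |(x i : ℝ)| := by
        rw [Nat.cast_natAbs, Int.cast_abs]
      rw [this, ← pow_two, sq_abs]
    have e2 : ∀ i, ((x i).natAbs : ℝ) ≤ (n1 x : ℝ) := by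
      intro i
      have : (x i).natAbs ≤ n1 x :=
        Finset.single_le_sum (f := fun i => (x i).natAbs) (fun _ _ => Nat.zero_le _)
          (Finset.mem_univ i)
      exact_mod_cast this
    unfold sq
    calc ∑ i, (x i : ℝ) ^ 2 = ∑ i, ((x i).natAbs : ℝ) * ((x i).natAbs : ℝ) :=
          Finset.sum_congr rfl fun i _ => e1 i
      _ ≤ ∑ i, ((x i).natAbs : ℝ) * (n1 x : ℝ) :=
          Finset.sum_le_sum fun i _ => mul_le_mul_of_nonneg_left (e2 i) (Nat.cast_nonneg _)
      _ = (n1 x : ℝ) ^ 2 := by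
          rw [← Finset.sum_mul, ← Nat.cast_sum, pow_two]; rfl
  refine ⟨2 * (1 + M), fun x => ?_⟩
  have h2 := hsq x
  have h3 := hM' (n1 x)
  have h4 : 1 ≤ r ^ n1 x := one_le_pow₀ hr.le
  unfold Qw
  nlinarith

private theorem prR_eq {V : Type} [DecidableEq V] (E : Finset (Sym2 V)) (p : ℝ)
    (A : Finset (Sym2 V) → Prop) [DecidablePred A] :
    (Pr E p A).toReal = ∑ ω ∈ E.powerset, max (wt E p ω) 0 * (if A ω then (1 : ℝ) else 0) := by
  unfold Pr ExE
  rw [ENNReal.toReal_sum]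
  · refine Finset.sum_congr rfl fun ω _ => ?_
    rw [ENNReal.toReal_mul, ENNReal.toReal_ofReal']
    congr 1
    by_cases h : A ω
    · simp [h]
    · simp [h]
  · intro ω _
    refine ENNReal.mul_ne_top ENNReal.ofReal_ne_top ?_
    by_cases h : A ω <;> simp [h]

private theorem prR_cont {V : Type} [DecidableEq V] (E : Finset (Sym2 V))
    (A : Finset (Sym2 V) → Prop) : Continuous fun p : ℝ => (Pr E p A).toReal := by
  classical
  have h : (fun p : ℝ => (Pr E p A).toReal) = fun p =>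
      ∑ ω ∈ E.powerset, max (wt E p ω) 0 * (if A ω then (1 : ℝ) else 0) := by
    funext p
    exact prR_eq E p A
  rw [h]
  unfold wt
  fun_prop

private theorem prR_mono {V : Type} [DecidableEq V] (E : Finset (Sym2 V)) (v x : V) {p p' : ℝ}
    (h0 : 0 ≤ p) (h1 : p ≤ p') (h2 : p' ≤ 1) :
    (Pr E p (fun ω => con ω v x)).toReal ≤ (Pr E p' (fun ω => con ω v x)).toReal := by
  refine ENNReal.toReal_mono ?_ (Pr_mono_p h0 h1 h2 fun ω η h hc => con_mono h hc)
  exact ne_top_of_le_ne_top ENNReal.one_ne_top (Pr_le_one (h0.trans h1) h2 _ _)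

theorem hPhi : StPhi := by
  intro d S
  refine ⟨?_, ?_⟩
  · apply Continuous.continuousOn
    unfold phiS
    refine continuous_id.mul (continuous_finsetSum _ fun x _ => ?_)
    exact continuous_const.mul (prR_cont _ _)
  · intro p p' h0 h1 h2
    unfold phiS
    refine mul_le_mul h1 (Finset.sum_le_sum fun x _ => ?_) ?_ (h0.trans h1)
    · exact mul_le_mul_of_nonneg_left (prR_mono _ _ _ h0 h1 h2) (Nat.cast_nonneg _)
    · exact Finset.sum_nonneg fun x _ => mul_nonneg (Nat.cast_nonneg _) ENNReal.toReal_nonneg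

theorem hPH (hPhi : StPhi) : StPH := by
  intro d _
  set A : Set ℝ := {p : ℝ | 0 ≤ p ∧ p ≤ 1 / 2 ∧ ∃ S : Finset (Zd d), 0 ∈ S ∧ phiS d p S < 1}
    with hA
  have hpH : pH d = sSup A := rfl
  have hbdd : BddAbove A := ⟨1 / 2, fun p hp => hp.2.1⟩
  -- a positive element
  obtain ⟨p₀, hp₀, hp₀A⟩ : ∃ p₀ : ℝ, 0 < p₀ ∧ p₀ ∈ A := by
    set N : ℕ := (nb (0 : Zd d) \ {0}).card with hN
    have hN0 : (0 : ℝ) ≤ N := Nat.cast_nonneg N
    have hpos : 0 < 1 / (2 * ((N : ℝ) + 1)) := by positivity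
    have hle : 1 / (2 * ((N : ℝ) + 1)) ≤ 1 / 2 := by
      rw [div_le_div_iff₀ (by positivity) (by norm_num)]
      linarith
    refine ⟨1 / (2 * ((N : ℝ) + 1)), hpos, hpos.le, hle, {0}, Finset.mem_singleton_self _, ?_⟩
    have h1 : (Pr (ES ({0} : Finset (Zd d))) (1 / (2 * ((N : ℝ) + 1)))
        (fun ω => con ω 0 0)).toReal ≤ 1 := by
      have := ENNReal.toReal_mono ENNReal.one_ne_top (Pr_le_one hpos.le (hle.trans (by norm_num))
        (ES ({0} : Finset (Zd d))) (fun ω => con ω 0 0))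
      simpa using this
    unfold phiS
    rw [Finset.sum_singleton, ← hN]
    calc 1 / (2 * ((N : ℝ) + 1)) * ((N : ℝ) * (Pr (ES ({0} : Finset (Zd d)))
          (1 / (2 * ((N : ℝ) + 1))) (fun ω => con ω 0 0)).toReal)
        ≤ 1 / (2 * ((N : ℝ) + 1)) * ((N : ℝ) * 1) :=
          mul_le_mul_of_nonneg_left (mul_le_mul_of_nonneg_left h1 hN0) hpos.le
      _ < 1 := by
          rw [mul_one, div_mul_eq_mul_div, one_mul, div_lt_one (by positivity)]
          linarith
  refine ⟨?_, ?_, ?_, ?_⟩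
  · rw [hpH]
    exact hp₀.trans_le (le_csSup hbdd hp₀A)
  · rw [hpH]
    exact csSup_le ⟨p₀, hp₀A⟩ fun p hp => hp.2.1
  · intro p h0 h1
    rw [hpH] at h1
    obtain ⟨p', ⟨_, h2, S, hS, h3⟩, h4⟩ := exists_lt_of_lt_csSup ⟨p₀, hp₀A⟩ h1
    exact ⟨S, hS, ((hPhi d S).2 p p' h0 h4.le (by linarith)).trans_lt h3⟩
  · intro hlt p h1 h2 S hS
    have hpH0 : 0 < pH d := by
      rw [hpH]; exact hp₀.trans_le (le_csSup hbdd hp₀A)
    by_contra hcon
    push Not at hcon
    rcases h1.lt_or_eq with h3 | h3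
    · have h4 : p ∈ A := ⟨hpH0.le.trans h1, h2, S, hS, hcon⟩
      exact absurd (le_csSup hbdd h4) (not_le.2 h3)
    · -- continuity
      have hc := (hPhi d S).1 (pH d) ⟨hpH0.le, by linarith⟩
      have hev : ∀ᶠ q in 𝓝[Set.Icc 0 1] (pH d), phiS d q S < 1 := by
        refine hc.eventually (gt_mem_nhds ?_)
        show phiS d (pH d) S < 1
        rw [h3]; exact hcon
      rw [eventually_nhdsWithin_iff] at hev
      obtain ⟨ε, hε, hball⟩ := Metric.eventually_nhds_iff.1 hev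
      have hε2 : 0 < min (ε / 2) (1 / 2 - pH d) := lt_min (by linarith) (by linarith)
      have h5 : phiS d (pH d + min (ε / 2) (1 / 2 - pH d)) S < 1 := by
        apply hball
        · rw [Real.dist_eq, add_sub_cancel_left, abs_of_pos hε2]
          exact (min_le_left _ _).trans_lt (by linarith)
        · exact ⟨by linarith, by linarith [min_le_right (ε / 2) (1 / 2 - pH d)]⟩
      have h6 : pH d + min (ε / 2) (1 / 2 - pH d) ∈ A :=
        ⟨by linarith, by linarith [min_le_right (ε / 2) (1 / 2 - pH d)], S, hS, h5⟩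
      have h7 := le_csSup hbdd h6
      rw [← hpH] at h7
      linarith

end Pool.LE
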