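import Pool.Agent.Helper84.LE.St2

/-!
# LE module Qw: the quadratic weight
-/

set_option autoImplicit false
open scoped BigOperators Polynomial
open Polynomial

namespace Pool.LE

namespace QwAux

variable {d : ℕ}

theorem sq_nonneg' (x : Zd d) : 0 ≤ sq x := Finset.sum_nonneg fun i _ => sq_nonneg _

theorem sq_add_le (x y : Zd d) : sq (x + y) ≤ 2 * sq x + 2 * sq y := by
  unfold sq
  rw [Finset.mul_sum, Finset.mul_sum, ← Finset.sum_add_distrib]
  refine Finset.sum_le_sum fun i _ => ?_
  rw [Pi.add_apply]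
  push_cast
  nlinarith [sq_nonneg ((x i : ℝ) - y i)]

theorem sq_neg (x : Zd d) : sq (-x) = sq x := by
  unfold sq
  refine Finset.sum_congr rfl fun i _ => ?_
  rw [Pi.neg_apply]
  push_cast
  ring

theorem sq_single (i : Fin d) : sq (Pi.single i (1 : ℤ) : Zd d) = 1 := by
  unfold sq
  rw [Finset.sum_eq_single i]
  · simp
  · intro j _ hj
    simp [Pi.single_eq_of_ne hj]
  · intro h
    exact absurd (Finset.mem_univ i) h

theorem sq_nb {x b : Zd d} (h : b ∈ nb x) : sq (b - x) = 1 := by
  unfold nb at h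
  rw [Finset.mem_union, Finset.mem_image, Finset.mem_image] at h
  rcases h with ⟨i, -, rfl⟩ | ⟨i, -, rfl⟩
  · rw [add_sub_cancel_left, sq_single]
  · have : x - Pi.single i (1 : ℤ) - x = -(Pi.single i (1 : ℤ)) := by abel
    rw [this, sq_neg, sq_single]

end QwAux

open QwAux in
theorem hQw : StQw := by
  intro d
  refine ⟨fun x => ?_, fun x y => ?_, fun x => ?_, fun x b h => ?_⟩
  · have := sq_nonneg' x
    unfold Qw
    linarith
  · have h1 := sq_nonneg' x
    have h2 := sq_nonneg' y
    have h3 := sq_add_le x y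
    unfold Qw
    nlinarith [mul_nonneg h1 h2]
  · unfold Qw
    rw [sq_neg]
  · unfold Qw
    rw [sq_nb h]
    norm_num

end Pool.LE
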