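import Pool.Agent.Helper84.LE.M_RW0

/-! LE module RW (plan 5). -/

set_option autoImplicit false
open scoped BigOperators ENNReal
open MeasureTheory

namespace Pool.LE

namespace RWM

theorem abs_Dh_le {d : ℕ} (hd : 0 < d) (k : Fin d → ℝ) : |Dh k| ≤ 1 := by
  have hd' : (0 : ℝ) < d := by exact_mod_cast hd
  unfold Dh
  rw [abs_div, abs_of_pos hd', div_le_one hd']
  calc |∑ i, Real.cos (k i)| ≤ ∑ i, |Real.cos (k i)| := Finset.abs_sum_le_sum_abs _ _
    _ ≤ ∑ _i : Fin d, (1 : ℝ) := Finset.sum_le_sum fun i _ => Real.abs_cos_le_one _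
    _ = d := by simp

theorem Dh_lt_one {d : ℕ} (hd : 0 < d) (k : Fin d → ℝ) (hk : ∀ i, Real.cos (k i) ≠ 1) : Dh k < 1 := by
  have hd' : (0 : ℝ) < d := by exact_mod_cast hd
  unfold Dh
  rw [div_lt_one hd']
  calc ∑ i, Real.cos (k i) < ∑ _i : Fin d, (1 : ℝ) := by
        refine Finset.sum_lt_sum_of_nonempty ⟨⟨0, hd⟩, Finset.mem_univ _⟩ fun i _ => ?_
        exact lt_of_le_of_ne (Real.cos_le_one _) (hk i)
    _ = d := by simp

theorem inv_le {D lam : ℝ} (n : ℕ) (hD : D < 1) (hD' : -1 ≤ D) (h0 : 0 ≤ lam) (h1 : lam < 1) :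
    ((1 - lam * D) ^ n)⁻¹ ≤ 2 ^ n * ((1 - D) ^ n)⁻¹ := by
  have h2 : (1 - D) / 2 ≤ 1 - lam * D := by
    rcases le_total 0 D with h | h
    · have : lam * D ≤ D := by nlinarith
      linarith
    · have : lam * D ≤ 0 := mul_nonpos_of_nonneg_of_nonpos h0 h
      linarith
  have h3 : 0 < (1 - D) / 2 := by linarith
  have h4 : ((1 - D) / 2) ^ n ≤ (1 - lam * D) ^ n := pow_le_pow_left₀ h3.le h2 n
  refine (inv_anti₀ (pow_pos h3 n) h4).trans (le_of_eq ?_)
  rw [div_pow, inv_div, div_eq_mul_inv]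

theorem ae_good {d : ℕ} : ∀ᵐ k ∂(muT d), ∀ i, Real.cos (k i) ≠ 1 := by
  haveI := RW0M.nu_finite
  unfold muT
  rw [ae_all_iff]
  intro i
  have h2 : Filter.Tendsto (Function.eval i) (ae (Measure.pi fun _ : Fin d => nu)) (ae nu) :=
    Measure.tendsto_eval_ae_ae (μ := fun _ : Fin d => nu) (i := i)
  exact h2.eventually RW0M.ae_cos

theorem measurable_Dh {d : ℕ} : Measurable (Dh : (Fin d → ℝ) → ℝ) := by
  unfold Dh
  exact (Finset.measurable_sum _ fun i _ =>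
    Real.measurable_cos.comp (measurable_pi_apply i)).div_const _

/-- the first integral -/
theorem first (h0 : StRW0) (h1 : StRW1) {m d₁ d : ℕ} (hm : 2 * m < d₁) (hd : d₁ ≤ d)
    {lam : ℝ} (hl0 : 0 ≤ lam) (hl1 : lam < 1) :
    ∫⁻ k, ENNReal.ofReal (((1 - lam * Dh k) ^ m)⁻¹) ∂(muT d) ≤
      2 ^ m * (∫⁻ t, ENNReal.ofReal ((1 - Real.cos t) ^ (-((m : ℝ) / d₁))) ∂nu) ^ d₁ := by
  have hd₁ : 0 < d₁ := by omega
  have hd0 : 0 < d := by omega
  calc ∫⁻ k, ENNReal.ofReal (((1 - lam * Dh k) ^ m)⁻¹) ∂(muT d)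
      ≤ ∫⁻ k, 2 ^ m * ENNReal.ofReal (((1 - Dh k) ^ m)⁻¹) ∂(muT d) := by
        refine lintegral_mono_ae ?_
        filter_upwards [ae_good (d := d)] with k hk
        have h2 := inv_le m (Dh_lt_one hd0 k hk) (neg_le_of_abs_le (abs_Dh_le hd0 k)) hl0 hl1
        have h3 : (2 : ENNReal) ^ m = ENNReal.ofReal (2 ^ m) := by
          rw [ENNReal.ofReal_pow (by norm_num)]
          norm_num
        rw [h3, ← ENNReal.ofReal_mul (by positivity)]
        exact ENNReal.ofReal_le_ofReal h2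
    _ = 2 ^ m * ∫⁻ k, ENNReal.ofReal (((1 - Dh k) ^ m)⁻¹) ∂(muT d) :=
        lintegral_const_mul' _ _ (ENNReal.pow_ne_top (by norm_num))
    _ ≤ 2 ^ m * (∫⁻ t, ENNReal.ofReal ((1 - Real.cos t) ^ (-((m : ℝ) / d))) ∂nu) ^ d :=
        mul_le_mul' le_rfl (h0 m d (by omega))
    _ ≤ _ := mul_le_mul' le_rfl (h1 m d₁ d hd₁ hd)

end RWM

open RWM in
theorem hRW (h0 : StRW0) (h1 : StRW1) (h2 : StDh2) (hc : StCos1) (_hN : StNuProb) : StRW := by
  intro n
  set d₁ : ℕ := 4 * n + 1 with hd₁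
  have hd₁' : (0 : ℝ) < d₁ := by rw [hd₁]; positivity
  have hfin : ∀ m : ℕ, 2 * m < d₁ →
      (2 : ENNReal) ^ m * (∫⁻ t, ENNReal.ofReal ((1 - Real.cos t) ^ (-((m : ℝ) / d₁))) ∂nu) ^ d₁ ≠ ⊤ := by
    intro m hm
    refine ENNReal.mul_ne_top (ENNReal.pow_ne_top (by norm_num)) (ENNReal.pow_ne_top ?_)
    refine (hc ((m : ℝ) / d₁) (by positivity) ?_).ne
    rw [div_lt_iff₀ hd₁']
    have : (2 * m : ℝ) < d₁ := by exact_mod_cast hm
    linarith
  set A : ENNReal := 2 ^ n * (∫⁻ t, ENNReal.ofReal ((1 - Real.cos t) ^ (-((n : ℝ) / d₁))) ∂nu) ^ d₁ with hA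
  set M : ENNReal := 2 ^ (2 * n) *
    (∫⁻ t, ENNReal.ofReal ((1 - Real.cos t) ^ (-(((2 * n : ℕ) : ℝ) / d₁))) ∂nu) ^ d₁ with hM
  have hA' : A ≠ ⊤ := hfin n (by omega)
  have hM' : M ≠ ⊤ := hfin (2 * n) (by omega)
  refine ⟨1 + A.toReal + Real.sqrt M.toReal, by positivity, d₁, fun d hd lam hl0 hl1 => ?_⟩
  have hd0 : 0 < d := by omega
  have hd' : (0 : ℝ) < d := by exact_mod_cast hd0
  constructor
  · refine (first h0 h1 (by omega) hd hl0 hl1).trans ?_
    rw [← hA, ← ENNReal.ofReal_toReal hA']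
    refine ENNReal.ofReal_le_ofReal ?_
    rw [ENNReal.toReal_ofReal ENNReal.toReal_nonneg]
    have := Real.sqrt_nonneg M.toReal
    linarith
  · have hmD : Measurable fun k : Fin d → ℝ => ENNReal.ofReal |Dh k| :=
      ENNReal.measurable_ofReal.comp (measurable_norm.comp measurable_Dh)
    have hmG : Measurable fun k : Fin d → ℝ => ENNReal.ofReal (((1 - lam * Dh k) ^ n)⁻¹) :=
      ENNReal.measurable_ofReal.comp
        (((measurable_const.sub (measurable_const.mul measurable_Dh)).pow_const _).inv)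
    have hCS := ENNReal.lintegral_mul_le_Lp_mul_Lq (muT d) Real.HolderConjugate.two_two
      hmD.aemeasurable hmG.aemeasurable
    have hpos : ∀ k : Fin d → ℝ, 0 ≤ 1 - lam * Dh k := by
      intro k
      have h3 := abs_Dh_le hd0 k
      have h4 : lam * Dh k ≤ 1 := by
        calc lam * Dh k ≤ |lam * Dh k| := le_abs_self _
          _ = lam * |Dh k| := by rw [abs_mul, abs_of_nonneg hl0]
          _ ≤ 1 * 1 := mul_le_mul hl1.le h3 (abs_nonneg _) (by norm_num)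
          _ = 1 := one_mul 1
      linarith
    have e1 : (∫⁻ k, (ENNReal.ofReal |Dh k|) ^ (2 : ℝ) ∂(muT d)) = ENNReal.ofReal (1 / (2 * d)) := by
      rw [← h2 d hd0]
      refine lintegral_congr fun k => ?_
      rw [ENNReal.ofReal_rpow_of_nonneg (abs_nonneg _) (by norm_num), Real.rpow_two, sq_abs]
    have e2 : (∫⁻ k, (ENNReal.ofReal (((1 - lam * Dh k) ^ n)⁻¹)) ^ (2 : ℝ) ∂(muT d)) ≤ M := by
      have e3 : ∀ k : Fin d → ℝ, (ENNReal.ofReal (((1 - lam * Dh k) ^ n)⁻¹)) ^ (2 : ℝ) =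
          ENNReal.ofReal (((1 - lam * Dh k) ^ (2 * n))⁻¹) := by
        intro k
        rw [ENNReal.ofReal_rpow_of_nonneg (inv_nonneg.2 (pow_nonneg (hpos k) n)) (by norm_num),
          Real.rpow_two, inv_pow, ← pow_mul, mul_comm n 2]
      rw [lintegral_congr e3]
      exact first h0 h1 (by omega) hd hl0 hl1
    have e4 : ∀ k : Fin d → ℝ, ENNReal.ofReal (|Dh k| * ((1 - lam * Dh k) ^ n)⁻¹) =
        ((fun k : Fin d → ℝ => ENNReal.ofReal |Dh k|) *
          fun k : Fin d → ℝ => ENNReal.ofReal (((1 - lam * Dh k) ^ n)⁻¹)) k := by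
      intro k
      rw [Pi.mul_apply, ← ENNReal.ofReal_mul (abs_nonneg _)]
    rw [lintegral_congr e4]
    refine hCS.trans ?_
    calc (∫⁻ k, (ENNReal.ofReal |Dh k|) ^ (2 : ℝ) ∂(muT d)) ^ (1 / (2 : ℝ)) *
          (∫⁻ k, (ENNReal.ofReal (((1 - lam * Dh k) ^ n)⁻¹)) ^ (2 : ℝ) ∂(muT d)) ^ (1 / (2 : ℝ))
        ≤ (ENNReal.ofReal (1 / (2 * d))) ^ (1 / (2 : ℝ)) * M ^ (1 / (2 : ℝ)) := by
          refine mul_le_mul' (le_of_eq (by rw [e1])) (ENNReal.rpow_le_rpow e2 (by norm_num))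
      _ = ENNReal.ofReal (Real.sqrt (1 / (2 * d)) * Real.sqrt M.toReal) := by
          conv_lhs => rw [← ENNReal.ofReal_toReal hM']
          rw [ENNReal.ofReal_rpow_of_nonneg (by positivity) (by norm_num),
            ENNReal.ofReal_rpow_of_nonneg ENNReal.toReal_nonneg (by norm_num),
            ← ENNReal.ofReal_mul (by positivity), Real.sqrt_eq_rpow, Real.sqrt_eq_rpow]
      _ ≤ ENNReal.ofReal ((1 + A.toReal + Real.sqrt M.toReal) / Real.sqrt d) := by
          refine ENNReal.ofReal_le_ofReal ?_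
          have h5 : Real.sqrt (1 / (2 * d)) ≤ 1 / Real.sqrt d := by
            rw [← Real.sqrt_one, ← Real.sqrt_div (by norm_num), Real.sqrt_one]
            refine Real.sqrt_le_sqrt ?_
            rw [div_le_div_iff₀ (by positivity) hd']
            nlinarith
          have h6 : 0 ≤ A.toReal := ENNReal.toReal_nonneg
          calc Real.sqrt (1 / (2 * d)) * Real.sqrt M.toReal ≤ 1 / Real.sqrt d * Real.sqrt M.toReal :=
                mul_le_mul_of_nonneg_right h5 (Real.sqrt_nonneg _)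
            _ = Real.sqrt M.toReal / Real.sqrt d := by ring
            _ ≤ (1 + A.toReal + Real.sqrt M.toReal) / Real.sqrt d := by
                refine div_le_div_of_nonneg_right ?_ (Real.sqrt_nonneg _)
                linarith

end Pool.LE
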