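import Pool.Agent.Helper84.LE.St3

/-! LE module RW0 (plan 5). -/

set_option autoImplicit false
open scoped BigOperators ENNReal
open MeasureTheory

namespace Pool.LE

namespace RW0M

theorem nu_finite : IsFiniteMeasure nu := by
  refine ⟨?_⟩
  unfold nu
  rw [Measure.smul_apply, Measure.restrict_apply_univ, Real.volume_Ioc, smul_eq_mul]
  exact ENNReal.mul_lt_top ENNReal.ofReal_lt_top ENNReal.ofReal_lt_top

theorem ae_cos : ∀ᵐ t ∂nu, Real.cos t ≠ 1 := by
  have h1 : {t : ℝ | Real.cos t = 1}.Countable := by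
    have h2 : {t : ℝ | Real.cos t = 1} ⊆ Set.range (fun n : ℤ => (n : ℝ) * (2 * Real.pi)) := by
      intro t ht
      obtain ⟨n, hn⟩ := (Real.cos_eq_one_iff t).1 ht
      exact ⟨n, hn⟩
    exact (Set.countable_range _).mono h2
  have h3 : volume {t : ℝ | Real.cos t = 1} = 0 := h1.measure_zero _
  have h4 : nu {t : ℝ | Real.cos t = 1} = 0 := by
    unfold nu
    rw [Measure.smul_apply]
    have h5 : (volume.restrict (Set.Ioc (-Real.pi) Real.pi)) {t : ℝ | Real.cos t = 1} = 0 :=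
      le_antisymm ((Measure.restrict_apply_le _ _).trans (le_of_eq h3)) bot_le
    rw [h5, smul_zero]
  rw [ae_iff]
  simpa using h4

theorem lint_prod {f : ℝ → ENNReal} (hf : Measurable f) (d : ℕ) :
    ∫⁻ k : Fin d → ℝ, ∏ i, f (k i) ∂(Measure.pi fun _ => nu) = (∫⁻ t, f t ∂nu) ^ d := by
  haveI := nu_finite
  induction d with
  | zero =>
    simp
  | succ d ih =>
    have h1 := ((measurePreserving_piFinSuccAbove (fun _ : Fin (d + 1) => nu) 0).symm)
    rw [← h1.lintegral_comp_emb (MeasurableEquiv.measurableEmbedding _)]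
    have h2 : ∀ a : ℝ × (Fin d → ℝ),
        (∏ i, f (((MeasurableEquiv.piFinSuccAbove (fun _ : Fin (d + 1) => ℝ) 0).symm a) i)) =
          f a.1 * ∏ i : Fin d, f (a.2 i) := by
      intro a
      rw [Fin.prod_univ_succ]
      rfl
    have h3 : (∫⁻ a : ℝ × (Fin d → ℝ),
        (∏ i, f (((MeasurableEquiv.piFinSuccAbove (fun _ : Fin (d + 1) => ℝ) 0).symm a) i))
          ∂(nu.prod (Measure.pi fun _ : Fin d => nu))) =
        ∫⁻ a : ℝ × (Fin d → ℝ), f a.1 * (∏ i : Fin d, f (a.2 i))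
          ∂(nu.prod (Measure.pi fun _ : Fin d => nu)) := lintegral_congr h2
    refine h3.trans ?_
    have h4 : Measurable fun b : Fin d → ℝ => ∏ i : Fin d, f (b i) :=
      Finset.measurable_prod _ fun i _ => hf.comp (measurable_pi_apply i)
    rw [lintegral_prod_mul hf.aemeasurable h4.aemeasurable, ih, pow_succ, mul_comm]

/-- the pointwise inequality -/
theorem pointwise {n d : ℕ} (hd : 0 < d) (k : Fin d → ℝ) (hk : ∀ i, Real.cos (k i) ≠ 1) :
    ((1 - Dh k) ^ n)⁻¹ ≤ ∏ i, (1 - Real.cos (k i)) ^ (-((n : ℝ) / d)) := by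
  have hd' : (0 : ℝ) < d := by exact_mod_cast hd
  have hz : ∀ i, 0 < 1 - Real.cos (k i) := by
    intro i
    have h1 := Real.cos_le_one (k i)
    have h2 := lt_of_le_of_ne h1 (hk i)
    linarith
  have h1 := Real.geom_mean_le_arith_mean_weighted Finset.univ (fun _ : Fin d => (1 : ℝ) / d)
    (fun i => 1 - Real.cos (k i)) (fun i _ => by positivity)
    (by rw [Finset.sum_const, Finset.card_univ, Fintype.card_fin, nsmul_eq_mul]; field_simp)
    (fun i _ => (hz i).le)
  have h2 : ∑ i : Fin d, (1 : ℝ) / d * (1 - Real.cos (k i)) = 1 - Dh k := by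
    unfold Dh
    rw [← Finset.mul_sum, Finset.sum_sub_distrib, Finset.sum_const, Finset.card_univ,
      Fintype.card_fin, nsmul_eq_mul]
    field_simp
  rw [h2] at h1
  have h3 : 0 < ∏ i : Fin d, (1 - Real.cos (k i)) ^ ((1 : ℝ) / d) :=
    Finset.prod_pos fun i _ => Real.rpow_pos_of_pos (hz i) _
  have h4 : (∏ i : Fin d, (1 - Real.cos (k i)) ^ ((1 : ℝ) / d)) ^ n ≤ (1 - Dh k) ^ n :=
    pow_le_pow_left₀ h3.le h1 n
  have h5 : ((1 - Dh k) ^ n)⁻¹ ≤ ((∏ i : Fin d, (1 - Real.cos (k i)) ^ ((1 : ℝ) / d)) ^ n)⁻¹ :=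
    inv_anti₀ (pow_pos h3 n) h4
  refine h5.trans (le_of_eq ?_)
  rw [← Finset.prod_pow, ← Finset.prod_inv_distrib]
  refine Finset.prod_congr rfl fun i _ => ?_
  rw [← Real.rpow_natCast, ← Real.rpow_mul (hz i).le, ← Real.rpow_neg (hz i).le]
  congr 1
  ring

end RW0M

open RW0M in
theorem hRW0 : StRW0 := by
  intro n d hnd
  have hd : 0 < d := by omega
  haveI := nu_finite
  have hmeas : Measurable fun t : ℝ => ENNReal.ofReal ((1 - Real.cos t) ^ (-((n : ℝ) / d))) := by
    refine ENNReal.measurable_ofReal.comp ?_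
    exact (measurable_const.sub Real.measurable_cos).pow_const _
  rw [← lint_prod hmeas d]
  unfold muT
  refine lintegral_mono_ae ?_
  have h1 : ∀ᵐ k ∂(Measure.pi fun _ : Fin d => nu), ∀ i, Real.cos (k i) ≠ 1 := by
    rw [ae_all_iff]
    intro i
    have h2 : Filter.Tendsto (Function.eval i) (ae (Measure.pi fun _ : Fin d => nu)) (ae nu) :=
      Measure.tendsto_eval_ae_ae (μ := fun _ : Fin d => nu) (i := i)
    exact h2.eventually ae_cos
  filter_upwards [h1] with k hk
  rw [← ENNReal.ofReal_prod_of_nonneg]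
  · exact ENNReal.ofReal_le_ofReal (pointwise hd k hk)
  · intro i _
    exact Real.rpow_nonneg (by linarith [Real.cos_le_one (k i)]) _

end Pool.LE
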