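import Pool.Agent.Helper84.LE.St3

/-! LE module RW1 (plan 5). -/

set_option autoImplicit false
open scoped BigOperators ENNReal
open MeasureTheory

namespace Pool.LE

namespace RW1M

/-- Jensen for concave powers on a probability space -/
theorem lint_rpow_le {μ : Measure ℝ} [IsProbabilityMeasure μ] {Y : ℝ → ENNReal} (hY : Measurable Y)
    {θ : ℝ} (h0 : 0 < θ) (h1 : θ ≤ 1) : ∫⁻ t, Y t ^ θ ∂μ ≤ (∫⁻ t, Y t ∂μ) ^ θ := by
  rcases eq_or_lt_of_le h1 with h | h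
  · subst h
    simp
  · have hp : 1 < 1 / θ := by
      rw [lt_div_iff₀ h0]
      linarith
    have hpq := Real.HolderConjugate.conjExponent hp
    have h2 := ENNReal.lintegral_mul_le_Lp_mul_Lq μ hpq (f := fun t => Y t ^ θ) (g := fun _ => 1)
      (hY.pow_const θ).aemeasurable aemeasurable_const
    have h3 : ∀ t, (Y t ^ θ) ^ (1 / θ) = Y t := by
      intro t
      rw [← ENNReal.rpow_mul, mul_one_div_cancel h0.ne', ENNReal.rpow_one]
    simp only [Pi.mul_apply, mul_one, h3, ENNReal.one_rpow, lintegral_const, measure_univ,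
      one_div_one_div] at h2
    exact h2

end RW1M

open RW1M in
theorem hRW1 (hN : StNuProb) : StRW1 := by
  intro n d₁ d hd₁ hd
  haveI := hN.1
  have hd0 : 0 < d := lt_of_lt_of_le hd₁ hd
  have hd' : (0 : ℝ) < d := by exact_mod_cast hd0
  have hd₁' : (0 : ℝ) < d₁ := by exact_mod_cast hd₁
  have hdd : (d₁ : ℝ) ≤ d := by exact_mod_cast hd
  have hθ0 : (0 : ℝ) < (d₁ : ℝ) / d := div_pos hd₁' hd'
  have hθ1 : (d₁ : ℝ) / d ≤ 1 := (div_le_one hd').2 hdd
  set Y : ℝ → ENNReal := fun t => ENNReal.ofReal ((1 - Real.cos t) ^ (-((n : ℝ) / d₁))) with hYdef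
  have hY : Measurable Y := by
    refine ENNReal.measurable_ofReal.comp ?_
    exact (measurable_const.sub Real.measurable_cos).pow_const _
  have h1 : ∀ t : ℝ, ENNReal.ofReal ((1 - Real.cos t) ^ (-((n : ℝ) / d))) =
      Y t ^ ((d₁ : ℝ) / d) := by
    intro t
    have hx : 0 ≤ 1 - Real.cos t := by linarith [Real.cos_le_one t]
    rw [hYdef]
    simp only
    rw [ENNReal.ofReal_rpow_of_nonneg (Real.rpow_nonneg hx _) hθ0.le, ← Real.rpow_mul hx]
    congr 2
    field_simp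
  have h2 : ∫⁻ t, ENNReal.ofReal ((1 - Real.cos t) ^ (-((n : ℝ) / d))) ∂nu ≤
      (∫⁻ t, Y t ∂nu) ^ ((d₁ : ℝ) / d) := by
    rw [lintegral_congr h1]
    exact lint_rpow_le hY hθ0 hθ1
  calc (∫⁻ t, ENNReal.ofReal ((1 - Real.cos t) ^ (-((n : ℝ) / d))) ∂nu) ^ d
      ≤ ((∫⁻ t, Y t ∂nu) ^ ((d₁ : ℝ) / d)) ^ d := pow_le_pow_left' h2 d
    _ = (∫⁻ t, Y t ∂nu) ^ d₁ := by
        rw [← ENNReal.rpow_natCast, ← ENNReal.rpow_mul, div_mul_cancel₀ _ hd'.ne',
          ENNReal.rpow_natCast]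

end Pool.LE
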