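import Pool.Agent.Helper84.LE.St1
import Pool.Agent.Helper84.LE.BKP

/-! LE module Rec (plan 3.10). -/

set_option autoImplicit false
open scoped BigOperators ENNReal

namespace Pool.LE

namespace RecM

variable {V : Type} [DecidableEq V]

/-- weighted mass of `Psi` -/
noncomputable def psi (nbf : V → Finset V) (q₀ : ENNReal) (T q : V → V → ENNReal) (N : ℕ) (s v : V) :
    ENNReal := ∑' x : V, q v x * Psi nbf q₀ T N s v x

theorem one_le_K {T K q : V → V → ENNReal} {B : ENNReal} (h : WK T K q B) (x : V) : 1 ≤ K x x :=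
  calc (1 : ENNReal) = 1 * 1 := (one_mul 1).symm
    _ ≤ q x x * T x x := mul_le_mul' (h.one_le_q x x) (h.one_le_T x)
    _ ≤ K x x := h.le_K x x

theorem T_le_K {T K q : V → V → ENNReal} {B : ENNReal} (h : WK T K q B) (x y : V) : T x y ≤ K x y :=
  calc T x y = 1 * T x y := (one_mul _).symm
    _ ≤ q x y * T x y := mul_le_mul' (h.one_le_q x y) le_rfl
    _ ≤ K x y := h.le_K x y

theorem T_le_B {T K q : V → V → ENNReal} {B : ENNReal} (h : WK T K q B) (x y : V) : T x y ≤ B := by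
  refine (T_le_K h x y).trans (le_trans ?_ (h.le_B x y))
  have h1 := kp_le_kp (one_le_K h) (show 1 ≤ 32 by norm_num) x y
  rwa [kp_one] at h1

theorem q4 {T K q : V → V → ENNReal} {B : ENNReal} (h : WK T K q B) {nbf : V → Finset V}
    (h4 : ∀ u, ∀ b ∈ nbf u, q u b ≤ 4) (v x u b : V) (hb : b ∈ nbf u) :
    q v x ≤ 4 * q v u * q b x := by
  calc q v x ≤ q v u * q u x := h.q_mul v u x
    _ ≤ q v u * (q u b * q b x) := mul_le_mul' le_rfl (h.q_mul u b x)
    _ ≤ q v u * (4 * q b x) := mul_le_mul' le_rfl (mul_le_mul' (h4 u b hb) le_rfl)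
    _ = 4 * q v u * q b x := by ring

theorem psi_zero {T K q : V → V → ENNReal} {B : ENNReal} (h : WK T K q B) (nbf : V → Finset V)
    (q₀ : ENNReal)
    (hM : ∀ v s : V, ∑' u : V, ∑' w : V, q v u * core T v s u w ≤ 540 * B ^ 2 * kp K 24 v s) (s v : V) :
    psi nbf q₀ T q 0 s v ≤ 2 * B * (540 * B ^ 2 * kp K 24 v s) := by
  unfold psi
  have h1 : ∀ x : V, q v x * Psi nbf q₀ T 0 s v x ≤ 2 * B * ∑' w : V, q v x * core T v s x w := by
    intro x
    show q v x * (2 * ∑' w : V, core T v s x w * T w v) ≤ _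
    rw [ENNReal.tsum_mul_left]
    have h2 : (∑' w : V, core T v s x w * T w v) ≤ (∑' w : V, core T v s x w) * B := by
      rw [← ENNReal.tsum_mul_right]
      exact ENNReal.tsum_le_tsum fun w => mul_le_mul' le_rfl (T_le_B h w v)
    calc q v x * (2 * ∑' w : V, core T v s x w * T w v)
        ≤ q v x * (2 * ((∑' w : V, core T v s x w) * B)) :=
          mul_le_mul' le_rfl (mul_le_mul' le_rfl h2)
      _ = 2 * B * (q v x * ∑' w : V, core T v s x w) := by ring
  calc ∑' x : V, q v x * Psi nbf q₀ T 0 s v x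
      ≤ ∑' x : V, 2 * B * ∑' w : V, q v x * core T v s x w := ENNReal.tsum_le_tsum h1
    _ = 2 * B * ∑' x : V, ∑' w : V, q v x * core T v s x w := ENNReal.tsum_mul_left
    _ ≤ 2 * B * (540 * B ^ 2 * kp K 24 v s) := mul_le_mul' le_rfl (hM v s)

theorem term_le {T K q : V → V → ENNReal} {B : ENNReal} (h : WK T K q B) {nbf : V → Finset V}
    (q₀ : ENNReal) (h4 : ∀ u, ∀ b ∈ nbf u, q u b ≤ 4) (N : ℕ) (s v x : V) :
    q v x * Psi nbf q₀ T (N + 1) s v x ≤
      ∑' u : V, ∑ b ∈ nbf u, ∑' s' : V, ∑' w : V,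
        (16 * q₀ * q v u * (core T v s u w * K w s')) * (q b x * Psi nbf q₀ T N s' b x) := by
  show q v x * (∑' u : V, ∑ b ∈ nbf u, 2 * q₀ * ∑' s' : V,
      2 * (∑' w : V, core T v s u w * T w s') * Psi nbf q₀ T N s' b x) ≤ _
  rw [← ENNReal.tsum_mul_left]
  refine ENNReal.tsum_le_tsum fun u => ?_
  rw [Finset.mul_sum]
  refine Finset.sum_le_sum fun b hb => ?_
  rw [← mul_assoc, ← ENNReal.tsum_mul_left]
  refine ENNReal.tsum_le_tsum fun s' => ?_
  have e1 : q v x * (2 * q₀) * (2 * (∑' w : V, core T v s u w * T w s') * Psi nbf q₀ T N s' b x) =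
      ∑' w : V, (q v x * (2 * q₀) * 2 * Psi nbf q₀ T N s' b x) * (core T v s u w * T w s') := by
    rw [ENNReal.tsum_mul_left]
    ring
  rw [e1]
  refine ENNReal.tsum_le_tsum fun w => ?_
  calc (q v x * (2 * q₀) * 2 * Psi nbf q₀ T N s' b x) * (core T v s u w * T w s')
      ≤ ((4 * q v u * q b x) * (2 * q₀) * 2 * Psi nbf q₀ T N s' b x) * (core T v s u w * K w s') := by
        refine mul_le_mul' ?_ (mul_le_mul' le_rfl (T_le_K h w s'))
        exact mul_le_mul' (mul_le_mul' (mul_le_mul' (q4 h h4 v x u b hb) le_rfl) le_rfl) le_rfl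
    _ = (16 * q₀ * q v u * (core T v s u w * K w s')) * (q b x * Psi nbf q₀ T N s' b x) := by ring

theorem psi_succ {T K q : V → V → ENNReal} {B : ENNReal} (h : WK T K q B) {nbf : V → Finset V}
    (q₀ : ENNReal) (h4 : ∀ u, ∀ b ∈ nbf u, q u b ≤ 4)
    (hM : ∀ v s : V, ∑' u : V, ∑' w : V, q v u * core T v s u w ≤ 540 * B ^ 2 * kp K 24 v s)
    (N : ℕ) (R : ENNReal)
    (hR : ∀ u w : V, ∑ b ∈ nbf u, q₀ * ∑' s' : V, K w s' * psi nbf q₀ T q N s' b ≤ R) (s v : V) :
    psi nbf q₀ T q (N + 1) s v ≤ 16 * R * (540 * B ^ 2 * kp K 24 v s) := by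
  have e1 : psi nbf q₀ T q (N + 1) s v ≤ ∑' x : V, ∑' u : V, ∑ b ∈ nbf u, ∑' s' : V, ∑' w : V,
        (16 * q₀ * q v u * (core T v s u w * K w s')) * (q b x * Psi nbf q₀ T N s' b x) :=
    ENNReal.tsum_le_tsum fun x => term_le h q₀ h4 N s v x
  have e2 : (∑' x : V, ∑' u : V, ∑ b ∈ nbf u, ∑' s' : V, ∑' w : V,
        (16 * q₀ * q v u * (core T v s u w * K w s')) * (q b x * Psi nbf q₀ T N s' b x)) =
      ∑' u : V, ∑ b ∈ nbf u, ∑' s' : V, ∑' w : V,
        (16 * q₀ * q v u * (core T v s u w * K w s')) * psi nbf q₀ T q N s' b := by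
    rw [ENNReal.tsum_comm]
    refine tsum_congr fun u => ?_
    rw [Summable.tsum_finsetSum (fun _ _ => ENNReal.summable)]
    refine Finset.sum_congr rfl fun b _ => ?_
    rw [ENNReal.tsum_comm]
    refine tsum_congr fun s' => ?_
    rw [ENNReal.tsum_comm]
    refine tsum_congr fun w => ?_
    rw [ENNReal.tsum_mul_left]
    rfl
  have e3 : ∀ u : V, (∑ b ∈ nbf u, ∑' s' : V, ∑' w : V,
        (16 * q₀ * q v u * (core T v s u w * K w s')) * psi nbf q₀ T q N s' b) =
      ∑' w : V, (16 * (q v u * core T v s u w)) *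
        ∑ b ∈ nbf u, q₀ * ∑' s' : V, K w s' * psi nbf q₀ T q N s' b := by
    intro u
    have e4 : ∀ b ∈ nbf u, (∑' s' : V, ∑' w : V,
        (16 * q₀ * q v u * (core T v s u w * K w s')) * psi nbf q₀ T q N s' b) =
        ∑' w : V, (16 * (q v u * core T v s u w)) *
          (q₀ * ∑' s' : V, K w s' * psi nbf q₀ T q N s' b) := by
      intro b _
      rw [ENNReal.tsum_comm]
      refine tsum_congr fun w => ?_
      rw [← ENNReal.tsum_mul_left, ← ENNReal.tsum_mul_left]
      refine tsum_congr fun s' => ?_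
      ring
    rw [Finset.sum_congr rfl e4, ← Summable.tsum_finsetSum (fun _ _ => ENNReal.summable)]
    refine tsum_congr fun w => ?_
    rw [Finset.mul_sum]
  rw [e2] at e1
  refine e1.trans ?_
  calc (∑' u : V, ∑ b ∈ nbf u, ∑' s' : V, ∑' w : V,
        (16 * q₀ * q v u * (core T v s u w * K w s')) * psi nbf q₀ T q N s' b)
      = ∑' u : V, ∑' w : V, (16 * (q v u * core T v s u w)) *
        ∑ b ∈ nbf u, q₀ * ∑' s' : V, K w s' * psi nbf q₀ T q N s' b := tsum_congr e3
    _ ≤ ∑' u : V, ∑' w : V, (16 * R) * (q v u * core T v s u w) := by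
        refine ENNReal.tsum_le_tsum fun u => ENNReal.tsum_le_tsum fun w => ?_
        calc _ ≤ (16 * (q v u * core T v s u w)) * R := mul_le_mul' le_rfl (hR u w)
          _ = (16 * R) * (q v u * core T v s u w) := by ring
    _ = (16 * R) * ∑' u : V, ∑' w : V, q v u * core T v s u w := by
        rw [← ENNReal.tsum_mul_left]
        exact tsum_congr fun u => ENNReal.tsum_mul_left
    _ ≤ 16 * R * (540 * B ^ 2 * kp K 24 v s) := mul_le_mul' le_rfl (hM v s)

theorem sum_K {T K q : V → V → ENNReal} {B : ENNReal} (h : WK T K q B) (b w : V) :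
    ∑' s' : V, K w s' * kp K 24 b s' ≤ kp K 32 b w := by
  have e1 : (∑' s' : V, K w s' * kp K 24 b s') = kp K 25 b w := by
    have e2 : kp K 25 = kc (kp K 24) K := by
      have := kp_add K 24 1
      rwa [kp_one] at this
    rw [e2]
    show _ = ∑' z, kp K 24 b z * K z w
    refine tsum_congr fun z => ?_
    rw [h.K_symm w z, mul_comm]
  rw [e1]
  exact kp_le_kp (one_le_K h) (by norm_num) b w

/-- from a bound for `psi N` to a bound for `rho N` -/
theorem rho_le {T K q : V → V → ENNReal} {B : ENNReal} (h : WK T K q B) {nbf : V → Finset V}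
    (q₀ eps : ENNReal) (he : ∀ x y, ∑ b ∈ nbf x, q₀ * kp K 32 b y ≤ eps)
    (N : ℕ) (c : ENNReal) (hc : ∀ s v, psi nbf q₀ T q N s v ≤ c * kp K 24 v s) (u w : V) :
    ∑ b ∈ nbf u, q₀ * ∑' s' : V, K w s' * psi nbf q₀ T q N s' b ≤ c * eps := by
  calc ∑ b ∈ nbf u, q₀ * ∑' s' : V, K w s' * psi nbf q₀ T q N s' b
      ≤ ∑ b ∈ nbf u, c * (q₀ * kp K 32 b w) := by
        refine Finset.sum_le_sum fun b _ => ?_
        have h1 : (∑' s' : V, K w s' * psi nbf q₀ T q N s' b) ≤ c * kp K 32 b w := by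
          calc (∑' s' : V, K w s' * psi nbf q₀ T q N s' b)
              ≤ ∑' s' : V, c * (K w s' * kp K 24 b s') := by
                refine ENNReal.tsum_le_tsum fun s' => ?_
                calc K w s' * psi nbf q₀ T q N s' b ≤ K w s' * (c * kp K 24 b s') :=
                      mul_le_mul' le_rfl (hc s' b)
                  _ = c * (K w s' * kp K 24 b s') := by ring
            _ = c * ∑' s' : V, K w s' * kp K 24 b s' := ENNReal.tsum_mul_left
            _ ≤ c * kp K 32 b w := mul_le_mul' le_rfl (sum_K h b w)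
        calc q₀ * ∑' s' : V, K w s' * psi nbf q₀ T q N s' b ≤ q₀ * (c * kp K 32 b w) :=
              mul_le_mul' le_rfl h1
          _ = c * (q₀ * kp K 32 b w) := by ring
    _ = c * ∑ b ∈ nbf u, q₀ * kp K 32 b w := (Finset.mul_sum _ _ _).symm
    _ ≤ c * eps := mul_le_mul' le_rfl (he u w)

theorem psi_all {T K q : V → V → ENNReal} {B : ENNReal} (h : WK T K q B) {nbf : V → Finset V}
    (q₀ eps : ENNReal) (h4 : ∀ u, ∀ b ∈ nbf u, q u b ≤ 4)
    (he : ∀ x y, ∑ b ∈ nbf x, q₀ * kp K 32 b y ≤ eps)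
    (hM : ∀ v s : V, ∑' u : V, ∑' w : V, q v u * core T v s u w ≤ 540 * B ^ 2 * kp K 24 v s)
    (N : ℕ) : ∀ s v, psi nbf q₀ T q N s v ≤
      (1080 * B ^ 3 * (8640 * B ^ 2 * eps) ^ N) * kp K 24 v s := by
  induction N with
  | zero =>
    intro s v
    refine (psi_zero h nbf q₀ hM s v).trans (le_of_eq ?_)
    ring
  | succ N ih =>
    intro s v
    have h1 := psi_succ h q₀ h4 hM N _ (rho_le h q₀ eps he N _ ih) s v
    refine h1.trans (le_of_eq ?_)
    ring

end RecM

open RecM in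
theorem hRec (hMass : StMass) : StRec := by
  intro V _ T K q B eps q₀ nbf h h4 he N v
  have hM := hMass V T K q B h
  have h1 := psi_all h q₀ eps h4 he hM (N + 1) v v
  have h2 : kp K 24 v v ≤ B :=
    (kp_le_kp (one_le_K h) (show 24 ≤ 32 by norm_num) v v).trans (h.le_B v v)
  calc ∑' x : V, q v x * Psi nbf q₀ T (N + 1) v v x = psi nbf q₀ T q (N + 1) v v := rfl
    _ ≤ (1080 * B ^ 3 * (8640 * B ^ 2 * eps) ^ (N + 1)) * kp K 24 v v := h1
    _ ≤ (1080 * B ^ 3 * (8640 * B ^ 2 * eps) ^ (N + 1)) * B := mul_le_mul' le_rfl h2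
    _ = (9331200 * B ^ 6 * eps) * (8640 * B ^ 2 * eps) ^ N := by ring
    _ ≤ 10 ^ 7 * B ^ 6 * eps * (10 ^ 4 * B ^ 2 * eps) ^ N := by
        refine mul_le_mul' ?_ ?_
        · refine mul_le_mul' (mul_le_mul' ?_ le_rfl) le_rfl
          norm_num
        · refine pow_le_pow_left' ?_ N
          refine mul_le_mul' (mul_le_mul' ?_ le_rfl) le_rfl
          norm_num

end Pool.LE
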