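import Pool.Agent.Helper84.LE.St4
import Pool.Agent.Helper84.LE.BWT

/-! MP_e167eb: Russo's formula (module Russo). -/

set_option autoImplicit false
open scoped BigOperators ENNReal

namespace Pool.LE

theorem russo_Ex_mono {V : Type} [DecidableEq V] {E : Finset (Sym2 V)} {p : ℝ} (h0 : 0 ≤ p)
    (h1 : p ≤ 1) {f g : Finset (Sym2 V) → ℝ} (h : ∀ ω ⊆ E, f ω ≤ g ω) : Ex E p f ≤ Ex E p g := by
  unfold Ex
  refine Finset.sum_le_sum fun ω hω => ?_
  rw [smul_eq_mul, smul_eq_mul]
  exact mul_le_mul_of_nonneg_left (h ω (Finset.mem_powerset.1 hω)) (wt_nonneg h0 h1 E ω)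

open Classical in
/-- indicator of a pivotal closed edge -/
noncomputable def rX {V : Type} [DecidableEq V] (A : Finset (Sym2 V) → Prop) (e : Sym2 V)
    (ω : Finset (Sym2 V)) : ℝ := if ¬ A ω ∧ A (insert e ω) then (1 : ℝ) else 0

open Classical in
/-- indicator -/
noncomputable def rI {V : Type} (A : Finset (Sym2 V) → Prop) (ω : Finset (Sym2 V)) : ℝ :=
  if A ω then (1 : ℝ) else 0

theorem rX_eq {V : Type} [DecidableEq V] {A : Finset (Sym2 V) → Prop}
    (hA : ∀ ω η : Finset (Sym2 V), ω ⊆ η → A ω → A η) (e : Sym2 V) (ω : Finset (Sym2 V)) :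
    rI (fun η => A (insert e η)) ω = rI A ω + rX A e ω := by
  classical
  unfold rI rX
  by_cases h : A ω
  · rw [if_pos h, if_pos (hA _ _ (Finset.subset_insert _ _) h), if_neg (fun h' => h'.1 h), add_zero]
  · by_cases h' : A (insert e ω)
    · rw [if_pos h', if_neg h, if_pos ⟨h, h'⟩, zero_add]
    · rw [if_neg h', if_neg h, if_neg (fun h'' => h' h''.2), zero_add]

theorem rX_nonneg {V : Type} [DecidableEq V] (A : Finset (Sym2 V) → Prop) (e : Sym2 V)
    (ω : Finset (Sym2 V)) : 0 ≤ rX A e ω := by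
  unfold rX
  split_ifs <;> simp

theorem rX_insert_self {V : Type} [DecidableEq V] (A : Finset (Sym2 V) → Prop) (e : Sym2 V)
    (ω : Finset (Sym2 V)) : rX A e (insert e ω) = 0 := by
  unfold rX
  rw [if_neg]
  rintro ⟨h1, h2⟩
  rw [Finset.insert_idem] at h2
  exact h1 h2

theorem rX_insert {V : Type} [DecidableEq V] (A : Finset (Sym2 V) → Prop) (e e' : Sym2 V)
    (ω : Finset (Sym2 V)) : rX A e' (insert e ω) = rX (fun η => A (insert e η)) e' ω := by
  unfold rX
  rw [Finset.insert_comm]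

theorem russo_aux {V : Type} [DecidableEq V] (E : Finset (Sym2 V)) (A : Finset (Sym2 V) → Prop)
    (hA : ∀ ω η : Finset (Sym2 V), ω ⊆ η → A ω → A η) (p : ℝ) (h0 : 0 < p) (h1 : p < 1) :
    ∃ D : ℝ, HasDerivAt (fun q : ℝ => Ex E q (rI A)) D p ∧
      Ex E p (fun ω => ∑ e ∈ E, rX A e ω) ≤ D := by
  induction E using Finset.induction_on generalizing A with
  | empty =>
    refine ⟨0, ?_, ?_⟩
    · have h : (fun q : ℝ => Ex (∅ : Finset (Sym2 V)) q (rI A)) = fun _ => rI A ∅ := by
        funext q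
        simp [Ex, wt]
      rw [h]
      exact hasDerivAt_const _ _
    · simp [Ex]
  | insert e E he ih =>
    have hA1 : ∀ ω η : Finset (Sym2 V), ω ⊆ η → A (insert e ω) → A (insert e η) :=
      fun ω η h hω => hA _ _ (Finset.insert_subset_insert _ h) hω
    obtain ⟨D0, hD0, hE0⟩ := ih A hA
    obtain ⟨D1, hD1, hE1⟩ := ih (fun ω => A (insert e ω)) hA1
    refine ⟨(-1) * Ex E p (rI A) + (1 - p) * D0 +
      (1 * Ex E p (rI (fun ω => A (insert e ω))) + p * D1), ?_, ?_⟩
    · have h : (fun q : ℝ => Ex (insert e E) q (rI A)) =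
          fun q : ℝ => (1 - q) * Ex E q (rI A) + q * Ex E q (rI (fun ω => A (insert e ω))) := by
        funext q
        rw [sum_insert_wt he, smul_eq_mul, smul_eq_mul]
        rfl
      rw [h]
      have h2 : HasDerivAt (fun q : ℝ => 1 - q) (-1) p := by
        exact (hasDerivAt_id' p).const_sub 1
      exact (h2.mul hD0).add ((hasDerivAt_id p).mul hD1)
    · have e1 : Ex E p (fun ω => ∑ e' ∈ insert e E, rX A e' ω) =
          Ex E p (rX A e) + Ex E p (fun ω => ∑ e' ∈ E, rX A e' ω) := by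
        rw [← Ex_add]
        exact Ex_congr fun ω _ => Finset.sum_insert he
      have e2 : Ex E p (fun ω => ∑ e' ∈ insert e E, rX A e' (insert e ω)) =
          Ex E p (fun ω => ∑ e' ∈ E, rX (fun η => A (insert e η)) e' ω) := by
        refine Ex_congr fun ω _ => ?_
        rw [Finset.sum_insert he, rX_insert_self, zero_add]
        exact Finset.sum_congr rfl fun e' _ => rX_insert A e e' ω
      have e3 : Ex E p (rI (fun η => A (insert e η))) = Ex E p (rI A) + Ex E p (rX A e) := by
        rw [← Ex_add]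
        exact Ex_congr fun ω _ => rX_eq hA e ω
      have e4 : 0 ≤ Ex E p (rX A e) := by
        have := russo_Ex_mono (E := E) h0.le h1.le (f := fun _ => 0) (g := rX A e)
          (fun ω _ => rX_nonneg A e ω)
        rwa [Ex_zero] at this
      rw [sum_insert_wt he, e1, e2, smul_eq_mul, smul_eq_mul, e3]
      have k1 : (1 - p) * Ex E p (fun ω => ∑ e' ∈ E, rX A e' ω) ≤ (1 - p) * D0 :=
        mul_le_mul_of_nonneg_left hE0 (by linarith)
      have k2 : p * Ex E p (fun ω => ∑ e' ∈ E, rX (fun η => A (insert e η)) e' ω) ≤ p * D1 :=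
        mul_le_mul_of_nonneg_left hE1 h0.le
      have k3 : 0 ≤ p * Ex E p (rX A e) := mul_nonneg h0.le e4
      nlinarith [k1, k2, k3]

/-- **Russo's formula** -/
theorem hRusso : StRusso := by
  intro V _ E A hA p h0 h1
  exact russo_aux E A hA p h0 h1

end Pool.LE
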