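import Pool.Agent.Helper84.LE.St3

/-! Statements, part 5: bootstrap and the critical point (plan sections 7 and 8). -/

set_option autoImplicit false
open scoped BigOperators Topology
open MeasureTheory Filter

namespace Pool.LE

/-! ### facts of section 6 which are used here -/

/-- plan 6.1 -/
def StS6a : Prop := ∀ (d : ℕ) (p : ℝ), 0 < d → 0 ≤ p → p < pH d → SumQ (tau d p)

/-- plan 6.1, continuity into `ℓ¹(Q)` -/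
def StS6b : Prop := ∀ (d : ℕ) (p₀ : ℝ), 0 < d → 0 ≤ p₀ → p₀ < pH d →
  Tendsto (fun p => nQ (fun x => tau d p x - tau d p₀ x)) (𝓝[Set.Ico 0 (pH d)] p₀) (𝓝 0)

/-- plan 6.2 -/
def StS6c : Prop := ∀ d : ℕ, 0 < d → pH d < 1 / 2 → Tendsto (fun p => chi d p) (𝓝[<] pH d) atTop

/-- plan 6.3 -/
def StS6d : Prop := ∀ d : ℕ, 0 < d → 0 < pH d ∧ pH d ≤ 1 / 2

/-! ### definitions -/

/-- `1 - 1 / χ` -/
noncomputable def lam (d : ℕ) (p : ℝ) : ℝ := 1 - 1 / chi d p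

/-- the bootstrap hypothesis with constant `a` -/
structure Bd (a : ℝ) (d : ℕ) (p : ℝ) : Prop where
  hp : 2 * (d : ℝ) * p ≤ a
  ft : ∀ k : Fin d → ℝ, (∀ i, |k i| ≤ Real.pi) → |FT (tau d p) k| * (1 - lam d p * Dh k) ≤ a
  mt : ∀ k : Fin d → ℝ, (∀ i, |k i| ≤ Real.pi) → |MT (tau d p) k| * (1 - lam d p * Dh k) ^ 2 ≤ a

/-- the weighted norm of the expansion -/
noncomputable def eta (d : ℕ) (p : ℝ) : ENNReal :=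
  ∑' m : ℕ, ∑' x : Zd d, (1 + (m : ENNReal)) * ENNReal.ofReal (Qw x) * ENNReal.ofReal |hm d p m x|

/-- `g = ∑ g_m` -/
noncomputable def gS (d : ℕ) (p : ℝ) (x : Zd d) : ℝ := ∑' m : ℕ, gm d p m x

/-- `h = ∑ h_m = g - δ` -/
noncomputable def hS (d : ℕ) (p : ℝ) (x : Zd d) : ℝ := ∑' m : ℕ, hm d p m x

/-- `δ + h` -/
noncomputable def dl {d : ℕ} (h : Zd d → ℝ) (x : Zd d) : ℝ := h x + if x = 0 then 1 else 0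

/-! ### the bound on the expansion -/

/-- basic facts below `pH` -/
def StB1 : Prop := ∀ (d : ℕ) (p : ℝ), 0 < d → 0 ≤ p → p < pH d →
  p ≤ 1 / 2 ∧ SumQ (tau d p) ∧ 1 ≤ chi d p ∧ FT (tau d p) 0 = chi d p ∧ 0 ≤ lam d p ∧ lam d p < 1 ∧
    1 - lam d p = 1 / chi d p

/-- the torus -/
def StAE : Prop := ∀ d : ℕ, ∀ᵐ k ∂(muT d), ∀ i, |k i| ≤ Real.pi

/-- pointwise bound of the transform of `Q τ` -/
def StKft : Prop := ∀ (d : ℕ) (p : ℝ), 0 < d → 0 ≤ p → p < pH d → Bd 3 d p →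
  ∀ k : Fin d → ℝ, (∀ i, |k i| ≤ Real.pi) →
    |FT (fun x => Qw x * tau d p x) k| ≤ 18 * ((1 - lam d p * Dh k) ^ 2)⁻¹

/-- plan 7, the bound on `eta` -/
def StEta : Prop := ∃ C : ℝ, 0 < C ∧ ∃ d₁ : ℕ, ∀ d : ℕ, d₁ ≤ d → ∀ p : ℝ, 0 ≤ p → p < pH d →
  Bd 3 d p → eta d p ≤ ENNReal.ofReal (C / Real.sqrt d)

/-! ### the convolution equation -/

/-- the sums over `m` -/
def StCvA : Prop := ∀ (d : ℕ) (p : ℝ), eta d p ≠ ⊤ →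
  (∀ x, Summable (fun m => gm d p m x)) ∧ SumQ (hS d p) ∧ nQ (hS d p) ≤ (eta d p).toReal ∧
  SymF (hS d p) ∧ (gS d p = dl (hS d p)) ∧ SumQ (gS d p) ∧ SymF (gS d p)

/-- `τ = g + g * pJ * τ` -/
def StCvB : Prop := ∀ (d : ℕ) (p : ℝ), 0 ≤ p → p ≤ 1 → eta d p ≠ ⊤ → SumQ (tau d p) →
  ∀ x, tau d p x = gS d p x + cv (cv (gS d p) (fun y => p * Jf d y)) (tau d p) x

/-! ### improvement -/

/-- the convolution equation in Fourier space -/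
def StImpF : Prop := ∀ (d : ℕ) (p : ℝ) (t h : Zd d → ℝ), 0 < d → SumQ t → SymF t → SumQ h → SymF h →
  (∀ x, t x = dl h x + cv (cv (dl h) (fun y => p * Jf d y)) t x) → ∀ k : Fin d → ℝ,
    FT t k * (1 - 2 * d * p * Dh k * (1 + FT h k)) = 1 + FT h k ∧
    ∃ (S : Fin d → ℝ) (m : ℝ),
      (∀ j, S j = SJ j h k * (2 * d * p * Dh k) + (1 + FT h k) * (2 * p * Real.sin (k j))) ∧
      m = MT h k * (2 * d * p * Dh k) - 2 * ∑ j, SJ j h k * (2 * p * Real.sin (k j)) +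
        (1 + FT h k) * (2 * d * p * Dh k) ∧
      (∀ j, SJ j t k * (1 - 2 * d * p * Dh k * (1 + FT h k)) = SJ j h k + S j * FT t k) ∧
      MT t k * (1 - 2 * d * p * Dh k * (1 + FT h k)) =
        MT h k + m * FT t k - 2 * ∑ j, S j * SJ j t k

/-- the real inequalities (`D = D̂(k)`, `F = τ̂(k)`, `M = M[τ](k)`, `Fh = ĥ(k)`, `F0 = ĥ(0)`) -/
def StImpR : Prop := ∀ (d : ℕ) (p χ η D F Fh F0 M Mh m : ℝ) (S sh st sn : Fin d → ℝ),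
  20000 ≤ d → 0 ≤ p → 1 ≤ χ → 0 ≤ η → η ≤ 1 / 200 → |D| ≤ 1 → |Fh| ≤ η → |F0| ≤ η →
  |F0 - Fh| ≤ 3 * η * (1 - D) → χ * (1 - 2 * d * p * (1 + F0)) = 1 + F0 →
  F * (1 - 2 * d * p * D * (1 + Fh)) = 1 + Fh →
  ∑ j, (sh j) ^ 2 ≤ 9 * η ^ 2 * (1 - D) → ∑ j, (sn j) ^ 2 ≤ 2 * d * (1 - D) → |Mh| ≤ η →
  (∀ j, S j = sh j * (2 * d * p * D) + (1 + Fh) * (2 * p * sn j)) →
  m = Mh * (2 * d * p * D) - 2 * ∑ j, sh j * (2 * p * sn j) + (1 + Fh) * (2 * d * p * D) →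
  (∀ j, st j * (1 - 2 * d * p * D * (1 + Fh)) = sh j + S j * F) →
  M * (1 - 2 * d * p * D * (1 + Fh)) = Mh + m * F - 2 * ∑ j, S j * st j →
    2 * (d : ℝ) * p ≤ 2 ∧ |F| * (1 - (1 - 1 / χ) * D) ≤ 2 ∧ |M| * (1 - (1 - 1 / χ) * D) ^ 2 ≤ 2

/-- improvement for abstract `t` -/
def StImp : Prop := ∀ (d : ℕ) (p : ℝ) (t h : Zd d → ℝ), 20000 ≤ d → 0 ≤ p → SumQ t → SymF t →
  SumQ h → SymF h → nQ h ≤ 1 / 200 → 1 ≤ FT t 0 →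
  (∀ x, t x = dl h x + cv (cv (dl h) (fun y => p * Jf d y)) t x) →
    2 * (d : ℝ) * p ≤ 2 ∧ ∀ k : Fin d → ℝ, (∀ i, |k i| ≤ Real.pi) →
      |FT t k| * (1 - (1 - 1 / FT t 0) * Dh k) ≤ 2 ∧
      |MT t k| * (1 - (1 - 1 / FT t 0) * Dh k) ^ 2 ≤ 2

/-- improvement for percolation -/
def StBoot : Prop := ∃ C : ℝ, 0 < C ∧ ∃ d₁ : ℕ, ∀ d : ℕ, d₁ ≤ d → ∀ p : ℝ, 0 ≤ p → p < pH d →
  Bd 3 d p → Bd 2 d p ∧ eta d p ≤ ENNReal.ofReal (C / Real.sqrt d)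

/-! ### open-closed argument -/

/-- the start -/
def StOC0 : Prop := ∀ d : ℕ, 0 < d → Bd 2 d 0

/-- transforms are continuous in `p`, uniformly in `k` -/
def StOCc : Prop := ∀ (d : ℕ) (p₀ : ℝ), 0 < d → 0 ≤ p₀ → p₀ < pH d → ∀ ε : ℝ, 0 < ε →
  ∀ᶠ p in 𝓝[Set.Ico 0 (pH d)] p₀, ∀ k : Fin d → ℝ, (∀ i, |k i| ≤ Real.pi) →
    |(|FT (tau d p) k| * (1 - lam d p * Dh k)) - |FT (tau d p₀) k| * (1 - lam d p₀ * Dh k)| ≤ ε ∧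
    |(|MT (tau d p) k| * (1 - lam d p * Dh k) ^ 2) -
      |MT (tau d p₀) k| * (1 - lam d p₀ * Dh k) ^ 2| ≤ ε

/-- open and closed -/
def StOC1 : Prop := ∀ (d : ℕ) (p₀ : ℝ), 0 < d → 0 ≤ p₀ → p₀ < pH d →
  (Bd 2 d p₀ → ∀ᶠ p in 𝓝[Set.Ico 0 (pH d)] p₀, Bd 3 d p) ∧
  ((∃ᶠ p in 𝓝[Set.Ico 0 (pH d)] p₀, Bd 2 d p) → Bd 2 d p₀)

/-- connectedness of `[0,b)` -/
def StCon01 : Prop := ∀ (b : ℝ) (P : ℝ → Prop), 0 < b → P 0 →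
  (∀ p₀, 0 ≤ p₀ → p₀ < b → P p₀ → ∀ᶠ p in 𝓝[Set.Ico 0 b] p₀, P p) →
  (∀ p₀, 0 ≤ p₀ → p₀ < b → (∃ᶠ p in 𝓝[Set.Ico 0 b] p₀, P p) → P p₀) → ∀ p, 0 ≤ p → p < b → P p

/-- plan 7.1 -/
def StB7 : Prop := ∃ C : ℝ, 0 < C ∧ ∃ d₁ : ℕ, ∀ d : ℕ, d₁ ≤ d →
  (∀ p : ℝ, 0 ≤ p → p < pH d → Bd 2 d p ∧ eta d p ≤ ENNReal.ofReal (C / Real.sqrt d)) ∧
    pH d ≤ 1 / d

/-! ### the critical point -/

/-- Fatou -/
def StLim : Prop := ∀ (d : ℕ) (b : ℝ) (c : ENNReal), 0 < b →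
  (∀ p : ℝ, 0 ≤ p → p < b → eta d p ≤ c) → eta d b ≤ c

/-- continuity of `ĝ(0)` from the left -/
def StGcont : Prop := ∀ (d : ℕ) (b : ℝ) (c : ℝ), 0 < b →
  (∀ p : ℝ, 0 ≤ p → p ≤ b → eta d p ≤ ENNReal.ofReal c) →
    Tendsto (fun p => FT (hS d p) 0) (𝓝[<] b) (𝓝 (FT (hS d b) 0))

/-- the equation for the critical point -/
def StCrit : Prop := ∀ (d : ℕ) (c : ℝ), 0 < d → (∀ p : ℝ, 0 ≤ p → p ≤ pH d → eta d p ≤ ENNReal.ofReal c) →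
  pH d < 1 / 2 → 2 * (d : ℝ) * pH d * FT (gS d (pH d)) 0 = 1

/-- plan section 8 -/
def StB8 : Prop := ∃ d₁ : ℕ, 3 ≤ d₁ ∧ ∀ d : ℕ, d₁ ≤ d → 0 < pH d ∧ pH d ≤ 1 / d ∧ pH d < 1 / 2 ∧
  eta d (pH d) ≤ ENNReal.ofReal (1 / 200) ∧ 2 * (d : ℝ) * pH d * FT (gS d (pH d)) 0 = 1

end Pool.LE
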