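import Pool.Agent.Helper84.LE.St4
import Pool.Agent.Helper84.LE.St5

/-! The facts of section 6 in the form used in sections 7 and 8. -/

set_option autoImplicit false
open scoped BigOperators Topology
open MeasureTheory Filter

namespace Pool.LE

theorem hS6 (hSub : StSub) (hTC : StTauCont) (hCL : StChiLim) (hPH : StPH) :
    StS6a ∧ StS6b ∧ StS6c ∧ StS6d := by
  refine ⟨?_, ?_, ?_, ?_⟩
  · intro d p hd hp hp1
    exact hSub d p hd hp hp1
  · intro d p₀ hd hp hp1
    rw [Metric.tendsto_nhdsWithin_nhds]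
    intro ε hε
    obtain ⟨δ, hδ, h⟩ := hTC d hd p₀ hp hp1 (ε / 2) (by linarith)
    refine ⟨δ, hδ, ?_⟩
    intro p hp2 hp3
    rw [Real.dist_eq] at hp3
    have h1 := h p hp2.1 hp2.2 hp3
    have h2 : 0 ≤ nQ (fun x => tau d p x - tau d p₀ x) := by
      unfold nQ
      refine tsum_nonneg fun x => ?_
      refine mul_nonneg ?_ (abs_nonneg _)
      unfold Qw sq
      have h3 : 0 ≤ ∑ i, (x i : ℝ) ^ 2 := Finset.sum_nonneg fun i _ => sq_nonneg _
      linarith
    rw [Real.dist_eq, sub_zero, abs_of_nonneg h2]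
    linarith
  · intro d hd hp
    rw [tendsto_atTop]
    intro M
    obtain ⟨p₁, _, hp1, h⟩ := hCL d hd hp M
    filter_upwards [Ioo_mem_nhdsLT hp1] with p hp2
    exact h p hp2.1.le hp2.2
  · intro d hd
    exact ⟨(hPH d hd).1, (hPH d hd).2.1⟩

end Pool.LE
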