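import Pool.Agent.Helper84.LE.St1
import Pool.Agent.Helper84.LE.BGR

/-! # Module SD: an edge which is not inside the cluster of `v` is irrelevant for `v` -/

set_option autoImplicit false

namespace Pool.LE

namespace SD

variable {V : Type} [DecidableEq V]

/-- an edge of a trail -/
theorem split {ω : Finset (Sym2 V)} {a b : V} {v y : V} (q : (gr ω).Walk v y) (hq : q.IsTrail)
    (he : s(a, b) ∈ q.edges) :
    (con (ω.erase s(a, b)) v a ∧ con (ω.erase s(a, b)) b y) ∨
      (con (ω.erase s(a, b)) v b ∧ con (ω.erase s(a, b)) a y) := by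
  induction q with
  | nil => simp at he
  | @cons v u y h p ih =>
    rw [SimpleGraph.Walk.isTrail_cons] at hq
    obtain ⟨hp, hnot⟩ := hq
    rw [SimpleGraph.Walk.edges_cons, List.mem_cons] at he
    by_cases hep : s(a, b) ∈ p.edges
    · have hne : s(v, u) ≠ s(a, b) := fun h1 => hnot (h1 ▸ hep)
      have hvu : con (ω.erase s(a, b)) v u :=
        con_of_mem (Finset.mem_erase.2 ⟨hne, (gr_adj.1 h).1⟩)
      rcases ih hp hep with ⟨h1, h2⟩ | ⟨h1, h2⟩
      · exact Or.inl ⟨con_trans hvu h1, h2⟩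
      · exact Or.inr ⟨con_trans hvu h1, h2⟩
    · have h1 : s(a, b) = s(v, u) := he.resolve_right hep
      obtain ⟨p', -, -, -⟩ := exists_walk_of_edges (η := ω.erase s(a, b)) p (fun f hf =>
        Finset.mem_erase.2 ⟨fun h2 => hep (h2 ▸ hf), mem_edges_gr p hf⟩)
      have huy : con (ω.erase s(a, b)) u y := ⟨p'⟩
      rw [Sym2.eq_iff] at h1
      rcases h1 with ⟨rfl, rfl⟩ | ⟨rfl, rfl⟩
      · exact Or.inl ⟨con_refl _ _, huy⟩
      · exact Or.inr ⟨con_refl _ _, huy⟩

theorem avoid {ω : Finset (Sym2 V)} {a b : V} {v y : V}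
    (H : ¬ (con (ω.erase s(a, b)) v a ∧ con (ω.erase s(a, b)) v b))
    (hy : con (ω.erase s(a, b)) v y) (q : (gr ω).Walk v y) (hq : q.IsTrail) :
    s(a, b) ∉ q.edges := by
  intro he
  rcases split q hq he with ⟨h1, h2⟩ | ⟨h1, h2⟩
  · exact H ⟨h1, con_trans hy (con_symm h2)⟩
  · exact H ⟨con_trans hy (con_symm h2), h1⟩

/-- a path of a subconfiguration avoids the edge -/
theorem path_erase {ω η : Finset (Sym2 V)} (hη : η ⊆ ω) {a b : V} {v y : V}
    (H : ¬ (con (ω.erase s(a, b)) v a ∧ con (ω.erase s(a, b)) v b))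
    (hy : con (ω.erase s(a, b)) v y) (q : (gr η).Walk v y) (hq : q.IsPath) :
    ∃ q' : (gr (η.erase s(a, b))).Walk v y, q'.length = q.length := by
  have h1 : s(a, b) ∉ (q.mapLe (gr_mono hη)).edges :=
    avoid H hy _ (SimpleGraph.Walk.IsPath.mapLe (gr_mono hη) hq).isTrail
  have h2 : (q.mapLe (gr_mono hη)).edges = q.edges := by
    rw [SimpleGraph.Walk.edges_mapLe_eq_edges]
  rw [h2] at h1
  obtain ⟨q', -, -, hl⟩ := exists_walk_of_edges (η := η.erase s(a, b)) q (fun f hf =>
    Finset.mem_erase.2 ⟨fun h3 => h1 (h3 ▸ hf), mem_edges_gr q hf⟩)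
  exact ⟨q', hl⟩

theorem con_erase {ω η : Finset (Sym2 V)} (hη : η ⊆ ω) {a b : V} {v y : V}
    (H : ¬ (con (ω.erase s(a, b)) v a ∧ con (ω.erase s(a, b)) v b))
    (hy : con (ω.erase s(a, b)) v y) : con η v y ↔ con (η.erase s(a, b)) v y := by
  constructor
  · intro h
    obtain ⟨q, hq, -⟩ := exists_path_dist h
    obtain ⟨q', -⟩ := path_erase hη H hy q hq
    exact ⟨q'⟩
  · exact con_mono (Finset.erase_subset _ _)

theorem mon_erase {ω η : Finset (Sym2 V)} (hη : η ⊆ ω) {a b : V} {v y : V}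
    (H : ¬ (con (ω.erase s(a, b)) v a ∧ con (ω.erase s(a, b)) v b))
    (hy : con (ω.erase s(a, b)) v y) : mon η v y = mon (η.erase s(a, b)) v y := by
  by_cases h : con η v y
  · have h' := (con_erase hη H hy).1 h
    rw [mon_of_con h, mon_of_con h']
    congr 1
    apply le_antisymm
    · obtain ⟨q, -, hl⟩ := exists_path_dist h'
      rw [← hl]
      have h1 := SimpleGraph.dist_le (q.mapLe (gr_mono (Finset.erase_subset s(a, b) η)))
      rwa [SimpleGraph.Walk.length_mapLe] at h1
    · obtain ⟨q, hq, hl⟩ := exists_path_dist h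
      obtain ⟨q', hl'⟩ := path_erase hη H hy q hq
      rw [← hl, ← hl']
      exact SimpleGraph.dist_le q'
  · rw [mon_eq_zero h, mon_eq_zero (fun h' => h ((con_erase hη H hy).2 h'))]

end SD

open SD in
theorem hSD : StSD := by
  intro V _ ω v a b y H hy
  refine ⟨mon_erase (Finset.Subset.refl _) H hy, ?_, ?_⟩
  · intro A
    by_cases hv : v ∈ A
    · rw [monA_of_mem hv, monA_of_mem hv]
    · rw [monA_of_not_mem hv, monA_of_not_mem hv, rst_erase]
      exact mon_erase (rst_subset ω A) H hy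
  · constructor
    · rintro ⟨h1, h2⟩
      refine ⟨hy, fun f hf => ?_⟩
      have hf' : f ∈ ω := (Finset.mem_erase.1 hf).2
      have h3 := (con_erase (Finset.erase_subset f ω) H hy).1 (h2 f hf')
      rwa [Finset.erase_right_comm] at h3
    · rintro ⟨h1, h2⟩
      refine ⟨con_mono (Finset.erase_subset _ _) h1, fun f hf => ?_⟩
      by_cases hfe : f = s(a, b)
      · rw [hfe]; exact hy
      · exact con_mono (Finset.erase_subset_erase f (Finset.erase_subset _ _))
          (h2 f (Finset.mem_erase.2 ⟨hfe, hf⟩))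

end Pool.LE
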