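import Pool.Agent.Helper84.LE.St3

/-! Module Sec: isotropy and second order estimates (plan section 7). -/

set_option autoImplicit false
open scoped BigOperators
open MeasureTheory

namespace Pool.LE

namespace Secaux

variable {d : ℕ}

theorem sq_nonneg' (x : Zd d) : 0 ≤ sq x := Finset.sum_nonneg fun _ _ => sq_nonneg _

theorem summable_adm {f φ : Zd d → ℝ} (hf : SumQ f) (hφ : ∀ x, |φ x| ≤ Qw x) :
    Summable fun x => f x * φ x := by
  refine Summable.of_norm_bounded hf ?_
  intro x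
  rw [Real.norm_eq_abs, abs_mul, mul_comm]
  exact mul_le_mul_of_nonneg_right (hφ x) (abs_nonneg _)

theorem coord_sq_le (x : Zd d) (i : Fin d) : (x i : ℝ) ^ 2 ≤ sq x :=
  Finset.single_le_sum (f := fun i => (x i : ℝ) ^ 2) (fun _ _ => sq_nonneg _) (Finset.mem_univ i)

theorem abs_two_le (x : Zd d) (i j : Fin d) : |(x i : ℝ) * (x j : ℝ)| ≤ Qw x := by
  have h1 := coord_sq_le x i
  have h2 := coord_sq_le x j
  have h0 := sq_nonneg' x
  unfold Qw
  rw [abs_le]
  constructor <;> nlinarith [sq_nonneg ((x i : ℝ) - (x j : ℝ)), sq_nonneg ((x i : ℝ) + (x j : ℝ))]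

theorem abs_coord_le (x : Zd d) (j : Fin d) : |(x j : ℝ)| ≤ Qw x := by
  have h1 := coord_sq_le x j
  have h0 := sq_nonneg' x
  unfold Qw
  rw [abs_le]
  constructor <;> nlinarith [sq_nonneg ((x j : ℝ) - 1), sq_nonneg ((x j : ℝ) + 1)]

/-- the flip of one coordinate -/
def flipS (i : Fin d) : Fin d → ℤˣ := fun l => if l = i then -1 else 1

theorem flip_inv (i : Fin d) : Function.Involutive (sgp (1 : Equiv.Perm (Fin d)) (flipS i)) := by
  intro x
  funext l
  unfold sgp flipS
  by_cases hl : l = i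
  · simp [hl]
  · simp [hl]

theorem swap_inv (i j : Fin d) : Function.Involutive (sgp (Equiv.swap i j) (1 : Fin d → ℤˣ)) := by
  intro x
  funext l
  unfold sgp
  simp

theorem M_off {h : Zd d → ℝ} (hs : SymF h) {i j : Fin d} (hij : i ≠ j) :
    ∑' x, h x * ((x i : ℝ) * (x j : ℝ)) = 0 := by
  let e : Equiv.Perm (Zd d) := (flip_inv i).toPerm
  have he : ∀ x, e x = sgp (1 : Equiv.Perm (Fin d)) (flipS i) x := fun _ => rfl
  have h1 : ∑' x, h x * ((x i : ℝ) * (x j : ℝ)) =
      ∑' x, h (e x) * (((e x) i : ℝ) * ((e x) j : ℝ)) :=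
    (e.tsum_eq (fun x => h x * ((x i : ℝ) * (x j : ℝ)))).symm
  have h2 : ∑' x, h (e x) * (((e x) i : ℝ) * ((e x) j : ℝ)) =
      - ∑' x, h x * ((x i : ℝ) * (x j : ℝ)) := by
    rw [← tsum_neg]
    apply tsum_congr
    intro x
    have h3 : (e x) i = - x i := by
      rw [he]
      unfold sgp flipS
      simp
    have h4 : (e x) j = x j := by
      rw [he]
      unfold sgp flipS
      simp [hij.symm]
    have h5 : h (e x) = h x := by rw [he]; exact hs _ _ x
    rw [h3, h4, h5]
    push_cast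
    ring
  rw [h2] at h1
  linarith

theorem M_diag {h : Zd d → ℝ} (hs : SymF h) (i j : Fin d) :
    ∑' x, h x * ((x i : ℝ) * (x i : ℝ)) = ∑' x, h x * ((x j : ℝ) * (x j : ℝ)) := by
  let e : Equiv.Perm (Zd d) := (swap_inv i j).toPerm
  have he : ∀ x, e x = sgp (Equiv.swap i j) (1 : Fin d → ℤˣ) x := fun _ => rfl
  have h1 : ∑' x, h x * ((x i : ℝ) * (x i : ℝ)) =
      ∑' x, h (e x) * (((e x) i : ℝ) * ((e x) i : ℝ)) :=
    (e.tsum_eq (fun x => h x * ((x i : ℝ) * (x i : ℝ)))).symm
  rw [h1]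
  apply tsum_congr
  intro x
  have h3 : (e x) i = x j := by
    rw [he]
    unfold sgp
    simp
  have h5 : h (e x) = h x := by rw [he]; exact hs _ _ x
  rw [h3, h5]

theorem dot_sq (k : Fin d → ℝ) (x : Zd d) (c : ℝ) :
    c * (∑ i, k i * (x i : ℝ)) ^ 2 =
      ∑ i, ∑ j, (k i * k j) * (c * ((x i : ℝ) * (x j : ℝ))) := by
  rw [pow_two, Finset.sum_mul_sum, Finset.mul_sum]
  apply Finset.sum_congr rfl
  intro i _
  rw [Finset.mul_sum]
  apply Finset.sum_congr rfl
  intro j _
  ring

end Secaux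

open Secaux

theorem hIso : StIso := by
  intro d h hd hQ hs k
  have hsum : ∀ i j : Fin d, Summable fun x : Zd d => h x * ((x i : ℝ) * (x j : ℝ)) :=
    fun i j => summable_adm hQ (fun x => abs_two_le x i j)
  have hH : HasSum (fun x : Zd d => h x * (∑ i, k i * (x i : ℝ)) ^ 2)
      (∑ i, ∑ j, (k i * k j) * ∑' x : Zd d, h x * ((x i : ℝ) * (x j : ℝ))) := by
    have h1 : HasSum (fun x : Zd d => ∑ i, ∑ j, (k i * k j) * (h x * ((x i : ℝ) * (x j : ℝ))))
        (∑ i, ∑ j, (k i * k j) * ∑' x : Zd d, h x * ((x i : ℝ) * (x j : ℝ))) := by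
      apply hasSum_sum
      intro i _
      apply hasSum_sum
      intro j _
      exact (hsum i j).hasSum.mul_left _
    refine h1.congr_fun ?_
    intro x
    exact dot_sq k x (h x)
  refine ⟨hH.summable, ?_⟩
  rw [hH.tsum_eq]
  have i0 : Fin d := ⟨0, hd⟩
  have hin : ∀ i : Fin d, ∑ j, (k i * k j) * ∑' x : Zd d, h x * ((x i : ℝ) * (x j : ℝ)) =
      k i ^ 2 * ∑' x : Zd d, h x * ((x i0 : ℝ) * (x i0 : ℝ)) := by
    intro i
    rw [Finset.sum_eq_single i]
    · rw [M_diag hs i i0]
      ring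
    · intro j _ hji
      rw [M_off hs (Ne.symm hji), mul_zero]
    · intro h
      exact absurd (Finset.mem_univ i) h
  rw [Finset.sum_congr rfl (fun i _ => hin i), ← Finset.sum_mul]
  have hT : ∑' x : Zd d, sq x * h x = d * ∑' x : Zd d, h x * ((x i0 : ℝ) * (x i0 : ℝ)) := by
    have h1 : HasSum (fun x : Zd d => ∑ i, h x * ((x i : ℝ) * (x i : ℝ)))
        (∑ i : Fin d, ∑' x : Zd d, h x * ((x i : ℝ) * (x i : ℝ))) := by
      apply hasSum_sum
      intro i _
      exact (hsum i i).hasSum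
    have h2 : HasSum (fun x : Zd d => sq x * h x)
        (∑ i : Fin d, ∑' x : Zd d, h x * ((x i : ℝ) * (x i : ℝ))) := by
      refine h1.congr_fun ?_
      intro x
      unfold sq
      rw [Finset.sum_mul]
      apply Finset.sum_congr rfl
      intro i _
      ring
    rw [h2.tsum_eq, Finset.sum_congr rfl (fun i _ => M_diag hs i i0), Finset.sum_const,
      Finset.card_univ, Fintype.card_fin, nsmul_eq_mul]
  rw [hT]
  have hd' : (d : ℝ) ≠ 0 := by positivity
  field_simp

theorem hSec (hIso : StIso) (hDh : StDh) (hb : StFTb) : StSec := by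
  intro d h hd hQ hs k hk
  obtain ⟨hD1, hD2, -, -⟩ := hDh d k hd
  have hD2 := hD2 hk
  have hDle : 0 ≤ 1 - Dh k := by
    have := (abs_le.1 hD1).2
    linarith
  have hbk := hb d h hQ k
  -- the absolute value
  have hQa : SumQ (fun x => |h x|) := by
    unfold SumQ
    refine hQ.congr ?_
    intro x
    rw [abs_abs]
  have hsa : SymF (fun x => |h x|) := by
    intro σ s x
    show |h (sgp σ s x)| = |h x|
    rw [hs σ s x]
  have hnQ0 : 0 ≤ nQ h := by
    apply tsum_nonneg
    intro x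
    have := sq_nonneg' x
    unfold Qw
    positivity
  have hTs : Summable fun x : Zd d => sq x * |h x| := (hb d _ hQa k).2.1
  have hT0 : 0 ≤ ∑' x : Zd d, sq x * |h x| :=
    tsum_nonneg fun x => mul_nonneg (sq_nonneg' x) (abs_nonneg _)
  have hT : ∑' x : Zd d, sq x * |h x| ≤ nQ h / 2 := by
    have h1 : ∑' x : Zd d, 2 * (sq x * |h x|) ≤ nQ h := by
      unfold nQ
      refine Summable.tsum_le_tsum ?_ (hTs.mul_left 2) hQ
      intro x
      unfold Qw
      nlinarith [abs_nonneg (h x)]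
    rw [tsum_mul_left] at h1
    linarith
  obtain ⟨hks, hke⟩ := hIso d _ hd hQa hsa k
  have hd1 : (1 : ℝ) ≤ d := by exact_mod_cast hd
  have hd0 : (0 : ℝ) < d := by linarith
  refine ⟨?_, ?_, hbk.2.2.2.2.1, hbk.2.2.2.1⟩
  · -- first estimate
    have hcos : ∀ x : Zd d, 1 - Real.cos (∑ i, k i * (x i : ℝ)) ≤ (∑ i, k i * (x i : ℝ)) ^ 2 / 2 := by
      intro x
      have := Real.one_sub_sq_div_two_le_cos (x := ∑ i, k i * (x i : ℝ))
      linarith
    have hsc : Summable fun x : Zd d => h x * Real.cos (∑ i, k i * (x i : ℝ)) := by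
      apply summable_adm hQ
      intro x
      refine (Real.abs_cos_le_one _).trans ?_
      have := sq_nonneg' x
      unfold Qw
      linarith
    have e0 : FT h 0 = ∑' x : Zd d, h x := by
      unfold FT
      apply tsum_congr
      intro x
      simp
    have e1 : FT h 0 - FT h k = ∑' x : Zd d, h x * (1 - Real.cos (∑ i, k i * (x i : ℝ))) := by
      rw [e0]
      unfold FT
      rw [← hbk.1.tsum_sub hsc]
      apply tsum_congr
      intro x
      ring
    have hsn : Summable fun x : Zd d => ‖h x * (1 - Real.cos (∑ i, k i * (x i : ℝ)))‖ := by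
      refine ((hbk.1.sub hsc).congr ?_).norm
      intro x
      ring
    have e2 : |FT h 0 - FT h k| ≤ ∑' x : Zd d, ‖h x * (1 - Real.cos (∑ i, k i * (x i : ℝ)))‖ := by
      rw [e1, ← Real.norm_eq_abs]
      exact norm_tsum_le_tsum_norm hsn
    have e3 : ∑' x : Zd d, ‖h x * (1 - Real.cos (∑ i, k i * (x i : ℝ)))‖ ≤
        ∑' x : Zd d, (1 / 2) * (|h x| * (∑ i, k i * (x i : ℝ)) ^ 2) := by
      refine Summable.tsum_le_tsum ?_ hsn (hks.mul_left _)
      intro x
      rw [Real.norm_eq_abs, abs_mul]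
      have h1 : 0 ≤ 1 - Real.cos (∑ i, k i * (x i : ℝ)) := by
        have := Real.cos_le_one (∑ i, k i * (x i : ℝ))
        linarith
      rw [abs_of_nonneg h1]
      have := mul_le_mul_of_nonneg_left (hcos x) (abs_nonneg (h x))
      linarith
    rw [tsum_mul_left, hke] at e3
    have hK0 : 0 ≤ (∑ i, k i ^ 2) / (d : ℝ) :=
      div_nonneg (Finset.sum_nonneg fun _ _ => sq_nonneg _) hd0.le
    have e4 : (∑ i, k i ^ 2) / (d : ℝ) * ∑' x : Zd d, sq x * |h x| ≤
        (5 * (1 - Dh k)) * (nQ h / 2) :=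
      mul_le_mul hD2 hT hT0 (by linarith)
    have e5 : 0 ≤ (1 - Dh k) * nQ h := mul_nonneg hDle hnQ0
    nlinarith
  · -- second estimate
    have hSs : ∀ j : Fin d, Summable fun x : Zd d =>
        h x * ((x j : ℝ) * Real.sin (∑ i, k i * (x i : ℝ))) := by
      intro j
      apply summable_adm hQ
      intro x
      rw [abs_mul]
      have h1 : |(x j : ℝ)| * |Real.sin (∑ i, k i * (x i : ℝ))| ≤ |(x j : ℝ)| * 1 :=
        mul_le_mul_of_nonneg_left (Real.abs_sin_le_one _) (abs_nonneg _)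
      have h2 := abs_coord_le x j
      linarith
    have eS : ∀ j : Fin d, SJ j h k = ∑' x : Zd d,
        h x * ((x j : ℝ) * Real.sin (∑ i, k i * (x i : ℝ))) := by
      intro j
      unfold SJ
      apply tsum_congr
      intro x
      ring
    -- the direction of the vector of sine transforms
    set a : Fin d → ℝ := fun j => SJ j h k with ha
    have hA : HasSum (fun x : Zd d =>
        h x * ((∑ j, a j * (x j : ℝ)) * Real.sin (∑ i, k i * (x i : ℝ)))) (∑ j, (a j) ^ 2) := by
      have h1 : HasSum (fun x : Zd d =>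
          ∑ j, a j * (h x * ((x j : ℝ) * Real.sin (∑ i, k i * (x i : ℝ)))))
          (∑ j, a j * a j) := by
        apply hasSum_sum
        intro j _
        have h2 := (hSs j).hasSum.mul_left (a j)
        rw [← eS j] at h2
        exact h2
      have h3 : ∑ j, (a j) ^ 2 = ∑ j, a j * a j :=
        Finset.sum_congr rfl fun j _ => pow_two (a j)
      rw [h3]
      refine h1.congr_fun ?_
      intro x
      rw [Finset.sum_mul, Finset.mul_sum]
      apply Finset.sum_congr rfl
      intro j _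
      ring
    obtain ⟨has, hae⟩ := hIso d _ hd hQa hsa a
    have key : ∀ lam : ℝ, 0 < lam → ∑ j, (a j) ^ 2 ≤
        lam / 2 * ((∑ i, a i ^ 2) / d * ∑' x : Zd d, sq x * |h x|) +
          1 / (2 * lam) * ((∑ i, k i ^ 2) / d * ∑' x : Zd d, sq x * |h x|) := by
      intro lam hlam
      rw [← hae, ← hke, ← hA.tsum_eq, ← tsum_mul_left, ← tsum_mul_left,
        ← (has.mul_left _).tsum_add (hks.mul_left _)]
      refine Summable.tsum_le_tsum ?_ hA.summable ((has.mul_left _).add (hks.mul_left _))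
      intro x
      set u := ∑ j, a j * (x j : ℝ)
      set w := ∑ i, k i * (x i : ℝ)
      have h1 : h x * (u * Real.sin w) ≤ |h x| * (|u| * |w|) := by
        calc h x * (u * Real.sin w) ≤ |h x * (u * Real.sin w)| := le_abs_self _
          _ = |h x| * (|u| * |Real.sin w|) := by rw [abs_mul, abs_mul]
          _ ≤ |h x| * (|u| * |w|) := by
            apply mul_le_mul_of_nonneg_left _ (abs_nonneg _)
            exact mul_le_mul_of_nonneg_left Real.abs_sin_le_abs (abs_nonneg _)
      have h2 : |u| * |w| ≤ lam / 2 * u ^ 2 + 1 / (2 * lam) * w ^ 2 := by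
        rw [← sq_abs u, ← sq_abs w]
        have h3 : lam / 2 * |u| ^ 2 + 1 / (2 * lam) * |w| ^ 2 - |u| * |w| =
            (lam * |u| - |w|) ^ 2 / (2 * lam) := by
          field_simp
          ring
        have h4 : 0 ≤ (lam * |u| - |w|) ^ 2 / (2 * lam) := by positivity
        linarith
      have h5 := mul_le_mul_of_nonneg_left h2 (abs_nonneg (h x))
      linarith
    set T := ∑' x : Zd d, sq x * |h x| with hTdef
    set N2 := ∑ j, (a j) ^ 2 with hN2
    have hN0 : 0 ≤ N2 := Finset.sum_nonneg fun _ _ => sq_nonneg _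
    have hK0 : 0 ≤ (∑ i, k i ^ 2) / (d : ℝ) :=
      div_nonneg (Finset.sum_nonneg fun _ _ => sq_nonneg _) hd0.le
    set K := (∑ i, k i ^ 2) / (d : ℝ) with hK
    have hgoal : N2 ≤ K * T ^ 2 := by
      rcases hT0.eq_or_lt with h0 | hpos
      · have h1 := key 1 one_pos
        rw [← h0] at h1
        rw [← h0]
        simpa using h1
      · have h1 := key (1 / T) (by positivity)
        have h2 : N2 / d ≤ N2 := div_le_self hN0 hd1
        have h3 : 1 / T / 2 * (N2 / d * T) = (N2 / d) / 2 := by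
          field_simp
        have h4 : 1 / (2 * (1 / T)) * (K * T) = K * T ^ 2 / 2 := by
          field_simp
        rw [h3, h4] at h1
        linarith
    have h5 : T ^ 2 ≤ (nQ h / 2) ^ 2 := pow_le_pow_left₀ hT0 hT 2
    have h6 : K * T ^ 2 ≤ (5 * (1 - Dh k)) * (nQ h / 2) ^ 2 :=
      mul_le_mul hD2 h5 (sq_nonneg _) (by linarith)
    have h7 : 0 ≤ (1 - Dh k) * nQ h ^ 2 := mul_nonneg hDle (sq_nonneg _)
    show N2 ≤ 9 * nQ h ^ 2 * (1 - Dh k)
    nlinarith

end Pool.LE

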