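import Pool.Agent.Helper84.LE.BWT
import Pool.Agent.Helper84.LE.BGR
import Pool.Agent.Helper84.LE.St4

/-! Module Sphere: divergence of the susceptibility (plan 6.2). -/

set_option autoImplicit false
open scoped BigOperators ENNReal
open MeasureTheory

namespace Pool.LE

namespace SphereAux

variable {d : ℕ}

theorem mem_bx {n : ℕ} {x : Zd d} : x ∈ bx d n ↔ ∀ i, -(n : ℤ) ≤ x i ∧ x i ≤ n := by
  unfold bx
  rw [Fintype.mem_piFinset]
  simp only [Finset.mem_Icc]

theorem bx_sub (n : ℕ) : bx d n ⊆ bx d (n + 1) := by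
  intro x hx
  rw [mem_bx] at hx ⊢
  intro i
  have := hx i
  push_cast
  constructor <;> linarith [this.1, this.2]

theorem zero_mem_bx (n : ℕ) : (0 : Zd d) ∈ bx d n := by
  rw [mem_bx]
  intro i
  rw [Pi.zero_apply]
  constructor <;> simp

theorem ES_mono {S T : Finset (Zd d)} (h : S ⊆ T) : ES S ⊆ ES T := by
  intro e he
  unfold ES at he ⊢
  rw [Finset.mem_image] at he ⊢
  obtain ⟨q, hq, rfl⟩ := he
  refine ⟨q, ?_, rfl⟩
  rw [Finset.mem_filter, Finset.mem_product] at hq ⊢
  exact ⟨⟨h hq.1.1, hq.1.2⟩, h hq.2⟩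

theorem Eb_mono {R R' : ℕ} (h : R ≤ R') : Eb d R ⊆ Eb d R' := by
  induction h with
  | refl => exact Finset.Subset.refl _
  | step _ ih => exact ih.trans (ES_mono (bx_sub _))

theorem summable_tau {p : ℝ} (hs : SumQ (tau d p)) : Summable (tau d p) := by
  refine Summable.of_norm_bounded hs ?_
  intro x
  rw [Real.norm_eq_abs]
  have h0 : 0 ≤ sq x := Finset.sum_nonneg fun _ _ => sq_nonneg _
  unfold Qw
  nlinarith [abs_nonneg (tau d p x)]

end SphereAux

open SphereAux

theorem hSphere (hBox : StBox) (hTD : StTauDom) : StSphere := by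
  classical
  intro d p n hd h0 h1
  obtain ⟨-, -, -, -, -, -, b7, -, b9, -, -, b12, -⟩ := hBox d
  have hterm : ∀ x ∈ bx d (n + 1),
      ENNReal.ofReal (((nb x \ bx d (n + 1)).card : ℝ) *
        (Pr (ES (bx d (n + 1))) p (fun ω => con ω 0 x)).toReal) ≤
      if x ∉ bx d n then ENNReal.ofReal (2 * d) * tauE d p x else 0 := by
    intro x _
    by_cases hx : x ∈ bx d n
    · have hc : nb x \ bx d (n + 1) = ∅ := by
        rw [Finset.sdiff_eq_empty_iff_subset]
        intro b hb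
        exact b7 x b n hx hb
      rw [hc, Finset.card_empty, Nat.cast_zero, zero_mul, ENNReal.ofReal_zero]
      exact zero_le
    · rw [if_pos hx, ENNReal.ofReal_mul (Nat.cast_nonneg _)]
      apply mul_le_mul'
      · apply ENNReal.ofReal_le_ofReal
        have h2 : (nb x \ bx d (n + 1)).card ≤ 2 * d := by
          rw [← b12 x]
          exact Finset.card_le_card Finset.sdiff_subset
        exact_mod_cast h2
      · refine ENNReal.ofReal_toReal_le.trans ?_
        have h3 := hTD d p (ES (bx d (n + 1))) 0 x h0 h1 (b9 _)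
        rwa [sub_zero] at h3
  unfold phiS
  rw [ENNReal.ofReal_mul h0, ENNReal.ofReal_sum_of_nonneg
    (fun x _ => mul_nonneg (Nat.cast_nonneg _) ENNReal.toReal_nonneg)]
  refine (mul_le_mul_right (Finset.sum_le_sum hterm) _).trans ?_
  rw [← Finset.sum_filter, ← Finset.sdiff_eq_filter, ← Finset.mul_sum,
    ENNReal.ofReal_mul (by positivity : (0 : ℝ) ≤ 2 * d), ← mul_assoc,
    mul_comm (ENNReal.ofReal p)]

theorem hChiInf (hSp : StSphere) (hPH : StPH) : StChiInf := by
  classical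
  intro d hd hlt
  obtain ⟨hp0, hp1, -, hph⟩ := hPH d hd
  have hcne : ENNReal.ofReal (2 * d * pH d) ≠ ⊤ := ENNReal.ofReal_ne_top
  have hshell : ∀ n : ℕ, 1 ≤ ENNReal.ofReal (2 * d * pH d) *
      ∑ x ∈ bx d (n + 1) \ bx d n, tauE d (pH d) x := by
    intro n
    have h1 := hSp d (pH d) n hd hp0.le (by linarith)
    have h2 := hph hlt (pH d) le_rfl hp1 (bx d (n + 1)) (zero_mem_bx _)
    calc (1 : ENNReal) = ENNReal.ofReal 1 := by simp
      _ ≤ ENNReal.ofReal (phiS d (pH d) (bx d (n + 1))) := ENNReal.ofReal_le_ofReal h2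
      _ ≤ _ := h1
  have hsum : ∀ N : ℕ, (N : ENNReal) ≤ ENNReal.ofReal (2 * d * pH d) *
      ∑ x ∈ bx d N, tauE d (pH d) x := by
    intro N
    induction N with
    | zero => simp
    | succ N ih =>
      rw [← Finset.sum_sdiff (bx_sub N), mul_add]
      push_cast
      rw [add_comm]
      exact add_le_add (hshell N) ih
  have htot : ∀ N : ℕ, (N : ENNReal) ≤ ENNReal.ofReal (2 * d * pH d) *
      ∑' x, tauE d (pH d) x := fun N =>
    (hsum N).trans (mul_le_mul_right (ENNReal.sum_le_tsum _) _)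
  by_contra hne
  have h3 : ENNReal.ofReal (2 * d * pH d) * ∑' x, tauE d (pH d) x ≠ ⊤ :=
    ENNReal.mul_ne_top hcne hne
  obtain ⟨N, hN⟩ := ENNReal.exists_nat_gt h3
  exact absurd (htot N) (not_le.2 hN)

theorem hChiLim (hCI : StChiInf) (hPH : StPH) (hTB : StTauBasic) (hSub : StSub) : StChiLim := by
  classical
  intro d hd hlt M
  obtain ⟨hp0, hp1, -, -⟩ := hPH d hd
  have hinf := hCI d hd hlt
  obtain ⟨F, hF⟩ : ∃ F : Finset (Zd d), ENNReal.ofReal (|M| + 1) < ∑ x ∈ F, tauE d (pH d) x := by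
    have h1 : ENNReal.ofReal (|M| + 1) < ∑' x, tauE d (pH d) x := by
      rw [hinf]
      exact ENNReal.ofReal_lt_top
    rw [ENNReal.tsum_eq_iSup_sum] at h1
    exact lt_iSup_iff.1 h1
  have hmono : ∀ x : Zd d, Monotone (fun R : ℕ => Pr (Eb d R) (pH d) (fun ω => con ω 0 x)) := by
    intro x R R' hRR
    exact Pr_mono_edges (Eb_mono hRR) hp0.le (by linarith) (fun ω η h hc => con_mono h hc)
  have hsup : ∑ x ∈ F, tauE d (pH d) x =
      ⨆ R : ℕ, ∑ x ∈ F, Pr (Eb d R) (pH d) (fun ω => con ω 0 x) := by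
    unfold tauE
    exact ENNReal.finsetSum_iSup_of_monotone (fun x => hmono x)
  rw [hsup] at hF
  obtain ⟨R, hR⟩ := lt_iSup_iff.1 hF
  let g : ℝ → ℝ := fun q => ∑ x ∈ F, Ex (Eb d R) q (fun ω => if con ω 0 x then (1 : ℝ) else 0)
  have hgc : Continuous g := by
    apply continuous_finsetSum
    intro x _
    unfold Ex
    apply continuous_finsetSum
    intro ω _
    unfold wt
    simp only [smul_eq_mul]
    fun_prop
  have hEx0 : ∀ (q : ℝ) (x : Zd d), 0 ≤ q → q ≤ 1 →
      0 ≤ Ex (Eb d R) q (fun ω => if con ω 0 x then (1 : ℝ) else 0) := by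
    intro q x hq0 hq1
    unfold Ex
    apply Finset.sum_nonneg
    intro ω _
    rw [smul_eq_mul]
    apply mul_nonneg (wt_nonneg hq0 hq1 _ _)
    show (0 : ℝ) ≤ if con ω 0 x then 1 else 0
    split_ifs <;> norm_num
  have hgPr : ∀ q : ℝ, 0 ≤ q → q ≤ 1 →
      ∑ x ∈ F, Pr (Eb d R) q (fun ω => con ω 0 x) = ENNReal.ofReal (g q) := by
    intro q hq0 hq1
    show _ = ENNReal.ofReal (∑ x ∈ F, _)
    rw [ENNReal.ofReal_sum_of_nonneg (fun x _ => hEx0 q x hq0 hq1)]
    apply Finset.sum_congr rfl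
    intro x _
    rw [← ExE_ofReal hq0 hq1 _ _ (fun ω => by split_ifs <;> norm_num)]
    unfold Pr
    congr 1
    funext ω
    split_ifs <;> simp
  have hgp : |M| + 1 < g (pH d) := by
    rw [hgPr (pH d) hp0.le (by linarith)] at hR
    by_contra hcon
    rw [not_lt] at hcon
    exact absurd (ENNReal.ofReal_le_ofReal hcon) (not_le.2 hR)
  have hev : ∀ᶠ q in nhds (pH d), |M| + 1 < g q :=
    hgc.continuousAt.eventually (lt_mem_nhds hgp)
  obtain ⟨δ, hδ, hball⟩ := Metric.eventually_nhds_iff.1 hev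
  refine ⟨max 0 (pH d - δ / 2), le_max_left _ _, max_lt hp0 (by linarith), ?_⟩
  intro p hpl hpu
  have hpp : 0 ≤ p := (le_max_left _ _).trans hpl
  have hpd : pH d - δ / 2 ≤ p := (le_max_right _ _).trans hpl
  have hpone : p ≤ 1 := by linarith
  have hgM : |M| + 1 < g p := by
    apply hball
    rw [Real.dist_eq, abs_lt]
    constructor <;> linarith
  obtain ⟨-, -, -, ht1, ht2⟩ := hTB d p hpp hpone
  have hsm : Summable (tau d p) := summable_tau (hSub d p hd hpp hpu)
  have h1 : ∑ x ∈ F, tau d p x ≤ chi d p := hsm.sum_le_tsum F (fun x _ => (ht2 x).1)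
  have h2 : g p ≤ ∑ x ∈ F, tau d p x := by
    have h3 : ENNReal.ofReal (g p) ≤ ENNReal.ofReal (∑ x ∈ F, tau d p x) := by
      rw [← hgPr p hpp hpone, ENNReal.ofReal_sum_of_nonneg (fun x _ => (ht2 x).1)]
      apply Finset.sum_le_sum
      intro x _
      rw [ht1 x]
      exact le_iSup (fun R : ℕ => Pr (Eb d R) p (fun ω => con ω 0 x)) R
    exact (ENNReal.ofReal_le_ofReal_iff (Finset.sum_nonneg fun x _ => (ht2 x).1)).1 h3
  have h4 := le_abs_self M
  linarith

theorem hChi (hTB : StTauBasic) (hTS : StTauSum) (hSub : StSub) (hPH : StPH)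
    (hTN : StTnNonneg) : StChi := by
  intro d p hd hp0 hp1
  have hple : p ≤ 1 := by
    have := (hPH d hd).2.1
    linarith
  obtain ⟨-, ht0, -, ht1, ht2⟩ := hTB d p hp0 hple
  have hsm : Summable (tau d p) := summable_tau (hSub d p hd hp0 hp1)
  have htn : ∀ (n : ℕ) (x : Zd d), 0 ≤ tn d p n x := fun n x => (hTN d p n x hp0 hple).1
  have hex : ∀ x : Zd d, tauE d p x = ∑' n : ℕ, ENNReal.ofReal (tn d p n x) :=
    fun x => hTS d p x hp0 hple
  refine ⟨hsm, ?_, ?_, ?_, ?_⟩
  · have h1 : tau d p 0 = 1 := by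
      unfold tau
      rw [ht0]
      simp
    unfold chi
    calc (1 : ℝ) = tau d p 0 := h1.symm
      _ = ∑ x ∈ ({0} : Finset (Zd d)), tau d p x := by simp
      _ ≤ _ := hsm.sum_le_tsum _ (fun x _ => (ht2 x).1)
  · unfold chi FT
    apply tsum_congr
    intro x
    simp
  · have h1 : ∑' q : ℕ × Zd d, ENNReal.ofReal (tn d p q.1 q.2) ≠ ⊤ := by
      rw [ENNReal.tsum_prod', ENNReal.tsum_comm]
      have h2 : ∑' x : Zd d, ∑' n : ℕ, ENNReal.ofReal (tn d p n x) =
          ENNReal.ofReal (∑' x, tau d p x) := by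
        rw [ENNReal.ofReal_tsum_of_nonneg (fun x => (ht2 x).1) hsm]
        apply tsum_congr
        intro x
        rw [ht1 x, hex x]
      rw [h2]
      exact ENNReal.ofReal_ne_top
    have h3 := ENNReal.summable_toReal h1
    refine h3.congr ?_
    intro q
    rw [ENNReal.toReal_ofReal (htn q.1 q.2)]
  · intro x
    unfold tau
    rw [hex x, ENNReal.tsum_toReal_eq (fun n => ENNReal.ofReal_ne_top)]
    apply tsum_congr
    intro n
    rw [ENNReal.toReal_ofReal (htn n x)]

end Pool.LE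

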