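import Pool.Agent.Helper84.LE.St1
import Pool.Agent.Helper84.LE.BGR
import Pool.Agent.Helper84.LE.BWT

/-!
# LE module Step: one step of the expansion in expectation
-/

set_option autoImplicit false
open scoped BigOperators Polynomial
open Polynomial

namespace Pool.LE

open Classical in
theorem hStep (hPI : StPI) (hOne : StOne) : StStep := by
  intro V _ E p A v x
  have h1 : DD E p A v x = Ex E p (fun ω => mon ω v x - monA ω A v x) := by
    unfold DD GG GA
    rw [← Ex_sub]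
  have h2 : Ex E p (fun ω => mon ω v x - monA ω A v x) =
      Ex E p (fun ω => wA ω A v x + ∑ ub ∈ drt E,
        X * (if s(ub.1, ub.2) ∈ ω then
          wA ω A v ub.1 * monA ω (cl ω ub.1 ub.2 v) ub.2 x else 0)) := by
    refine Ex_congr fun ω hω => ?_
    rw [hPI V ω A v x]
    congr 1
    have h3 : drt ω = (drt E).filter (fun ub => s(ub.1, ub.2) ∈ ω) := by
      ext ub
      rw [Finset.mem_filter, mem_drt', mem_drt']
      exact ⟨fun h => ⟨hω h, h⟩, fun h => h.2⟩
    rw [h3, Finset.sum_filter]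
    refine Finset.sum_congr rfl fun ub _ => ?_
    split_ifs
    · rw [mul_assoc]
    · rw [mul_zero]
  have h5 : LL E p (GA E p) A v x = ∑ ub ∈ drt E, Ex E p (fun ω =>
      C p * X * wA ω A v ub.1 * GA E p (cl ω ub.1 ub.2 v) ub.2 x) := rfl
  have h6 : WW E p A v x = Ex E p (fun ω => wA ω A v x) := rfl
  have h7 : ∀ ub ∈ drt E, Ex E p (fun ω => X * (if s(ub.1, ub.2) ∈ ω then
          wA ω A v ub.1 * monA ω (cl ω ub.1 ub.2 v) ub.2 x else 0)) = Ex E p (fun ω =>
      C p * X * wA ω A v ub.1 * GA E p (cl ω ub.1 ub.2 v) ub.2 x) := by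
    intro ub hub
    have h4 : Ex E p (fun ω => C p * X * wA ω A v ub.1 * GA E p (cl ω ub.1 ub.2 v) ub.2 x) =
        Ex E p (fun ω => (C p * X) * (wA ω A v ub.1 * GA E p (cl ω ub.1 ub.2 v) ub.2 x)) :=
      Ex_congr fun ω _ => by rw [mul_assoc]
    have h8 := hOne V E p A v x ub.1 ub.2 (mem_drt'.1 hub)
    have h9 : Ex E p (fun ω => if s(ub.1, ub.2) ∈ ω then
          wA ω A v ub.1 * monA ω (cl ω ub.1 ub.2 v) ub.2 x else 0) =
        p • Ex E p (fun ω => wA ω A v ub.1 * GA E p (cl ω ub.1 ub.2 v) ub.2 x) := by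
      rw [← h8]
    rw [h4, Ex_mul_left, Ex_mul_left, h9, smul_eq_C_mul]
    generalize Ex E p (fun ω => wA ω A v ub.1 * GA E p (cl ω ub.1 ub.2 v) ub.2 x) = Y
    ring
  rw [h1, h2, Ex_add, Ex_sum, h5, h6, Finset.sum_congr rfl h7]

end Pool.LE
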