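import Pool.Agent.Helper84.LE.St4
import Pool.Agent.Helper84.LE.BGR
import Pool.Agent.Helper84.LE.BWT

/-! MP_e167eb: subcritical summability and finite boxes (module Sub). -/

set_option autoImplicit false
open scoped BigOperators ENNReal
open MeasureTheory

namespace Pool.LE

theorem hSub (hPH : StPH) (hEM : StExpMom) (hPE : StPolyExp) (hTB : StTauBasic) : StSub := by
  intro d p hd h0 hp
  obtain ⟨-, q2, q3, -⟩ := hPH d hd
  obtain ⟨S, hS, hphi⟩ := q3 p h0 hp
  have h12 : p ≤ 1 / 2 := hp.le.trans q2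
  obtain ⟨r, hr, hsum⟩ := hEM d p S h0 h12 hS hphi
  obtain ⟨K, hK⟩ := hPE d r hr
  obtain ⟨-, -, -, t4, t5⟩ := hTB d p h0 (by linarith)
  have h1 : Summable (fun x : Zd d => r ^ n1 x * tau d p x) := by
    have h2 := ENNReal.summable_toReal hsum.ne
    refine h2.congr fun x => ?_
    rw [ENNReal.toReal_mul, ENNReal.toReal_ofReal (pow_nonneg (by linarith) _)]
    rfl
  unfold SumQ
  refine Summable.of_norm_bounded (h1.mul_left K) fun x => ?_
  have hQ : 0 ≤ Qw x := by
    have h : 0 ≤ sq x := Finset.sum_nonneg fun i _ => sq_nonneg _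
    unfold Qw
    linarith
  rw [Real.norm_eq_abs, abs_mul, abs_abs, abs_of_nonneg hQ, abs_of_nonneg (t5 x).1, ← mul_assoc]
  exact mul_le_mul_of_nonneg_right (hK x) (t5 x).1

/-- either the connection stays in the box or the sphere is reached -/
theorem sb_exit (hBox : StBox) {d R : ℕ} {ω : Finset (Sym2 (Zd d))}
    (hω : (ω : Set (Sym2 (Zd d))) ⊆ latE d) {x : Zd d} (hc : con ω 0 x)
    (hn : ¬ ∃ y ∈ bx d (R + 1) \ bx d R, con ω 0 y) : con (ω ∩ Eb d R) 0 x := by
  obtain ⟨-, h2, -, -, -, h6, h7, h8, -, -, -, -, -⟩ := hBox d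
  have hstep : ∀ a b : Zd d, a ∈ bx d R → con ω 0 a → s(a, b) ∈ ω → b ∈ bx d R := by
    intro a b ha hca hab
    by_contra hb
    have hnb : b ∈ nb a := (h6 a b).1 (hω hab)
    exact hn ⟨b, Finset.mem_sdiff.2 ⟨h7 a b R ha hnb, hb⟩, con_trans hca (con_of_mem hab)⟩
  have hwalk : ∀ (a z : Zd d) (_ : (gr ω).Walk a z), a ∈ bx d R → con ω 0 a → z ∈ bx d R := by
    intro a z q
    induction q with
    | nil => exact fun h _ => h
    | cons hadj _ ih =>
      intro ha hca
      have hm := (gr_adj.1 hadj).1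
      exact ih (hstep _ _ ha hca hm) (con_trans hca (con_of_mem hm))
  have h0 : (0 : Zd d) ∈ bx d R := by
    rw [h2]
    intro i
    rw [Pi.zero_apply, abs_zero]
    exact Int.natCast_nonneg R
  have hin : ∀ z, con ω 0 z → z ∈ bx d R := by
    rintro z ⟨q⟩
    exact hwalk 0 z q h0 (con_refl ω 0)
  refine (con_iff_of_cluster (η := ω ∩ Eb d R) ?_ x).1 hc
  intro e he
  induction e using Sym2.ind with
  | _ a b =>
    constructor
    · intro hab
      rw [Finset.mem_inter]
      refine ⟨hab, ?_⟩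
      obtain ⟨v, hv, hcv⟩ := he
      have hboth : con ω 0 a ∧ con ω 0 b := by
        rcases Sym2.mem_iff.1 hv with rfl | rfl
        · exact ⟨hcv, con_trans hcv (con_of_mem hab)⟩
        · exact ⟨con_trans hcv (con_symm (con_of_mem hab)), hcv⟩
      unfold Eb
      rw [h8]
      exact ⟨hin a hboth.1, hin b hboth.2, (h6 a b).1 (hω hab)⟩
    · intro hab
      exact (Finset.mem_inter.1 hab).1

theorem hTauBox (hBox : StBox) (hTB : StTauBasic) : StTauBox := by
  classical
  have _ := hTB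
  intro d R p x h0 h1 _
  obtain ⟨-, -, -, -, -, -, -, -, h9, h10, -, -, -⟩ := hBox d
  have key : ∀ R' : ℕ, R ≤ R' → Pr (Eb d R') p (fun ω => con ω 0 x) ≤
      Pr (Eb d R) p (fun ω => con ω 0 x) + ∑ y ∈ (bx d (R + 1)) \ (bx d R), tauE d p y := by
    intro R' hR
    have s1 : Pr (Eb d R') p (fun ω => con ω 0 x) ≤
        Pr (Eb d R') p (fun ω => con (ω ∩ Eb d R) 0 x ∨
          ∃ y : {y // y ∈ bx d (R + 1) \ bx d R}, con ω 0 y.1) := by
      refine Pr_mono fun ω hω hc => ?_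
      by_cases h : ∃ y ∈ bx d (R + 1) \ bx d R, con ω 0 y
      · obtain ⟨y, hy, hcy⟩ := h
        exact Or.inr ⟨⟨y, hy⟩, hcy⟩
      · exact Or.inl (sb_exit hBox (fun e he => h9 (bx d R') (hω he)) hc h)
    have s2 : Pr (Eb d R') p (fun ω => con (ω ∩ Eb d R) 0 x) =
        Pr (Eb d R) p (fun ω => con ω 0 x) := by
      unfold Pr
      exact ExE_inter (h10 R R' hR) h0 h1 (fun ω => if con ω 0 x then 1 else 0)
    have s3 : Pr (Eb d R') p (fun ω => ∃ y : {y // y ∈ bx d (R + 1) \ bx d R}, con ω 0 y.1) ≤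
        ∑ y ∈ (bx d (R + 1)) \ (bx d R), tauE d p y := by
      refine (Pr_exists_le (fun (y : {y // y ∈ bx d (R + 1) \ bx d R}) ω =>
        con ω 0 y.1)).trans ?_
      rw [tsum_fintype, ← Finset.sum_coe_sort (bx d (R + 1) \ bx d R) (fun y => tauE d p y)]
      refine Finset.sum_le_sum fun y _ => ?_
      unfold tauE
      exact le_iSup (fun R => Pr (Eb d R) p (fun ω => con ω 0 (y : Zd d))) R'
    refine s1.trans ((Pr_or_le (fun ω => con (ω ∩ Eb d R) 0 x) (fun ω =>
      ∃ y : {y // y ∈ bx d (R + 1) \ bx d R}, con ω 0 y.1)).trans ?_)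
    rw [s2]
    exact add_le_add_right s3 _
  unfold tauE
  refine iSup_le fun R' => ?_
  refine (Pr_mono_edges (h10 R' (max R R') (le_max_right _ _)) h0 h1
    fun ω η hωη h => con_mono hωη h).trans (key _ (le_max_left _ _))

end Pool.LE
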