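import Pool.Agent.Helper84.LE.M_Transl

/-! LE module SymT (plan 4.3): signed permutations. -/

set_option autoImplicit false
open scoped BigOperators

namespace Pool.LE

section SymT

variable {d : ℕ}

/-- signed permutation as a bijection -/
def sgpE (σ : Equiv.Perm (Fin d)) (s : Fin d → ℤˣ) : Zd d ≃ Zd d where
  toFun := sgp σ s
  invFun := fun y i => (s (σ.symm i) : ℤ) * y (σ.symm i)
  left_inv := by
    intro x
    funext i
    change (s (σ.symm i) : ℤ) * ((s (σ.symm i) : ℤ) * x (σ (σ.symm i))) = x i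
    rw [Equiv.apply_symm_apply, ← mul_assoc, ← Units.val_mul, Int.units_mul_self]
    simp
  right_inv := by
    intro y
    funext i
    unfold sgp
    simp only [Equiv.symm_apply_apply]
    rw [← mul_assoc, ← Units.val_mul, Int.units_mul_self]
    simp

theorem sgpE_apply (σ : Equiv.Perm (Fin d)) (s : Fin d → ℤˣ) (x : Zd d) :
    sgpE σ s x = sgp σ s x := rfl

theorem sgp_add (σ : Equiv.Perm (Fin d)) (s : Fin d → ℤˣ) (x y : Zd d) :
    sgp σ s (x + y) = sgp σ s x + sgp σ s y := by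
  funext i; simp [sgp, mul_add]

theorem sgp_sub (σ : Equiv.Perm (Fin d)) (s : Fin d → ℤˣ) (x y : Zd d) :
    sgp σ s (x - y) = sgp σ s x - sgp σ s y := by
  funext i; simp [sgp, mul_sub]

theorem sgp_zero (σ : Equiv.Perm (Fin d)) (s : Fin d → ℤˣ) : sgp σ s 0 = 0 := by
  funext i; simp [sgp]

theorem sgp_single (σ : Equiv.Perm (Fin d)) (s : Fin d → ℤˣ) (i : Fin d) :
    sgp σ s (Pi.single i 1) = Pi.single (σ.symm i) (s (σ.symm i) : ℤ) := by
  funext k
  unfold sgp
  by_cases h : k = σ.symm i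
  · subst h; simp
  · rw [Pi.single_eq_of_ne h, Pi.single_eq_of_ne, mul_zero]
    intro h'
    apply h
    rw [← h', Equiv.symm_apply_apply]

theorem sgp_single_cases (σ : Equiv.Perm (Fin d)) (s : Fin d → ℤˣ) (i : Fin d) :
    ∃ j : Fin d, sgp σ s (Pi.single i 1) = Pi.single j 1 ∨
      sgp σ s (Pi.single i 1) = - Pi.single j 1 := by
  refine ⟨σ.symm i, ?_⟩
  rw [sgp_single]
  rcases Int.units_eq_one_or (s (σ.symm i)) with h | h
  · left; rw [h]; rfl
  · right; rw [h]
    funext k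
    by_cases hk : k = σ.symm i
    · subst hk; simp
    · simp [Pi.single_eq_of_ne hk]

theorem sym_mem_bx {R : ℕ} {x : Zd d} : x ∈ bx d R ↔ ∀ i, |x i| ≤ R := by
  unfold bx
  rw [Fintype.mem_piFinset]
  refine forall_congr' fun i => ?_
  rw [Finset.mem_Icc, abs_le]

theorem sgp_mem_bx {R : ℕ} (σ : Equiv.Perm (Fin d)) (s : Fin d → ℤˣ) {x : Zd d}
    (h : x ∈ bx d R) : sgp σ s x ∈ bx d R := by
  rw [sym_mem_bx] at h ⊢
  intro i
  unfold sgp
  rw [abs_mul]
  have : |((s i : ℤˣ) : ℤ)| = 1 := by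
    rcases Int.units_eq_one_or (s i) with h | h <;> rw [h] <;> simp
  rw [this, one_mul]
  exact h _

theorem sym_mem_nb {x b : Zd d} :
    b ∈ nb x ↔ ∃ i : Fin d, b = x + Pi.single i 1 ∨ b = x - Pi.single i 1 := by
  unfold nb
  simp only [Finset.mem_union, Finset.mem_image, Finset.mem_univ, true_and]
  constructor
  · rintro (⟨i, rfl⟩ | ⟨i, rfl⟩)
    · exact ⟨i, Or.inl rfl⟩
    · exact ⟨i, Or.inr rfl⟩
  · rintro ⟨i, rfl | rfl⟩
    · exact Or.inl ⟨i, rfl⟩
    · exact Or.inr ⟨i, rfl⟩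

theorem sgp_mem_nb (σ : Equiv.Perm (Fin d)) (s : Fin d → ℤˣ) {x b : Zd d} (h : b ∈ nb x) :
    sgp σ s b ∈ nb (sgp σ s x) := by
  rw [sym_mem_nb] at h ⊢
  obtain ⟨i, h⟩ := h
  obtain ⟨j, hj⟩ := sgp_single_cases σ s i
  refine ⟨j, ?_⟩
  rcases h with rfl | rfl
  · rw [sgp_add]
    rcases hj with hj | hj <;> rw [hj]
    · exact Or.inl rfl
    · right; rw [sub_eq_add_neg]
  · rw [sgp_sub]
    rcases hj with hj | hj <;> rw [hj]
    · exact Or.inr rfl
    · left; rw [sub_neg_eq_add]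

theorem sym_mem_ES {S : Finset (Zd d)} {e : Sym2 (Zd d)} :
    e ∈ ES S ↔ ∃ x ∈ S, ∃ i : Fin d, x + Pi.single i 1 ∈ S ∧ e = s(x, x + Pi.single i 1) := by
  unfold ES
  simp only [Finset.mem_image, Finset.mem_filter, Finset.mem_product, Finset.mem_univ, and_true]
  constructor
  · rintro ⟨⟨x, i⟩, ⟨h1, h2⟩, rfl⟩
    exact ⟨x, h1, i, h2, rfl⟩
  · rintro ⟨x, h1, i, h2, rfl⟩
    exact ⟨(x, i), ⟨h1, h2⟩, rfl⟩

theorem sgp_ES (σ : Equiv.Perm (Fin d)) (s : Fin d → ℤˣ) (S : Finset (Zd d))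
    (hS : ∀ x ∈ S, sgp σ s x ∈ S) : (ES S).map (sgpE σ s).toEmbedding.sym2Map = ES S := by
  refine Finset.eq_of_subset_of_card_le ?_ (by rw [Finset.card_map])
  intro e he
  rw [Finset.mem_map] at he
  obtain ⟨e', he', rfl⟩ := he
  rw [sym_mem_ES] at he'
  obtain ⟨x, hx, i, hxi, rfl⟩ := he'
  have e1 : (sgpE σ s).toEmbedding.sym2Map s(x, x + Pi.single i 1) =
      s(sgp σ s x, sgp σ s (x + Pi.single i 1)) := rfl
  rw [e1, sym_mem_ES]
  have h1 := hS x hx
  have h2 := hS _ hxi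
  obtain ⟨j, hj | hj⟩ := sgp_single_cases σ s i
  · refine ⟨sgp σ s x, h1, j, ?_, ?_⟩
    · rw [sgp_add, hj] at h2; exact h2
    · rw [sgp_add, hj]
  · refine ⟨sgp σ s (x + Pi.single i 1), h2, j, ?_, ?_⟩
    · rw [sgp_add, hj, neg_add_cancel_right]; exact h1
    · rw [sgp_add, hj, neg_add_cancel_right]; exact Sym2.eq_swap

theorem sgp_Eb (σ : Equiv.Perm (Fin d)) (s : Fin d → ℤˣ) (R : ℕ) :
    (Eb d R).map (sgpE σ s).toEmbedding.sym2Map = Eb d R :=
  sgp_ES σ s (bx d R) fun _ hx => sgp_mem_bx σ s hx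

theorem sym_sum_bx (σ : Equiv.Perm (Fin d)) (s : Fin d → ℤˣ) (R : ℕ) (F : Zd d → ℝ) :
    ∑ u ∈ bx d R, F u = ∑ u ∈ bx d R, F (sgp σ s u) := by
  have h : (bx d R).map (sgpE σ s).toEmbedding = bx d R := by
    refine Finset.eq_of_subset_of_card_le ?_ (by rw [Finset.card_map])
    intro x hx
    rw [Finset.mem_map] at hx
    obtain ⟨y, hy, rfl⟩ := hx
    exact sgp_mem_bx σ s hy
  conv_lhs => rw [← h]
  rw [Finset.sum_map]
  rfl

theorem sym_sum_nb (σ : Equiv.Perm (Fin d)) (s : Fin d → ℤˣ) (x : Zd d) (F : Zd d → ℝ) :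
    ∑ b ∈ nb (sgp σ s x), F b = ∑ b ∈ nb x, F (sgp σ s b) := by
  have h : (nb x).map (sgpE σ s).toEmbedding = nb (sgp σ s x) := by
    ext b
    rw [Finset.mem_map]
    constructor
    · rintro ⟨y, hy, rfl⟩
      exact sgp_mem_nb σ s hy
    · intro hb
      rw [sym_mem_nb] at hb
      obtain ⟨i, hi⟩ := hb
      -- the preimage of the unit vector is a signed unit vector
      have hpre : sgp σ s (Pi.single (σ i) (s i : ℤ)) = Pi.single i 1 := by
        funext k
        unfold sgp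
        by_cases hk : k = i
        · subst hk
          rw [Pi.single_eq_same, Pi.single_eq_same, ← Units.val_mul, Int.units_mul_self]
          rfl
        · rw [Pi.single_eq_of_ne hk, Pi.single_eq_of_ne (fun h => hk (σ.injective h)), mul_zero]
      have hs : Pi.single (σ i) (s i : ℤ) = (Pi.single (σ i) 1 : Zd d) ∨
          Pi.single (σ i) (s i : ℤ) = (- Pi.single (σ i) 1 : Zd d) := by
        rcases Int.units_eq_one_or (s i) with h | h
        · left; rw [h]; rfl
        · right; rw [h]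
          funext k
          by_cases hk : k = σ i
          · subst hk; simp
          · simp [Pi.single_eq_of_ne hk]
      rcases hi with rfl | rfl
      · refine ⟨x + Pi.single (σ i) (s i : ℤ), ?_, ?_⟩
        · rw [sym_mem_nb]
          refine ⟨σ i, ?_⟩
          rcases hs with hs | hs <;> rw [hs]
          · exact Or.inl rfl
          · right; rw [sub_eq_add_neg]
        · change sgp σ s _ = _
          rw [sgp_add, hpre]
      · refine ⟨x - Pi.single (σ i) (s i : ℤ), ?_, ?_⟩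
        · rw [sym_mem_nb]
          refine ⟨σ i, ?_⟩
          rcases hs with hs | hs <;> rw [hs]
          · exact Or.inr rfl
          · left; rw [sub_neg_eq_add]
        · change sgp σ s _ = _
          rw [sgp_sub, hpre]
  rw [← h, Finset.sum_map]
  rfl

end SymT

theorem hSymT : StSymT := by
  intro d p n σ s x
  unfold tn
  have h := tsl_GG (sgpE σ s) (Eb d n) p 0 x
  rw [sgp_Eb, sgpE_apply, sgpE_apply, sgp_zero] at h
  rw [h]

theorem hSymG (hT : StSymT) : StSymG := by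
  intro d p n
  induction n using Nat.strong_induction_on with
  | _ n ih =>
    intro σ s x
    rw [gm]
    beta_reduce
    rw [hT d p n σ s x]
    refine congrArg (fun r : ℝ => tn d p n x - r) ?_
    refine Finset.sum_congr rfl fun j _ => ?_
    rw [sym_sum_bx σ s]
    refine Finset.sum_congr rfl fun u _ => ?_
    rw [sym_sum_nb σ s]
    refine Finset.sum_congr rfl fun b _ => ?_
    rw [ih j j.2 σ s u, ← sgp_sub, hT d p _ σ s (x - b)]

end Pool.LE
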