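import Pool.Agent.Helper84.LE.St2
import Pool.Agent.Helper84.LE.BGR
import Pool.Agent.Helper84.LE.BWT

/-! MP_e167eb: basic facts about the connection probability of the lattice. -/

set_option autoImplicit false
open scoped BigOperators Polynomial
open Polynomial

namespace Pool.LE

theorem hTauBasic (hS : StTauSum) (hSy : StSymT) : StTauBasic := by
  intro d p h0 h1
  have hle : ∀ x : Zd d, tauE d p x ≤ 1 := fun x => iSup_le fun R => Pr_le_one h0 h1 _ _
  have hof : ∀ x : Zd d, ENNReal.ofReal (tau d p x) = tauE d p x := fun x =>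
    ENNReal.ofReal_toReal (ne_top_of_le_ne_top ENNReal.one_ne_top (hle x))
  refine ⟨hle, ?_, ?_, hof, ?_⟩
  · refine le_antisymm (hle 0) ?_
    refine le_trans ?_ (le_iSup (fun R : ℕ => Pr (Eb d R) p (fun ω => con ω 0 0)) 0)
    have h2 : Pr (Eb d 0) p (fun ω => con ω (0 : Zd d) 0) = 1 := by
      unfold Pr
      exact (ExE_congr fun ω _ => if_pos (con_refl ω 0)).trans (ExE_const h0 h1 (Eb d 0) 1)
    exact h2.ge
  · intro σ s x
    unfold tau
    congr 1
    rw [hS d p _ h0 h1, hS d p _ h0 h1]
    exact tsum_congr fun n => by rw [hSy d p n σ s x]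
  · intro x
    refine ⟨ENNReal.toReal_nonneg, ?_⟩
    have h2 := ENNReal.toReal_mono ENNReal.one_ne_top (hle x)
    rwa [ENNReal.toReal_one] at h2

end Pool.LE
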