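import Pool.Agent.Helper84.LE.St4
import Pool.Agent.Helper84.LE.BWT
import Pool.Agent.Helper84.LE.M_Box

/-! MP_e167eb: continuity of the two-point function in `p`, below `pH`. -/

set_option autoImplicit false
open scoped BigOperators Topology
open MeasureTheory Filter

namespace Pool.LE

theorem tc_half {d : ℕ} {p : ℝ} (h0 : 0 ≤ p) (h : p < pH d) : p ≤ 1 / 2 := by
  unfold pH at h
  rcases Set.eq_empty_or_nonempty {p : ℝ | 0 ≤ p ∧ p ≤ 1 / 2 ∧
      ∃ S : Finset (Zd d), 0 ∈ S ∧ phiS d p S < 1} with hS | hS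
  · rw [hS, Real.sSup_empty] at h
    linarith
  · obtain ⟨q, hq, hpq⟩ := exists_lt_of_lt_csSup hS h
    linarith [hq.2.1]

theorem tc_one {d : ℕ} {p : ℝ} (h0 : 0 ≤ p) (h : p < pH d) : p ≤ 1 := by
  linarith [tc_half h0 h]

open Classical in
/-- the connection probability in a box, a polynomial in `p` -/
noncomputable def tcF (d R : ℕ) (x : Zd d) (p : ℝ) : ℝ :=
  Ex (Eb d R) p (fun ω => if con ω 0 x then (1 : ℝ) else 0)

theorem tcF_cont (d R : ℕ) (x : Zd d) : Continuous (tcF d R x) := by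
  unfold tcF Ex wt
  refine continuous_finsetSum _ fun ω _ => ?_
  simp only [smul_eq_mul]
  fun_prop

theorem tcF_Pr {d R : ℕ} {x : Zd d} {p : ℝ} (h0 : 0 ≤ p) (h1 : p ≤ 1) :
    Pr (Eb d R) p (fun ω => con ω 0 x) = ENNReal.ofReal (tcF d R x p) := by
  classical
  unfold Pr tcF
  rw [← ExE_ofReal h0 h1 _ _ (fun ω => by split_ifs <;> simp)]
  refine ExE_congr fun ω _ => ?_
  split_ifs <;> simp

theorem tcF_nonneg {d R : ℕ} {x : Zd d} {p : ℝ} (h0 : 0 ≤ p) (h1 : p ≤ 1) :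
    0 ≤ tcF d R x p := by
  classical
  unfold tcF Ex
  refine Finset.sum_nonneg fun ω _ => ?_
  rw [smul_eq_mul]
  refine mul_nonneg (wt_nonneg h0 h1 _ _) ?_
  show (0 : ℝ) ≤ if con ω 0 x then 1 else 0
  split_ifs <;> norm_num

theorem tc_mono (hTM : StTauMono) (hTB : StTauBasic) {d : ℕ} {p p' : ℝ} (h0 : 0 ≤ p)
    (h : p ≤ p') (h1 : p' ≤ 1) (x : Zd d) : tau d p x ≤ tau d p' x := by
  unfold tau
  refine ENNReal.toReal_mono ?_ (hTM d p p' x h0 h h1)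
  exact ne_top_of_le_ne_top ENNReal.one_ne_top ((hTB d p' (h0.trans h) h1).1 x)

/-- comparison with a finite box -/
theorem tc_diff (hTBx : StTauBox) (hTM : StTauMono) (hTB : StTauBasic) {d R : ℕ} {p p1 : ℝ}
    {x : Zd d} (h0 : 0 ≤ p) (h : p ≤ p1) (h1 : p1 ≤ 1) (hx : x ∈ bx d R) :
    |tau d p x - tcF d R x p| ≤ ∑ y ∈ bx d (R + 1) \ bx d R, tau d p1 y := by
  have hp1 : p ≤ 1 := h.trans h1
  obtain ⟨-, -, -, b1, b2⟩ := hTB d p h0 hp1
  obtain ⟨-, -, -, c1, c2⟩ := hTB d p1 (h0.trans h) h1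
  have e1 : ENNReal.ofReal (tcF d R x p) ≤ ENNReal.ofReal (tau d p x) := by
    rw [← tcF_Pr h0 hp1, b1]
    exact le_iSup (fun R : ℕ => Pr (Eb d R) p (fun ω => con ω 0 x)) R
  rw [ENNReal.ofReal_le_ofReal_iff (b2 x).1] at e1
  have hs : 0 ≤ ∑ y ∈ bx d (R + 1) \ bx d R, tau d p1 y :=
    Finset.sum_nonneg fun y _ => (c2 y).1
  have e2 : ENNReal.ofReal (tau d p x) ≤
      ENNReal.ofReal (tcF d R x p + ∑ y ∈ bx d (R + 1) \ bx d R, tau d p1 y) := by
    rw [ENNReal.ofReal_add (tcF_nonneg h0 hp1) hs, ENNReal.ofReal_sum_of_nonneg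
      (fun y _ => (c2 y).1), ← tcF_Pr h0 hp1, b1]
    refine le_trans (hTBx d R p x h0 hp1 hx) (add_le_add le_rfl ?_)
    refine Finset.sum_le_sum fun y _ => ?_
    rw [c1]
    exact hTM d p p1 y h0 h h1
  rw [ENNReal.ofReal_le_ofReal_iff (add_nonneg (tcF_nonneg h0 hp1) hs)] at e2
  rw [abs_le]
  constructor <;> linarith

/-- sums over shells tend to zero -/
theorem tc_shell {d : ℕ} {f : Zd d → ℝ} (hf : Summable f) :
    Tendsto (fun R : ℕ => ∑ y ∈ bx d (R + 1) \ bx d R, f y) atTop (𝓝 0) := by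
  have h1 : Tendsto (fun R : ℕ => bx d R) atTop atTop :=
    Filter.tendsto_atTop_finset_of_monotone (fun _ _ h => bx_mono h) exists_mem_bx
  have h2 := hf.hasSum.comp h1
  have h3 := h2.comp (tendsto_add_atTop_nat 1)
  have h4 := h3.sub h2
  rw [sub_self] at h4
  refine h4.congr fun R => ?_
  simp only [Function.comp_apply]
  rw [← Finset.sum_sdiff (bx_mono (Nat.le_succ R) : bx d R ⊆ bx d (R + 1)), add_sub_cancel_right]

theorem tc_sum {d : ℕ} {f : Zd d → ℝ} (h0 : ∀ x, 0 ≤ f x) (hf : SumQ f) : Summable f := by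
  refine Summable.of_nonneg_of_le h0 (fun x => ?_) hf
  rw [abs_of_nonneg (h0 x)]
  have h1 : 1 ≤ Qw x := by
    unfold Qw sq
    have : 0 ≤ ∑ i, (x i : ℝ) ^ 2 := Finset.sum_nonneg fun i _ => sq_nonneg _
    linarith
  exact le_mul_of_one_le_left (h0 x) h1

theorem hTauCont0 (hTBx : StTauBox) (hSub : StSub) (hTM : StTauMono) (hTB : StTauBasic) :
    StTauCont0 := by
  intro d x hd p₀ hp₀
  obtain ⟨p1, hp1, hp2⟩ := exists_between hp₀.2
  have h01 : 0 ≤ p1 := hp₀.1.trans hp1.le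
  have h11 : p1 ≤ 1 := tc_one h01 hp2
  have hpos : ∀ y, 0 ≤ tau d p1 y := fun y => ((hTB d p1 h01 h11).2.2.2.2 y).1
  have hsum : Summable (tau d p1) := tc_sum hpos (hSub d p1 hd h01 hp2)
  have hu : TendstoUniformlyOn (fun (R : ℕ) (p : ℝ) => tcF d R x p) (fun p => tau d p x) atTop
      (Set.Icc 0 p1) := by
    rw [Metric.tendstoUniformlyOn_iff]
    intro ε hε
    obtain ⟨R0, hR0⟩ := exists_mem_bx x
    filter_upwards [(tc_shell hsum).eventually (gt_mem_nhds hε), eventually_ge_atTop R0] with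
      R hR hR' p hp
    rw [Real.dist_eq]
    exact lt_of_le_of_lt (tc_diff hTBx hTM hTB hp.1 hp.2 h11 (bx_mono hR' hR0)) hR
  have hc : ContinuousOn (fun p => tau d p x) (Set.Icc 0 p1) :=
    hu.continuousOn (Filter.Frequently.of_forall fun R => (tcF_cont d R x).continuousOn)
  refine (hc p₀ ⟨hp₀.1, hp1.le⟩).mono_of_mem_nhdsWithin ?_
  rw [mem_nhdsWithin]
  exact ⟨Set.Iio p1, isOpen_Iio, hp1, fun y hy => ⟨hy.2.1, (Set.mem_Iio.1 hy.1).le⟩⟩

theorem hTauCont (h0 : StTauCont0) (hSub : StSub) (hTM : StTauMono) (hTB : StTauBasic) :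
    StTauCont := by
  intro d hd p₀ hp₀ hp₀' ε hε
  obtain ⟨p1, hp1, hp2⟩ := exists_between hp₀'
  have h01 : 0 ≤ p1 := hp₀.trans hp1.le
  have h11 : p1 ≤ 1 := tc_one h01 hp2
  have hpos : ∀ p, 0 ≤ p → p ≤ 1 → ∀ y, 0 ≤ tau d p y := fun p a b y =>
    ((hTB d p a b).2.2.2.2 y).1
  have hQ : ∀ x : Zd d, 0 ≤ Qw x := by
    intro x
    unfold Qw sq
    have : 0 ≤ ∑ i, (x i : ℝ) ^ 2 := Finset.sum_nonneg fun i _ => sq_nonneg _
    linarith
  have hsum : Summable fun x => Qw x * tau d p1 x := by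
    refine (hSub d p1 hd h01 hp2).congr fun x => ?_
    rw [abs_of_nonneg (hpos p1 h01 h11 x)]
  have hT : Tendsto (fun p => ∑' x : Zd d, Qw x * |tau d p x - tau d p₀ x|)
      (𝓝[Set.Ico 0 (pH d)] p₀) (𝓝 (∑' _ : Zd d, (0 : ℝ))) := by
    refine tendsto_tsum_of_dominated_convergence hsum (fun x => ?_) ?_
    · have h1 := (h0 d x hd) p₀ ⟨hp₀, hp₀'⟩
      have h2 : Tendsto (fun p => tau d p x) (𝓝[Set.Ico 0 (pH d)] p₀) (𝓝 (tau d p₀ x)) := h1
      have h3 := ((h2.sub_const (tau d p₀ x)).abs).const_mul (Qw x)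
      rw [sub_self, abs_zero, mul_zero] at h3
      exact h3
    · have h1 : Set.Iio p1 ∈ 𝓝[Set.Ico 0 (pH d)] p₀ :=
        mem_nhdsWithin_of_mem_nhds (Iio_mem_nhds hp1)
      filter_upwards [h1, self_mem_nhdsWithin] with p hp hp' x
      have a1 := hpos p hp'.1 (tc_one hp'.1 hp'.2) x
      have a2 := hpos p₀ hp₀ (tc_one hp₀ hp₀') x
      have a3 := tc_mono hTM hTB hp'.1 (Set.mem_Iio.1 hp).le h11 x
      have a4 := tc_mono hTM hTB hp₀ hp1.le h11 x
      rw [Real.norm_eq_abs, abs_of_nonneg (mul_nonneg (hQ x) (abs_nonneg _))]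
      refine mul_le_mul_of_nonneg_left ?_ (hQ x)
      rw [abs_le]
      constructor <;> linarith
  rw [tsum_zero] at hT
  have h2 := hT.eventually (gt_mem_nhds hε)
  obtain ⟨δ, hδ, h3⟩ := Metric.mem_nhdsWithin_iff.1 h2
  refine ⟨δ, hδ, fun p hp hp' hd' => ?_⟩
  have h4 : p ∈ Metric.ball p₀ δ ∩ Set.Ico 0 (pH d) := by
    refine ⟨?_, hp, hp'⟩
    rw [Metric.mem_ball, Real.dist_eq]
    exact hd'
  exact (h3 h4).le

end Pool.LE
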