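import Pool.Agent.Helper84.LE.St2
import Pool.Agent.Helper84.LE.BGR
import Pool.Agent.Helper84.LE.BWT

/-! MP_e167eb: modules TauDom and TauMono. -/

set_option autoImplicit false
open scoped BigOperators Polynomial
open Polynomial

namespace Pool.LE

theorem mem_trE {d : ℕ} {v a b : Zd d} {E : Finset (Sym2 (Zd d))} :
    s(a, b) ∈ trE v E ↔ s(-v + a, -v + b) ∈ E := by
  unfold trE
  rw [Finset.mem_map]
  constructor
  · rintro ⟨e, he, h⟩
    induction e using Sym2.ind with
    | _ x y =>
      have h' : s(v + x, v + y) = s(a, b) := h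
      rw [Sym2.eq_iff] at h'
      rcases h' with ⟨h1, h2⟩ | ⟨h1, h2⟩
      · rw [← h1, ← h2, neg_add_cancel_left, neg_add_cancel_left]
        exact he
      · rw [← h1, ← h2, neg_add_cancel_left, neg_add_cancel_left, Sym2.eq_swap]
        exact he
  · intro h
    refine ⟨_, h, ?_⟩
    change s(v + (-v + a), v + (-v + b)) = s(a, b)
    rw [add_neg_cancel_left, add_neg_cancel_left]

theorem trE_trE_neg {d : ℕ} (v : Zd d) (E : Finset (Sym2 (Zd d))) : trE v (trE (-v) E) = E := by
  ext e
  induction e using Sym2.ind with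
  | _ a b => rw [mem_trE, mem_trE, neg_neg, add_neg_cancel_left, add_neg_cancel_left]

theorem con_inc {V : Type} [DecidableEq V] {x y : V} :
    ∀ ω η : Finset (Sym2 V), ω ⊆ η → con ω x y → con η x y := fun _ _ h hc => con_mono h hc

theorem hTauDom (hT : StTransl) (hBox : StBox) : StTauDom := by
  intro d p E v x h0 h1 hE
  obtain ⟨-, -, -, -, hadd, hlat, -, -, -, -, hex, -⟩ := hBox d
  have hF : ((trE (-v) E : Finset (Sym2 (Zd d))) : Set (Sym2 (Zd d))) ⊆ latE d := by
    intro e he
    rw [Finset.mem_coe] at he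
    induction e using Sym2.ind with
    | _ a b =>
      rw [mem_trE, neg_neg] at he
      rw [hlat, hadd a b v, ← hlat]
      exact hE he
  obtain ⟨R, hR⟩ := hex _ hF
  have h2 := (hT d p (trE (-v) E) v 0 (x - v)).2
  rw [trE_trE_neg, add_zero, add_sub_cancel] at h2
  rw [h2]
  exact (Pr_mono_edges hR h0 h1 con_inc).trans
    (le_iSup (fun R : ℕ => Pr (Eb d R) p (fun ω => con ω 0 (x - v))) R)

theorem hTauMono : StTauMono := by
  intro d p p' x h0 hp h1
  unfold tauE
  exact iSup_mono fun R => Pr_mono_p h0 hp h1 con_inc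

end Pool.LE
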