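import Pool.Agent.Helper84.LE.St2
import Pool.Agent.Helper84.LE.BGR
import Pool.Agent.Helper84.LE.BWT

/-! MP_e167eb: the two-point function is the sum of the intrinsic two-point functions
(module TauSum). -/

set_option autoImplicit false
open scoped BigOperators Polynomial
open Polynomial

namespace Pool.LE

section

variable {V : Type} [DecidableEq V]

theorem ts_coeff_mon (ω : Finset (Sym2 V)) (x y : V) (n : ℕ) [Decidable (con ω x y ∧ (gr ω).dist x y = n)] :
    (mon ω x y).coeff n = if con ω x y ∧ (gr ω).dist x y = n then 1 else 0 := by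
  by_cases h : con ω x y
  · rw [mon_of_con h, Polynomial.coeff_X_pow]
    by_cases h' : (gr ω).dist x y = n
    · rw [if_pos h'.symm, if_pos ⟨h, h'⟩]
    · rw [if_neg (fun e => h' e.symm), if_neg (fun e => h' e.2)]
  · rw [mon_eq_zero h, Polynomial.coeff_zero, if_neg (fun e => h e.1)]

/-- the probability that the distance is `n` -/
theorem ts_Pr_dist {p : ℝ} (h0 : 0 ≤ p) (h1 : p ≤ 1) (E : Finset (Sym2 V)) (x y : V) (n : ℕ) :
    Pr E p (fun ω => con ω x y ∧ (gr ω).dist x y = n) =
      ENNReal.ofReal ((GG E p x y).coeff n) := by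
  classical
  unfold GG
  rw [coeff_Ex, ← ExE_ofReal h0 h1 E _ (fun ω => by rw [ts_coeff_mon]; split_ifs <;> norm_num)]
  unfold Pr
  refine ExE_congr fun ω _ => ?_
  rw [ts_coeff_mon]
  by_cases h : con ω x y ∧ (gr ω).dist x y = n
  · rw [if_pos h, if_pos h, ENNReal.ofReal_one]
  · rw [if_neg h, if_neg h, ENNReal.ofReal_zero]

/-- the probability that the distance is at most `N` -/
theorem ts_Pr_le {p : ℝ} (h0 : 0 ≤ p) (h1 : p ≤ 1) (E : Finset (Sym2 V)) (x y : V) (N : ℕ) :
    Pr E p (fun ω => con ω x y ∧ (gr ω).dist x y ≤ N) =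
      ∑ n ∈ Finset.range (N + 1), ENNReal.ofReal ((GG E p x y).coeff n) := by
  classical
  have e : ∀ n ∈ Finset.range (N + 1), ENNReal.ofReal ((GG E p x y).coeff n) =
      ExE E p (fun ω => if con ω x y ∧ (gr ω).dist x y = n then 1 else 0) := by
    intro n _
    rw [← ts_Pr_dist h0 h1]
    unfold Pr
    exact ExE_congr fun ω _ => by congr
  rw [Finset.sum_congr rfl e, ← ExE_sum]
  unfold Pr
  refine ExE_congr fun ω _ => ?_
  by_cases h : con ω x y
  · by_cases h' : (gr ω).dist x y ≤ N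
    · rw [if_pos ⟨h, h'⟩, Finset.sum_eq_single ((gr ω).dist x y)]
      · rw [if_pos ⟨h, rfl⟩]
      · intro n _ hn
        rw [if_neg (fun e => hn e.2.symm)]
      · intro hn
        exact absurd (Finset.mem_range.2 (Nat.lt_succ_of_le h')) hn
    · rw [if_neg (fun e => h' e.2)]
      symm
      refine Finset.sum_eq_zero fun n hn => ?_
      rw [if_neg]
      rintro ⟨-, rfl⟩
      exact h' (Nat.le_of_lt_succ (Finset.mem_range.1 hn))
  · rw [if_neg (fun e => h e.1)]
    symm
    refine Finset.sum_eq_zero fun n _ => ?_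
    rw [if_neg (fun e => h e.1)]

theorem ts_dist_le {ω : Finset (Sym2 V)} {x y : V} (h : con ω x y) :
    (gr ω).dist x y ≤ ω.card := by
  obtain ⟨q, hq, hl⟩ := exists_path_dist h
  rw [← hl, ← SimpleGraph.Walk.length_edges]
  have hnd : q.edges.Nodup := hq.isTrail.edges_nodup
  rw [← List.toFinset_card_of_nodup hnd]
  exact Finset.card_le_card fun e he => mem_edges_gr q (List.mem_toFinset.1 he)

end

theorem ts_trE_zero {d : ℕ} (E : Finset (Sym2 (Zd d))) : trE 0 E = E := by
  ext e
  unfold trE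
  rw [Finset.mem_map]
  have key : ∀ e : Sym2 (Zd d), (Equiv.addLeft (0 : Zd d)).toEmbedding.sym2Map e = e := by
    intro e
    induction e using Sym2.ind with
    | _ a b =>
      show s(0 + a, 0 + b) = s(a, b)
      rw [zero_add, zero_add]
  constructor
  · rintro ⟨e0, h0, rfl⟩
    rw [key]
    exact h0
  · intro h
    exact ⟨e, h, key e⟩

theorem hTauSum (hCL : StCoefLoc) (hBox : StBox) (hW : StWalkBox) : StTauSum := by
  have _ := hW
  intro d p x h0 h1
  obtain ⟨-, -, -, -, -, -, -, -, h9, h10, -, -, -⟩ := hBox d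
  have hcf : ∀ N R : ℕ, N ≤ R → ∑ n ∈ Finset.range (N + 1), ENNReal.ofReal (tn d p n x) =
      ∑ n ∈ Finset.range (N + 1), ENNReal.ofReal ((GG (Eb d R) p 0 x).coeff n) := by
    intro N R hNR
    refine Finset.sum_congr rfl fun n hn => ?_
    have hn' : n ≤ R := (Nat.le_of_lt_succ (Finset.mem_range.1 hn)).trans hNR
    rw [hCL d p n (Eb d R) 0 x (h9 (bx d R)) (by
      rw [ts_trE_zero]
      exact h10 n R hn'), sub_zero]
  apply le_antisymm
  · unfold tauE
    refine iSup_le fun R => ?_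
    set L := (Eb d R).card with hL
    have hRR : R ≤ max R L := le_max_left _ _
    have s1 : Pr (Eb d R) p (fun ω => con ω 0 x) ≤
        Pr (Eb d R) p (fun ω => con ω 0 x ∧ (gr ω).dist 0 x ≤ L) :=
      Pr_mono fun ω hω h => ⟨h, (ts_dist_le h).trans (Finset.card_le_card hω)⟩
    have s2 : Pr (Eb d R) p (fun ω => con ω 0 x ∧ (gr ω).dist 0 x ≤ L) ≤
        Pr (Eb d (max R L)) p (fun ω => con ω 0 x ∧ (gr ω).dist 0 x ≤ L) :=
      Pr_mono_edges (h10 R _ hRR) h0 h1
        fun ω η hωη h => ⟨con_mono hωη h.1, (dist_mono hωη h.1).trans h.2⟩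
    refine (s1.trans s2).trans ?_
    rw [ts_Pr_le h0 h1, ← hcf L (max R L) (le_max_right _ _)]
    exact ENNReal.sum_le_tsum _
  · refine ENNReal.tsum_le_of_sum_range_le fun N => ?_
    refine (Finset.sum_le_sum_of_subset (Finset.range_mono (Nat.le_succ N))).trans ?_
    rw [hcf N N le_rfl, ← ts_Pr_le h0 h1]
    refine (Pr_mono fun ω _ h => h.1).trans ?_
    unfold tauE
    exact le_iSup (fun R => Pr (Eb d R) p (fun ω => con ω 0 x)) N

end Pool.LE
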