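import Pool.Agent.Helper84.LE.St4
import Pool.Agent.Helper84.LE.BGR
import Pool.Agent.Helper84.LE.BWT

/-! MP_e167eb: lower bound for `th` above `pH` (module Theta). -/

set_option autoImplicit false
open scoped BigOperators ENNReal
open Filter

namespace Pool.LE

open Classical in
/-- real valued probability -/
noncomputable def thF (d n : ℕ) (q : ℝ) : ℝ :=
  Ex (Eb d (n + 1)) q (fun ω => if Out n ω then (1 : ℝ) else 0)

theorem thF_cont (d n : ℕ) : Continuous (thF d n) := by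
  unfold thF Ex wt
  refine continuous_finsetSum _ fun ω _ => ?_
  simp only [smul_eq_mul]
  fun_prop

theorem thF_eq {d n : ℕ} {q : ℝ} (h0 : 0 ≤ q) (h1 : q ≤ 1) :
    Pr (Eb d (n + 1)) q (Out n) = ENNReal.ofReal (thF d n q) := by
  classical
  unfold Pr thF
  rw [← ExE_ofReal h0 h1]
  · refine ExE_congr fun ω _ => ?_
    split_ifs <;> simp
  · intro ω
    split_ifs <;> simp

theorem thF_nonneg {d n : ℕ} {q : ℝ} (h0 : 0 ≤ q) (h1 : q ≤ 1) : 0 ≤ thF d n q := by
  unfold thF Ex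
  refine Finset.sum_nonneg fun ω _ => ?_
  rw [smul_eq_mul]
  refine mul_nonneg (wt_nonneg h0 h1 _ _) ?_
  dsimp only
  split_ifs <;> simp

theorem thF_le_one {d n : ℕ} {q : ℝ} (h0 : 0 ≤ q) (h1 : q ≤ 1) : thF d n q ≤ 1 := by
  have h := Pr_le_one h0 h1 (Eb d (n + 1)) (Out n)
  rw [thF_eq h0 h1] at h
  have := ENNReal.ofReal_le_one.1 h
  exact this

theorem th_eq {d n : ℕ} {q : ℝ} (h0 : 0 ≤ q) (h1 : q ≤ 1) : th d n q = thF d n q := by
  unfold th
  rw [thF_eq h0 h1, ENNReal.toReal_ofReal (thF_nonneg h0 h1)]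

theorem out_inc {d : ℕ} (n : ℕ) (ω η : Finset (Sym2 (Zd d))) (h : ω ⊆ η) (ho : Out n ω) :
    Out n η := by
  obtain ⟨y, hy, hc⟩ := ho
  exact ⟨y, hy, con_mono h hc⟩

open Classical in
theorem theta_count {d n : ℕ} {p : ℝ} (h0 : 0 ≤ p) (h1 : p ≤ 1) :
    ExE (Eb d (n + 1)) p (fun ω =>
        (({e ∈ Eb d (n + 1) | ¬ Out n ω ∧ Out n (insert e ω)} : Set (Sym2 (Zd d))).ncard : ENNReal)) =
      ENNReal.ofReal (Ex (Eb d (n + 1)) p (fun ω => ∑ e ∈ Eb d (n + 1),
        if ¬ Out n ω ∧ Out n (insert e ω) then (1 : ℝ) else 0)) := by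
  rw [← ExE_ofReal h0 h1]
  · refine ExE_congr fun ω _ => ?_
    have h2 : ({e ∈ Eb d (n + 1) | ¬ Out n ω ∧ Out n (insert e ω)} : Set (Sym2 (Zd d))) =
        (((Eb d (n + 1)).filter (fun e => ¬ Out n ω ∧ Out n (insert e ω)) :
          Finset (Sym2 (Zd d))) : Set (Sym2 (Zd d))) := by
      ext e
      simp
    rw [h2, Set.ncard_coe_finset, ← Finset.sum_filter, Finset.sum_const, nsmul_eq_mul, mul_one,
      ENNReal.ofReal_natCast]
  · intro ω
    refine Finset.sum_nonneg fun e _ => ?_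
    split_ifs <;> simp

theorem hTheta (hR : StRusso) (hPC : StPivCount) (hPH : StPH) (_hBox : StBox) : StTheta := by
  classical
  intro d hd hpH n p hp hp2
  obtain ⟨hpos, -, -, hphi⟩ := hPH d hd
  have hphi' := hphi hpH
  have key : ∀ q : ℝ, pH d < q → q < 1 / 2 → ∃ D : ℝ, HasDerivAt (thF d n) D q ∧
      2 * (1 - thF d n q) ≤ D := by
    intro q hq hq2
    have q0 : 0 < q := hpos.trans hq
    have q1 : q < 1 := by linarith
    obtain ⟨D, hD, hle⟩ := hR (Zd d) (Eb d (n + 1)) (Out n) (out_inc n) q q0 q1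
    refine ⟨D, hD, ?_⟩
    have h2 := hPC d n q 1 hd q0 q1.le (fun S hS _ => hphi' q hq.le hq2.le S hS) zero_le_one
    rw [ENNReal.ofReal_one, one_mul, theta_count q0.le q1.le, thF_eq q0.le q1.le,
      ← ENNReal.ofReal_mul q0.le, ← ENNReal.ofReal_one,
      ← ENNReal.ofReal_sub _ (thF_nonneg q0.le q1.le)] at h2
    have hE : 0 ≤ Ex (Eb d (n + 1)) q (fun ω => ∑ e ∈ Eb d (n + 1),
        if ¬ Out n ω ∧ Out n (insert e ω) then (1 : ℝ) else 0) := by
      unfold Ex
      refine Finset.sum_nonneg fun ω _ => ?_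
      rw [smul_eq_mul]
      refine mul_nonneg (wt_nonneg q0.le q1.le _ _) (Finset.sum_nonneg fun e _ => ?_)
      split_ifs <;> simp
    have h3 := (ENNReal.ofReal_le_ofReal_iff (mul_nonneg q0.le hE)).1 h2
    have h4 := thF_le_one (d := d) (n := n) q0.le q1.le
    nlinarith [mul_le_mul_of_nonneg_left hle q0.le]
  set G : ℝ → ℝ := fun q => (1 - thF d n q) * Real.exp (2 * q) with hG
  have hcont : ContinuousOn G (Set.Icc (pH d) (1 / 2)) := by
    refine Continuous.continuousOn ?_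
    exact (continuous_const.sub (thF_cont d n)).mul (Real.continuous_exp.comp (by fun_prop))
  have hderiv : ∀ q ∈ interior (Set.Icc (pH d) (1 / 2)), ∃ G' : ℝ, HasDerivAt G G' q ∧ G' ≤ 0 := by
    intro q hq
    rw [interior_Icc] at hq
    obtain ⟨D, hD, hle⟩ := key q hq.1 hq.2
    have h5 : HasDerivAt (fun q : ℝ => Real.exp (2 * q)) (Real.exp (2 * q) * (2 * 1)) q :=
      ((hasDerivAt_id' q).const_mul 2).exp
    have h6 : HasDerivAt (fun q : ℝ => 1 - thF d n q) (-D) q := hD.const_sub 1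
    refine ⟨_, h6.mul h5, ?_⟩
    have h7 : -D * Real.exp (2 * q) + (1 - thF d n q) * (Real.exp (2 * q) * (2 * 1)) =
        (2 * (1 - thF d n q) - D) * Real.exp (2 * q) := by ring
    rw [h7]
    exact mul_nonpos_of_nonpos_of_nonneg (by linarith) (Real.exp_pos _).le
  have hanti : AntitoneOn G (Set.Icc (pH d) (1 / 2)) := by
    refine antitoneOn_of_deriv_nonpos (convex_Icc _ _) hcont ?_ ?_
    · intro q hq
      obtain ⟨G', h, -⟩ := hderiv q hq
      exact h.differentiableAt.differentiableWithinAt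
    · intro q hq
      obtain ⟨G', h, h'⟩ := hderiv q hq
      rwa [h.deriv]
  have hfin := hanti (Set.left_mem_Icc.2 hpH.le) ⟨hp, hp2⟩ hp
  have p0 : 0 ≤ p := hpos.le.trans hp
  have p1 : p ≤ 1 := by linarith
  rw [th_eq p0 p1]
  simp only [hG] at hfin
  have h8 : (1 - thF d n (pH d)) * Real.exp (2 * pH d) ≤ Real.exp (2 * pH d) := by
    have := thF_nonneg (d := d) (n := n) hpos.le (by linarith : pH d ≤ 1)
    exact mul_le_of_le_one_left (Real.exp_pos _).le (by linarith)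
  have h9 : Real.exp (2 * pH d) = Real.exp (-2 * (p - pH d)) * Real.exp (2 * p) := by
    rw [← Real.exp_add]
    congr 1
    ring
  have h10 : (1 - thF d n p) * Real.exp (2 * p) ≤ Real.exp (-2 * (p - pH d)) * Real.exp (2 * p) := by
    rw [← h9]
    exact hfin.trans h8
  have h11 := le_of_mul_le_mul_right h10 (Real.exp_pos _)
  linarith

end Pool.LE
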