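import Pool.Agent.Helper84.LE.St4
import Pool.Agent.Helper84.LE.BGR
import Pool.Agent.Helper84.LE.BWT

/-! MP_e167eb: `th → 0` below `pH` (module ThetaSub). -/

set_option autoImplicit false
open scoped BigOperators ENNReal
open Filter

namespace Pool.LE

theorem thetaSub_pH_le_half (d : ℕ) : pH d ≤ 1 / 2 := by
  unfold pH
  refine Real.sSup_le ?_ (by norm_num)
  rintro x ⟨-, h, -⟩
  exact h

theorem thetaSub_out {d n : ℕ} (hBox : StBox) {ω : Finset (Sym2 (Zd d))}
    (hω : ω ⊆ Eb d (n + 1)) (h : Out n ω) : ∃ y : {y // y ∈ bx d (n + 1) \ bx d n}, con ω 0 y.1 := by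
  obtain ⟨-, h2, -, -, -, -, -, h8, -⟩ := hBox d
  obtain ⟨y, hy, hc⟩ := h
  have h0 : (0 : Zd d) ∈ bx d n := by
    rw [h2]
    intro i
    simp
  have hne : y ≠ 0 := by
    rintro rfl
    exact hy h0
  obtain ⟨b, -, hb, -⟩ := con_cases (con_symm hc) hne
  have h3 : s(y, b) ∈ ES (bx d (n + 1)) := hω hb
  rw [h8] at h3
  exact ⟨⟨y, Finset.mem_sdiff.2 ⟨h3.1, hy⟩⟩, hc⟩

theorem hThetaSub (hSub : StSub) (hTD : StTauDom) (hTB : StTauBasic) (hBox : StBox) :
    StThetaSub := by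
  intro d p hd h0 hp
  have h1 : p ≤ 1 := by
    have := thetaSub_pH_le_half d
    linarith
  obtain ⟨-, -, -, hof, hrange⟩ := hTB d p h0 h1
  have hS := hSub d p hd h0 hp
  have hsum : Summable (tau d p) := by
    refine Summable.of_nonneg_of_le (fun x => (hrange x).1) (fun x => ?_) hS
    have hq : 1 ≤ Qw x := by
      unfold Qw sq
      have : 0 ≤ ∑ i, (x i : ℝ) ^ 2 := Finset.sum_nonneg fun i _ => sq_nonneg _
      linarith
    rw [abs_of_nonneg (hrange x).1]
    exact le_mul_of_one_le_left (hrange x).1 hq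
  obtain ⟨-, h2, -, -, -, -, -, -, h9, -⟩ := hBox d
  have hmono : ∀ n, bx d n ⊆ bx d (n + 1) := by
    intro n x hx
    rw [h2] at hx ⊢
    intro i
    have := hx i
    push_cast
    linarith
  have hSm : Monotone (fun n : ℕ => ∑ y ∈ bx d n, tau d p y) := by
    refine monotone_nat_of_le_succ fun n => ?_
    exact Finset.sum_le_sum_of_subset_of_nonneg (hmono n) fun y _ _ => (hrange y).1
  have hSb : BddAbove (Set.range (fun n : ℕ => ∑ y ∈ bx d n, tau d p y)) := by
    refine ⟨∑' y, tau d p y, ?_⟩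
    rintro _ ⟨n, rfl⟩
    exact hsum.sum_le_tsum _ fun y _ => (hrange y).1
  have hlim := tendsto_atTop_ciSup hSm hSb
  have hlim1 := (tendsto_add_atTop_iff_nat 1).2 hlim
  have hdiff := hlim1.sub hlim
  rw [sub_self] at hdiff
  refine squeeze_zero (fun n => ENNReal.toReal_nonneg) (fun n => ?_) hdiff
  have hle : Pr (Eb d (n + 1)) p (Out n) ≤
      ∑ y ∈ bx d (n + 1) \ bx d n, ENNReal.ofReal (tau d p y) := by
    refine (Pr_mono (B := fun ω => ∃ y : {y // y ∈ bx d (n + 1) \ bx d n}, con ω 0 y.1)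
      fun ω hω h => thetaSub_out hBox hω h).trans ?_
    refine (Pr_exists_le _).trans ?_
    rw [← Finset.tsum_subtype (bx d (n + 1) \ bx d n) (fun y => ENNReal.ofReal (tau d p y))]
    refine ENNReal.tsum_le_tsum fun y => ?_
    rw [hof]
    have := hTD d p (Eb d (n + 1)) 0 y.1 h0 h1 (h9 _)
    rwa [sub_zero] at this
  have h3 : ∑ y ∈ bx d (n + 1) \ bx d n, tau d p y =
      ∑ y ∈ bx d (n + 1), tau d p y - ∑ y ∈ bx d n, tau d p y := by
    rw [← Finset.sum_sdiff (hmono n)]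
    ring
  rw [← ENNReal.ofReal_sum_of_nonneg (fun y _ => (hrange y).1), h3] at hle
  have h4 : 0 ≤ ∑ y ∈ bx d (n + 1), tau d p y - ∑ y ∈ bx d n, tau d p y := by
    rw [← h3]
    exact Finset.sum_nonneg fun y _ => (hrange y).1
  unfold th
  exact ENNReal.toReal_le_of_le_ofReal h4 hle

end Pool.LE
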