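import Pool.Agent.Helper84.LE.St7
import Pool.Agent.Helper84.LE.M_TauSum

/-! MP_e167eb: coefficients as probabilities, complex transform (module TnM). -/

set_option autoImplicit false
open scoped BigOperators Topology
open MeasureTheory Filter

namespace Pool.LE

theorem tm_nonneg {d : ℕ} {p : ℝ} (h0 : 0 ≤ p) (h1 : p ≤ 1) (n : ℕ) (x : Zd d) :
    0 ≤ tn d p n x := by
  classical
  unfold tn GG
  rw [coeff_Ex]
  unfold Ex
  refine Finset.sum_nonneg fun ω _ => ?_
  show 0 ≤ wt (Eb d n) p ω * (mon ω 0 x).coeff n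
  rw [ts_coeff_mon]
  refine mul_nonneg (wt_nonneg h0 h1 _ _) ?_
  split_ifs <;> norm_num

theorem hTnMeas (hLaw : StLaw) (hG : StGdist) : StTnMeas := by
  intro d p n x h0 h1
  have e : {ω | (Gp d p ω).Reachable 0 x ∧ (Gp d p ω).dist 0 x = n} =
      {ω | con (opn d p n ω) 0 x ∧ (gr (opn d p n ω)).dist 0 x = n} := by
    ext ω
    exact hG d p ω n x
  rw [e, (hLaw d n p (fun η => con η 0 x ∧ (gr η).dist 0 x = n) h0 h1).1,
    ts_Pr_dist h0 h1, ENNReal.toReal_ofReal]
  · rfl
  · exact tm_nonneg h0 h1 n x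

theorem tm_neg_bx {d n : ℕ} {x : Zd d} : -x ∈ bx d n ↔ x ∈ bx d n := by
  unfold bx
  rw [Fintype.mem_piFinset, Fintype.mem_piFinset]
  refine forall_congr' fun i => ?_
  rw [Finset.mem_Icc, Finset.mem_Icc, Pi.neg_apply]
  constructor <;> rintro ⟨a, b⟩ <;> constructor <;> omega

theorem hFTcomplex (hSy : StSymT) (hS : StSupp) : StFTcomplex := by
  intro d n p k
  have hev : ∀ x : Zd d, tn d p n (-x) = tn d p n x := by
    intro x
    have h := hSy d p n 1 (fun _ => -1) x
    rw [← h]
    congr 1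
    funext i
    simp [sgp]
  have hz : ∀ x : Zd d, x ∉ bx d n → tn d p n x = 0 := fun x hx => (hS d p n x hx).1
  set t : Zd d → ℝ := fun x => (∑ j : Fin d, k j * (x j : ℝ)) / Real.sqrt n with ht
  have hneg : ∀ x : Zd d, t (-x) = -t x := by
    intro x
    simp only [ht, Pi.neg_apply]
    push_cast
    rw [← neg_div, ← Finset.sum_neg_distrib]
    congr 1
    refine Finset.sum_congr rfl fun j _ => ?_
    ring
  have hsin : ∑ x ∈ bx d n, tn d p n x * Real.sin (t x) = 0 := by
    have h : ∑ x ∈ bx d n, tn d p n x * Real.sin (t x) =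
        ∑ x ∈ bx d n, -(tn d p n x * Real.sin (t x)) := by
      refine Finset.sum_nbij' (fun x => -x) (fun x => -x) ?_ ?_ ?_ ?_ ?_
      · intro x hx
        exact tm_neg_bx.2 hx
      · intro x hx
        exact tm_neg_bx.2 hx
      · intro x _
        exact neg_neg x
      · intro x _
        exact neg_neg x
      · intro x _
        rw [hev, hneg, Real.sin_neg]
        ring
    rw [Finset.sum_neg_distrib] at h
    linarith
  have h1 : ∑' x : Zd d, ((tn d p n x : ℝ) : ℂ) * Complex.exp (Complex.I * ((t x : ℝ) : ℂ)) =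
      ∑ x ∈ bx d n, ((tn d p n x : ℝ) : ℂ) * Complex.exp (Complex.I * ((t x : ℝ) : ℂ)) := by
    refine tsum_eq_sum fun x hx => ?_
    rw [hz x hx, Complex.ofReal_zero, zero_mul]
  have h2 : FT (tn d p n) (fun i => k i / Real.sqrt n) =
      ∑ x ∈ bx d n, tn d p n x * Real.cos (t x) := by
    unfold FT
    rw [tsum_eq_sum (s := bx d n) (fun x hx => by rw [hz x hx, zero_mul])]
    refine Finset.sum_congr rfl fun x _ => ?_
    congr 2
    simp only [ht]
    rw [Finset.sum_div]
    refine Finset.sum_congr rfl fun j _ => ?_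
    ring
  rw [h1, h2]
  have h3 : ∀ x : Zd d, ((tn d p n x : ℝ) : ℂ) * Complex.exp (Complex.I * ((t x : ℝ) : ℂ)) =
      ((tn d p n x * Real.cos (t x) : ℝ) : ℂ) +
        ((tn d p n x * Real.sin (t x) : ℝ) : ℂ) * Complex.I := by
    intro x
    rw [mul_comm Complex.I, Complex.exp_mul_I]
    push_cast
    ring
  rw [Finset.sum_congr rfl fun x _ => h3 x, Finset.sum_add_distrib, ← Finset.sum_mul,
    ← Complex.ofReal_sum, ← Complex.ofReal_sum, hsin, Complex.ofReal_zero, zero_mul, add_zero]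

end Pool.LE
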