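import Pool.Agent.Helper84.LE.St2
import Pool.Agent.Helper84.LE.BWT

/-! LE module Transl: transport by a bijection of the vertices, translations. -/

set_option autoImplicit false

namespace Pool.LE

section Transl

variable {V W : Type} [DecidableEq V] [DecidableEq W]

/-- the graph of the image configuration -/
def tslIso (σ : V ≃ W) (ω : Finset (Sym2 V)) :
    gr ω ≃g gr (ω.map σ.toEmbedding.sym2Map) where
  toEquiv := σ
  map_rel_iff' := by
    intro a b
    unfold gr
    rw [SimpleGraph.fromEdgeSet_adj, SimpleGraph.fromEdgeSet_adj]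
    have h : s(σ a, σ b) = σ.toEmbedding.sym2Map s(a, b) := rfl
    constructor
    · rintro ⟨h1, h2⟩
      refine ⟨?_, fun hab => h2 (by rw [hab])⟩
      rw [h] at h1
      exact_mod_cast (Finset.mem_map' _).1 (Finset.mem_coe.1 h1)
    · rintro ⟨h1, h2⟩
      refine ⟨?_, fun hab => h2 (σ.injective hab)⟩
      rw [h]
      exact Finset.mem_coe.2 ((Finset.mem_map' _).2 (Finset.mem_coe.1 h1))

theorem tsl_con (σ : V ≃ W) (ω : Finset (Sym2 V)) (x y : V) :
    con (ω.map σ.toEmbedding.sym2Map) (σ x) (σ y) ↔ con ω x y :=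
  SimpleGraph.Iso.reachable_iff (φ := tslIso σ ω)

theorem tsl_dist (σ : V ≃ W) (ω : Finset (Sym2 V)) (x y : V) (h : con ω x y) :
    (gr (ω.map σ.toEmbedding.sym2Map)).dist (σ x) (σ y) = (gr ω).dist x y := by
  apply le_antisymm
  · obtain ⟨q, hq⟩ := h.exists_walk_length_eq_dist
    rw [← hq]
    have := SimpleGraph.dist_le (q.map (tslIso σ ω).toHom)
    rw [SimpleGraph.Walk.length_map] at this
    exact this
  · obtain ⟨q, hq⟩ := ((tsl_con σ ω x y).2 h).exists_walk_length_eq_dist
    rw [← hq]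
    have := SimpleGraph.dist_le (q.map (tslIso σ ω).symm.toHom)
    rw [SimpleGraph.Walk.length_map] at this
    have e1 : (tslIso σ ω).symm.toHom (σ x) = x := (tslIso σ ω).symm_apply_apply x
    have e2 : (tslIso σ ω).symm.toHom (σ y) = y := (tslIso σ ω).symm_apply_apply y
    rwa [e1, e2] at this

theorem tsl_mon (σ : V ≃ W) (ω : Finset (Sym2 V)) (x y : V) :
    mon (ω.map σ.toEmbedding.sym2Map) (σ x) (σ y) = mon ω x y := by
  classical
  unfold mon
  by_cases h : con ω x y
  · rw [if_pos h, if_pos ((tsl_con σ ω x y).2 h), tsl_dist σ ω x y h]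
  · rw [if_neg h, if_neg (fun h' => h ((tsl_con σ ω x y).1 h'))]

theorem tsl_ExE_map (σ : V ↪ W) (E : Finset (Sym2 V)) (p : ℝ) (f : Finset (Sym2 W) → ENNReal) :
    ExE (E.map σ.sym2Map) p f = ExE E p (fun ω => f (ω.map σ.sym2Map)) := by
  unfold ExE
  symm
  refine Finset.sum_nbij (fun ω => ω.map σ.sym2Map) ?_ ?_ ?_ ?_
  · intro ω hω
    rw [Finset.mem_powerset] at hω ⊢
    exact Finset.map_subset_map.2 hω
  · intro ω _ ω' _ h
    exact Finset.map_injective _ h
  · intro ω hω
    rw [Finset.mem_coe, Finset.mem_powerset, Finset.subset_map_iff] at hω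
    obtain ⟨t, ht, rfl⟩ := hω
    exact ⟨t, by simpa using ht, rfl⟩
  · intro ω hω
    congr 2
    unfold wt
    rw [← Finset.map_sdiff, Finset.card_map, Finset.card_map]

theorem tsl_GG (σ : V ≃ W) (E : Finset (Sym2 V)) (p : ℝ) (x y : V) :
    GG (E.map σ.toEmbedding.sym2Map) p (σ x) (σ y) = GG E p x y := by
  unfold GG
  rw [Ex_map]
  exact Ex_congr fun ω _ => tsl_mon σ ω x y

theorem tsl_Pr (σ : V ≃ W) (E : Finset (Sym2 V)) (p : ℝ) (x y : V) :
    Pr (E.map σ.toEmbedding.sym2Map) p (fun ω => con ω (σ x) (σ y)) =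
      Pr E p (fun ω => con ω x y) := by
  classical
  unfold Pr
  rw [tsl_ExE_map]
  refine ExE_congr fun ω _ => ?_
  simp only [tsl_con]

end Transl

theorem hTransl : StTransl := by
  intro d p E v a x
  exact ⟨tsl_GG (Equiv.addLeft v) E p a x, tsl_Pr (Equiv.addLeft v) E p a x⟩

end Pool.LE
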