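import Pool.Agent.Helper84.LE.St1
import Pool.Agent.Helper84.LE.BGR
import Pool.Agent.Helper84.LE.M_SD

/-! # Module WE: the weight `wA` and dangling edges -/

set_option autoImplicit false

namespace Pool.LE

namespace WE

variable {V : Type} [DecidableEq V]

/-- a pivotal edge of the larger configuration is pivotal in the smaller one -/
theorem piv_down {ω : Finset (Sym2 V)} {e : Sym2 V} {v y c d : V}
    (hy : con (ω.erase e) v y) (hf : s(c, d) ∈ ω.erase e) (h : piv ω v y c d) :
    piv (ω.erase e) v y c d := by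
  obtain ⟨-, -, h2, h3⟩ := h
  have hsub : (ω.erase e).erase s(c, d) ⊆ ω.erase s(c, d) :=
    Finset.erase_subset_erase _ (Finset.erase_subset _ _)
  obtain ⟨q, hq, -⟩ := exists_path_dist hy
  have hmem : s(c, d) ∈ q.edges := by
    by_contra hnot
    obtain ⟨q', -, -, -⟩ := exists_walk_of_edges (η := (ω.erase e).erase s(c, d)) q (fun g hg =>
      Finset.mem_erase.2 ⟨fun h4 => hnot (h4 ▸ hg), mem_edges_gr q hg⟩)
    exact h3 (con_mono hsub ⟨q'⟩)
  rcases SD.split q hq.isTrail hmem with ⟨h4, h5⟩ | ⟨h4, -⟩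
  · exact ⟨hf, h4, h5, fun h6 => h3 (con_mono hsub h6)⟩
  · exact absurd (con_trans (con_mono hsub h4) h2) h3

/-- the converse -/
theorem piv_up {ω : Finset (Sym2 V)} {a b : V} {v y c d : V}
    (H : ¬ (con (ω.erase s(a, b)) v a ∧ con (ω.erase s(a, b)) v b))
    (hy : con (ω.erase s(a, b)) v y) (h : piv (ω.erase s(a, b)) v y c d) : piv ω v y c d := by
  obtain ⟨h0, h1, h2, h3⟩ := h
  have hsub : (ω.erase s(a, b)).erase s(c, d) ⊆ ω.erase s(c, d) :=
    Finset.erase_subset_erase _ (Finset.erase_subset _ _)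
  refine ⟨(Finset.mem_erase.1 h0).2, con_mono hsub h1, con_mono hsub h2, fun h4 => h3 ?_⟩
  have h5 := (SD.con_erase (Finset.erase_subset s(c, d) ω) H hy).1 h4
  rwa [Finset.erase_right_comm] at h5

end WE

open WE in
theorem hWE (hSD : StSD) : StWE := by
  classical
  intro V _ ω A v a b y H hy
  obtain ⟨m1, m2, m3⟩ := hSD V ω v a b y H hy
  unfold wA
  congr 1
  · rw [m1, m2 A]
    by_cases hd : dbl ω v y
    · rw [if_pos hd, if_pos (m3.1 hd)]
    · rw [if_neg hd, if_neg (fun h => hd (m3.2 h))]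
  · symm
    apply Finset.sum_subset_zero_on_sdiff (drt_mono (Finset.erase_subset _ _))
    · intro cb hcb
      rw [Finset.mem_sdiff, mem_drt', mem_drt', Finset.mem_erase, not_and_or, not_not] at hcb
      obtain ⟨hc1, hc2⟩ := hcb
      have he : s(cb.1, cb.2) = s(a, b) := by
        rcases hc2 with h | h
        · exact h
        · exact absurd hc1 h
      rw [if_neg]
      rintro ⟨hp, -⟩
      apply hp.2.2.2
      rw [he]
      exact hy
    · intro cb hcb
      rw [mem_drt'] at hcb
      by_cases hp : piv (ω.erase s(a, b)) v y cb.1 cb.2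
      · have hp' := piv_up H hy hp
        have hvc : con (ω.erase s(a, b)) v cb.1 := con_mono (Finset.erase_subset _ _) hp.2.1
        have hvd : con (ω.erase s(a, b)) v cb.2 := con_trans hvc (con_of_mem hcb)
        have hdy : con (ω.erase s(a, b)) cb.2 y := con_mono (Finset.erase_subset _ _) hp.2.2.1
        have H' : ¬ (con (ω.erase s(a, b)) cb.2 a ∧ con (ω.erase s(a, b)) cb.2 b) := fun h =>
          H ⟨con_trans hvd h.1, con_trans hvd h.2⟩
        obtain ⟨n1, n2, n3⟩ := hSD V ω cb.2 a b y H' hdy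
        obtain ⟨-, k2, -⟩ := hSD V ω v a b cb.1 H hvc
        rw [n1, n2 A, k2 A]
        by_cases hd : dbl ω cb.2 y
        · rw [if_pos ⟨hp, n3.1 hd⟩, if_pos ⟨hp', hd⟩]
        · rw [if_neg (fun h => hd (n3.2 h.2)), if_neg (fun h => hd h.2)]
      · rw [if_neg (fun h => hp h.1), if_neg (fun h => hp (piv_down hy hcb h.1))]

end Pool.LE
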