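import Pool.Agent.Helper84.LE.St2
import Pool.Agent.Helper84.LE.BGR

/-! LE module WalkBox: a walk stays in a box. -/

set_option autoImplicit false

namespace Pool.LE

theorem wb_mem_trE {d : ℕ} {v a b : Zd d} {E : Finset (Sym2 (Zd d))} :
    s(v + a, v + b) ∈ trE v E ↔ s(a, b) ∈ E := by
  have h : s(v + a, v + b) = (Equiv.addLeft v).toEmbedding.sym2Map s(a, b) := rfl
  unfold trE
  rw [h, Finset.mem_map']

theorem hWalkBox (hBox : StBox) : StWalkBox := by
  intro d ω v y hω q
  obtain ⟨hb0, hbx, hnb, hnbs, hnbt, hlat, hbxnb, hES, -⟩ := hBox d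
  have hsup : ∀ (v y : Zd d) (q : (gr ω).Walk v y), ∀ z ∈ q.support, z - v ∈ bx d q.length := by
    intro v y q
    induction q with
    | nil =>
      intro z hz
      rw [SimpleGraph.Walk.support_nil, List.mem_singleton] at hz
      subst hz
      rw [sub_self]
      exact (hb0 0).2 rfl
    | @cons v w y hadj q ih =>
      intro z hz
      rw [SimpleGraph.Walk.support_cons, List.mem_cons] at hz
      rw [SimpleGraph.Walk.length_cons]
      rcases hz with rfl | hz
      · rw [sub_self, hbx]
        intro i
        simp only [Pi.zero_apply, abs_zero]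
        positivity
      · have h1 := (hbx _ _).1 (ih z hz)
        have h2 : w ∈ nb v := by
          have := (gr_adj.1 hadj).1
          exact (hlat _ _).1 (hω this)
        obtain ⟨i, hi⟩ := (hnb _ _).1 h2
        rw [hbx]
        intro k
        have h3 : |(w - v) k| ≤ 1 := by
          rcases hi with rfl | rfl
          · simp only [add_sub_cancel_left]
            by_cases hk : k = i
            · subst hk; simp
            · simp [Pi.single_eq_of_ne hk]
          · have : v - Pi.single i 1 - v = - (Pi.single i 1 : Zd d) := by abel
            rw [this]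
            by_cases hk : k = i
            · subst hk; simp
            · simp [Pi.single_eq_of_ne hk]
        have h4 : (z - v) k = (z - w) k + (w - v) k := by simp
        rw [h4]
        have h5 := h1 k
        push_cast
        calc |(z - w) k + (w - v) k| ≤ |(z - w) k| + |(w - v) k| := abs_add_le _ _
          _ ≤ _ := add_le_add h5 h3
  refine ⟨hsup v y q, ?_⟩
  intro e he
  induction e with
  | _ a b =>
  have ha := hsup v y q a (q.fst_mem_support_of_mem_edges he)
  have hb := hsup v y q b (q.snd_mem_support_of_mem_edges he)
  have hab : b ∈ nb a := (hlat _ _).1 (hω (mem_edges_gr q he))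
  have e1 : s(a, b) = s(v + (a - v), v + (b - v)) := by
    rw [add_sub_cancel, add_sub_cancel]
  rw [e1, wb_mem_trE]
  refine (hES _ _ _).2 ⟨ha, hb, ?_⟩
  rw [hnbt (a - v) (b - v) v, add_sub_cancel, add_sub_cancel]
  exact hab

end Pool.LE
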