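import Pool.Agent.Helper84.LE.M_AE
import Pool.Agent.Helper84.LE.M_ATT
import Pool.Agent.Helper84.LE.M_B1
import Pool.Agent.Helper84.LE.M_B7
import Pool.Agent.Helper84.LE.M_B8
import Pool.Agent.Helper84.LE.M_BK
import Pool.Agent.Helper84.LE.M_BR
import Pool.Agent.Helper84.LE.M_Base
import Pool.Agent.Helper84.LE.M_Base0
import Pool.Agent.Helper84.LE.M_Boot
import Pool.Agent.Helper84.LE.M_Box
import Pool.Agent.Helper84.LE.M_Coef
import Pool.Agent.Helper84.LE.M_CoefLoc
import Pool.Agent.Helper84.LE.M_CoefLoc0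
import Pool.Agent.Helper84.LE.M_Con01
import Pool.Agent.Helper84.LE.M_Crit
import Pool.Agent.Helper84.LE.M_CritAll
import Pool.Agent.Helper84.LE.M_CritB
import Pool.Agent.Helper84.LE.M_CritL
import Pool.Agent.Helper84.LE.M_CritS
import Pool.Agent.Helper84.LE.M_Cv
import Pool.Agent.Helper84.LE.M_CvA
import Pool.Agent.Helper84.LE.M_CvB
import Pool.Agent.Helper84.LE.M_CvFT
import Pool.Agent.Helper84.LE.M_DRBK
import Pool.Agent.Helper84.LE.M_Dh2
import Pool.Agent.Helper84.LE.M_DhE
import Pool.Agent.Helper84.LE.M_Diag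
import Pool.Agent.Helper84.LE.M_DiagZ
import Pool.Agent.Helper84.LE.M_Eta
import Pool.Agent.Helper84.LE.M_Exit
import Pool.Agent.Helper84.LE.M_Exp
import Pool.Agent.Helper84.LE.M_ExpMom
import Pool.Agent.Helper84.LE.M_FTadd
import Pool.Agent.Helper84.LE.M_FTb
import Pool.Agent.Helper84.LE.M_FourRen
import Pool.Agent.Helper84.LE.M_Gcoef
import Pool.Agent.Helper84.LE.M_Gcont
import Pool.Agent.Helper84.LE.M_Gdist
import Pool.Agent.Helper84.LE.M_GmEq
import Pool.Agent.Helper84.LE.M_Imp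
import Pool.Agent.Helper84.LE.M_ImpF
import Pool.Agent.Helper84.LE.M_ImpR
import Pool.Agent.Helper84.LE.M_Inv
import Pool.Agent.Helper84.LE.M_Jf
import Pool.Agent.Helper84.LE.M_Kft
import Pool.Agent.Helper84.LE.M_KpInt
import Pool.Agent.Helper84.LE.M_LastE
import Pool.Agent.Helper84.LE.M_LastU
import Pool.Agent.Helper84.LE.M_Law
import Pool.Agent.Helper84.LE.M_Lev
import Pool.Agent.Helper84.LE.M_Lim
import Pool.Agent.Helper84.LE.M_Loc
import Pool.Agent.Helper84.LE.M_Mass
import Pool.Agent.Helper84.LE.M_Menger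
import Pool.Agent.Helper84.LE.M_N0
import Pool.Agent.Helper84.LE.M_NuProb
import Pool.Agent.Helper84.LE.M_Nw
import Pool.Agent.Helper84.LE.M_OC0
import Pool.Agent.Helper84.LE.M_OC1
import Pool.Agent.Helper84.LE.M_OCc
import Pool.Agent.Helper84.LE.M_One
import Pool.Agent.Helper84.LE.M_PI
import Pool.Agent.Helper84.LE.M_Pc
import Pool.Agent.Helper84.LE.M_PivCount
import Pool.Agent.Helper84.LE.M_PivT
import Pool.Agent.Helper84.LE.M_Poly
import Pool.Agent.Helper84.LE.M_PolyExp
import Pool.Agent.Helper84.LE.M_Psi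
import Pool.Agent.Helper84.LE.M_Qw
import Pool.Agent.Helper84.LE.M_RW
import Pool.Agent.Helper84.LE.M_RW0
import Pool.Agent.Helper84.LE.M_RW1
import Pool.Agent.Helper84.LE.M_Rec
import Pool.Agent.Helper84.LE.M_Russo
import Pool.Agent.Helper84.LE.M_S6
import Pool.Agent.Helper84.LE.M_SD
import Pool.Agent.Helper84.LE.M_Sec
import Pool.Agent.Helper84.LE.M_Sphere
import Pool.Agent.Helper84.LE.M_Step
import Pool.Agent.Helper84.LE.M_Sub
import Pool.Agent.Helper84.LE.M_SymT
import Pool.Agent.Helper84.LE.M_TRcm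
import Pool.Agent.Helper84.LE.M_TauBasic
import Pool.Agent.Helper84.LE.M_TauCont
import Pool.Agent.Helper84.LE.M_TauDom
import Pool.Agent.Helper84.LE.M_TauSum
import Pool.Agent.Helper84.LE.M_Theta
import Pool.Agent.Helper84.LE.M_ThetaSub
import Pool.Agent.Helper84.LE.M_TnM
import Pool.Agent.Helper84.LE.M_Transl
import Pool.Agent.Helper84.LE.M_WE
import Pool.Agent.Helper84.LE.M_WIT
import Pool.Agent.Helper84.LE.M_WalkBox
import Pool.Agent.Helper84.LE.Asm

/-! All modules of the lace expansion project together. -/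

set_option autoImplicit false

namespace Pool.LE

theorem allFinite : StDiag := by
  have hSD := hSD
  have hBR := hBR
  have hLU := hLastU
  have hWE := hWE hSD
  have hTR := hTRcm hBK
  have hDR := hDRBK hBK hTR
  have hNw := hNw hLU hBR
  have hB := hBase (hBase0 hMenger) hSD
  have hLev := hLev hNw hB (hATT hWIT) (hEAR hWIT) hDR
  exact hDiag (hPsi hLev) (hRec hMass) hN0a (hN0b hMenger hBK hTR)

theorem allCoef : StCoef := by
  have hLE := hLastE
  have hPT := hPivT
  have hSD := hSD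
  have hBR := hBR
  have hLU := hLastU
  have hWE := hWE hSD
  have hPI := hPI hSD hBR hLE hLU hPT hWE
  have hOne := hOne hWE hLoc
  have hStep := hStep hPI hOne
  exact hCoef (hExp hStep) hDvd

/-- the main chain -/
theorem allMain : StCritAll ∧ StCritLim ∧ StCritBasic ∧ StTnMeas ∧ StPc ∧ StFTcomplex := by
  have hPE := hPolyExp
  have hPH := hPH hPhi
  have hDiag := allFinite
  have hCoef := allCoef
  have hBox := hBox
  have hW := hWalkBox hBox
  have hT := hTransl
  have hCL := hCoefLoc (hCoefLoc0 hW) hT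
  have hGE := hGmEq
  have hRX := hRenX
  have hS := hSupp hW hBox
  have hG := hGcoef hCoef hCL hGE hS hBox
  have hSyT := hSymT
  have hSyG := hSymG hSyT
  have hPoly := hPoly hGE
  have hTN := hTnNonneg
  have hTn0 := hTn0
  have hTS := hTauSum hCL hBox hW
  have hTD := hTauDom hT hBox
  have hTM := hTauMono
  have hTB := hTauBasic hTS hSyT
  have hQ := hQw
  have hDZ := hDiagZ hDiag hG hTD hTB hQ hBox
  -- Fourier
  have hN := hNuProb
  have hRW := hRW hRW0 (hRW1 hN) (hDh2 hN) hCos1 hN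
  have hDh := hDh
  have hFTb := hFTb
  have hFTadd := hFTadd
  have hCv := hCv hQ
  have hCvFT := hCvFT hCv hFTb
  have hJf := hJf hBox
  have hKp := hKpInt (hInv hN)
  have hIso := hIso
  have hSec := hSec hIso hDh hFTb
  -- sharpness
  have hEM := hExpMom (hExit hBK hT hBox) hTB hBox
  have hSub := hSub hPH hEM hPE hTB
  have hTBx := hTauBox hBox hTB
  have hTC := hTauCont (hTauCont0 hTBx hSub hTM hTB) hSub hTM hTB
  have hSp := hSphere hBox hTD
  have hCI := hChiInf hSp hPH
  have hChL := hChiLim hCI hPH hTB hSub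
  obtain ⟨h6a, h6b, h6c, h6d⟩ := hS6 hSub hTC hChL hPH
  have hTh := hTheta hRusso (hPivCount hBox) hPH hBox
  have hThS := hThetaSub hSub hTD hTB hBox
  -- bootstrap
  have hB1 := hB1 h6a h6d hTB
  have hKft := hKft hB1 hFTb hDh
  have hEta := hEta hB1 hAE hKft hRW hKp hDZ hTB hDh
  have hCvA := hCvA hSyG hFTb
  have hCvB := hCvB hTS hTB hRX hS hBox hTN hCvA
  have hImpF := hImpF hCv hCvFT hFTadd hJf hFTb
  have hImp := hImp hImpF hImpR hSec hDh
  have hBoot := hBoot hB1 hEta hCvA hCvB hImp hTB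
  have hOCc := hOCc h6b hB1 hFTadd hFTb hDh
  have hB7 := hB7 hBoot hOC0 (hOC1 hOCc) hCon01 h6d
  have hLim := hLim hPoly
  have hGc := hGcont hPoly hS
  have hCrit := hCrit h6a h6c hTB hCvA hCvB hImpF hGc h6d hB1
  have hB8 := hB8 hB7 hLim hCrit h6d
  have hCA := hCritAll hB8 hCvA hFTb
  -- renewal
  have hFR := hFourRen hRX hCvFT hCv hJf hS hSyT hSyG hBox
  have hCB := hCritBasic hTn0 hFTb hDh
  have hCS := hCritSec hSyG hIso hSec hTn0 hFTb hDh
  have hCL2 := hCritLim hFR hCB hCS hTn0 hFTb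
  -- infinite measure
  have hLaw := hLaw hBox
  exact ⟨hCA, hCL2, hCB, hTnMeas hLaw (hGdist hBox), hPc hLaw (hGinf hBox) hTh hThS hPH,
    hFTcomplex hSyT hS⟩

end Pool.LE
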