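import Pool.Agent.Helper84.LE.St2

/-! Statements, part 3: Fourier analysis and random walk integrals (plan sections 5, 7). -/

set_option autoImplicit false
open scoped BigOperators
open MeasureTheory

namespace Pool.LE

/-- normalised Lebesgue measure on `(-π, π]` -/
noncomputable def nu : Measure ℝ :=
  (ENNReal.ofReal (1 / (2 * Real.pi))) • (volume.restrict (Set.Ioc (-Real.pi) Real.pi))

/-- normalised Lebesgue measure on the torus -/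
noncomputable def muT (d : ℕ) : Measure (Fin d → ℝ) := Measure.pi fun _ => nu

/-- even functions -/
def EvenF {d : ℕ} (f : Zd d → ℝ) : Prop := ∀ x, f (-x) = f x

/-- absolute summability with the weight `Qw` -/
def SumQ {d : ℕ} (f : Zd d → ℝ) : Prop := Summable fun x => Qw x * |f x|

/-- the weighted norm -/
noncomputable def nQ {d : ℕ} (f : Zd d → ℝ) : ℝ := ∑' x, Qw x * |f x|

/-- convolution -/
noncomputable def cv {d : ℕ} (f g : Zd d → ℝ) (x : Zd d) : ℝ := ∑' y, f y * g (x - y)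

/-- indicator of the neighbours of `0` -/
noncomputable def Jf (d : ℕ) (x : Zd d) : ℝ := if x ∈ nb (0 : Zd d) then 1 else 0

def StNuProb : Prop := IsProbabilityMeasure nu ∧ ∀ d, IsProbabilityMeasure (muT d)

/-- one-dimensional integral -/
def StCos1 : Prop := ∀ s : ℝ, 0 ≤ s → s < 1 / 2 →
  ∫⁻ t, ENNReal.ofReal ((1 - Real.cos t) ^ (-s)) ∂nu < ⊤

/-- AM-GM and product structure: for `m < d / 2` -/
def StRW0 : Prop := ∀ (n d : ℕ), 2 * n < d →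
  ∫⁻ k, ENNReal.ofReal (((1 - Dh k) ^ n)⁻¹) ∂(muT d) ≤
    (∫⁻ t, ENNReal.ofReal ((1 - Real.cos t) ^ (-((n : ℝ) / d))) ∂nu) ^ d

/-- monotonicity in the dimension -/
def StRW1 : Prop := ∀ (n d₁ d : ℕ), 0 < d₁ → d₁ ≤ d →
  (∫⁻ t, ENNReal.ofReal ((1 - Real.cos t) ^ (-((n : ℝ) / d))) ∂nu) ^ d ≤
    (∫⁻ t, ENNReal.ofReal ((1 - Real.cos t) ^ (-((n : ℝ) / d₁))) ∂nu) ^ d₁

def StDh2 : Prop := ∀ d : ℕ, 0 < d → ∫⁻ k, ENNReal.ofReal ((Dh k) ^ 2) ∂(muT d) = ENNReal.ofReal (1 / (2 * d))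

/-- plan section 5 -/
def StRW : Prop := ∀ n : ℕ, ∃ C : ℝ, 0 < C ∧ ∃ d₁ : ℕ, ∀ d : ℕ, d₁ ≤ d → ∀ lam : ℝ, 0 ≤ lam → lam < 1 →
  ∫⁻ k, ENNReal.ofReal (((1 - lam * Dh k) ^ n)⁻¹) ∂(muT d) ≤ ENNReal.ofReal C ∧
  ∫⁻ k, ENNReal.ofReal (|Dh k| * ((1 - lam * Dh k) ^ n)⁻¹) ∂(muT d) ≤ ENNReal.ofReal (C / Real.sqrt d)

/-- elementary facts on `Dh` -/
def StDh : Prop := ∀ (d : ℕ) (k : Fin d → ℝ), 0 < d → |Dh k| ≤ 1 ∧
  ((∀ i, |k i| ≤ Real.pi) → (∑ i, k i ^ 2) / d ≤ 5 * (1 - Dh k)) ∧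
  (∑ i, Real.sin (k i) ^ 2 ≤ 2 * d * (1 - Dh k)) ∧
  ∀ lam : ℝ, 0 ≤ lam → lam < 1 → 0 < 1 - lam * Dh k ∧ 1 - lam * Dh k ≤ 2 ∧
    1 - Dh k ≤ 2 * (1 - lam * Dh k) ∧ 1 - lam ≤ 1 - lam * Dh k

/-! ### Fourier transforms -/

/-- periodicity and bounds -/
def StFTb : Prop := ∀ (d : ℕ) (f : Zd d → ℝ), SumQ f → ∀ k : Fin d → ℝ,
  Summable f ∧ Summable (fun x => sq x * f x) ∧ (∀ j, Summable (fun x : Zd d => (x j : ℝ) * f x)) ∧
  |FT f k| ≤ nQ f ∧ |MT f k| ≤ nQ f ∧ (∀ j, |SJ j f k| ≤ nQ f) ∧ Continuous (FT f) ∧ Continuous (MT f)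

def StFTadd : Prop := ∀ (d : ℕ) (f g : Zd d → ℝ), SumQ f → SumQ g → ∀ k : Fin d → ℝ,
  SumQ (fun x => f x + g x) ∧ FT (fun x => f x + g x) k = FT f k + FT g k ∧
  MT (fun x => f x + g x) k = MT f k + MT g k ∧
  (∀ j, SJ j (fun x => f x + g x) k = SJ j f k + SJ j g k) ∧
  ∀ c : ℝ, SumQ (fun x => c * f x) ∧ FT (fun x => c * f x) k = c * FT f k ∧
    MT (fun x => c * f x) k = c * MT f k ∧ ∀ j, SJ j (fun x => c * f x) k = c * SJ j f k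

/-- convolution -/
def StCv : Prop := ∀ (d : ℕ) (f g : Zd d → ℝ), SumQ f → SumQ g →
  SumQ (cv f g) ∧ nQ (cv f g) ≤ nQ f * nQ g ∧ (EvenF f → EvenF g → EvenF (cv f g)) ∧
  (SymF f → SymF g → SymF (cv f g)) ∧ cv f g = cv g f

/-- transform of a convolution of even functions -/
def StCvFT : Prop := ∀ (d : ℕ) (f g : Zd d → ℝ), SumQ f → SumQ g → EvenF f → EvenF g →
  ∀ k : Fin d → ℝ, FT (cv f g) k = FT f k * FT g k ∧
    (∀ j, SJ j (cv f g) k = SJ j f k * FT g k + FT f k * SJ j g k) ∧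
    MT (cv f g) k = MT f k * FT g k - 2 * ∑ j, SJ j f k * SJ j g k + FT f k * MT g k

/-- transform of the neighbour function -/
def StJf : Prop := ∀ (d : ℕ), SumQ (Jf d) ∧ SymF (Jf d) ∧ ∀ k : Fin d → ℝ,
  FT (Jf d) k = 2 * d * Dh k ∧ MT (Jf d) k = 2 * d * Dh k ∧ ∀ j, SJ j (Jf d) k = 2 * Real.sin (k j)

/-- inversion -/
def StInv : Prop := ∀ (d : ℕ) (f : Zd d → ℝ), Summable f → EvenF f → ∀ x : Zd d,
  Integrable (fun k => FT f k * Real.cos (∑ i, k i * x i)) (muT d) ∧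
    f x = ∫ k, FT f k * Real.cos (∑ i, k i * x i) ∂(muT d)

/-- powers of translation invariant kernels -/
def StKpInt : Prop := ∀ (d : ℕ) (f : Zd d → ℝ), (∀ x, 0 ≤ f x) → Summable f → EvenF f →
  ∀ (n : ℕ) (x y : Zd d), 1 ≤ n →
    kp (fun x y => ENNReal.ofReal (f (y - x))) n x y ≤ ∫⁻ k, ENNReal.ofReal (|FT f k| ^ n) ∂(muT d) ∧
    ∑ b ∈ nb x, kp (fun x y => ENNReal.ofReal (f (y - x))) n b y ≤
      ∫⁻ k, ENNReal.ofReal (2 * d * |Dh k| * |FT f k| ^ n) ∂(muT d)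

/-- second order estimates for symmetric functions (plan section 7) -/
def StSec : Prop := ∀ (d : ℕ) (h : Zd d → ℝ), 0 < d → SumQ h → SymF h → ∀ k : Fin d → ℝ,
  (∀ i, |k i| ≤ Real.pi) →
    |FT h 0 - FT h k| ≤ 3 * nQ h * (1 - Dh k) ∧
    ∑ j, (SJ j h k) ^ 2 ≤ 9 * (nQ h) ^ 2 * (1 - Dh k) ∧ |MT h k| ≤ nQ h ∧ |FT h k| ≤ nQ h

/-- isotropy -/
def StIso : Prop := ∀ (d : ℕ) (h : Zd d → ℝ), 0 < d → SumQ h → SymF h → ∀ k : Fin d → ℝ,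
  Summable (fun x : Zd d => h x * (∑ i, k i * x i) ^ 2) ∧
  ∑' x : Zd d, h x * (∑ i, k i * x i) ^ 2 = (∑ i, k i ^ 2) / d * ∑' x, sq x * h x

end Pool.LE
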