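import Pool.Agent.Helper84.LE.St1
import Pool.Agent.Helper84.LE.BGR

/-! MP_e167eb: edge version of Menger's theorem for `k = 2` (plan 1.3). -/

set_option autoImplicit false
set_option linter.unusedSectionVars false

namespace Pool.LE

variable {V : Type} [DecidableEq V]

/-- the first vertex of a walk in a set -/
theorem mengerFirstHit {G : SimpleGraph V} {x y : V} (q : G.Walk x y) (S : Set V) (hy : y ∈ S) :
    ∃ z ∈ S, ∃ r : G.Walk x z, (∀ e ∈ r.edges, e ∈ q.edges) ∧ ∀ e ∈ r.edges, ∃ v ∈ e, v ∉ S := by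
  classical
  induction q with
  | nil => exact ⟨_, hy, SimpleGraph.Walk.nil, fun e he => by simp at he, fun e he => by simp at he⟩
  | cons h p ih =>
    rename_i a b c
    by_cases ha : a ∈ S
    · exact ⟨a, ha, SimpleGraph.Walk.nil, fun e he => by simp at he, fun e he => by simp at he⟩
    · obtain ⟨z, hz, r, hr, he⟩ := ih hy
      refine ⟨z, hz, SimpleGraph.Walk.cons h r, ?_, ?_⟩
      · intro e he'
        rw [SimpleGraph.Walk.edges_cons, List.mem_cons] at he' ⊢
        exact he'.imp id (hr e)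
      · intro e he'
        rw [SimpleGraph.Walk.edges_cons, List.mem_cons] at he'
        rcases he' with rfl | he'
        · exact ⟨a, Sym2.mem_mk_left a b, ha⟩
        · exact he e he'

theorem mengerMemSupport {G : SimpleGraph V} {x y : V} (q : G.Walk x y) {e : Sym2 V}
    (he : e ∈ q.edges) {v : V} (hv : v ∈ e) : v ∈ q.support := by
  induction e using Sym2.ind with
  | _ a b =>
    rcases Sym2.mem_iff.1 hv with rfl | rfl
    · exact q.fst_mem_support_of_mem_edges he
    · exact q.snd_mem_support_of_mem_edges he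

/-- two edge-disjoint paths -/
def MP (ω : Finset (Sym2 V)) (t x : V) : Prop :=
  ∃ P Q : (gr ω).Walk t x, P.IsPath ∧ Q.IsPath ∧ ∀ e ∈ P.edges, e ∉ Q.edges

theorem MP_of_walks {ω : Finset (Sym2 V)} {t x : V} (P Q : (gr ω).Walk t x)
    (h : ∀ e ∈ P.edges, e ∉ Q.edges) : MP ω t x :=
  ⟨P.bypass, Q.bypass, P.bypass_isPath, Q.bypass_isPath,
    fun e he he' => h e (P.edges_bypass_subset he) (Q.edges_bypass_subset he')⟩

theorem menger_aux {ω : Finset (Sym2 V)} {t x y z : V} (hadj : (gr ω).Adj x y)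
    (A B : (gr ω).Walk t x) (hAB : ∀ e ∈ A.edges, e ∉ B.edges) (hfA : s(x, y) ∉ A.edges)
    (hz : z ∈ A.support) (r : (gr ω).Walk y z) (hr : ∀ e ∈ r.edges, ∃ v ∈ e, v ∉ B.support)
    (hfr : s(x, y) ∉ r.edges) : MP ω t y := by
  refine MP_of_walks ((A.takeUntil z hz).append r.reverse)
    (B.append (SimpleGraph.Walk.cons hadj SimpleGraph.Walk.nil)) ?_
  intro e he he'
  rw [SimpleGraph.Walk.edges_append, List.mem_append] at he he'
  rw [SimpleGraph.Walk.edges_reverse, List.mem_reverse] at he
  rw [SimpleGraph.Walk.edges_cons, SimpleGraph.Walk.edges_nil, List.mem_singleton] at he'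
  rcases he with he | he
  · have heA := A.edges_takeUntil_subset hz he
    rcases he' with he' | he'
    · exact hAB e heA he'
    · exact hfA (he' ▸ heA)
  · rcases he' with he' | he'
    · obtain ⟨v, hv, hvB⟩ := hr e he
      exact hvB (mengerMemSupport B he' hv)
    · exact hfr (he' ▸ he)

theorem menger_aux2 {ω : Finset (Sym2 V)} {t x y : V} (hadj : (gr ω).Adj x y)
    (A B : (gr ω).Walk t x) (hA : A.IsPath) (hAB : ∀ e ∈ A.edges, e ∉ B.edges)
    (hfA : s(x, y) ∈ A.edges) : MP ω t y := by
  have hy : y ∈ A.support := A.snd_mem_support_of_mem_edges hfA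
  refine MP_of_walks (A.takeUntil y hy)
    (B.append (SimpleGraph.Walk.cons hadj SimpleGraph.Walk.nil)) ?_
  intro e he he'
  rw [SimpleGraph.Walk.edges_append, List.mem_append, SimpleGraph.Walk.edges_cons,
    SimpleGraph.Walk.edges_nil, List.mem_singleton] at he'
  rcases he' with he' | he'
  · exact hAB e (A.edges_takeUntil_subset hy he) he'
  · rw [he'] at he
    exact (SimpleGraph.Walk.endpoint_notMem_support_takeUntil hA hy hadj.ne)
      (SimpleGraph.Walk.fst_mem_support_of_mem_edges _ he)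

theorem menger_step {ω : Finset (Sym2 V)} {t x y : V} (h : MP ω t x) (hadj : (gr ω).Adj x y)
    (hc : con (ω.erase s(x, y)) t y) : MP ω t y := by
  obtain ⟨A, B, hA, hB, hAB⟩ := h
  have hBA : ∀ e ∈ B.edges, e ∉ A.edges := fun e he he' => hAB e he' he
  by_cases hfA : s(x, y) ∈ A.edges
  · exact menger_aux2 hadj A B hA hAB hfA
  by_cases hfB : s(x, y) ∈ B.edges
  · exact menger_aux2 hadj B A hB hBA hfB
  obtain ⟨q⟩ := con_symm hc
  obtain ⟨q', hq', -, -⟩ := exists_walk_of_edges (η := ω) q
    (fun e he => Finset.mem_of_mem_erase (mem_edges_gr q he))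
  obtain ⟨z, hz, r, hr1, hr2⟩ := mengerFirstHit q' {v | v ∈ A.support ∨ v ∈ B.support}
    (Or.inl A.start_mem_support)
  have hfr : s(x, y) ∉ r.edges := by
    intro h
    have h1 := hr1 _ h
    rw [hq'] at h1
    exact (Finset.notMem_erase _ _) (mem_edges_gr q h1)
  rcases hz with hz | hz
  · refine menger_aux hadj A B hAB hfA hz r (fun e he => ?_) hfr
    obtain ⟨v, hv, hv'⟩ := hr2 e he
    exact ⟨v, hv, fun h => hv' (Or.inr h)⟩
  · refine menger_aux hadj B A hBA hfB hz r (fun e he => ?_) hfr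
    obtain ⟨v, hv, hv'⟩ := hr2 e he
    exact ⟨v, hv, fun h => hv' (Or.inl h)⟩

theorem menger_walk {ω : Finset (Sym2 V)} {t u : V} (hd : dbl ω t u) {x : V}
    (R : (gr ω).Walk x u) (hR : R.IsPath) (h : MP ω t x) : MP ω t u := by
  induction R with
  | nil => exact h
  | cons hadj R ih =>
    rename_i a b c
    rw [SimpleGraph.Walk.cons_isPath_iff] at hR
    refine ih hd hR.1 (menger_step h hadj ?_)
    have hab : s(a, b) ∈ ω := (gr_adj.1 hadj).1
    have h1 : con (ω.erase s(a, b)) t c := hd.2 _ hab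
    have h2 : con (ω.erase s(a, b)) b c := by
      obtain ⟨q, -, -, -⟩ := exists_walk_of_edges (η := ω.erase s(a, b)) R (fun e he => by
        refine Finset.mem_erase.2 ⟨?_, mem_edges_gr R he⟩
        rintro rfl
        exact hR.2 (R.fst_mem_support_of_mem_edges he))
      exact ⟨q⟩
    exact con_trans h1 (con_symm h2)

/-- **Menger's theorem** for two edge-disjoint paths -/
theorem hMenger : StMenger := by
  intro V _ ω t u hd
  obtain ⟨R⟩ := hd.1
  exact menger_walk hd R.bypass R.bypass_isPath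
    ⟨SimpleGraph.Walk.nil, SimpleGraph.Walk.nil, SimpleGraph.Walk.IsPath.nil,
      SimpleGraph.Walk.IsPath.nil, fun e he => by simp at he⟩

end Pool.LE
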