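import Pool.Agent.Helper84.LE.St1
import Pool.Agent.Helper84.LE.BWT
import Pool.Agent.Helper84.LE.M_ATT

/-! LE module TRcm (plan 3.1): one chain. -/

set_option autoImplicit false

namespace Pool.LE

section TRcm

variable {V : Type} [DecidableEq V]

/-- consecutive edge-disjoint connections -/
def chEv : V → List V → V → Finset (Sym2 V) → Prop
  | x, [], y, ω => con ω x y
  | x, z :: l, y, ω => ∃ η ⊆ ω, con η x z ∧ chEv z l y (ω \ η)

theorem trc_con_mono {ω η : Finset (Sym2 V)} (h : ω ⊆ η) {x y : V} (hc : con ω x y) :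
    con η x y := by
  obtain ⟨q⟩ := hc
  obtain ⟨q', -, -, -⟩ := wit_transfer (η := η) q (fun e he => h (wit_mem_edges q he).1)
  exact ⟨q'⟩

theorem chEv_inc (l : List V) : ∀ (x y : V), Inc (chEv x l y) := by
  induction l with
  | nil => intro x y ω η h hc; exact trc_con_mono h hc
  | cons z l ih =>
    intro x y ω ω' h hc
    obtain ⟨η, hη, h1, h2⟩ := hc
    exact ⟨η, hη.trans h, h1, ih z y _ _ (Finset.sdiff_subset_sdiff h (le_refl _)) h2⟩

theorem Pr_chEv_le (hBK : StBK) {E : Finset (Sym2 V)} {p : ℝ} {T : V → V → ENNReal} (h0 : 0 ≤ p)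
    (h1 : p ≤ 1 / 2) (hD : Dom E p T) (l : List V) :
    ∀ x y : V, Pr E p (chEv x l y) ≤ cw T x l y := by
  induction l with
  | nil => intro x y; exact hD x y
  | cons z l ih =>
    intro x y
    refine (hBK V E p h0 h1 (fun η => con η x z) (chEv z l y)
      (fun ω η h hc => trc_con_mono h hc) (chEv_inc l z y)).trans ?_
    exact mul_le_mul' (hD x z) (ih z y)

theorem Pr_list_le {ι : Type} {E : Finset (Sym2 V)} {p : ℝ} (A : ι → Finset (Sym2 V) → Prop)
    (S : List ι) : Pr E p (fun ω => ∃ i ∈ S, A i ω) ≤ (S.map (fun i => Pr E p (A i))).sum := by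
  induction S with
  | nil => simp [Pr, ExE]
  | cons i S ih =>
    rw [List.map_cons, List.sum_cons]
    refine le_trans ?_ (add_le_add (le_refl (Pr E p (A i))) ih)
    refine le_trans (Pr_mono fun ω _ h => ?_) (Pr_or_le (A i) (fun ω => ∃ i ∈ S, A i ω))
    obtain ⟨j, hj, hA⟩ := h
    rcases List.mem_cons.1 hj with rfl | hj
    · exact Or.inl hA
    · exact Or.inr ⟨j, hj, hA⟩

theorem exists_chEv (n : ℕ) : ∀ (M : List V) (_ : M.length = n) (x y : V) (ω : Finset (Sym2 V))
    (q : (gr ω).Walk x y), q.IsTrail → (∀ m ∈ M, m ∈ q.support) →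
      ∃ l : List V, l.Perm M ∧ chEv x l y ω := by
  classical
  induction n with
  | zero =>
    intro M hM x y ω q _ _
    rw [List.length_eq_zero_iff] at hM
    subst hM
    exact ⟨[], List.Perm.refl _, ⟨q⟩⟩
  | succ n ih =>
    intro M hM x y ω q hq hm
    obtain ⟨m, hmM⟩ : ∃ m, m ∈ M := by
      rcases M with _ | ⟨m, M⟩
      · simp at hM
      · exact ⟨m, by simp⟩
    have hms := hm m hmM
    obtain ⟨z, hz, q₁, q₂, hqq, hs⟩ := att_first M.toFinset (q.takeUntil m hms)
      (List.mem_toFinset.2 hmM)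
    rw [List.mem_toFinset] at hz
    set r : (gr ω).Walk z y := q₂.append (q.dropUntil m hms) with hr
    have hqr : q = q₁.append r := by
      rw [hr, SimpleGraph.Walk.append_assoc, ← hqq, SimpleGraph.Walk.take_spec]
    have hnd := hq.edges_nodup
    rw [hqr, SimpleGraph.Walk.edges_append, List.nodup_append] at hnd
    obtain ⟨q₁', -⟩ := wit_transfer (η := q₁.edges.toFinset) q₁ (fun e he => by
      rw [List.mem_toFinset]; exact he)
    obtain ⟨r', hr'e, hr's, -⟩ := wit_transfer (η := ω \ q₁.edges.toFinset) r (fun e he => by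
      refine Finset.mem_sdiff.2 ⟨(wit_mem_edges r he).1, fun h => ?_⟩
      rw [List.mem_toFinset] at h
      exact hnd.2.2 e h e he rfl)
    obtain ⟨l, hl, hc⟩ := ih (M.erase z) (by rw [List.length_erase_of_mem hz, hM]; rfl) z y
      (ω \ q₁.edges.toFinset) r' (by
        rw [SimpleGraph.Walk.isTrail_def, hr'e]; exact hnd.2.1) (by
        intro m' hm'
        rw [hr's]
        have h1 := hm m' (List.mem_of_mem_erase hm')
        rw [hqr, SimpleGraph.Walk.mem_support_append_iff] at h1
        rcases h1 with h1 | h1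
        · have := hs m' h1 (List.mem_toFinset.2 (List.mem_of_mem_erase hm'))
          rw [this]
          exact r.start_mem_support
        · exact h1)
    refine ⟨z :: l, (List.Perm.cons z hl).trans (List.perm_cons_erase hz).symm, ?_⟩
    refine ⟨q₁.edges.toFinset, ?_, ⟨q₁'⟩, hc⟩
    intro e he
    rw [List.mem_toFinset] at he
    exact (wit_mem_edges q₁ he).1

end TRcm

theorem hTRcm (hBK : StBK) : StTRcm := by
  intro V _ E p T h0 h1 hD c
  obtain ⟨x, M, y⟩ := c
  have hle : Pr E p (fun ω => TR ω (x, M, y)) ≤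
      Pr E p (fun ω => ∃ l ∈ M.permutations, chEv x l y ω) := by
    refine Pr_mono fun ω _ h => ?_
    obtain ⟨q, hq, hm⟩ := h
    obtain ⟨l, hl, hc⟩ := exists_chEv M.length M rfl x y ω q hq hm
    exact ⟨l, List.mem_permutations.2 hl, hc⟩
  refine hle.trans ((Pr_list_le (fun l => chEv x l y) _).trans ?_)
  unfold cm
  exact List.sum_le_sum fun l _ => Pr_chEv_le hBK h0 h1 hD l x y

end Pool.LE
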