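import Pool.Agent.Helper84.LE.St1
import Pool.Agent.Helper84.LE.BWT
import Pool.Agent.Helper84.LE.BNN
import Pool.Agent.Helper84.LE.BGR

/-! LE module Psi (plan 3.7): all levels. -/

set_option autoImplicit false

namespace Pool.LE

theorem psi_sum_le {V : Type} [DecidableEq V] (S : Finset (V × V)) (nbf : V → Finset V)
    (hS : ∀ q ∈ S, q.2 ∈ nbf q.1) (f : V → V → ENNReal) :
    ∑ q ∈ S, f q.1 q.2 ≤ ∑' u : V, ∑ b ∈ nbf u, f u b := by
  have h1 : ∑ q ∈ S, f q.1 q.2 = ∑ q ∈ S, if q.2 ∈ nbf q.1 then f q.1 q.2 else 0 := by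
    refine Finset.sum_congr rfl fun q hq => ?_
    rw [if_pos (hS q hq)]
  rw [h1]
  refine (ENNReal.sum_le_tsum S).trans ?_
  rw [ENNReal.tsum_prod' (f := fun q : V × V => if q.2 ∈ nbf q.1 then f q.1 q.2 else 0)]
  refine ENNReal.tsum_le_tsum fun u => le_of_eq ?_
  rw [tsum_eq_sum (s := nbf u)]
  · refine Finset.sum_congr rfl fun b hb => ?_
    simp only [if_pos hb]
  · intro b hb
    simp only [if_neg hb]

theorem hPsi (hLev : StLev) : StPsi := by
  classical
  intro V _ E p T nbf h0 h1 hD hnb N
  induction N with
  | zero =>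
    intro A v x
    simp only [Function.iterate_zero, id_eq]
    unfold WW
    refine (NN_Ex_le h0 (by linarith) E _).trans ?_
    have h2 := hLev V E p T h0 h1 hD A v x v
    have h3 : ExE E p (fun ω => NN (wA ω A v x)) =
        ExE E p (fun ω => NN (wA ω A v x) * if con ω v v then 1 else 0) := by
      refine ExE_congr fun ω _ => ?_
      rw [if_pos (con_refl ω v), mul_one]
    rw [h3]
    refine h2.trans (le_of_eq ?_)
    rw [← ENNReal.tsum_mul_left]
    refine tsum_congr fun s => ?_
    split_ifs
    · rfl
    · simp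
  | succ N ih =>
    intro A v x
    rw [Function.iterate_succ_apply']
    set Φ := (LL E p)^[N] (WW E p) with hΦ
    set q : ENNReal := ENNReal.ofReal p with hq
    -- one directed edge
    have hone : ∀ u b : V, NN (Ex E p (fun ω => Polynomial.C p * Polynomial.X * wA ω A v u *
        Φ (cl ω u b v) b x)) ≤ ∑' s : V, if s ∈ A then 2 * q * ∑' s' : V,
          2 * (∑' w : V, core T v s u w * T w s') * Psi nbf q T N s' b x else 0 := by
      intro u b
      refine (NN_Ex_le h0 (by linarith) E _).trans ?_
      have hpt : ∀ ω ⊆ E, NN (Polynomial.C p * Polynomial.X * wA ω A v u *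
          Φ (cl ω u b v) b x) ≤ 2 * q * ∑' s' : V,
            (NN (wA ω A v u) * if con ω v s' then 1 else 0) * Psi nbf q T N s' b x := by
        intro ω _
        refine (NN_mul_le _ _).trans ?_
        have e1 : NN (Polynomial.C p * Polynomial.X * wA ω A v u) ≤ 2 * q * NN (wA ω A v u) := by
          refine (NN_mul_le _ _).trans ?_
          refine mul_le_mul_left ?_ _
          rw [NN_C_mul h0, NN_X, mul_comm]
        refine (mul_le_mul' e1 (ih (cl ω u b v) b x)).trans ?_
        rw [mul_assoc]
        refine mul_le_mul_right ?_ _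
        rw [← ENNReal.tsum_mul_left]
        refine ENNReal.tsum_le_tsum fun s' => ?_
        rw [mul_assoc]
        refine mul_le_mul_right ?_ _
        by_cases hs : s' ∈ cl ω u b v
        · have : con ω v s' := con_mono (Finset.erase_subset _ _) hs
          rw [if_pos hs, if_pos this, one_mul]
        · rw [if_neg hs]; exact zero_le
      refine (ExE_mono hpt).trans ?_
      rw [ExE_mul_left, ExE_tsum]
      have h4 : ∀ s' : V, ExE E p (fun ω => (NN (wA ω A v u) * if con ω v s' then 1 else 0) *
          Psi nbf q T N s' b x) ≤ ∑' s : V, if s ∈ A then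
            2 * (∑' w : V, core T v s u w * T w s') * Psi nbf q T N s' b x else 0 := by
        intro s'
        rw [ExE_mul_right]
        refine (mul_le_mul_left (hLev V E p T h0 h1 hD A v u s') _).trans (le_of_eq ?_)
        rw [← ENNReal.tsum_mul_left, ← ENNReal.tsum_mul_right]
        refine tsum_congr fun s => ?_
        split_ifs
        · rfl
        · simp
      refine (mul_le_mul_right (ENNReal.tsum_le_tsum h4) _).trans (le_of_eq ?_)
      rw [ENNReal.tsum_comm, ← ENNReal.tsum_mul_left]
      refine tsum_congr fun s => ?_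
      split_ifs
      · rfl
      · simp
    unfold LL
    refine (NN_sum_le _ _).trans ?_
    refine (Finset.sum_le_sum fun ub _ => hone ub.1 ub.2).trans ?_
    refine (psi_sum_le (drt E) nbf (fun ub hub => hnb _ _ (mem_drt'.1 hub))
      (fun u b => ∑' s : V, if s ∈ A then 2 * q * ∑' s' : V,
          2 * (∑' w : V, core T v s u w * T w s') * Psi nbf q T N s' b x else 0)).trans
      (le_of_eq ?_)
    have h5 : ∀ u : V, ∑ b ∈ nbf u, ∑' s : V, (if s ∈ A then 2 * q * ∑' s' : V,
          2 * (∑' w : V, core T v s u w * T w s') * Psi nbf q T N s' b x else 0) =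
        ∑' s : V, ∑ b ∈ nbf u, (if s ∈ A then 2 * q * ∑' s' : V,
          2 * (∑' w : V, core T v s u w * T w s') * Psi nbf q T N s' b x else 0) := by
      intro u
      rw [Summable.tsum_finsetSum (fun b _ => ENNReal.summable)]
    rw [tsum_congr h5, ENNReal.tsum_comm]
    refine tsum_congr fun s => ?_
    split_ifs
    · rfl
    · simp

end Pool.LE
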