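import Pool.Agent.Helper84.LE.M_SymT
import Pool.Agent.Helper84.LE.BGR

/-! LE module CoefLoc0: coefficients depend on a box only. -/

set_option autoImplicit false

namespace Pool.LE

theorem cl0_Eb_mono {d m n : ℕ} (h : m ≤ n) : Eb d m ⊆ Eb d n := by
  have hb : ∀ x : Zd d, x ∈ bx d m → x ∈ bx d n := by
    intro x hx
    rw [sym_mem_bx] at hx ⊢
    exact fun i => (hx i).trans (by exact_mod_cast h)
  intro e he
  unfold Eb at he ⊢
  rw [sym_mem_ES] at he ⊢
  obtain ⟨x, hx, i, hxi, rfl⟩ := he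
  exact ⟨x, hb x hx, i, hb _ hxi, rfl⟩

theorem cl0_coeff_mon {V : Type} [DecidableEq V] (ω : Finset (Sym2 V)) (v x : V) (n : ℕ)
    [Decidable (con ω v x ∧ (gr ω).dist v x = n)] :
    (mon ω v x).coeff n = if con ω v x ∧ (gr ω).dist v x = n then 1 else 0 := by
  classical
  unfold mon
  by_cases h : con ω v x
  · rw [if_pos h, Polynomial.coeff_X_pow]
    by_cases h' : n = (gr ω).dist v x
    · rw [if_pos h', if_pos ⟨h, h'.symm⟩]
    · rw [if_neg h', if_neg (fun hh => h' hh.2.symm)]
  · rw [if_neg h, if_neg (fun hh => h hh.1), Polynomial.coeff_zero]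

theorem hCoefLoc0 (hW : StWalkBox) : StCoefLoc0 := by
  classical
  intro d p n E F v x hE hFE hF
  unfold GG
  rw [coeff_Ex, coeff_Ex, ← Ex_inter hFE p (fun ω => (mon ω v x).coeff n)]
  refine Ex_congr fun ω hω => ?_
  have hωl : (ω : Set (Sym2 (Zd d))) ⊆ latE d := (Finset.coe_subset.2 hω).trans hE
  -- a geodesic of length at most `n` lies in `F`
  have key : ∀ q : (gr ω).Walk v x, q.length ≤ n →
      ∃ q' : (gr (ω ∩ F)).Walk v x, q'.length = q.length := by
    intro q hq
    obtain ⟨q', -, -, h⟩ := exists_walk_of_edges (η := ω ∩ F) q (by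
      intro e he
      refine Finset.mem_inter.2 ⟨mem_edges_gr q he, hF ?_⟩
      have h1 := (hW d ω v x hωl q).2 e he
      unfold trE at h1 ⊢
      rw [Finset.mem_map] at h1 ⊢
      obtain ⟨e', he', rfl⟩ := h1
      exact ⟨e', cl0_Eb_mono hq he', rfl⟩)
    exact ⟨q', h⟩
  rw [cl0_coeff_mon, cl0_coeff_mon]
  have hiff : (con ω v x ∧ (gr ω).dist v x = n) ↔
      (con (ω ∩ F) v x ∧ (gr (ω ∩ F)).dist v x = n) := by
    constructor
    · rintro ⟨hc, hd⟩
      obtain ⟨q, -, hq⟩ := exists_path_dist hc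
      obtain ⟨q', hq'⟩ := key q (by rw [hq, hd])
      have hc' : con (ω ∩ F) v x := ⟨q'⟩
      refine ⟨hc', le_antisymm ?_ ?_⟩
      · have := SimpleGraph.dist_le q'
        rw [hq', hq, hd] at this
        exact this
      · have := dist_mono (Finset.inter_subset_left (s₁ := ω) (s₂ := F)) hc'
        rw [hd] at this
        exact this
    · rintro ⟨hc, hd⟩
      have hc' : con ω v x := con_mono Finset.inter_subset_left hc
      have h1 : (gr ω).dist v x ≤ n := by
        have := dist_mono (Finset.inter_subset_left (s₁ := ω) (s₂ := F)) hc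
        rwa [hd] at this
      refine ⟨hc', le_antisymm h1 ?_⟩
      obtain ⟨q, -, hq⟩ := exists_path_dist hc'
      obtain ⟨q', hq'⟩ := key q (by rw [hq]; exact h1)
      have := SimpleGraph.dist_le q'
      rw [hd, hq', hq] at this
      exact this
  by_cases h : con ω v x ∧ (gr ω).dist v x = n
  · rw [if_pos h, if_pos (hiff.1 h)]
  · rw [if_neg h, if_neg (fun h' => h (hiff.2 h'))]

end Pool.LE
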