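import Mathlib

/-!
# Lace expansion for the intrinsic distance: definitions (MP_e167eb)
Finite percolation on an arbitrary vertex type `V`; configurations are finite sets of edges.
-/

set_option autoImplicit false

open scoped BigOperators Polynomial
open Polynomial

namespace Pool.LE

section Abstract

variable {V : Type} [DecidableEq V]

/-- weight of the configuration `ω` inside the edge set `E` -/
noncomputable def wt (E : Finset (Sym2 V)) (p : ℝ) (ω : Finset (Sym2 V)) : ℝ :=
  p ^ ω.card * (1 - p) ^ (E \ ω).card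

/-- expectation with values in a real vector space -/
noncomputable def Ex {M : Type} [AddCommMonoid M] [Module ℝ M] (E : Finset (Sym2 V)) (p : ℝ)
    (f : Finset (Sym2 V) → M) : M :=
  ∑ ω ∈ E.powerset, wt E p ω • f ω

/-- expectation of a function with values in `[0,∞]` -/
noncomputable def ExE (E : Finset (Sym2 V)) (p : ℝ) (f : Finset (Sym2 V) → ENNReal) : ENNReal :=
  ∑ ω ∈ E.powerset, ENNReal.ofReal (wt E p ω) * f ω

open Classical in
/-- probability of an event -/
noncomputable def Pr (E : Finset (Sym2 V)) (p : ℝ) (A : Finset (Sym2 V) → Prop) : ENNReal :=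
  ExE E p (fun ω => if A ω then 1 else 0)

/-- the graph of a configuration -/
def gr (ω : Finset (Sym2 V)) : SimpleGraph V := SimpleGraph.fromEdgeSet (ω : Set (Sym2 V))

/-- `x` and `y` are connected in `ω` -/
def con (ω : Finset (Sym2 V)) (x y : V) : Prop := (gr ω).Reachable x y

open Classical in
/-- edges of `ω` without endpoint in `A` -/
noncomputable def rst (ω : Finset (Sym2 V)) (A : Set V) : Finset (Sym2 V) :=
  ω.filter (fun e => ∀ v ∈ e, v ∉ A)

open Classical in
/-- `z ^ dist` or `0` -/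
noncomputable def mon (ω : Finset (Sym2 V)) (x y : V) : ℝ[X] :=
  if con ω x y then X ^ (gr ω).dist x y else 0

open Classical in
/-- `z ^ dist` where the vertices of `A` are forbidden -/
noncomputable def monA (ω : Finset (Sym2 V)) (A : Set V) (x y : V) : ℝ[X] :=
  if x ∈ A then 0 else mon (rst ω A) x y

/-- connected and no pivotal edge -/
def dbl (ω : Finset (Sym2 V)) (x y : V) : Prop := con ω x y ∧ ∀ e ∈ ω, con (ω.erase e) x y

/-- `(a,b)` is a directed pivotal edge for `v → x` -/
def piv (ω : Finset (Sym2 V)) (v x a b : V) : Prop :=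
  s(a, b) ∈ ω ∧ con (ω.erase s(a, b)) v a ∧ con (ω.erase s(a, b)) b x ∧ ¬ con (ω.erase s(a, b)) v x

/-- the directed edges of `E` -/
noncomputable def drt (E : Finset (Sym2 V)) : Finset (V × V) :=
  E.biUnion fun e => {Quot.out e, (Quot.out e).swap}

/-- cluster of `v` when the edge `ab` is removed -/
def cl (ω : Finset (Sym2 V)) (a b v : V) : Set V := {y | con (ω.erase s(a, b)) v y}

open Classical in
/-- the weight of the expansion -/
noncomputable def wA (ω : Finset (Sym2 V)) (A : Set V) (v x : V) : ℝ[X] :=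
  (if dbl ω v x then mon ω v x - monA ω A v x else 0) +
  ∑ cb ∈ drt ω, if piv ω v x cb.1 cb.2 ∧ dbl ω cb.2 x then
    X * monA ω A v cb.1 * (mon ω cb.2 x - monA ω A cb.2 x) else 0

/-- two-point function -/
noncomputable def GG (E : Finset (Sym2 V)) (p : ℝ) (v x : V) : ℝ[X] := Ex E p (fun ω => mon ω v x)

/-- restricted two-point function -/
noncomputable def GA (E : Finset (Sym2 V)) (p : ℝ) (A : Set V) (v x : V) : ℝ[X] :=
  Ex E p (fun ω => monA ω A v x)

/-- difference -/
noncomputable def DD (E : Finset (Sym2 V)) (p : ℝ) (A : Set V) (v x : V) : ℝ[X] :=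
  GG E p v x - GA E p A v x

/-- expectation of the weight -/
noncomputable def WW (E : Finset (Sym2 V)) (p : ℝ) (A : Set V) (v x : V) : ℝ[X] :=
  Ex E p (fun ω => wA ω A v x)

/-- one step of the expansion -/
noncomputable def LL (E : Finset (Sym2 V)) (p : ℝ) (Φ : Set V → V → V → ℝ[X]) :
    Set V → V → V → ℝ[X] := fun A v x =>
  ∑ ub ∈ drt E, Ex E p (fun ω => C p * X * wA ω A v ub.1 * Φ (cl ω ub.1 ub.2 v) ub.2 x)

/-- the lace expansion coefficient of the finite graph, `M + 1` terms -/
noncomputable def gE (E : Finset (Sym2 V)) (p : ℝ) (M : ℕ) (v x : V) : ℝ[X] :=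
  ∑ N ∈ Finset.range (M + 1), (-1) ^ N * ((LL E p)^[N] (WW E p)) {v} v x

/-- submultiplicative norm of polynomials -/
noncomputable def NN (P : ℝ[X]) : ENNReal :=
  ∑' n : ℕ, (1 + (n : ENNReal)) * ENNReal.ofReal |P.coeff n|

/-! ## Chains -/

/-- a trail from `c.1` to `c.2.2` inside `η` which passes through the marks `c.2.1` -/
def TR (η : Finset (Sym2 V)) (c : V × List V × V) : Prop :=
  ∃ p : (gr η).Walk c.1 c.2.2, p.IsTrail ∧ ∀ m ∈ c.2.1, m ∈ p.support

/-- edge-disjoint realisation of a list of chains -/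
def DR : List (V × List V × V) → Finset (Sym2 V) → Prop
  | [], _ => True
  | c :: L, ω => ∃ η ⊆ ω, TR η c ∧ DR L (ω \ η)

/-- endpoints and marks of a list of chains -/
def pts (L : List (V × List V × V)) : List V := L.flatMap fun c => c.1 :: c.2.2 :: c.2.1

/-- ordered chain weight -/
noncomputable def cw (T : V → V → ENNReal) : V → List V → V → ENNReal
  | x, [], y => T x y
  | x, z :: l, y => T x z * cw T z l y

/-- chain weight, all orders of the marks -/
noncomputable def cm (T : V → V → ENNReal) (c : V × List V × V) : ENNReal :=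
  (c.2.1.permutations.map (fun l => cw T c.1 l c.2.2)).sum

/-- weight of a list of chains -/
noncomputable def cmL (T : V → V → ENNReal) (L : List (V × List V × V)) : ENNReal :=
  (L.map (cm T)).prod

/-- all ways to add the mark `z` to one of the chains -/
def ins (z : V) : List (V × List V × V) → List (List (V × List V × V))
  | [] => []
  | c :: L => ((c.1, z :: c.2.1, c.2.2) :: L) :: (ins z L).map (fun L' => c :: L')

/-- all ways to add the marks of the list `Z` -/
def insL : List V → List (V × List V × V) → List (List (V × List V × V))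
  | [], L => [L]
  | z :: Z, L => (ins z L).flatMap (insL Z)

/-- composition of kernels -/
noncomputable def kc (T S : V → V → ENNReal) (x y : V) : ENNReal := ∑' z, T x z * S z y

/-- powers of a kernel -/
noncomputable def kp (T : V → V → ENNReal) : ℕ → V → V → ENNReal
  | 0 => fun x y => if x = y then 1 else 0
  | n + 1 => kc T (kp T n)

/-- the event of one level -/
def Bt (ω : Finset (Sym2 V)) (v u t s : V) : Prop :=
  (t = v ∨ ∃ c, piv ω v u c t) ∧ dbl ω t u ∧ ∃ q : (gr ω).Walk t u, q.IsPath ∧ s ∈ q.support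

/-- `y` lies on a path from `v` to `u` -/
def Yp (ω : Finset (Sym2 V)) (v u y : V) : Prop :=
  ∃ q : (gr ω).Walk v u, q.IsPath ∧ y ∈ q.support

/-- the kernel of one level without the last line -/
noncomputable def core (T : V → V → ENNReal) (v s u w : V) : ENNReal :=
  ∑' t : V, ∑' w' : V, ∑' z₁ : V, ∑' z₂ : V, ∑' y : V,
    ((ins z₁ [(v, [t, w'], s), (t, [u], w')]).map (fun L₁ =>
      ((ins z₂ L₁).map (fun L₂ =>
        ((ins w ((z₁, [y], z₂) :: L₂)).map (cmL T)).sum)).sum)).sum

/-- the majorants of the expansion -/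
noncomputable def Psi (nb : V → Finset V) (q : ENNReal) (T : V → V → ENNReal) :
    ℕ → V → V → V → ENNReal
  | 0, s, v, x => 2 * ∑' w : V, core T v s x w * T w v
  | N + 1, s, v, x => ∑' u : V, ∑ b ∈ nb u, 2 * q * ∑' s' : V,
      2 * (∑' w : V, core T v s u w * T w s') * Psi nb q T N s' b x

end Abstract

/-! ## The lattice -/

/-- the vertices of the lattice -/
abbrev Zd (d : ℕ) := Fin d → ℤ

/-- nearest neighbours -/
noncomputable def nb {d : ℕ} (x : Zd d) : Finset (Zd d) :=
  Finset.univ.image (fun i : Fin d => x + Pi.single i (1 : ℤ)) ∪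
    Finset.univ.image (fun i : Fin d => x - Pi.single i (1 : ℤ))

/-- the lattice edges -/
def latE (d : ℕ) : Set (Sym2 (Zd d)) := {e | ∃ x : Zd d, ∃ i : Fin d, e = s(x, x + Pi.single i (1 : ℤ))}

/-- the box `[-R,R]^d` -/
noncomputable def bx (d R : ℕ) : Finset (Zd d) :=
  Fintype.piFinset fun _ => Finset.Icc (-(R : ℤ)) (R : ℤ)

/-- lattice edges with both endpoints in `S` -/
noncomputable def ES {d : ℕ} (S : Finset (Zd d)) : Finset (Sym2 (Zd d)) :=
  ((S ×ˢ (Finset.univ : Finset (Fin d))).filter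
    (fun q => q.1 + Pi.single q.2 (1 : ℤ) ∈ S)).image (fun q => s(q.1, q.1 + Pi.single q.2 (1 : ℤ)))

/-- lattice edges of the box -/
noncomputable def Eb (d R : ℕ) : Finset (Sym2 (Zd d)) := ES (bx d R)

/-- squared norm -/
def sq {d : ℕ} (x : Zd d) : ℝ := ∑ i, (x i : ℝ) ^ 2

/-- the weight `2 (1 + |x|²)` -/
def Qw {d : ℕ} (x : Zd d) : ℝ := 2 * (1 + sq x)

/-- probability that the intrinsic distance equals `n` -/
noncomputable def tn (d : ℕ) (p : ℝ) (n : ℕ) (x : Zd d) : ℝ := (GG (Eb d n) p 0 x).coeff n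

/-- connection probability of the whole lattice -/
noncomputable def tauE (d : ℕ) (p : ℝ) (x : Zd d) : ENNReal := ⨆ R : ℕ, Pr (Eb d R) p (fun ω => con ω 0 x)

/-- connection probability of the whole lattice, real valued -/
noncomputable def tau (d : ℕ) (p : ℝ) (x : Zd d) : ℝ := (tauE d p x).toReal

/-- the coefficients of the lace expansion on the lattice -/
noncomputable def gm (d : ℕ) (p : ℝ) : ℕ → Zd d → ℝ
  | m => fun x => tn d p m x - ∑ j : Fin m, ∑ u ∈ bx d j, ∑ b ∈ nb u,
      gm d p j u * p * tn d p (m - 1 - j) (x - b)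

/-- `g_m - δ` -/
noncomputable def hm (d : ℕ) (p : ℝ) (m : ℕ) (x : Zd d) : ℝ :=
  gm d p m x - if m = 0 ∧ x = 0 then 1 else 0

/-- susceptibility -/
noncomputable def chi (d : ℕ) (p : ℝ) : ℝ := ∑' x : Zd d, tau d p x

/-- cosine transform -/
noncomputable def FT {d : ℕ} (f : Zd d → ℝ) (k : Fin d → ℝ) : ℝ :=
  ∑' x : Zd d, f x * Real.cos (∑ i, k i * x i)

/-- cosine transform of `|x|² f` -/
noncomputable def MT {d : ℕ} (f : Zd d → ℝ) (k : Fin d → ℝ) : ℝ :=
  ∑' x : Zd d, sq x * f x * Real.cos (∑ i, k i * x i)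

/-- sine transform of `x_j f` -/
noncomputable def SJ {d : ℕ} (j : Fin d) (f : Zd d → ℝ) (k : Fin d → ℝ) : ℝ :=
  ∑' x : Zd d, (x j : ℝ) * f x * Real.sin (∑ i, k i * x i)

/-- `D̂(k)` -/
noncomputable def Dh {d : ℕ} (k : Fin d → ℝ) : ℝ := (∑ i, Real.cos (k i)) / d

/-- `φ_p(S)` -/
noncomputable def phiS (d : ℕ) (p : ℝ) (S : Finset (Zd d)) : ℝ :=
  p * ∑ x ∈ S, ((nb x \ S).card : ℝ) * (Pr (ES S) p (fun ω => con ω 0 x)).toReal

/-- the critical point found by the expansion -/
noncomputable def pH (d : ℕ) : ℝ :=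
  sSup {p : ℝ | 0 ≤ p ∧ p ≤ 1 / 2 ∧ ∃ S : Finset (Zd d), 0 ∈ S ∧ phiS d p S < 1}

end Pool.LE
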