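import Pool.Agent.Helper84.LE.St5

/-! LE module AE: almost every point of the torus has coordinates in `[-π, π]`. -/

set_option autoImplicit false
open MeasureTheory

namespace Pool.LE

theorem hAE : StAE := by
  intro d
  have hfin : IsFiniteMeasure nu := by
    unfold nu
    refine ⟨?_⟩
    rw [Measure.smul_apply, smul_eq_mul]
    refine ENNReal.mul_lt_top ENNReal.ofReal_lt_top ?_
    rw [Measure.restrict_apply_univ, Real.volume_Ioc]
    exact ENNReal.ofReal_lt_top
  have h1 : ∀ᵐ t ∂nu, |t| ≤ Real.pi := by
    unfold nu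
    refine Measure.ae_smul_measure ?_ _
    filter_upwards [ae_restrict_mem measurableSet_Ioc] with t ht
    rw [abs_le]
    exact ⟨ht.1.le, ht.2⟩
  rw [ae_all_iff]
  intro i
  unfold muT
  have h2 : Filter.Tendsto (Function.eval i) (ae (Measure.pi fun _ : Fin d => nu)) (ae nu) :=
    Measure.tendsto_eval_ae_ae (μ := fun _ : Fin d => nu) (i := i)
  exact h2.eventually h1

end Pool.LE
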