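import Pool.Agent.Helper84.LE.St1
import Pool.Agent.Helper84.LE.BKP
import Pool.Agent.Helper84.LE.BNN

/-! LE module Diag (plan 3.12). -/

set_option autoImplicit false
open scoped BigOperators ENNReal Polynomial

namespace Pool.LE

namespace DiagM

variable {V : Type} [DecidableEq V]

theorem one_le_K {T K q : V → V → ENNReal} {B : ENNReal} (h : WK T K q B) (x : V) : 1 ≤ K x x :=
  calc (1 : ENNReal) = 1 * 1 := (one_mul 1).symm
    _ ≤ q x x * T x x := mul_le_mul' (h.one_le_q x x) (h.one_le_T x)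
    _ ≤ K x x := h.le_K x x

theorem T_le_K {T K q : V → V → ENNReal} {B : ENNReal} (h : WK T K q B) (x y : V) : T x y ≤ K x y :=
  calc T x y = 1 * T x y := (one_mul _).symm
    _ ≤ q x y * T x y := mul_le_mul' (h.one_le_q x y) le_rfl
    _ ≤ K x y := h.le_K x y

/-- the diagram of the term `N = 0` -/
theorem zero_sum {T K q : V → V → ENNReal} {B : ENNReal} (h : WK T K q B) (nbs : Finset V)
    (q₀ : ENNReal) (v : V) :
    ∑' x : V, q v x * (∑' y : V, T v y * T y x * ∑ b ∈ nbs, q₀ * T b x) ≤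
      ∑ b ∈ nbs, q₀ * kp K 32 b v := by
  have e1 : ∀ x : V, q v x * (∑' y : V, T v y * T y x * ∑ b ∈ nbs, q₀ * T b x) ≤
      ∑' y : V, ∑ b ∈ nbs, q₀ * (K b x * (K x y * K y v)) := by
    intro x
    rw [← ENNReal.tsum_mul_left]
    refine ENNReal.tsum_le_tsum fun y => ?_
    rw [Finset.mul_sum, Finset.mul_sum]
    refine Finset.sum_le_sum fun b _ => ?_
    calc q v x * (T v y * T y x * (q₀ * T b x))
        ≤ (q v y * q y x) * (T v y * T y x * (q₀ * K b x)) := by
          refine mul_le_mul' (h.q_mul v y x) (mul_le_mul' le_rfl (mul_le_mul' le_rfl ?_))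
          exact T_le_K h b x
      _ = (q v y * T v y) * (q y x * T y x) * (q₀ * K b x) := by ring
      _ ≤ K v y * K y x * (q₀ * K b x) :=
          mul_le_mul' (mul_le_mul' (h.le_K v y) (h.le_K y x)) le_rfl
      _ = q₀ * (K b x * (K x y * K y v)) := by
          rw [h.K_symm v y, h.K_symm y x]; ring
  have e2 : ∀ b : V, (∑' x : V, ∑' y : V, q₀ * (K b x * (K x y * K y v))) = q₀ * kp K 3 b v := by
    intro b
    have e3 : kp K 3 b v = ∑' x : V, K b x * ∑' y : V, K x y * K y v := by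
      show kc K (kp K 2) b v = _
      rw [kp_two]
      rfl
    rw [e3, ← ENNReal.tsum_mul_left]
    refine tsum_congr fun x => ?_
    rw [ENNReal.tsum_mul_left, ENNReal.tsum_mul_left]
  calc ∑' x : V, q v x * (∑' y : V, T v y * T y x * ∑ b ∈ nbs, q₀ * T b x)
      ≤ ∑' x : V, ∑' y : V, ∑ b ∈ nbs, q₀ * (K b x * (K x y * K y v)) :=
        ENNReal.tsum_le_tsum e1
    _ = ∑ b ∈ nbs, ∑' x : V, ∑' y : V, q₀ * (K b x * (K x y * K y v)) := by
        rw [← Summable.tsum_finsetSum (fun _ _ => ENNReal.summable)]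
        refine tsum_congr fun x => ?_
        rw [Summable.tsum_finsetSum (fun _ _ => ENNReal.summable)]
    _ = ∑ b ∈ nbs, q₀ * kp K 3 b v := Finset.sum_congr rfl fun b _ => e2 b
    _ ≤ ∑ b ∈ nbs, q₀ * kp K 32 b v :=
        Finset.sum_le_sum fun b _ =>
          mul_le_mul' le_rfl (kp_le_kp (one_le_K h) (by norm_num) b v)

theorem geom_le (r : ENNReal) (hr : r ≤ 1 / 2) (M : ℕ) : ∑ N ∈ Finset.range M, r ^ N ≤ 2 := by
  calc ∑ N ∈ Finset.range M, r ^ N ≤ ∑' N : ℕ, r ^ N := ENNReal.sum_le_tsum _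
    _ = (1 - r)⁻¹ := ENNReal.tsum_geometric r
    _ ≤ (1 - 1 / 2)⁻¹ := by
        refine ENNReal.inv_le_inv.2 ?_
        exact tsub_le_tsub_left hr 1
    _ = 2 := by
        rw [one_div, ENNReal.one_sub_inv_two, inv_inv]

end DiagM

open DiagM in
theorem hDiag (hPsi : StPsi) (hRec : StRec) (hN0a : StN0a) (hN0b : StN0b) : StDiag := by
  intro V _ E p T K q B eps nbf hp0 hp1 hdom hnb hWK h4 heps hsmall M v
  classical
  have hB : 1 ≤ B := (one_le_kp (one_le_K hWK) 32 v).trans (hWK.le_B v v)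
  have e1 : ∀ x : V, NN (gE E p M v x - if x = v then 1 else 0) ≤
      NN (WW E p {v} v x - if x = v then 1 else 0) +
        ∑ N ∈ Finset.range M, Psi nbf (ENNReal.ofReal p) T (N + 1) v v x := by
    intro x
    have e2 : gE E p M v x - (if x = v then 1 else 0) =
        (WW E p {v} v x - if x = v then 1 else 0) +
          ∑ N ∈ Finset.range M, (-1) ^ (N + 1) * ((LL E p)^[N + 1] (WW E p)) {v} v x := by
      unfold gE
      rw [Finset.sum_range_succ']
      simp only [pow_zero, one_mul, Function.iterate_zero, id_eq]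
      ring
    rw [e2]
    refine (NN_add_le _ _).trans (add_le_add le_rfl ?_)
    refine (NN_sum_le _ _).trans (Finset.sum_le_sum fun N _ => ?_)
    rw [NN_neg_one_pow_mul]
    refine (hPsi V E p T nbf hp0 hp1 hdom hnb (N + 1) {v} v x).trans (le_of_eq ?_)
    rw [tsum_eq_single v]
    · simp
    · intro s hs
      simp [hs]
  have e3 : ∀ x : V, NN (WW E p {v} v x - if x = v then 1 else 0) ≤
      ∑' y : V, T v y * T y x * ∑ b ∈ nbf v, ENNReal.ofReal p * T b x := by
    intro x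
    by_cases hx : x = v
    · subst hx
      rw [if_pos rfl, hN0a V E p x, sub_self, NN_zero]
      exact bot_le
    · rw [if_neg hx, sub_zero]
      exact hN0b V E p T nbf hp0 hp1 hdom hnb v x hx
  have e4 : ∑' x : V, q v x * NN (WW E p {v} v x - if x = v then 1 else 0) ≤ eps :=
    (ENNReal.tsum_le_tsum fun x => mul_le_mul' le_rfl (e3 x)).trans
      ((zero_sum hWK (nbf v) (ENNReal.ofReal p) v).trans (heps v v))
  have e5 : ∀ N : ℕ, ∑' x : V, q v x * Psi nbf (ENNReal.ofReal p) T (N + 1) v v x ≤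
      10 ^ 7 * B ^ 6 * eps * (10 ^ 4 * B ^ 2 * eps) ^ N :=
    fun N => hRec V T K q B eps (ENNReal.ofReal p) nbf hWK h4 heps N v
  calc ∑' x : V, q v x * NN (gE E p M v x - if x = v then 1 else 0)
      ≤ ∑' x : V, (q v x * NN (WW E p {v} v x - if x = v then 1 else 0) +
          ∑ N ∈ Finset.range M, q v x * Psi nbf (ENNReal.ofReal p) T (N + 1) v v x) := by
        refine ENNReal.tsum_le_tsum fun x => ?_
        rw [← Finset.mul_sum, ← mul_add]
        exact mul_le_mul' le_rfl (e1 x)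
    _ = (∑' x : V, q v x * NN (WW E p {v} v x - if x = v then 1 else 0)) +
          ∑ N ∈ Finset.range M, ∑' x : V, q v x * Psi nbf (ENNReal.ofReal p) T (N + 1) v v x := by
        rw [ENNReal.tsum_add, Summable.tsum_finsetSum (fun _ _ => ENNReal.summable)]
    _ ≤ eps + ∑ N ∈ Finset.range M, 10 ^ 7 * B ^ 6 * eps * (10 ^ 4 * B ^ 2 * eps) ^ N :=
        add_le_add e4 (Finset.sum_le_sum fun N _ => e5 N)
    _ = eps + 10 ^ 7 * B ^ 6 * eps * ∑ N ∈ Finset.range M, (10 ^ 4 * B ^ 2 * eps) ^ N := by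
        rw [← Finset.mul_sum]
    _ ≤ B ^ 6 * eps + 10 ^ 7 * B ^ 6 * eps * 2 := by
        refine add_le_add ?_ (mul_le_mul' le_rfl (geom_le _ hsmall M))
        calc eps = 1 * eps := (one_mul _).symm
          _ ≤ B ^ 6 * eps := mul_le_mul' (one_le_pow₀ hB) le_rfl
    _ = (20000001 : ENNReal) * (B ^ 6 * eps) := by ring
    _ ≤ (3 * 10 ^ 7) * (B ^ 6 * eps) := by
        refine mul_le_mul' ?_ le_rfl
        norm_num
    _ = 3 * 10 ^ 7 * B ^ 6 * eps := by ring

end Pool.LE
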