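import Pool.Agent.Helper84.LE.St5

/-! LE module Imp: improvement for abstract `t`. -/

set_option autoImplicit false
open scoped BigOperators Topology
open MeasureTheory Filter

namespace Pool.LE

theorem hImp (hF : StImpF) (hR : StImpR) (hSec : StSec) (hDh : StDh) : StImp := by
  intro d p t h hd hp ht htS hh hhS hη hχ heq
  have hd0 : 0 < d := by omega
  have hD0 : Dh (0 : Fin d → ℝ) = 1 := by
    unfold Dh
    have hd' : (d : ℝ) ≠ 0 := Nat.cast_ne_zero.2 hd0.ne'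
    simp [hd']
  have hz : ∀ i : Fin d, |(0 : Fin d → ℝ) i| ≤ Real.pi := by
    intro i
    rw [Pi.zero_apply, abs_zero]
    exact Real.pi_pos.le
  have hs0 := hSec d h hd0 hh hhS 0 hz
  have hη0 : 0 ≤ nQ h := (abs_nonneg _).trans hs0.2.2.2
  have hE0 : FT t 0 * (1 - 2 * d * p * (1 + FT h 0)) = 1 + FT h 0 := by
    have h1 := (hF d p t h hd0 ht htS hh hhS heq 0).1
    rw [hD0, mul_one] at h1
    exact h1
  have main : ∀ k : Fin d → ℝ, (∀ i, |k i| ≤ Real.pi) →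
      2 * (d : ℝ) * p ≤ 2 ∧ |FT t k| * (1 - (1 - 1 / FT t 0) * Dh k) ≤ 2 ∧
        |MT t k| * (1 - (1 - 1 / FT t 0) * Dh k) ^ 2 ≤ 2 := by
    intro k hk
    obtain ⟨h1, S, m, hS, hm, hst, hM⟩ := hF d p t h hd0 ht htS hh hhS heq k
    obtain ⟨s1, s2, s3, s4⟩ := hSec d h hd0 hh hhS k hk
    obtain ⟨e1, _, e3, _⟩ := hDh d k hd0
    exact hR d p (FT t 0) (nQ h) (Dh k) (FT t k) (FT h k) (FT h 0) (MT t k) (MT h k) m S
      (fun j => SJ j h k) (fun j => SJ j t k) (fun j => Real.sin (k j)) hd hp hχ hη0 hη e1 s4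
      hs0.2.2.2 s1 hE0 h1 s2 e3 s3 hS hm hst hM
  exact ⟨(main 0 hz).1, fun k hk => (main k hk).2⟩

end Pool.LE
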